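import Pool.Agent.Lib_MP_f1a94e_aq.Left

/-!
# Piece EQUID: equidistribution of Farey edges in congruence classes
-/

set_option autoImplicit false

namespace Pool.Agent.OmAll

open Finset Pool.Agent.GaussMR Filter

namespace EquidAux

/-- multiplication by `i` -/
def rt (z : G) : G := ⟨-z.im, z.re⟩

theorem det_rt (u v : G) : det (rt u) (rt v) = det u v := by
  unfold det rt
  ring

theorem dot_rt (u v : G) : dot (rt u) (rt v) = dot u v := by
  unfold dot rt
  ring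

theorem nm_rt (u : G) : nm (rt u) = nm u := by
  have h : (nm (rt u) : ℤ) = nm u := by
    rw [nm_eq, nm_eq]
    unfold rt
    ring
  exact_mod_cast h

theorem cg_rt (M : ℕ) (u v : G) : cg M (rt u) (rt v) ↔ cg M u v := by
  unfold cg rt
  constructor
  · rintro ⟨h1, h2⟩
    refine ⟨h2, ?_⟩
    have : u.im - v.im = -(-u.im - -v.im) := by ring
    rw [this]
    exact (dvd_neg).mpr h1
  · rintro ⟨h1, h2⟩
    refine ⟨?_, h1⟩
    have : -u.im - -v.im = -(u.im - v.im) := by ring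
    rw [this]
    exact (dvd_neg).mpr h2

theorem rt_inj : Function.Injective rt := by
  intro u v h
  have h1 := congrArg Zsqrtd.re h
  have h2 := congrArg Zsqrtd.im h
  simp only [rt, neg_inj] at h1 h2
  exact Zsqrtd.ext h2 h1

theorem det_it (k : ℕ) (u v : G) : det (rt^[k] u) (rt^[k] v) = det u v := by
  induction k generalizing u v with
  | zero => rfl
  | succ k ih => rw [Function.iterate_succ_apply, Function.iterate_succ_apply, ih, det_rt]

theorem dot_it (k : ℕ) (u v : G) : dot (rt^[k] u) (rt^[k] v) = dot u v := by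
  induction k generalizing u v with
  | zero => rfl
  | succ k ih => rw [Function.iterate_succ_apply, Function.iterate_succ_apply, ih, dot_rt]

theorem nm_it (k : ℕ) (u : G) : nm (rt^[k] u) = nm u := by
  induction k generalizing u with
  | zero => rfl
  | succ k ih => rw [Function.iterate_succ_apply, ih, nm_rt]

theorem cg_it (M : ℕ) (k : ℕ) (u v : G) : cg M (rt^[k] u) (rt^[k] v) ↔ cg M u v := by
  induction k generalizing u v with
  | zero => rfl
  | succ k ih => rw [Function.iterate_succ_apply, Function.iterate_succ_apply, ih, cg_rt]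

/-- rotation of a pair -/
def rp (k : ℕ) (e : G × G) : G × G := (rt^[k] e.1, rt^[k] e.2)

theorem rp_inj (k : ℕ) : Function.Injective (rp k) := by
  rintro ⟨a, b⟩ ⟨c, d⟩ h
  have h1 := congrArg Prod.fst h
  have h2 := congrArg Prod.snd h
  exact Prod.ext (rt_inj.iterate k h1) (rt_inj.iterate k h2)

theorem rt_four (z : G) : rt^[4] z = z := by
  show rt (rt (rt (rt z))) = z
  unfold rt
  apply Zsqrtd.ext <;> simp

theorem rp_surj (k : ℕ) (hk : k ≤ 4) (e : G × G) : ∃ e', rp k e' = e := by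
  refine ⟨rp (4 - k) e, ?_⟩
  unfold rp
  ext1
  · show rt^[k] (rt^[4 - k] e.1) = e.1
    rw [← Function.iterate_add_apply, Nat.add_sub_cancel' hk, rt_four]
  · show rt^[k] (rt^[4 - k] e.2) = e.2
    rw [← Function.iterate_add_apply, Nat.add_sub_cancel' hk, rt_four]

theorem mem_NE_rp (M : ℕ) (γ : G × G) (s t x : ℝ) (k : ℕ) (e : G × G) :
    rp k e ∈ NE M (rp k γ) s t x ↔ e ∈ NE M γ s t x := by
  unfold NE rp
  simp only [Set.mem_ofPred_eq, det_it, dot_it, nm_it, cg_it]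

theorem ncard_rot (M : ℕ) (γ : G × G) (s t x : ℝ) (k : ℕ) (hk : k ≤ 4) (S : Set G) :
    {e : G × G | e ∈ NE M γ s t x ∧ rt^[k] e.1 ∈ S}.ncard =
      {e : G × G | e ∈ NE M (rp k γ) s t x ∧ e.1 ∈ S}.ncard := by
  rw [← Set.ncard_image_of_injective _ (rp_inj k)]
  congr 1
  ext e
  constructor
  · rintro ⟨e', ⟨h1, h2⟩, rfl⟩
    exact ⟨(mem_NE_rp M γ s t x k e').mpr h1, h2⟩
  · rintro ⟨h1, h2⟩
    obtain ⟨e', rfl⟩ := rp_surj k hk e
    exact ⟨e', ⟨(mem_NE_rp M γ s t x k e').mp h1, h2⟩, rfl⟩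

theorem mem_cone (z : G) : z ∈ cone (1 : G) ⟨0, 1⟩ ↔ 0 ≤ z.re ∧ 0 ≤ z.im := by
  unfold cone
  constructor
  · rintro ⟨α, β, rfl, h1, h2⟩
    simp [h1, h2]
  · rintro ⟨h1, h2⟩
    refine ⟨z.re, z.im, ?_, h1, h2⟩
    apply Zsqrtd.ext <;> simp

theorem mem_cone0 (z : G) : z ∈ cone0 (1 : G) ⟨0, 1⟩ ↔ 0 < z.re ∧ 0 < z.im := by
  unfold cone0
  constructor
  · rintro ⟨α, β, rfl, h1, h2⟩
    simp [h1, h2]
  · rintro ⟨h1, h2⟩
    refine ⟨z.re, z.im, ?_, h1, h2⟩
    apply Zsqrtd.ext <;> simp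

theorem exists_quad (z : G) : ∃ k ∈ range 4, rt^[k] z ∈ cone (1 : G) ⟨0, 1⟩ := by
  rcases le_total 0 z.re with h1 | h1 <;> rcases le_total 0 z.im with h2 | h2
  · exact ⟨0, by simp, (mem_cone _).mpr ⟨h1, h2⟩⟩
  · refine ⟨1, by simp, (mem_cone _).mpr ?_⟩
    show 0 ≤ -z.im ∧ 0 ≤ z.re
    omega
  · refine ⟨3, by simp, (mem_cone _).mpr ?_⟩
    show 0 ≤ - -z.im ∧ 0 ≤ -z.re
    omega
  · refine ⟨2, by simp, (mem_cone _).mpr ?_⟩
    show 0 ≤ -z.re ∧ 0 ≤ -z.im
    omega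

theorem quad_unique (z : G) {k l : ℕ} (hk : k ∈ range 4) (hl : l ∈ range 4)
    (h : rt^[k] z ∈ cone0 (1 : G) ⟨0, 1⟩) (h' : rt^[l] z ∈ cone0 (1 : G) ⟨0, 1⟩) : k = l := by
  rw [mem_cone0] at h h'
  rw [Finset.mem_range] at hk hl
  have e0 : rt^[0] z = z := rfl
  have e1 : rt^[1] z = ⟨-z.im, z.re⟩ := rfl
  have e2 : rt^[2] z = ⟨-z.re, -z.im⟩ := rfl
  have e3 : rt^[3] z = ⟨- -z.im, -z.re⟩ := rfl
  interval_cases k <;> interval_cases l <;> simp only [e0, e1, e2, e3] at h h' <;> omega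

theorem fr_one : Fr (1 : G) ⟨0, 1⟩ := by
  unfold Fr det
  simp

theorem sqrt_small (e : ℝ) (he : 0 < e) : ∀ᶠ x : ℝ in atTop, Real.sqrt x + 1 ≤ e * x := by
  filter_upwards [eventually_ge_atTop (max 1 (4 / e ^ 2))] with x hx
  have h1 : 1 ≤ x := le_trans (le_max_left _ _) hx
  have h2 : 4 / e ^ 2 ≤ x := le_trans (le_max_right _ _) hx
  have h3 : 1 ≤ Real.sqrt x := by
    rw [Real.one_le_sqrt]
    exact h1
  have h4 : Real.sqrt x * Real.sqrt x = x := Real.mul_self_sqrt (by linarith)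
  have h5 : 2 / e ≤ Real.sqrt x := by
    apply Real.le_sqrt_of_sq_le
    rw [div_pow]
    norm_num
    exact h2
  have h6 : 2 ≤ e * Real.sqrt x := by
    rw [div_le_iff₀ he] at h5
    linarith
  calc Real.sqrt x + 1 ≤ 2 * Real.sqrt x := by linarith
    _ ≤ (e * Real.sqrt x) * Real.sqrt x := mul_le_mul_of_nonneg_right h6 (by linarith)
    _ = e * x := by rw [mul_assoc, h4]

/-- the number of edges -/
noncomputable def N (M : ℕ) (γ : G × G) (s t x : ℝ) : ℝ := ((NE M γ s t x).ncard : ℝ)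

open Classical in
/-- upper bound by a finite cover -/
theorem upper (M : ℕ) (γ : G × G) (s t x : ℝ) (A : Finset (G × G × ℕ)) (L : Finset (G × G))
    (hcov : ∀ V ∈ cone (1 : G) ⟨0, 1⟩, (∃ a ∈ A, V ∈ arc a.1 a.2.1 a.2.2 M) ∨
      ∃ l ∈ L, V ∈ cone l.1 l.2) :
    N M γ s t x ≤ ∑ k ∈ range 4, (∑ a ∈ A,
      ({e : G × G | e ∈ NE M (rp k γ) s t x ∧ e.1 ∈ arc a.1 a.2.1 a.2.2 M}.ncard : ℝ) +
        ∑ l ∈ L, ({e : G × G | e ∈ NE M (rp k γ) s t x ∧ e.1 ∈ cone l.1 l.2}.ncard : ℝ)) := by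
  set F := (NE_finite M γ s t x).toFinset with hF
  have hcard : ∀ (k : ℕ), k ∈ range 4 → ∀ S : Set G,
      {e : G × G | e ∈ NE M (rp k γ) s t x ∧ e.1 ∈ S}.ncard =
        (F.filter (fun e => rt^[k] e.1 ∈ S)).card := by
    intro k hk S
    rw [← ncard_rot M γ s t x k (by rw [Finset.mem_range] at hk; omega) S,
      ← Set.ncard_coe_finset]
    congr 1
    ext e
    simp [hF]
  have h1 : N M γ s t x = (F.card : ℝ) := by
    unfold N
    rw [hF, Set.ncard_eq_toFinset_card _ (NE_finite M γ s t x)]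
  have h2 : F ⊆ (range 4).biUnion (fun k => A.biUnion (fun a =>
      F.filter (fun e => rt^[k] e.1 ∈ arc a.1 a.2.1 a.2.2 M)) ∪
        L.biUnion (fun l => F.filter (fun e => rt^[k] e.1 ∈ cone l.1 l.2))) := by
    intro e he
    obtain ⟨k, hk, h3⟩ := exists_quad e.1
    rw [mem_biUnion]
    refine ⟨k, hk, ?_⟩
    rw [mem_union, mem_biUnion, mem_biUnion]
    rcases hcov _ h3 with ⟨a, ha, h4⟩ | ⟨l, hl, h4⟩
    · exact Or.inl ⟨a, ha, mem_filter.mpr ⟨he, h4⟩⟩
    · exact Or.inr ⟨l, hl, mem_filter.mpr ⟨he, h4⟩⟩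
  have h3 : F.card ≤ ∑ k ∈ range 4, (∑ a ∈ A,
      (F.filter (fun e => rt^[k] e.1 ∈ arc a.1 a.2.1 a.2.2 M)).card +
        ∑ l ∈ L, (F.filter (fun e => rt^[k] e.1 ∈ cone l.1 l.2)).card) := by
    refine (card_le_card h2).trans (card_biUnion_le.trans (sum_le_sum fun k _ => ?_))
    exact (card_union_le _ _).trans (add_le_add card_biUnion_le card_biUnion_le)
  rw [h1]
  calc (F.card : ℝ) ≤ ((∑ k ∈ range 4, (∑ a ∈ A,
      (F.filter (fun e => rt^[k] e.1 ∈ arc a.1 a.2.1 a.2.2 M)).card +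
        ∑ l ∈ L, (F.filter (fun e => rt^[k] e.1 ∈ cone l.1 l.2)).card) : ℕ) : ℝ) := by
        exact_mod_cast h3
    _ = _ := by
        push_cast
        refine sum_congr rfl fun k hk => ?_
        congr 1
        · exact sum_congr rfl fun a _ => by rw [hcard k hk]
        · exact sum_congr rfl fun l _ => by rw [hcard k hk]

open Classical in
/-- lower bound by disjoint pieces -/
theorem lower (M : ℕ) (γ : G × G) (s t x : ℝ) (A : Finset (G × G × ℕ))
    (hsub : ∀ a ∈ A, arc a.1 a.2.1 a.2.2 M ⊆ cone0 (1 : G) ⟨0, 1⟩)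
    (hdis : ∀ a ∈ A, ∀ a' ∈ A, a ≠ a' → Disjoint (arc a.1 a.2.1 a.2.2 M) (arc a'.1 a'.2.1 a'.2.2 M)) :
    ∑ k ∈ range 4, ∑ a ∈ A,
      ({e : G × G | e ∈ NE M (rp k γ) s t x ∧ e.1 ∈ arc a.1 a.2.1 a.2.2 M}.ncard : ℝ) ≤
        N M γ s t x := by
  set F := (NE_finite M γ s t x).toFinset with hF
  have hcard : ∀ (k : ℕ), k ∈ range 4 → ∀ S : Set G,
      {e : G × G | e ∈ NE M (rp k γ) s t x ∧ e.1 ∈ S}.ncard =
        (F.filter (fun e => rt^[k] e.1 ∈ S)).card := by
    intro k hk S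
    rw [← ncard_rot M γ s t x k (by rw [Finset.mem_range] at hk; omega) S,
      ← Set.ncard_coe_finset]
    congr 1
    ext e
    simp [hF]
  have h1 : N M γ s t x = (F.card : ℝ) := by
    unfold N
    rw [hF, Set.ncard_eq_toFinset_card _ (NE_finite M γ s t x)]
  have h2 : (range 4).biUnion (fun k => A.biUnion (fun a =>
      F.filter (fun e => rt^[k] e.1 ∈ arc a.1 a.2.1 a.2.2 M))) ⊆ F := by
    intro e he
    rw [mem_biUnion] at he
    obtain ⟨k, _, he⟩ := he
    rw [mem_biUnion] at he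
    obtain ⟨a, _, he⟩ := he
    exact (mem_filter.mp he).1
  have h3 : ∑ k ∈ range 4, ∑ a ∈ A,
      (F.filter (fun e => rt^[k] e.1 ∈ arc a.1 a.2.1 a.2.2 M)).card ≤ F.card := by
    refine le_trans (le_of_eq ?_) (card_le_card h2)
    rw [card_biUnion]
    · refine sum_congr rfl fun k hk => ?_
      rw [card_biUnion]
      intro a ha a' ha' hne
      rw [Function.onFun, Finset.disjoint_left]
      intro e he he'
      exact Set.disjoint_left.mp (hdis a ha a' ha' hne) (mem_filter.mp he).2 (mem_filter.mp he').2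
    · intro k hk l hl hne
      rw [Function.onFun, Finset.disjoint_left]
      intro e he he'
      rw [mem_biUnion] at he he'
      obtain ⟨a, ha, he⟩ := he
      obtain ⟨a', ha', he'⟩ := he'
      exact hne (quad_unique e.1 hk hl (hsub a ha (mem_filter.mp he).2)
        (hsub a' ha' (mem_filter.mp he').2))
  rw [h1]
  calc _ = ((∑ k ∈ range 4, ∑ a ∈ A,
      (F.filter (fun e => rt^[k] e.1 ∈ arc a.1 a.2.1 a.2.2 M)).card : ℕ) : ℝ) := by
        push_cast
        refine sum_congr rfl fun k hk => ?_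
        exact sum_congr rfl fun a _ => by rw [hcard k hk]
    _ ≤ (F.card : ℝ) := by exact_mod_cast h3

theorem approx (M : ℕ) (hM : 0 < M) : ∃ C : ℝ → ℝ → ℝ, (∀ s t, 0 < C s t) ∧ ∀ η : ℝ, 0 < η →
    ∃ a : ℝ, 0 ≤ a ∧ ∀ γ : G × G, (M : ℤ) ∣ det γ.1 γ.2 - 1 → ∀ s t : ℝ, s ≤ t → ∀ ε : ℝ, 0 < ε →
      ∀ᶠ x : ℝ in atTop, a * (t - s) * x - ε * x ≤ N M γ s t x ∧
        N M γ s t x ≤ (1 + η) * a * (t - s) * x + C s t * η * x + ε * x := by
  obtain ⟨c, hc⟩ := cop_asymp M hM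
  have hc0 := copC_nonneg M c hc
  choose C hC0 hC using left
  refine ⟨C, hC0, ?_⟩
  intro η hη
  have hM' : (0 : ℝ) < M := by exact_mod_cast hM
  set S0 : ℕ := ⌈3 * (M : ℝ) / η⌉₊ + M + 2 with hS0
  have hS2 : 2 ≤ S0 := by omega
  have hSM : (M : ℝ) ≤ S0 := by
    have : M ≤ S0 := by omega
    exact_mod_cast this
  have hSη : 3 * (M : ℝ) / η ≤ S0 := by
    refine (Nat.le_ceil _).trans ?_
    have : ⌈3 * (M : ℝ) / η⌉₊ ≤ S0 := by omega
    exact_mod_cast this
  have hS0' : (0 : ℝ) < S0 := by exact_mod_cast (by omega : 0 < S0)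
  have hy : ∀ S : ℕ, S0 ≤ S → (1 + (M : ℝ) / S) ^ 2 ≤ 1 + η := by
    intro S hS
    have hSS : (S0 : ℝ) ≤ S := by exact_mod_cast hS
    have hS' : (0 : ℝ) < S := lt_of_lt_of_le hS0' hSS
    have y1 : (M : ℝ) / S ≤ 1 := by
      rw [div_le_one hS']
      linarith
    have y2 : (M : ℝ) / S ≤ η / 3 := by
      rw [div_le_div_iff₀ hS' (by norm_num)]
      rw [div_le_iff₀ hη] at hSη
      linarith only [hSη, mul_le_mul_of_nonneg_right hSS hη.le]
    have y0 : 0 ≤ (M : ℝ) / S := by positivity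
    linarith only [y2, mul_le_mul_of_nonneg_left y1 y0]
  obtain ⟨A, L, hA, hAd, hL, hcov, hsum⟩ := cover M S0 hM hS2 (η / 4) (by positivity) 1 ⟨0, 1⟩ fr_one
  -- the constant
  set w : G × G × ℕ → ℝ := fun a => c / (nm ((((a.2.2 : ℤ) + M : ℤ) : G) * a.1 + a.2.1) : ℝ) with hw
  set w' : G × G × ℕ → ℝ := fun a => c / (nm (((a.2.2 : ℤ) : G) * a.1 + a.2.1) : ℝ) with hw'
  have hw0 : ∀ a, 0 ≤ w a := fun a => div_nonneg hc0 (Nat.cast_nonneg _)
  have hww : ∀ a ∈ A, w' a ≤ (1 + η) * w a := by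
    intro a ha
    obtain ⟨h1, h2, -⟩ := hA a ha
    have h3 := arc_ratio a.1 a.2.1 h1 a.2.2 M (by omega)
    have h4 := hy a.2.2 h2
    have hne : (0 : ℝ) < (nm (((a.2.2 : ℤ) : G) * a.1 + a.2.1) : ℝ) := by
      have : (((a.2.2 : ℤ) : G) * a.1 + a.2.1) ≠ 0 := by
        intro h0
        have e1 : det a.1 (((a.2.2 : ℤ) : G) * a.1 + a.2.1) = det a.1 a.2.1 := by
          unfold det
          simp
          ring
        rw [h0] at e1
        have e2 : det a.1 0 = 0 := by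
          unfold det
          simp
        rw [e2] at e1
        have e3 := h1.1
        rw [← e1] at e3
        simp at e3
      exact_mod_cast nm_pos this
    have hne' : (0 : ℝ) < (nm ((((a.2.2 : ℤ) + M : ℤ) : G) * a.1 + a.2.1) : ℝ) := by
      have : ((((a.2.2 : ℤ) + M : ℤ) : G) * a.1 + a.2.1) ≠ 0 := by
        intro h0
        have e1 : det a.1 ((((a.2.2 : ℤ) + M : ℤ) : G) * a.1 + a.2.1) = det a.1 a.2.1 := by
          unfold det
          simp
          ring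
        rw [h0] at e1
        have e2 : det a.1 0 = 0 := by
          unfold det
          simp
        rw [e2] at e1
        have e3 := h1.1
        rw [← e1] at e3
        simp at e3
      exact_mod_cast nm_pos this
    have h5 : (nm ((((a.2.2 : ℤ) + M : ℤ) : G) * a.1 + a.2.1) : ℝ) ≤
        (1 + η) * (nm (((a.2.2 : ℤ) : G) * a.1 + a.2.1) : ℝ) :=
      h3.trans (mul_le_mul_of_nonneg_right h4 hne.le)
    show c / _ ≤ (1 + η) * (c / _)
    rw [← mul_div_assoc, div_le_div_iff₀ hne hne']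
    calc c * _ ≤ c * ((1 + η) * (nm (((a.2.2 : ℤ) : G) * a.1 + a.2.1) : ℝ)) :=
          mul_le_mul_of_nonneg_left h5 hc0
      _ = _ := by ring
  refine ⟨∑ k ∈ range 4, ∑ a ∈ A, w a, sum_nonneg fun k _ => sum_nonneg fun a _ => hw0 a, ?_⟩
  intro γ hγ s t hst ε hε
  set e1 : ℝ := ε / (8 * (A.card + 1)) with he1
  have he1' : 0 < e1 := by positivity
  set e2 : ℝ := ε / (8 * C s t * (L.card + 1)) with he2
  have he2' : 0 < e2 := by have := hC0 s t; positivity
  have hγk : ∀ k, (M : ℤ) ∣ det (rp k γ).1 (rp k γ).2 - 1 := by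
    intro k
    have : det (rp k γ).1 (rp k γ).2 = det γ.1 γ.2 := det_it k _ _
    rw [this]
    exact hγ
  have hev : ∀ᶠ x : ℝ in atTop, ∀ k ∈ range 4, ∀ a ∈ A,
      w a * (t - s) * x - e1 * x ≤
        ({e : G × G | e ∈ NE M (rp k γ) s t x ∧ e.1 ∈ arc a.1 a.2.1 a.2.2 M}.ncard : ℝ) ∧
      ({e : G × G | e ∈ NE M (rp k γ) s t x ∧ e.1 ∈ arc a.1 a.2.1 a.2.2 M}.ncard : ℝ) ≤
        w' a * (t - s) * x + e1 * x := by
    rw [eventually_all_finset]
    intro k _
    rw [eventually_all_finset]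
    intro a ha
    obtain ⟨h1, h2, -⟩ := hA a ha
    obtain ⟨x0, hx0⟩ := arc_asymp M hM c hc (rp k γ) (hγk k) a.1 a.2.1 h1 a.2.2 (hS2.trans h2) s t
      hst e1 he1'
    filter_upwards [eventually_ge_atTop x0] with x hx
    obtain ⟨h3, h4⟩ := hx0 x hx
    constructor
    · refine le_trans (le_of_eq ?_) h3
      simp only [hw]
      ring
    · refine h4.trans (le_of_eq ?_)
      simp only [hw']
      ring
  filter_upwards [hev, sqrt_small e2 he2', eventually_ge_atTop 1] with x hx hsq hx1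
  have hx0 : 0 < x := by linarith
  have hAc : (0 : ℝ) < (A.card : ℝ) + 1 := by positivity
  have hLc : (0 : ℝ) < (L.card : ℝ) + 1 := by positivity
  have hbnd : 4 * (A.card : ℝ) * e1 ≤ ε / 2 := by
    rw [he1]
    rw [← mul_div_assoc, div_le_iff₀ (by positivity)]
    linarith only [hε]
  constructor
  · refine le_trans ?_ (lower M γ s t x A (fun a ha => (hA a ha).2.2) hAd)
    have h1 : ∑ k ∈ range 4, ∑ a ∈ A, (w a * (t - s) * x - e1 * x) ≤
        ∑ k ∈ range 4, ∑ a ∈ A,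
      ({e : G × G | e ∈ NE M (rp k γ) s t x ∧ e.1 ∈ arc a.1 a.2.1 a.2.2 M}.ncard : ℝ) :=
      sum_le_sum fun k hk => sum_le_sum fun a ha => (hx k hk a ha).1
    refine le_trans ?_ h1
    simp only [sum_sub_distrib, ← sum_mul, sum_const, card_range, nsmul_eq_mul]
    push_cast
    have h2 : 4 * ((A.card : ℝ) * (e1 * x)) = (4 * (A.card : ℝ) * e1) * x := by ring
    have h3 : (4 * (A.card : ℝ) * e1) * x ≤ ε / 2 * x := mul_le_mul_of_nonneg_right hbnd hx0.le
    linarith only [h2, h3, mul_pos hε hx0]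
  · refine (upper M γ s t x A L hcov).trans ?_
    have h1 : ∑ k ∈ range 4, (∑ a ∈ A,
      ({e : G × G | e ∈ NE M (rp k γ) s t x ∧ e.1 ∈ arc a.1 a.2.1 a.2.2 M}.ncard : ℝ) +
        ∑ l ∈ L, ({e : G × G | e ∈ NE M (rp k γ) s t x ∧ e.1 ∈ cone l.1 l.2}.ncard : ℝ)) ≤
        ∑ k ∈ range 4, (∑ a ∈ A, ((1 + η) * w a * (t - s) * x + e1 * x) +
          ∑ l ∈ L, (C s t * x * (1 / ((ll l.1 : ℝ) * ll l.2)) + C s t * (Real.sqrt x + 1))) := by
      refine sum_le_sum fun k hk => add_le_add ?_ ?_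
      · refine sum_le_sum fun a ha => ((hx k hk a ha).2).trans ?_
        have h2 := mul_le_mul_of_nonneg_right (hww a ha) (mul_nonneg (sub_nonneg.mpr hst) hx0.le)
        linarith
      · refine sum_le_sum fun l hl => (hC s t M (rp k γ) l.1 l.2 (hL l hl) x hx1).trans ?_
        apply le_of_eq
        ring
    refine h1.trans ?_
    simp only [sum_add_distrib, ← sum_mul, ← mul_sum, sum_const, card_range, nsmul_eq_mul]
    push_cast
    have h2 : 4 * ((A.card : ℝ) * (e1 * x)) ≤ ε / 2 * x := by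
      have h3 : 4 * ((A.card : ℝ) * (e1 * x)) = (4 * (A.card : ℝ) * e1) * x := by ring
      rw [h3]
      exact mul_le_mul_of_nonneg_right hbnd hx0.le
    have hC' := hC0 s t
    have h4 : 4 * (C s t * x * ∑ l ∈ L, 1 / ((ll l.1 : ℝ) * ll l.2)) ≤ C s t * η * x := by
      have h5 := mul_le_mul_of_nonneg_left hsum (mul_nonneg hC'.le hx0.le)
      linarith only [h5]
    have h6 : 4 * ((L.card : ℝ) * (C s t * (Real.sqrt x + 1))) ≤ ε / 2 * x := by
      have h7 : 4 * ((L.card : ℝ) * (C s t * (Real.sqrt x + 1))) ≤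
          4 * ((L.card : ℝ) * (C s t * (e2 * x))) := by
        have h8 := mul_le_mul_of_nonneg_left hsq hC'.le
        have h9 := mul_le_mul_of_nonneg_left h8 (Nat.cast_nonneg (α := ℝ) L.card)
        linarith
      refine h7.trans ?_
      have h10 : 4 * ((L.card : ℝ) * (C s t * (e2 * x))) = (4 * (L.card : ℝ) * C s t * e2) * x := by
        ring
      rw [h10]
      apply mul_le_mul_of_nonneg_right _ hx0.le
      rw [he2, ← mul_div_assoc, div_le_iff₀ (by positivity)]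
      linarith only [mul_pos hC' hε]
    linarith only [h2, h4, h6]

end EquidAux

open EquidAux

/-- Let `c` be from `cop_asymp`. Rotations: `(V, V') ↦ (i V, i V')` preserves `det`, `dot`, `nm` and maps the class `γ` to `i γ` (`det` unchanged). Every `V` is in
one of the four rotations of the closed quadrant `cone 1 i`, and the open quadrants are disjoint. -/
theorem equid (M : ℕ) (hM : 0 < M) : ∃ κ : ℝ, ∀ γ : G × G, (M : ℤ) ∣ det γ.1 γ.2 - 1 → ∀ s t : ℝ, s ≤ t →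
    Tendsto (fun x : ℝ => ((NE M γ s t x).ncard : ℝ) / x) atTop (nhds (κ * (t - s))) := by
  obtain ⟨C, hC0, hC⟩ := approx M hM
  choose! a ha0 ha using hC
  have hγ0 : (M : ℤ) ∣ det ((1 : G), (⟨0, 1⟩ : G)).1 ((1 : G), (⟨0, 1⟩ : G)).2 - 1 := by
    have : det (1 : G) ⟨0, 1⟩ = 1 := by
      unfold det
      simp
    show (M : ℤ) ∣ det (1 : G) ⟨0, 1⟩ - 1
    rw [this, sub_self]
    exact dvd_zero _
  -- comparison
  have hcmp : ∀ η : ℝ, 0 < η → ∀ η' : ℝ, 0 < η' → a η ≤ (1 + η') * a η' + C 0 1 * η' := by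
    intro η hη η' hη'
    apply le_of_forall_pos_le_add
    intro ε hε
    have h1 := ha η hη _ hγ0 0 1 zero_le_one (ε / 2) (by positivity)
    have h2 := ha η' hη' _ hγ0 0 1 zero_le_one (ε / 2) (by positivity)
    obtain ⟨x, ⟨h3, -⟩, ⟨-, h4⟩, hx⟩ := (h1.and (h2.and (eventually_gt_atTop 0))).exists
    have h5 := h3.trans h4
    have h6 : a η * x ≤ ((1 + η') * a η' + C 0 1 * η' + ε) * x := by linarith only [h5]
    exact le_of_mul_le_mul_right h6 hx
  set B : ℝ := (1 + 1) * a 1 + C 0 1 * 1 with hB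
  have hbd : ∀ η : ℝ, 0 < η → a η ≤ B := fun η hη => hcmp η hη 1 one_pos
  set T : Set ℝ := {y | ∃ η : ℝ, 0 < η ∧ y = a η} with hT
  have hTb : BddAbove T := ⟨B, by rintro _ ⟨η, hη, rfl⟩; exact hbd η hη⟩
  have hTne : T.Nonempty := ⟨a 1, 1, one_pos, rfl⟩
  have hk1 : ∀ η : ℝ, 0 < η → a η ≤ sSup T := fun η hη => le_csSup hTb ⟨η, hη, rfl⟩
  have hk2 : ∀ η : ℝ, 0 < η → sSup T ≤ (1 + η) * a η + C 0 1 * η := by
    intro η hη
    apply csSup_le hTne
    rintro _ ⟨η', hη', rfl⟩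
    exact hcmp η' hη' η hη
  have hB0 : 0 ≤ B := le_trans (ha0 1 one_pos) (hbd 1 one_pos)
  refine ⟨sSup T, ?_⟩
  intro γ hγ s t hst
  have hts : 0 ≤ t - s := sub_nonneg.mpr hst
  rw [Metric.tendsto_atTop]
  intro ε hε
  -- choose η
  set D : ℝ := (B + C 0 1 + 1) * (t - s) + C s t + 1 with hD
  have hC01 := hC0 0 1
  have hCst := hC0 s t
  have hD0 : 0 < D := by
    have : 0 ≤ (B + C 0 1 + 1) * (t - s) := mul_nonneg (by linarith) hts
    linarith
  set η : ℝ := ε / (4 * D) with hη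
  have hη0 : 0 < η := by positivity
  have hηD : η * D = ε / 4 := by
    rw [hη]
    field_simp
  obtain ⟨x1, hx1⟩ := eventually_atTop.mp
    ((ha η hη0 γ hγ s t hst (ε / 4) (by positivity)).and (eventually_gt_atTop 0))
  refine ⟨x1, fun x hx => ?_⟩
  obtain ⟨⟨h1, h2⟩, h3⟩ := hx1 x hx
  have h1' : a η * (t - s) - ε / 4 ≤ ((NE M γ s t x).ncard : ℝ) / x := by
    rw [le_div_iff₀ h3]
    have : N M γ s t x = ((NE M γ s t x).ncard : ℝ) := rfl
    rw [this] at h1
    linarith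
  have h2' : ((NE M γ s t x).ncard : ℝ) / x ≤ (1 + η) * a η * (t - s) + C s t * η + ε / 4 := by
    rw [div_le_iff₀ h3]
    have : N M γ s t x = ((NE M γ s t x).ncard : ℝ) := rfl
    rw [this] at h2
    linarith
  have h4 := hk1 η hη0
  have h5 := hk2 η hη0
  have h6 := ha0 η hη0
  have h7 := hbd η hη0
  rw [Real.dist_eq, abs_lt]
  have h8 : sSup T - a η ≤ η * (B + C 0 1) := by linarith only [h5, mul_le_mul_of_nonneg_left h7 hη0.le]
  have h9 : (sSup T - a η) * (t - s) ≤ η * (B + C 0 1) * (t - s) :=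
    mul_le_mul_of_nonneg_right h8 hts
  have h10 : η * (B + C 0 1) * (t - s) ≤ ε / 4 := by
    rw [← hηD]
    have : η * (B + C 0 1) * (t - s) ≤ η * D := by
      rw [mul_assoc]
      apply mul_le_mul_of_nonneg_left _ hη0.le
      rw [hD]
      linarith only [hts, hCst]
    exact this
  constructor
  · linarith only [h1', h9, h10, hε]
  · have h11 : a η * (t - s) ≤ sSup T * (t - s) := mul_le_mul_of_nonneg_right h4 hts
    have h12 : η * a η * (t - s) + C s t * η ≤ ε / 4 := by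
      rw [← hηD, hD]
      have h13 : η * a η * (t - s) ≤ η * (B * (t - s)) := by
        rw [mul_assoc]
        exact mul_le_mul_of_nonneg_left (mul_le_mul_of_nonneg_right h7 hts) hη0.le
      have h14 : 0 ≤ η * ((C 0 1 + 1) * (t - s)) :=
        mul_nonneg hη0.le (mul_nonneg (by linarith) hts)
      linarith only [h13, h14, hη0]
    linarith only [h2', h11, h12, hε]

end Pool.Agent.OmAll
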