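import Pool.Agent.Lib_MP_f1a94e_aq.Defs
import Pool.Agent.Lib_MP_f1a94e_mr.MertensB

/-!
# Piece ZSMOOTH: sharp and smooth cutoffs for sums over primes `1 mod 4`
-/

set_option autoImplicit false

namespace Pool.Agent.OmAll

open Finset

namespace ZSm

theorem PT_eq (n : ℕ) :
    PT n = (Icc 1 ⌊(n : ℝ)⌋₊).filter (fun p => p.Prime ∧ p % 4 = 1) := by
  ext p
  simp only [PT, mem_filter, mem_range, mem_Icc, Nat.floor_natCast]
  constructor
  · rintro ⟨h1, h2, h3⟩
    exact ⟨⟨h2.one_lt.le, by omega⟩, h2, h3⟩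
  · rintro ⟨⟨h1, h1'⟩, h2, h3⟩
    exact ⟨by omega, h2, h3⟩

theorem mem_PT {n p : ℕ} : p ∈ PT n ↔ p ≤ n ∧ p.Prime ∧ p % 4 = 1 := by
  simp only [PT, mem_filter, mem_range]
  constructor
  · rintro ⟨h1, h2, h3⟩; exact ⟨by omega, h2, h3⟩
  · rintro ⟨h1, h2, h3⟩; exact ⟨by omega, h2, h3⟩

theorem PT_five {n p : ℕ} (h : p ∈ PT n) : 5 ≤ p := by
  obtain ⟨-, h2, h3⟩ := mem_PT.mp h
  have := h2.two_le
  omega

theorem PT_mono {m n : ℕ} (h : m ≤ n) : PT m ⊆ PT n := by
  intro p hp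
  rw [mem_PT] at hp ⊢
  exact ⟨hp.1.trans h, hp.2⟩

theorem one_le_logT {T : ℕ} (hT : 3 ≤ T) : 1 ≤ Real.log T := by
  have h3 : (3 : ℝ) ≤ T := by exact_mod_cast hT
  rw [Real.le_log_iff_exp_le (by linarith)]
  have := Real.exp_one_lt_d9
  linarith

/-- the mass of the block `T^K < p ≤ T^(K+1)` -/
theorem block (C : ℝ) (hC0 : 0 ≤ C)
    (hA : ∀ n : ℕ, 2 ≤ n → ∑ p ∈ PT n, Real.log p / p ≤ Real.log n / 2 + C)
    (T : ℕ) (hT : 3 ≤ T) (K : ℕ) (hK : 1 ≤ K) :
    ∑ p ∈ PT (T ^ (K + 1)) \ PT (T ^ K), 1 / (p : ℝ) ^ (1 + 1 / Real.log T) ≤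
      (1 + C) * Real.exp (-(K : ℝ)) := by
  have hL := one_le_logT hT
  set L := Real.log T with hLdef
  have hK' : (1 : ℝ) ≤ K := by exact_mod_cast hK
  have hKL : 1 ≤ (K : ℝ) * L := by nlinarith
  have hT2 : 2 ≤ T ^ (K + 1) := by
    calc 2 ≤ T := by omega
      _ = T ^ 1 := (pow_one T).symm
      _ ≤ T ^ (K + 1) := Nat.pow_le_pow_right (by omega) (by omega)
  have h1 : ∀ p ∈ PT (T ^ (K + 1)) \ PT (T ^ K), 1 / (p : ℝ) ^ (1 + 1 / L) ≤
      Real.exp (-(K : ℝ)) / (K * L) * (Real.log p / p) := by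
    intro p hp
    rw [mem_sdiff] at hp
    obtain ⟨hp1, hp2⟩ := hp
    have hp5 := PT_five hp1
    rw [mem_PT] at hp1 hp2
    have hlt : T ^ K < p := by
      by_contra hc
      exact hp2 ⟨by omega, hp1.2⟩
    have hp0 : (0 : ℝ) < p := by exact_mod_cast (by omega : 0 < p)
    have hlog : (K : ℝ) * L ≤ Real.log p := by
      rw [hLdef, ← Real.log_pow]
      apply Real.log_le_log
      · have : (0 : ℝ) < T := by exact_mod_cast (by omega : 0 < T)
        positivity
      · exact_mod_cast hlt.le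
    have e1 : (p : ℝ) ^ (1 + 1 / L) = p * Real.exp (Real.log p / L) := by
      rw [Real.rpow_add hp0, Real.rpow_one, Real.rpow_def_of_pos hp0]
      congr 2
      ring
    have h2 : (K : ℝ) ≤ Real.log p / L := by
      rw [le_div_iff₀ (by linarith)]
      exact hlog
    have h3 : Real.exp (K : ℝ) ≤ Real.exp (Real.log p / L) := Real.exp_le_exp.mpr h2
    have h4 : 1 / (p * Real.exp (Real.log p / L)) ≤ 1 / (p * Real.exp (K : ℝ)) := by
      apply one_div_le_one_div_of_le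
      · positivity
      · exact mul_le_mul_of_nonneg_left h3 hp0.le
    rw [e1]
    refine h4.trans ?_
    have h5 : 1 / ((p : ℝ) * Real.exp (K : ℝ)) = Real.exp (-(K : ℝ)) / p := by
      rw [Real.exp_neg]
      field_simp
    have h6 : Real.exp (-(K : ℝ)) / (K * L) * (Real.log p / p) =
        Real.exp (-(K : ℝ)) / p * (Real.log p / (K * L)) := by
      field_simp
    rw [h5, h6]
    apply le_mul_of_one_le_right (by positivity)
    rw [one_le_div (by linarith)]
    exact hlog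
  calc ∑ p ∈ PT (T ^ (K + 1)) \ PT (T ^ K), 1 / (p : ℝ) ^ (1 + 1 / L)
      ≤ ∑ p ∈ PT (T ^ (K + 1)) \ PT (T ^ K),
          Real.exp (-(K : ℝ)) / (K * L) * (Real.log p / p) := sum_le_sum h1
    _ ≤ ∑ p ∈ PT (T ^ (K + 1)), Real.exp (-(K : ℝ)) / (K * L) * (Real.log p / p) := by
        apply sum_le_sum_of_subset_of_nonneg sdiff_subset
        intro p hp _
        have hp5 := PT_five hp
        have hp0 : (1 : ℝ) ≤ p := by exact_mod_cast (by omega : 1 ≤ p)
        have := Real.log_nonneg hp0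
        positivity
    _ = Real.exp (-(K : ℝ)) / (K * L) * ∑ p ∈ PT (T ^ (K + 1)), (Real.log p / p) := by
        rw [mul_sum]
    _ ≤ Real.exp (-(K : ℝ)) / (K * L) * (((K : ℝ) + 1) * L / 2 + C) := by
        apply mul_le_mul_of_nonneg_left _ (by positivity)
        have h7 := hA _ hT2
        have h8 : Real.log ((T ^ (K + 1) : ℕ) : ℝ) = ((K : ℝ) + 1) * L := by
          push_cast
          rw [Real.log_pow]
          push_cast
          rfl
        rw [h8] at h7
        exact h7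
    _ ≤ (1 + C) * Real.exp (-(K : ℝ)) := by
        have h9 : Real.exp (-(K : ℝ)) / (K * L) * (((K : ℝ) + 1) * L / 2 + C) =
          Real.exp (-(K : ℝ)) * ((((K : ℝ) + 1) * L / 2 + C) / (K * L)) := by
          field_simp
        rw [h9, mul_comm (1 + C)]
        apply mul_le_mul_of_nonneg_left _ (Real.exp_pos _).le
        rw [div_le_iff₀ (by linarith)]
        nlinarith [mul_nonneg hC0 (by linarith : (0 : ℝ) ≤ (K : ℝ) * L - 1)]

theorem blocks (C : ℝ) (hC0 : 0 ≤ C)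
    (hA : ∀ n : ℕ, 2 ≤ n → ∑ p ∈ PT n, Real.log p / p ≤ Real.log n / 2 + C)
    (T : ℕ) (hT : 3 ≤ T) (K : ℕ) :
    ∑ p ∈ PT (T ^ (K + 1)) \ PT T, 1 / (p : ℝ) ^ (1 + 1 / Real.log T) ≤
      (1 + C) * (1 - Real.exp (-(K : ℝ))) := by
  induction K with
  | zero => simp
  | succ K ih =>
    have hsub : T ≤ T ^ (K + 1) := by
      calc T = T ^ 1 := (pow_one T).symm
        _ ≤ T ^ (K + 1) := Nat.pow_le_pow_right (by omega) (by omega)
    have hsub2 : T ^ (K + 1) ≤ T ^ (K + 1 + 1) := Nat.pow_le_pow_right (by omega) (by omega)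
    have hun : PT (T ^ (K + 1 + 1)) \ PT T =
        (PT (T ^ (K + 1)) \ PT T) ∪ (PT (T ^ (K + 1 + 1)) \ PT (T ^ (K + 1))) := by
      ext p
      simp only [mem_sdiff, mem_union]
      constructor
      · rintro ⟨h1, h2⟩
        by_cases h3 : p ∈ PT (T ^ (K + 1))
        · exact Or.inl ⟨h3, h2⟩
        · exact Or.inr ⟨h1, h3⟩
      · rintro (⟨h1, h2⟩ | ⟨h1, h2⟩)
        · exact ⟨PT_mono hsub2 h1, h2⟩
        · exact ⟨h1, fun h3 => h2 (PT_mono hsub h3)⟩
    have hdis : Disjoint (PT (T ^ (K + 1)) \ PT T) (PT (T ^ (K + 1 + 1)) \ PT (T ^ (K + 1))) := by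
      rw [disjoint_left]
      intro p hp hp'
      rw [mem_sdiff] at hp hp'
      exact hp'.2 hp.1
    rw [hun, sum_union hdis]
    have hb := block C hC0 hA T hT (K + 1) (by omega)
    have he : Real.exp (-((K + 1 : ℕ) : ℝ)) * 2 ≤ Real.exp (-(K : ℝ)) := by
      have : Real.exp (-(K : ℝ)) = Real.exp (-((K + 1 : ℕ) : ℝ)) * Real.exp 1 := by
        rw [← Real.exp_add]
        congr 1
        push_cast
        ring
      rw [this]
      apply mul_le_mul_of_nonneg_left _ (Real.exp_pos _).le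
      have := Real.exp_one_gt_d9
      linarith
    have h1C : 0 ≤ 1 + C := by linarith
    nlinarith [mul_nonneg h1C (by linarith : (0 : ℝ) ≤ Real.exp (-(K : ℝ)) -
      Real.exp (-((K + 1 : ℕ) : ℝ)) * 2)]

end ZSm

open ZSm

/-- For `|f| ≤ 1`: `|∑_(p ≤ T, p = 1 (4)) f p / p - ∑'_(p = 1 (4)) f p / p^(1 + 1/log T)| ≤ C`. For `p ≤ T`:
`0 ≤ 1 - p^(-1/log T) ≤ log p / log T`, and `∑_(p ≤ T) log p / p ≤ C log T` (`mertens_log`, mr/MertensA). For `p > T`:
`∑_(T^(2^i) < p ≤ T^(2^(i+1))) 1/p ≤ C` (`mertens`, mr/MertensB: `log log` differences are `log 2`), and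
`p^(-1/log T) ≤ exp(-2^i)` there; sum over `i`. The series converges absolutely. -/
theorem smooth_cut : ∃ C : ℝ, ∀ T : ℕ, 3 ≤ T → ∀ f : ℕ → ℝ, (∀ p, |f p| ≤ 1) →
    Summable (fun p : ℕ => if p.Prime ∧ p % 4 = 1 then f p / (p : ℝ) ^ (1 + 1 / Real.log T) else 0) ∧
    |∑ p ∈ PT T, f p / p -
      ∑' p : ℕ, (if p.Prime ∧ p % 4 = 1 then f p / (p : ℝ) ^ (1 + 1 / Real.log T) else 0)| ≤ C := by
  obtain ⟨C, hC⟩ := Pool.Agent.GaussMR.mertens_log
  have hC0 : 0 ≤ C := (abs_nonneg _).trans (hC 2 le_rfl)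
  have hA : ∀ n : ℕ, 2 ≤ n → ∑ p ∈ PT n, Real.log p / p ≤ Real.log n / 2 + C := by
    intro n hn
    have h1 := hC n (by exact_mod_cast hn)
    rw [← PT_eq, abs_le] at h1
    linarith [h1.2]
  refine ⟨(1 / 2 + C) + (1 + C), fun T hT f hf => ?_⟩
  have hL := ZSm.one_le_logT hT
  set L := Real.log T with hLdef
  have hδ : 0 < 1 / L := by positivity
  have hsum : Summable (fun p : ℕ => if p.Prime ∧ p % 4 = 1 then f p / (p : ℝ) ^ (1 + 1 / L)
      else 0) := by
    have h1 : Summable (fun p : ℕ => 1 / (p : ℝ) ^ (1 + 1 / L)) :=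
      Real.summable_one_div_nat_rpow.mpr (by linarith)
    refine Summable.of_norm_bounded h1 (fun p => ?_)
    split_ifs
    · rw [norm_div, Real.norm_eq_abs, Real.norm_of_nonneg (by positivity)]
      exact div_le_div_of_nonneg_right (hf p) (by positivity)
    · rw [norm_zero]
      positivity
  refine ⟨hsum, ?_⟩
  set a : ℕ → ℝ := fun p : ℕ => if p.Prime ∧ p % 4 = 1 then f p / (p : ℝ) ^ (1 + 1 / L) else 0
    with ha
  have haPT : ∀ n : ℕ, ∑ p ∈ range (n + 1), a p = ∑ p ∈ PT n, f p / (p : ℝ) ^ (1 + 1 / L) := by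
    intro n
    rw [PT, sum_filter]
  -- first part
  have hfirst : |∑ p ∈ PT T, f p / p - ∑ p ∈ PT T, f p / (p : ℝ) ^ (1 + 1 / L)| ≤ 1 / 2 + C := by
    rw [← sum_sub_distrib]
    calc |∑ p ∈ PT T, (f p / p - f p / (p : ℝ) ^ (1 + 1 / L))|
        ≤ ∑ p ∈ PT T, |f p / p - f p / (p : ℝ) ^ (1 + 1 / L)| := abs_sum_le_sum_abs _ _
      _ ≤ ∑ p ∈ PT T, (1 / L) * (Real.log p / p) := by
          apply sum_le_sum
          intro p hp
          have hp5 := PT_five hp
          have hp0 : (0 : ℝ) < p := by exact_mod_cast (by omega : 0 < p)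
          have hp1 : (1 : ℝ) ≤ p := by exact_mod_cast (by omega : 1 ≤ p)
          have hlog := Real.log_nonneg hp1
          have e1 : (p : ℝ) ^ (1 + 1 / L) = p * Real.exp (Real.log p / L) := by
            rw [Real.rpow_add hp0, Real.rpow_one, Real.rpow_def_of_pos hp0]
            congr 2
            ring
          have e2 : f p / p - f p / (p : ℝ) ^ (1 + 1 / L) =
              f p * ((1 - Real.exp (-(Real.log p / L))) / p) := by
            rw [e1, Real.exp_neg]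
            field_simp
          have h1 : 1 - Real.log p / L ≤ Real.exp (-(Real.log p / L)) := by
            have := Real.add_one_le_exp (-(Real.log p / L))
            linarith
          have h2 : Real.exp (-(Real.log p / L)) ≤ 1 := by
            rw [Real.exp_le_one_iff]
            have : 0 ≤ Real.log p / L := by positivity
            linarith
          rw [e2, abs_mul, abs_of_nonneg (div_nonneg (by linarith) hp0.le)]
          calc |f p| * ((1 - Real.exp (-(Real.log p / L))) / p)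
              ≤ 1 * ((Real.log p / L) / p) := by
                apply mul_le_mul (hf p) _ (div_nonneg (by linarith) hp0.le) zero_le_one
                exact div_le_div_of_nonneg_right (by linarith) hp0.le
            _ = (1 / L) * (Real.log p / p) := by ring
      _ = (1 / L) * ∑ p ∈ PT T, Real.log p / p := by rw [mul_sum]
      _ ≤ (1 / L) * (L / 2 + C) :=
          mul_le_mul_of_nonneg_left (hA T (by omega)) (by positivity)
      _ = 1 / 2 + C / L := by
          have : L ≠ 0 := by linarith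
          field_simp
      _ ≤ 1 / 2 + C := by
          have : C / L ≤ C := div_le_self hC0 hL
          linarith
  -- second part
  have hsecond : |∑ p ∈ PT T, f p / (p : ℝ) ^ (1 + 1 / L) - ∑' p : ℕ, a p| ≤ 1 + C := by
    have hT1 : Filter.Tendsto (fun K : ℕ => T ^ (K + 1) + 1) Filter.atTop Filter.atTop := by
      apply Filter.tendsto_atTop_mono (f := fun K : ℕ => K)
      · intro K
        have : K < T ^ K := Nat.lt_pow_self (by omega)
        have : T ^ K ≤ T ^ (K + 1) := Nat.pow_le_pow_right (by omega) (by omega)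
        omega
      · exact Filter.tendsto_id
    have hlim := (hsum.hasSum.tendsto_sum_nat.comp hT1)
    have hlim2 := (hlim.const_sub (∑ p ∈ PT T, f p / (p : ℝ) ^ (1 + 1 / L))).abs
    refine le_of_tendsto hlim2 (Filter.Eventually.of_forall fun K => ?_)
    simp only [Function.comp_apply]
    rw [haPT]
    have hsub : PT T ⊆ PT (T ^ (K + 1)) := PT_mono (by
      calc T = T ^ 1 := (pow_one T).symm
        _ ≤ T ^ (K + 1) := Nat.pow_le_pow_right (by omega) (by omega))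
    rw [← sum_sdiff hsub, sub_add_cancel_right, abs_neg]
    calc |∑ p ∈ PT (T ^ (K + 1)) \ PT T, f p / (p : ℝ) ^ (1 + 1 / L)|
        ≤ ∑ p ∈ PT (T ^ (K + 1)) \ PT T, |f p / (p : ℝ) ^ (1 + 1 / L)| := abs_sum_le_sum_abs _ _
      _ ≤ ∑ p ∈ PT (T ^ (K + 1)) \ PT T, 1 / (p : ℝ) ^ (1 + 1 / L) := by
          apply sum_le_sum
          intro p _
          rw [abs_div, abs_of_nonneg (by positivity : (0 : ℝ) ≤ (p : ℝ) ^ (1 + 1 / L))]
          exact div_le_div_of_nonneg_right (hf p) (by positivity)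
      _ ≤ (1 + C) * (1 - Real.exp (-(K : ℝ))) := ZSm.blocks C hC0 hA T hT K
      _ ≤ 1 + C := by
          have := Real.exp_pos (-(K : ℝ))
          nlinarith
  calc |∑ p ∈ PT T, f p / p - ∑' p : ℕ, a p|
      ≤ |∑ p ∈ PT T, f p / p - ∑ p ∈ PT T, f p / (p : ℝ) ^ (1 + 1 / L)| +
        |∑ p ∈ PT T, f p / (p : ℝ) ^ (1 + 1 / L) - ∑' p : ℕ, a p| := abs_sub_le _ _ _
    _ ≤ _ := add_le_add hfirst hsecond

/-- `0 < 2 Ap p ≤ 4 / p` and `4 / p - 2 Ap p ≤ 12 / p^2` -/
theorem Ap_bound (p : ℕ) (hp : 5 ≤ p) : 0 < Ap p ∧ 2 * Ap p ≤ 4 / p ∧ 4 / (p : ℝ) - 2 * Ap p ≤ 12 / (p : ℝ) ^ 2 := by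
  have hp5 : (5 : ℝ) ≤ p := by exact_mod_cast hp
  have hp0 : (0 : ℝ) < p := by linarith
  refine ⟨?_, ?_, ?_⟩
  · unfold Ap
    have : (0 : ℝ) < (p : ℝ) - 1 := by linarith
    positivity
  · unfold Ap
    have h1 : 2 * (2 * ((p : ℝ) - 1) ^ 2 / ((p : ℝ) ^ 2 * (p + 1))) =
      (4 * ((p : ℝ) - 1) ^ 2) / ((p : ℝ) ^ 2 * (p + 1)) := by ring
    rw [h1, div_le_div_iff₀ (by positivity) hp0]
    nlinarith [mul_pos hp0 hp0, mul_pos (mul_pos hp0 hp0) hp0]
  · unfold Ap
    have h1 : 4 / (p : ℝ) - 2 * (2 * ((p : ℝ) - 1) ^ 2 / ((p : ℝ) ^ 2 * (p + 1))) =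
      (4 * (3 * (p : ℝ) - 1)) / ((p : ℝ) ^ 2 * (p + 1)) := by
      field_simp
      ring
    rw [h1, div_le_div_iff₀ (by positivity) (by positivity)]
    nlinarith [mul_pos hp0 hp0]

/-- `|muT T - 2 log log T| ≤ C`: `mertens`, and `|2 Ap p - 4 / p| ≤ 12 / p^2` (`Ap p = (2/p) (1 - 1/p)^2 / (1 + 1/p)`). -/
theorem mu_bound : ∃ C : ℝ, ∀ T : ℕ, 3 ≤ T → |muT T - 2 * Real.log (Real.log T)| ≤ C := by
  obtain ⟨C, hC⟩ := Pool.Agent.GaussMR.mertens
  have hs : Summable (fun p : ℕ => 12 / (p : ℝ) ^ 2) := by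
    have := (Real.summable_one_div_nat_pow (p := 2)).mpr (by norm_num)
    refine (this.mul_left 12).congr (fun p => ?_)
    ring
  refine ⟨4 * C + ∑' p : ℕ, 12 / (p : ℝ) ^ 2, fun T hT => ?_⟩
  have h1 := hC T (by exact_mod_cast (by omega : 2 ≤ T))
  rw [← PT_eq] at h1
  have h2 : |muT T - 4 * ∑ p ∈ PT T, (1 : ℝ) / p| ≤ ∑' p : ℕ, 12 / (p : ℝ) ^ 2 := by
    unfold muT
    rw [mul_sum, ← sum_sub_distrib]
    calc |∑ p ∈ PT T, (2 * Ap p - 4 * (1 / (p : ℝ)))|
        ≤ ∑ p ∈ PT T, |2 * Ap p - 4 * (1 / (p : ℝ))| := abs_sum_le_sum_abs _ _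
      _ ≤ ∑ p ∈ PT T, 12 / (p : ℝ) ^ 2 := by
          apply sum_le_sum
          intro p hp
          obtain ⟨-, h4, h5⟩ := Ap_bound p (PT_five hp)
          have h6 : 4 * (1 / (p : ℝ)) = 4 / p := by ring
          rw [h6, abs_le]
          constructor
          · linarith
          · have : 0 ≤ 12 / (p : ℝ) ^ 2 := by positivity
            linarith
      _ ≤ ∑' p : ℕ, 12 / (p : ℝ) ^ 2 := hs.sum_le_tsum _ (fun p _ => by positivity)
  rw [abs_le] at h1 h2 ⊢
  constructor <;> linarith [h1.1, h1.2, h2.1, h2.2]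

end Pool.Agent.OmAll
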