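import Pool.Agent.Lib_MP_f1a94e_aq.LocalP

/-!
# Piece LOCALB: product formula for the local densities
-/

set_option autoImplicit false

namespace Pool.Agent.OmAll

open Finset Pool.Agent.GaussMR

namespace LocalBP

theorem cg_nm {M : ℕ} {u v : G} (h : cg M u v) : (M : ℤ) ∣ (nm u : ℤ) - nm v := by
  obtain ⟨⟨a, ha⟩, ⟨b, hb⟩⟩ := h
  rw [nm_eq, nm_eq]
  refine ⟨a * (u.re + v.re) + b * (u.im + v.im), ?_⟩
  linear_combination (u.re + v.re) * ha + (u.im + v.im) * hb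

theorem dvd_iff {q M : ℕ} (hq : q ∣ M) {u v : G} (h : cg M u v) : q ∣ nm u ↔ q ∣ nm v := by
  have h1 : (q : ℤ) ∣ (nm u : ℤ) - nm v := (Int.natCast_dvd_natCast.2 hq).trans (cg_nm h)
  rw [← Int.natCast_dvd_natCast, ← Int.natCast_dvd_natCast (m := q) (n := nm v)]
  exact dvd_iff_dvd_of_dvd_sub h1

theorem dvd_mul_iff {q M : ℕ} (hq : q ∣ M) {e f : G × G} (h : cg M e.1 f.1) (h' : cg M e.2 f.2) :
    q ∣ nm e.1 * nm e.2 ↔ q ∣ nm f.1 * nm f.2 := by
  obtain ⟨a, ha⟩ := cg_nm h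
  obtain ⟨b, hb⟩ := cg_nm h'
  have h1 : (q : ℤ) ∣ ((nm e.1 * nm e.2 : ℕ) : ℤ) - ((nm f.1 * nm f.2 : ℕ) : ℤ) := by
    refine (Int.natCast_dvd_natCast.2 hq).trans ⟨a * nm e.2 + b * nm f.1, ?_⟩
    push_cast
    linear_combination (nm e.2 : ℤ) * ha + (nm f.1 : ℤ) * hb
  rw [← Int.natCast_dvd_natCast, ← Int.natCast_dvd_natCast (m := q) (n := nm f.1 * nm f.2)]
  exact dvd_iff_dvd_of_dvd_sub h1

theorem odd_iff {M : ℕ} (hM : 2 ∣ M) {u v : G} (h : cg M u v) : Odd (nm u) ↔ Odd (nm v) := by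
  rw [← Nat.not_even_iff_odd, ← Nat.not_even_iff_odd, even_iff_two_dvd, even_iff_two_dvd,
    dvd_iff hM h]

/-- the conditions at the primes of `P`; `σ p` tells which of the two norms is divisible by `p` -/
def QQ (σ : ℕ → Prop) (p : ℕ) (e : G × G) : Prop :=
  ((σ p → p ∣ nm e.1) ∧ (¬ σ p → p ∣ nm e.2)) ∧ ¬ p ^ 2 ∣ nm e.1 * nm e.2

/-- all conditions -/
def RR (σ : ℕ → Prop) (P : Finset ℕ) (e : G × G) : Prop :=
  (Odd (nm e.1) ∧ Odd (nm e.2)) ∧ ∀ p ∈ P, QQ σ p e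

theorem QQ_per (σ : ℕ → Prop) (p : ℕ) {M : ℕ} (hM : p ^ 2 ∣ M) : Per M (QQ σ p) := by
  intro e f h h'
  have hp : p ∣ M := (dvd_pow_self p two_ne_zero).trans hM
  unfold QQ
  rw [dvd_iff hp h, dvd_iff hp h', dvd_mul_iff hM h h']

theorem RR_per (σ : ℕ → Prop) (P : Finset ℕ) {M : ℕ} (h2 : 2 ∣ M) (hM : ∀ p ∈ P, p ^ 2 ∣ M) :
    Per M (RR σ P) := by
  intro e f h h'
  unfold RR
  rw [odd_iff h2 h, odd_iff h2 h']
  refine and_congr Iff.rfl ?_
  exact forall₂_congr (fun p hp => QQ_per σ p (hM p hp) e f h h')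

open Classical in
theorem QQ_card (σ : ℕ → Prop) (p : ℕ) (hp : p.Prime) (h4 : p % 4 = 1) :
    (((cls (p ^ 2)).filter (QQ σ p)).card : ℝ) = Ap p * (cls (p ^ 2)).card := by
  obtain ⟨h1, h2, h3⟩ := cls_p2 p hp h4
  have h5 : ((cls (p ^ 2)).filter (QQ σ p)).card = 2 * p ^ 2 * (p - 1) ^ 3 := by
    by_cases hs : σ p
    · rw [← h2]
      congr 1
      apply filter_congr
      intro e _
      unfold QQ
      simp [hs]
    · rw [← h3]
      congr 1
      apply filter_congr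
      intro e _
      unfold QQ
      simp [hs]
  rw [h5, h1]
  have hp1 : 1 ≤ p := hp.one_le
  have hp2 : 1 ≤ p ^ 2 := Nat.one_le_pow _ _ hp1
  push_cast [Nat.cast_sub hp1, Nat.cast_sub hp2]
  unfold Ap
  have hp0 : (0 : ℝ) < p := by exact_mod_cast hp.pos
  field_simp
  ring

open Classical in
theorem main (σ : ℕ → Prop) (P : Finset ℕ) : (∀ p ∈ P, p.Prime ∧ p % 4 = 1) →
    (((cls (2 * ∏ p ∈ P, p ^ 2)).filter (RR σ P)).card : ℝ) =
      1 / 3 * (∏ p ∈ P, Ap p) * (cls (2 * ∏ p ∈ P, p ^ 2)).card := by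
  induction P using Finset.induction_on with
  | empty =>
    intro _
    obtain ⟨h1, h2⟩ := cls_two
    have h3 : ((cls 2).filter (RR σ ∅)).card = 2 := by
      rw [← h2]
      congr 1
      apply filter_congr
      intro e _
      unfold RR
      simp
    rw [prod_empty, prod_empty, mul_one, h1, h3]
    norm_num
  | insert p P hpP ih =>
    intro hP
    obtain ⟨hp, h4⟩ := hP p (mem_insert_self _ _)
    have hP' : ∀ q ∈ P, q.Prime ∧ q % 4 = 1 := fun q hq => hP q (mem_insert_of_mem hq)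
    have ih' := ih hP'
    rw [prod_insert hpP, prod_insert hpP]
    set M1 : ℕ := 2 * ∏ q ∈ P, q ^ 2 with hM1
    have hM : 2 * (p ^ 2 * ∏ q ∈ P, q ^ 2) = M1 * p ^ 2 := by rw [hM1]; ring
    rw [hM]
    have hpos1 : 0 < M1 := by
      rw [hM1]
      apply Nat.mul_pos two_pos
      exact prod_pos (fun q hq => pow_pos (hP' q hq).1.pos 2)
    have hpos2 : 0 < p ^ 2 := pow_pos hp.pos 2
    have hco : M1.Coprime (p ^ 2) := by
      apply Nat.Coprime.pow_right
      rw [hM1]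
      apply Nat.Coprime.mul_left
      · rw [Nat.coprime_comm, Nat.Prime.coprime_iff_not_dvd hp]
        intro h
        have := Nat.le_of_dvd two_pos h
        have := hp.two_le
        omega
      · apply Nat.Coprime.prod_left
        intro q hq
        apply Nat.Coprime.pow_left
        rw [Nat.coprime_primes (hP' q hq).1 hp]
        rintro rfl
        exact hpP hq
    have hper1 : Per M1 (RR σ P) := RR_per σ P (Dvd.intro _ rfl)
      (fun q hq => (dvd_prod_of_mem (fun q => q ^ 2) hq).trans (Dvd.intro_left _ rfl))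
    have hper2 : Per (p ^ 2) (QQ σ p) := QQ_per σ p (dvd_refl _)
    have h1 := cls_mul M1 (p ^ 2) hpos1 hpos2 hco (RR σ P) (QQ σ p) hper1 hper2
    have h2 := cls_mul M1 (p ^ 2) hpos1 hpos2 hco (fun _ => True) (fun _ => True)
      (fun _ _ _ _ => Iff.rfl) (fun _ _ _ _ => Iff.rfl)
    simp only [and_self, filter_true] at h2
    have h3 : ((cls (M1 * p ^ 2)).filter (RR σ (insert p P))).card =
        ((cls (M1 * p ^ 2)).filter (fun e => RR σ P e ∧ QQ σ p e)).card := by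
      congr 1
      apply filter_congr
      intro e _
      unfold RR
      rw [forall_mem_insert]
      tauto
    rw [h3, h1, h2]
    push_cast
    rw [ih', QQ_card σ p hp h4]
    ring

end LocalBP

/-- divisibility of norms by `p` depends only on the class modulo `p ^ 2`, oddness only on the class modulo `2`, `Ce g` only on the class
modulo `2 (g g')^2`. -/
theorem Ce_per (g : ℕ × ℕ) : Per (2 * (g.1 * g.2) ^ 2) (Ce g) := by
  intro e f h h'
  have h2 : 2 ∣ 2 * (g.1 * g.2) ^ 2 := Dvd.intro _ rfl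
  have hsq : (g.1 * g.2) ^ 2 ∣ 2 * (g.1 * g.2) ^ 2 := Dvd.intro_left _ rfl
  have h1 : (g.1 * g.2) ∣ 2 * (g.1 * g.2) ^ 2 := (dvd_pow_self _ two_ne_zero).trans hsq
  unfold Ce
  rw [LocalBP.odd_iff h2 h, LocalBP.odd_iff h2 h']
  refine and_congr Iff.rfl (and_congr Iff.rfl (and_congr ?_ (and_congr ?_ ?_)))
  · refine forall₂_congr (fun p hp => LocalBP.dvd_iff ?_ h)
    exact ((Nat.dvd_of_mem_primeFactors hp).trans (Dvd.intro _ rfl)).trans h1
  · refine forall₂_congr (fun p hp => LocalBP.dvd_iff ?_ h')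
    exact ((Nat.dvd_of_mem_primeFactors hp).trans (Dvd.intro_left _ rfl)).trans h1
  · refine forall₂_congr (fun p hp => not_congr (LocalBP.dvd_mul_iff ?_ h h'))
    exact (pow_dvd_pow_of_dvd (Nat.dvd_of_mem_primeFactors hp) 2).trans hsq

open Classical in
/-- Induction over the primes of `g g'` with `cls_mul` (`M1 = 2 (g g' / p^...)^2`, `M2 = p^2`), `cls_p2`, `cls_two`: e.g. prove for a finite set `P` of primes
`1 mod 4` and a map `f : ℕ → Bool` (which of `g`, `g'`) that the number of `e ∈ cls (2 ∏ p^2)` satisfying the conditions is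
`(1/3) ∏ Ap p` times `#cls`; `Ap p = 2 p^2 (p-1)^3 / (p^4 (p^2 - 1))`. -/
theorem local_density (g : ℕ × ℕ) (hg : Adm g) :
    (((cls (2 * (g.1 * g.2) ^ 2)).filter (Ce g)).card : ℝ) =
      1 / 3 * (∏ p ∈ (g.1 * g.2).primeFactors, Ap p) * (cls (2 * (g.1 * g.2) ^ 2)).card := by
  obtain ⟨hsq, h4⟩ := hg
  have hne : g.1 * g.2 ≠ 0 := hsq.ne_zero
  have hg1 : g.1 ≠ 0 := left_ne_zero_of_mul hne
  have hg2 : g.2 ≠ 0 := right_ne_zero_of_mul hne
  have hco : g.1.Coprime g.2 := Nat.coprime_of_squarefree_mul hsq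
  have hprod : ∏ p ∈ (g.1 * g.2).primeFactors, p ^ 2 = (g.1 * g.2) ^ 2 := by
    rw [prod_pow, Nat.prod_primeFactors_of_squarefree hsq]
  have h1 := LocalBP.main (fun p => p ∣ g.1) (g.1 * g.2).primeFactors
    (fun p hp => ⟨Nat.prime_of_mem_primeFactors hp, h4 p hp⟩)
  rw [hprod] at h1
  rw [← h1]
  congr 2
  apply filter_congr
  intro e _
  unfold Ce LocalBP.RR LocalBP.QQ
  constructor
  · rintro ⟨h5, h6, h7, h8, h9⟩
    refine ⟨⟨h5, h6⟩, fun p hp => ⟨⟨fun h => ?_, fun h => ?_⟩, h9 p hp⟩⟩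
    · exact h7 p (Nat.mem_primeFactors.2 ⟨Nat.prime_of_mem_primeFactors hp, h, hg1⟩)
    · refine h8 p (Nat.mem_primeFactors.2 ⟨Nat.prime_of_mem_primeFactors hp, ?_, hg2⟩)
      exact ((Nat.Prime.dvd_mul (Nat.prime_of_mem_primeFactors hp)).1
        (Nat.dvd_of_mem_primeFactors hp)).resolve_left h
  · rintro ⟨⟨h5, h6⟩, h7⟩
    refine ⟨h5, h6, fun p hp => ?_, fun p hp => ?_, fun p hp => (h7 p hp).2⟩
    · rw [Nat.mem_primeFactors] at hp
      exact (h7 p (Nat.mem_primeFactors.2 ⟨hp.1, hp.2.1.trans (Dvd.intro _ rfl), hne⟩)).1.1 hp.2.1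
    · rw [Nat.mem_primeFactors] at hp
      refine (h7 p (Nat.mem_primeFactors.2 ⟨hp.1, hp.2.1.trans (Dvd.intro_left _ rfl), hne⟩)).1.2 ?_
      intro h
      have h10 := Nat.dvd_gcd h hp.2.1
      rw [hco] at h10
      exact hp.1.one_lt.ne' (Nat.dvd_one.1 h10)

end Pool.Agent.OmAll
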