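import Pool.Agent.Lib_MP_f1a94e_aq.DEdges
import Pool.Agent.Lib_MP_f1a94e_aq.Equid
import Pool.Agent.Lib_MP_f1a94e_aq.LocalB

/-!
# Piece DCOUNT: pairs `(m, d)` with congruence conditions
-/

set_option autoImplicit false

namespace Pool.Agent.OmAll

open Finset Pool.Agent.GaussMR Filter

namespace DCount

/-- the representative of the class of an edge -/
def rep (M : ℕ) (e : G × G) : G × G := (⟨e.1.re % M, e.1.im % M⟩, ⟨e.2.re % M, e.2.im % M⟩)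

theorem cg_rep (M : ℕ) (e : G × G) : cg M e.1 (rep M e).1 ∧ cg M e.2 (rep M e).2 := by
  have h : ∀ a : ℤ, (M : ℤ) ∣ a - a % M := fun a => Int.dvd_self_sub_emod
  exact ⟨⟨h _, h _⟩, ⟨h _, h _⟩⟩

theorem rep_mem (M : ℕ) (hM : 0 < M) (e : G × G) (he : det e.1 e.2 = 1) : rep M e ∈ cls M := by
  have hM' : (0 : ℤ) < M := by exact_mod_cast hM
  rw [mem_cls]
  have h1 : ∀ a : ℤ, 0 ≤ a % M ∧ a % M < M := fun a => ⟨Int.emod_nonneg _ hM'.ne', Int.emod_lt_of_pos _ hM'⟩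
  refine ⟨h1 _, h1 _, h1 _, h1 _, ?_⟩
  obtain ⟨⟨⟨a, ha⟩, ⟨b, hb⟩⟩, ⟨⟨c, hc⟩, ⟨d, hd⟩⟩⟩ := cg_rep M e
  have ha' : (rep M e).1.re = e.1.re - M * a := by linarith
  have hb' : (rep M e).1.im = e.1.im - M * b := by linarith
  have hc' : (rep M e).2.re = e.2.re - M * c := by linarith
  have hd' : (rep M e).2.im = e.2.im - M * d := by linarith
  unfold det at he ⊢
  rw [ha', hb', hc', hd']
  refine ⟨-(e.1.re * d) - a * e.2.im + M * a * d + e.1.im * c + b * e.2.re - M * b * c, ?_⟩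
  linear_combination he

theorem rep_unique (M : ℕ) (e γ : G × G) (hγ : γ ∈ cls M) (h1 : cg M e.1 γ.1) (h2 : cg M e.2 γ.2) :
    rep M e = γ := by
  rw [mem_cls] at hγ
  obtain ⟨⟨a1, a2⟩, ⟨b1, b2⟩, ⟨c1, c2⟩, ⟨d1, d2⟩, -⟩ := hγ
  have key : ∀ a b : ℤ, 0 ≤ b → b < M → (M : ℤ) ∣ a - b → a % M = b := by
    intro a b hb0 hb1 hab
    rw [Int.emod_eq_emod_iff_emod_sub_eq_zero.mpr (Int.emod_eq_zero_of_dvd hab),
      Int.emod_eq_of_lt hb0 hb1]
  apply Prod.ext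
  · exact Zsqrtd.ext (key _ _ a1 a2 h1.1) (key _ _ b1 b2 h1.2)
  · exact Zsqrtd.ext (key _ _ c1 c2 h2.1) (key _ _ d1 d2 h2.2)

open Classical in
theorem count_cls (M : ℕ) (hM : 0 < M) (P : G × G → Prop) (hP : Per M P) (s t x : ℝ) :
    {e : G × G | e ∈ NE 1 0 s t x ∧ P e}.ncard = ∑ γ ∈ (cls M).filter P, (NE M γ s t x).ncard := by
  have hfin : {e : G × G | e ∈ NE 1 0 s t x ∧ P e}.Finite :=
    (NE_finite 1 0 s t x).subset fun e he => he.1
  rw [Set.ncard_eq_toFinset_card _ hfin]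
  rw [Finset.card_eq_sum_card_fiberwise (f := rep M) (t := (cls M).filter P)]
  · refine Finset.sum_congr rfl fun γ hγ => ?_
    rw [Finset.mem_filter] at hγ
    rw [← Set.ncard_coe_finset]
    congr 1
    ext e
    simp only [Finset.coe_filter, Set.Finite.mem_toFinset, Set.mem_setOf_eq]
    constructor
    · rintro ⟨⟨⟨h1, h2, h3, h4, h5, -, -⟩, -⟩, h8⟩
      obtain ⟨h9, h10⟩ := cg_rep M e
      rw [h8] at h9 h10
      exact ⟨h1, h2, h3, h4, h5, h9, h10⟩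
    · rintro ⟨h1, h2, h3, h4, h5, h6, h7⟩
      refine ⟨⟨⟨h1, h2, h3, h4, h5, ?_, ?_⟩, ?_⟩, rep_unique M e γ hγ.1 h6 h7⟩
      · exact ⟨by simp, by simp⟩
      · exact ⟨by simp, by simp⟩
      · exact (hP e γ h6 h7).mpr hγ.2
  · intro e he
    rw [Finset.mem_coe, Set.Finite.mem_toFinset] at he
    rw [Finset.mem_coe, Finset.mem_filter]
    obtain ⟨h9, h10⟩ := cg_rep M e
    exact ⟨rep_mem M hM e he.1.1, (hP e _ h9 h10).mp he.2⟩

open Classical in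
theorem count_lim (M : ℕ) (hM : 0 < M) (P : G × G → Prop) (hP : Per M P) (κ : ℝ)
    (hκ : ∀ γ : G × G, (M : ℤ) ∣ det γ.1 γ.2 - 1 → ∀ s t : ℝ, s ≤ t →
      Tendsto (fun x : ℝ => ((NE M γ s t x).ncard : ℝ) / x) atTop (nhds (κ * (t - s))))
    (s t : ℝ) (hst : s ≤ t) :
    Tendsto (fun x : ℝ => ({e : G × G | e ∈ NE 1 0 s t x ∧ P e}.ncard : ℝ) / x) atTop
      (nhds (((cls M).filter P).card * (κ * (t - s)))) := by
  have h1 : (fun x : ℝ => ({e : G × G | e ∈ NE 1 0 s t x ∧ P e}.ncard : ℝ) / x) =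
      fun x : ℝ => ∑ γ ∈ (cls M).filter P, ((NE M γ s t x).ncard : ℝ) / x := by
    funext x
    rw [count_cls M hM P hP s t x]
    push_cast
    rw [Finset.sum_div]
  rw [h1, ← nsmul_eq_mul, ← Finset.sum_const]
  apply tendsto_finsetSum
  intro γ hγ
  rw [Finset.mem_filter, mem_cls] at hγ
  exact hκ γ hγ.1.2.2.2.2 s t hst

end DCount

/-- `Ce g` depends only on the class of `e` modulo `M = 2 (g g')^2`, every edge has exactly one representative in `cls M`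
(`det = 1`), so the set of `dcount_edges` is the disjoint union of the `NE M γ s t x`, `γ ∈ cls M`, `Ce g γ`; each has `~ κ_M (t - s) x`
elements (`equid`), and `κ_1 = κ_M #cls M` (the same with all classes). `local_density` gives the limit
`κ_1 / 4 * (1/3) ∏ Ap p (t - s)`. So `κ = κ_1 / 12`, `κ ≥ 0` (a limit of nonnegative numbers). -/
theorem dcount : ∃ κ : ℝ, 0 ≤ κ ∧ ∀ g : ℕ × ℕ, Adm g → ∀ s t : ℝ, s ≤ t →
    Tendsto (fun x : ℝ => ({r : ℕ × ℕ | r ∈ pd x ∧ Cd g r ∧ s ≤ tt r ∧ tt r < t}.ncard : ℝ) / x) atTop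
      (nhds (κ * (∏ p ∈ (g.1 * g.2).primeFactors, Ap p) * (t - s))) := by
  classical
  obtain ⟨κ₁, hκ₁⟩ := equid 1 one_pos
  have h0 : ((1 : ℕ) : ℤ) ∣ det (0 : G × G).1 (0 : G × G).2 - 1 := by simp
  have hnn : 0 ≤ κ₁ := by
    have h1 := hκ₁ 0 h0 0 1 zero_le_one
    rw [sub_zero, mul_one] at h1
    apply ge_of_tendsto h1
    filter_upwards [eventually_ge_atTop (0 : ℝ)] with x hx
    positivity
  refine ⟨κ₁ / 12, by positivity, fun g hg s t hst => ?_⟩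
  obtain ⟨κ, hκ⟩ := equid (2 * (g.1 * g.2) ^ 2) (by
    have : g.1 * g.2 ≠ 0 := hg.1.ne_zero
    positivity)
  have hM : 0 < 2 * (g.1 * g.2) ^ 2 := by
    have : g.1 * g.2 ≠ 0 := hg.1.ne_zero
    positivity
  have hall := DCount.count_lim _ hM (fun _ => True) (fun _ _ _ _ => Iff.rfl) κ hκ 0 1 zero_le_one
  have hkap : κ₁ = ((cls (2 * (g.1 * g.2) ^ 2)).card : ℝ) * κ := by
    have h1 := hκ₁ 0 h0 0 1 zero_le_one
    simp only [and_true, Set.setOf_mem_eq, Finset.filter_true] at hall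
    have h2 := tendsto_nhds_unique h1 hall
    linarith
  have hmain := DCount.count_lim _ hM (Ce g) (Ce_per g) κ hκ s t hst
  rw [local_density g hg] at hmain
  have h4 : (fun x : ℝ => ({r : ℕ × ℕ | r ∈ pd x ∧ Cd g r ∧ s ≤ tt r ∧ tt r < t}.ncard : ℝ) / x) =
      fun x : ℝ => (1 / 4 : ℝ) * (({e : G × G | e ∈ NE 1 0 s t x ∧ Ce g e}.ncard : ℝ) / x) := by
    funext x
    have h5 := dcount_edges g hg s t x
    rw [← h5]
    push_cast
    ring
  rw [h4]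
  have h6 : κ₁ / 12 * (∏ p ∈ (g.1 * g.2).primeFactors, Ap p) * (t - s) =
      (1 / 4 : ℝ) * (1 / 3 * (∏ p ∈ (g.1 * g.2).primeFactors, Ap p) *
        ((cls (2 * (g.1 * g.2) ^ 2)).card : ℝ) * (κ * (t - s))) := by
    rw [hkap]
    ring
  rw [h6]
  exact hmain.const_mul _

end Pool.Agent.OmAll
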