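import Pool.Agent.Lib_MP_f1a94e_mr.Basic

/-!
# MP_f1a94e_nt, all moduli: definitions

Pairs `(m, d)` with `m` even and `d ∣ m ^ 2 + 1`, kernels, Farey edges in congruence classes.
-/

set_option autoImplicit false

namespace Pool.Agent.OmAll

open Finset Pool.Agent.GaussMR

/-- the pairs `(m, d)`, `1 ≤ m ≤ x` even, `d ∣ m ^ 2 + 1` -/
noncomputable def pd (x : ℝ) : Finset (ℕ × ℕ) :=
  (Icc 1 ⌊x⌋₊ ×ˢ Icc 1 (⌊x⌋₊ ^ 2 + 1)).filter (fun r => Even r.1 ∧ r.2 ∣ r.1 ^ 2 + 1)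

theorem mem_pd {x : ℝ} {r : ℕ × ℕ} :
    r ∈ pd x ↔ 1 ≤ r.1 ∧ (r.1 : ℝ) ≤ x ∧ Even r.1 ∧ r.2 ∣ r.1 ^ 2 + 1 := by
  unfold pd
  rw [mem_filter, mem_product, mem_Icc, mem_Icc]
  constructor
  · rintro ⟨⟨⟨h1, h2⟩, h3, h4⟩, h5, h6⟩
    exact ⟨h1, (Nat.le_floor_iff' (by omega)).1 h2, h5, h6⟩
  · rintro ⟨h1, h2, h3, h4⟩
    have h5 : r.1 ≤ ⌊x⌋₊ := (Nat.le_floor_iff' (by omega)).2 h2
    refine ⟨⟨⟨h1, h5⟩, Nat.pos_of_dvd_of_pos h4 (by positivity), ?_⟩, h3, h4⟩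
    calc r.2 ≤ r.1 ^ 2 + 1 := Nat.le_of_dvd (by positivity) h4
      _ ≤ _ := Nat.add_le_add_right (Nat.pow_le_pow_left h5 2) 1

/-- `log (e / d)` for the factorisation `m ^ 2 + 1 = d e` -/
noncomputable def tt (r : ℕ × ℕ) : ℝ := Real.log ((r.1 : ℝ) ^ 2 + 1) - 2 * Real.log r.2

/-- the kernel `K_a (t) = a (sin (a t / 2) / (a t / 2)) ^ 2` -/
noncomputable def Kf (a t : ℝ) : ℝ := a * Real.sinc (a * t / 2) ^ 2

/-- difference of two kernels -/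
noncomputable def Hf (a b t : ℝ) : ℝ := Kf a t - Kf b t

/-- Fourier transform of the difference of two kernels -/
noncomputable def hh (a b τ : ℝ) : ℝ := max (1 - |τ| / a) 0 - max (1 - |τ| / b) 0

/-- the primes `1 mod 4` up to `T` -/
def PT (T : ℕ) : Finset ℕ := (range (T + 1)).filter (fun p => p.Prime ∧ p % 4 = 1)

/-- density of the edges `(V, V')` with `p ∣ |V| ^ 2` and `|V| ^ 2 |V'| ^ 2` not divisible by `p ^ 2` -/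
noncomputable def Ap (p : ℕ) : ℝ := 2 * ((p : ℝ) - 1) ^ 2 / ((p : ℝ) ^ 2 * (p + 1))

/-- the mean of the number of prime factors `p ≤ T`, `p ^ 2 ∤ n`, of `n = m ^ 2 + 1` over pairs -/
noncomputable def muT (T : ℕ) : ℝ := ∑ p ∈ PT T, 2 * Ap p

/-- pairs of coprime squarefree products of primes of `PT T` -/
def GG (T : ℕ) : Finset (ℕ × ℕ) :=
  ((∏ p ∈ PT T, p).divisors ×ˢ (∏ p ∈ PT T, p).divisors).filter (fun g => g.1.Coprime g.2)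

/-- `g ∣ d`, `g' ∣ (m ^ 2 + 1) / d` and no prime of `g g'` divides `m ^ 2 + 1` twice -/
def Cd (g : ℕ × ℕ) (r : ℕ × ℕ) : Prop :=
  g.1 ∣ r.2 ∧ g.2 ∣ (r.1 ^ 2 + 1) / r.2 ∧ ∀ p ∈ (g.1 * g.2).primeFactors, ¬ p ^ 2 ∣ r.1 ^ 2 + 1

open Classical in
/-- the primes `p ≤ T` dividing `m ^ 2 + 1` exactly once -/
noncomputable def ps (T m : ℕ) : Finset ℕ :=
  ((m ^ 2 + 1).primeFactors).filter (fun p => p ≤ T ∧ ¬ p ^ 2 ∣ m ^ 2 + 1)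

/-- the product of the primes `p ≤ T` dividing `m ^ 2 + 1` exactly once -/
noncomputable def sT (T m : ℕ) : ℕ := ∏ p ∈ ps T m, p

/-- congruence of Gaussian integers modulo `M` -/
def cg (M : ℕ) (u v : G) : Prop := (M : ℤ) ∣ u.re - v.re ∧ (M : ℤ) ∣ u.im - v.im

/-- Farey edges `(V, V')` in a congruence class, `m = V . V' ≤ x`, `e ^ s ≤ |V'|^2 / |V|^2 < e ^ t` -/
def NE (M : ℕ) (γ : G × G) (s t x : ℝ) : Set (G × G) :=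
  {e | det e.1 e.2 = 1 ∧ 0 < dot e.1 e.2 ∧ ((dot e.1 e.2 : ℤ) : ℝ) ≤ x ∧
    Real.exp s * (nm e.1 : ℝ) ≤ (nm e.2 : ℝ) ∧ (nm e.2 : ℝ) < Real.exp t * (nm e.1 : ℝ) ∧
    cg M e.1 γ.1 ∧ cg M e.2 γ.2}

/-- coprime pairs of positive integers in a congruence class, `r r' ≤ Y`, `e ^ s ≤ (r' / r) ^ 2 < e ^ t` -/
def cop (M : ℕ) (b b' : ℤ) (s t Y : ℝ) : Set (ℤ × ℤ) :=
  {r | 0 < r.1 ∧ 0 < r.2 ∧ IsCoprime r.1 r.2 ∧ (M : ℤ) ∣ r.1 - b ∧ (M : ℤ) ∣ r.2 - b' ∧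
    ((r.1 * r.2 : ℤ) : ℝ) ≤ Y ∧ Real.exp s * (r.1 : ℝ) ^ 2 ≤ (r.2 : ℝ) ^ 2 ∧
    (r.2 : ℝ) ^ 2 < Real.exp t * (r.1 : ℝ) ^ 2}

/-- `c` is the density constant for coprime pairs modulo `M` -/
def CopC (M : ℕ) (c : ℝ) : Prop := ∀ b b' : ℤ, Int.gcd (Int.gcd b b') M = 1 → ∀ s t : ℝ, s ≤ t →
  Filter.Tendsto (fun Y : ℝ => ((cop M b b' s t Y).ncard : ℝ) / Y) Filter.atTop (nhds (c * (t - s)))

/-- a unimodular pair in the closed first quadrant -/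
def Fr (u v : G) : Prop := |det u v| = 1 ∧ 0 ≤ u.re ∧ 0 ≤ u.im ∧ 0 ≤ v.re ∧ 0 ≤ v.im

/-- the linear functional `re + im` -/
def ll (u : G) : ℤ := u.re + u.im

/-- the arc of all `α u + β v` with `β > 0`, `S β ≤ α < (S + M) β` -/
def arc (u v : G) (S M : ℕ) : Set G :=
  {z | ∃ α β : ℤ, z = (α : G) * u + (β : G) * v ∧ 0 < β ∧ (S : ℤ) * β ≤ α ∧ α < ((S : ℤ) + M) * β}

/-- the closed cone spanned by `u` and `v` -/
def cone (u v : G) : Set G := {z | ∃ α β : ℤ, z = (α : G) * u + (β : G) * v ∧ 0 ≤ α ∧ 0 ≤ β}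

/-- the open cone spanned by `u` and `v` -/
def cone0 (u v : G) : Set G := {z | ∃ α β : ℤ, z = (α : G) * u + (β : G) * v ∧ 0 < α ∧ 0 < β}

/-- representatives of `SL2 (ℤ / M)`, as pairs of Gaussian integers with coordinates in `[0, M)` -/
noncomputable def cls (M : ℕ) : Finset (G × G) :=
  (((((range M ×ˢ range M) ×ˢ (range M ×ˢ range M)).image
    (fun w : (ℕ × ℕ) × (ℕ × ℕ) => ((⟨(w.1.1 : ℤ), (w.1.2 : ℤ)⟩, ⟨(w.2.1 : ℤ), (w.2.2 : ℤ)⟩) : G × G))).filter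
      (fun e => (M : ℤ) ∣ det e.1 e.2 - 1)) : Finset (G × G))

/-- the conditions on an edge corresponding to `Cd` and to even `m` -/
def Ce (g : ℕ × ℕ) (e : G × G) : Prop :=
  Odd (nm e.1) ∧ Odd (nm e.2) ∧ (∀ p ∈ g.1.primeFactors, p ∣ nm e.1) ∧
    (∀ p ∈ g.2.primeFactors, p ∣ nm e.2) ∧ ∀ p ∈ (g.1 * g.2).primeFactors, ¬ p ^ 2 ∣ nm e.1 * nm e.2

/-- admissible pairs `(g, g')` -/
def Adm (g : ℕ × ℕ) : Prop :=
  Squarefree (g.1 * g.2) ∧ ∀ p ∈ (g.1 * g.2).primeFactors, p % 4 = 1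

end Pool.Agent.OmAll
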