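import Pool.Agent.Lib_MP_f1a94e_aq.Kern

/-!
# Piece PLANCH: correlations of the kernel difference
-/

set_option autoImplicit false

namespace Pool.Agent.OmAll

open MeasureTheory

theorem hh_cont (a b : ℝ) : Continuous (hh a b) := by
  unfold hh
  fun_prop

theorem hh_even (a b τ : ℝ) : hh a b (-τ) = hh a b τ := by
  unfold hh
  rw [abs_neg]

/-- `|hh a b τ| ≤ |τ| / a`, and `hh a b τ = 0` for `|τ| ≥ b` (`a ≤ b`) -/
theorem hh_le (a b τ : ℝ) (ha : 0 < a) (hab : a ≤ b) : |hh a b τ| ≤ |τ| / a := by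
  have hb : 0 < b := ha.trans_le hab
  have h1 : |τ| / b ≤ |τ| / a := div_le_div_of_nonneg_left (abs_nonneg τ) ha hab
  have h2 : 0 ≤ |τ| / b := by positivity
  have h3 : 0 ≤ |τ| / a := by positivity
  unfold hh
  rw [abs_le]
  constructor
  · rcases le_total (1 - |τ| / b) 0 with h | h
    · rw [max_eq_right h]
      have := le_max_right (1 - |τ| / a) 0
      linarith
    · rw [max_eq_left h]
      have := le_max_left (1 - |τ| / a) 0
      linarith
  · rcases le_total (1 - |τ| / a) 0 with h | h
    · rw [max_eq_right h]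
      have := le_max_right (1 - |τ| / b) 0
      linarith
    · rw [max_eq_left h]
      have := le_max_left (1 - |τ| / b) 0
      linarith

theorem hh_zero (a b τ : ℝ) (ha : 0 < a) (hab : a ≤ b) (hτ : b ≤ |τ|) : hh a b τ = 0 := by
  have hb : 0 < b := ha.trans_le hab
  have h1 : 1 ≤ |τ| / b := by rwa [le_div_iff₀ hb, one_mul]
  have h2 : 1 ≤ |τ| / a := by
    rw [le_div_iff₀ ha, one_mul]
    exact hab.trans hτ
  unfold hh
  rw [max_eq_right (by linarith), max_eq_right (by linarith), sub_zero]

/-- the Fourier transform of the triangle function -/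
theorem Planch_Kf (a t : ℝ) (ha : 0 < a) :
    Integrable (fun τ => max (1 - |τ| / a) 0 * Real.cos (τ * t)) ∧
      Kf a t = ∫ τ, max (1 - |τ| / a) 0 * Real.cos (τ * t) := by
  have hcont : Continuous (fun τ : ℝ => max (1 - |τ| / a) 0 * Real.cos (τ * t)) := by fun_prop
  have hzero : ∀ τ : ℝ, a ≤ |τ| → max (1 - |τ| / a) 0 = 0 := by
    intro τ h
    apply max_eq_right
    have : 1 ≤ |τ| / a := by rwa [le_div_iff₀ ha, one_mul]
    linarith
  constructor
  · apply hcont.integrable_of_hasCompactSupport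
    apply HasCompactSupport.of_support_subset_isCompact (isCompact_Icc (a := -a) (b := a))
    intro τ hτ
    rw [Function.mem_support] at hτ
    rw [Set.mem_Icc, ← abs_le]
    by_contra h
    apply hτ
    rw [hzero τ (not_le.1 h).le, zero_mul]
  · have h1 : (fun τ : ℝ => max (1 - |τ| / a) 0 * Real.cos (τ * t)) =
        fun τ => (fun u => max (1 - u / a) 0 * Real.cos (u * t)) |τ| := by
      funext τ
      have : Real.cos (|τ| * t) = Real.cos (τ * t) := by
        rcases abs_choice τ with h | h
        · rw [h]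
        · rw [h, neg_mul, Real.cos_neg]
      simp only [this]
    rw [h1, integral_comp_abs (f := fun u => max (1 - u / a) 0 * Real.cos (u * t))]
    have h2 : ∫ u in Set.Ioi (0 : ℝ), max (1 - u / a) 0 * Real.cos (u * t) =
        ∫ u in Set.Ioc 0 a, max (1 - u / a) 0 * Real.cos (u * t) := by
      apply setIntegral_eq_of_subset_of_forall_sdiff_eq_zero measurableSet_Ioi
        Set.Ioc_subset_Ioi_self
      rintro u ⟨hu1, hu2⟩
      have hu3 : a < u := by
        by_contra h
        exact hu2 ⟨hu1, not_lt.1 h⟩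
      have h3 := hzero u (by rw [abs_of_pos hu1]; exact hu3.le)
      rw [abs_of_pos hu1] at h3
      rw [h3, zero_mul]
    rw [h2, ← intervalIntegral.integral_of_le ha.le]
    have h3 : ∫ u in (0 : ℝ)..a, max (1 - u / a) 0 * Real.cos (u * t) =
        ∫ u in (0 : ℝ)..a, (1 - u / a) * Real.cos (u * t) := by
      apply intervalIntegral.integral_congr
      intro u hu
      rw [Set.uIcc_of_le ha.le] at hu
      simp only
      rw [max_eq_left]
      have : u / a ≤ 1 := by rw [div_le_one ha]; exact hu.2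
      linarith
    rw [h3]
    unfold Kf
    by_cases ht : t = 0
    · subst ht
      have h4 : ∀ u : ℝ, HasDerivAt (fun u => u - u ^ 2 / (2 * a)) ((1 - u / a) * Real.cos (u * 0)) u := by
        intro u
        have := (hasDerivAt_id u).sub (((hasDerivAt_pow 2 u)).div_const (2 * a))
        refine this.congr_deriv ?_
        simp
        field_simp
      rw [intervalIntegral.integral_eq_sub_of_hasDerivAt (fun u _ => h4 u)
        (Continuous.intervalIntegrable (by fun_prop) _ _)]
      simp
      field_simp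
      norm_num
    · have h4 : ∀ u : ℝ, HasDerivAt
          (fun u => (1 - u / a) * Real.sin (u * t) / t - Real.cos (u * t) / (a * t ^ 2))
          ((1 - u / a) * Real.cos (u * t)) u := by
        intro u
        have e1 : HasDerivAt (fun u => u * t) t u := by simpa using (hasDerivAt_id u).mul_const t
        have e2 : HasDerivAt (fun u => 1 - u / a) (-(1 / a)) u := by
          simpa using ((hasDerivAt_id u).div_const a).const_sub 1
        have e3 := ((e2.mul e1.sin).div_const t).sub ((e1.cos).div_const (a * t ^ 2))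
        refine e3.congr_deriv ?_
        field_simp
        ring
      rw [intervalIntegral.integral_eq_sub_of_hasDerivAt (fun u _ => h4 u)
        (Continuous.intervalIntegrable (by fun_prop) _ _)]
      have h5 : a * t / 2 ≠ 0 := by positivity
      rw [Real.sinc_of_ne_zero h5]
      have h6 : Real.cos (a * t) = 1 - 2 * Real.sin (a * t / 2) ^ 2 := by
        have := Real.cos_two_mul (a * t / 2)
        rw [show 2 * (a * t / 2) = a * t by ring] at this
        rw [this, Real.cos_sq']
        ring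
      simp only [zero_div, sub_zero, zero_mul, Real.sin_zero, mul_zero, Real.cos_zero,
        div_self ha.ne', sub_self]
      rw [h6]
      field_simp
      ring

/-- `Kf a t = ∫_(-a)^a (1 - |τ|/a) cos (τ t) dτ` (explicit antiderivative on `[0, a]`:
`(1 - τ/a) sin (τ t) / t - cos (τ t) / (a t^2)`; for `t = 0` both sides are `a`), and subtract. -/
theorem Hf_eq (a b t : ℝ) (ha : 0 < a) (hab : a ≤ b) : Hf a b t = ∫ τ, hh a b τ * Real.cos (τ * t) := by
  obtain ⟨h1, h2⟩ := Planch_Kf a t ha
  obtain ⟨h3, h4⟩ := Planch_Kf b t (ha.trans_le hab)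
  unfold Hf
  rw [h2, h4, ← integral_sub h1 h3]
  congr 1
  funext τ
  unfold hh
  ring

theorem Planch_supp (a b : ℝ) (ha : 0 < a) (hab : a ≤ b) : HasCompactSupport (hh a b) := by
  apply HasCompactSupport.of_support_subset_isCompact (isCompact_Icc (a := -b) (b := b))
  intro τ hτ
  rw [Function.mem_support] at hτ
  rw [Set.mem_Icc, ← abs_le]
  by_contra h
  exact hτ (hh_zero a b τ ha hab (not_le.1 h).le)

theorem Planch_int (a b : ℝ) (ha : 0 < a) (hab : a ≤ b) {g : ℝ → ℂ} (hg : Continuous g) :
    Integrable (fun τ => (hh a b τ : ℂ) * g τ) := by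
  have h1 : Continuous (fun τ => (hh a b τ : ℂ) * g τ) :=
    (Complex.continuous_ofReal.comp (hh_cont a b)).mul hg
  apply h1.integrable_of_hasCompactSupport
  have h2 : HasCompactSupport (fun τ => (hh a b τ : ℂ)) :=
    (Planch_supp a b ha hab).comp_left (g := fun x : ℝ => (x : ℂ)) Complex.ofReal_zero
  exact h2.mul_right

theorem Planch_FT (a b t : ℝ) (ha : 0 < a) (hab : a ≤ b) :
    ∫ τ, (hh a b τ : ℂ) * Complex.exp (((-(τ * t) : ℝ) : ℂ) * Complex.I) = (Hf a b t : ℂ) := by
  have hint := Planch_int a b ha hab (g := fun τ => Complex.exp (((-(τ * t) : ℝ) : ℂ) * Complex.I))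
    (by fun_prop)
  have hre : ∀ τ : ℝ, ((hh a b τ : ℂ) * Complex.exp (((-(τ * t) : ℝ) : ℂ) * Complex.I)).re =
      hh a b τ * Real.cos (τ * t) := by
    intro τ
    rw [Complex.re_ofReal_mul, Complex.exp_ofReal_mul_I_re, Real.cos_neg]
  have him : ∀ τ : ℝ, ((hh a b τ : ℂ) * Complex.exp (((-(τ * t) : ℝ) : ℂ) * Complex.I)).im =
      -(hh a b τ * Real.sin (τ * t)) := by
    intro τ
    rw [Complex.im_ofReal_mul, Complex.exp_ofReal_mul_I_im, Real.sin_neg]
    ring
  have h1 := integral_re_add_im hint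
  have h2 : ∫ τ, RCLike.re ((hh a b τ : ℂ) * Complex.exp (((-(τ * t) : ℝ) : ℂ) * Complex.I)) =
      Hf a b t := by
    rw [Hf_eq a b t ha hab]
    exact integral_congr_ae (Filter.Eventually.of_forall hre)
  have h3 : ∫ τ, RCLike.im ((hh a b τ : ℂ) * Complex.exp (((-(τ * t) : ℝ) : ℂ) * Complex.I)) =
      0 := by
    have h4 : ∫ τ, RCLike.im ((hh a b τ : ℂ) *
        Complex.exp (((-(τ * t) : ℝ) : ℂ) * Complex.I)) =
        ∫ τ, -(hh a b τ * Real.sin (τ * t)) :=
      integral_congr_ae (Filter.Eventually.of_forall him)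
    rw [h4]
    have h5 := integral_neg_eq_self (fun τ => -(hh a b τ * Real.sin (τ * t))) volume
    have h6 : ∫ τ, -(hh a b (-τ) * Real.sin (-τ * t)) =
        - ∫ τ, -(hh a b τ * Real.sin (τ * t)) := by
      rw [← integral_neg]
      congr 1
      funext τ
      rw [hh_even, neg_mul, Real.sin_neg]
      ring
    rw [h6] at h5
    linarith
  rw [h2, h3] at h1
  rw [← h1]
  simp

theorem Planch_Hf_int (a b : ℝ) (ha : 0 < a) (hab : a ≤ b) : Integrable (Hf a b) := by
  have h1 : Integrable (fun t : ℝ => (4 * b + 16 / a) * (1 + t ^ 2)⁻¹) :=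
    integrable_inv_one_add_sq.const_mul _
  refine h1.mono' (Hf_cont a b).aestronglyMeasurable (Filter.Eventually.of_forall fun t => ?_)
  rw [Real.norm_eq_abs, ← div_eq_mul_inv]
  exact Hf_le a b t ha hab

open FourierTransform in
/-- `H = Hf a b` is continuous and integrable (`Hf_le`), `h = hh a b` is continuous with compact support, even, and
`H t = ∫ h τ e^(i τ t) dτ`, i.e. `H (2 π x) = 𝓕⁻ h x`-type formula with Mathlib's normalisation. Fourier inversion (Mathlib:
`MeasureTheory.Integrable.fourierInv_fourier_eq` or `Continuous.fourierInv_fourier_eq`) gives `∫ H t e^(i τ t) dt = 2 π h τ`.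
Then Fubini: `∫ H t H (t + u) dt = ∫ H t ∫ h τ cos (τ (t + u)) dτ dt = ∫ h τ (cos (τ u) 2 π h τ - sin (τ u) * 0) dτ`
(`∫ H t sin (τ t) dt = 0`, `H` even). -/
theorem planch (a b u : ℝ) (ha : 0 < a) (hab : a ≤ b) :
    ∫ t, Hf a b t * Hf a b (t + u) = 2 * Real.pi * ∫ τ, hh a b τ ^ 2 * Real.cos (τ * u) := by
  have hpi : (0 : ℝ) < 2 * Real.pi := by positivity
  set F1 : ℝ → ℂ := fun τ => (hh a b τ : ℂ) * Complex.exp (((-(τ * u) : ℝ) : ℂ) * Complex.I)
    with hF1
  set F2 : ℝ → ℂ := fun τ => (hh a b τ : ℂ) with hF2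
  have hF1i : Integrable F1 := Planch_int a b ha hab (by fun_prop)
  have hF2i : Integrable F2 := by
    have := Planch_int a b ha hab (g := fun _ => (1 : ℂ)) continuous_const
    simpa using this
  have hF2c : Continuous F2 := Complex.continuous_ofReal.comp (hh_cont a b)
  have e1 : ∀ w : ℝ, 𝓕 F1 w = (Hf a b (2 * Real.pi * w + u) : ℂ) := by
    intro w
    rw [Real.fourier_real_eq_integral_exp_smul, ← Planch_FT a b _ ha hab]
    congr 1
    funext τ
    rw [hF1, smul_eq_mul, mul_left_comm, ← Complex.exp_add]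
    congr 2
    push_cast
    ring
  have e2 : ∀ w : ℝ, 𝓕 F2 w = (Hf a b (2 * Real.pi * w) : ℂ) := by
    intro w
    rw [Real.fourier_real_eq_integral_exp_smul, ← Planch_FT a b _ ha hab]
    congr 1
    funext τ
    rw [hF2, smul_eq_mul, mul_comm]
    congr 2
    push_cast
    ring
  have e3 : Integrable (𝓕 F2) := by
    have h1 : 𝓕 F2 = fun w => ((Hf a b (2 * Real.pi * w) : ℝ) : ℂ) := funext e2
    rw [h1]
    exact ((Planch_Hf_int a b ha hab).comp_mul_left' hpi.ne').ofReal
  have e4 : ∀ x : ℝ, 𝓕 (𝓕 F2) x = (hh a b x : ℂ) := by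
    intro x
    have h1 := congrFun (hF2c.fourierInv_fourier_eq hF2i e3) (-x)
    rw [Real.fourierInv_eq_fourier_neg, neg_neg] at h1
    rw [h1, hF2]
    simp only
    rw [hh_even]
  have key : ∫ ξ, 𝓕 F1 ξ • 𝓕 F2 ξ = ∫ x, F1 x • 𝓕 (𝓕 F2) x := by
    have := VectorFourier.integral_fourierIntegral_smul_eq_flip (L := innerₗ ℝ)
      Real.continuous_fourierChar continuous_inner hF1i e3
    rw [flip_innerₗ] at this
    exact this
  simp only [e1, e2, e4, smul_eq_mul] at key
  have k1 : ∫ ξ : ℝ, ((Hf a b (2 * Real.pi * ξ + u) : ℝ) : ℂ) * ((Hf a b (2 * Real.pi * ξ) : ℝ) : ℂ) =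
      (((2 * Real.pi)⁻¹ * ∫ t, Hf a b t * Hf a b (t + u) : ℝ) : ℂ) := by
    have h1 := Measure.integral_comp_mul_left (fun t => Hf a b t * Hf a b (t + u)) (2 * Real.pi)
    rw [abs_of_pos (inv_pos.2 hpi), smul_eq_mul] at h1
    have h2 := integral_complex_ofReal
      (f := fun x => Hf a b (2 * Real.pi * x) * Hf a b (2 * Real.pi * x + u)) (μ := volume)
    rw [← h1, ← h2]
    congr 1
    funext ξ
    push_cast
    ring
  rw [k1] at key
  have k2 := congrArg Complex.re key
  rw [Complex.ofReal_re] at k2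
  have k3 : (∫ x, F1 x * (hh a b x : ℂ)).re = ∫ τ, hh a b τ ^ 2 * Real.cos (τ * u) := by
    have hint : Integrable (fun x => F1 x * (hh a b x : ℂ)) := by
      have := Planch_int a b ha hab (g := fun τ =>
        Complex.exp (((-(τ * u) : ℝ) : ℂ) * Complex.I) * (hh a b τ : ℂ)) (by
          have := Complex.continuous_ofReal.comp (hh_cont a b)
          fun_prop)
      refine this.congr (Filter.Eventually.of_forall fun τ => ?_)
      simp only [hF1]
      ring
    have h1 := integral_re hint
    have h2 : (∫ x, F1 x * (hh a b x : ℂ)).re = ∫ x, RCLike.re (F1 x * (hh a b x : ℂ)) := h1.symm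
    rw [h2]
    congr 1
    funext τ
    change (F1 τ * (hh a b τ : ℂ)).re = _
    rw [hF1]
    simp only
    rw [Complex.re_mul_ofReal, Complex.re_ofReal_mul, Complex.exp_ofReal_mul_I_re, Real.cos_neg]
    ring
  rw [k3] at k2
  rw [← k2]
  field_simp

end Pool.Agent.OmAll
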