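import Pool.Agent.Lib_MP_f1a94e_aq.Defs

/-!
# Piece COPA: pairs in a congruence class, hyperbolic region
-/

set_option autoImplicit false

namespace Pool.Agent.OmAll

open Filter

/-- pairs without the coprimality condition -/
def cop0 (M : ℕ) (b b' : ℤ) (s t Y : ℝ) : Set (ℤ × ℤ) :=
  {r | 0 < r.1 ∧ 0 < r.2 ∧ (M : ℤ) ∣ r.1 - b ∧ (M : ℤ) ∣ r.2 - b' ∧
    ((r.1 * r.2 : ℤ) : ℝ) ≤ Y ∧ Real.exp s * (r.1 : ℝ) ^ 2 ≤ (r.2 : ℝ) ^ 2 ∧
    (r.2 : ℝ) ^ 2 < Real.exp t * (r.1 : ℝ) ^ 2}

namespace CopA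

/-- integers of a class mod `M` in an interval -/
theorem card_class (M : ℕ) (hM : 0 < M) (b : ℤ) {u v : ℝ} (huv : u ≤ v) :
    |((((Finset.Ioc ⌊u⌋ ⌊v⌋).filter (fun r : ℤ => (M : ℤ) ∣ r - b)).card : ℕ) : ℝ) -
      (v - u) / M| ≤ 1 := by
  have hMr : (0 : ℝ) < M := by exact_mod_cast hM
  have hMz : (0 : ℤ) < M := by exact_mod_cast hM
  have himg : (Finset.Ioc ⌊u⌋ ⌊v⌋).filter (fun r : ℤ => (M : ℤ) ∣ r - b) =
      (Finset.Ioc ⌊(u - b) / M⌋ ⌊(v - b) / M⌋).image (fun q : ℤ => b + M * q) := by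
    ext r
    simp only [Finset.mem_filter, Finset.mem_Ioc, Finset.mem_image]
    constructor
    · rintro ⟨⟨h1, h2⟩, q, hq⟩
      refine ⟨q, ⟨?_, ?_⟩, by linarith⟩
      · rw [Int.floor_lt] at h1 ⊢
        rw [div_lt_iff₀ hMr]
        have : (r : ℝ) - b = M * q := by exact_mod_cast hq
        linarith
      · rw [Int.le_floor] at h2 ⊢
        rw [le_div_iff₀ hMr]
        have : (r : ℝ) - b = M * q := by exact_mod_cast hq
        linarith
    · rintro ⟨q, ⟨h1, h2⟩, rfl⟩
      refine ⟨⟨?_, ?_⟩, ⟨q, by ring⟩⟩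
      · rw [Int.floor_lt] at h1 ⊢
        rw [div_lt_iff₀ hMr] at h1
        push_cast
        linarith
      · rw [Int.le_floor] at h2 ⊢
        rw [le_div_iff₀ hMr] at h2
        push_cast
        linarith
  have hinj : Function.Injective (fun q : ℤ => b + M * q) := by
    intro q q' h
    have h1 : (M : ℤ) * q = M * q' := by simpa using h
    exact mul_left_cancel₀ hMz.ne' h1
  rw [himg, Finset.card_image_of_injective _ hinj, Int.card_Ioc]
  have hle : ⌊(u - b) / M⌋ ≤ ⌊(v - b) / M⌋ :=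
    Int.floor_le_floor (div_le_div_of_nonneg_right (by linarith) hMr.le)
  have hcast : (((⌊(v - b) / M⌋ - ⌊(u - b) / M⌋).toNat : ℕ) : ℝ) =
      (⌊(v - b) / M⌋ : ℝ) - ⌊(u - b) / M⌋ := by
    have h1 : (((⌊(v - b) / M⌋ - ⌊(u - b) / M⌋).toNat : ℕ) : ℤ) =
        ⌊(v - b) / M⌋ - ⌊(u - b) / M⌋ := Int.toNat_of_nonneg (by linarith)
    have h2 : (((⌊(v - b) / M⌋ - ⌊(u - b) / M⌋).toNat : ℕ) : ℝ) =
        ((((⌊(v - b) / M⌋ - ⌊(u - b) / M⌋).toNat : ℕ) : ℤ) : ℝ) := by push_cast; rfl
    rw [h2, h1]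
    push_cast
    rfl
  rw [hcast]
  have e : (v - u) / M = (v - b) / M - (u - b) / M := by ring
  rw [e, abs_le]
  have a1 := Int.floor_le ((v - b) / (M : ℝ))
  have a2 := Int.lt_floor_add_one ((v - b) / (M : ℝ))
  have a3 := Int.floor_le ((u - b) / (M : ℝ))
  have a4 := Int.lt_floor_add_one ((u - b) / (M : ℝ))
  constructor <;> linarith

/-- the upper end of the interval for the first coordinate -/
noncomputable def hf (lam Y x : ℝ) : ℝ := min (x / lam) (Y / x)

theorem hf_lip {lam Y x y : ℝ} (hlam : 0 < lam) (hY : 0 < Y) (hx : 0 ≤ x) (hxy : x ≤ y) :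
    |hf lam Y y - hf lam Y x| ≤ (y - x) / lam := by
  have hx' : hf lam Y x ≤ x / lam := min_le_left _ _
  have hy' : hf lam Y y ≤ y / lam := min_le_left _ _
  have e0 : (y - x) / lam = y / lam - x / lam := by ring
  rw [abs_le]
  constructor
  · -- lower bound
    have h1 : x / lam ≤ y / lam := div_le_div_of_nonneg_right hxy hlam.le
    have h2 : hf lam Y x - (y - x) / lam ≤ hf lam Y y := by
      apply le_min
      · rw [e0]; linarith
      · rcases hx.eq_or_lt with h0 | h0
        · have hx0 : hf lam Y x ≤ 0 := by rw [← h0] at hx'; simpa [← h0] using hx'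
          have h3 : 0 ≤ (y - x) / lam := div_nonneg (by linarith) hlam.le
          have h4 : 0 ≤ Y / y := div_nonneg hY.le (by linarith)
          linarith
        · have hy0 : 0 < y := lt_of_lt_of_le h0 hxy
          rcases le_or_gt (y ^ 2) (lam * Y) with h3 | h3
          · have h4 : y / lam ≤ Y / y := by
              rw [div_le_div_iff₀ hlam hy0]
              nlinarith
            have h5 : 0 ≤ (y - x) / lam := div_nonneg (by linarith) hlam.le
            linarith
          · rcases le_or_gt (lam * Y) (x ^ 2) with h4 | h4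
            · have h5 : hf lam Y x ≤ Y / x := min_le_right _ _
              have h6 : Y / x - Y / y ≤ (y - x) / lam := by
                have e : Y / x - Y / y = (Y * (y - x)) / (x * y) := by
                  field_simp
                rw [e, div_le_div_iff₀ (by positivity) hlam]
                have h7 : lam * Y ≤ x * y := by nlinarith
                nlinarith
              linarith
            · have h5 : x / lam - (y - x) / lam ≤ Y / y := by
                have e : x / lam - (y - x) / lam = (2 * x - y) / lam := by ring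
                rw [e, div_le_div_iff₀ hlam hy0]
                nlinarith [sq_nonneg (x - y)]
              linarith
    linarith
  · -- upper bound
    have h2 : hf lam Y y - (y - x) / lam ≤ hf lam Y x := by
      apply le_min
      · rw [e0]; linarith
      · rcases hx.eq_or_lt with h0 | h0
        · rw [← h0, div_zero, sub_zero]
          linarith
        · have h3 : hf lam Y y ≤ Y / y := min_le_right _ _
          have h4 : Y / y ≤ Y / x := div_le_div_of_nonneg_left hY.le h0 hxy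
          have h5 : 0 ≤ (y - x) / lam := div_nonneg (by linarith) hlam.le
          linarith
    linarith

/-- the length of the interval for the first coordinate -/
noncomputable def ff (lam mu Y x : ℝ) : ℝ := hf lam Y x - x / mu

theorem ff_lip {lam mu Y x y : ℝ} (hlam : 0 < lam) (hmu : 0 < mu) (hY : 0 < Y) (hx : 0 ≤ x)
    (hxy : x ≤ y) : |ff lam mu Y y - ff lam mu Y x| ≤ (1 / lam + 1 / mu) * (y - x) := by
  have h1 := hf_lip hlam hY hx hxy
  have h2 : ff lam mu Y y - ff lam mu Y x = (hf lam Y y - hf lam Y x) - (y - x) / mu := by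
    unfold ff; ring
  have h3 : |(y - x) / mu| = (y - x) / mu := abs_of_nonneg (div_nonneg (by linarith) hmu.le)
  rw [h2]
  calc |hf lam Y y - hf lam Y x - (y - x) / mu|
      ≤ |hf lam Y y - hf lam Y x| + |(y - x) / mu| := abs_sub _ _
    _ ≤ (y - x) / lam + (y - x) / mu := by rw [h3]; linarith
    _ = (1 / lam + 1 / mu) * (y - x) := by ring

theorem lip_cont {g : ℝ → ℝ} {L : ℝ} (hL : 0 ≤ L)
    (hg : ∀ x y, 0 ≤ x → x ≤ y → |g y - g x| ≤ L * (y - x)) : ContinuousOn g (Set.Ici 0) := by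
  have : LipschitzOnWith (Real.toNNReal L) g (Set.Ici 0) := by
    apply LipschitzOnWith.of_dist_le_mul
    intro x hx y hy
    rw [Real.coe_toNNReal L hL, Real.dist_eq, Real.dist_eq]
    rcases le_total x y with h | h
    · have := hg x y hx h
      rw [abs_sub_comm (g x), abs_sub_comm x, abs_of_nonneg (by linarith : 0 ≤ y - x)]
      exact this
    · have := hg y x hy h
      rw [abs_of_nonneg (by linarith : 0 ≤ x - y)]
      exact this
  exact this.continuousOn

theorem lip_int {g : ℝ → ℝ} {L : ℝ} (hL : 0 ≤ L)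
    (hg : ∀ x y, 0 ≤ x → x ≤ y → |g y - g x| ≤ L * (y - x)) {a b : ℝ} (ha : 0 ≤ a)
    (hb : 0 ≤ b) : IntervalIntegrable g MeasureTheory.volume a b := by
  apply ContinuousOn.intervalIntegrable
  apply (lip_cont hL hg).mono
  intro x hx
  rw [Set.mem_uIcc] at hx
  rw [Set.mem_Ici]
  rcases hx with h | h <;> linarith [h.1]

/-- sum and integral of a Lipschitz function -/
theorem sum_int {g : ℝ → ℝ} {L : ℝ} (hL : 0 ≤ L)
    (hg : ∀ x y, 0 ≤ x → x ≤ y → |g y - g x| ≤ L * (y - x)) (B : ℕ) :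
    |∑ k ∈ Finset.range B, g ((k : ℝ) + 1) - ∫ x in (0 : ℝ)..B, g x| ≤ L * B := by
  induction B with
  | zero => simp
  | succ B ih =>
    rw [Finset.sum_range_succ]
    have hB : (0 : ℝ) ≤ B := Nat.cast_nonneg B
    have h1 : ∫ x in (0 : ℝ)..((B + 1 : ℕ) : ℝ), g x =
        (∫ x in (0 : ℝ)..B, g x) + ∫ x in (B : ℝ)..((B + 1 : ℕ) : ℝ), g x :=
      (intervalIntegral.integral_add_adjacent_intervals (lip_int hL hg le_rfl hB)
        (lip_int hL hg hB (by positivity))).symm
    have h2 : ‖∫ x in (B : ℝ)..((B + 1 : ℕ) : ℝ), (g ((B : ℝ) + 1) - g x)‖ ≤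
        L * |((B + 1 : ℕ) : ℝ) - B| := by
      apply intervalIntegral.norm_integral_le_of_norm_le_const
      intro x hx
      rw [Set.uIoc_of_le (by push_cast; linarith)] at hx
      push_cast at hx
      rw [Real.norm_eq_abs]
      have h3 := hg x ((B : ℝ) + 1) (by linarith [hx.1]) hx.2
      refine h3.trans ?_
      nlinarith [hx.1]
    have h4 : ∫ x in (B : ℝ)..((B + 1 : ℕ) : ℝ), (g ((B : ℝ) + 1) - g x) =
        g ((B : ℝ) + 1) - ∫ x in (B : ℝ)..((B + 1 : ℕ) : ℝ), g x := by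
      rw [intervalIntegral.integral_sub (by simp) (lip_int hL hg hB (by positivity))]
      rw [intervalIntegral.integral_const]
      push_cast
      simp
    rw [h4, Real.norm_eq_abs] at h2
    have h5 : |((B + 1 : ℕ) : ℝ) - B| = 1 := by push_cast; simp
    rw [h5, mul_one] at h2
    rw [h1]
    have e : ∑ k ∈ Finset.range B, g ((k : ℝ) + 1) + g ((B : ℝ) + 1) -
        ((∫ x in (0 : ℝ)..B, g x) + ∫ x in (B : ℝ)..((B + 1 : ℕ) : ℝ), g x) =
        (∑ k ∈ Finset.range B, g ((k : ℝ) + 1) - ∫ x in (0 : ℝ)..B, g x) +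
        (g ((B : ℝ) + 1) - ∫ x in (B : ℝ)..((B + 1 : ℕ) : ℝ), g x) := by ring
    rw [e]
    calc _ ≤ _ := abs_add_le _ _
      _ ≤ L * B + L := add_le_add ih h2
      _ = L * ((B + 1 : ℕ) : ℝ) := by push_cast; ring

/-- sum over a class and full sum of a Lipschitz function -/
theorem sum_class {g : ℝ → ℝ} {L : ℝ}
    (hg : ∀ x y, 0 ≤ x → x ≤ y → |g y - g x| ≤ L * (y - x)) (c : ℕ → ℝ) (M : ℝ)
    (hc : ∀ j : ℕ, |∑ k ∈ Finset.range j, c k - j / M| ≤ 1) (B : ℕ) :
    |∑ k ∈ Finset.range B, c k * g ((k : ℝ) + 1) -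
      (1 / M) * ∑ k ∈ Finset.range B, g ((k : ℝ) + 1)| ≤ |g B| + L * B := by
  set e : ℕ → ℝ := fun j => ∑ k ∈ Finset.range j, c k - j / M with he
  have key : ∀ B : ℕ, ∑ k ∈ Finset.range B, c k * g ((k : ℝ) + 1) -
      (1 / M) * ∑ k ∈ Finset.range B, g ((k : ℝ) + 1) =
      e B * g B - ∑ k ∈ Finset.range B, e k * (g ((k : ℝ) + 1) - g k) := by
    intro B
    induction B with
    | zero => simp [he]
    | succ B ih =>
      rw [Finset.sum_range_succ, Finset.sum_range_succ (fun k : ℕ => g ((k : ℝ) + 1)),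
        Finset.sum_range_succ (fun k : ℕ => e k * (g ((k : ℝ) + 1) - g k))]
      have h1 : e (B + 1) = e B + c B - 1 / M := by
        simp only [he]
        rw [Finset.sum_range_succ]
        push_cast
        ring
      rw [h1]
      push_cast
      linear_combination ih
  rw [key]
  have h1 : |e B * g B| ≤ |g B| := by
    rw [abs_mul]
    calc |e B| * |g B| ≤ 1 * |g B| := mul_le_mul_of_nonneg_right (hc B) (abs_nonneg _)
      _ = |g B| := one_mul _
  have h2 : |∑ k ∈ Finset.range B, e k * (g ((k : ℝ) + 1) - g k)| ≤ L * B := by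
    calc _ ≤ ∑ k ∈ Finset.range B, |e k * (g ((k : ℝ) + 1) - g k)| :=
          Finset.abs_sum_le_sum_abs _ _
      _ ≤ ∑ k ∈ Finset.range B, L := by
          apply Finset.sum_le_sum
          intro k _
          rw [abs_mul]
          have h3 := hg k ((k : ℝ) + 1) (Nat.cast_nonneg k) (by linarith)
          have h4 : L * ((k : ℝ) + 1 - k) = L := by ring
          rw [h4] at h3
          calc |e k| * |g ((k : ℝ) + 1) - g k| ≤ 1 * |g ((k : ℝ) + 1) - g k| :=
                mul_le_mul_of_nonneg_right (hc k) (abs_nonneg _)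
            _ ≤ L := by rw [one_mul]; exact h3
      _ = L * B := by rw [Finset.sum_const, Finset.card_range, nsmul_eq_mul]; ring
  calc _ ≤ |e B * g B| + |∑ k ∈ Finset.range B, e k * (g ((k : ℝ) + 1) - g k)| := abs_sub _ _
    _ ≤ _ := add_le_add h1 h2

/-- the integral -/
theorem int_ff {lam mu Y : ℝ} (hlam : 0 < lam) (hmu : lam ≤ mu) (hY : 0 < Y) :
    ∫ x in (0 : ℝ)..√(mu * Y), ff lam mu Y x = Y / 2 * Real.log (mu / lam) := by
  have hmu0 : 0 < mu := lt_of_lt_of_le hlam hmu
  set R := √(lam * Y) with hR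
  set R' := √(mu * Y) with hR'
  have hR0 : 0 < R := Real.sqrt_pos.2 (by positivity)
  have hR0' : 0 < R' := Real.sqrt_pos.2 (by positivity)
  have hRsq : R ^ 2 = lam * Y := Real.sq_sqrt (by positivity)
  have hRsq' : R' ^ 2 = mu * Y := Real.sq_sqrt (by positivity)
  have hRR : R ≤ R' := Real.sqrt_le_sqrt (mul_le_mul_of_nonneg_right hmu hY.le)
  have hhL : ∀ x y, 0 ≤ x → x ≤ y → |hf lam Y y - hf lam Y x| ≤ (1 / lam) * (y - x) := by
    intro x y hx hxy
    have := hf_lip hlam hY hx hxy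
    rw [div_eq_mul_one_div, mul_comm] at this
    exact this
  have i1 : IntervalIntegrable (hf lam Y) MeasureTheory.volume 0 R' :=
    lip_int (by positivity) hhL le_rfl hR0'.le
  have i2 : IntervalIntegrable (hf lam Y) MeasureTheory.volume 0 R :=
    lip_int (by positivity) hhL le_rfl hR0.le
  have i3 : IntervalIntegrable (hf lam Y) MeasureTheory.volume R R' :=
    lip_int (by positivity) hhL hR0.le hR0'.le
  have e1 : ∫ x in (0 : ℝ)..R', ff lam mu Y x =
      (∫ x in (0 : ℝ)..R', hf lam Y x) - ∫ x in (0 : ℝ)..R', x / mu := by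
    unfold ff
    exact intervalIntegral.integral_sub i1
      ((continuous_id.div_const mu).intervalIntegrable _ _)
  have e2 : ∫ x in (0 : ℝ)..R', x / mu = R' ^ 2 / (2 * mu) := by
    rw [intervalIntegral.integral_div, integral_id]
    field_simp
    ring
  have e3 : ∫ x in (0 : ℝ)..R, hf lam Y x = R ^ 2 / (2 * lam) := by
    have : ∫ x in (0 : ℝ)..R, hf lam Y x = ∫ x in (0 : ℝ)..R, x / lam := by
      apply intervalIntegral.integral_congr
      intro x hx
      rw [Set.uIcc_of_le hR0.le] at hx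
      show min (x / lam) (Y / x) = x / lam
      apply min_eq_left
      rcases hx.1.eq_or_lt with h | h
      · rw [← h]; simp
      · rw [div_le_div_iff₀ hlam h]
        nlinarith [hx.2]
    rw [this, intervalIntegral.integral_div, integral_id]
    field_simp
    ring
  have e4 : ∫ x in R..R', hf lam Y x = Y * Real.log (R' / R) := by
    have : ∫ x in R..R', hf lam Y x = ∫ x in R..R', Y * x⁻¹ := by
      apply intervalIntegral.integral_congr
      intro x hx
      rw [Set.uIcc_of_le hRR] at hx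
      have hx0 : 0 < x := lt_of_lt_of_le hR0 hx.1
      show min (x / lam) (Y / x) = Y * x⁻¹
      rw [← div_eq_mul_inv]
      apply min_eq_right
      rw [div_le_div_iff₀ hx0 hlam]
      nlinarith [hx.1]
    rw [this, intervalIntegral.integral_const_mul, integral_inv_of_pos hR0 hR0']
  have e5 : Real.log (R' / R) = (1 / 2) * Real.log (mu / lam) := by
    have : R' / R = √(mu / lam) := by
      rw [hR, hR', ← Real.sqrt_div (by positivity)]
      congr 1
      field_simp
    rw [this, Real.log_sqrt (by positivity)]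
    ring
  rw [e1, ← intervalIntegral.integral_add_adjacent_intervals i2 i3, e2, e3, e4, e5, hRsq, hRsq']
  field_simp
  ring

theorem ff_end {lam mu Y : ℝ} (hlam : 0 < lam) (hmu : lam ≤ mu) (hY : 0 < Y) :
    ff lam mu Y √(mu * Y) = 0 := by
  have hmu0 : 0 < mu := lt_of_lt_of_le hlam hmu
  set R' := √(mu * Y) with hR'
  have hR0' : 0 < R' := Real.sqrt_pos.2 (by positivity)
  have hRsq' : R' ^ 2 = mu * Y := Real.sq_sqrt (by positivity)
  have h1 : Y / R' = R' / mu := by
    rw [div_eq_div_iff hR0'.ne' hmu0.ne']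
    linarith
  unfold ff hf
  rw [h1, min_eq_right (div_le_div_of_nonneg_left hR0'.le hlam hmu), sub_self]

theorem ff_nonneg {lam mu Y x : ℝ} (hlam : 0 < lam) (hmu : lam ≤ mu) (hx : 0 < x)
    (hx2 : x ^ 2 ≤ mu * Y) : x / mu ≤ hf lam Y x := by
  have hmu0 : 0 < mu := lt_of_lt_of_le hlam hmu
  apply le_min
  · exact div_le_div_of_nonneg_left hx.le hlam hmu
  · rw [div_le_div_iff₀ hmu0 hx]
    nlinarith

end CopA

open CopA in
/-- Lattice points: for given `r.1 = β`, `r.2` runs over an interval `[λ β, min (μ β, Y/β)]`, `λ = e^(s/2)`, `μ = e^(t/2)` in a class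
modulo `M`: (length)/M + O(1) points, and `β ≤ √(Y/λ)`; the sum over `β = b mod M` of the length `f(β) = (min (μ β) (Y/β) - λ β)⁺`
(increasing up to `√(Y/μ)`, then decreasing) is `(1/M) ∫ f + O(max f)`, `∫ f = Y (t - s) / 4`, `max f ≤ √(μ Y)`. -/
theorem cop0_count (M : ℕ) (hM : 0 < M) (s t : ℝ) (hst : s ≤ t) : ∃ C : ℝ, ∀ b b' : ℤ, ∀ Y : ℝ, 1 ≤ Y →
    |((cop0 M b b' s t Y).ncard : ℝ) - (t - s) / (4 * M ^ 2) * Y| ≤ C * Real.sqrt Y := by
  classical
  set lam := Real.exp (s / 2) with hlamdef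
  set mu := Real.exp (t / 2) with hmudef
  have hlam : 0 < lam := Real.exp_pos _
  have hmu0 : 0 < mu := Real.exp_pos _
  have hmu : lam ≤ mu := Real.exp_le_exp.2 (by linarith)
  have hlam2 : Real.exp s = lam ^ 2 := by
    rw [hlamdef, ← Real.exp_nat_mul]; congr 1; push_cast; ring
  have hmu2 : Real.exp t = mu ^ 2 := by
    rw [hmudef, ← Real.exp_nat_mul]; congr 1; push_cast; ring
  have hMr : (0 : ℝ) < M := by exact_mod_cast hM
  have hM1 : (1 : ℝ) ≤ M := by exact_mod_cast hM
  set L := 1 / lam + 1 / mu with hL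
  have hL0 : 0 < L := by positivity
  refine ⟨√mu * (1 + 2 * L) + 2 * L, ?_⟩
  intro b b' Y hY
  have hY0 : 0 < Y := by linarith
  have hfl : ∀ x y, 0 ≤ x → x ≤ y → |ff lam mu Y y - ff lam mu Y x| ≤ L * (y - x) :=
    fun x y hx hxy => ff_lip hlam hmu0 hY0 hx hxy
  set R' := √(mu * Y) with hR'
  have hR0' : 0 < R' := Real.sqrt_pos.2 (by positivity)
  have hRsq' : R' ^ 2 = mu * Y := Real.sq_sqrt (by positivity)
  set B := ⌊R'⌋₊ with hB
  have hB1 : (B : ℝ) ≤ R' := Nat.floor_le hR0'.le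
  have hB2 : R' < B + 1 := Nat.lt_floor_add_one _
  -- the set as a finset
  set T : ℕ → Finset ℤ := fun k => (Finset.Ioc ⌊((k : ℝ) + 1) / mu⌋
    ⌊hf lam Y ((k : ℝ) + 1)⌋).filter (fun r : ℤ => (M : ℤ) ∣ r - b) with hT
  set S : Finset ℕ := (Finset.range B).filter (fun k => (M : ℤ) ∣ ((k + 1 : ℕ) : ℤ) - b') with hS
  have hset : cop0 M b b' s t Y =
      ↑((S.sigma T).image (fun p : (_ : ℕ) × ℤ => ((p.2, ((p.1 + 1 : ℕ) : ℤ)) : ℤ × ℤ))) := by
    ext ⟨r1, r2⟩
    simp only [cop0, Set.mem_ofPred_eq, Finset.coe_image, Set.mem_image, Finset.mem_coe,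
      Finset.mem_sigma, Prod.mk.injEq]
    rw [hlam2, hmu2]
    constructor
    · rintro ⟨h1, h2, h3, h4, h5, h6, h7⟩
      obtain ⟨k, hk⟩ : ∃ k : ℕ, r2 = ((k + 1 : ℕ) : ℤ) :=
        ⟨(r2 - 1).toNat, by push_cast; omega⟩
      have hr1 : (0 : ℝ) < r1 := by exact_mod_cast h1
      have hr2 : (0 : ℝ) < r2 := by exact_mod_cast h2
      have hk' : (r2 : ℝ) = (k : ℝ) + 1 := by rw [hk]; push_cast; ring
      push_cast at h5
      have h6' : lam * r1 ≤ r2 := by
        rw [← mul_pow] at h6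
        exact (pow_le_pow_iff_left₀ (by positivity) hr2.le two_ne_zero).1 h6
      have h7' : (r2 : ℝ) < mu * r1 := by
        rw [← mul_pow] at h7
        exact (pow_lt_pow_iff_left₀ hr2.le (by positivity) two_ne_zero).1 h7
      refine ⟨⟨k, r1⟩, ⟨?_, ?_⟩, rfl, hk.symm⟩
      · rw [hS, Finset.mem_filter, Finset.mem_range]
        refine ⟨?_, by rw [← hk]; exact h4⟩
        have h8 : (r2 : ℝ) ≤ R' := by
          apply Real.le_sqrt_of_sq_le
          calc (r2 : ℝ) ^ 2 = r2 * r2 := sq _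
            _ ≤ (mu * r1) * r2 := mul_le_mul_of_nonneg_right h7'.le hr2.le
            _ = mu * (r1 * r2) := mul_assoc _ _ _
            _ ≤ mu * Y := mul_le_mul_of_nonneg_left h5 hmu0.le
        have h9 : k + 1 ≤ B := by
          apply Nat.le_floor
          rw [hk'] at h8
          push_cast
          exact h8
        exact h9
      · rw [hT]
        simp only [Finset.mem_filter, Finset.mem_Ioc]
        refine ⟨⟨?_, ?_⟩, h3⟩
        · rw [Int.floor_lt, ← hk', div_lt_iff₀ hmu0]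
          linarith
        · rw [Int.le_floor, ← hk']
          apply le_min
          · rw [le_div_iff₀ hlam]; linarith
          · rw [le_div_iff₀ hr2]; exact h5
    · rintro ⟨⟨k, r⟩, ⟨hkS, hrT⟩, rfl, rfl⟩
      rw [hS, Finset.mem_filter, Finset.mem_range] at hkS
      rw [hT] at hrT
      simp only [Finset.mem_filter, Finset.mem_Ioc] at hrT
      obtain ⟨⟨h1, h2⟩, h3⟩ := hrT
      rw [Int.floor_lt] at h1
      rw [Int.le_floor] at h2
      have hkpos : (0 : ℝ) < (k : ℝ) + 1 := by positivity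
      have hk' : ((((k + 1 : ℕ) : ℤ) : ℝ)) = (k : ℝ) + 1 := by push_cast; ring
      have hr : (0 : ℝ) < r := lt_of_le_of_lt (by positivity) h1
      rw [div_lt_iff₀ hmu0] at h1
      have h4 := h2.trans (min_le_left _ _)
      have h5 := h2.trans (min_le_right _ _)
      rw [le_div_iff₀ hlam] at h4
      rw [le_div_iff₀ hkpos] at h5
      refine ⟨by exact_mod_cast hr, by positivity, h3, hkS.2, ?_, ?_, ?_⟩
      · push_cast; exact h5
      · rw [hk', ← mul_pow]
        exact pow_le_pow_left₀ (by positivity) (by linarith) 2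
      · rw [hk', ← mul_pow]
        exact pow_lt_pow_left₀ (by linarith) hkpos.le two_ne_zero
  have hinj : Function.Injective
      (fun p : (_ : ℕ) × ℤ => ((p.2, ((p.1 + 1 : ℕ) : ℤ)) : ℤ × ℤ)) := by
    rintro ⟨k, r⟩ ⟨k', r'⟩ h
    simp only [Prod.mk.injEq] at h
    obtain ⟨h1, h2⟩ := h
    have h3 : k = k' := by
      have : ((k + 1 : ℕ) : ℤ) = ((k' + 1 : ℕ) : ℤ) := h2
      omega
    subst h3
    subst h1
    rfl
  have hcard : ((cop0 M b b' s t Y).ncard : ℝ) = ∑ k ∈ S, ((T k).card : ℝ) := by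
    rw [hset, Set.ncard_coe_finset, Finset.card_image_of_injective _ hinj, Finset.card_sigma]
    push_cast
    rfl
  -- first step: lengths
  have hlen : ∀ k ∈ S, |((T k).card : ℝ) - ff lam mu Y ((k : ℝ) + 1) / M| ≤ 1 := by
    intro k hk
    rw [hS, Finset.mem_filter, Finset.mem_range] at hk
    have hkB : (k : ℝ) + 1 ≤ B := by exact_mod_cast hk.1
    have h2 : ((k : ℝ) + 1) ^ 2 ≤ mu * Y := by
      rw [← hRsq']
      exact pow_le_pow_left₀ (by positivity) (hkB.trans hB1) 2
    exact card_class M hM b (ff_nonneg hlam hmu (by positivity) h2)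
  have step1 : |((cop0 M b b' s t Y).ncard : ℝ) -
      ∑ k ∈ S, ff lam mu Y ((k : ℝ) + 1) / M| ≤ B := by
    rw [hcard, ← Finset.sum_sub_distrib]
    calc _ ≤ ∑ k ∈ S, |((T k).card : ℝ) - ff lam mu Y ((k : ℝ) + 1) / M| :=
          Finset.abs_sum_le_sum_abs _ _
      _ ≤ ∑ k ∈ S, 1 := Finset.sum_le_sum hlen
      _ = (S.card : ℝ) := by rw [Finset.sum_const, nsmul_eq_mul, mul_one]
      _ ≤ B := by
          have := Finset.card_filter_le (Finset.range B)
            (fun k => (M : ℤ) ∣ ((k + 1 : ℕ) : ℤ) - b')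
          rw [Finset.card_range] at this
          exact_mod_cast this
  -- second step: the class
  set c : ℕ → ℝ := fun k => if (M : ℤ) ∣ ((k + 1 : ℕ) : ℤ) - b' then 1 else 0 with hc
  have hcnt : ∀ j : ℕ, |∑ k ∈ Finset.range j, c k - j / M| ≤ 1 := by
    intro j
    have h1 := card_class M hM b' (u := 0) (v := j) (Nat.cast_nonneg j)
    rw [sub_zero] at h1
    have h2 : ∑ k ∈ Finset.range j, c k =
        ((((Finset.Ioc ⌊(0 : ℝ)⌋ ⌊(j : ℝ)⌋).filter
          (fun r : ℤ => (M : ℤ) ∣ r - b')).card : ℕ) : ℝ) := by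
      rw [Finset.sum_ite, Finset.sum_const_zero, add_zero, Finset.sum_const, nsmul_eq_mul,
        mul_one]
      congr 1
      rw [Int.floor_zero, Int.floor_natCast]
      apply Finset.card_bij (fun k _ => ((k + 1 : ℕ) : ℤ))
      · intro k hk
        rw [Finset.mem_filter, Finset.mem_range] at hk
        rw [Finset.mem_filter, Finset.mem_Ioc]
        exact ⟨⟨by positivity, by exact_mod_cast hk.1⟩, hk.2⟩
      · intro k _ k' _ h
        have : ((k + 1 : ℕ) : ℤ) = ((k' + 1 : ℕ) : ℤ) := h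
        omega
      · intro r hr
        rw [Finset.mem_filter, Finset.mem_Ioc] at hr
        refine ⟨(r - 1).toNat, ?_, by omega⟩
        rw [Finset.mem_filter, Finset.mem_range]
        refine ⟨by omega, ?_⟩
        have : (((r - 1).toNat + 1 : ℕ) : ℤ) = r := by omega
        rw [this]
        exact hr.2
    rw [h2]
    exact h1
  have hSsum : ∑ k ∈ S, ff lam mu Y ((k : ℝ) + 1) / M =
      (1 / M) * ∑ k ∈ Finset.range B, c k * ff lam mu Y ((k : ℝ) + 1) := by
    rw [hS, Finset.sum_filter, Finset.mul_sum]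
    apply Finset.sum_congr rfl
    intro k _
    simp only [hc]
    split_ifs <;> ring
  have step2 := sum_class hfl c M hcnt B
  have hfB : |ff lam mu Y B| ≤ L := by
    have h1 := hfl B R' (Nat.cast_nonneg B) hB1
    rw [ff_end hlam hmu hY0, zero_sub, abs_neg] at h1
    calc |ff lam mu Y B| ≤ L * (R' - B) := h1
      _ ≤ L * 1 := mul_le_mul_of_nonneg_left (by linarith) hL0.le
      _ = L := mul_one L
  -- third step: the integral
  have step3 := sum_int hL0.le hfl B
  have hint : |(∫ x in (0 : ℝ)..B, ff lam mu Y x) - Y / 2 * Real.log (mu / lam)| ≤ L := by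
    rw [← int_ff hlam hmu hY0, ← hR']
    have h1 := intervalIntegral.integral_add_adjacent_intervals
      (lip_int hL0.le hfl le_rfl (Nat.cast_nonneg B))
      (lip_int hL0.le hfl (Nat.cast_nonneg B) hR0'.le)
    rw [← h1]
    have h2 : ‖∫ x in (B : ℝ)..R', ff lam mu Y x‖ ≤ L * |R' - B| := by
      apply intervalIntegral.norm_integral_le_of_norm_le_const
      intro x hx
      rw [Set.uIoc_of_le hB1] at hx
      have h3 := hfl x R' (by linarith [hx.1, (Nat.cast_nonneg B : (0 : ℝ) ≤ B)]) hx.2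
      rw [ff_end hlam hmu hY0, zero_sub, abs_neg] at h3
      rw [Real.norm_eq_abs]
      refine h3.trans ?_
      calc L * (R' - x) ≤ L * 1 :=
            mul_le_mul_of_nonneg_left (by linarith only [hx.1, hB2]) hL0.le
        _ = L := mul_one L
    rw [Real.norm_eq_abs] at h2
    have h4 : |R' - B| ≤ 1 := by
      rw [abs_of_nonneg (by linarith)]
      linarith
    have h5 : (∫ x in (0 : ℝ)..B, ff lam mu Y x) -
        ((∫ x in (0 : ℝ)..B, ff lam mu Y x) + ∫ x in (B : ℝ)..R', ff lam mu Y x) =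
        -(∫ x in (B : ℝ)..R', ff lam mu Y x) := by ring
    rw [h5, abs_neg]
    calc _ ≤ L * |R' - B| := h2
      _ ≤ L * 1 := mul_le_mul_of_nonneg_left h4 hL0.le
      _ = L := mul_one L
  -- assembly
  have hlog : Real.log (mu / lam) = (t - s) / 2 := by
    rw [Real.log_div hmu0.ne' hlam.ne', hmudef, hlamdef, Real.log_exp, Real.log_exp]
    ring
  rw [hlog] at hint
  set Sg := ∑ k ∈ Finset.range B, ff lam mu Y ((k : ℝ) + 1) with hSg
  set Sc := ∑ k ∈ Finset.range B, c k * ff lam mu Y ((k : ℝ) + 1) with hSc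
  set I := ∫ x in (0 : ℝ)..B, ff lam mu Y x with hI
  rw [hSsum] at step1
  have hBY : (B : ℝ) ≤ √mu * √Y := by
    rw [← Real.sqrt_mul hmu0.le]
    exact hB1
  have hY1 : (1 : ℝ) ≤ √Y := Real.one_le_sqrt.2 hY
  have hinvM : 1 / (M : ℝ) ≤ 1 := by
    rw [div_le_one hMr]
    exact hM1
  have hinvM0 : 0 ≤ 1 / (M : ℝ) := by positivity
  have a2 : |(1 / (M : ℝ)) * (Sc - (1 / M) * Sg)| ≤ L + L * B := by
    rw [abs_mul, abs_of_nonneg hinvM0]
    calc 1 / (M : ℝ) * |Sc - 1 / M * Sg| ≤ 1 * |Sc - 1 / M * Sg| :=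
          mul_le_mul_of_nonneg_right hinvM (abs_nonneg _)
      _ ≤ L + L * B := by
          rw [one_mul]
          linarith
  have a3 : |(1 / (M : ℝ)) * ((1 / M) * (Sg - Y / 2 * ((t - s) / 2)))| ≤ L * B + L := by
    have h1 : |Sg - Y / 2 * ((t - s) / 2)| ≤ L * B + L := by
      have e : Sg - Y / 2 * ((t - s) / 2) = (Sg - I) + (I - Y / 2 * ((t - s) / 2)) := by ring
      rw [e]
      exact (abs_add_le _ _).trans (add_le_add step3 hint)
    rw [abs_mul, abs_mul, abs_of_nonneg hinvM0]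
    have h2 : 1 / (M : ℝ) * |Sg - Y / 2 * ((t - s) / 2)| ≤ |Sg - Y / 2 * ((t - s) / 2)| := by
      calc _ ≤ 1 * |Sg - Y / 2 * ((t - s) / 2)| :=
            mul_le_mul_of_nonneg_right hinvM (abs_nonneg _)
        _ = _ := one_mul _
    calc _ ≤ 1 * (1 / (M : ℝ) * |Sg - Y / 2 * ((t - s) / 2)|) :=
          mul_le_mul_of_nonneg_right hinvM (by positivity)
      _ ≤ L * B + L := by rw [one_mul]; linarith
  have e : ((cop0 M b b' s t Y).ncard : ℝ) - (t - s) / (4 * M ^ 2) * Y =
      (((cop0 M b b' s t Y).ncard : ℝ) - 1 / M * Sc) + (1 / (M : ℝ)) * (Sc - (1 / M) * Sg) +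
        (1 / (M : ℝ)) * ((1 / M) * (Sg - Y / 2 * ((t - s) / 2))) := by
    field_simp
    ring
  rw [e]
  have hfinal := (abs_add_three _ _ _ : |(((cop0 M b b' s t Y).ncard : ℝ) - 1 / M * Sc) +
    (1 / (M : ℝ)) * (Sc - (1 / M) * Sg) +
        (1 / (M : ℝ)) * ((1 / M) * (Sg - Y / 2 * ((t - s) / 2)))| ≤ _)
  refine hfinal.trans ?_
  have h9 : L * B ≤ L * (√mu * √Y) := mul_le_mul_of_nonneg_left hBY hL0.le
  have h10 : L ≤ L * √Y := le_mul_of_one_le_right hL0.le hY1
  have e2 : (√mu * (1 + 2 * L) + 2 * L) * √Y =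
      √mu * √Y + 2 * (L * (√mu * √Y)) + 2 * (L * √Y) := by ring
  rw [e2]
  linarith only [step1, a2, a3, hBY, h9, h10]

end Pool.Agent.OmAll
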