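import Pool.Agent.Lib_MP_f1a94e_aq.CopAs

/-!
# Piece ARC: edges in an arc
-/

set_option autoImplicit false

namespace Pool.Agent.OmAll

open Finset Pool.Agent.GaussMR Filter

private lemma arc_h1 {D x : ℝ} (h6 : 0 < D) (h3 : D ≤ x) : D ^ 2 + 1 ≤ x ^ 2 + 1 := by
  have := mul_self_le_mul_self h6.le h3
  linarith only [this]

private lemma arc_h3 {a b c : ℝ} (h1 : 1 ≤ a) (h2 : 1 ≤ b) (h : a * b ≤ c) : a ≤ c := by
  have := mul_le_mul_of_nonneg_left h2 (zero_le_one.trans h1)
  linarith only [this, h]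

private lemma arc_h4 {α β : ℤ} (hb : 0 < β) (h : 2 * β ≤ α) : β ≤ α ^ 2 := by
  have h1 : 1 ≤ α := by omega
  have h2 := mul_le_mul_of_nonneg_left h1 (zero_le_one.trans h1)
  linarith only [h, h2, hb, h1]

private lemma arc_h5 {β : ℤ} (h : 0 < β) : β ≤ β ^ 2 := by
  have h1 : 1 ≤ β := by omega
  have h2 := mul_le_mul_of_nonneg_left h1 (zero_le_one.trans h1)
  linarith only [h2]

private lemma arc_h6 {a b c : ℤ} (h1 : 0 < a) (h2 : 0 < b) (h : a * b ≤ c) : a ≤ c := by
  have h3 : 1 ≤ b := by omega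
  have := mul_le_mul_of_nonneg_left h3 h1.le
  linarith only [this, h]

theorem NE_finite (M : ℕ) (γ : G × G) (s t x : ℝ) : (NE M γ s t x).Finite := by
  apply ((finite_ball (x ^ 2 + 1)).prod (finite_ball (x ^ 2 + 1))).subset
  rintro ⟨V, V'⟩ ⟨h1, h2, h3, -⟩
  simp only at h1 h2 h3
  have h4 := dot_sq_add_det_sq V V'
  rw [h1] at h4
  have h5 : ((nm V : ℝ)) * (nm V' : ℝ) = ((dot V V' : ℤ) : ℝ) ^ 2 + 1 := by
    have : ((dot V V' : ℤ) : ℝ) ^ 2 + 1 ^ 2 = ((nm V : ℤ) : ℝ) * ((nm V' : ℤ) : ℝ) := by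
      exact_mod_cast h4
    push_cast at this
    linarith
  have h6 : (0 : ℝ) < ((dot V V' : ℤ) : ℝ) := by exact_mod_cast h2
  have h7 : (nm V : ℝ) * (nm V' : ℝ) ≤ x ^ 2 + 1 := by
    rw [h5]; exact arc_h1 h6 h3
  have h8 : 0 < nm V ∧ 0 < nm V' := by
    constructor
    · by_contra h
      have : nm V = 0 := by omega
      rw [this] at h5
      simp at h5
      linarith only [h5, sq_nonneg ((dot V V' : ℤ) : ℝ)]
    · by_contra h
      have : nm V' = 0 := by omega
      rw [this] at h5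
      simp at h5
      linarith only [h5, sq_nonneg ((dot V V' : ℤ) : ℝ)]
  have h9 : (1 : ℝ) ≤ nm V := by exact_mod_cast h8.1
  have h10 : (1 : ℝ) ≤ nm V' := by exact_mod_cast h8.2
  constructor
  · show (nm V : ℝ) ≤ x ^ 2 + 1
    exact arc_h3 h9 h10 h7
  · show (nm V' : ℝ) ≤ x ^ 2 + 1
    exact arc_h3 h10 h9 (by rw [mul_comm]; exact h7)

/-! ### arithmetic of the quadruples -/

/-- coordinates of an edge with respect to a frame -/
private def AQ (M S : ℕ) (η a b a' b' : ℤ) (q : (ℤ × ℤ) × (ℤ × ℤ)) : Prop :=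
  0 < q.1.2 ∧ (S : ℤ) * q.1.2 ≤ q.1.1 ∧ q.1.1 < ((S : ℤ) + M) * q.1.2 ∧
    q.1.1 * q.2.2 - q.1.2 * q.2.1 = η ∧ (M : ℤ) ∣ q.1.1 - a ∧ (M : ℤ) ∣ q.1.2 - b ∧
    (M : ℤ) ∣ q.2.1 - a' ∧ (M : ℤ) ∣ q.2.2 - b'

private theorem AQ_coprime {M S : ℕ} {η a b a' b' : ℤ} (hη : η = 1 ∨ η = -1) {q : (ℤ × ℤ) × (ℤ × ℤ)}
    (h : AQ M S η a b a' b' q) : IsCoprime q.1.2 q.2.2 := by
  obtain ⟨-, -, -, h, -⟩ := h
  refine ⟨-η * q.2.1, η * q.1.1, ?_⟩
  have : η * η = 1 := by rcases hη with h | h <;> rw [h] <;> norm_num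
  calc -η * q.2.1 * q.1.2 + η * q.1.1 * q.2.2 = η * (q.1.1 * q.2.2 - q.1.2 * q.2.1) := by ring
    _ = 1 := by rw [h, this]

private theorem AQ_inj {M S : ℕ} {η a b a' b' : ℤ} (hη : η = 1 ∨ η = -1) {q r : (ℤ × ℤ) × (ℤ × ℤ)}
    (hq : AQ M S η a b a' b' q) (hr : AQ M S η a b a' b' r) (h1 : q.1.2 = r.1.2) (h2 : q.2.2 = r.2.2) :
    q = r := by
  have hc := AQ_coprime hη hq
  obtain ⟨⟨α, β⟩, ⟨α', β'⟩⟩ := q
  obtain ⟨⟨x, y⟩, ⟨x', y'⟩⟩ := r
  obtain ⟨q1, q2, q3, q4, q5, q6, q7, q8⟩ := hq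
  obtain ⟨r1, r2, r3, r4, r5, r6, r7, r8⟩ := hr
  simp only at *
  subst h1 h2
  -- (α - x) β' = β (α' - x')
  have h3 : (α - x) * β' = β * (α' - x') := by linarith
  have h4 : β ∣ α - x := by
    apply hc.dvd_of_dvd_mul_right
    exact ⟨α' - x', h3⟩
  obtain ⟨l, hl⟩ := h4
  have h5 : α' - x' = l * β' := by
    rw [hl] at h3
    have : β * (l * β') = β * (α' - x') := by linarith
    exact (mul_left_cancel₀ q1.ne' this).symm
  have h6 : (M : ℤ) ∣ l * β := by
    have := dvd_sub q5 r5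
    rw [show α - a - (x - a) = l * β by linarith] at this
    exact this
  have h7 : (M : ℤ) ∣ l * β' := by
    have := dvd_sub q7 r7
    rw [show α' - a' - (x' - a') = l * β' by linarith] at this
    exact this
  have h8 : (M : ℤ) ∣ l := by
    obtain ⟨p, r, hpr⟩ := hc
    have : l = p * (l * β) + r * (l * β') := by
      calc l = l * (p * β + r * β') := by rw [hpr, mul_one]
        _ = _ := by ring
    rw [this]
    exact dvd_add (h6.mul_left _) (h7.mul_left _)
  have h9 : |l| < M := by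
    rw [abs_lt]
    have e1 : β * l < β * M := by linarith only [hl, q3, r2]
    have e2 : β * (-(M : ℤ)) < β * l := by linarith only [hl, q2, r3]
    exact ⟨lt_of_mul_lt_mul_left e2 q1.le, lt_of_mul_lt_mul_left e1 q1.le⟩
  have h10 : l = 0 := Int.eq_zero_of_abs_lt_dvd h8 h9
  rw [h10] at hl h5
  have e1 : α = x := by linarith
  have e2 : α' = x' := by linarith
  rw [e1, e2]

private theorem AQ_exists {M S : ℕ} (hM : 0 < M) {η a b a' b' : ℤ} {β β' : ℤ}
    (hdet : (M : ℤ) ∣ a * b' - b * a' - η) (hβ : 0 < β) (hc : IsCoprime β β')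
    (hb : (M : ℤ) ∣ β - b) (hb' : (M : ℤ) ∣ β' - b') :
    ∃ α α' : ℤ, AQ M S η a b a' b' ((α, β), (α', β')) := by
  obtain ⟨p, q, hpq⟩ := hc
  -- particular solution
  obtain ⟨x, hx⟩ : ∃ x : ℤ, x = η * q := ⟨_, rfl⟩
  obtain ⟨x', hx'⟩ : ∃ x' : ℤ, x' = -(η * p) := ⟨_, rfl⟩
  have h0 : x * β' - β * x' = η := by
    rw [hx, hx']
    calc η * q * β' - β * -(η * p) = η * (p * β + q * β') := by ring
      _ = η := by rw [hpq, mul_one]
  obtain ⟨l, hl⟩ : ∃ l : ℤ, l = p * (a - x) + q * (a' - x') := ⟨_, rfl⟩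
  have hkey : (M : ℤ) ∣ β * (a' - x') - β' * (a - x) := by
    have e : β * (a' - x') - β' * (a - x) = -(a * b' - b * a' - η) + (β - b) * a' - (β' - b') * a := by
      linear_combination h0
    rw [e]
    exact dvd_sub (dvd_add ((dvd_neg).2 hdet) (hb.mul_right _)) (hb'.mul_right _)
  have h1 : (M : ℤ) ∣ (x + l * β) - a := by
    have e : (x + l * β) - a = q * (β * (a' - x') - β' * (a - x)) := by
      rw [hl]
      linear_combination (a - x) * hpq
    rw [e]
    exact hkey.mul_left _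
  have h2 : (M : ℤ) ∣ (x' + l * β') - a' := by
    have e : (x' + l * β') - a' = -p * (β * (a' - x') - β' * (a - x)) := by
      rw [hl]
      linear_combination (a' - x') * hpq
    rw [e]
    exact hkey.mul_left _
  -- choose the residue
  have hMβ : 0 < (M : ℤ) * β := mul_pos (by exact_mod_cast hM) hβ
  obtain ⟨k, hk⟩ : ∃ k : ℤ, k = (x + l * β - S * β) / ((M : ℤ) * β) := ⟨_, rfl⟩
  have h3 := Int.emod_nonneg (x + l * β - S * β) hMβ.ne'
  have h4 := Int.emod_lt_of_pos (x + l * β - S * β) hMβ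
  have h5 := Int.mul_ediv_add_emod (x + l * β - S * β) ((M : ℤ) * β)
  rw [← hk] at h5
  refine ⟨x + l * β - k * (M * β), x' + l * β' - k * (M * β'), hβ, ?_, ?_, ?_, ?_, hb, ?_, hb'⟩
  · simp only; linarith
  · simp only; linarith
  · simp only; linear_combination h0
  · simp only
    rw [show x + l * β - k * (M * β) - a = (x + l * β - a) - M * (k * β) by ring]
    exact dvd_sub h1 (dvd_mul_right _ _)
  · simp only
    rw [show x' + l * β' - k * (M * β') - a' = (x' + l * β' - a') - M * (k * β') by ring]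
    exact dvd_sub h2 (dvd_mul_right _ _)

/-! ### frames -/

private theorem arc_re (α β : ℤ) (u v : G) : ((α : G) * u + (β : G) * v).re = α * u.re + β * v.re := by
  simp

private theorem arc_im (α β : ℤ) (u v : G) : ((α : G) * u + (β : G) * v).im = α * u.im + β * v.im := by
  simp

private theorem arc_det (α β α' β' : ℤ) (u v : G) :
    det ((α : G) * u + (β : G) * v) ((α' : G) * u + (β' : G) * v) = (α * β' - β * α') * det u v := by
  unfold det
  rw [arc_re, arc_im, arc_re, arc_im]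
  ring

private theorem arc_det_u (α β : ℤ) (u v : G) :
    det u ((α : G) * u + (β : G) * v) = β * det u v := by
  unfold det
  rw [arc_re, arc_im]
  ring

private theorem arc_det_v (α β : ℤ) (u v : G) :
    det ((α : G) * u + (β : G) * v) v = α * det u v := by
  unfold det
  rw [arc_re, arc_im]
  ring

private theorem arc_sq {u v : G} (h : Fr u v) : det u v * det u v = 1 := by
  rw [← sq, ← sq_abs, h.1]; norm_num

private theorem arc_eta {u v : G} (h : Fr u v) : det u v = 1 ∨ det u v = -1 := by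
  rcases abs_cases (det u v) with ⟨h1, _⟩ | ⟨h1, _⟩
  · left; rw [← h1, h.1]
  · right; have := h.1; omega

private theorem arc_coord {u v : G} (h : Fr u v) (z : G) :
    z = ((det u v * det z v : ℤ) : G) * u + ((det u v * det u z : ℤ) : G) * v := by
  have h2 := arc_sq h
  apply Zsqrtd.ext
  · rw [arc_re]
    unfold det at *
    linear_combination (-z.re) * h2
  · rw [arc_im]
    unfold det at *
    linear_combination (-z.im) * h2

private theorem arc_cg {M : ℕ} {u v : G} (h : Fr u v) (α β a b : ℤ) :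
    cg M ((α : G) * u + (β : G) * v) ((a : G) * u + (b : G) * v) ↔ (M : ℤ) ∣ α - a ∧ (M : ℤ) ∣ β - b := by
  unfold cg
  rw [arc_re, arc_im, arc_re, arc_im]
  constructor
  · rintro ⟨h1, h2⟩
    have h3 := arc_sq h
    constructor
    · have e : α - a = det u v * ((α * u.re + β * v.re - (a * u.re + b * v.re)) * v.im
          - (α * u.im + β * v.im - (a * u.im + b * v.im)) * v.re) := by
        unfold det at *
        linear_combination (-(α - a)) * h3
      rw [e]
      exact (dvd_sub (h1.mul_right _) (h2.mul_right _)).mul_left _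
    · have e : β - b = det u v * ((α * u.im + β * v.im - (a * u.im + b * v.im)) * u.re
          - (α * u.re + β * v.re - (a * u.re + b * v.re)) * u.im) := by
        unfold det at *
        linear_combination (-(β - b)) * h3
      rw [e]
      exact (dvd_sub (h2.mul_right _) (h1.mul_right _)).mul_left _
  · rintro ⟨h1, h2⟩
    constructor
    · rw [show α * u.re + β * v.re - (a * u.re + b * v.re) = (α - a) * u.re + (β - b) * v.re by ring]
      exact dvd_add (h1.mul_right _) (h2.mul_right _)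
    · rw [show α * u.im + β * v.im - (a * u.im + b * v.im) = (α - a) * u.im + (β - b) * v.im by ring]
      exact dvd_add (h1.mul_right _) (h2.mul_right _)


/-! ### sizes -/

private theorem arc_nm (α β : ℤ) (u v : G) : (nm ((α : G) * u + (β : G) * v) : ℤ) =
    α ^ 2 * nm u + 2 * α * β * dot u v + β ^ 2 * nm v := by
  rw [nm_eq, nm_eq, nm_eq, arc_re, arc_im]
  unfold dot
  ring

private theorem arc_dot_u (α β : ℤ) (u v : G) : dot ((α : G) * u + (β : G) * v) u =
    α * nm u + β * dot u v := by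
  rw [nm_eq]
  unfold dot
  rw [arc_re, arc_im]
  ring

private theorem arc_dot_mul {α β α' β' η : ℤ} (u v : G) (h : α * β' - β * α' = η) :
    dot ((α : G) * u + (β : G) * v) ((α' : G) * u + (β' : G) * v) * β =
      β' * nm ((α : G) * u + (β : G) * v) - η * dot ((α : G) * u + (β : G) * v) u := by
  rw [nm_eq]
  unfold dot
  rw [arc_re, arc_im, arc_re, arc_im]
  rw [← h]
  ring

private theorem arc_nm_mul {α β α' β' η : ℤ} (hη : η = 1 ∨ η = -1) (u v : G) (h : α * β' - β * α' = η) :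
    β ^ 2 * (nm ((α' : G) * u + (β' : G) * v) : ℤ) =
      β' ^ 2 * nm ((α : G) * u + (β : G) * v) - 2 * η * β' * dot ((α : G) * u + (β : G) * v) u + nm u := by
  have h1 : η * η = 1 := by rcases hη with h | h <;> rw [h] <;> norm_num
  rw [nm_eq, nm_eq, nm_eq]
  unfold dot
  rw [arc_re, arc_im, arc_re, arc_im]
  have e1 : β * α' = α * β' - η := by linarith
  have e2 : β * (α' * u.re + β' * v.re) = β' * (α * u.re + β * v.re) - η * u.re := by
    linear_combination u.re * e1
  have e3 : β * (α' * u.im + β' * v.im) = β' * (α * u.im + β * v.im) - η * u.im := by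
    linear_combination u.im * e1
  calc β ^ 2 * ((α' * u.re + β' * v.re) ^ 2 + (α' * u.im + β' * v.im) ^ 2)
      = (β * (α' * u.re + β' * v.re)) ^ 2 + (β * (α' * u.im + β' * v.im)) ^ 2 := by ring
    _ = (β' * (α * u.re + β * v.re) - η * u.re) ^ 2 + (β' * (α * u.im + β * v.im) - η * u.im) ^ 2 := by
        rw [e2, e3]
    _ = _ := by linear_combination (u.re ^ 2 + u.im ^ 2) * h1

private theorem arc_dot_nonneg {u v : G} (h : Fr u v) : 0 ≤ dot u v := by
  obtain ⟨-, h1, h2, h3, h4⟩ := h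
  unfold dot
  positivity

private theorem arc_nm_pos {u v : G} (h : Fr u v) : (1 : ℤ) ≤ nm u := by
  have h1 : u ≠ 0 := by
    rintro rfl
    have := h.1
    unfold det at this
    simp at this
  have := nm_pos h1
  omega

private theorem arc_nm_pos' {u v : G} (h : Fr u v) : (1 : ℤ) ≤ nm v := by
  have h1 : v ≠ 0 := by
    rintro rfl
    have := h.1
    unfold det at this
    simp at this
  have := nm_pos h1
  omega

/-- the basic size estimates -/
private theorem arc_size {M S : ℕ} {η a b a' b' : ℤ} (hη : η = 1 ∨ η = -1) {u v : G} (h : Fr u v) (hS : 2 ≤ S)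
    {α β α' β' : ℤ} (hq : AQ M S η a b a' b' ((α, β), (α', β'))) :
    (nm ((α : G) * u + (β : G) * v) : ℤ) > 0 ∧
    (0 < dot ((α : G) * u + (β : G) * v) ((α' : G) * u + (β' : G) * v) → 0 ≤ β') ∧
    (0 < β' → 0 < dot ((α : G) * u + (β : G) * v) ((α' : G) * u + (β' : G) * v)) ∧
    (0 < β' → β * β' * nm (((S : ℤ) : G) * u + v) - (((S : ℤ) + M) * nm u + dot u v) ≤
      dot ((α : G) * u + (β : G) * v) ((α' : G) * u + (β' : G) * v)) ∧
    (0 < β' → dot ((α : G) * u + (β : G) * v) ((α' : G) * u + (β' : G) * v) ≤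
      β * β' * nm ((((S : ℤ) + M : ℤ) : G) * u + v) + (((S : ℤ) + M) * nm u + dot u v)) ∧
    (0 < β' → |β ^ 2 * (nm ((α' : G) * u + (β' : G) * v) : ℤ) - β' ^ 2 * nm ((α : G) * u + (β : G) * v)| *
      (β * β') ≤ 3 * (β' ^ 2 * nm ((α : G) * u + (β : G) * v))) := by
  obtain ⟨q1, q2, q3, q4, -⟩ := hq
  simp only at q1 q2 q3 q4
  have hd0 := arc_dot_nonneg h
  have hu := arc_nm_pos h
  have hv := arc_nm_pos' h
  have e1 := arc_nm α β u v
  have e2 := arc_dot_u α β u v
  have e3 := arc_dot_mul u v q4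
  have e4 := arc_nm_mul hη u v q4
  have e5 : (nm (((S : ℤ) : G) * u + v) : ℤ) = (S : ℤ) ^ 2 * nm u + 2 * S * dot u v + nm v := by
    have := arc_nm (S : ℤ) 1 u v
    rw [Int.cast_one, one_mul] at this
    rw [this]; ring
  have e6 : (nm ((((S : ℤ) + M : ℤ) : G) * u + v) : ℤ) =
      ((S : ℤ) + M) ^ 2 * nm u + 2 * ((S : ℤ) + M) * dot u v + nm v := by
    have := arc_nm ((S : ℤ) + M) 1 u v
    rw [Int.cast_one, one_mul] at this
    rw [this]; ring
  rw [e5, e6]
  generalize hD : dot ((α : G) * u + (β : G) * v) ((α' : G) * u + (β' : G) * v) = D at *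
  generalize hnV : (nm ((α : G) * u + (β : G) * v) : ℤ) = nV at *
  generalize hnV' : (nm ((α' : G) * u + (β' : G) * v) : ℤ) = nV' at *
  generalize hd : dot ((α : G) * u + (β : G) * v) u = d at *
  generalize (nm u : ℤ) = U at *
  generalize (nm v : ℤ) = W at *
  generalize dot u v = K at *
  have hS' : (2 : ℤ) ≤ S := by exact_mod_cast hS
  generalize (S : ℤ) = T at *
  have hM0 : (0 : ℤ) ≤ M := by positivity
  generalize (M : ℤ) = N at *
  have hα : 2 * β ≤ α := le_trans (mul_le_mul_of_nonneg_right hS' q1.le) q2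
  have hα0 : 0 < α := by linarith only [hα, q1]
  have hU0 : 0 ≤ U := by linarith only [hu]
  have p1 : 0 < α ^ 2 * U := mul_pos (pow_pos hα0 2) (by linarith only [hu])
  have p2 : 0 ≤ α * β * K := mul_nonneg (mul_nonneg hα0.le q1.le) hd0
  have p3 : 0 ≤ β ^ 2 * W := mul_nonneg (sq_nonneg _) (by linarith only [hv])
  have hd1 : 0 ≤ d := by
    rw [e2]; exact add_nonneg (mul_nonneg hα0.le hU0) (mul_nonneg q1.le hd0)
  have hnV0 : 0 < nV := by rw [e1]; linarith only [p1, p2, p3]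
  have hαd : α * d ≤ nV := by
    rw [e1, e2]
    linarith only [p2, p3]
  have hβd : β * d ≤ nV := le_trans (mul_le_mul_of_nonneg_right (by linarith only [hα, q1]) hd1) hαd
  have h2d : 2 * d ≤ nV := le_trans (mul_le_mul_of_nonneg_right (by linarith only [hα, q1]) hd1) hαd
  have hUV : β * U ≤ nV := by
    rw [e1]
    have h3 : β * U ≤ α ^ 2 * U := by
      apply mul_le_mul_of_nonneg_right _ (by linarith only [hu])
      exact arc_h4 q1 hα
    linarith only [h3, p2, p3]
  refine ⟨hnV0, ?_, ?_, ?_, ?_, ?_⟩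
  · intro hD0
    by_contra hc
    have h1 : β' ≤ -1 := by omega
    have h2 : D * β < 0 := by
      rw [e3]
      have h3 : β' * nV ≤ (-1) * nV := mul_le_mul_of_nonneg_right h1 hnV0.le
      rcases hη with rfl | rfl <;> linarith only [h3, h2d, hd1, hnV0]
    have h3 : 0 < D * β := mul_pos hD0 q1
    linarith only [h2, h3]
  · intro hb'
    have h2 : 0 < D * β := by
      rw [e3]
      have h3 : 1 * nV ≤ β' * nV := mul_le_mul_of_nonneg_right (by omega) hnV0.le
      rcases hη with rfl | rfl <;> linarith only [h3, h2d, hd1, hnV0]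
    exact (mul_pos_iff_of_pos_right q1).1 h2
  · intro hb'
    have h1 : β ^ 2 * (T ^ 2 * U + 2 * T * K + W) ≤ nV := by
      rw [e1]
      have a1 : (T * β) ^ 2 ≤ α ^ 2 := by
        apply pow_le_pow_left₀ (mul_nonneg (by linarith only [hS']) q1.le) q2
      have a2 : (T * β) ^ 2 * U ≤ α ^ 2 * U := mul_le_mul_of_nonneg_right a1 hU0
      have a3 : (T * β) * (2 * β * K) ≤ α * (2 * β * K) :=
        mul_le_mul_of_nonneg_right q2 (mul_nonneg (by linarith only [q1]) hd0)
      linarith only [a2, a3]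
    have h2 : d ≤ β * ((T + N) * U + K) := by
      rw [e2]
      have : α * U ≤ ((T + N) * β) * U := mul_le_mul_of_nonneg_right q3.le hU0
      linarith only [this]
    have h3 : (β * β' * (T ^ 2 * U + 2 * T * K + W) - ((T + N) * U + K)) * β ≤ D * β := by
      rw [e3]
      have h4 : β' * (β ^ 2 * (T ^ 2 * U + 2 * T * K + W)) ≤ β' * nV := mul_le_mul_of_nonneg_left h1 hb'.le
      rcases hη with rfl | rfl <;> linarith only [h4, h2, hd1]
    exact le_of_mul_le_mul_right h3 q1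
  · intro hb'
    have h1 : nV ≤ β ^ 2 * ((T + N) ^ 2 * U + 2 * (T + N) * K + W) := by
      rw [e1]
      have a1 : α ^ 2 ≤ ((T + N) * β) ^ 2 := by
        apply pow_le_pow_left₀ hα0.le q3.le
      have a2 : α ^ 2 * U ≤ ((T + N) * β) ^ 2 * U := mul_le_mul_of_nonneg_right a1 hU0
      have a3 : α * (2 * β * K) ≤ ((T + N) * β) * (2 * β * K) :=
        mul_le_mul_of_nonneg_right q3.le (mul_nonneg (by linarith only [q1]) hd0)
      linarith only [a2, a3]
    have h2 : d ≤ β * ((T + N) * U + K) := by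
      rw [e2]
      have : α * U ≤ ((T + N) * β) * U := mul_le_mul_of_nonneg_right q3.le hU0
      linarith only [this]
    have h3 : D * β ≤ (β * β' * ((T + N) ^ 2 * U + 2 * (T + N) * K + W) + ((T + N) * U + K)) * β := by
      rw [e3]
      have h4 : β' * nV ≤ β' * (β ^ 2 * ((T + N) ^ 2 * U + 2 * (T + N) * K + W)) :=
        mul_le_mul_of_nonneg_left h1 hb'.le
      rcases hη with rfl | rfl <;> linarith only [h4, h2, hd1]
    exact le_of_mul_le_mul_right h3 q1
  · intro hb'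
    rw [e4]
    have h1 : |β' ^ 2 * nV - 2 * η * β' * d + U - β' ^ 2 * nV| ≤ 2 * β' * d + U := by
      rw [show β' ^ 2 * nV - 2 * η * β' * d + U - β' ^ 2 * nV = U - 2 * η * β' * d by ring, abs_le]
      have : 0 ≤ β' * d := mul_nonneg hb'.le hd1
      rcases hη with rfl | rfl
      · constructor <;> linarith only [this, hU0]
      · constructor <;> linarith only [this, hU0]
    calc |β' ^ 2 * nV - 2 * η * β' * d + U - β' ^ 2 * nV| * (β * β')
        ≤ (2 * β' * d + U) * (β * β') := mul_le_mul_of_nonneg_right h1 (mul_nonneg q1.le hb'.le)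
      _ = 2 * β' ^ 2 * (β * d) + β' * (β * U) := by ring
      _ ≤ 2 * β' ^ 2 * nV + β' * nV := by
          have a1 := mul_le_mul_of_nonneg_left hβd (sq_nonneg β')
          have a2 := mul_le_mul_of_nonneg_left hUV hb'.le
          linarith only [a1, a2]
      _ ≤ 3 * (β' ^ 2 * nV) := by
          have : β' * nV ≤ β' ^ 2 * nV := by
            apply mul_le_mul_of_nonneg_right _ hnV0.le
            exact arc_h5 hb'
          linarith only [this]

/-- parametrization of the edges in an arc -/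
private theorem arc_param {M S : ℕ} {u v : G} (h : Fr u v) {γ : G × G} {s t x : ℝ} {e : G × G}
    (he : e ∈ NE M γ s t x) (he' : e.1 ∈ arc u v S M) :
    ∃ α β α' β' : ℤ, e = ((α : G) * u + (β : G) * v, (α' : G) * u + (β' : G) * v) ∧
      AQ M S (det u v) (det u v * det γ.1 v) (det u v * det u γ.1) (det u v * det γ.2 v)
        (det u v * det u γ.2) ((α, β), (α', β')) := by
  obtain ⟨V, V'⟩ := e
  obtain ⟨h1, -, -, -, -, h6, h7⟩ := he
  obtain ⟨α, β, rfl, a2, a3, a4⟩ := he'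
  simp only at *
  have hV' := arc_coord h V'
  obtain ⟨α', hα'⟩ : ∃ α' : ℤ, α' = det u v * det V' v := ⟨_, rfl⟩
  obtain ⟨β', hβ'⟩ : ∃ β' : ℤ, β' = det u v * det u V' := ⟨_, rfl⟩
  rw [← hα', ← hβ'] at hV'
  rw [hV', arc_det] at h1
  have h2 := arc_sq h
  refine ⟨α, β, α', β', by rw [← hV'], a2, a3, a4, ?_, ?_⟩
  · simp only
    linear_combination (det u v) * h1 - (α * β' - β * α') * h2
  · rw [arc_coord h γ.1, arc_cg h] at h6
    rw [hV', arc_coord h γ.2, arc_cg h] at h7
    simp only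
    -- the coordinates appear again as coordinates
    refine ⟨?_, ?_, ?_, ?_⟩
    · exact h6.1
    · exact h6.2
    · exact h7.1
    · exact h7.2

/-- ratio bounds -/
private theorem arc_ratio_bounds {X Y P B δ : ℝ} (h : |X - Y| * P ≤ 3 * Y) (hB : 0 < B) (hP : B ≤ P)
    (h3 : 3 / B ≤ 1 - Real.exp (-δ)) (hY : 0 ≤ Y) :
    Real.exp (-δ) * Y ≤ X ∧ X ≤ Real.exp δ * Y := by
  have h4 : |X - Y| * B ≤ 3 * Y := (mul_le_mul_of_nonneg_left hP (abs_nonneg _)).trans h
  have h5 : |X - Y| ≤ (3 / B) * Y := by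
    rw [div_mul_eq_mul_div, le_div_iff₀ hB]
    exact h4
  have h6 : |X - Y| ≤ (1 - Real.exp (-δ)) * Y := h5.trans (mul_le_mul_of_nonneg_right h3 hY)
  have h7 : 1 + (1 - Real.exp (-δ)) ≤ Real.exp δ := by
    have e1 := Real.add_one_le_exp (-δ)
    have e2 := Real.add_one_le_exp δ
    linarith
  have h8 := abs_le.1 h6
  constructor
  · linarith [h8.1]
  · have := mul_le_mul_of_nonneg_right h7 hY
    linarith [h8.2]

/-- the edges in an arc -/
private def EA (M : ℕ) (γ : G × G) (u v : G) (S : ℕ) (s t x : ℝ) : Set (G × G) :=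
  {e | e ∈ NE M γ s t x ∧ e.1 ∈ arc u v S M}

private theorem EA_finite (M : ℕ) (γ : G × G) (u v : G) (S : ℕ) (s t x : ℝ) : (EA M γ u v S s t x).Finite :=
  (NE_finite M γ s t x).subset (fun _ he => he.1)

private theorem cop_finite (M : ℕ) (b b' : ℤ) (s t Y : ℝ) : (cop M b b' s t Y).Finite := by
  apply (((Set.finite_Icc (0 : ℤ) ⌈|Y|⌉₊).prod (Set.finite_Icc (0 : ℤ) ⌈|Y|⌉₊))).subset
  rintro ⟨r, r'⟩ ⟨h1, h2, -, -, -, h3, -⟩
  simp only at h1 h2 h3
  have h4 : ((r * r' : ℤ) : ℝ) ≤ (⌈|Y|⌉₊ : ℝ) := h3.trans ((le_abs_self Y).trans (Nat.le_ceil _))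
  have h5 : r * r' ≤ (⌈|Y|⌉₊ : ℤ) := by exact_mod_cast h4
  refine ⟨⟨h1.le, ?_⟩, h2.le, ?_⟩
  · show r ≤ _
    exact arc_h6 h1 h2 h5
  · show r' ≤ _
    exact arc_h6 h2 h1 (by rw [mul_comm]; exact h5)

/-- upper bound -/
private theorem arc_upper (M : ℕ) (γ : G × G) (u v : G) (huv : Fr u v) (S : ℕ) (hS : 2 ≤ S) (s t : ℝ)
    (δ : ℝ) (B : ℕ) (hB : 0 < B) (h3 : 3 / (B : ℝ) ≤ 1 - Real.exp (-δ)) (x : ℝ) :
    (EA M γ u v S s t x).ncard ≤
      (cop M (det u v * det u γ.1) (det u v * det u γ.2) (s - δ) (t + δ)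
        ((x + ((((S : ℤ) + M) * nm u + dot u v : ℤ) : ℝ)) / (nm (((S : ℤ) : G) * u + v) : ℝ))).ncard +
      (Set.Icc (0 : ℤ) B ×ˢ Set.Icc (0 : ℤ) B).ncard := by
  refine le_trans ?_ (Set.ncard_union_le _ _)
  have hη := arc_eta huv
  have hη2 := arc_sq huv
  refine Set.ncard_le_ncard_of_injOn (fun e => (det u v * det u e.1, det u v * det u e.2)) ?_ ?_
    ((cop_finite _ _ _ _ _ _).union ((Set.finite_Icc _ _).prod (Set.finite_Icc _ _)))
  · rintro e ⟨he, he'⟩
    obtain ⟨α, β, α', β', rfl, hq⟩ := arc_param huv he he'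
    have hco := AQ_coprime hη hq
    obtain ⟨s1, s2, s3, s4, s5, s6⟩ := arc_size hη huv hS hq
    obtain ⟨q1, q2, q3, q4, q5, q6, q7, q8⟩ := hq
    obtain ⟨n1, n2, n3, n4, n5, -, -⟩ := he
    simp only at *
    have e1 : det u v * det u ((α : G) * u + (β : G) * v) = β := by
      rw [arc_det_u]; linear_combination β * hη2
    have e2 : det u v * det u ((α' : G) * u + (β' : G) * v) = β' := by
      rw [arc_det_u]; linear_combination β' * hη2
    rw [e1, e2]
    have hb0 := s2 n2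
    have hB1 : (1 : ℤ) ≤ B := by exact_mod_cast hB
    rcases eq_or_lt_of_le hb0 with hb | hb
    · right
      rw [← hb] at hco
      have : IsUnit β := isCoprime_zero_right.1 hco
      have : β = 1 := by
        rcases Int.isUnit_iff.1 this with h | h <;> omega
      exact ⟨⟨by simp only; omega, by simp only; omega⟩, by simp only; omega, by simp only; omega⟩
    · by_cases hP : (B : ℤ) ≤ β * β'
      · left
        have hP' : (B : ℝ) ≤ (β : ℝ) * β' := by exact_mod_cast hP
        have hBr : (0 : ℝ) < B := by exact_mod_cast hB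
        have t6 := s6 hb
        generalize hnV : nm ((α : G) * u + (β : G) * v) = nV at *
        generalize hnV' : nm ((α' : G) * u + (β' : G) * v) = nV' at *
        have t6' : |(β : ℝ) ^ 2 * nV' - β' ^ 2 * nV| * ((β : ℝ) * β') ≤ 3 * ((β' : ℝ) ^ 2 * nV) := by
          exact_mod_cast t6
        have hnVr : (0 : ℝ) < nV := by exact_mod_cast s1
        obtain ⟨r1, r2⟩ := arc_ratio_bounds t6' hBr hP' h3 (by positivity)
        refine ⟨q1, hb, hco, q6, q8, ?_, ?_, ?_⟩
        · simp only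
          have hQ : (0 : ℝ) < (nm (((S : ℤ) : G) * u + v) : ℝ) := by
            have hne : (((S : ℤ) : G) * u + v) ≠ 0 := by
              intro h0
              have := arc_det_u (S : ℤ) 1 u v
              rw [Int.cast_one, one_mul, h0] at this
              unfold det at this hη
              simp at this
              rcases hη with h | h <;> omega
            exact_mod_cast nm_pos hne
          rw [le_div_iff₀ hQ]
          have t4 := s4 hb
          have t4' : ((β * β' * nm (((S : ℤ) : G) * u + v) - (((S : ℤ) + M) * nm u + dot u v) : ℤ) : ℝ) ≤ x :=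
            le_trans (by exact_mod_cast t4) n3
          push_cast at t4' ⊢
          linarith only [t4']
        · simp only
          have a1 : Real.exp s * (β : ℝ) ^ 2 * nV ≤ Real.exp δ * (β' : ℝ) ^ 2 * nV := by
            have := mul_le_mul_of_nonneg_left n4 (sq_nonneg (β : ℝ))
            linarith only [this, r2]
          have a2 : Real.exp s * (β : ℝ) ^ 2 ≤ Real.exp δ * (β' : ℝ) ^ 2 := le_of_mul_le_mul_right a1 hnVr
          rw [Real.exp_sub, div_mul_eq_mul_div, div_le_iff₀ (Real.exp_pos _)]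
          linarith only [a2]
        · simp only
          have hβr : (0 : ℝ) < (β : ℝ) ^ 2 := by
            have : (0 : ℝ) < β := by exact_mod_cast q1
            positivity
          have a1 : Real.exp (-δ) * (β' : ℝ) ^ 2 * nV < Real.exp t * (β : ℝ) ^ 2 * nV := by
            have := mul_lt_mul_of_pos_left n5 hβr
            linarith only [this, r1]
          have a2 : Real.exp (-δ) * (β' : ℝ) ^ 2 < Real.exp t * (β : ℝ) ^ 2 := lt_of_mul_lt_mul_right a1 hnVr.le
          rw [Real.exp_add]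
          rw [Real.exp_neg] at a2
          have hδ := Real.exp_pos δ
          have a3 := mul_lt_mul_of_pos_left a2 hδ
          rw [← mul_assoc, mul_inv_cancel₀ hδ.ne', one_mul] at a3
          linarith only [a3]
      · right
        have h5 : β * β' < B := by omega
        refine ⟨⟨q1.le, ?_⟩, hb.le, ?_⟩
        · show β ≤ B
          exact arc_h6 q1 hb h5.le
        · show β' ≤ B
          exact arc_h6 hb q1 (by rw [mul_comm]; exact h5.le)
  · rintro e ⟨he, he'⟩ f ⟨hf, hf'⟩ hef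
    obtain ⟨α, β, α', β', rfl, hq⟩ := arc_param huv he he'
    obtain ⟨x, y, x', y', rfl, hr⟩ := arc_param huv hf hf'
    simp only [Prod.mk.injEq] at hef
    rw [arc_det_u, arc_det_u, arc_det_u, arc_det_u] at hef
    have e1 : β = y := by
      have := hef.1
      linear_combination this - (β - y) * hη2
    have e2 : β' = y' := by
      have := hef.2
      linear_combination this - (β' - y') * hη2
    have := AQ_inj hη hq hr e1 e2
    simp only [Prod.mk.injEq] at this
    obtain ⟨⟨rfl, rfl⟩, rfl, rfl⟩ := this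
    rfl

/-- lower bound -/
private theorem arc_lower (M : ℕ) (hM : 0 < M) (γ : G × G) (hγ : (M : ℤ) ∣ det γ.1 γ.2 - 1) (u v : G) (huv : Fr u v)
    (S : ℕ) (hS : 2 ≤ S) (s t : ℝ)
    (δ : ℝ) (B : ℕ) (hB : 0 < B) (h3 : 3 / (B : ℝ) ≤ 1 - Real.exp (-δ)) (x : ℝ) :
    (cop M (det u v * det u γ.1) (det u v * det u γ.2) (s + δ) (t - δ)
        ((x - ((((S : ℤ) + M) * nm u + dot u v : ℤ) : ℝ)) /
          (nm ((((S : ℤ) + M : ℤ) : G) * u + v) : ℝ))).ncard ≤
      (EA M γ u v S s t x).ncard + (Set.Icc (0 : ℤ) B ×ˢ Set.Icc (0 : ℤ) B).ncard := by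
  have hη := arc_eta huv
  have hη2 := arc_sq huv
  have hfin := EA_finite M γ u v S s t x
  have h1 : (EA M γ u v S s t x).ncard ≥
      ((fun e : G × G => (det u v * det u e.1, det u v * det u e.2)) '' (EA M γ u v S s t x)).ncard :=
    Set.ncard_image_le hfin
  refine le_trans ?_ (Nat.add_le_add_right h1 _)
  refine le_trans ?_ (Set.ncard_union_le _ _)
  apply Set.ncard_le_ncard
  · rintro ⟨β, β'⟩ ⟨c1, c2, c3, c4, c5, c6, c7, c8⟩
    simp only at *
    by_cases hP : (B : ℤ) ≤ β * β'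
    · left
      have hdet : (M : ℤ) ∣ (det u v * det γ.1 v) * (det u v * det u γ.2) -
          (det u v * det u γ.1) * (det u v * det γ.2 v) - det u v := by
        have e1 : (det u v * det γ.1 v) * (det u v * det u γ.2) -
          (det u v * det u γ.1) * (det u v * det γ.2 v) = det u v * det γ.1 γ.2 := by
          have h5 := arc_det (det u v * det γ.1 v) (det u v * det u γ.1) (det u v * det γ.2 v)
            (det u v * det u γ.2) u v
          rw [← arc_coord huv γ.1, ← arc_coord huv γ.2] at h5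
          rw [h5]
          linear_combination (-((det u v * det γ.1 v) * (det u v * det u γ.2) -
            (det u v * det u γ.1) * (det u v * det γ.2 v))) * hη2
        rw [e1]
        rw [show det u v * det γ.1 γ.2 - det u v = (det γ.1 γ.2 - 1) * det u v by ring]
        exact hγ.mul_right _
      obtain ⟨α, α', hq⟩ := AQ_exists (S := S) hM hdet c1 c3 c4 c5
      obtain ⟨s1, s2, s3, s4, s5, s6⟩ := arc_size hη huv hS hq
      obtain ⟨q1, q2, q3, q4, q5, q6, q7, q8⟩ := hq
      simp only at q1 q2 q3 q4 q5 q6 q7 q8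
      have hP' : (B : ℝ) ≤ (β : ℝ) * β' := by exact_mod_cast hP
      have hBr : (0 : ℝ) < B := by exact_mod_cast hB
      have t6 := s6 c2
      refine ⟨((α : G) * u + (β : G) * v, (α' : G) * u + (β' : G) * v), ⟨⟨?_, ?_, ?_, ?_, ?_, ?_, ?_⟩, ?_⟩, ?_⟩
      · simp only
        rw [arc_det, q4, hη2]
      · exact s3 c2
      · simp only
        have t5 := s5 c2
        have hQ : (0 : ℝ) < (nm ((((S : ℤ) + M : ℤ) : G) * u + v) : ℝ) := by
          have hne : ((((S : ℤ) + M : ℤ) : G) * u + v) ≠ 0 := by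
            intro h0
            have := arc_det_u ((S : ℤ) + M) 1 u v
            rw [Int.cast_one, one_mul, h0] at this
            unfold det at this hη
            simp at this
            rcases hη with h | h <;> omega
          exact_mod_cast nm_pos hne
        rw [le_div_iff₀ hQ] at c6
        have t5' : ((dot ((α : G) * u + (β : G) * v) ((α' : G) * u + (β' : G) * v) : ℤ) : ℝ) ≤
          ((β * β' * nm ((((S : ℤ) + M : ℤ) : G) * u + v) + (((S : ℤ) + M) * nm u + dot u v) : ℤ) : ℝ) := by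
          exact_mod_cast t5
        refine t5'.trans ?_
        rw [Int.cast_add]
        have e3 : ((β * β' * (nm ((((S : ℤ) + M : ℤ) : G) * u + v) : ℤ) : ℤ) : ℝ) =
          ((β * β' : ℤ) : ℝ) * (nm ((((S : ℤ) + M : ℤ) : G) * u + v) : ℝ) := by push_cast; ring
        rw [e3]
        linarith only [c6]
      · simp only
        generalize hnV : nm ((α : G) * u + (β : G) * v) = nV at *
        generalize hnV' : nm ((α' : G) * u + (β' : G) * v) = nV' at *
        have t6' : |(β : ℝ) ^ 2 * nV' - β' ^ 2 * nV| * ((β : ℝ) * β') ≤ 3 * ((β' : ℝ) ^ 2 * nV) := by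
          exact_mod_cast t6
        have hnVr : (0 : ℝ) < nV := by exact_mod_cast s1
        obtain ⟨r1, r2⟩ := arc_ratio_bounds t6' hBr hP' h3 (by positivity)
        have hβr : (0 : ℝ) < (β : ℝ) ^ 2 := by
          have : (0 : ℝ) < β := by exact_mod_cast q1
          positivity
        have a1 : Real.exp s * (β : ℝ) ^ 2 ≤ Real.exp (-δ) * (β' : ℝ) ^ 2 := by
          rw [Real.exp_add] at c7
          have := mul_le_mul_of_nonneg_left c7 (Real.exp_pos (-δ)).le
          have e4 : Real.exp (-δ) * (Real.exp s * Real.exp δ * (β : ℝ) ^ 2) = Real.exp s * (β : ℝ) ^ 2 := by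
            rw [Real.exp_neg]
            field_simp
          rw [e4] at this
          exact this
        have a2 : (β : ℝ) ^ 2 * (Real.exp s * nV) ≤ (β : ℝ) ^ 2 * nV' := by
          have := mul_le_mul_of_nonneg_right a1 hnVr.le
          linarith only [this, r1]
        exact le_of_mul_le_mul_left a2 hβr
      · simp only
        generalize hnV : nm ((α : G) * u + (β : G) * v) = nV at *
        generalize hnV' : nm ((α' : G) * u + (β' : G) * v) = nV' at *
        have t6' : |(β : ℝ) ^ 2 * nV' - β' ^ 2 * nV| * ((β : ℝ) * β') ≤ 3 * ((β' : ℝ) ^ 2 * nV) := by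
          exact_mod_cast t6
        have hnVr : (0 : ℝ) < nV := by exact_mod_cast s1
        obtain ⟨r1, r2⟩ := arc_ratio_bounds t6' hBr hP' h3 (by positivity)
        have hβr : (0 : ℝ) < (β : ℝ) ^ 2 := by
          have : (0 : ℝ) < β := by exact_mod_cast q1
          positivity
        have a1 : Real.exp δ * (β' : ℝ) ^ 2 < Real.exp t * (β : ℝ) ^ 2 := by
          rw [Real.exp_sub] at c8
          have := mul_lt_mul_of_pos_left c8 (Real.exp_pos δ)
          have e4 : Real.exp δ * (Real.exp t / Real.exp δ * (β : ℝ) ^ 2) = Real.exp t * (β : ℝ) ^ 2 := by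
            field_simp
          rw [e4] at this
          exact this
        have a2 : (β : ℝ) ^ 2 * nV' < (β : ℝ) ^ 2 * (Real.exp t * nV) := by
          have := mul_lt_mul_of_pos_right a1 hnVr
          linarith only [this, r2]
        exact lt_of_mul_lt_mul_left a2 hβr.le
      · simp only
        rw [arc_coord huv γ.1, arc_cg huv]
        exact ⟨q5, q6⟩
      · simp only
        rw [arc_coord huv γ.2, arc_cg huv]
        exact ⟨q7, q8⟩
      · exact ⟨α, β, rfl, q1, q2, q3⟩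
      · simp only [Prod.mk.injEq]
        rw [arc_det_u, arc_det_u]
        constructor
        · linear_combination β * hη2
        · linear_combination β' * hη2
    · right
      have h5 : β * β' < B := by omega
      refine ⟨⟨c1.le, ?_⟩, c2.le, ?_⟩
      · show β ≤ B
        exact arc_h6 c1 c2 h5.le
      · show β' ≤ B
        exact arc_h6 c2 c1 (by rw [mul_comm]; exact h5.le)
  · exact (hfin.image _).union ((Set.finite_Icc _ _).prod (Set.finite_Icc _ _))


/-- the final inequalities -/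
private theorem arc_real (c : ℝ) (hc0 : 0 ≤ c) (w : ℝ) (hw : 0 ≤ w) (Q : ℝ) (hQ : 1 ≤ Q) (C1 C2 ε : ℝ)
    (hC2 : 0 ≤ C2) (hε : 0 < ε) (δ : ℝ) (hδ : 0 < δ) (hδε : (2 * c + 1) * δ ≤ ε / 2) :
    ∃ x0 : ℝ, ∀ x : ℝ, x0 ≤ x → (c * (w + 2 * δ) + δ) * ((x + C1) / Q) + C2 ≤ c * w / Q * x + ε * x := by
  refine ⟨max 1 (2 * ((c * (w + 2 * δ) + δ) * (|C1| / Q) + C2) / ε), fun x hx => ?_⟩
  have hx1 : 1 ≤ x := (le_max_left _ _).trans hx
  have hx2 := (le_max_right _ _).trans hx
  rw [div_le_iff₀ hε] at hx2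
  have hQ0 : 0 < Q := by linarith
  have h1 : (c * (w + 2 * δ) + δ) * ((x + C1) / Q) =
      c * w / Q * x + ((2 * c + 1) * δ) * (x / Q) + (c * (w + 2 * δ) + δ) * (C1 / Q) := by ring
  have h2 : ((2 * c + 1) * δ) * (x / Q) ≤ ε / 2 * x := by
    have e1 : x / Q ≤ x := div_le_self (by linarith) hQ
    have e2 : 0 ≤ x / Q := by positivity
    calc ((2 * c + 1) * δ) * (x / Q) ≤ (ε / 2) * (x / Q) := mul_le_mul_of_nonneg_right hδε e2
      _ ≤ ε / 2 * x := mul_le_mul_of_nonneg_left e1 (by linarith)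
  have h3 : (c * (w + 2 * δ) + δ) * (C1 / Q) ≤ (c * (w + 2 * δ) + δ) * (|C1| / Q) := by
    apply mul_le_mul_of_nonneg_left _ (by positivity)
    exact div_le_div_of_nonneg_right (le_abs_self C1) hQ0.le
  rw [h1]
  linarith

private theorem arc_real' (c : ℝ) (hc0 : 0 ≤ c) (w : ℝ) (Q : ℝ) (hQ : 1 ≤ Q) (C1 C2 ε : ℝ)
    (hC2 : 0 ≤ C2) (hε : 0 < ε) (δ : ℝ) (hδ : 0 < δ) (hδε : (2 * c + 1) * δ ≤ ε / 2) (hw : 2 * δ ≤ w) :
    ∃ x0 : ℝ, ∀ x : ℝ, x0 ≤ x → c * w / Q * x - ε * x ≤ (c * (w - 2 * δ) - δ) * ((x - C1) / Q) - C2 := by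
  refine ⟨max 1 (2 * (|c * (w - 2 * δ) - δ| * (|C1| / Q) + C2) / ε), fun x hx => ?_⟩
  have hx1 : 1 ≤ x := (le_max_left _ _).trans hx
  have hx2 := (le_max_right _ _).trans hx
  rw [div_le_iff₀ hε] at hx2
  have hQ0 : 0 < Q := by linarith
  have h1 : (c * (w - 2 * δ) - δ) * ((x - C1) / Q) =
      c * w / Q * x - ((2 * c + 1) * δ) * (x / Q) - (c * (w - 2 * δ) - δ) * (C1 / Q) := by ring
  have h2 : ((2 * c + 1) * δ) * (x / Q) ≤ ε / 2 * x := by
    have e1 : x / Q ≤ x := div_le_self (by linarith) hQ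
    have e2 : 0 ≤ x / Q := by positivity
    calc ((2 * c + 1) * δ) * (x / Q) ≤ (ε / 2) * (x / Q) := mul_le_mul_of_nonneg_right hδε e2
      _ ≤ ε / 2 * x := mul_le_mul_of_nonneg_left e1 (by linarith)
  have h3 : (c * (w - 2 * δ) - δ) * (C1 / Q) ≤ |c * (w - 2 * δ) - δ| * (|C1| / Q) := by
    refine (le_abs_self _).trans ?_
    rw [abs_mul, abs_div, abs_of_pos hQ0]
  rw [h1]
  linarith

private theorem arc_Q {u v : G} (h : Fr u v) (k : ℤ) : (1 : ℝ) ≤ (nm ((k : G) * u + v) : ℝ) := by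
  have hη := arc_eta h
  have hne : ((k : G) * u + v) ≠ 0 := by
    intro h0
    have := arc_det_u k 1 u v
    rw [Int.cast_one, one_mul, h0] at this
    unfold det at this hη
    simp at this
    rcases hη with h | h <;> omega
  have := nm_pos hne
  exact_mod_cast this

/-- Correspondence. Let `η = det u v = ±1`. An edge `(V, V')` with `V = α u + β v` in the arc; write `V' = α' u + β' v` (`det u v = ±1`).
`α β' - β α' = η`. If `β' > 0` then `β, β'` are coprime positive, their class modulo `M` is that of the coordinates `(b, b')` of `γ` with respect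
to `u, v`, and `gcd(b, b', M) = 1` as `det γ = 1` mod `M`. Conversely, for coprime `β, β' > 0` with `(β, β') = (b, b')` mod `M` there is exactly one
`(α, α')` with `α β' - β α' = η`, `S β ≤ α < (S + M) β` and the right class modulo `M`: the solutions are `(α0 + l β, α0' + l β')`, `l ∈ ℤ`,
and those in the class of `γ` form one residue class of `l` modulo `M` (`(β, β')` is primitive modulo `M`).
Sizes (`u`, `v` in the closed quadrant, so `u . v ≥ 0`, and `Q(σ) = |σ u + v|^2` increases in `σ ≥ 0`, `σ = α / β`): `V' = (β'/β) V - (η/β) u`;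
`dot V V' = β β' Q(σ) - η dot (σ u + v) u`; `|V'|^2 / |V|^2 = (β'/β)^2 |1 - η u / (β' V)|^2` with `|u| / (β' |V|) ≤ 1 / (β β' S)`.
Upper bound: `β' ≤ 0` only for finitely many edges (`V' = u` type), and for `β β' ≥ B0(δ)` the pair `(β, β')` is in
`cop M b b' (s - δ) (t + δ) ((x + C1) / Q(S))`; pairs with `β β' < B0` give finitely many edges. Lower bound: pairs in
`cop M b b' (s + δ) (t - δ) ((x - C1) / Q(S + M))` with `β β' ≥ B0` give edges in the set (if `t - s ≤ 2 δ` the lower bound is trivial).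
Conclude with `CopC`, choosing `δ` small. -/
theorem arc_asymp (M : ℕ) (hM : 0 < M) (c : ℝ) (hc : CopC M c) (γ : G × G) (hγ : (M : ℤ) ∣ det γ.1 γ.2 - 1)
    (u v : G) (huv : Fr u v) (S : ℕ) (hS : 2 ≤ S) (s t : ℝ) (hst : s ≤ t) (ε : ℝ) (hε : 0 < ε) :
    ∃ x0 : ℝ, ∀ x : ℝ, x0 ≤ x →
      c * (t - s) / (nm ((((S : ℤ) + M : ℤ) : G) * u + v) : ℝ) * x - ε * x ≤
        ({e : G × G | e ∈ NE M γ s t x ∧ e.1 ∈ arc u v S M}.ncard : ℝ) ∧
      ({e : G × G | e ∈ NE M γ s t x ∧ e.1 ∈ arc u v S M}.ncard : ℝ) ≤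
        c * (t - s) / (nm (((S : ℤ) : G) * u + v) : ℝ) * x + ε * x := by
  have hc0 := copC_nonneg M c hc
  have hη := arc_eta huv
  have hη2 := arc_sq huv
  -- coprimality of the class
  have hgcd : Int.gcd (Int.gcd (det u v * det u γ.1) (det u v * det u γ.2)) M = 1 := by
    obtain ⟨k, hk⟩ := hγ
    have h5 := arc_det (det u v * det γ.1 v) (det u v * det u γ.1) (det u v * det γ.2 v)
      (det u v * det u γ.2) u v
    rw [← arc_coord huv γ.1, ← arc_coord huv γ.2] at h5
    generalize det u v * det u γ.1 = b at *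
    generalize det u v * det u γ.2 = b' at *
    generalize det u v * det γ.1 v = a at *
    generalize det u v * det γ.2 v = a' at *
    apply Nat.dvd_one.1
    have h6 : ((Int.gcd (Int.gcd b b') M : ℕ) : ℤ) ∣ 1 := by
      have d1 : ((Int.gcd (Int.gcd b b') M : ℕ) : ℤ) ∣ (Int.gcd b b' : ℤ) := Int.gcd_dvd_left _ _
      have d2 : ((Int.gcd (Int.gcd b b') M : ℕ) : ℤ) ∣ M := Int.gcd_dvd_right _ _
      have d3 : ((Int.gcd (Int.gcd b b') M : ℕ) : ℤ) ∣ b := d1.trans (Int.gcd_dvd_left _ _)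
      have d4 : ((Int.gcd (Int.gcd b b') M : ℕ) : ℤ) ∣ b' := d1.trans (Int.gcd_dvd_right _ _)
      have e1 : (1 : ℤ) = b' * (a * det u v) - b * (a' * det u v) - M * k := by linarith
      rw [e1]
      exact dvd_sub (dvd_sub (d4.mul_right _) (d3.mul_right _)) (d2.mul_right _)
    exact_mod_cast h6
  -- choice of delta and B
  obtain ⟨δ, hδ, hδε⟩ : ∃ δ : ℝ, 0 < δ ∧ (2 * c + 1) * δ ≤ ε / 2 := by
    refine ⟨ε / 2 / (2 * c + 1), by positivity, ?_⟩
    rw [mul_div_cancel₀ _ (by positivity : (2 * c + 1) ≠ 0)]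
  have hr : 0 < 1 - Real.exp (-δ) := by
    have : Real.exp (-δ) < 1 := by
      rw [← Real.exp_zero]
      exact Real.exp_lt_exp.2 (by linarith)
    linarith
  obtain ⟨B, hB⟩ := exists_nat_gt (3 / (1 - Real.exp (-δ)))
  have hB0 : 0 < B := by
    have : (0 : ℝ) < B := lt_trans (by positivity) hB
    exact_mod_cast this
  have h3 : 3 / (B : ℝ) ≤ 1 - Real.exp (-δ) := by
    rw [div_lt_iff₀ hr] at hB
    rw [div_le_iff₀ (by exact_mod_cast hB0)]
    linarith
  obtain ⟨C1, hC1⟩ : ∃ C1 : ℝ, C1 = ((((S : ℤ) + M) * nm u + dot u v : ℤ) : ℝ) := ⟨_, rfl⟩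
  obtain ⟨C2, hC2⟩ : ∃ C2 : ℝ, C2 = ((Set.Icc (0 : ℤ) B ×ˢ Set.Icc (0 : ℤ) B).ncard : ℝ) := ⟨_, rfl⟩
  have hC20 : 0 ≤ C2 := by rw [hC2]; positivity
  have hQ1 := arc_Q huv (S : ℤ)
  have hQ2 := arc_Q huv ((S : ℤ) + M)
  obtain ⟨Q1, hQ1'⟩ : ∃ Q1 : ℝ, Q1 = (nm (((S : ℤ) : G) * u + v) : ℝ) := ⟨_, rfl⟩
  obtain ⟨Q2, hQ2'⟩ : ∃ Q2 : ℝ, Q2 = (nm ((((S : ℤ) + M : ℤ) : G) * u + v) : ℝ) := ⟨_, rfl⟩
  rw [← hQ1'] at hQ1
  rw [← hQ2'] at hQ2
  have hup := arc_upper M γ u v huv S hS s t δ B hB0 h3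
  have hlo := arc_lower M hM γ hγ u v huv S hS s t δ B hB0 h3
  rw [← hC1, ← hQ1'] at hup
  rw [← hC1, ← hQ2'] at hlo
  rw [← hQ1', ← hQ2']
  change ∃ x0 : ℝ, ∀ x : ℝ, x0 ≤ x → _ ≤ ((EA M γ u v S s t x).ncard : ℝ) ∧
    ((EA M γ u v S s t x).ncard : ℝ) ≤ _
  -- upper
  have hU : ∃ x0 : ℝ, ∀ x : ℝ, x0 ≤ x → ((EA M γ u v S s t x).ncard : ℝ) ≤ c * (t - s) / Q1 * x + ε * x := by
    have hl := hc _ _ hgcd (s - δ) (t + δ) (by linarith)
    have hl2 : ∀ᶠ Y : ℝ in atTop, ((cop M (det u v * det u γ.1) (det u v * det u γ.2) (s - δ) (t + δ) Y).ncard : ℝ) / Y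
        ≤ c * (t + δ - (s - δ)) + δ := by
      filter_upwards [hl.eventually_lt_const (by linarith : c * (t + δ - (s - δ)) < c * (t + δ - (s - δ)) + δ)]
        with Y hY using hY.le
    obtain ⟨Y0, hY0⟩ := eventually_atTop.1 hl2
    obtain ⟨x1, hx1⟩ := arc_real c hc0 (t - s) (by linarith) Q1 hQ1 C1 C2 ε hC20 hε δ hδ hδε
    refine ⟨max x1 (max Y0 1 * Q1 - C1), fun x hx => ?_⟩
    have e1 := (le_max_left _ _).trans hx
    have e2 := (le_max_right _ _).trans hx
    have e3 : max Y0 1 ≤ (x + C1) / Q1 := by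
      rw [le_div_iff₀ (by linarith)]
      linarith
    have e4 := hY0 _ ((le_max_left _ _).trans e3)
    have e5 : 0 < (x + C1) / Q1 := lt_of_lt_of_le one_pos ((le_max_right _ _).trans e3)
    rw [div_le_iff₀ e5] at e4
    have e6 := hx1 x e1
    have e7 : ((EA M γ u v S s t x).ncard : ℝ) ≤ ((cop M (det u v * det u γ.1) (det u v * det u γ.2) (s - δ) (t + δ)
        ((x + C1) / Q1)).ncard : ℝ) + C2 := by
      rw [hC2]
      exact_mod_cast hup x
    have e8 : c * (t + δ - (s - δ)) + δ = c * (t - s + 2 * δ) + δ := by ring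
    rw [e8] at e4
    linarith only [e4, e6, e7]
  -- lower
  have hL : ∃ x0 : ℝ, ∀ x : ℝ, x0 ≤ x → c * (t - s) / Q2 * x - ε * x ≤ ((EA M γ u v S s t x).ncard : ℝ) := by
    by_cases hw : 2 * δ ≤ t - s
    · have hl := hc _ _ hgcd (s + δ) (t - δ) (by linarith)
      have hl2 : ∀ᶠ Y : ℝ in atTop, c * (t - δ - (s + δ)) - δ ≤
          ((cop M (det u v * det u γ.1) (det u v * det u γ.2) (s + δ) (t - δ) Y).ncard : ℝ) / Y := by
        filter_upwards [hl.eventually_const_lt (by linarith : c * (t - δ - (s + δ)) - δ < c * (t - δ - (s + δ)))]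
          with Y hY using hY.le
      obtain ⟨Y0, hY0⟩ := eventually_atTop.1 hl2
      obtain ⟨x1, hx1⟩ := arc_real' c hc0 (t - s) Q2 hQ2 C1 C2 ε hC20 hε δ hδ hδε hw
      refine ⟨max x1 (max Y0 1 * Q2 + C1), fun x hx => ?_⟩
      have e1 := (le_max_left _ _).trans hx
      have e2 := (le_max_right _ _).trans hx
      have e3 : max Y0 1 ≤ (x - C1) / Q2 := by
        rw [le_div_iff₀ (by linarith)]
        linarith
      have e4 := hY0 _ ((le_max_left _ _).trans e3)
      have e5 : 0 < (x - C1) / Q2 := lt_of_lt_of_le one_pos ((le_max_right _ _).trans e3)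
      rw [le_div_iff₀ e5] at e4
      have e6 := hx1 x e1
      have e7 : ((cop M (det u v * det u γ.1) (det u v * det u γ.2) (s + δ) (t - δ)
        ((x - C1) / Q2)).ncard : ℝ) ≤ ((EA M γ u v S s t x).ncard : ℝ) + C2 := by
        rw [hC2]
        exact_mod_cast hlo x
      have e8 : c * (t - δ - (s + δ)) - δ = c * (t - s - 2 * δ) - δ := by ring
      rw [e8] at e4
      linarith only [e4, e6, e7]
    · refine ⟨0, fun x hx => ?_⟩
      push Not at hw
      have e1 : c * (t - s) / Q2 ≤ ε := by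
        rw [div_le_iff₀ (by linarith)]
        have e2 : c * (t - s) ≤ c * (2 * δ) := mul_le_mul_of_nonneg_left hw.le hc0
        have e3 : ε * 1 ≤ ε * Q2 := mul_le_mul_of_nonneg_left hQ2 hε.le
        linarith only [e2, e3, hδε, hδ, hε]
      have e2 : c * (t - s) / Q2 * x ≤ ε * x := mul_le_mul_of_nonneg_right e1 hx
      have e3 : (0 : ℝ) ≤ ((EA M γ u v S s t x).ncard : ℝ) := by positivity
      linarith
  obtain ⟨xU, hxU⟩ := hU
  obtain ⟨xL, hxL⟩ := hL
  exact ⟨max xU xL, fun x hx => ⟨hxL x ((le_max_right _ _).trans hx), hxU x ((le_max_left _ _).trans hx)⟩⟩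

/-- `|(S + M) u + v| ≤ (1 + M/S) |S u + v|` because `|S u + v| ≥ S |u|` (quadrant). -/
theorem arc_ratio (u v : G) (huv : Fr u v) (S M : ℕ) (hS : 0 < S) :
    (nm ((((S : ℤ) + M : ℤ) : G) * u + v) : ℝ) ≤ (1 + (M : ℝ) / S) ^ 2 * (nm (((S : ℤ) : G) * u + v) : ℝ) := by
  have hd0 := arc_dot_nonneg huv
  have e5 : (nm (((S : ℤ) : G) * u + v) : ℤ) = (S : ℤ) ^ 2 * nm u + 2 * S * dot u v + nm v := by
    have := arc_nm (S : ℤ) 1 u v
    rw [Int.cast_one, one_mul] at this
    rw [this]; ring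
  have e6 : (nm ((((S : ℤ) + M : ℤ) : G) * u + v) : ℤ) =
      ((S : ℤ) + M) ^ 2 * nm u + 2 * ((S : ℤ) + M) * dot u v + nm v := by
    have := arc_nm ((S : ℤ) + M) 1 u v
    rw [Int.cast_one, one_mul] at this
    rw [this]; ring
  have f5 : (nm (((S : ℤ) : G) * u + v) : ℝ) = (S : ℝ) ^ 2 * nm u + 2 * S * (dot u v : ℝ) + nm v := by
    exact_mod_cast e5
  have f6 : (nm ((((S : ℤ) + M : ℤ) : G) * u + v) : ℝ) =
      ((S : ℝ) + M) ^ 2 * nm u + 2 * ((S : ℝ) + M) * (dot u v : ℝ) + nm v := by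
    exact_mod_cast e6
  rw [f5, f6]
  have hSr : (0 : ℝ) < S := by exact_mod_cast hS
  have hMr : (0 : ℝ) ≤ M := by positivity
  have hK : (0 : ℝ) ≤ (dot u v : ℝ) := by exact_mod_cast hd0
  have h1 : (1 + (M : ℝ) / S) ^ 2 * ((S : ℝ) ^ 2 * nm u + 2 * S * (dot u v : ℝ) + nm v) =
      ((S : ℝ) + M) ^ 2 * nm u + 2 * (1 + (M : ℝ) / S) * ((S : ℝ) + M) * (dot u v : ℝ)
        + (1 + (M : ℝ) / S) ^ 2 * nm v := by
    have e : (S : ℝ) + M = (1 + (M : ℝ) / S) * S := by
      rw [add_mul, one_mul, div_mul_cancel₀ _ hSr.ne']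
    rw [e]
    generalize (1 + (M : ℝ) / S) = ρ
    ring
  rw [h1]
  have h2 : 0 ≤ (M : ℝ) / S := div_nonneg hMr hSr.le
  have h3 : (nm v : ℝ) ≤ (1 + (M : ℝ) / S) ^ 2 * nm v := by
    have : (1 : ℝ) ≤ (1 + (M : ℝ) / S) ^ 2 := one_le_pow₀ (by linarith only [h2])
    exact le_mul_of_one_le_left (Nat.cast_nonneg _) this
  have h4 : 2 * ((S : ℝ) + M) * (dot u v : ℝ) ≤ 2 * (1 + (M : ℝ) / S) * ((S : ℝ) + M) * (dot u v : ℝ) := by
    have h5 : 0 ≤ ((M : ℝ) / S) * (2 * ((S : ℝ) + M) * (dot u v : ℝ)) :=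
      mul_nonneg h2 (mul_nonneg (by linarith only [hSr, hMr]) hK)
    linarith only [h5]
  linarith only [h3, h4]

end Pool.Agent.OmAll
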