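import Pool.Agent.Lib_MP_f1a94e_aq.Exist

/-!
# Piece TAIL: the number of pairs with `tt` in a unit interval
-/

set_option autoImplicit false

namespace Pool.Agent.OmAll

open Finset Pool.Agent.GaussMR

namespace TailP

theorem smul_re (k : ℤ) (V : G) : ((k : G) * V).re = k * V.re := by simp

theorem smul_im (k : ℤ) (V : G) : ((k : G) * V).im = k * V.im := by simp

/-- two second vectors of edges with the same first vector differ by a multiple of it -/
theorem diff_mul {V W W' : G} (h : det V W = 1) (h' : det V W' = 1) : ∃ k : ℤ, W' = W + (k : G) * V := by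
  unfold det at h h'
  refine ⟨(W'.re - W.re) * W.im - (W'.im - W.im) * W.re, ?_⟩
  apply Zsqrtd.ext
  · rw [Zsqrtd.re_add, smul_re]
    linear_combination (-(W'.re - W.re)) * h + W.re * (h' - h)
  · rw [Zsqrtd.im_add, smul_im]
    linear_combination (-(W'.im - W.im)) * h + W.im * (h' - h)

theorem dot_add_mul (V W : G) (k : ℤ) : dot V (W + (k : G) * V) = dot V W + k * nm V := by
  rw [nm_eq]
  unfold dot
  rw [Zsqrtd.re_add, Zsqrtd.im_add, smul_re, smul_im]
  ring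

/-- the edges with given first vector are contained in a small finite set -/
theorem edges_sub (V : G) (a b : ℝ) (hab : a ≤ b) :
    ∃ s : Finset G, {V' : G | det V V' = 1 ∧ a ≤ ((dot V V' : ℤ) : ℝ) ∧ ((dot V V' : ℤ) : ℝ) ≤ b} ⊆ s ∧
      (s.card : ℝ) ≤ (b - a) / nm V + 1 := by
  classical
  have h0 : (0 : ℝ) ≤ (b - a) / nm V + 1 := by
    have : (0 : ℝ) ≤ (b - a) / nm V := div_nonneg (by linarith) (Nat.cast_nonneg _)
    linarith
  by_cases hne : {V' : G | det V V' = 1 ∧ a ≤ ((dot V V' : ℤ) : ℝ) ∧ ((dot V V' : ℤ) : ℝ) ≤ b}.Nonempty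
  · obtain ⟨W, hW, _, _⟩ := hne
    have hV : V ≠ 0 := by
      rintro rfl
      unfold det at hW
      simp at hW
    have hn : (0 : ℝ) < nm V := by exact_mod_cast nm_pos hV
    set n : ℝ := (nm V : ℝ) with hndef
    set d : ℝ := ((dot V W : ℤ) : ℝ) with hd
    refine ⟨(Icc ⌈(a - d) / n⌉ ⌊(b - d) / n⌋).image (fun k : ℤ => W + (k : G) * V), ?_, ?_⟩
    · rintro W' ⟨h1, h2, h3⟩
      obtain ⟨k, rfl⟩ := diff_mul hW h1
      rw [dot_add_mul] at h2 h3
      push_cast at h2 h3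
      rw [Finset.mem_coe, mem_image]
      refine ⟨k, ?_, rfl⟩
      rw [mem_Icc]
      constructor
      · rw [Int.ceil_le, div_le_iff₀ hn]
        linarith
      · rw [Int.le_floor, le_div_iff₀ hn]
        linarith
    · refine le_trans (Nat.cast_le.2 card_image_le) ?_
      rw [Int.card_Icc]
      rcases le_or_gt (⌊(b - d) / n⌋ + 1 - ⌈(a - d) / n⌉) 0 with h | h
      · rw [Int.toNat_of_nonpos h]
        simpa using h0
      · have h5 : (((⌊(b - d) / n⌋ + 1 - ⌈(a - d) / n⌉).toNat : ℕ) : ℝ) =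
            ((⌊(b - d) / n⌋ + 1 - ⌈(a - d) / n⌉ : ℤ) : ℝ) := by
          have := Int.toNat_of_nonneg h.le
          exact_mod_cast this
        rw [h5]
        push_cast
        have h6 := Int.floor_le ((b - d) / n)
        have h7 := Int.le_ceil ((a - d) / n)
        have h8 : (b - a) / n = (b - d) / n - (a - d) / n := by ring
        rw [h8]
        linarith
  · rw [Set.not_nonempty_iff_eq_empty] at hne
    rw [hne]
    exact ⟨∅, Set.empty_subset _, by simpa using h0⟩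

/-- nonzero vectors of norm at most `R` -/
theorem ball_sub (R : ℝ) (hR : 0 ≤ R) :
    ∃ s : Finset G, (∀ z : G, z ≠ 0 → (nm z : ℝ) ≤ R → z ∈ s) ∧ (∀ z ∈ s, z ≠ 0) ∧ (s.card : ℝ) ≤ 9 * R := by
  classical
  rcases lt_or_ge R 1 with h1 | h1
  · refine ⟨∅, ?_, by simp, by simpa using hR⟩
    intro z hz hzR
    exfalso
    have : (1 : ℝ) ≤ nm z := by exact_mod_cast nm_pos hz
    linarith
  · set s : ℤ := ⌊Real.sqrt R⌋ with hs
    have hs1 : 1 ≤ s := by
      rw [hs, Int.le_floor]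
      push_cast
      rw [Real.one_le_sqrt]
      exact h1
    have hs2 : (s : ℝ) ^ 2 ≤ R := by
      have h2 : (s : ℝ) ≤ Real.sqrt R := Int.floor_le _
      have h3 : (0 : ℝ) ≤ s := by exact_mod_cast (by omega : (0 : ℤ) ≤ s)
      calc (s : ℝ) ^ 2 ≤ (Real.sqrt R) ^ 2 := pow_le_pow_left₀ h3 h2 2
        _ = R := Real.sq_sqrt hR
    refine ⟨((Icc (-s) s ×ˢ Icc (-s) s).image (fun w : ℤ × ℤ => (⟨w.1, w.2⟩ : G))).filter (fun z => z ≠ 0),
      ?_, fun z hz => (mem_filter.1 hz).2, ?_⟩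
    · intro z hz hzR
      rw [mem_filter]
      refine ⟨?_, hz⟩
      rw [mem_image]
      refine ⟨(z.re, z.im), ?_, rfl⟩
      have h4 : ((z.re : ℤ) : ℝ) ^ 2 + ((z.im : ℤ) : ℝ) ^ 2 ≤ R := by
        have h5 : ((nm z : ℤ) : ℝ) = ((z.re ^ 2 + z.im ^ 2 : ℤ) : ℝ) := by rw [nm_eq]
        push_cast at h5
        rw [← h5]
        exact hzR
      have key : ∀ t : ℤ, (t : ℝ) ^ 2 ≤ R → -s ≤ t ∧ t ≤ s := by
        intro t ht
        have h6 := Real.abs_le_sqrt ht
        rw [abs_le] at h6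
        constructor
        · have : -t ≤ s := by
            rw [hs, Int.le_floor]
            push_cast
            linarith [h6.1]
          linarith
        · rw [hs, Int.le_floor]
          exact h6.2
      rw [mem_product, mem_Icc, mem_Icc]
      exact ⟨key _ (by nlinarith [sq_nonneg ((z.im : ℤ) : ℝ)]), key _ (by nlinarith [sq_nonneg ((z.re : ℤ) : ℝ)])⟩
    · refine le_trans (Nat.cast_le.2 ((card_filter_le _ _).trans card_image_le)) ?_
      rw [card_product, Int.card_Icc]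
      have h5 : (((s + 1 - -s).toNat : ℕ) : ℝ) = 2 * (s : ℝ) + 1 := by
        have h6 : (((s + 1 - -s).toNat : ℕ) : ℤ) = s + 1 - -s := Int.toNat_of_nonneg (by omega)
        have h7 : (((s + 1 - -s).toNat : ℕ) : ℝ) = ((s + 1 - -s : ℤ) : ℝ) := by exact_mod_cast h6
        rw [h7]
        push_cast
        ring
      push_cast
      rw [h5]
      have h6 : (1 : ℝ) ≤ s := by exact_mod_cast hs1
      nlinarith

/-- the pairs and the exponential of `tt` -/
theorem tt_le {x : ℝ} {r : ℕ × ℕ} (hr : r ∈ pd x) (A : ℝ) :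
    (A ≤ tt r → (r.2 : ℝ) * Real.exp (A / 2) ≤ r.1 + 1) ∧
      (tt r ≤ A → (r.1 : ℝ) ≤ r.2 * Real.exp (A / 2)) := by
  rw [mem_pd] at hr
  obtain ⟨h1, h2, h3, h4⟩ := hr
  have hd : 0 < r.2 := Nat.pos_of_dvd_of_pos h4 (by positivity)
  have hd' : (0 : ℝ) < r.2 := by exact_mod_cast hd
  have hm : (0 : ℝ) ≤ r.1 := Nat.cast_nonneg _
  have he := Real.exp_pos (A / 2)
  have hlog : Real.log (((r.2 : ℝ) * Real.exp (A / 2)) ^ 2) = A + 2 * Real.log r.2 := by
    rw [Real.log_pow, Real.log_mul hd'.ne' he.ne', Real.log_exp]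
    push_cast
    ring
  have hp : (0 : ℝ) < (r.1 : ℝ) ^ 2 + 1 := by positivity
  have hp2 : (0 : ℝ) < ((r.2 : ℝ) * Real.exp (A / 2)) ^ 2 := by positivity
  unfold tt
  constructor
  · intro h
    have h5 : Real.log (((r.2 : ℝ) * Real.exp (A / 2)) ^ 2) ≤ Real.log ((r.1 : ℝ) ^ 2 + 1) := by
      rw [hlog]
      linarith
    have h6 := (Real.log_le_log_iff hp2 hp).1 h5
    nlinarith [mul_pos hd' he]
  · intro h
    have h5 : Real.log ((r.1 : ℝ) ^ 2 + 1) ≤ Real.log (((r.2 : ℝ) * Real.exp (A / 2)) ^ 2) := by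
      rw [hlog]
      linarith
    have h6 := (Real.log_le_log_iff hp hp2).1 h5
    nlinarith [mul_pos hd' he]

theorem tt_symm {m d e : ℕ} (hd : 0 < d) (he : 0 < e) (h : d * e = m ^ 2 + 1) :
    tt (m, e) = - tt (m, d) := by
  have hd' : (0 : ℝ) < d := by exact_mod_cast hd
  have he' : (0 : ℝ) < e := by exact_mod_cast he
  have h1 : ((m : ℝ) ^ 2 + 1) = d * e := by exact_mod_cast h.symm
  unfold tt
  simp only
  rw [h1, Real.log_mul hd'.ne' he'.ne']
  ring

theorem tail0 (x : ℝ) (hx : 1 ≤ x) (A : ℝ) (hA : -1 ≤ A) :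
    {r : ℕ × ℕ | r ∈ pd x ∧ A ≤ tt r ∧ tt r ≤ A + 1}.Finite ∧
    ({r : ℕ × ℕ | r ∈ pd x ∧ A ≤ tt r ∧ tt r ≤ A + 1}.ncard : ℝ) ≤ 90 * x := by
  classical
  set E := Real.exp (A / 2) with hE
  have hE0 : 0 < E := Real.exp_pos _
  have hE2 : Real.exp (1 / 2) ≤ 2 := by
    have h1 : Real.exp (1 / 2) ^ 2 = Real.exp 1 := by
      rw [← Real.exp_nat_mul]
      norm_num
    have h2 := Real.exp_one_lt_d9
    have h3 := Real.exp_pos (1 / 2)
    nlinarith
  have hE1 : 1 ≤ 2 * E := by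
    have h1 : Real.exp (A / 2) * Real.exp (1 / 2) = Real.exp (A / 2 + 1 / 2) := (Real.exp_add _ _).symm
    have h2 : 1 ≤ Real.exp (A / 2 + 1 / 2) := Real.one_le_exp (by linarith)
    rw [← h1] at h2
    nlinarith
  have hE3 : Real.exp ((A + 1) / 2) ≤ 2 * E := by
    rw [show (A + 1) / 2 = A / 2 + 1 / 2 by ring, Real.exp_add]
    nlinarith
  have hE4 : E ≤ Real.exp ((A + 1) / 2) := Real.exp_le_exp.2 (by linarith)
  set E' := Real.exp ((A + 1) / 2) with hE'
  obtain ⟨B, hB1, hB2, hB3⟩ := ball_sub ((x + 1) / E) (by positivity)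
  have hex : ∀ V : G, ∃ s : Finset G, {V' : G | det V V' = 1 ∧ (nm V : ℝ) * E - 1 ≤ ((dot V V' : ℤ) : ℝ) ∧
      ((dot V V' : ℤ) : ℝ) ≤ (nm V : ℝ) * E'} ⊆ s ∧
      (s.card : ℝ) ≤ ((nm V : ℝ) * E' - ((nm V : ℝ) * E - 1)) / nm V + 1 := by
    intro V
    apply edges_sub
    have : (nm V : ℝ) * E ≤ (nm V : ℝ) * E' := mul_le_mul_of_nonneg_left hE4 (Nat.cast_nonneg _)
    linarith
  choose F hF1 hF2 using hex
  set P : Finset (ℕ × ℕ) := B.biUnion (fun V => (F V).image (fun V' => ((dot V V').toNat, nm V))) with hP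
  have hsub : {r : ℕ × ℕ | r ∈ pd x ∧ A ≤ tt r ∧ tt r ≤ A + 1} ⊆ (P : Set (ℕ × ℕ)) := by
    rintro ⟨m, d⟩ ⟨hr, h1, h2⟩
    obtain ⟨h3, _⟩ := tt_le hr A
    obtain ⟨_, h4⟩ := tt_le hr (A + 1)
    have h5 := h3 h1
    have h6 := h4 h2
    rw [mem_pd] at hr
    obtain ⟨h7, h8, _, e, he⟩ := hr
    simp only at h5 h6 h7 h8 he
    obtain ⟨V, V', h9, h10, h11, _⟩ := exists_edge m d e he.symm
    have hV : V ≠ 0 := by
      rintro rfl
      unfold det at h9
      simp at h9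
    rw [Finset.mem_coe, hP, mem_biUnion]
    refine ⟨V, hB1 V hV ?_, ?_⟩
    · rw [le_div_iff₀ hE0, h11]
      linarith
    · rw [mem_image]
      refine ⟨V', ?_, ?_⟩
      · have h12 : V' ∈ {V' : G | det V V' = 1 ∧ (nm V : ℝ) * E - 1 ≤ ((dot V V' : ℤ) : ℝ) ∧
            ((dot V V' : ℤ) : ℝ) ≤ (nm V : ℝ) * E'} := by
          refine ⟨h9, ?_, ?_⟩
          · rw [h10, h11]
            push_cast
            linarith
          · rw [h10, h11]
            push_cast
            exact h6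
        exact hF1 V h12
      · rw [h10, h11]
        rfl
  refine ⟨(P.finite_toSet).subset hsub, ?_⟩
  have h1 : {r : ℕ × ℕ | r ∈ pd x ∧ A ≤ tt r ∧ tt r ≤ A + 1}.ncard ≤ P.card := by
    have := Set.ncard_le_ncard hsub P.finite_toSet
    rwa [Set.ncard_coe_finset] at this
  have h2 : (P.card : ℝ) ≤ B.card * (5 * E) := by
    have h3 : P.card ≤ ∑ V ∈ B, (F V).card :=
      card_biUnion_le.trans (Finset.sum_le_sum (fun V _ => card_image_le))
    calc (P.card : ℝ) ≤ ((∑ V ∈ B, (F V).card : ℕ) : ℝ) := by exact_mod_cast h3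
      _ = ∑ V ∈ B, ((F V).card : ℝ) := by push_cast; rfl
      _ ≤ ∑ V ∈ B, (5 * E) := by
          refine Finset.sum_le_sum (fun V hV => (hF2 V).trans ?_)
          have hn : (1 : ℝ) ≤ nm V := by exact_mod_cast nm_pos (hB2 V hV)
          have h4 : ((nm V : ℝ) * E' - ((nm V : ℝ) * E - 1)) / nm V = E' - E + 1 / nm V := by
            field_simp
            ring
          rw [h4]
          have h5 : (1 : ℝ) / nm V ≤ 1 := by
            rw [div_le_one (by linarith)]
            exact hn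
          linarith
      _ = B.card * (5 * E) := by rw [sum_const, nsmul_eq_mul]
  calc _ ≤ (P.card : ℝ) := by exact_mod_cast h1
    _ ≤ B.card * (5 * E) := h2
    _ ≤ 9 * ((x + 1) / E) * (5 * E) := by gcongr
    _ = 45 * (x + 1) := by field_simp; ring
    _ ≤ 90 * x := by linarith

end TailP

/-- The number of edges for given first vector: `star V V' = m + i`, so `m` determines `V' = V (m + i) / nm V`, and two values
of `m` for the same `V` differ by a multiple of `nm V` (`V' - V''` is a multiple of `V` because `det (V, V' - V'') = 0` and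
`V` is primitive, and `dot (V, k V) = k nm V`). So `m` in an interval `[a, b]` gives at most `(b - a) / nm V + 1` edges. -/
theorem edges_fixed (V : G) (a b : ℝ) (hab : a ≤ b) :
    ({V' : G | det V V' = 1 ∧ a ≤ ((dot V V' : ℤ) : ℝ) ∧ ((dot V V' : ℤ) : ℝ) ≤ b}.ncard : ℝ) ≤
      (b - a) / nm V + 1 := by
  obtain ⟨s, h1, h2⟩ := TailP.edges_sub V a b hab
  refine le_trans ?_ h2
  have := Set.ncard_le_ncard h1 s.finite_toSet
  rw [Set.ncard_coe_finset] at this
  exact_mod_cast this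

/-- By symmetry (`(m, d) ↦ (m, (m^2+1)/d)` changes the sign of `tt`) one may assume the interval to be `[A, A + 1)` with `A ≥ -1`; say
`A ≥ 0` or `-1 ≤ A < 0` (treat `[-1, 1]` together if convenient). For `r = (m, d)` take the edge `(V, V')` from `exists_edge`, `nm V = d`,
`m^2 + 1 = d^2 exp (tt r)`. So `d ≤ (x + 1) exp (-A/2)` and `m` is in an interval of length `≤ C exp(A/2) d` (`m + 1 ≥ sqrt (m^2+1) ≥ d exp(A/2)`,
`m ≤ d exp((A+1)/2)`). The number of `V` is at most `9 (x + 1) exp (-A/2)` (`ball_le`-type bound; no `V` at all if this is small as `nm V ≥ 1`), each gives at most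
`C exp (A/2) + 1 ≤ C' exp (A/2)` edges (`edges_fixed`). Total `≤ C'' (x + 1)`. -/
theorem tail : ∃ C : ℝ, 0 < C ∧ ∀ x : ℝ, 1 ≤ x → ∀ A : ℝ,
    ({r : ℕ × ℕ | r ∈ pd x ∧ A ≤ tt r ∧ tt r < A + 1}.ncard : ℝ) ≤ C * x := by
  refine ⟨90, by norm_num, fun x hx A => ?_⟩
  rcases le_or_gt (-1) A with hA | hA
  · obtain ⟨h1, h2⟩ := TailP.tail0 x hx A hA
    refine le_trans ?_ h2
    have h3 : {r : ℕ × ℕ | r ∈ pd x ∧ A ≤ tt r ∧ tt r < A + 1} ⊆
        {r : ℕ × ℕ | r ∈ pd x ∧ A ≤ tt r ∧ tt r ≤ A + 1} := fun r hr => ⟨hr.1, hr.2.1, hr.2.2.le⟩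
    exact_mod_cast Set.ncard_le_ncard h3 h1
  · obtain ⟨h1, h2⟩ := TailP.tail0 x hx (-A - 1) (by linarith)
    refine le_trans ?_ h2
    have key : ∀ r : ℕ × ℕ, r ∈ pd x → 0 < r.2 ∧ 0 < (r.1 ^ 2 + 1) / r.2 ∧
        r.2 * ((r.1 ^ 2 + 1) / r.2) = r.1 ^ 2 + 1 := by
      intro r hr
      rw [mem_pd] at hr
      have h3 : 0 < r.2 := Nat.pos_of_dvd_of_pos hr.2.2.2 (by positivity)
      refine ⟨h3, Nat.div_pos (Nat.le_of_dvd (by positivity) hr.2.2.2) h3, Nat.mul_div_cancel' hr.2.2.2⟩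
    exact_mod_cast Set.ncard_le_ncard_of_injOn (fun r : ℕ × ℕ => (r.1, (r.1 ^ 2 + 1) / r.2))
      (by
        rintro ⟨m, d⟩ ⟨hr, h3, h4⟩
        obtain ⟨h5, h6, h7⟩ := key _ hr
        simp only at h5 h6 h7
        have h8 := TailP.tt_symm h5 h6 h7
        refine ⟨?_, ?_, ?_⟩
        · rw [mem_pd] at hr ⊢
          exact ⟨hr.1, hr.2.1, hr.2.2.1, Dvd.intro_left _ h7⟩
        · simp only
          rw [h8]
          linarith
        · simp only
          rw [h8]
          linarith)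
      (by
        rintro ⟨m, d⟩ ⟨hr, _⟩ ⟨m', d'⟩ ⟨hr', _⟩ h
        obtain ⟨h5, h6, h7⟩ := key _ hr
        obtain ⟨h5', h6', h7'⟩ := key _ hr'
        simp only [Prod.mk.injEq] at h h5 h6 h7 h5' h6' h7'
        obtain ⟨rfl, h⟩ := h
        rw [← h] at h7'
        have h9 : d * ((m ^ 2 + 1) / d) = d' * ((m ^ 2 + 1) / d) := h7.trans h7'.symm
        rw [Nat.eq_of_mul_eq_mul_right h6 h9])
      h1

end Pool.Agent.OmAll
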