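import Pool.Agent.Lib_MP_f1a94e_aq.Cover
import Pool.Agent.Lib_MP_f1a94e_aq.Tail
import Pool.Agent.Lib_MP_f1a94e_aq.Arc

/-!
# Piece LEFT: edges in a small cone
-/

set_option autoImplicit false

namespace Pool.Agent.OmAll

open Finset Pool.Agent.GaussMR

private lemma left_nm_pos {V V' : G} (h : det V V' = 1) : 0 < nm V := by
  apply nm_pos
  rintro rfl
  simp [det] at h

private lemma left_prod {V V' : G} (h : det V V' = 1) :
    (nm V : ℝ) * (nm V' : ℝ) = ((dot V V' : ℤ) : ℝ) ^ 2 + 1 := by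
  have h4 := dot_sq_add_det_sq V V'
  rw [h] at h4
  have : ((dot V V' : ℤ) : ℝ) ^ 2 + 1 ^ 2 = ((nm V : ℤ) : ℝ) * ((nm V' : ℤ) : ℝ) := by
    exact_mod_cast h4
  push_cast at this
  linarith

private lemma left_finite (V : G) (b : ℝ) :
    ({V' : G | det V V' = 1 ∧ 0 ≤ ((dot V V' : ℤ) : ℝ) ∧ ((dot V V' : ℤ) : ℝ) ≤ b}).Finite := by
  apply (finite_ball (b ^ 2 + 1)).subset
  rintro V' ⟨h1, h2, h3⟩
  have h4 := left_prod h1
  have h5 : (1 : ℝ) ≤ nm V := by exact_mod_cast left_nm_pos h1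
  show (nm V' : ℝ) ≤ b ^ 2 + 1
  have h6 : (0 : ℝ) ≤ nm V' := by positivity
  nlinarith

private lemma left_aux1 {N D x E : ℝ} (h8 : 0 < D) (h3 : D ≤ x) (hx : 1 ≤ x)
    (h : N * (E * N) ≤ D ^ 2 + 1) : E * N ^ 2 ≤ (2 * x) ^ 2 := by
  have h1 : D * D ≤ x * x := mul_self_le_mul_self h8.le h3
  have h2 : 1 * 1 ≤ x * x := mul_self_le_mul_self zero_le_one hx
  linarith only [h, h1, h2, mul_self_nonneg x]

private lemma left_aux2 (a b : ℤ) : (a - b) ^ 2 + (a + b) ^ 2 = 2 * (a ^ 2 + b ^ 2) := by ring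

private lemma left_aux3 {N D T N' : ℝ} (h1 : N' ≤ T * N) (h2 : 1 ≤ N) (h3 : N * N' = D ^ 2 + 1) :
    D ^ 2 ≤ T * N ^ 2 := by
  have h4 := mul_le_mul_of_nonneg_left h1 (show 0 ≤ N by linarith only [h2])
  linarith only [h4, h3]

private lemma left_aux4 {r : ℝ} (h : 0 < r) : r ^ 2 ≤ (r + 1) ^ 2 := by linarith only [h]
private lemma left_aux5 {r : ℝ} (h : 0 < r) : 2 * r ≤ (r + 1) ^ 2 := by
  linarith only [h, sq_nonneg r]
private lemma left_aux6 {r : ℝ} (h : 0 < r) : 1 ≤ (r + 1) ^ 2 := by linarith only [h, sq_nonneg r]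

private lemma left_ll (α β : ℤ) (u v : G) :
    ll ((α : G) * u + (β : G) * v) = α * ll u + β * ll v := by
  unfold ll
  simp
  ring

/-- `nm V ^ 2 e^s ≤ nm V nm V' = m^2 + 1 ≤ x^2 + 1`, so `nm V ≤ e^(-s/2) (x + 1)`, and `ll V ≤ 2 √(nm V) ≤ R = C √x`. `V = α u + β v` with
`α ll u + β ll v ≤ R`, so `α ≤ R / ll u`, `β ≤ R / ll v`: at most `(R/ll u + 1)(R/ll v + 1) ≤ R^2/(ll u ll v) + 2 R + 1` vectors `V` (`ll ≥ 1`). For each `V`
at most `e^(t/2) + 1` edges (`m < e^(t/2) nm V`; `edges_fixed` in Tail.lean). `C` depends on `s` and `t` only. -/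
theorem left (s t : ℝ) : ∃ C : ℝ, 0 < C ∧ ∀ (M : ℕ) (γ : G × G) (u v : G), Fr u v → ∀ x : ℝ, 1 ≤ x →
    ({e : G × G | e ∈ NE M γ s t x ∧ e.1 ∈ cone u v}.ncard : ℝ) ≤
      C * (x / ((ll u : ℝ) * ll v) + Real.sqrt x + 1) := by
  classical
  set K : ℝ := Real.exp (t / 2) + 1 with hK
  set r : ℝ := 2 * Real.exp (-s / 4) with hr
  have hK0 : 0 < K := by positivity
  have hr0 : 0 < r := by positivity
  refine ⟨K * (r + 1) ^ 2, by positivity, ?_⟩
  intro M γ u v huv x hx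
  have hfin : ({e : G × G | e ∈ NE M γ s t x ∧ e.1 ∈ cone u v}).Finite :=
    (NE_finite M γ s t x).subset (fun e he => he.1)
  set E := hfin.toFinset with hE
  have hEcard : ({e : G × G | e ∈ NE M γ s t x ∧ e.1 ∈ cone u v}).ncard = E.card :=
    Set.ncard_eq_toFinset_card _ hfin
  rw [hEcard]
  have hu : (1 : ℝ) ≤ ll u := by exact_mod_cast ll_pos huv
  have hv : (1 : ℝ) ≤ ll v := by exact_mod_cast ll_pos huv.swap
  set R : ℝ := r * Real.sqrt x with hR
  have hx0 : 0 ≤ Real.sqrt x := Real.sqrt_nonneg x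
  have hR0 : 0 ≤ R := by positivity
  have hsq : Real.sqrt x ^ 2 = x := Real.sq_sqrt (by linarith)
  set Vs : Finset G := (range (⌊R / ll u⌋₊ + 1) ×ˢ range (⌊R / ll v⌋₊ + 1)).image
    (fun w : ℕ × ℕ => (((w.1 : ℤ) : G)) * u + (((w.2 : ℤ) : G)) * v) with hVs
  have hmem : ∀ e ∈ E, e.1 ∈ Vs := by
    intro e he
    rw [hE, Set.Finite.mem_toFinset] at he
    obtain ⟨⟨h1, h2, h3, h4, h5, -, -⟩, α, β, hV, hα, hβ⟩ := he
    have h6 := left_prod h1
    have h7 : (1 : ℝ) ≤ nm e.1 := by exact_mod_cast left_nm_pos h1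
    have h8 : (0 : ℝ) < ((dot e.1 e.2 : ℤ) : ℝ) := by exact_mod_cast h2
    -- the norm
    have h9 : Real.exp s * (nm e.1 : ℝ) ^ 2 ≤ (2 * x) ^ 2 := by
      have this : (nm e.1 : ℝ) * (Real.exp s * (nm e.1 : ℝ)) ≤ (nm e.1 : ℝ) * (nm e.2 : ℝ) :=
        mul_le_mul_of_nonneg_left h4 (by linarith only [h7])
      rw [h6] at this
      exact left_aux1 h8 h3 hx this
    have h10 : Real.exp (s / 2) * (nm e.1 : ℝ) ≤ 2 * x := by
      have e1 : (Real.exp (s / 2) * (nm e.1 : ℝ)) ^ 2 ≤ (2 * x) ^ 2 := by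
        have : Real.exp (s / 2) ^ 2 = Real.exp s := by
          rw [← Real.exp_nat_mul]; congr 1; push_cast; ring
        rw [mul_pow, this]; exact h9
      exact le_of_sq_le_sq e1 (by linarith)
    have h11 : (nm e.1 : ℝ) ≤ 2 * Real.exp (-s / 2) * x := by
      have e1 : Real.exp (-s / 2) * Real.exp (s / 2) = 1 := by
        rw [← Real.exp_add]; ring_nf; exact Real.exp_zero
      have e2 := mul_le_mul_of_nonneg_left h10 (Real.exp_pos (-s / 2)).le
      calc (nm e.1 : ℝ) = Real.exp (-s / 2) * (Real.exp (s / 2) * (nm e.1 : ℝ)) := by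
            rw [← mul_assoc, e1, one_mul]
        _ ≤ Real.exp (-s / 2) * (2 * x) := e2
        _ = 2 * Real.exp (-s / 2) * x := by ring
    have hll : ((ll e.1 : ℤ) : ℝ) ≤ R := by
      have e1 : ((ll e.1 : ℤ) : ℝ) ^ 2 ≤ 2 * (nm e.1 : ℝ) := by
        have : (ll e.1) ^ 2 ≤ 2 * (nm e.1 : ℤ) := by
          rw [nm_eq]
          unfold ll
          linarith only [sq_nonneg (e.1.re - e.1.im), left_aux2 e.1.re e.1.im]
        exact_mod_cast this
      have e2 : R ^ 2 = 4 * Real.exp (-s / 2) * x := by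
        have : Real.exp (-s / 4) ^ 2 = Real.exp (-s / 2) := by
          rw [← Real.exp_nat_mul]; congr 1; push_cast; ring
        rw [hR, hr, mul_pow, mul_pow, this, hsq]; ring
      have e3 : ((ll e.1 : ℤ) : ℝ) ^ 2 ≤ R ^ 2 := by rw [e2]; linarith
      exact le_of_sq_le_sq e3 hR0
    have hlin : ((ll e.1 : ℤ) : ℝ) = α * ll u + β * ll v := by
      rw [hV, left_ll]; push_cast; ring
    have hα' : (0 : ℝ) ≤ α := by exact_mod_cast hα
    have hβ' : (0 : ℝ) ≤ β := by exact_mod_cast hβ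
    rw [hlin] at hll
    obtain ⟨a, rfl⟩ := Int.eq_ofNat_of_zero_le hα
    obtain ⟨b, rfl⟩ := Int.eq_ofNat_of_zero_le hβ
    rw [hVs]
    refine Finset.mem_image.2 ⟨(a, b), ?_, hV.symm⟩
    rw [Finset.mem_product, Finset.mem_range, Finset.mem_range]
    push_cast at hll
    constructor
    · apply Nat.lt_succ_of_le
      apply Nat.le_floor
      rw [le_div_iff₀ (by linarith)]
      have : (0 : ℝ) ≤ (b : ℝ) * ll v := by positivity
      linarith
    · apply Nat.lt_succ_of_le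
      apply Nat.le_floor
      rw [le_div_iff₀ (by linarith)]
      have : (0 : ℝ) ≤ (a : ℝ) * ll u := by positivity
      linarith
  have hfib : ∀ V ∈ Vs, (E.filter (fun e => e.1 = V)).card ≤ ⌊K⌋₊ := by
    intro V _
    apply Nat.le_floor
    set b : ℝ := Real.exp (t / 2) * nm V with hb
    have hb0 : 0 ≤ b := by positivity
    have h1 := edges_fixed V 0 b hb0
    have h2 : (E.filter (fun e => e.1 = V)).card ≤
        ({V' : G | det V V' = 1 ∧ 0 ≤ ((dot V V' : ℤ) : ℝ) ∧ ((dot V V' : ℤ) : ℝ) ≤ b}).ncard := by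
      rw [← Set.ncard_coe_finset]
      apply Set.ncard_le_ncard_of_injOn (fun e : G × G => e.2) ?_ ?_ (left_finite V b)
      · intro e he
        rw [Finset.mem_coe, Finset.mem_filter, hE, Set.Finite.mem_toFinset] at he
        obtain ⟨⟨⟨g1, g2, g3, g4, g5, -, -⟩, -⟩, g6⟩ := he
        subst g6
        have g7 := left_prod g1
        have g8 : (1 : ℝ) ≤ nm e.1 := by exact_mod_cast left_nm_pos g1
        have g9 : (0 : ℝ) < ((dot e.1 e.2 : ℤ) : ℝ) := by exact_mod_cast g2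
        refine ⟨g1, g9.le, ?_⟩
        have g10 : ((dot e.1 e.2 : ℤ) : ℝ) ^ 2 ≤ b ^ 2 := by
          have : Real.exp (t / 2) ^ 2 = Real.exp t := by
            rw [← Real.exp_nat_mul]; congr 1; push_cast; ring
          rw [hb, mul_pow, this]
          exact left_aux3 g5.le g8 g7
        exact le_of_sq_le_sq g10 hb0
      · intro e he e' he' hee
        rw [Finset.mem_coe, Finset.mem_filter] at he he'
        exact Prod.ext (he.2.trans he'.2.symm) hee
    have h3 : (b - 0) / nm V ≤ Real.exp (t / 2) := by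
      rcases Nat.eq_zero_or_pos (nm V) with h | h
      · rw [h]; simp; positivity
      · have : (0 : ℝ) < nm V := by exact_mod_cast h
        rw [sub_zero, hb, mul_div_assoc, div_self this.ne', mul_one]
    have h4 : ((E.filter (fun e => e.1 = V)).card : ℝ) ≤
        (({V' : G | det V V' = 1 ∧ 0 ≤ ((dot V V' : ℤ) : ℝ) ∧
          ((dot V V' : ℤ) : ℝ) ≤ b}).ncard : ℝ) := by exact_mod_cast h2
    rw [hK]
    linarith
  have h1 := Finset.card_le_mul_card_image_of_maps_to hmem ⌊K⌋₊ hfib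
  have h2 : Vs.card ≤ (⌊R / ll u⌋₊ + 1) * (⌊R / ll v⌋₊ + 1) := by
    refine Finset.card_image_le.trans ?_
    rw [Finset.card_product, Finset.card_range, Finset.card_range]
  have h3 : (Vs.card : ℝ) ≤ (R / ll u + 1) * (R / ll v + 1) := by
    have e1 : (⌊R / ll u⌋₊ : ℝ) ≤ R / ll u := Nat.floor_le (by positivity)
    have e2 : (⌊R / ll v⌋₊ : ℝ) ≤ R / ll v := Nat.floor_le (by positivity)
    have e3 : (Vs.card : ℝ) ≤ ((⌊R / ll u⌋₊ : ℝ) + 1) * ((⌊R / ll v⌋₊ : ℝ) + 1) := by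
      exact_mod_cast h2
    refine e3.trans ?_
    gcongr
  have h4 : (E.card : ℝ) ≤ (⌊K⌋₊ : ℝ) * Vs.card := by exact_mod_cast h1
  have h5 : (⌊K⌋₊ : ℝ) ≤ K := Nat.floor_le hK0.le
  have h6 : (R / ll u + 1) * (R / ll v + 1) ≤
      (r + 1) ^ 2 * (x / ((ll u : ℝ) * ll v) + Real.sqrt x + 1) := by
    have e1 : R / ll u ≤ R := div_le_self hR0 hu
    have e2 : R / ll v ≤ R := div_le_self hR0 hv
    have e3 : R / ll u * (R / ll v) = r ^ 2 * (x / ((ll u : ℝ) * ll v)) := by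
      have : R * R = r ^ 2 * x := by
        calc R * R = r ^ 2 * Real.sqrt x ^ 2 := by rw [hR]; ring
          _ = _ := by rw [hsq]
      rw [div_mul_div_comm, this]; ring
    have e4 : 0 ≤ x / ((ll u : ℝ) * ll v) := by positivity
    have e5 : (R / ll u + 1) * (R / ll v + 1) = R / ll u * (R / ll v) + R / ll u + R / ll v + 1 := by
      ring
    rw [e5, e3]
    have e6 : r ^ 2 ≤ (r + 1) ^ 2 := left_aux4 hr0
    have e7 : 2 * r ≤ (r + 1) ^ 2 := left_aux5 hr0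
    have e8 : 1 ≤ (r + 1) ^ 2 := left_aux6 hr0
    have e9 : R / ll u + R / ll v ≤ (r + 1) ^ 2 * Real.sqrt x := by
      calc R / ll u + R / ll v ≤ R + R := by linarith
        _ = 2 * r * Real.sqrt x := by rw [hR]; ring
        _ ≤ _ := mul_le_mul_of_nonneg_right e7 hx0
    have e10 : r ^ 2 * (x / ((ll u : ℝ) * ll v)) ≤ (r + 1) ^ 2 * (x / ((ll u : ℝ) * ll v)) :=
      mul_le_mul_of_nonneg_right e6 e4
    linarith only [e8, e9, e10]
  calc (E.card : ℝ) ≤ (⌊K⌋₊ : ℝ) * Vs.card := h4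
    _ ≤ K * ((R / ll u + 1) * (R / ll v + 1)) := by
      apply mul_le_mul h5 h3 (by positivity) hK0.le
    _ ≤ K * ((r + 1) ^ 2 * (x / ((ll u : ℝ) * ll v) + Real.sqrt x + 1)) := by gcongr
    _ = _ := by ring

end Pool.Agent.OmAll
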