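import Pool.Agent.Lib_MP_f1a94e_aq.Final
import Pool.Agent.Lib_MP_f1a94e_t1.Final

/-!
# All moduli, all classes
-/

set_option autoImplicit false

namespace Pool.Agent.OmAll

open Finset Pool.Agent.GaussMR Filter

theorem tx_zero_le (x : ℝ) : tx x 0 ≤ 1 := by
  unfold tx
  have h : {d : ℕ | d ∣ 0 ^ 2 + 1 ∧ (d : ℝ) ≤ x ∧ ((0 ^ 2 + 1 : ℕ) : ℝ) ≤ x * d} ⊆ {1} := by
    rintro d ⟨h1, -⟩
    simpa using h1
  calc _ ≤ Set.ncard ({1} : Set ℕ) := Set.ncard_le_ncard h (Set.finite_singleton 1)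
    _ = 1 := Set.ncard_singleton 1

open Classical in
/-- odd moduli -/
theorem all_odd (q : ℕ) (hq0 : 0 < q) (hq : Odd q) (a : ℕ) : ∃ c x0 : ℝ, 0 < c ∧ ∀ x : ℝ, x0 ≤ x →
    c * x ≤ ∑ m ∈ (Icc 1 ⌊x⌋₊).filter
      (fun m => Even m ∧ ArithmeticFunction.cardFactors (m ^ 2 + 1) ≡ a [MOD q]), (tx x m : ℝ) := by
  have hcert := Pool.Agent.OmT1.certA q hq0 a a (Or.inl hq) 0
  obtain ⟨c, x0, hc, hx0, hcore⟩ := Pool.Agent.OmT1.core (Nat.factorial_pos 0) hcert
  refine ⟨c / 2, max x0 (2 / c), by positivity, ?_⟩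
  intro x hx
  have hx1 : x0 ≤ x := (le_max_left _ _).trans hx
  have hx2 : 2 / c ≤ x := (le_max_right _ _).trans hx
  have h := hcore x hx1 ((Finset.range (⌊x⌋₊ + 1)).filter
    (fun m => Even m ∧ ArithmeticFunction.cardFactors (m ^ 2 + 1) ≡ a [MOD q])) (by
      intro m h1 h2 _ h4
      rw [mem_filter, Finset.mem_range, Nat.lt_succ_iff]
      refine ⟨Nat.le_floor h2, h1, ?_⟩
      have h5 : ((ArithmeticFunction.cardFactors (m ^ 2 + 1) : ℕ) : ZMod q) = (a : ZMod q) := by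
        rcases h4 with h4 | h4
        · simpa using h4
        · simpa using h4
      exact (ZMod.natCast_eq_natCast_iff _ _ _).1 h5)
  set S : ℝ := ∑ m ∈ (Icc 1 ⌊x⌋₊).filter
      (fun m => Even m ∧ ArithmeticFunction.cardFactors (m ^ 2 + 1) ≡ a [MOD q]), (tx x m : ℝ) with hS
  have hle : ∑ m ∈ (Finset.range (⌊x⌋₊ + 1)).filter
      (fun m => Even m ∧ ArithmeticFunction.cardFactors (m ^ 2 + 1) ≡ a [MOD q]), (tx x m : ℝ) ≤ S + 1 := by
    have hsub : (Finset.range (⌊x⌋₊ + 1)).filter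
      (fun m => Even m ∧ ArithmeticFunction.cardFactors (m ^ 2 + 1) ≡ a [MOD q]) ⊆
        insert 0 ((Icc 1 ⌊x⌋₊).filter
      (fun m => Even m ∧ ArithmeticFunction.cardFactors (m ^ 2 + 1) ≡ a [MOD q])) := by
      intro m hm
      rw [mem_filter, Finset.mem_range] at hm
      rw [Finset.mem_insert, mem_filter, mem_Icc]
      rcases Nat.eq_zero_or_pos m with h0 | h0
      · exact Or.inl h0
      · exact Or.inr ⟨⟨h0, by omega⟩, hm.2⟩
    refine (Finset.sum_le_sum_of_subset_of_nonneg hsub fun m _ _ => Nat.cast_nonneg _).trans ?_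
    rw [Finset.sum_insert (by simp)]
    have h0 : (tx x 0 : ℝ) ≤ 1 := by exact_mod_cast tx_zero_le x
    linarith
  rw [div_le_iff₀ hc] at hx2
  linarith

open Classical in
/-- every modulus, every class: a positive proportion of the balanced factorisations -/
theorem all_core (q : ℕ) (hq0 : 0 < q) (a : ℕ) : ∃ c x0 : ℝ, 0 < c ∧ ∀ x : ℝ, x0 ≤ x →
    c * x ≤ ∑ m ∈ (Icc 1 ⌊x⌋₊).filter
      (fun m => Even m ∧ ArithmeticFunction.cardFactors (m ^ 2 + 1) ≡ a [MOD q]), (tx x m : ℝ) := by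
  rcases Nat.even_or_odd q with h | h
  · exact all_even q hq0 h a
  · exact all_odd q hq0 h a

open Classical in
/-- every modulus, every class: many `m` -/
theorem all_count (q : ℕ) (hq0 : 0 < q) (a : ℕ) (e : ℝ) (he : Real.log 2 < e) :
    ∃ x0 : ℝ, ∀ x : ℝ, x0 ≤ x → x / Real.log x ^ e ≤
      (Set.ncard {m : ℕ | (m : ℝ) ≤ x ∧ Even m ∧
        ArithmeticFunction.cardFactors (m ^ 2 + 1) ≡ a [MOD q]} : ℝ) := by
  obtain ⟨c, x1, hc, hcore⟩ := all_core q hq0 a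
  obtain ⟨d, C, hd, hC, hstep⟩ := Pool.Agent.GaussMR.stepB e he
  have hlim : Tendsto (fun x : ℝ => Real.log x ^ d) atTop atTop :=
    (tendsto_rpow_atTop hd).comp Real.tendsto_log_atTop
  obtain ⟨x2, hx2⟩ := eventually_atTop.mp (hlim.eventually_gt_atTop (C / c))
  refine ⟨max x1 (max x2 3), ?_⟩
  intro x hx
  have hxx1 : x1 ≤ x := (le_max_left _ _).trans hx
  have hxx2 : x2 ≤ x := ((le_max_left _ _).trans (le_max_right _ _)).trans hx
  have hxx3 : 3 ≤ x := ((le_max_right _ _).trans (le_max_right _ _)).trans hx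
  by_contra hcon
  push Not at hcon
  set B : Finset ℕ := (Icc 1 ⌊x⌋₊).filter
      (fun m => Even m ∧ ArithmeticFunction.cardFactors (m ^ 2 + 1) ≡ a [MOD q]) with hB
  have hBsub : (B : Set ℕ) ⊆ {m : ℕ | (m : ℝ) ≤ x ∧ Even m ∧
        ArithmeticFunction.cardFactors (m ^ 2 + 1) ≡ a [MOD q]} := by
    intro m hm
    rw [Finset.mem_coe, hB, mem_filter, mem_Icc] at hm
    exact ⟨(Nat.le_floor_iff' (by omega)).1 hm.1.2, hm.2⟩
  have hfin : {m : ℕ | (m : ℝ) ≤ x ∧ Even m ∧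
        ArithmeticFunction.cardFactors (m ^ 2 + 1) ≡ a [MOD q]}.Finite :=
    (Set.finite_Iic ⌊x⌋₊).subset fun m hm => Nat.le_floor hm.1
  have hBc : (B.card : ℝ) ≤ x / Real.log x ^ e := by
    refine le_trans ?_ hcon.le
    have := Set.ncard_le_ncard hBsub hfin
    rw [Set.ncard_coe_finset] at this
    exact_mod_cast this
  have h1 := hstep x hxx3 B (fun m hm => by
    have := hBsub (Finset.mem_coe.2 hm)
    exact ⟨this.2.1, this.1⟩) hBc
  have h2 := hcore x hxx1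
  have h3 : c * x ≤ C * x / Real.log x ^ d := h2.trans h1
  have h4 := hx2 x hxx2
  have hlog : 0 < Real.log x := Real.log_pos (by linarith)
  have h5 : 0 < Real.log x ^ d := Real.rpow_pos_of_pos hlog d
  rw [le_div_iff₀ h5] at h3
  have h6 : C < c * Real.log x ^ d := by
    rw [div_lt_iff₀ hc] at h4
    linarith
  have h7 : 0 < x := by linarith
  nlinarith

end Pool.Agent.OmAll
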