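import Pool.Agent.Lib_MP_f1a94e_aq.Cyc

/-!
# Piece CERT2: structure theorem on an interval
-/

set_option autoImplicit false

namespace Pool.Agent.OmQ

open Finset LibLS

/-- From `cyc` (with `ε / 2`): `N0` a multiple of `Pi` with `N0 > 2 / ε`, `K0 / N0 < ε0`, `K0 < N0`. Given `X : ℕ → ℕ`, put
`X' i = (X i.val : ZMod q)` on `ZMod N0`. If there is no pair as in the first alternative, then `Good` holds only for
`i.val ≥ N0 - K0` (for `i.val + k < N0` one has `(i + k).val = i.val + k`, and a good `k` is squarefree, so `k ≥ 1`, with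
`X i + X (i + k) - 2 #k.primeFactors = a` in `ZMod q`), so the average is at most `K0 / N0 < ε0`; `cyc` gives
`#{i : X' i + X' (i + 1) = a mod 2} ≤ (ε/2) N0`, and for `i < N0 - 1` this is `(X i + X (i + 1)) % 2 = a % 2` (if
`X i + X (i+1) = a + 2 l` or `a - 2 l` in `ℕ` choose `j` accordingly: `j = l` or `j` with `j + l` a multiple of `q`). One more `i`
(`i = N0 - 1`) costs `1 ≤ (ε/2) N0`. Compare the proof of `thmD` (Lib_MP_f1a94e_q/ThmD.lean). -/
theorem cert2 (q : ℕ) (hq0 : 0 < q) (hq : Even q) (a : ℕ) (ε : ℝ) (hε : 0 < ε) :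
    ∃ N0 : ℕ, 0 < N0 ∧ ∀ (ρ : ℕ → ℕ) (X : ℕ → ℕ),
      (∃ i k : ℕ, 0 < k ∧ i + k ≤ N0 ∧ Squarefree k ∧
        (∀ p ∈ k.primeFactors, p % 4 = 1 ∧ i ≡ ρ p [MOD p]) ∧
        X i + X (i + k) ≡ a + 2 * k.primeFactors.card [MOD q]) ∨
      (((range N0).filter (fun i => (X i + X (i + 1)) % 2 = a % 2)).card : ℝ) ≤ ε * N0 := by
  classical
  have : NeZero q := ⟨hq0.ne'⟩
  obtain ⟨K0, Pi, ε0, hPi, hε0, hcyc⟩ := cyc q hq (a : ZMod q) (ε / 2) (by positivity)
  obtain ⟨M0, hM0⟩ := exists_nat_ge (2 / ε + (K0 + 1) / ε0 + K0 + 1)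
  have hM0pos : (0 : ℝ) < M0 := lt_of_lt_of_le (by positivity) hM0
  have hM0' : 0 < M0 := by exact_mod_cast hM0pos
  have hN0 : 0 < Pi * M0 := Nat.mul_pos hPi hM0'
  obtain ⟨N, hN⟩ : ∃ N, N = Pi * M0 := ⟨_, rfl⟩
  rw [← hN] at hN0
  have hNM : M0 ≤ N := by rw [hN]; exact Nat.le_mul_of_pos_left _ hPi
  have hNr : 2 / ε + (K0 + 1) / ε0 + K0 + 1 ≤ (N : ℝ) := hM0.trans (by exact_mod_cast hNM)
  have hNpos : (0 : ℝ) < N := by exact_mod_cast hN0
  have h2ε : (0 : ℝ) < 2 / ε := by positivity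
  have h3ε : (0 : ℝ) < ((K0 : ℝ) + 1) / ε0 := by positivity
  have hK0 : (0 : ℝ) ≤ K0 := Nat.cast_nonneg _
  have hNε : 1 ≤ ε / 2 * N := by
    have h1 : 2 / ε ≤ (N : ℝ) := by linarith
    rw [div_le_iff₀ hε] at h1
    linarith
  have hNK : (K0 : ℝ) / N < ε0 := by
    have h1 : ((K0 : ℝ) + 1) / ε0 ≤ N := by linarith
    rw [div_le_iff₀ hε0] at h1
    rw [div_lt_iff₀ hNpos]
    linarith
  refine ⟨N, hN0, ?_⟩
  intro ρ X
  have hNz : NeZero N := ⟨hN0.ne'⟩
  by_cases hex : ∃ i k : ℕ, 0 < k ∧ i + k ≤ N ∧ Squarefree k ∧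
        (∀ p ∈ k.primeFactors, p % 4 = 1 ∧ i ≡ ρ p [MOD p]) ∧
        X i + X (i + k) ≡ a + 2 * k.primeFactors.card [MOD q]
  · left; exact hex
  right
  set X' : ZMod N → ZMod q := fun i => ((X i.val : ℕ) : ZMod q) with hX'
  set G : Finset (ZMod N) := Finset.univ.filter (fun i : ZMod N =>
    Good K0 1 ρ {(a : ZMod q)} X' X' (fun _ => True) (fun _ => True) i) with hG
  have hGle : G.card ≤ K0 := by
    have h1 : G.card ≤ (Finset.Ico (N - K0) N).card := by
      refine Finset.card_le_card_of_injOn (fun i => i.val) ?_ ?_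
      · intro i hi
        have hi' := (Finset.mem_filter.mp (Finset.mem_coe.mp hi)).2
        obtain ⟨-, k, hk, hsq, hpr, hDv, -, hT⟩ := hi'
        have hilt : i.val < N := ZMod.val_lt i
        refine Finset.mem_coe.mpr (Finset.mem_Ico.mpr ⟨?_, hilt⟩)
        by_contra hlt
        push Not at hlt
        have hik : i.val + k < N := by omega
        have hkpos : 0 < k := Nat.pos_of_ne_zero hsq.ne_zero
        have hval : (i + (k : ZMod N)).val = i.val + k := by
          have hkN : k < N := by omega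
          rw [ZMod.val_add, ZMod.val_natCast, Nat.mod_eq_of_lt hkN, Nat.mod_eq_of_lt hik]
        refine hex ⟨i.val, k, hkpos, hik.le, hsq, ?_, ?_⟩
        · intro p hp
          exact ⟨(hpr p hp).1, hDv p hp⟩
        · rw [Set.mem_singleton_iff] at hT
          simp only [hX', hval] at hT
          rw [← ZMod.natCast_eq_natCast_iff]
          push_cast
          rw [← hT]
          ring
      · intro i _ j _ hij
        exact ZMod.val_injective N hij
    refine h1.trans ?_
    rw [Nat.card_Ico]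
    omega
  have hAvG : Av (fun i : ZMod N => ind (Good K0 1 ρ {(a : ZMod q)} X' X' (fun _ => True)
      (fun _ => True) i)) = (G.card : ℝ) / N := by
    unfold Av
    congr 1
    rw [hG, Finset.card_filter]
    push_cast
    refine Finset.sum_congr rfl fun i _ => ?_
    unfold ind
    rfl
  have hlt : Av (fun i : ZMod N => ind (Good K0 1 ρ {(a : ZMod q)} X' X' (fun _ => True)
      (fun _ => True) i)) < ε0 := by
    rw [hAvG]
    refine lt_of_le_of_lt ?_ hNK
    have : (G.card : ℝ) ≤ K0 := by exact_mod_cast hGle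
    gcongr
  have hres := hcyc N ⟨M0, hN⟩ X' ρ hlt
  set R : Finset (ZMod N) := Finset.univ.filter (fun i : ZMod N =>
    ∃ j : ℕ, X' i + X' (i + 1) - 2 * (j : ZMod q) = (a : ZMod q)) with hR
  have hAvR : Av (fun i : ZMod N => ind (∃ j : ℕ, X' i + X' (i + 1) - 2 * (j : ZMod q) =
      (a : ZMod q))) = (R.card : ℝ) / N := by
    unfold Av
    congr 1
    rw [hR, Finset.card_filter]
    push_cast
    refine Finset.sum_congr rfl fun i _ => ?_
    unfold ind
    rfl
  rw [hAvR, div_le_iff₀ hNpos] at hres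
  have hcard : ((range N).filter (fun i => (X i + X (i + 1)) % 2 = a % 2)).card ≤ R.card + 1 := by
    have h1 : ((range N).filter (fun i => (X i + X (i + 1)) % 2 = a % 2)) ⊆
        insert (N - 1) (R.image (fun i => i.val)) := by
      intro i hi
      obtain ⟨hi1, hi2⟩ := Finset.mem_filter.mp hi
      rw [Finset.mem_range] at hi1
      rw [Finset.mem_insert]
      by_cases hiN : i = N - 1
      · left; exact hiN
      right
      refine Finset.mem_image.mpr ⟨(i : ZMod N), ?_, ZMod.val_cast_of_lt hi1⟩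
      refine Finset.mem_filter.mpr ⟨Finset.mem_univ _, ?_⟩
      have hv1 : ((i : ℕ) : ZMod N).val = i := ZMod.val_cast_of_lt hi1
      have hv2 : ((i : ZMod N) + 1).val = i + 1 := by
        have h2 : ((i : ZMod N) + 1) = ((i + 1 : ℕ) : ZMod N) := by push_cast; ring
        rw [h2]
        exact ZMod.val_cast_of_lt (by omega)
      simp only [hX']
      rw [hv1, hv2]
      obtain ⟨s, hs⟩ := hq.two_dvd
      obtain ⟨t, ht⟩ : ∃ t, X i + X (i + 1) + q * a = a + 2 * t := by
        have h3 : a ≤ q * a := Nat.le_mul_of_pos_left _ hq0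
        have h4 : q * a = 2 * (s * a) := by rw [hs]; ring
        exact ⟨(X i + X (i + 1) + q * a - a) / 2, by omega⟩
      refine ⟨t, ?_⟩
      have h5 : ((X i + X (i + 1) + q * a : ℕ) : ZMod q) = ((a + 2 * t : ℕ) : ZMod q) := by rw [ht]
      push_cast at h5
      rw [ZMod.natCast_self, zero_mul, add_zero] at h5
      rw [h5]
      ring
    refine (Finset.card_le_card h1).trans ((Finset.card_insert_le _ _).trans ?_)
    exact Nat.add_le_add_right Finset.card_image_le 1
  have hcard' : (((range N).filter (fun i => (X i + X (i + 1)) % 2 = a % 2)).card : ℝ) ≤ R.card + 1 := by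
    exact_mod_cast hcard
  linarith

end Pool.Agent.OmQ
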