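import Pool.Agent.Lib_MP_f1a94e_aq.CopA

/-!
# Piece COPAS: coprime pairs in a congruence class, hyperbolic region
-/

set_option autoImplicit false

namespace Pool.Agent.OmAll

open Filter

namespace CopAs

open ArithmeticFunction

theorem finite0 (M : ℕ) (b b' : ℤ) (s t Y : ℝ) : (cop0 M b b' s t Y).Finite := by
  apply Set.Finite.subset ((Set.finite_Icc (1 : ℤ) ⌊Y⌋).prod (Set.finite_Icc (1 : ℤ) ⌊Y⌋))
  rintro ⟨r1, r2⟩ ⟨h1, h2, h3, h4, h5, h6, h7⟩
  simp only at h1 h2 h5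
  have h8 : (r1 * r2 : ℤ) ≤ ⌊Y⌋ := Int.le_floor.2 h5
  rw [Set.mem_prod, Set.mem_Icc, Set.mem_Icc]
  have h1' : (1 : ℤ) ≤ r1 := h1
  have h2' : (1 : ℤ) ≤ r2 := h2
  refine ⟨⟨h1', ?_⟩, ⟨h2', ?_⟩⟩
  · show r1 ≤ ⌊Y⌋
    nlinarith
  · show r2 ≤ ⌊Y⌋
    nlinarith

/-- sum of Moebius over the common divisors -/
theorem moebius_ind (g : ℕ) (hg : 0 < g) (K : ℕ) (hK : g ≤ K) :
    ∑ k ∈ Finset.range K, (if (k + 1) ∣ g then (moebius (k + 1) : ℤ) else 0) =
      if g = 1 then 1 else 0 := by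
  have h1 : ∑ k ∈ Finset.range K, (if (k + 1) ∣ g then (moebius (k + 1) : ℤ) else 0) =
      ∑ d ∈ g.divisors, (moebius d : ℤ) := by
    rw [← Finset.sum_filter]
    apply Finset.sum_bij (fun k _ => k + 1)
    · intro k hk
      rw [Finset.mem_filter] at hk
      rw [Nat.mem_divisors]
      exact ⟨hk.2, hg.ne'⟩
    · intro k _ k' _ h
      omega
    · intro d hd
      rw [Nat.mem_divisors] at hd
      have hd0 : 0 < d := Nat.pos_of_dvd_of_pos hd.1 hg
      have hdg := Nat.le_of_dvd hg hd.1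
      refine ⟨d - 1, ?_, by omega⟩
      rw [Finset.mem_filter, Finset.mem_range]
      refine ⟨by omega, ?_⟩
      rw [Nat.sub_add_cancel hd0]
      exact hd.1
    · intro k _
      rfl
  rw [h1, ← coe_mul_zeta_apply, moebius_mul_coe_zeta, one_apply]

/-- the pairs with both coordinates divisible by `k` -/
theorem divisible (M : ℕ) (hM : 0 < M) (b b' : ℤ) (hbb : Int.gcd (Int.gcd b b') M = 1)
    (s t : ℝ) (C : ℝ) (hC : ∀ b b' : ℤ, ∀ Y : ℝ, 1 ≤ Y →
      |((cop0 M b b' s t Y).ncard : ℝ) - (t - s) / (4 * M ^ 2) * Y| ≤ C * Real.sqrt Y)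
    (Y : ℝ) (k : ℕ) (hk : 0 < k) (hkY : (k : ℝ) ^ 2 ≤ Y) :
    |(({r | r ∈ cop0 M b b' s t Y ∧ (k : ℤ) ∣ r.1 ∧ (k : ℤ) ∣ r.2} : Set (ℤ × ℤ)).ncard : ℝ) -
      (if Nat.Coprime k M then (t - s) / (4 * M ^ 2) * (Y / k ^ 2) else 0)| ≤ C * (√Y / k) := by
  have hkr : (0 : ℝ) < k := by exact_mod_cast hk
  have hkz : (0 : ℤ) < k := by exact_mod_cast hk
  have hY0 : 0 < Y := lt_of_lt_of_le (by positivity) hkY
  have hYk : 1 ≤ Y / (k : ℝ) ^ 2 := by
    rw [one_le_div (by positivity)]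
    exact hkY
  have hsq : √(Y / (k : ℝ) ^ 2) = √Y / k := by
    rw [Real.sqrt_div hY0.le, Real.sqrt_sq hkr.le]
  have hC0 : 0 ≤ C * (√Y / k) := by
    have := (abs_nonneg _).trans (hC 0 0 (Y / (k : ℝ) ^ 2) hYk)
    rwa [hsq] at this
  by_cases hco : Nat.Coprime k M
  · rw [if_pos hco]
    obtain ⟨k', hk'⟩ : ∃ k' : ℤ, (M : ℤ) ∣ k * k' - 1 := by
      have h1 := Nat.gcd_eq_gcd_ab k M
      rw [hco] at h1
      refine ⟨Nat.gcdA k M, ⟨-Nat.gcdB k M, ?_⟩⟩
      push_cast at h1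
      linarith
    have hcls : ∀ x c : ℤ, (M : ℤ) ∣ k * x - c ↔ (M : ℤ) ∣ x - k' * c := by
      intro x c
      constructor
      · intro h
        have h2 : x - k' * c = k' * (k * x - c) - x * (k * k' - 1) := by ring
        rw [h2]
        exact dvd_sub (Dvd.dvd.mul_left h _) (Dvd.dvd.mul_left hk' _)
      · intro h
        have h2 : (k : ℤ) * x - c = k * (x - k' * c) + c * (k * k' - 1) := by ring
        rw [h2]
        exact dvd_add (Dvd.dvd.mul_left h _) (Dvd.dvd.mul_left hk' _)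
    have himg : {r | r ∈ cop0 M b b' s t Y ∧ (k : ℤ) ∣ r.1 ∧ (k : ℤ) ∣ r.2} =
        (fun r : ℤ × ℤ => ((k : ℤ) * r.1, (k : ℤ) * r.2)) ''
          cop0 M (k' * b) (k' * b') s t (Y / (k : ℝ) ^ 2) := by
      ext ⟨r1, r2⟩
      simp only [cop0, Set.mem_image, Set.mem_ofPred_eq, Prod.mk.injEq, Prod.exists]
      constructor
      · rintro ⟨⟨h1, h2, h3, h4, h5, h6, h7⟩, ⟨x, rfl⟩, ⟨y, rfl⟩⟩
        refine ⟨x, y, ⟨?_, ?_, (hcls x b).1 h3, (hcls y b').1 h4, ?_, ?_, ?_⟩, rfl, rfl⟩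
        · exact (mul_pos_iff_of_pos_left hkz).1 h1
        · exact (mul_pos_iff_of_pos_left hkz).1 h2
        · push_cast at h5 ⊢
          rw [le_div_iff₀ (by positivity)]
          nlinarith
        · push_cast at h6 ⊢
          have h8 : (k : ℝ) ^ 2 * (Real.exp s * (x : ℝ) ^ 2) ≤ (k : ℝ) ^ 2 * (y : ℝ) ^ 2 := by
            nlinarith
          exact le_of_mul_le_mul_left h8 (by positivity)
        · push_cast at h7 ⊢
          have h8 : (k : ℝ) ^ 2 * (y : ℝ) ^ 2 < (k : ℝ) ^ 2 * (Real.exp t * (x : ℝ) ^ 2) := by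
            nlinarith
          exact lt_of_mul_lt_mul_left h8 (by positivity)
      · rintro ⟨x, y, ⟨h1, h2, h3, h4, h5, h6, h7⟩, rfl, rfl⟩
        refine ⟨⟨mul_pos hkz h1, mul_pos hkz h2, (hcls x b).2 h3, (hcls y b').2 h4, ?_, ?_, ?_⟩,
          Dvd.intro _ rfl, Dvd.intro _ rfl⟩
        · push_cast at h5 ⊢
          rw [le_div_iff₀ (by positivity)] at h5
          nlinarith
        · push_cast at h6 ⊢
          have h8 := mul_le_mul_of_nonneg_left h6 (by positivity : (0 : ℝ) ≤ (k : ℝ) ^ 2)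
          nlinarith
        · push_cast at h7 ⊢
          have h8 := mul_lt_mul_of_pos_left h7 (by positivity : (0 : ℝ) < (k : ℝ) ^ 2)
          nlinarith
    have hinj : Function.Injective (fun r : ℤ × ℤ => ((k : ℤ) * r.1, (k : ℤ) * r.2)) := by
      rintro ⟨x, y⟩ ⟨x', y'⟩ h
      simp only [Prod.mk.injEq] at h
      rw [mul_left_cancel₀ hkz.ne' h.1, mul_left_cancel₀ hkz.ne' h.2]
    rw [himg, Set.ncard_image_of_injective _ hinj]
    have := hC (k' * b) (k' * b') (Y / (k : ℝ) ^ 2) hYk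
    rw [hsq] at this
    exact this
  · rw [if_neg hco]
    have hempty : {r | r ∈ cop0 M b b' s t Y ∧ (k : ℤ) ∣ r.1 ∧ (k : ℤ) ∣ r.2} = ∅ := by
      rw [Set.eq_empty_iff_forall_notMem]
      rintro ⟨r1, r2⟩ ⟨⟨h1, h2, h3, h4, h5, h6, h7⟩, h8, h9⟩
      simp only at h3 h4 h8 h9
      set g := Nat.gcd k M with hg
      have hgk : (g : ℤ) ∣ k := by exact_mod_cast Nat.gcd_dvd_left k M
      have hgM : (g : ℤ) ∣ M := by exact_mod_cast Nat.gcd_dvd_right k M
      have hgb : (g : ℤ) ∣ b := by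
        have h10 : b = r1 - (r1 - b) := by ring
        rw [h10]
        exact dvd_sub (hgk.trans h8) (hgM.trans h3)
      have hgb' : (g : ℤ) ∣ b' := by
        have h10 : b' = r2 - (r2 - b') := by ring
        rw [h10]
        exact dvd_sub (hgk.trans h9) (hgM.trans h4)
      have h11 : (g : ℤ) ∣ ((Int.gcd (Int.gcd b b') M : ℕ) : ℤ) :=
        Int.dvd_coe_gcd (Int.dvd_coe_gcd hgb hgb') hgM
      rw [hbb] at h11
      have h12 : g ∣ 1 := by exact_mod_cast h11
      exact hco (Nat.dvd_one.1 h12)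
    rw [hempty, Set.ncard_empty]
    simpa using hC0

theorem sum_inv_le (K : ℕ) : ∑ k ∈ Finset.range K, 1 / ((k : ℝ) + 1) ≤ 2 * √K := by
  induction K with
  | zero => simp
  | succ K ih =>
    rw [Finset.sum_range_succ]
    have hK : (0 : ℝ) ≤ K := Nat.cast_nonneg K
    push_cast
    set a := √(K : ℝ)
    set c := √((K : ℝ) + 1)
    have ha : a ^ 2 = K := Real.sq_sqrt hK
    have hc : c ^ 2 = (K : ℝ) + 1 := Real.sq_sqrt (by linarith)
    have ha0 : 0 ≤ a := Real.sqrt_nonneg _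
    have hc1 : 1 ≤ c := Real.one_le_sqrt.2 (by linarith)
    have hac : a ≤ c := Real.sqrt_le_sqrt (by linarith)
    have h1 : 1 / ((K : ℝ) + 1) ≤ 2 * (c - a) := by
      rw [← hc, div_le_iff₀ (by positivity)]
      have h2 : (c - a) * (c + a) = 1 := by nlinarith
      have h3 : (c - a) * (c + a) ≤ (c - a) * (2 * c ^ 2) := by
        apply mul_le_mul_of_nonneg_left _ (by linarith)
        nlinarith
      nlinarith
    linarith

end CopAs

open CopAs ArithmeticFunction in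
/-- Moebius: `#cop = ∑_(k ≤ √Y, gcd(k, M) = 1) μ(k) #cop0 (b/k, b'/k, Y/k^2)` (a common divisor `k` of `r.1`, `r.2` is coprime to `M` as
`gcd(b, b', M) = 1`; `(k r.1, k r.2)` has the same quotient; class `k^{-1} b`). With `cop0_count`:
`#cop = (t - s)/(4 M^2) Y ∑_(k ≤ √Y, (k, M) = 1) μ(k)/k^2 + O(√Y ∑_(k ≤ √Y) 1/k)`, so the limit is `c (t - s)`,
`c = (1/(4 M^2)) ∑'_((k, M) = 1) μ(k)/k^2`, independent of `b, b'`. -/
theorem cop_asymp (M : ℕ) (hM : 0 < M) : ∃ c : ℝ, CopC M c := by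
  classical
  have hMr : (0 : ℝ) < M := by exact_mod_cast hM
  set a : ℕ → ℝ := fun k => if Nat.Coprime (k + 1) M then
    (moebius (k + 1) : ℝ) / ((k : ℝ) + 1) ^ 2 else 0 with ha
  have habs : ∀ k : ℕ, |(moebius (k + 1) : ℝ)| ≤ 1 := by
    intro k
    have := abs_moebius_le_one (n := k + 1)
    exact_mod_cast this
  have hsum : Summable a := by
    have h1 : Summable (fun k : ℕ => 1 / ((k : ℝ) + 1) ^ 2) := by
      have h2 := (summable_nat_add_iff 1).2
        (Real.summable_one_div_nat_pow.2 (one_lt_two : 1 < 2))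
      simpa using h2
    apply Summable.of_norm_bounded h1
    intro k
    rw [Real.norm_eq_abs]
    simp only [ha]
    split_ifs
    · rw [abs_div, abs_of_pos (by positivity : (0 : ℝ) < ((k : ℝ) + 1) ^ 2)]
      exact div_le_div_of_nonneg_right (habs k) (by positivity)
    · rw [abs_zero]; positivity
  refine ⟨1 / (4 * M ^ 2) * ∑' k, a k, ?_⟩
  intro b b' hbb s t hst
  obtain ⟨C, hC⟩ := cop0_count M hM s t hst
  have hC0 : 0 ≤ C := by
    have := (abs_nonneg _).trans (hC 0 0 1 le_rfl)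
    rwa [Real.sqrt_one, mul_one] at this
  -- the partial sums
  set K : ℝ → ℕ := fun Y => ⌊√Y⌋₊ with hK
  have hKtend : Tendsto K atTop atTop :=
    tendsto_nat_floor_atTop.comp Real.tendsto_sqrt_atTop
  have hmain : Tendsto (fun Y => (t - s) / (4 * M ^ 2) * ∑ k ∈ Finset.range (K Y), a k) atTop
      (nhds (1 / (4 * M ^ 2) * (∑' k, a k) * (t - s))) := by
    have h1 := (hsum.hasSum.tendsto_sum_nat.comp hKtend).const_mul ((t - s) / (4 * (M : ℝ) ^ 2))
    have e : (t - s) / (4 * (M : ℝ) ^ 2) * ∑' k, a k =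
        1 / (4 * M ^ 2) * (∑' k, a k) * (t - s) := by ring
    rw [e] at h1
    exact h1
  -- the error
  have herr : ∀ Y : ℝ, 1 ≤ Y → |((cop M b b' s t Y).ncard : ℝ) / Y -
      (t - s) / (4 * M ^ 2) * ∑ k ∈ Finset.range (K Y), a k| ≤ 2 * C / √√Y := by
    intro Y hY
    have hY0 : 0 < Y := by linarith
    have hsY : 1 ≤ √Y := Real.one_le_sqrt.2 hY
    have hsY2 : √Y ^ 2 = Y := Real.sq_sqrt hY0.le
    have hKY : ((K Y : ℕ) : ℝ) ≤ √Y := Nat.floor_le (by linarith)
    set F : Finset (ℤ × ℤ) := (finite0 M b b' s t Y).toFinset with hF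
    have hmemF : ∀ r, r ∈ F ↔ r ∈ cop0 M b b' s t Y := by
      intro r
      rw [hF, Set.Finite.mem_toFinset]
    have hcop : (cop M b b' s t Y) = ↑(F.filter fun r => IsCoprime r.1 r.2) := by
      ext r
      rw [Finset.mem_coe, Finset.mem_filter, hmemF]
      simp only [cop, cop0, Set.mem_ofPred_eq]
      tauto
    have hcount : ((cop M b b' s t Y).ncard : ℤ) = ∑ k ∈ Finset.range (K Y),
        (moebius (k + 1) : ℤ) *
          ((F.filter fun r => ((k + 1 : ℕ) : ℤ) ∣ r.1 ∧ ((k + 1 : ℕ) : ℤ) ∣ r.2).card : ℤ) := by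
      rw [hcop, Set.ncard_coe_finset, Finset.card_filter]
      push_cast
      have h1 : ∀ r ∈ F, (if IsCoprime r.1 r.2 then (1 : ℤ) else 0) =
          ∑ k ∈ Finset.range (K Y), (if ((k + 1 : ℕ) : ℤ) ∣ r.1 ∧ ((k + 1 : ℕ) : ℤ) ∣ r.2 then
            (moebius (k + 1) : ℤ) else 0) := by
        intro r hr
        rw [hmemF] at hr
        obtain ⟨h1, h2, h3, h4, h5, h6, h7⟩ := hr
        have hg : 0 < Int.gcd r.1 r.2 := Int.gcd_pos_of_ne_zero_left _ h1.ne'
        have hgK : Int.gcd r.1 r.2 ≤ K Y := by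
          apply Nat.le_floor
          apply Real.le_sqrt_of_sq_le
          have h8 : ((Int.gcd r.1 r.2 : ℕ) : ℤ) ≤ r.1 :=
            Int.le_of_dvd h1 (Int.gcd_dvd_left _ _)
          have h9 : ((Int.gcd r.1 r.2 : ℕ) : ℤ) ≤ r.2 :=
            Int.le_of_dvd h2 (Int.gcd_dvd_right _ _)
          have h10 : ((Int.gcd r.1 r.2 : ℕ) : ℤ) ^ 2 ≤ r.1 * r.2 := by
            have : (0 : ℤ) ≤ ((Int.gcd r.1 r.2 : ℕ) : ℤ) := by positivity
            nlinarith
          have h11 : (((Int.gcd r.1 r.2 : ℕ) : ℝ)) ^ 2 ≤ ((r.1 * r.2 : ℤ) : ℝ) := by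
            exact_mod_cast h10
          linarith
        have h12 := moebius_ind (Int.gcd r.1 r.2) hg (K Y) hgK
        have h13 : ∀ k ∈ Finset.range (K Y),
            (if ((k + 1 : ℕ) : ℤ) ∣ r.1 ∧ ((k + 1 : ℕ) : ℤ) ∣ r.2 then
              (moebius (k + 1) : ℤ) else 0) =
            (if (k + 1) ∣ Int.gcd r.1 r.2 then (moebius (k + 1) : ℤ) else 0) := by
          intro k _
          congr 1
          rw [← Int.natCast_dvd_natCast]
          exact propext ⟨fun h => Int.dvd_coe_gcd h.1 h.2,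
            fun h => ⟨h.trans (Int.gcd_dvd_left _ _), h.trans (Int.gcd_dvd_right _ _)⟩⟩
        rw [Finset.sum_congr rfl h13, h12]
        congr 1
        rw [Int.isCoprime_iff_gcd_eq_one]
      rw [Finset.sum_congr rfl h1, Finset.sum_comm]
      apply Finset.sum_congr rfl
      intro k _
      rw [← Finset.sum_filter, Finset.sum_const, nsmul_eq_mul, mul_comm]
      push_cast
      rfl
    have hcountR : ((cop M b b' s t Y).ncard : ℝ) = ∑ k ∈ Finset.range (K Y),
        (moebius (k + 1) : ℝ) *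
          ((F.filter fun r => ((k + 1 : ℕ) : ℤ) ∣ r.1 ∧ ((k + 1 : ℕ) : ℤ) ∣ r.2).card : ℝ) := by
      exact_mod_cast hcount
    have hdiv : ∀ k ∈ Finset.range (K Y),
        |((F.filter fun r => ((k + 1 : ℕ) : ℤ) ∣ r.1 ∧ ((k + 1 : ℕ) : ℤ) ∣ r.2).card : ℝ) -
          (if Nat.Coprime (k + 1) M then
            (t - s) / (4 * M ^ 2) * (Y / ((k + 1 : ℕ) : ℝ) ^ 2) else 0)| ≤
          C * (√Y / ((k + 1 : ℕ) : ℝ)) := by
      intro k hk
      have hkK : ((k + 1 : ℕ) : ℝ) ≤ √Y := by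
        have : k + 1 ≤ K Y := Finset.mem_range.1 hk
        exact le_trans (by exact_mod_cast this) hKY
      have h2 : (((k + 1 : ℕ) : ℝ)) ^ 2 ≤ Y := by
        rw [← hsY2]
        exact pow_le_pow_left₀ (by positivity) hkK 2
      have h3 := divisible M hM b b' hbb s t C hC Y (k + 1) (Nat.succ_pos k) h2
      have h4 : {r | r ∈ cop0 M b b' s t Y ∧ ((k + 1 : ℕ) : ℤ) ∣ r.1 ∧
          ((k + 1 : ℕ) : ℤ) ∣ r.2} =
          ↑(F.filter fun r => ((k + 1 : ℕ) : ℤ) ∣ r.1 ∧ ((k + 1 : ℕ) : ℤ) ∣ r.2) := by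
        ext r
        rw [Finset.mem_coe, Finset.mem_filter, hmemF]
        rfl
      rw [h4, Set.ncard_coe_finset] at h3
      exact h3
    have e1 : ((cop M b b' s t Y).ncard : ℝ) / Y -
        (t - s) / (4 * M ^ 2) * ∑ k ∈ Finset.range (K Y), a k =
        (∑ k ∈ Finset.range (K Y), (moebius (k + 1) : ℝ) *
          (((F.filter fun r => ((k + 1 : ℕ) : ℤ) ∣ r.1 ∧ ((k + 1 : ℕ) : ℤ) ∣ r.2).card : ℝ) -
          (if Nat.Coprime (k + 1) M then
            (t - s) / (4 * M ^ 2) * (Y / ((k + 1 : ℕ) : ℝ) ^ 2) else 0))) / Y := by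
      rw [hcountR, eq_div_iff hY0.ne', sub_mul, div_mul_cancel₀ _ hY0.ne']
      simp only [mul_sub]
      rw [Finset.sum_sub_distrib]
      congr 1
      rw [Finset.mul_sum, Finset.sum_mul]
      apply Finset.sum_congr rfl
      intro k _
      simp only [ha]
      split_ifs
      · push_cast
        ring
      · ring
    rw [e1, abs_div, abs_of_pos hY0, div_le_iff₀ hY0]
    calc |∑ k ∈ Finset.range (K Y), (moebius (k + 1) : ℝ) *
          (((F.filter fun r => ((k + 1 : ℕ) : ℤ) ∣ r.1 ∧ ((k + 1 : ℕ) : ℤ) ∣ r.2).card : ℝ) -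
          (if Nat.Coprime (k + 1) M then
            (t - s) / (4 * M ^ 2) * (Y / ((k + 1 : ℕ) : ℝ) ^ 2) else 0))|
        ≤ ∑ k ∈ Finset.range (K Y), C * (√Y / ((k + 1 : ℕ) : ℝ)) := by
          refine (Finset.abs_sum_le_sum_abs _ _).trans (Finset.sum_le_sum fun k hk => ?_)
          rw [abs_mul]
          calc _ ≤ 1 * _ := mul_le_mul_of_nonneg_right (habs k) (abs_nonneg _)
            _ ≤ _ := by rw [one_mul]; exact hdiv k hk
      _ = C * √Y * ∑ k ∈ Finset.range (K Y), 1 / ((k : ℝ) + 1) := by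
          rw [Finset.mul_sum]
          apply Finset.sum_congr rfl
          intro k _
          push_cast
          ring
      _ ≤ C * √Y * (2 * √√Y) := by
          apply mul_le_mul_of_nonneg_left _ (by positivity)
          exact (sum_inv_le (K Y)).trans
            (mul_le_mul_of_nonneg_left (Real.sqrt_le_sqrt hKY) (by norm_num))
      _ = 2 * C / √√Y * Y := by
          have h5 : √√Y ^ 2 = √Y := Real.sq_sqrt (Real.sqrt_nonneg _)
          have h6 : 0 < √√Y := Real.sqrt_pos.2 (by linarith)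
          rw [div_mul_eq_mul_div, eq_div_iff h6.ne']
          calc C * √Y * (2 * √√Y) * √√Y = 2 * C * √Y * √√Y ^ 2 := by ring
            _ = 2 * C * √Y ^ 2 := by rw [h5]; ring
            _ = 2 * C * Y := by rw [hsY2]
  have hdiff : Tendsto (fun Y => ((cop M b b' s t Y).ncard : ℝ) / Y -
      (t - s) / (4 * M ^ 2) * ∑ k ∈ Finset.range (K Y), a k) atTop (nhds 0) := by
    apply squeeze_zero_norm' (a := fun Y : ℝ => 2 * C / √√Y)
    · filter_upwards [Filter.eventually_ge_atTop (1 : ℝ)] with Y hY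
      rw [Real.norm_eq_abs]
      exact herr Y hY
    · exact Filter.Tendsto.const_div_atTop
        (Real.tendsto_sqrt_atTop.comp Real.tendsto_sqrt_atTop) _
  have := hdiff.add hmain
  rw [zero_add] at this
  refine this.congr fun Y => ?_
  ring

/-- `c ≥ 0`: limit of nonnegative numbers -/
theorem copC_nonneg (M : ℕ) (c : ℝ) (hc : CopC M c) : 0 ≤ c := by
  have h := hc 1 1 (by simp) 0 1 zero_le_one
  have h1 : c * (1 - 0) = c := by ring
  rw [h1] at h
  apply ge_of_tendsto h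
  filter_upwards [Filter.eventually_gt_atTop (0 : ℝ)] with Y hY
  positivity

end Pool.Agent.OmAll
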