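import Pool.Agent.Lib_MP_f1a94e_aq.Defs

/-!
# Piece COVER: covering a cone by arcs
-/

set_option autoImplicit false

namespace Pool.Agent.OmAll

open Finset Pool.Agent.GaussMR

theorem Fr.swap {u v : G} (h : Fr u v) : Fr v u := by
  obtain ⟨h1, h2, h3, h4, h5⟩ := h
  refine ⟨?_, h4, h5, h2, h3⟩
  rw [det_comm, abs_neg]
  exact h1

theorem ll_pos {u v : G} (h : Fr u v) : 0 < ll u := by
  obtain ⟨h1, h2, h3, h4, h5⟩ := h
  unfold ll
  by_contra hc
  have h6 : u.re = 0 := by omega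
  have h7 : u.im = 0 := by omega
  unfold det at h1
  rw [h6, h7] at h1
  simp at h1

/-- the covering statement with a given bound (auxiliary) -/
def CovB (M S0 : ℕ) (δ : ℝ) (u v : G) : Prop :=
    ∃ (A : Finset (G × G × ℕ)) (L : Finset (G × G)),
      (∀ a ∈ A, Fr a.1 a.2.1 ∧ S0 ≤ a.2.2 ∧ arc a.1 a.2.1 a.2.2 M ⊆ cone0 u v) ∧
      (∀ a ∈ A, ∀ a' ∈ A, a ≠ a' → Disjoint (arc a.1 a.2.1 a.2.2 M) (arc a'.1 a'.2.1 a'.2.2 M)) ∧
      (∀ l ∈ L, Fr l.1 l.2) ∧
      (∀ V ∈ cone u v, (∃ a ∈ A, V ∈ arc a.1 a.2.1 a.2.2 M) ∨ ∃ l ∈ L, V ∈ cone l.1 l.2) ∧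
      ∑ l ∈ L, 1 / ((ll l.1 : ℝ) * ll l.2) ≤ δ

theorem CovB.mono {M S0 : ℕ} {δ δ' : ℝ} {u v : G} (h : CovB M S0 δ u v) (hd : δ ≤ δ') :
    CovB M S0 δ' u v := by
  obtain ⟨A, L, h1, h2, h3, h4, h5⟩ := h
  exact ⟨A, L, h1, h2, h3, h4, h5.trans hd⟩

theorem cone_swap (u v : G) : cone u v = cone v u := by
  ext z
  constructor
  · rintro ⟨α, β, rfl, h1, h2⟩
    exact ⟨β, α, add_comm _ _, h2, h1⟩
  · rintro ⟨α, β, rfl, h1, h2⟩
    exact ⟨β, α, add_comm _ _, h2, h1⟩

theorem cone0_swap (u v : G) : cone0 u v = cone0 v u := by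
  ext z
  constructor
  · rintro ⟨α, β, rfl, h1, h2⟩
    exact ⟨β, α, add_comm _ _, h2, h1⟩
  · rintro ⟨α, β, rfl, h1, h2⟩
    exact ⟨β, α, add_comm _ _, h2, h1⟩

theorem CovB.swap {M S0 : ℕ} {δ : ℝ} {u v : G} (h : CovB M S0 δ u v) :
    CovB M S0 δ v u := by
  unfold CovB at h ⊢
  rw [cone_swap v u, cone0_swap v u]
  exact h

theorem coord_unique {u v : G} (h : |det u v| = 1) {α β α' β' : ℤ}
    (he : (α : G) * u + (β : G) * v = (α' : G) * u + (β' : G) * v) : α = α' ∧ β = β' := by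
  have hne : det u v ≠ 0 := by
    intro h0
    rw [h0] at h
    simp at h
  have hre := congrArg Zsqrtd.re he
  have him := congrArg Zsqrtd.im he
  simp at hre him
  unfold det at hne
  constructor
  · have h1 : (α - α') * (u.re * v.im - u.im * v.re) = 0 := by linear_combination v.im * hre - v.re * him
    rcases mul_eq_zero.1 h1 with h2 | h2
    · omega
    · exact absurd h2 hne
  · have h1 : (β - β') * (u.re * v.im - u.im * v.re) = 0 := by linear_combination u.re * him - u.im * hre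
    rcases mul_eq_zero.1 h1 with h2 | h2
    · omega
    · exact absurd h2 hne

theorem Fr.tail {u v : G} (h : Fr u v) (K : ℕ) : Fr u (v + (K : ℤ) * u) := by
  obtain ⟨h1, h2, h3, h4, h5⟩ := h
  refine ⟨?_, h2, h3, ?_, ?_⟩
  · refine Eq.trans ?_ h1
    congr 1
    unfold det
    simp
    ring
  · simp
    positivity
  · simp
    positivity

theorem Fr.small {u v : G} (h : Fr u v) (j : ℕ) :
    Fr (v + ((j + 1 : ℕ) : ℤ) * u) (v + (j : ℤ) * u) := by
  obtain ⟨h1, h2, h3, h4, h5⟩ := h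
  refine ⟨?_, ?_, ?_, ?_, ?_⟩
  · refine Eq.trans ?_ h1
    congr 1
    unfold det
    simp
    ring
  · simp
    positivity
  · simp
    positivity
  · simp
    positivity
  · simp
    positivity

theorem small_coord (u v : G) (j : ℕ) (a b : ℤ) :
    (a : G) * (v + ((j + 1 : ℕ) : ℤ) * u) + (b : G) * (v + (j : ℤ) * u) =
      ((a * (j + 1) + b * j : ℤ) : G) * u + ((a + b : ℤ) : G) * v := by
  push_cast
  ring

theorem sum_biUnion_le' {ι κ : Type*} [DecidableEq ι] [DecidableEq κ] (s : Finset ι) (t : ι → Finset κ) (f : κ → ℝ)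
    (hf : ∀ i ∈ s, ∀ l ∈ t i, 0 ≤ f l) : ∑ l ∈ s.biUnion t, f l ≤ ∑ i ∈ s, ∑ l ∈ t i, f l := by
  induction s using Finset.induction_on with
  | empty => simp
  | insert a s ha ih =>
    rw [biUnion_insert, sum_insert ha]
    have h1 := Finset.sum_union_inter (s₁ := t a) (s₂ := s.biUnion t) (f := f)
    have h2 : 0 ≤ ∑ l ∈ t a ∩ s.biUnion t, f l := by
      apply Finset.sum_nonneg
      intro l hl
      exact hf a (mem_insert_self _ _) l (mem_inter.1 hl).1
    have h3 := ih (fun i hi l hl => hf i (mem_insert_of_mem hi) l hl)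
    linarith

theorem cov_step (M S0 : ℕ) (hM : 0 < M) (hS0 : 2 ≤ S0) (δ : ℕ → ℝ) (N : ℕ) (u v : G) (huv : Fr u v)
    (h : ∀ j < S0, CovB M S0 (δ j) (v + ((j + 1 : ℕ) : ℤ) * u) (v + (j : ℤ) * u)) :
    CovB M S0 (1 / ((ll u : ℝ) * ll (v + ((S0 + N * M : ℕ) : ℤ) * u)) + ∑ j ∈ range S0, δ j) u v := by
  classical
  choose! A L h1 h2 h3 h4 h5 using h
  have hu := huv.1
  -- the small arcs lie in sectors
  have hsec : ∀ j < S0, ∀ a ∈ A j, ∀ z ∈ arc a.1 a.2.1 a.2.2 M, ∃ α β : ℤ,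
      z = (α : G) * u + (β : G) * v ∧ 0 < β ∧ (j : ℤ) * β < α ∧ α < ((j : ℤ) + 1) * β := by
    intro j hj a ha z hz
    obtain ⟨α, β, rfl, hα, hβ⟩ := (h1 j hj a ha).2.2 hz
    refine ⟨α * (j + 1) + β * j, α + β, small_coord u v j α β, by omega, ?_, ?_⟩
    · nlinarith
    · nlinarith
  have harc : ∀ l : ℕ, ∀ z ∈ arc u v (S0 + l * M) M, ∃ α β : ℤ,
      z = (α : G) * u + (β : G) * v ∧ 0 < β ∧ ((S0 + l * M : ℕ) : ℤ) * β ≤ α ∧
        α < (((S0 + l * M : ℕ) : ℤ) + M) * β := by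
    rintro l z ⟨α, β, h⟩
    exact ⟨α, β, h⟩
  refine ⟨(range N).image (fun l => (u, v, S0 + l * M)) ∪ (range S0).biUnion A,
    {(u, v + ((S0 + N * M : ℕ) : ℤ) * u)} ∪ (range S0).biUnion L, ?_, ?_, ?_, ?_, ?_⟩
  · intro a ha
    rcases mem_union.1 ha with ha | ha
    · obtain ⟨l, hl, rfl⟩ := mem_image.1 ha
      refine ⟨huv, Nat.le_add_right _ _, ?_⟩
      intro z hz
      obtain ⟨α, β, hz, hβ, hα, -⟩ := harc l z hz
      refine ⟨α, β, hz, ?_, hβ⟩
      have : 0 < ((S0 + l * M : ℕ) : ℤ) * β := by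
        apply mul_pos _ hβ
        push_cast
        positivity
      omega
    · obtain ⟨j, hj, ha⟩ := mem_biUnion.1 ha
      have hj' := mem_range.1 hj
      refine ⟨(h1 j hj' a ha).1, (h1 j hj' a ha).2.1, ?_⟩
      intro z hz
      obtain ⟨α, β, hz, hβ, hα, -⟩ := hsec j hj' a ha z hz
      refine ⟨α, β, hz, ?_, hβ⟩
      have : 0 ≤ (j : ℤ) * β := by positivity
      omega
  · intro a ha a' ha' hne
    rw [Set.disjoint_left]
    intro z hz hz'
    rcases mem_union.1 ha with ha | ha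
    · obtain ⟨l, hl, rfl⟩ := mem_image.1 ha
      obtain ⟨α, β, hz1, hβ, hα1, hα2⟩ := harc l z hz
      rcases mem_union.1 ha' with ha' | ha'
      · obtain ⟨l', hl', rfl⟩ := mem_image.1 ha'
        obtain ⟨α', β', hz1', hβ', hα1', hα2'⟩ := harc l' z hz'
        obtain ⟨rfl, rfl⟩ := coord_unique hu (hz1.symm.trans hz1')
        rcases lt_trichotomy l l' with hll | hll | hll
        · have h6 : (((S0 + l * M : ℕ) : ℤ) + M) ≤ ((S0 + l' * M : ℕ) : ℤ) := by
            have : S0 + l * M + M ≤ S0 + l' * M := by nlinarith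
            exact_mod_cast this
          nlinarith
        · exact hne (by rw [hll])
        · have h6 : (((S0 + l' * M : ℕ) : ℤ) + M) ≤ ((S0 + l * M : ℕ) : ℤ) := by
            have : S0 + l' * M + M ≤ S0 + l * M := by nlinarith
            exact_mod_cast this
          nlinarith
      · obtain ⟨j, hj, ha'⟩ := mem_biUnion.1 ha'
        obtain ⟨α', β', hz1', hβ', hα1', hα2'⟩ := hsec j (mem_range.1 hj) a' ha' z hz'
        obtain ⟨rfl, rfl⟩ := coord_unique hu (hz1.symm.trans hz1')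
        have h6 : ((j : ℤ) + 1) ≤ ((S0 + l * M : ℕ) : ℤ) := by
          have h7 := mem_range.1 hj
          have h8 : 0 ≤ l * M := Nat.zero_le _
          push_cast
          have h9 : (0 : ℤ) ≤ (l : ℤ) * M := by positivity
          omega
        nlinarith
    · obtain ⟨j, hj, ha⟩ := mem_biUnion.1 ha
      obtain ⟨α, β, hz1, hβ, hα1, hα2⟩ := hsec j (mem_range.1 hj) a ha z hz
      rcases mem_union.1 ha' with ha' | ha'
      · obtain ⟨l', hl', rfl⟩ := mem_image.1 ha'
        obtain ⟨α', β', hz1', hβ', hα1', hα2'⟩ := harc l' z hz'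
        obtain ⟨rfl, rfl⟩ := coord_unique hu (hz1.symm.trans hz1')
        have h6 : ((j : ℤ) + 1) ≤ ((S0 + l' * M : ℕ) : ℤ) := by
          have h7 := mem_range.1 hj
          push_cast
          have h9 : (0 : ℤ) ≤ (l' : ℤ) * M := by positivity
          omega
        nlinarith
      · obtain ⟨j', hj', ha'⟩ := mem_biUnion.1 ha'
        obtain ⟨α', β', hz1', hβ', hα1', hα2'⟩ := hsec j' (mem_range.1 hj') a' ha' z hz'
        obtain ⟨rfl, rfl⟩ := coord_unique hu (hz1.symm.trans hz1')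
        rcases lt_trichotomy j j' with hll | hll | hll
        · have h6 : (j : ℤ) + 1 ≤ (j' : ℤ) := by omega
          nlinarith
        · subst hll
          exact Set.disjoint_left.1 (h2 j (mem_range.1 hj) a ha a' ha' hne) hz hz'
        · have h6 : (j' : ℤ) + 1 ≤ (j : ℤ) := by omega
          nlinarith
  · intro l hl
    rcases mem_union.1 hl with hl | hl
    · rw [mem_singleton.1 hl]
      exact huv.tail _
    · obtain ⟨j, hj, hl⟩ := mem_biUnion.1 hl
      exact h3 j (mem_range.1 hj) l hl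
  · rintro V ⟨α, β, rfl, hα, hβ⟩
    rcases hβ.eq_or_lt with hβ0 | hβ0
    · right
      refine ⟨_, mem_union_left _ (mem_singleton_self _), α, 0, ?_, hα, le_rfl⟩
      rw [← hβ0]
      simp
    by_cases hc1 : ((S0 + N * M : ℕ) : ℤ) * β ≤ α
    · right
      refine ⟨_, mem_union_left _ (mem_singleton_self _), α - ((S0 + N * M : ℕ) : ℤ) * β, β, ?_, by omega, hβ⟩
      push_cast
      ring
    push Not at hc1
    by_cases hc2 : (S0 : ℤ) * β ≤ α
    · left
      -- floor of α / β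
      obtain ⟨q, hq1, hq2⟩ : ∃ q : ℤ, q * β ≤ α ∧ α < (q + 1) * β := by
        refine ⟨α / β, Int.ediv_mul_le _ hβ0.ne', ?_⟩
        exact Int.lt_ediv_add_one_mul_self _ hβ0
      have hq3 : (S0 : ℤ) ≤ q := by
        by_contra hcc
        push Not at hcc
        have : q + 1 ≤ S0 := by omega
        nlinarith
      have hq4 : q < (S0 : ℤ) + N * M := by
        by_contra hcc
        push Not at hcc
        push_cast at hc1
        nlinarith
      obtain ⟨r, rfl⟩ : ∃ r : ℕ, q = (S0 : ℤ) + r := ⟨(q - S0).toNat, by omega⟩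
      have hr : r < N * M := by
        have : (r : ℤ) < N * M := by omega
        exact_mod_cast this
      refine ⟨(u, v, S0 + (r / M) * M), mem_union_left _ (mem_image.2 ⟨r / M, ?_, rfl⟩), α, β, rfl, hβ0, ?_, ?_⟩
      · rw [mem_range]
        exact (Nat.div_lt_iff_lt_mul hM).2 hr
      · have h6 : ((S0 + (r / M) * M : ℕ) : ℤ) ≤ (S0 : ℤ) + r := by
          have h7 : (r / M) * M ≤ r := Nat.div_mul_le_self _ _
          have : S0 + (r / M) * M ≤ S0 + r := by omega
          exact_mod_cast this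
        show ((S0 + (r / M) * M : ℕ) : ℤ) * β ≤ α
        nlinarith
      · have h6 : (S0 : ℤ) + r + 1 ≤ ((S0 + (r / M) * M : ℕ) : ℤ) + M := by
          have h7 : r < (r / M) * M + M := Nat.lt_div_mul_add hM
          have : S0 + r + 1 ≤ S0 + (r / M) * M + M := by omega
          exact_mod_cast this
        show α < (((S0 + (r / M) * M : ℕ) : ℤ) + M) * β
        nlinarith
    · push Not at hc2
      obtain ⟨q, hq1, hq2⟩ : ∃ q : ℤ, q * β ≤ α ∧ α < (q + 1) * β := by
        refine ⟨α / β, Int.ediv_mul_le _ hβ0.ne', ?_⟩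
        exact Int.lt_ediv_add_one_mul_self _ hβ0
      have hq3 : 0 ≤ q := by
        by_contra hcc
        push Not at hcc
        have : q + 1 ≤ 0 := by omega
        nlinarith
      obtain ⟨j, rfl⟩ : ∃ j : ℕ, q = (j : ℤ) := ⟨q.toNat, by omega⟩
      have hj : j < S0 := by
        by_contra hcc
        push Not at hcc
        have : (S0 : ℤ) ≤ j := by exact_mod_cast hcc
        nlinarith
      have hV : (α : G) * u + (β : G) * v ∈ cone (v + ((j + 1 : ℕ) : ℤ) * u) (v + (j : ℤ) * u) := by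
        refine ⟨α - j * β, (j + 1) * β - α, ?_, by omega, by omega⟩
        rw [small_coord]
        congr 2
        · congr 1
          ring
        · congr 1
          ring
      rcases h4 j hj _ hV with ⟨a, ha, haV⟩ | ⟨l, hl, hlV⟩
      · left
        exact ⟨a, mem_union_right _ (mem_biUnion.2 ⟨j, mem_range.2 hj, ha⟩), haV⟩
      · right
        exact ⟨l, mem_union_right _ (mem_biUnion.2 ⟨j, mem_range.2 hj, hl⟩), hlV⟩
  · have hpos : ∀ l : G × G, Fr l.1 l.2 → 0 ≤ 1 / ((ll l.1 : ℝ) * ll l.2) := by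
      intro l hl
      have h6 : (0 : ℝ) < ll l.1 := by exact_mod_cast ll_pos hl
      have h7 : (0 : ℝ) < ll l.2 := by exact_mod_cast ll_pos hl.swap
      positivity
    have h6 := Finset.sum_union_inter (s₁ := {(u, v + ((S0 + N * M : ℕ) : ℤ) * u)}) (s₂ := (range S0).biUnion L)
      (f := fun l : G × G => 1 / ((ll l.1 : ℝ) * ll l.2))
    have h7 : 0 ≤ ∑ l ∈ {(u, v + ((S0 + N * M : ℕ) : ℤ) * u)} ∩ (range S0).biUnion L,
        1 / ((ll l.1 : ℝ) * ll l.2) := by
      apply Finset.sum_nonneg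
      intro l hl
      apply hpos
      rw [mem_singleton.1 (mem_inter.1 hl).1]
      exact huv.tail _
    have h8 := sum_biUnion_le' (range S0) L (fun l : G × G => 1 / ((ll l.1 : ℝ) * ll l.2))
      (fun i hi l hl => hpos l (h3 i (mem_range.1 hi) l hl))
    have h9 : ∑ i ∈ range S0, ∑ l ∈ L i, 1 / ((ll l.1 : ℝ) * ll l.2) ≤ ∑ i ∈ range S0, δ i :=
      Finset.sum_le_sum (fun i hi => h5 i (mem_range.1 hi))
    rw [Finset.sum_singleton] at h6
    simp only at h6 h8
    linarith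

theorem tele (a y : ℝ) (ha : 0 < a) (hy : 0 < y) (n : ℕ) :
    ∑ j ∈ range n, 1 / ((y + (j + 1) * a) * (y + j * a)) = n / (y * (y + n * a)) := by
  induction n with
  | zero => simp
  | succ n ih =>
    rw [sum_range_succ, ih]
    have h1 : 0 < y + n * a := by positivity
    have h2 : 0 < y + (n + 1) * a := by positivity
    push_cast
    field_simp
    ring

theorem ll_add_mul (u v : G) (K : ℕ) : ll (v + (K : ℤ) * u) = ll v + K * ll u := by
  unfold ll
  simp
  ring

theorem cov_pow (M S0 : ℕ) (hM : 0 < M) (hS0 : 2 ≤ S0) (k : ℕ) : ∀ u v : G, Fr u v →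
    CovB M S0 (((2 * (S0 : ℝ) + 1) / (2 * S0 + 2)) ^ k * (1 / ((ll u : ℝ) * ll v))) u v := by
  induction k with
  | zero =>
    intro u v huv
    refine ⟨∅, {(u, v)}, by simp, by simp, ?_, ?_, ?_⟩
    · intro l hl
      rw [mem_singleton.1 hl]
      exact huv
    · intro V hV
      right
      exact ⟨(u, v), mem_singleton_self _, hV⟩
    · simp
  | succ k ih =>
    have key : ∀ u v : G, Fr u v → ll u ≤ ll v →
        CovB M S0 (((2 * (S0 : ℝ) + 1) / (2 * S0 + 2)) ^ (k + 1) * (1 / ((ll u : ℝ) * ll v))) u v := by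
      intro u v huv hle
      have ha : (1 : ℝ) ≤ ll u := by exact_mod_cast ll_pos huv
      have hy : (0 : ℝ) < ll v := by exact_mod_cast ll_pos huv.swap
      have hle' : (ll u : ℝ) ≤ ll v := by exact_mod_cast hle
      have hS : (2 : ℝ) ≤ S0 := by exact_mod_cast hS0
      set ρ : ℝ := (2 * (S0 : ℝ) + 1) / (2 * S0 + 2) with hρ
      have hρ0 : 0 < ρ := by positivity
      set Λ : ℝ := 1 / ((ll u : ℝ) * ll v) with hΛ
      have ha0 : (0 : ℝ) < ll u := by linarith
      have hΛ0 : 0 < Λ := by positivity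
      have hε : 0 < ρ ^ k * Λ / (2 * S0 + 2) := by positivity
      obtain ⟨N, hN⟩ := exists_nat_gt (1 / (ρ ^ k * Λ / (2 * S0 + 2)))
      have hstep := cov_step M S0 hM hS0
        (fun j => ρ ^ k * (1 / ((ll (v + ((j + 1 : ℕ) : ℤ) * u) : ℝ) * ll (v + (j : ℤ) * u)))) N u v huv
        (fun j hj => ih _ _ (huv.small j))
      refine hstep.mono ?_
      have h1 : ∑ j ∈ range S0, ρ ^ k * (1 / ((ll (v + ((j + 1 : ℕ) : ℤ) * u) : ℝ) * ll (v + (j : ℤ) * u))) =
          ρ ^ k * (S0 / (ll v * (ll v + S0 * ll u))) := by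
        rw [← Finset.mul_sum, ← tele (ll u : ℝ) (ll v : ℝ) ha0 hy S0]
        congr 1
        apply Finset.sum_congr rfl
        intro j hj
        have e1 : (ll (v + ((j + 1 : ℕ) : ℤ) * u) : ℝ) = ll v + (j + 1) * ll u := by
          have := ll_add_mul u v (j + 1)
          rw [this]
          push_cast
          ring
        have e2 : (ll (v + (j : ℤ) * u) : ℝ) = ll v + j * ll u := by
          have := ll_add_mul u v j
          rw [this]
          push_cast
          ring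
        rw [e1, e2]
      rw [h1]
      have h2 : (S0 : ℝ) / (ll v * (ll v + S0 * ll u)) ≤ S0 / (S0 + 1) * Λ := by
        rw [hΛ, div_mul_div_comm, mul_one]
        apply div_le_div_of_nonneg_left (by positivity) (by positivity)
        nlinarith
      have h3 : 1 / ((ll u : ℝ) * ll (v + ((S0 + N * M : ℕ) : ℤ) * u)) ≤ ρ ^ k * Λ / (2 * S0 + 2) := by
        have e1 : (ll (v + ((S0 + N * M : ℕ) : ℤ) * u) : ℝ) = ll v + (S0 + N * M) * ll u := by
          have := ll_add_mul u v (S0 + N * M)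
          rw [this]
          push_cast
          ring
        rw [e1]
        have hM1 : (1 : ℝ) ≤ M := by exact_mod_cast hM
        have hN0 : (0 : ℝ) ≤ N := by positivity
        have h4 : (N : ℝ) ≤ (ll u : ℝ) * (ll v + (S0 + N * M) * ll u) := by
          have h5 : (N : ℝ) ≤ N * M := by nlinarith
          have h6 : (N : ℝ) * M ≤ (N * M) * ll u := by
            have : (0 : ℝ) ≤ N * M := by positivity
            nlinarith
          have h7 : (N : ℝ) * M * ll u ≤ ll v + (S0 + N * M) * ll u := by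
            have : 0 ≤ (S0 : ℝ) * ll u := by positivity
            nlinarith
          have h8 : 0 ≤ (ll v : ℝ) + (S0 + N * M) * ll u := by positivity
          nlinarith
        have hNpos : 0 < (N : ℝ) := lt_trans (by positivity) hN
        calc 1 / ((ll u : ℝ) * (ll v + (S0 + N * M) * ll u)) ≤ 1 / N :=
              one_div_le_one_div_of_le hNpos h4
          _ ≤ ρ ^ k * Λ / (2 * S0 + 2) := by
              rw [one_div_le hNpos hε]
              exact hN.le
      have h4 : ρ ^ (k + 1) * Λ = ρ ^ k * Λ / (2 * S0 + 2) + ρ ^ k * (S0 / (S0 + 1) * Λ) := by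
        rw [pow_succ, hρ]
        have h5 : (2 * (S0 : ℝ) + 1) / (2 * S0 + 2) = 1 / (2 * S0 + 2) + S0 / (S0 + 1) := by
          field_simp
          ring
        rw [← hρ]
        calc ρ ^ k * ρ * Λ = ρ ^ k * Λ * ρ := by ring
          _ = ρ ^ k * Λ * (1 / (2 * S0 + 2) + S0 / (S0 + 1)) := by rw [← h5]
          _ = _ := by ring
      rw [h4]
      have h5 : ρ ^ k * (S0 / (ll v * (ll v + S0 * ll u))) ≤ ρ ^ k * (S0 / (S0 + 1) * Λ) :=
        mul_le_mul_of_nonneg_left h2 (by positivity)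
      linarith
    intro u v huv
    rcases le_total (ll u) (ll v) with h | h
    · exact key u v huv h
    · have := (key v u huv.swap h).swap
      rwa [mul_comm (ll v : ℝ) (ll u : ℝ)] at this

/-- By induction on `k`: for every frame the statement with the bound `ρ^k / (ll u * ll v)`, `ρ = (2 S0 + 1) / (2 S0 + 2) < 1`, in place of `δ`;
then choose `k`. `k = 0`: no arcs, `L = {(u, v)}`. Step: assume `ll u ≤ ll v` (otherwise exchange `u`, `v`: `cone`, `cone0` are symmetric).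
The closed cone is the union of: the arcs `arc u v (S0 + l M) M`, `l < L`; the tail cone `cone u (v + (S0 + L M) u)`; the cones
`cone (v + (j+1) u) (v + j u)`, `j < S0` (`V = α u + β v`; if `β = 0` or `α ≥ (S0 + L M) β` tail; if `S0 β ≤ α` an arc; otherwise `j = ⌊α/β⌋`).
All are frames. Apply the induction hypothesis to the `S0` small cones, their arcs lie in the open cones `{j β < α < (j + 1) β}`, disjoint from each
other and from the arcs of this step. With `Λ(u, v) = 1 / (ll u * ll v)`: `∑_j Λ(v + (j+1) u, v + j u) = Λ(u, v) - Λ(u, v + S0 u) ≤ (S0/(S0+1)) Λ(u, v)`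
(telescoping: `1/((y + j a)(y + (j+1) a)) = (1/a)(1/(y + j a) - 1/(y + (j+1) a))`, and `a = ll u ≤ y = ll v`), and the tail has
`Λ ≤ 1 / (a (S0 + L M) a)`, which is `≤ ρ^k Λ(u, v) / (2 S0 + 2)` for `L` large. -/
theorem cover (M S0 : ℕ) (hM : 0 < M) (hS0 : 2 ≤ S0) (δ : ℝ) (hδ : 0 < δ) (u v : G) (huv : Fr u v) :
    ∃ (A : Finset (G × G × ℕ)) (L : Finset (G × G)),
      (∀ a ∈ A, Fr a.1 a.2.1 ∧ S0 ≤ a.2.2 ∧ arc a.1 a.2.1 a.2.2 M ⊆ cone0 u v) ∧
      (∀ a ∈ A, ∀ a' ∈ A, a ≠ a' → Disjoint (arc a.1 a.2.1 a.2.2 M) (arc a'.1 a'.2.1 a'.2.2 M)) ∧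
      (∀ l ∈ L, Fr l.1 l.2) ∧
      (∀ V ∈ cone u v, (∃ a ∈ A, V ∈ arc a.1 a.2.1 a.2.2 M) ∨ ∃ l ∈ L, V ∈ cone l.1 l.2) ∧
      ∑ l ∈ L, 1 / ((ll l.1 : ℝ) * ll l.2) ≤ δ := by
  have ha : (0 : ℝ) < ll u := by exact_mod_cast ll_pos huv
  have hy : (0 : ℝ) < ll v := by exact_mod_cast ll_pos huv.swap
  have hρ1 : (2 * (S0 : ℝ) + 1) / (2 * S0 + 2) < 1 := by
    rw [div_lt_one (by positivity)]
    linarith
  have hρ0 : 0 < (2 * (S0 : ℝ) + 1) / (2 * S0 + 2) := by positivity
  obtain ⟨k, hk⟩ := exists_pow_lt_of_lt_one (show 0 < δ * ((ll u : ℝ) * ll v) by positivity) hρ1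
  have h := (cov_pow M S0 hM hS0 k u v huv).mono (δ' := δ) (by
    rw [mul_one_div, div_le_iff₀ (by positivity)]
    exact hk.le)
  exact h

end Pool.Agent.OmAll
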