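import Pool.Agent.Lib_MP_f1a94e_aq.Gap

/-!
# Piece POINT: pointwise bound for the multiplier
-/

set_option autoImplicit false

namespace Pool.Agent.OmQ

open Finset LibLS

namespace PointAux

theorem e_re (x : ℝ) : (e x).re = Real.cos (2 * Real.pi * x) := by
  unfold e
  rw [mul_comm, Complex.exp_ofReal_mul_I_re]

theorem e_im (x : ℝ) : (e x).im = Real.sin (2 * Real.pi * x) := by
  unfold e
  rw [mul_comm, Complex.exp_ofReal_mul_I_im]

theorem e_sub_one (x : ℝ) : ‖e x - 1‖ ≤ 2 * Real.pi * |x| := by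
  refine (norm_e_sub_one_le x).trans ?_
  have h := nrm_le x 0
  rw [Int.cast_zero, sub_zero] at h
  exact mul_le_mul_of_nonneg_left h (by positivity)

theorem quarter {u : ℂ} (h4 : u ^ 4 = 1) (h1 : u ≠ 1) :
    u = -1 ∨ u = Complex.I ∨ u = -Complex.I := by
  have h : (u - 1) * ((u + 1) * ((u - Complex.I) * (u + Complex.I))) = 0 := by
    linear_combination h4 - (u ^ 2 - 1) * Complex.I_sq
  rcases mul_eq_zero.1 h with h2 | h2
  · exact absurd (sub_eq_zero.1 h2) h1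
  rcases mul_eq_zero.1 h2 with h3 | h3
  · exact Or.inl (eq_neg_of_add_eq_zero_left h3)
  rcases mul_eq_zero.1 h3 with h5 | h5
  · exact Or.inr (Or.inl (sub_eq_zero.1 h5))
  · exact Or.inr (Or.inr (eq_neg_of_add_eq_zero_left h5))

theorem re_small {u : ℂ} (hu : u = -1 ∨ u = Complex.I ∨ u = -Complex.I) {x : ℝ}
    (hx : 2 * Real.pi * |x| ≤ 1 / 2) : (u * e x).re ≤ 1 / 2 := by
  have hx' : |2 * Real.pi * x| ≤ 1 / 2 := by
    rw [abs_mul, abs_of_pos (by positivity : (0 : ℝ) < 2 * Real.pi)]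
    exact hx
  have hs : |Real.sin (2 * Real.pi * x)| ≤ 1 / 2 := Real.abs_sin_le_abs.trans hx'
  have hc := Real.one_sub_sq_div_two_le_cos (x := 2 * Real.pi * x)
  have hsq : (2 * Real.pi * x) ^ 2 ≤ (1 / 2) ^ 2 := by
    rw [← sq_abs]
    exact pow_le_pow_left₀ (abs_nonneg _) hx' 2
  rw [Complex.mul_re, e_re, e_im]
  rcases hu with rfl | rfl | rfl
  · simp only [Complex.neg_re, Complex.one_re, Complex.neg_im, Complex.one_im]
    linarith
  · simp only [Complex.I_re, Complex.I_im]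
    linarith [neg_abs_le (Real.sin (2 * Real.pi * x))]
  · simp only [Complex.neg_re, Complex.I_re, Complex.neg_im, Complex.I_im]
    linarith [le_abs_self (Real.sin (2 * Real.pi * x))]

theorem re_le_one {u : ℂ} (hu : ‖u‖ = 1) (x : ℝ) : (u * e x).re ≤ 1 := by
  refine (Complex.re_le_norm _).trans ?_
  rw [norm_mul, hu, norm_e, one_mul]

theorem D_re {u : ℂ} (hu : u = -1 ∨ u = Complex.I ∨ u = -Complex.I) {T : ℕ} (hT : 100 ≤ T)
    {φ : ℝ} (hφ : T * |φ| ≤ 5 / 8) : (u * (D T φ / T)).re ≤ 17 / 18 := by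
  have hun : ‖u‖ = 1 := by
    rcases hu with rfl | rfl | rfl <;> simp
  have hT' : (0 : ℝ) < T := by
    have : 0 < T := by omega
    exact_mod_cast this
  have e1 : u * (D T φ / T) = (∑ r ∈ range T, u * e (r * φ)) / (T : ℂ) := by
    unfold D
    rw [← mul_sum]
    ring
  rw [e1, Complex.div_natCast_re, Complex.re_sum, div_le_iff₀ hT']
  have h1 : ∑ r ∈ range (T / 9 + 1), (1 - (u * e (r * φ)).re) ≤
      ∑ r ∈ range T, (1 - (u * e (r * φ)).re) := by
    apply Finset.sum_le_sum_of_subset_of_nonneg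
    · intro r hr
      rw [mem_range] at hr ⊢
      omega
    · intro r _ _
      have := re_le_one hun (r * φ)
      linarith
  have h2 : ∑ r ∈ range (T / 9 + 1), (1 / 2 : ℝ) ≤
      ∑ r ∈ range (T / 9 + 1), (1 - (u * e (r * φ)).re) := by
    refine sum_le_sum fun r hr => ?_
    have h3 : 9 * r ≤ T := by
      rw [mem_range] at hr
      omega
    have h3' : (9 : ℝ) * r ≤ T := by exact_mod_cast h3
    have h4 : (9 : ℝ) * r * |φ| ≤ 5 / 8 := (mul_le_mul_of_nonneg_right h3' (abs_nonneg φ)).trans hφ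
    have h5 : |(r : ℝ) * φ| = r * |φ| := by
      rw [abs_mul, Nat.abs_cast]
    have h6 := re_small hu (x := r * φ) (by
      rw [h5]
      have hpi := Real.pi_lt_d2
      have hr0 : 0 ≤ (r : ℝ) * |φ| := by positivity
      nlinarith)
    linarith
  have h8 := h2.trans h1
  simp only [sum_sub_distrib, sum_const, card_range, nsmul_eq_mul, mul_one] at h8
  have h7 : (T : ℝ) ≤ 9 * ((T / 9 + 1 : ℕ) : ℝ) := by
    have : T ≤ 9 * (T / 9 + 1) := by omega
    exact_mod_cast this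
  linarith

theorem avg_near {W : ℕ} (hW : 0 < W) (φ : ℝ) (c : ℕ → ℂ) (hc : ∀ h ∈ HH W, ‖c h‖ = 1) :
    ‖∑ h ∈ HH W, c h * e ((h : ℝ) * (φ / W)) - ∑ h ∈ HH W, c h‖ ≤
      2 * Real.pi * |φ| * (HH W).card := by
  rw [← sum_sub_distrib]
  refine (norm_sum_le _ _).trans ?_
  have h1 : ∀ h ∈ HH W, ‖c h * e ((h : ℝ) * (φ / W)) - c h‖ ≤ 2 * Real.pi * |φ| := by
    intro h hh
    have e1 : c h * e ((h : ℝ) * (φ / W)) - c h = c h * (e ((h : ℝ) * (φ / W)) - 1) := by ring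
    rw [e1, norm_mul, hc h hh, one_mul]
    refine (e_sub_one _).trans ?_
    apply mul_le_mul_of_nonneg_left _ (by positivity)
    have hlt : (h : ℝ) ≤ W := by exact_mod_cast (mem_HH.1 hh).1.le
    have hW' : (0 : ℝ) < W := by exact_mod_cast hW
    rw [abs_mul, abs_div, Nat.abs_cast, Nat.abs_cast, ← mul_div_assoc, div_le_iff₀ hW', mul_comm]
    exact mul_le_mul_of_nonneg_left hlt (abs_nonneg φ)
  refine (sum_le_sum h1).trans ?_
  rw [sum_const, nsmul_eq_mul]
  linarith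

end PointAux

open PointAux in
/-- Let `m = (∑_(h ∈ HH W) e(h θ) / #HH) * mlt W T θ`, `|m| ≤ 1`. Let `a = round (W θ)`, `φ = W θ - a`,
`|φ| = nrm (W θ) ≤ 1/2`, `θ = a / W + φ / W`. Use `mlt_far`, `mlt_near`, `mlt_le_one` (Lib_MP_f1a94e_q/Mlt.lean).

(1) `|φ| ≥ 1/20`: `|mlt| ≤ 1 / (2 T |φ|) ≤ 1/10`, so the right side is `≥ 400 * 9/10 ≥ 4`.
(2) `|φ| < 1/20`, `W ∤ 4 a`: by `gap` and `|e(h φ / W) - 1| ≤ 2 π |φ|`, `|m| ≤ 1/2 + 2 π / 20 < 0.82`, and `400 * 0.18 ≥ 4`.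
(3) `W ∣ 4 a`, `T |φ| ≥ 5/8`: `|mlt| ≤ 4/5`, and `400 / 5 ≥ 4`.
(4) `W ∣ 4 a`, `T |φ| < 5/8`, so `|φ| ≤ 1/160`. By `gap_eq`, `m = e(a/W) P mlt`, `|P - 1| ≤ 2 π |φ| ≤ 0.04`;
`e(a / W)` is `1, i, -1` or `-i`.
  (4a) `e(a / W) = σ`: `|e θ - σ| = |e(φ / W) - 1| ≤ 2 π |φ| / W ≤ (π / 2) (5 / 8) / T ≤ 1 / T` (`W ≥ 4`) and `|m| ≤ 1`.
  (4b) otherwise `1 - σ Re m ≥ 0.02`: `σ Re m ≤ |P - 1| + max (|Im mlt|, - Re mlt)`, and with `mlt = (1/T) ∑_(r < T)
  e(r a + r φ) = (1/T) ∑ e(r φ)`: for `r < T / 9` one has `2 π r |φ| ≤ 2 π (5/8) / 9 ≤ 1/2`, so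
  `|sin (2 π r φ)| ≤ 1/2` and `cos (2 π r φ) ≥ 0`; there are at least `T / 9` such `r`, the other terms are at most `1` in absolute
  value; so `|Im mlt| ≤ 1 - 1/18` and `- Re mlt ≤ 1 - 1/9`; total `≤ 0.04 + 0.945 ≤ 0.985`, and `400 * 0.015 ≥ 4`. -/
theorem point (W T : ℕ) (hW : 0 < W) (h4 : 4 ∣ W) (hT : 100 ≤ T) (σ : ℝ) (hσ : σ = 1 ∨ σ = -1) (θ : ℝ) :
    ‖e θ - (σ : ℂ)‖ ^ 2 ≤
      400 * (1 - σ * ((∑ h ∈ HH W, e ((h : ℝ) * θ)) / (HH W).card * mlt W T θ).re) + 1 / (T : ℝ) ^ 2 := by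
  have hWr : (0 : ℝ) < W := by exact_mod_cast hW
  have hW4 : (4 : ℝ) ≤ W := by exact_mod_cast Nat.le_of_dvd hW h4
  have hTr : (100 : ℝ) ≤ T := by exact_mod_cast hT
  have hT0 : (0 : ℝ) < T := by linarith
  have hTn : 0 < T := by omega
  have hcard : (0 : ℝ) < (HH W).card := by exact_mod_cast HH_pos hW h4
  have hcardc : ((HH W).card : ℂ) ≠ 0 := by exact_mod_cast (HH_pos hW h4).ne'
  have hpi3 := Real.pi_gt_three
  have hpi4 := Real.pi_lt_d2
  have hσn : ‖(σ : ℂ)‖ = 1 := by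
    rcases hσ with rfl | rfl <;> simp
  have hσσ : (σ : ℂ) * σ = 1 := by
    rcases hσ with rfl | rfl <;> simp
  set M := mlt W T θ with hM
  set A := (∑ h ∈ HH W, e ((h : ℝ) * θ)) / ((HH W).card : ℂ) with hA
  have hre : ∀ z : ℂ, σ * z.re = ((σ : ℂ) * z).re := by
    intro z
    rw [Complex.re_ofReal_mul]
  have hre2 : ∀ z : ℂ, σ * z.re ≤ ‖z‖ := by
    intro z
    rw [hre]
    refine (Complex.re_le_norm _).trans ?_
    rw [norm_mul, hσn, one_mul]
  have hMle : ‖M‖ ≤ 1 := mlt_le_one W T θ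
  have hAle : ‖A‖ ≤ 1 := by
    rw [hA, norm_div, Complex.norm_natCast, div_le_one hcard]
    refine (norm_sum_le _ _).trans ?_
    simp [norm_e]
  have hTinv : (0 : ℝ) ≤ 1 / (T : ℝ) ^ 2 := by positivity
  have hfour : ‖e θ - (σ : ℂ)‖ ^ 2 ≤ 4 := by
    have h1 : ‖e θ - (σ : ℂ)‖ ≤ 2 := by
      refine (norm_sub_le _ _).trans ?_
      rw [norm_e, hσn]
      norm_num
    have h2 := norm_nonneg (e θ - (σ : ℂ))
    nlinarith
  -- it is enough to bound the real part away from one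
  have hsuff : σ * (A * M).re ≤ 99 / 100 → ‖e θ - (σ : ℂ)‖ ^ 2 ≤
      400 * (1 - σ * (A * M).re) + 1 / (T : ℝ) ^ 2 := by
    intro h
    linarith
  set a : ℤ := round ((W : ℝ) * θ) with ha
  set φ : ℝ := W * θ - a with hφ
  have hnrm : nrm (W * θ) = |φ| := rfl
  have hθ : θ = (a : ℝ) / W + φ / W := by
    rw [hφ]
    field_simp
    ring
  have hterm : ∀ h : ℕ, e ((h : ℝ) * θ) = e ((h : ℝ) * ((a : ℝ) / W)) * e ((h : ℝ) * (φ / W)) := by
    intro h
    rw [← e_add]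
    congr 1
    rw [← mul_add, ← hθ]
  by_cases c1 : 1 / 20 ≤ |φ|
  · apply hsuff
    have h1 : ‖M‖ ≤ 1 / 10 := by
      have hpos : 0 < nrm (W * θ) := by
        rw [hnrm]
        linarith
      refine (mlt_far W T hTn θ hpos).trans ?_
      rw [hnrm]
      apply one_div_le_one_div_of_le (by norm_num)
      nlinarith
    refine (hre2 _).trans ?_
    rw [norm_mul]
    have h2 := norm_nonneg A
    have h3 := norm_nonneg M
    nlinarith
  rw [not_le] at c1
  by_cases c2 : (W : ℤ) ∣ 4 * a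
  swap
  · apply hsuff
    have h1 : ‖A‖ ≤ 1 / 2 + 2 * Real.pi * |φ| := by
      rw [hA, norm_div, Complex.norm_natCast, div_le_iff₀ hcard]
      have h2 := avg_near hW φ (fun h => e ((h : ℝ) * ((a : ℝ) / W))) (fun h _ => norm_e _)
      have h3 := gap W hW h4 a c2
      have h5 : ∑ h ∈ HH W, e ((h : ℝ) * θ) = (∑ h ∈ HH W, e ((h : ℝ) * ((a : ℝ) / W)) *
          e ((h : ℝ) * (φ / W)) - ∑ h ∈ HH W, e ((h : ℝ) * ((a : ℝ) / W))) +
          ∑ h ∈ HH W, e ((h : ℝ) * ((a : ℝ) / W)) := by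
        rw [sub_add_cancel]
        exact sum_congr rfl fun h _ => hterm h
      rw [h5]
      refine (norm_add_le _ _).trans ?_
      linarith
    refine (hre2 _).trans ?_
    rw [norm_mul]
    have h2 := norm_nonneg A
    have h3 := norm_nonneg M
    have h5 := abs_nonneg φ
    have h6 : ‖A‖ ≤ 99 / 100 := by nlinarith
    nlinarith
  by_cases c3 : 5 / 8 ≤ T * |φ|
  · apply hsuff
    have h1 : ‖M‖ ≤ 4 / 5 := by
      have hpos : 0 < nrm (W * θ) := by
        rw [hnrm]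
        by_contra h
        rw [not_lt] at h
        have := mul_nonpos_of_nonneg_of_nonpos hT0.le h
        linarith
      refine (mlt_far W T hTn θ hpos).trans ?_
      rw [hnrm]
      rw [div_le_iff₀ (by
        rw [hnrm] at hpos
        positivity)]
      nlinarith
    refine (hre2 _).trans ?_
    rw [norm_mul]
    have h2 := norm_nonneg A
    have h3 := norm_nonneg M
    nlinarith
  rw [not_le] at c3
  have hφs : |φ| ≤ 1 / 160 := by
    have h5 := abs_nonneg φ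
    nlinarith
  -- the fourth root of unity
  set w := e ((a : ℝ) / W) with hw
  have hwn : ‖w‖ = 1 := norm_e _
  have hw4 : w ^ 4 = 1 := by
    rw [hw, ← e_nat_mul]
    obtain ⟨b, hb⟩ := c2
    have h1 : ((4 : ℕ) : ℝ) * ((a : ℝ) / W) = (b : ℤ) := by
      have h2 : (4 : ℝ) * a = W * b := by exact_mod_cast hb
      rw [← mul_div_assoc, div_eq_iff hWr.ne']
      push_cast
      linarith
    rw [h1, e_int]
  by_cases c4 : w = σ
  · have h1 : ‖e θ - (σ : ℂ)‖ ≤ 1 / T := by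
      have h2 : e θ - (σ : ℂ) = w * (e (φ / W) - 1) := by
        rw [hθ, e_add, ← hw, mul_sub, mul_one, c4]
      rw [h2, norm_mul, hwn, one_mul]
      refine (e_sub_one _).trans ?_
      rw [abs_div, Nat.abs_cast, le_div_iff₀ hT0]
      have h3 : |φ| / W ≤ |φ| / 4 := div_le_div_of_nonneg_left (abs_nonneg φ) (by norm_num) hW4
      have h5 : |φ| / W * T ≤ 5 / 32 := by
        have := mul_le_mul_of_nonneg_right h3 hT0.le
        linarith
      have h6 : 0 ≤ |φ| / W * T := by positivity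
      nlinarith
    have h7 : ‖e θ - (σ : ℂ)‖ ^ 2 ≤ 1 / (T : ℝ) ^ 2 := by
      have := pow_le_pow_left₀ (norm_nonneg (e θ - (σ : ℂ))) h1 2
      rw [div_pow, one_pow] at this
      exact this
    have h8 : σ * (A * M).re ≤ 1 := by
      refine (hre2 _).trans ?_
      rw [norm_mul]
      have h2 := norm_nonneg A
      have h3 := norm_nonneg M
      nlinarith
    linarith
  · apply hsuff
    set u : ℂ := (σ : ℂ) * w with hu
    have hu4 : u ^ 4 = 1 := by
      rw [hu, mul_pow, hw4, mul_one]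
      rcases hσ with rfl | rfl <;> norm_num
    have hu1 : u ≠ 1 := by
      intro h
      apply c4
      have : (σ : ℂ) * u = σ := by rw [h, mul_one]
      rw [hu, ← mul_assoc, hσσ, one_mul] at this
      exact this
    have hq := quarter hu4 hu1
    have hun : ‖u‖ = 1 := by rw [hu, norm_mul, hσn, hwn, one_mul]
    -- the average
    have hP : ‖A - w‖ ≤ 2 * Real.pi * |φ| := by
      have h2 := avg_near hW φ (fun h => e ((h : ℝ) * ((a : ℝ) / W))) (fun h _ => norm_e _)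
      have h3 : ∑ h ∈ HH W, e ((h : ℝ) * ((a : ℝ) / W)) = (HH W).card * w := by
        rw [sum_congr rfl (fun h hh => gap_eq W hW h4 a c2 h hh), sum_const, nsmul_eq_mul]
      have h5 : A - w = (∑ h ∈ HH W, e ((h : ℝ) * ((a : ℝ) / W)) *
          e ((h : ℝ) * (φ / W)) - ∑ h ∈ HH W, e ((h : ℝ) * ((a : ℝ) / W))) / (HH W).card := by
        rw [h3, sub_div, mul_div_cancel_left₀ _ hcardc, hA]
        congr 2
        exact sum_congr rfl fun h _ => hterm h
      rw [h5, norm_div, Complex.norm_natCast, div_le_iff₀ hcard]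
      exact h2
    have hMD : M = D T φ / T := by
      rw [hM, mlt_eq]
      congr 1
      have : (W : ℝ) * θ = φ + a := by
        rw [hφ]
        ring
      rw [this, D_add_int]
    have h6 : (u * M).re ≤ 17 / 18 := by
      rw [hMD]
      exact D_re hq hT c3.le
    have h7 : σ * (A * M).re = (u * M).re + ((σ : ℂ) * ((A - w) * M)).re := by
      rw [hre, ← Complex.add_re]
      congr 1
      rw [hu]
      ring
    have h8 : ((σ : ℂ) * ((A - w) * M)).re ≤ 2 * Real.pi * |φ| := by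
      refine (Complex.re_le_norm _).trans ?_
      rw [norm_mul, hσn, one_mul, norm_mul]
      have h2 := norm_nonneg (A - w)
      have h3 := norm_nonneg M
      nlinarith
    rw [h7]
    have h9 := abs_nonneg φ
    nlinarith

end Pool.Agent.OmQ
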