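import Pool.Agent.Lib_MP_f1a94e_aq.ThmU
import Pool.Agent.Lib_MP_f1a94e_aq.Point

/-!
# Piece CYC: cyclic structure theorem for even moduli
-/

set_option autoImplicit false

namespace Pool.Agent.OmQ

open Finset LibLS

/-- Correlations through the spectral measure `ν r = ‖fhat u r‖ ^ 2` (Lib_MP_f1a94e_q/Spec.lean): apply `spec_gen` with
`S = {0}` (`Av u ^ 2 = ∑ ν`) and with the two shifts `0, k` and `lam = 1`:
`Av (u i + u (i + k)) ^ 2 = ∑ ν |1 + e(k θ)| ^ 2 = ∑ ν (2 + 2 Re e(k θ))`; expand the left side, `Av_shift`. -/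
theorem spec_corr {N : ℕ} [NeZero N] (u : ZMod N → ℝ) : ∃ ν : ZMod N → ℝ, (∀ r, 0 ≤ ν r) ∧
    ∑ r, ν r = Av (fun i => u i ^ 2) ∧
    ∀ k : ℕ, Av (fun i => u i * u (i + (k : ZMod N))) =
      ∑ r, ν r * (e ((k : ℝ) * ((r.val : ℝ) / N))).re := by
  refine ⟨fun r => ‖fhat u r‖ ^ 2, fun r => sq_nonneg _, parseval u, ?_⟩
  intro k
  have h := spec_gen u (range 2) (fun _ => (1 : ℝ)) (fun s => if s = 0 then 0 else k)
  have hR : ∀ r : ZMod N, ‖∑ s ∈ range 2, (((1 : ℝ) : ℝ) : ℂ) *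
      e (((if s = 0 then 0 else k : ℕ) : ℝ) * ((r.val : ℝ) / N))‖ ^ 2 =
      2 + 2 * (e ((k : ℝ) * ((r.val : ℝ) / N))).re := by
    intro r
    rw [Finset.sum_range_succ, Finset.sum_range_one]
    simp only [if_true, Nat.cast_zero, zero_mul, e_zero, Complex.ofReal_one, one_mul]
    rw [if_neg (by norm_num)]
    have h1 := norm_e ((k : ℝ) * ((r.val : ℝ) / N))
    have h2 : ‖e ((k : ℝ) * ((r.val : ℝ) / N))‖ ^ 2 = 1 := by rw [h1]; norm_num
    rw [Complex.sq_norm, Complex.normSq_apply] at h2 ⊢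
    simp only [Complex.add_re, Complex.one_re, Complex.add_im, Complex.one_im]
    linarith [h2]
  have hL : ∀ i : ZMod N, (∑ s ∈ range 2, (1 : ℝ) * u (i + ((if s = 0 then 0 else k : ℕ) : ZMod N))) ^ 2 =
      (u i ^ 2 + u (i + (k : ZMod N)) ^ 2) + 2 * (u i * u (i + (k : ZMod N))) := by
    intro i
    rw [Finset.sum_range_succ, Finset.sum_range_one]
    simp only [if_true, Nat.cast_zero, add_zero, one_mul]
    rw [if_neg (by norm_num)]
    ring
  have h1 : Av (fun i : ZMod N => (∑ s ∈ range 2, (1 : ℝ) *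
      u (i + ((if s = 0 then 0 else k : ℕ) : ZMod N))) ^ 2) =
      Av (fun i => u i ^ 2) + Av (fun i => u i ^ 2) + 2 * Av (fun i => u i * u (i + (k : ZMod N))) := by
    rw [show (fun i : ZMod N => (∑ s ∈ range 2, (1 : ℝ) *
      u (i + ((if s = 0 then 0 else k : ℕ) : ZMod N))) ^ 2) = fun i =>
      (u i ^ 2 + u (i + (k : ZMod N)) ^ 2) + 2 * (u i * u (i + (k : ZMod N))) from funext hL]
    rw [Av_add, Av_add, Av_const_mul]
    rw [Av_shift (fun i => u i ^ 2) (k : ZMod N)]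
  rw [h1] at h
  rw [Finset.sum_congr rfl fun r _ => by rw [hR r]] at h
  have h3 : ∑ r : ZMod N, ‖fhat u r‖ ^ 2 * (2 + 2 * (e ((k : ℝ) * ((r.val : ℝ) / N))).re) =
      2 * ∑ r : ZMod N, ‖fhat u r‖ ^ 2 +
        2 * ∑ r : ZMod N, ‖fhat u r‖ ^ 2 * (e ((k : ℝ) * ((r.val : ℝ) / N))).re := by
    rw [Finset.mul_sum, Finset.mul_sum, ← Finset.sum_add_distrib]
    refine Finset.sum_congr rfl fun r _ => ?_
    ring
  rw [h3, parseval u] at h
  linarith

/-- sign of a residue -/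
private noncomputable def cSg {q : ℕ} (c : ZMod q) : ℝ := (-1 : ℝ) ^ c.val

private lemma cSg_sq {q : ℕ} (c : ZMod q) : cSg c ^ 2 = 1 := by
  unfold cSg
  rw [← pow_mul, mul_comm, pow_mul]
  norm_num

private lemma cSg_or {q : ℕ} (c : ZMod q) : cSg c = 1 ∨ cSg c = -1 := by
  unfold cSg
  exact neg_one_pow_eq_or ℝ _

private lemma cyc_iff (q : ℕ) [NeZero q] (hq : Even q) (a c c' : ZMod q) :
    (∃ j : ℕ, c + c' - 2 * (j : ZMod q) = a) ↔ (c.val + c'.val) % 2 = a.val % 2 := by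
  have h2q : 2 ∣ q := hq.two_dvd
  constructor
  · rintro ⟨j, hj⟩
    have h1 : ((c.val + c'.val : ℕ) : ZMod q) = ((a.val + 2 * j : ℕ) : ZMod q) := by
      push_cast
      rw [ZMod.natCast_zmod_val, ZMod.natCast_zmod_val, ZMod.natCast_zmod_val, ← hj]
      ring
    have h2 := ((ZMod.natCast_eq_natCast_iff _ _ _).mp h1).of_dvd h2q
    have h3 : (c.val + c'.val) % 2 = (a.val + 2 * j) % 2 := h2
    omega
  · intro h
    obtain ⟨s, hs⟩ := h2q
    have ha : a.val < q := ZMod.val_lt a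
    obtain ⟨j, hj⟩ : ∃ j, c.val + c'.val + q = a.val + 2 * j :=
      ⟨(c.val + c'.val + q - a.val) / 2, by omega⟩
    refine ⟨j, ?_⟩
    have h1 : ((c.val + c'.val + q : ℕ) : ZMod q) = ((a.val + 2 * j : ℕ) : ZMod q) := by rw [hj]
    push_cast at h1
    rw [ZMod.natCast_zmod_val, ZMod.natCast_zmod_val, ZMod.natCast_zmod_val, ZMod.natCast_self] at h1
    rw [← add_zero (c + c'), h1]
    ring

private lemma cyc_par (q : ℕ) [NeZero q] (hq : Even q) (a c c' : ZMod q) :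
    ind (∃ j : ℕ, c + c' - 2 * (j : ZMod q) = a) = (1 + cSg a * (cSg c * cSg c')) / 2 := by
  by_cases h : (∃ j : ℕ, c + c' - 2 * (j : ZMod q) = a)
  · rw [ind_of h]
    rw [cyc_iff q hq] at h
    have h1 : cSg c * cSg c' = cSg a := by
      unfold cSg
      rw [← pow_add]
      rw [neg_one_pow_eq_pow_mod_two, h, ← neg_one_pow_eq_pow_mod_two]
    rw [h1, ← sq, cSg_sq]
    norm_num
  · rw [ind_not h]
    rw [cyc_iff q hq] at h
    have h1 : cSg c * cSg c' = - cSg a := by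
      unfold cSg
      rw [← pow_add]
      have h2 : (c.val + c'.val) % 2 = (a.val + 1) % 2 := by omega
      rw [neg_one_pow_eq_pow_mod_two, h2, ← neg_one_pow_eq_pow_mod_two, pow_succ]
      ring
    rw [h1, mul_neg, ← sq, cSg_sq]
    norm_num

open Classical in
private lemma cyc_pairs {q : ℕ} [NeZero q] (P : ZMod q → ZMod q → Prop) (x y : ZMod q) :
    ∑ cc ∈ (univ.filter (fun cc : ZMod q × ZMod q => P cc.1 cc.2)),
      ind (True ∧ x = cc.1) * ind (True ∧ y = cc.2) = ind (P x y) := by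
  have h1 : ∀ cc : ZMod q × ZMod q, ind (True ∧ x = cc.1) * ind (True ∧ y = cc.2) =
      if (x, y) = cc then 1 else 0 := by
    intro cc
    rw [ind_mul]
    unfold ind
    have : ((True ∧ x = cc.1) ∧ True ∧ y = cc.2) ↔ ((x, y) = cc) := by
      rw [Prod.ext_iff]
      simp
    by_cases h : (x, y) = cc
    · rw [if_pos (this.2 h), if_pos h]
    · rw [if_neg (fun h' => h (this.1 h')), if_neg h]
  rw [Finset.sum_congr rfl fun cc _ => h1 cc, Finset.sum_ite_eq]
  unfold ind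
  simp

private lemma cyc_re {N : ℕ} [NeZero N] (H : Finset ℕ) (W T : ℕ)
    (ν : ZMod N → ℝ) (C : ℕ → ℝ)
    (hC : ∀ k : ℕ, C k = ∑ r, ν r * (e ((k : ℝ) * ((r.val : ℝ) / N))).re) :
    ∑ r : ZMod N, ν r * ((∑ h ∈ H, e ((h : ℝ) * ((r.val : ℝ) / N))) / H.card *
      mlt W T ((r.val : ℝ) / N)).re = (∑ h ∈ H, ∑ t ∈ range T, C (h + W * t)) / (H.card * T) := by
  have h1 : ∀ r : ZMod N, ((∑ h ∈ H, e ((h : ℝ) * ((r.val : ℝ) / N))) / H.card *
      mlt W T ((r.val : ℝ) / N)).re =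
      (∑ h ∈ H, ∑ t ∈ range T, (e (((h + W * t : ℕ) : ℝ) * ((r.val : ℝ) / N))).re) / (H.card * T) := by
    intro r
    have h2 : ((∑ h ∈ H, e ((h : ℝ) * ((r.val : ℝ) / N))) / H.card *
      mlt W T ((r.val : ℝ) / N)) =
      (∑ h ∈ H, ∑ t ∈ range T, e (((h + W * t : ℕ) : ℝ) * ((r.val : ℝ) / N))) / ((H.card * T : ℕ) : ℂ) := by
      unfold mlt
      rw [div_mul_div_comm, Finset.sum_mul_sum]
      push_cast
      congr 1
      refine Finset.sum_congr rfl fun h _ => Finset.sum_congr rfl fun t _ => ?_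
      rw [← e_add]
      congr 1
      ring
    rw [h2, Complex.div_natCast_re, Complex.re_sum, Nat.cast_mul]
    congr 1
    refine Finset.sum_congr rfl fun h _ => ?_
    rw [Complex.re_sum]
  rw [Finset.sum_congr rfl fun r _ => by rw [h1 r]]
  rw [Finset.sum_congr rfl fun r _ => (mul_div_assoc (ν r) _ _).symm, ← Finset.sum_div]
  congr 1
  rw [Finset.sum_congr rfl fun r _ => Finset.mul_sum _ _ _, Finset.sum_comm]
  refine Finset.sum_congr rfl fun h _ => ?_
  rw [Finset.sum_congr rfl fun r _ => Finset.mul_sum _ _ _, Finset.sum_comm]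
  refine Finset.sum_congr rfl fun t _ => ?_
  rw [hC]

/-- Apply `thmU` with `TT = {a}`, `b = 1`, `δ = ε / (400 q ^ 2)`, `T0` with `T0 ≥ 100`, `1 / T0 ^ 2 ≤ ε`. The data
`K0, Pi, ε0` are those of `thmU`. Given `X, ρ` with few good `i`, get `W, T`. Let `u i = (-1) ^ (X i).val` and
`σ = - (-1) ^ a.val`. As `q` is even, parity of `val` is additive (`(x + y).val % 2 = (x.val + y.val) % 2`), and
`∃ j, c + c' - 2 j = a` iff `(c.val + c'.val) % 2 = a.val % 2`; so, summing the conclusion of `thmU` over the at most `q ^ 2` pairs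
`(c, c')` of this kind and using `∑_(c, c') 1[X i = c] 1[X j = c'] 1[..] = 1[X i + X j = a mod 2] = (1 - σ u i u j) / 2`:
`∑_(h ∈ HH) (1 - σ Av (u i * avW W T u (i + h))) / 2 ≤ q ^ 2 δ #HH`. By `spec_corr`,
`(1/#HH) ∑_h Av (u i * avW W T u (i + h)) = ∑ ν(r) Re m(r / N)`, `m(θ) = (∑_h e(h θ) / #HH) mlt W T θ`
(expand `avW` and `mlt`: `Av (u i u (i + h + W r)) = ∑ ν Re e((h + W r) θ)`). As `∑ ν = 1`,
`∑ ν (1 - σ Re m) ≤ 2 q ^ 2 δ`; `point` gives `∑ ν ‖e(θ) - σ‖ ^ 2 ≤ 800 q ^ 2 δ + 1 / T ^ 2`. The left side is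
`2 - 2 σ Av (u i u (i + 1)) = 4 Av 1[X i + X (i + 1) = a mod 2]`. -/
theorem cyc (q : ℕ) [NeZero q] (hq : Even q) (a : ZMod q) (ε : ℝ) (hε : 0 < ε) :
    ∃ (K0 Pi : ℕ) (ε0 : ℝ), 0 < Pi ∧ 0 < ε0 ∧ ∀ (N : ℕ) [NeZero N], Pi ∣ N →
      ∀ (X : ZMod N → ZMod q) (ρ : ℕ → ℕ),
      Av (fun i => ind (Good K0 1 ρ {a} X X (fun _ => True) (fun _ => True) i)) < ε0 →
      Av (fun i => ind (∃ j : ℕ, X i + X (i + 1) - 2 * (j : ZMod q) = a)) ≤ ε := by
  classical
  have hqpos : (0 : ℝ) < q := by exact_mod_cast Nat.pos_of_ne_zero (NeZero.ne q)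
  obtain ⟨T1, hT1⟩ := exists_nat_ge (1 / ε)
  obtain ⟨K0, Pi, ε0, hPi, -, hε0, hU⟩ := thmU q {a} 1 one_pos (max 100 T1) (ε / (400 * (q : ℝ) ^ 2))
    (by positivity)
  refine ⟨K0, Pi, ε0, hPi, hε0, ?_⟩
  intro N _ hPN X ρ hgood
  obtain ⟨W, T, hW, h4W, hT0, hT, hcc⟩ := hU N hPN X X (fun _ => True) (fun _ => True) ρ hgood
  have h4W' : 4 ∣ W := by simpa using h4W
  have hT100 : 100 ≤ T := (le_max_left _ _).trans hT0
  have hTT1 : T1 ≤ T := (le_max_right _ _).trans hT0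
  have hTr : (0 : ℝ) < T := by exact_mod_cast hT
  have hT100r : (100 : ℝ) ≤ T := by exact_mod_cast hT100
  have hTε : 1 / (T : ℝ) ^ 2 ≤ ε := by
    have h1 : 1 / ε ≤ (T : ℝ) := hT1.trans (by exact_mod_cast hTT1)
    rw [div_le_iff₀ hε] at h1
    rw [div_le_iff₀ (by positivity)]
    nlinarith
  have hHpos := HH_pos hW h4W'
  have hHr : (0 : ℝ) < (HH W).card := by exact_mod_cast hHpos
  set u : ZMod N → ℝ := fun i => cSg (X i) with hu
  obtain ⟨ν, hν0, hν1, hνC⟩ := spec_corr u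
  have hν1' : ∑ r, ν r = 1 := by
    rw [hν1]
    rw [show (fun i => u i ^ 2) = (fun _ => (1 : ℝ)) from funext fun i => cSg_sq _, Av_const]
  -- sum over pairs
  set S : Finset (ZMod q × ZMod q) := univ.filter (fun cc : ZMod q × ZMod q =>
    ∃ j : ℕ, cc.1 + cc.2 - 2 * (j : ZMod q) = a) with hS
  have hsum : ∑ cc ∈ S, ∑ h ∈ HH W, Av (fun i => ind (True ∧ X i = cc.1) *
      avW W T (fun i => ind (True ∧ X i = cc.2)) (i + (h : ZMod N))) ≤
      (q : ℝ) ^ 2 * (ε / (400 * (q : ℝ) ^ 2) * (HH W).card) := by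
    have h1 : ∑ cc ∈ S, ∑ h ∈ HH W, Av (fun i => ind (True ∧ X i = cc.1) *
      avW W T (fun i => ind (True ∧ X i = cc.2)) (i + (h : ZMod N))) ≤
      ∑ cc ∈ S, ε / (400 * (q : ℝ) ^ 2) * (HH W).card := by
      refine Finset.sum_le_sum fun cc hcc' => ?_
      refine hcc cc.1 cc.2 ?_
      have := (Finset.mem_filter.1 hcc').2
      simpa using this
    refine h1.trans ?_
    rw [Finset.sum_const, nsmul_eq_mul]
    have h2 : S.card ≤ q ^ 2 := by
      refine (Finset.card_le_univ S).trans ?_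
      rw [Fintype.card_prod, ZMod.card, sq]
    have h2' : (S.card : ℝ) ≤ (q : ℝ) ^ 2 := by exact_mod_cast h2
    exact mul_le_mul_of_nonneg_right h2' (by positivity)
  have hC : ∀ k : ℕ, Av (fun i => ind (∃ j : ℕ, X i + X (i + (k : ZMod N)) - 2 * (j : ZMod q) = a)) =
      (1 + cSg a * Av (fun i => u i * u (i + (k : ZMod N)))) / 2 := by
    intro k
    rw [show (fun i => ind (∃ j : ℕ, X i + X (i + (k : ZMod N)) - 2 * (j : ZMod q) = a)) =
      fun i => (1 / 2 : ℝ) + (cSg a / 2) * (u i * u (i + (k : ZMod N))) from funext fun i => by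
        rw [cyc_par q hq]; simp only [hu]; ring]
    rw [Av_add, Av_const, Av_const_mul]
    ring
  have hpt : ∀ h : ℕ, ∑ cc ∈ S, Av (fun i => ind (True ∧ X i = cc.1) *
      avW W T (fun i => ind (True ∧ X i = cc.2)) (i + (h : ZMod N))) =
      (∑ t ∈ range T, Av (fun i => ind (∃ j : ℕ, X i + X (i + ((h + W * t : ℕ) : ZMod N)) -
        2 * (j : ZMod q) = a))) / T := by
    intro h
    rw [← Av_sum S (fun cc i => ind (True ∧ X i = cc.1) *
      avW W T (fun i => ind (True ∧ X i = cc.2)) (i + (h : ZMod N)))]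
    rw [← Av_sum (range T) (fun t i => ind (∃ j : ℕ, X i + X (i + ((h + W * t : ℕ) : ZMod N)) -
        2 * (j : ZMod q) = a))]
    rw [div_eq_mul_inv, ← Av_mul_const]
    congr 1
    funext i
    have h1 : ∀ cc : ZMod q × ZMod q, ind (True ∧ X i = cc.1) *
      avW W T (fun i => ind (True ∧ X i = cc.2)) (i + (h : ZMod N)) =
      ∑ t ∈ range T, (ind (True ∧ X i = cc.1) *
        ind (True ∧ X (i + ((h + W * t : ℕ) : ZMod N)) = cc.2)) * (T : ℝ)⁻¹ := by
      intro cc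
      unfold avW
      rw [div_eq_mul_inv, ← mul_assoc, Finset.mul_sum, Finset.sum_mul]
      refine Finset.sum_congr rfl fun t _ => ?_
      have h2 : i + (h : ZMod N) + ((W * t : ℕ) : ZMod N) = i + ((h + W * t : ℕ) : ZMod N) := by
        push_cast
        ring
      rw [h2]
    rw [Finset.sum_congr rfl fun cc _ => h1 cc, Finset.sum_comm, Finset.sum_mul]
    refine Finset.sum_congr rfl fun t _ => ?_
    rw [← Finset.sum_mul, hS]
    rw [cyc_pairs (fun c c' => ∃ j : ℕ, c + c' - 2 * (j : ZMod q) = a) (X i)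
      (X (i + ((h + W * t : ℕ) : ZMod N)))]
  rw [Finset.sum_comm, Finset.sum_congr rfl fun h _ => hpt h] at hsum
  -- rewrite by correlations
  have hre := cyc_re (HH W) W T ν (fun k => Av (fun i => u i * u (i + (k : ZMod N)))) hνC
  set Cs : ℝ := ∑ h ∈ HH W, ∑ t ∈ range T, Av (fun i => u i * u (i + ((h + W * t : ℕ) : ZMod N))) with hCs
  have hsum2 : ∑ h ∈ HH W, (∑ t ∈ range T, Av (fun i => ind (∃ j : ℕ,
      X i + X (i + ((h + W * t : ℕ) : ZMod N)) - 2 * (j : ZMod q) = a))) / T =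
      ((HH W).card * T + cSg a * Cs) / (2 * T) := by
    rw [← Finset.sum_div, hCs, Finset.mul_sum]
    have h1 : ∀ h ∈ HH W, (∑ t ∈ range T, Av (fun i => ind (∃ j : ℕ,
      X i + X (i + ((h + W * t : ℕ) : ZMod N)) - 2 * (j : ZMod q) = a))) =
      ((T : ℝ) + cSg a * ∑ t ∈ range T, Av (fun i => u i * u (i + ((h + W * t : ℕ) : ZMod N)))) / 2 := by
      intro h _
      rw [Finset.sum_congr rfl fun t _ => hC (h + W * t), ← Finset.sum_div, Finset.sum_add_distrib,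
        Finset.mul_sum]
      simp
    rw [Finset.sum_congr rfl h1, ← Finset.sum_div, Finset.sum_add_distrib]
    rw [Finset.sum_const, nsmul_eq_mul, div_div]
  rw [hsum2] at hsum
  have hm : 1 + cSg a * (Cs / ((HH W).card * T)) ≤ ε / 200 := by
    have h1 : (q : ℝ) ^ 2 * (ε / (400 * (q : ℝ) ^ 2) * (HH W).card) = ε / 400 * (HH W).card := by
      field_simp
    rw [h1, div_le_iff₀ (by positivity)] at hsum
    have h2 : 1 + cSg a * (Cs / ((HH W).card * T)) =
        ((HH W).card * T + cSg a * Cs) / ((HH W).card * T) := by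
      field_simp
    rw [h2, div_le_iff₀ (by positivity)]
    nlinarith
  -- pointwise bound
  have hσ : -cSg a = 1 ∨ -cSg a = -1 := by
    rcases cSg_or a with h | h
    · right; rw [h]
    · left; rw [h]; norm_num
  have hpoint : ∀ r : ZMod N, ν r * ‖e ((r.val : ℝ) / N) - ((-cSg a : ℝ) : ℂ)‖ ^ 2 ≤
      ν r * (400 + 1 / (T : ℝ) ^ 2) + (400 * cSg a) * (ν r * ((∑ h ∈ HH W, e ((h : ℝ) * ((r.val : ℝ) / N))) / (HH W).card *
      mlt W T ((r.val : ℝ) / N)).re) := by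
    intro r
    have h1 := point W T hW h4W' hT100 (-cSg a) hσ ((r.val : ℝ) / N)
    have h2 := mul_le_mul_of_nonneg_left h1 (hν0 r)
    refine h2.trans (le_of_eq ?_)
    ring
  have hpsum := Finset.sum_le_sum (fun r (_ : r ∈ (univ : Finset (ZMod N))) => hpoint r)
  rw [Finset.sum_add_distrib, ← Finset.sum_mul, ← Finset.mul_sum, hν1', hre] at hpsum
  have hnorm : ∀ r : ZMod N, ν r * ‖e ((r.val : ℝ) / N) - ((-cSg a : ℝ) : ℂ)‖ ^ 2 =
      2 * ν r + (2 * cSg a) * (ν r * (e (((1 : ℕ) : ℝ) * ((r.val : ℝ) / N))).re) := by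
    intro r
    have h1 := norm_e ((r.val : ℝ) / N)
    have h2 : ‖e ((r.val : ℝ) / N)‖ ^ 2 = 1 := by rw [h1]; norm_num
    have h3 := cSg_sq a
    rw [Complex.sq_norm, Complex.normSq_apply] at h2 ⊢
    simp only [Complex.sub_re, Complex.sub_im, Complex.ofReal_re, Complex.ofReal_im, Nat.cast_one, one_mul]
    linear_combination (ν r) * h2 + (ν r) * h3
  rw [Finset.sum_congr rfl fun r _ => hnorm r, Finset.sum_add_distrib, ← Finset.mul_sum,
    ← Finset.mul_sum, hν1', ← hνC 1] at hpsum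
  have hfin := hC 1
  rw [Nat.cast_one] at hfin hpsum
  rw [hfin]
  nlinarith

end Pool.Agent.OmQ
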