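import Pool.Agent.Lib_MP_f1a94e_aq.Exist

/-!
# Piece DEDGES: pairs `(m, d)` and edges
-/

set_option autoImplicit false

namespace Pool.Agent.OmAll

open Finset Pool.Agent.GaussMR Filter

/-- the edges above `r = (m, d)` -/
def fibD (r : ℕ × ℕ) : Set (G × G) := {e : G × G | det e.1 e.2 = 1 ∧ dot e.1 e.2 = r.1 ∧ nm e.1 = r.2}

theorem prod_of_mem {r : ℕ × ℕ} {e : G × G} (he : e ∈ fibD r) : r.2 * nm e.2 = r.1 ^ 2 + 1 := by
  obtain ⟨h1, h2, h3⟩ := he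
  have h4 := dot_sq_add_det_sq e.1 e.2
  rw [h1, h2, h3] at h4
  have h5 : ((r.2 * nm e.2 : ℕ) : ℤ) = ((r.1 ^ 2 + 1 : ℕ) : ℤ) := by
    push_cast
    linarith
  exact_mod_cast h5

theorem dvd_iff_primes {g n : ℕ} (hg : Squarefree g) : g ∣ n ↔ ∀ p ∈ g.primeFactors, p ∣ n := by
  constructor
  · intro h p hp
    exact (Nat.dvd_of_mem_primeFactors hp).trans h
  · intro h
    rw [← Nat.prod_primeFactors_of_squarefree hg]
    exact Finset.prod_primes_dvd n (fun p hp => (Nat.prime_of_mem_primeFactors hp).prime) h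

theorem tt_eq {r : ℕ × ℕ} {e : G × G} (he : e ∈ fibD r) :
    tt r = Real.log (nm e.2) - Real.log (nm e.1) ∧ 0 < (nm e.1 : ℝ) ∧ 0 < (nm e.2 : ℝ) := by
  have h := prod_of_mem he
  have h3 : nm e.1 = r.2 := he.2.2
  have hpos : 0 < r.2 * nm e.2 := by rw [h]; positivity
  have h1 : 0 < r.2 := Nat.pos_of_mul_pos_right hpos |> fun _ => Nat.pos_of_ne_zero (by
    rintro h0
    rw [h0] at hpos
    simp at hpos)
  have h2 : 0 < nm e.2 := Nat.pos_of_ne_zero (by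
    rintro h0
    rw [h0] at hpos
    simp at hpos)
  have h1' : (0 : ℝ) < (nm e.1 : ℝ) := by rw [h3]; exact_mod_cast h1
  have h2' : (0 : ℝ) < (nm e.2 : ℝ) := by exact_mod_cast h2
  refine ⟨?_, h1', h2'⟩
  unfold tt
  have h4 : ((r.1 : ℝ) ^ 2 + 1) = (nm e.1 : ℝ) * (nm e.2 : ℝ) := by
    rw [h3]
    exact_mod_cast h.symm
  rw [h4, Real.log_mul h1'.ne' h2'.ne', ← h3]
  ring

theorem fib_iff {g : ℕ × ℕ} (hg : Adm g) {s t x : ℝ} {r : ℕ × ℕ} {e : G × G} (he : e ∈ fibD r) :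
    (r ∈ pd x ∧ Cd g r ∧ s ≤ tt r ∧ tt r < t) ↔ (e ∈ NE 1 0 s t x ∧ Ce g e) := by
  have hprod := prod_of_mem he
  obtain ⟨htt, hp1, hp2⟩ := tt_eq he
  obtain ⟨h1, h2, h3⟩ := he
  have hprod' : nm e.1 * nm e.2 = r.1 ^ 2 + 1 := by rw [h3]; exact hprod
  have hsq1 : Squarefree g.1 := hg.1.squarefree_of_dvd (dvd_mul_right _ _)
  have hsq2 : Squarefree g.2 := hg.1.squarefree_of_dvd (dvd_mul_left _ _)
  have hdiv : (r.1 ^ 2 + 1) / r.2 = nm e.2 := by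
    rw [← hprod]
    apply Nat.mul_div_cancel_left
    rw [← h3]
    exact_mod_cast hp1
  have hs : s ≤ tt r ↔ Real.exp s * (nm e.1 : ℝ) ≤ (nm e.2 : ℝ) := by
    rw [htt, le_sub_iff_add_le]
    rw [← Real.exp_le_exp, Real.exp_add, Real.exp_log hp1, Real.exp_log hp2]
  have ht : tt r < t ↔ (nm e.2 : ℝ) < Real.exp t * (nm e.1 : ℝ) := by
    rw [htt, sub_lt_iff_lt_add]
    rw [← Real.exp_lt_exp, Real.exp_add, Real.exp_log hp1, Real.exp_log hp2]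
  have heven : Even r.1 ↔ Odd (nm e.1) ∧ Odd (nm e.2) := by
    rw [← Nat.odd_mul, hprod']
    rw [Nat.odd_add_one, Nat.not_odd_iff_even, Nat.even_pow' two_ne_zero]
  have hcg : cg 1 e.1 (0 : G × G).1 ∧ cg 1 e.2 (0 : G × G).2 := by
    refine ⟨⟨?_, ?_⟩, ⟨?_, ?_⟩⟩ <;> exact one_dvd _
  rw [mem_pd]
  unfold Cd
  rw [hdiv, hs, ht, heven, dvd_iff_primes hsq1, dvd_iff_primes hsq2, ← hprod', ← h3]
  unfold Ce NE
  rw [Set.mem_ofPred_eq, h2, h1]
  have hdot : (0 : ℤ) < (r.1 : ℤ) ↔ 1 ≤ r.1 := by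
    constructor <;> intro h <;> omega
  have hx : (((r.1 : ℤ) : ℤ) : ℝ) ≤ x ↔ (r.1 : ℝ) ≤ x := by
    rw [Int.cast_natCast]
  rw [hdot, hx]
  have hdv : nm e.1 ∣ nm e.1 * nm e.2 := dvd_mul_right _ _
  constructor
  · rintro ⟨⟨a1, a2, a3, _⟩, ⟨a4, a5, a6⟩, a7, a8⟩
    exact ⟨⟨rfl, a1, a2, a7, a8, hcg.1, hcg.2⟩, a3.1, a3.2, a4, a5, a6⟩
  · rintro ⟨⟨_, a1, a2, a7, a8, _, _⟩, b1, b2, a4, a5, a6⟩
    exact ⟨⟨a1, a2, ⟨b1, b2⟩, hdv⟩, ⟨a4, a5, a6⟩, a7, a8⟩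

/-- The edges with `Ce g` and `s ≤ tt < t`, `0 < dot ≤ x` are, by `four`, four times the pairs `r = (m, d) ∈ pd x` with `Cd g r`, `s ≤ tt r < t`
(`r = (dot, nm V)`, `(m^2+1)/d = nm V'`, `tt r = log (nm V' / nm V)`; `m` even iff both norms odd, since `nm V nm V' = m^2 + 1`;
for squarefree `g`: `g ∣ d` iff all its primes divide `d`). -/
theorem dcount_edges (g : ℕ × ℕ) (hg : Adm g) (s t x : ℝ) :
    4 * ({r : ℕ × ℕ | r ∈ pd x ∧ Cd g r ∧ s ≤ tt r ∧ tt r < t}.ncard) =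
      {e : G × G | e ∈ NE 1 0 s t x ∧ Ce g e}.ncard := by
  classical
  set R : Finset (ℕ × ℕ) := (pd x).filter (fun r => Cd g r ∧ s ≤ tt r ∧ tt r < t) with hR
  have hRs : {r : ℕ × ℕ | r ∈ pd x ∧ Cd g r ∧ s ≤ tt r ∧ tt r < t} = (R : Set (ℕ × ℕ)) := by
    ext r
    rw [hR, Finset.coe_filter]
  have hdvd : ∀ r ∈ R, r.2 ∣ r.1 ^ 2 + 1 := by
    intro r hr
    rw [hR, mem_filter, mem_pd] at hr
    exact hr.1.2.2.2
  have hcard : ∀ r ∈ R, (fibD r).ncard = 4 := fun r hr => four r.1 r.2 (hdvd r hr)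
  have hfin : ∀ r ∈ R, (fibD r).Finite := fun r hr =>
    Set.finite_of_ncard_ne_zero (by rw [hcard r hr]; norm_num)
  have hE : {e : G × G | e ∈ NE 1 0 s t x ∧ Ce g e}
      = ((R.attach.biUnion (fun r => (hfin r.1 r.2).toFinset) : Finset (G × G)) : Set (G × G)) := by
    ext e
    rw [Set.mem_ofPred_eq, Finset.mem_coe, mem_biUnion]
    constructor
    · intro he
      have hdet : det e.1 e.2 = 1 := he.1.1
      have hdot : 0 < dot e.1 e.2 := he.1.2.1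
      have hmem : e ∈ fibD ((dot e.1 e.2).toNat, nm e.1) :=
        ⟨hdet, (Int.toNat_of_nonneg hdot.le).symm, rfl⟩
      have hr : ((dot e.1 e.2).toNat, nm e.1) ∈ R := by
        rw [hR, mem_filter]
        have := (fib_iff hg hmem).2 he
        exact ⟨this.1, this.2⟩
      exact ⟨⟨_, hr⟩, mem_attach _ _, by rw [Set.Finite.mem_toFinset]; exact hmem⟩
    · rintro ⟨r, _, hr⟩
      rw [Set.Finite.mem_toFinset] at hr
      have hrR := mem_filter.1 r.2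
      exact (fib_iff hg hr).1 ⟨hrR.1, hrR.2⟩
  rw [hRs, hE, Set.ncard_coe_finset, Set.ncard_coe_finset, card_biUnion]
  · have : ∀ r ∈ R.attach, ((hfin r.1 r.2).toFinset).card = 4 := by
      intro r _
      rw [← Set.ncard_eq_toFinset_card _ (hfin r.1 r.2)]
      exact hcard r.1 r.2
    rw [sum_congr rfl this, sum_const, card_attach, smul_eq_mul, mul_comm]
  · intro r _ r' _ hne
    rw [Function.onFun, Finset.disjoint_left]
    intro e h1 h2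
    rw [Set.Finite.mem_toFinset] at h1 h2
    apply hne
    apply Subtype.ext
    apply Prod.ext
    · have a := h1.2.1
      have b := h2.2.1
      rw [a] at b
      exact_mod_cast b
    · exact h1.2.2.symm.trans h2.2.2

end Pool.Agent.OmAll
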