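import Pool.Agent.Lib_MP_f1a94e_aq.Defs
import Pool.Agent.Lib_MP_f1a94e_mr.EdgeCount

/-!
# Piece EGTX: good edges
-/

set_option autoImplicit false

namespace Pool.Agent.OmAll

open Finset Pool.Agent.GaussMR

/-- good edges -/
def EG (q a : ℕ) (X : ℝ) : Set (G × G) :=
  {e | det e.1 e.2 = 1 ∧ Odd (nm e.1) ∧ Odd (nm e.2) ∧ (nm e.1 : ℝ) ≤ X ∧ (nm e.2 : ℝ) ≤ X ∧
    0 < dot e.1 e.2 ∧ ArithmeticFunction.cardFactors (nm e.1 * nm e.2) ≡ a [MOD q]}

theorem EG_finite (q a : ℕ) (X : ℝ) : (EG q a X).Finite := by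
  apply ((finite_ball X).prod (finite_ball X)).subset
  intro e he
  exact ⟨he.2.2.2.1, he.2.2.2.2.1⟩

theorem EG_prod {q a : ℕ} {X : ℝ} {e : G × G} (he : e ∈ EG q a X) :
    nm e.1 * nm e.2 = (dot e.1 e.2).natAbs ^ 2 + 1 := by
  have h5 := dot_sq_add_det_sq e.1 e.2
  have h7 : dot e.1 e.2 ^ 2 = (((dot e.1 e.2).natAbs ^ 2 : ℕ) : ℤ) := by
    push_cast
    rw [sq_abs]
  rw [he.1, h7] at h5
  norm_num at h5
  have h8 : ((nm e.1 * nm e.2 : ℕ) : ℤ) = (((dot e.1 e.2).natAbs ^ 2 + 1 : ℕ) : ℤ) := by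
    push_cast
    rw [sq_abs]
    linarith
  exact_mod_cast h8

/-- the good edges with a given scalar product -/
theorem EG_fib (q a : ℕ) (X : ℝ) (E : Finset (G × G)) (hE : ∀ e ∈ E, e ∈ EG q a X) (m : ℕ)
    (hm : ∀ e ∈ E, (dot e.1 e.2).natAbs = m) : E.card ≤ 4 * tx X m := by
  classical
  set D := (Nat.divisors (m ^ 2 + 1)).filter
    (fun d : ℕ => (d : ℝ) ≤ X ∧ ((m ^ 2 + 1 : ℕ) : ℝ) ≤ X * d) with hD
  have himg : E.image (fun e => nm e.1) ⊆ D := by
    intro t ht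
    obtain ⟨e, he, rfl⟩ := mem_image.mp ht
    obtain ⟨h1, h2, h3, h4, h5, h6, h7⟩ := hE e he
    have hprod := EG_prod (hE e he)
    rw [hm e he] at hprod
    rw [hD, mem_filter, Nat.mem_divisors]
    refine ⟨⟨⟨nm e.2, hprod.symm⟩, by positivity⟩, h4, ?_⟩
    rw [← hprod]
    push_cast
    rw [mul_comm]
    exact mul_le_mul_of_nonneg_right h5 (by positivity)
  have hfib : ∀ t ∈ E.image (fun e => nm e.1), (E.filter (fun e => nm e.1 = t)).card ≤ 4 := by
    intro t _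
    apply edge_fiber _ (m : ℤ) 1 t (Or.inl rfl)
    intro r hr
    rw [mem_filter] at hr
    refine ⟨(hE r hr.1).1, ?_, hr.2⟩
    have h0 := (hE r hr.1).2.2.2.2.2.1
    have h1 := hm r hr.1
    omega
  have h1 := card_le_mul_card_image E 4 hfib
  have h2 := card_le_card himg
  rw [hD, ← tx_eq] at h2
  calc E.card ≤ 4 * (E.image (fun e => nm e.1)).card := h1
    _ ≤ 4 * tx X m := Nat.mul_le_mul_left _ h2

/-- `e ↦ (dot e.1 e.2, nm e.1)` maps `EG q a X` to the pairs `(m, d)`, `d` counted by `tx X m`, with fibres of size at most `4`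
(`edge_fiber`); `m = dot` is positive, even (`m^2 + 1 = nm e.1 nm e.2` odd), at most `X` (`m^2 < X^2`). -/
theorem EG_le (q a : ℕ) (X : ℝ) (hX : 0 ≤ X) : ((EG q a X).ncard : ℝ) ≤
    4 * ∑ m ∈ (Icc 1 ⌊X⌋₊).filter
      (fun m => Even m ∧ ArithmeticFunction.cardFactors (m ^ 2 + 1) ≡ a [MOD q]), (tx X m : ℝ) := by
  classical
  set B := (Icc 1 ⌊X⌋₊).filter
      (fun m => Even m ∧ ArithmeticFunction.cardFactors (m ^ 2 + 1) ≡ a [MOD q]) with hB
  set E := (EG_finite q a X).toFinset with hE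
  have hEm : ∀ e ∈ E, e ∈ EG q a X := fun e he => (EG_finite q a X).mem_toFinset.1 he
  rw [Set.ncard_eq_toFinset_card _ (EG_finite q a X), ← hE]
  have hsub : E ⊆ B.biUnion (fun m => E.filter (fun e => (dot e.1 e.2).natAbs = m)) := by
    intro e he
    rw [mem_biUnion]
    refine ⟨(dot e.1 e.2).natAbs, ?_, mem_filter.mpr ⟨he, rfl⟩⟩
    obtain ⟨h1, h2, h3, h4, h5, h6, h7⟩ := hEm e he
    have hprod := EG_prod (hEm e he)
    set m := (dot e.1 e.2).natAbs with hm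
    have hodd : Odd (m ^ 2 + 1) := by
      rw [← hprod]
      exact h2.mul h3
    rw [hB, mem_filter, mem_Icc]
    have hm1 : 1 ≤ m := by omega
    refine ⟨⟨hm1, ?_⟩, ?_, ?_⟩
    · rw [Nat.le_floor_iff' (by omega)]
      have h8 : ((m ^ 2 + 1 : ℕ) : ℝ) ≤ X * X := by
        rw [← hprod]
        push_cast
        exact mul_le_mul h4 h5 (by positivity) hX
      push_cast at h8
      nlinarith [sq_nonneg ((m : ℝ) - X)]
    · by_contra hne
      rw [Nat.not_even_iff_odd] at hne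
      have : Even (m ^ 2 + 1) := (hne.pow).add_odd odd_one
      exact (Nat.not_even_iff_odd.mpr hodd) this
    · rw [← hprod]
      exact h7
  calc (E.card : ℝ)
      ≤ ((B.biUnion (fun m => E.filter (fun e => (dot e.1 e.2).natAbs = m))).card : ℝ) := by
        exact_mod_cast card_le_card hsub
    _ ≤ ∑ m ∈ B, ((E.filter (fun e => (dot e.1 e.2).natAbs = m)).card : ℝ) := by
        exact_mod_cast card_biUnion_le
    _ ≤ ∑ m ∈ B, 4 * (tx X m : ℝ) := by
        apply sum_le_sum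
        intro m _
        have := EG_fib q a X (E.filter (fun e => (dot e.1 e.2).natAbs = m))
          (fun e he => hEm e (mem_filter.1 he).1) m (fun e he => (mem_filter.1 he).2)
        exact_mod_cast this
    _ = 4 * ∑ m ∈ B, (tx X m : ℝ) := by rw [mul_sum]

end Pool.Agent.OmAll
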