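import Pool.Agent.Lib_MP_f1a94e_aq.Defs
import Pool.Agent.Lib_MP_f1a94e_mr.Main
import Pool.Agent.Lib_MP_f1a94e_mu.EdgesLin

/-!
# Piece EDGEPAR: sign changes and parity
-/

set_option autoImplicit false

namespace Pool.Agent.OmAll

open Finset Pool.Agent.GaussMR Filter

namespace EdgePar

/-- the Liouville function with real values -/
private noncomputable def lam (n : ℕ) : ℝ := (-1 : ℝ) ^ ArithmeticFunction.cardFactors n

private theorem lam_pm (n : ℕ) : lam n = 1 ∨ lam n = -1 := neg_one_pow_eq_or ℝ _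

private theorem lam_mul {m n : ℕ} (hm : m ≠ 0) (hn : n ≠ 0) : lam (m * n) = lam m * lam n := by
  unfold lam
  rw [ArithmeticFunction.cardFactors_mul hm hn, pow_add]

private theorem lam_one : lam 1 = 1 := by
  unfold lam
  rw [ArithmeticFunction.cardFactors_one, pow_zero]

private theorem lam_neg {n : ℕ} (h : lam n = -1) : ArithmeticFunction.cardFactors n % 2 = 1 := by
  rcases Nat.even_or_odd (ArithmeticFunction.cardFactors n) with h1 | h1
  · unfold lam at h
    rw [h1.neg_one_pow] at h
    norm_num at h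
  · exact Nat.odd_iff.1 h1

private theorem lam_pos {n : ℕ} (h : lam n = 1) : ArithmeticFunction.cardFactors n % 2 = 0 := by
  rcases Nat.even_or_odd (ArithmeticFunction.cardFactors n) with h1 | h1
  · exact Nat.even_iff.1 h1
  · unfold lam at h
    rw [h1.neg_one_pow] at h
    norm_num at h

private theorem nm_mk (m : ℕ) : nm (⟨(m : ℤ), 1⟩ : G) = m ^ 2 + 1 := nm_line_main m

private theorem core (F : G → ℝ) (hF : PM F) (v : G) (hv : Odd (nm v)) (hp : Prim v)
    (hFv : F v = -1) (a : ℕ)
    (ha : ∀ m : ℕ, F ⟨(m : ℤ), 1⟩ = -1 →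
      ArithmeticFunction.cardFactors (m ^ 2 + 1) % 2 = a % 2) :
    ∃ c X0 : ℝ, 0 < c ∧ ∀ X : ℝ, X0 ≤ X →
    c * X ≤ ∑ m ∈ (Icc 1 ⌊X⌋₊).filter
      (fun m => Even m ∧ ArithmeticFunction.cardFactors (m ^ 2 + 1) % 2 = a % 2), (tx X m : ℝ) := by
  obtain ⟨c, X0, hc, h⟩ := edges_lin F hF v hv hp hFv
  refine ⟨c / 32, max X0 (32 / c), by positivity, fun X hX => ?_⟩
  have h1 := h X ((le_max_left _ _).trans hX)
  have h2 : 32 / c ≤ X := (le_max_right _ _).trans hX
  have h3 : 32 ≤ c * X := by
    rw [div_le_iff₀ hc] at h2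
    linarith
  set A := (Icc 1 ⌊X⌋₊).filter
      (fun m => Even m ∧ ArithmeticFunction.cardFactors (m ^ 2 + 1) % 2 = a % 2) with hA
  have h0A : (0 : ℕ) ∉ A := by
    rw [hA, mem_filter, mem_Icc]
    omega
  have h4 := edge_count F hF X (insert 0 A) (by
    intro m hm hmX hFm
    rw [mem_insert]
    rcases Nat.eq_zero_or_pos m with h5 | h5
    · exact Or.inl h5
    · right
      rw [hA, mem_filter, mem_Icc]
      exact ⟨⟨h5, (Nat.le_floor_iff' (by omega)).2 hmX⟩, hm, ha m hFm⟩)
  rw [sum_insert h0A] at h4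
  have h5 : (tx X 0 : ℝ) ≤ 1 := by
    have h6 : tx X 0 ≤ 1 := by
      rw [tx_eq]
      refine (card_filter_le _ _).trans ?_
      simp
    exact_mod_cast h6
  linarith

end EdgePar

open EdgePar in
/-- `edges_lin` with `F z = (-1)^Ω(nm z)` if `a` is odd, `F z = (-1)^Ω(nm z) * tw z` (`tw` in mr/Main.lean; see `general_real` there for the proof of `PM` and the values
at `m + i`) if `a` is even; `v` with `F v = -1` (`⟨2, 1⟩`, resp. `⟨0, 1⟩`). `edge_count`/`edge_m` (mr/EdgeCount): the edges with `dot = ± m` number at most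
`16 tx X m`; for an edge `m` is even, `m ≤ X`, and `F (m + i) = F V F V' = -1`, i.e. `Ω(m^2+1) = a` mod 2. The edges with `m = 0` number at most `16 tx X 0 ≤ 16`: absorbed by halving `c`. -/
theorem edge_par (a : ℕ) : ∃ c X0 : ℝ, 0 < c ∧ ∀ X : ℝ, X0 ≤ X →
    c * X ≤ ∑ m ∈ (Icc 1 ⌊X⌋₊).filter
      (fun m => Even m ∧ ArithmeticFunction.cardFactors (m ^ 2 + 1) % 2 = a % 2), (tx X m : ℝ) := by
  have hpm : ∀ z : G, lam (nm z) = 1 ∨ lam (nm z) = -1 := fun z => lam_pm _
  have hmul : ∀ z w : G, Odd (nm z) → Odd (nm w) →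
      lam (nm (z * w)) = lam (nm z) * lam (nm w) := by
    intro z w hz hw
    rw [nm_mul, lam_mul (nm_pos_of_odd hz).ne' (nm_pos_of_odd hw).ne']
  rcases Nat.even_or_odd a with hev | hodd
  · have ha2 : a % 2 = 0 := Nat.even_iff.1 hev
    have hF : PM (fun z => lam (nm z) * tw z) := by
      refine ⟨?_, ?_, ?_, ?_⟩
      · intro z _
        rcases hpm z with h | h <;> rcases tw_pm z with h' | h' <;> simp only [h, h'] <;>
          norm_num
      · intro z w hz hw
        simp only [hmul z w hz hw, tw_mul z w hz hw]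
        ring
      · intro z _
        have : tw (star z) = tw z := by
          unfold tw
          simp
        simp only [nm_star, this]
      · have : tw (-1) = 1 := by
          unfold tw
          simp
        simp only [nm_neg, nm_one, lam_one, this]
        norm_num
    have htw : ∀ m : ℤ, tw ⟨m, 1⟩ = -1 := by
      intro m
      unfold tw
      simp
    have hv : nm (⟨0, 1⟩ : G) = 1 := by
      have := nm_mk 0
      simpa using this
    refine core _ hF ⟨0, 1⟩ (by rw [hv]; exact odd_one)
      (by unfold Prim; exact isCoprime_one_right)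
      (by simp only [hv, lam_one, htw]; norm_num) a ?_
    intro m hm
    simp only [nm_mk, htw] at hm
    rw [ha2]
    exact lam_pos (by linarith)
  · have ha2 : a % 2 = 1 := Nat.odd_iff.1 hodd
    have hF : PM (fun z => lam (nm z)) := by
      refine ⟨fun z _ => hpm z, hmul, ?_, ?_⟩
      · intro z _
        simp only [nm_star]
      · simp only [nm_neg, nm_one, lam_one]
    have hv : nm (⟨2, 1⟩ : G) = 5 := by
      have := nm_mk 2
      simpa using this
    have h5 : lam 5 = -1 := by
      unfold lam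
      rw [ArithmeticFunction.cardFactors_apply_prime (by norm_num)]
      norm_num
    refine core _ hF ⟨2, 1⟩ (by rw [hv]; decide)
      (by unfold Prim; exact isCoprime_one_right)
      (by simp only [hv, h5]) a ?_
    intro m hm
    simp only [nm_mk] at hm
    rw [ha2]
    exact lam_neg hm

end Pool.Agent.OmAll
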