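import Pool.Agent.Lib_MP_f1a94e_aq.Defs
import Pool.Agent.Lib_MP_f1a94e_mr.EdgeCount

/-!
# Piece EXIST: factorisations of `m ^ 2 + 1` and Farey edges
-/

set_option autoImplicit false

namespace Pool.Agent.OmAll

open Finset Pool.Agent.GaussMR

namespace Exist

theorem key (n : ℕ) : ∀ m : ℤ, m.natAbs = n → ∀ d e : ℕ, (d : ℤ) * e = m ^ 2 + 1 →
    ∃ V V' : G, det V V' = 1 ∧ dot V V' = m ∧ nm V = d ∧ nm V' = e := by
  induction n using Nat.strong_induction_on with
  | _ n ih =>
  intro m hm d e h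
  by_cases hm0 : m = 0
  · subst hm0
    have h1 : d * e = 1 := by
      have : (d : ℤ) * e = 1 := by rw [h]; norm_num
      exact_mod_cast this
    obtain rfl : d = 1 := Nat.dvd_one.1 (Dvd.intro _ h1)
    obtain rfl : e = 1 := Nat.dvd_one.1 (Dvd.intro_left _ h1)
    refine ⟨⟨1, 0⟩, ⟨0, 1⟩, rfl, rfl, ?_, ?_⟩
    · have : ((nm (⟨1, 0⟩ : G) : ℕ) : ℤ) = ((1 : ℕ) : ℤ) := by rw [nm_eq]; norm_num
      exact_mod_cast this
    · have : ((nm (⟨0, 1⟩ : G) : ℕ) : ℤ) = ((1 : ℕ) : ℤ) := by rw [nm_eq]; norm_num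
      exact_mod_cast this
  obtain ⟨s, hs, hsm⟩ : ∃ s : ℤ, s * s = 1 ∧ s * m = |m| := by
    rcases le_total 0 m with h0 | h0
    · exact ⟨1, by norm_num, by rw [one_mul, abs_of_nonneg h0]⟩
    · exact ⟨-1, by norm_num, by rw [abs_of_nonpos h0]; ring⟩
  have hs1 : s = 1 ∨ s = -1 := by
    have : (s - 1) * (s + 1) = 0 := by linear_combination hs
    rcases mul_eq_zero.1 this with h1 | h1
    · left; omega
    · right; omega
  have hab : (m.natAbs : ℤ) = |m| := Int.natCast_natAbs m
  have hpos : 0 < |m| := abs_pos.2 hm0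
  have habs2 : |m| * |m| = m ^ 2 := by rw [abs_mul_abs_self]; ring
  have hd0 : 0 < (d : ℤ) := by
    by_contra hc
    have : (d : ℤ) = 0 := by omega
    rw [this, zero_mul] at h
    nlinarith [sq_nonneg m]
  have he0 : 0 < (e : ℤ) := by
    by_contra hc
    have : (e : ℤ) = 0 := by omega
    rw [this, mul_zero] at h
    nlinarith [sq_nonneg m]
  have hcase : (d : ℤ) ≤ |m| ∨ (e : ℤ) ≤ |m| := by
    by_contra hc
    push Not at hc
    obtain ⟨h1, h2⟩ := hc
    have h3 : (|m| + 1) * (|m| + 1) ≤ (d : ℤ) * e :=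
      mul_le_mul (by omega) (by omega) (by omega) (by omega)
    nlinarith
  -- the absolute value of `m - s c`
  have hnat : ∀ c : ℤ, 0 < c → c ≤ |m| → (m - s * c).natAbs < n := by
    intro c hc0 hc
    have h1 : |m - s * c| = |m| - c := by
      have h2 : m - s * c = s * (|m| - c) := by
        rw [← hsm]
        linear_combination (-m) * hs
      rw [h2, abs_mul]
      have h3 : |s| = 1 := by
        rcases hs1 with h | h <;> rw [h] <;> norm_num
      rw [h3, one_mul, abs_of_nonneg (by omega)]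
    have h4 : ((m - s * c).natAbs : ℤ) = |m - s * c| := Int.natCast_natAbs _
    omega
  rcases hcase with hc | hc
  · have hprod : (d : ℤ) * (e - 2 * |m| + d) = (m - s * d) ^ 2 + 1 := by
      rw [← hsm]
      linear_combination h - (d : ℤ) ^ 2 * hs
    have hpos1 : 0 < (e : ℤ) - 2 * |m| + d := by
      by_contra hn
      have h1 : (d : ℤ) * (e - 2 * |m| + d) ≤ 0 :=
        mul_nonpos_of_nonneg_of_nonpos hd0.le (by omega)
      rw [hprod] at h1
      nlinarith [sq_nonneg (m - s * d)]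
    obtain ⟨e1, he1⟩ : ∃ e1 : ℕ, (e1 : ℤ) = e - 2 * |m| + d :=
      ⟨((e : ℤ) - 2 * |m| + d).toNat, Int.toNat_of_nonneg hpos1.le⟩
    obtain ⟨V, V'', h1, h2, h3, h4⟩ := ih _ (hnat d hd0 hc) (m - s * d) rfl d e1
      (by rw [he1, hprod])
    have h3' : V.re ^ 2 + V.im ^ 2 = (d : ℤ) := by rw [← nm_eq, h3]
    have h4' : V''.re ^ 2 + V''.im ^ 2 = (e1 : ℤ) := by rw [← nm_eq, h4]
    unfold det at h1
    unfold dot at h2
    refine ⟨V, ⟨V''.re + s * V.re, V''.im + s * V.im⟩, ?_, ?_, h3, ?_⟩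
    · unfold det
      simp only
      linear_combination h1
    · unfold dot
      simp only
      linear_combination h2 + s * h3'
    · have h5 : ((nm (⟨V''.re + s * V.re, V''.im + s * V.im⟩ : G) : ℕ) : ℤ) = (e : ℤ) := by
        rw [nm_eq]
        simp only
        linear_combination h4' + s ^ 2 * h3' + 2 * s * h2 + he1 - (d : ℤ) * hs + 2 * hsm
      exact_mod_cast h5
  · have hprod : ((d : ℤ) - 2 * |m| + e) * e = (m - s * e) ^ 2 + 1 := by
      rw [← hsm]
      linear_combination h - (e : ℤ) ^ 2 * hs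
    have hpos1 : 0 < (d : ℤ) - 2 * |m| + e := by
      by_contra hn
      have h1 : ((d : ℤ) - 2 * |m| + e) * e ≤ 0 :=
        mul_nonpos_of_nonpos_of_nonneg (by omega) he0.le
      rw [hprod] at h1
      nlinarith [sq_nonneg (m - s * e)]
    obtain ⟨d1, hd1⟩ : ∃ d1 : ℕ, (d1 : ℤ) = d - 2 * |m| + e :=
      ⟨((d : ℤ) - 2 * |m| + e).toNat, Int.toNat_of_nonneg hpos1.le⟩
    obtain ⟨V'', V', h1, h2, h3, h4⟩ := ih _ (hnat e he0 hc) (m - s * e) rfl d1 e
      (by rw [hd1, hprod])
    have h3' : V''.re ^ 2 + V''.im ^ 2 = (d1 : ℤ) := by rw [← nm_eq, h3]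
    have h4' : V'.re ^ 2 + V'.im ^ 2 = (e : ℤ) := by rw [← nm_eq, h4]
    unfold det at h1
    unfold dot at h2
    refine ⟨⟨V''.re + s * V'.re, V''.im + s * V'.im⟩, V', ?_, ?_, ?_, h4⟩
    · unfold det
      simp only
      linear_combination h1
    · unfold dot
      simp only
      linear_combination h2 + s * h4'
    · have h5 : ((nm (⟨V''.re + s * V'.re, V''.im + s * V'.im⟩ : G) : ℕ) : ℤ) = (d : ℤ) := by
        rw [nm_eq]
        simp only
        linear_combination h3' + s ^ 2 * h4' + 2 * s * h2 + hd1 - (e : ℤ) * hs + 2 * hsm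
      exact_mod_cast h5

end Exist

/-- Every factorisation `m ^ 2 + 1 = d e` comes from an edge. Prove the version with `m : ℤ` by strong induction on
`m.natAbs`: if `m = 0` then `d = e = 1`, take `(1, i)`. Otherwise `min d e ≤ |m|` (else `d e ≥ (|m| + 1)^2`). If `d ≤ |m|`
apply the induction hypothesis to `(m - s d, d, e - 2 s m + d)`, `s = sign m` (`|m - s d| < |m|`, the product identity
`d (e - 2 s m + d) = (m - s d)^2 + 1`), getting `(V, V'')`, and take `V' = V'' + s V`. If `e ≤ |m|` symmetric: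
`(m - s e, d - 2 s m + e, e)`, `V = V'' + s V'`. -/
theorem exists_edge (m d e : ℕ) (h : d * e = m ^ 2 + 1) :
    ∃ V V' : G, det V V' = 1 ∧ dot V V' = m ∧ nm V = d ∧ nm V' = e :=
  Exist.key _ (m : ℤ) rfl d e (by exact_mod_cast h)

/-- Exactly four edges for every divisor: at most four by `edge_fiber` (mr/EdgeCount), and if `(V, V')` is one of
them (from `exists_edge`), so are `(i^k V, i^k V')`, `k < 4` (`i = ⟨0, 1⟩`), which are different as `V ≠ 0`. -/
theorem four (m d : ℕ) (h : d ∣ m ^ 2 + 1) :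
    {e : G × G | det e.1 e.2 = 1 ∧ dot e.1 e.2 = m ∧ nm e.1 = d}.ncard = 4 := by
  classical
  obtain ⟨e, he⟩ := h
  obtain ⟨V, V', h1, h2, h3, _⟩ := exists_edge m d e he.symm
  have hd0 : 0 < d := by
    rcases Nat.eq_zero_or_pos d with h | h
    · rw [h, zero_mul] at he
      omega
    · exact h
  have hV : V.re ^ 2 + V.im ^ 2 = (d : ℤ) := by rw [← nm_eq, h3]
  have hV0 : V.re ≠ 0 ∨ V.im ≠ 0 := by
    by_contra hc
    push Not at hc
    rw [hc.1, hc.2] at hV
    have : (0 : ℤ) < d := by exact_mod_cast hd0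
    simp at hV
    omega
  set S := {e : G × G | det e.1 e.2 = 1 ∧ dot e.1 e.2 = m ∧ nm e.1 = d} with hS
  have hmem : ∀ r : G × G, r ∈ S ↔ det r.1 r.2 = 1 ∧ dot r.1 r.2 = m ∧ nm r.1 = d :=
    fun _ => Iff.rfl
  unfold det at h1
  unfold dot at h2
  have hnmr : ∀ a b : ℤ, a ^ 2 + b ^ 2 = (d : ℤ) → nm (⟨a, b⟩ : G) = d := by
    intro a b hab
    have : ((nm (⟨a, b⟩ : G) : ℕ) : ℤ) = (d : ℤ) := by rw [nm_eq]; exact hab
    exact_mod_cast this
  let P : Finset (G × G) := {(⟨V.re, V.im⟩, ⟨V'.re, V'.im⟩), (⟨-V.im, V.re⟩, ⟨-V'.im, V'.re⟩),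
    (⟨-V.re, -V.im⟩, ⟨-V'.re, -V'.im⟩), (⟨V.im, -V.re⟩, ⟨V'.im, -V'.re⟩)}
  have hPS : ∀ r ∈ P, r ∈ S := by
    intro r hr
    simp only [P, Finset.mem_insert, Finset.mem_singleton] at hr
    rw [hmem]
    unfold det dot
    rcases hr with rfl | rfl | rfl | rfl
    · exact ⟨h1, h2, hnmr _ _ hV⟩
    · refine ⟨by simp only; linear_combination h1, by simp only; linear_combination h2,
        hnmr _ _ (by linear_combination hV)⟩
    · refine ⟨by simp only; linear_combination h1, by simp only; linear_combination h2,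
        hnmr _ _ (by linear_combination hV)⟩
    · refine ⟨by simp only; linear_combination h1, by simp only; linear_combination h2,
        hnmr _ _ (by linear_combination hV)⟩
  have hP4 : P.card = 4 := by
    have hne : ∀ a b a' b' : ℤ, ∀ w w' : G, ¬ (a = a' ∧ b = b') →
        ((⟨a, b⟩, w) : G × G) ≠ (⟨a', b'⟩, w') := by
      intro a b a' b' w w' hc hh
      apply hc
      have h5 := congrArg Prod.fst hh
      exact ⟨congrArg Zsqrtd.re h5, congrArg Zsqrtd.im h5⟩
    rw [Finset.card_insert_of_notMem, Finset.card_insert_of_notMem,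
      Finset.card_insert_of_notMem, Finset.card_singleton]
    · rw [Finset.mem_singleton]
      exact hne _ _ _ _ _ _ (by omega)
    · rw [Finset.mem_insert, Finset.mem_singleton, not_or]
      exact ⟨hne _ _ _ _ _ _ (by omega), hne _ _ _ _ _ _ (by omega)⟩
    · rw [Finset.mem_insert, Finset.mem_insert, Finset.mem_singleton, not_or, not_or]
      exact ⟨hne _ _ _ _ _ _ (by omega), hne _ _ _ _ _ _ (by omega),
        hne _ _ _ _ _ _ (by omega)⟩
  have hSP : S = (P : Set (G × G)) := by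
    apply Set.Subset.antisymm
    · intro x hx
      by_contra hxP
      rw [Finset.mem_coe] at hxP
      have h5 := edge_fiber (insert x P) m 1 d (Or.inl rfl) (by
        intro r hr
        rcases Finset.mem_insert.1 hr with rfl | hr
        · exact (hmem _).1 hx
        · exact (hmem _).1 (hPS r hr))
      rw [Finset.card_insert_of_notMem hxP, hP4] at h5
      omega
    · intro x hx
      exact hPS x (Finset.mem_coe.1 hx)
  rw [hSP, Set.ncard_coe_finset, hP4]

end Pool.Agent.OmAll
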