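import Pool.Agent.Lib_MP_f1a94e_aq.Defs

/-!
# Piece EXPAND: clusters
-/

set_option autoImplicit false

namespace Pool.Agent.OmAll

open Finset Pool.Agent.GaussMR

private theorem n_pos (m : ℕ) : 0 < m ^ 2 + 1 := by positivity

private theorem ps_prime {T m p : ℕ} (h : p ∈ ps T m) : p.Prime := by
  unfold ps at h
  rw [mem_filter] at h
  exact Nat.prime_of_mem_primeFactors h.1

private theorem mem_ps {T m p : ℕ} :
    p ∈ ps T m ↔ p.Prime ∧ p ∣ m ^ 2 + 1 ∧ p ≤ T ∧ ¬ p ^ 2 ∣ m ^ 2 + 1 := by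
  unfold ps
  rw [mem_filter, Nat.mem_primeFactors]
  constructor
  · rintro ⟨⟨h1, h2, _⟩, h3, h4⟩; exact ⟨h1, h2, h3, h4⟩
  · rintro ⟨h1, h2, h3, h4⟩; exact ⟨⟨h1, h2, (n_pos m).ne'⟩, h3, h4⟩

private theorem sT_pf (T m : ℕ) : (sT T m).primeFactors = ps T m :=
  Nat.primeFactors_prod fun _ hp => ps_prime hp

private theorem sT_sqf (T m : ℕ) : Squarefree (sT T m) := by
  unfold sT
  apply Finset.squarefree_prod_of_pairwise_isCoprime
  · intro p hp q hq hpq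
    exact Nat.coprime_iff_isRelPrime.1 ((Nat.coprime_primes (ps_prime hp) (ps_prime hq)).2 hpq)
  · intro p hp
    exact (Nat.prime_iff.1 (ps_prime hp)).squarefree

private theorem sT_dvd (T m : ℕ) : sT T m ∣ m ^ 2 + 1 := by
  unfold sT
  exact Finset.prod_primes_dvd _ (fun p hp => Nat.prime_iff.1 (ps_prime hp)) fun p hp => (mem_ps.1 hp).2.1

private theorem sT_pos (T m : ℕ) : 0 < sT T m := Nat.pos_of_dvd_of_pos (sT_dvd T m) (n_pos m)

private theorem prime_dvd_sT {T m p : ℕ} (hp : p.Prime) : p ∣ sT T m ↔ p ∈ ps T m := by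
  rw [← sT_pf, Nat.mem_primeFactors]
  exact ⟨fun h => ⟨hp, h, (sT_pos T m).ne'⟩, fun h => h.2.1⟩

private theorem sT_cop (T m : ℕ) : (sT T m).Coprime ((m ^ 2 + 1) / sT T m) := by
  apply Nat.Coprime.symm
  apply Nat.coprime_of_dvd
  intro p hp h1 h2
  have h3 := (prime_dvd_sT hp).1 h2
  refine (mem_ps.1 h3).2.2.2 ?_
  rw [sq, ← Nat.mul_div_cancel' (sT_dvd T m)]
  exact Nat.mul_dvd_mul h2 h1

/-- `sT T m` is squarefree, divides `m ^ 2 + 1`, and is coprime to the cofactor -/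
theorem sT_spec (T m : ℕ) : Squarefree (sT T m) ∧ sT T m ∣ m ^ 2 + 1 ∧
    (sT T m).Coprime ((m ^ 2 + 1) / sT T m) ∧ (sT T m).primeFactors = ps T m ∧
    (sT T m).divisors.card = 2 ^ (ps T m).card := by
  refine ⟨sT_sqf T m, sT_dvd T m, sT_cop T m, sT_pf T m, ?_⟩
  rw [Nat.card_divisors (sT_pos T m).ne', sT_pf]
  rw [Finset.prod_congr rfl (g := fun _ => 2), Finset.prod_const]
  intro p hp
  have h1 : p ∈ (sT T m).primeFactors := by rw [sT_pf]; exact hp
  rw [Nat.factorization_eq_one_of_squarefree (sT_sqf T m) (Nat.prime_of_mem_primeFactors h1)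
    (Nat.dvd_of_mem_primeFactors h1)]

/-- the divisors of `n = s c'`, `gcd(s, c') = 1`, are the products of a divisor of `s` and one of `c'` -/
theorem sum_cluster (T m : ℕ) (F : ℕ → ℝ) : ∑ d ∈ (m ^ 2 + 1).divisors, F d =
    ∑ c ∈ ((m ^ 2 + 1) / sT T m).divisors, ∑ h ∈ (sT T m).divisors, F (c * h) := by
  have e := Nat.div_mul_cancel (sT_dvd T m)
  have hc := (sT_cop T m).symm
  set s := sT T m with hs
  set k := (m ^ 2 + 1) / s with hk
  have hk0 : 0 < k := Nat.pos_of_mul_pos_right (e ▸ n_pos m) |> fun h => h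
  rw [← Finset.sum_product', ← e]
  refine Finset.sum_nbij' (fun d => (d.gcd k, d.gcd s)) (fun r => r.1 * r.2) ?_ ?_ ?_ ?_ ?_
  · intro d hd
    rw [mem_product]
    exact ⟨Nat.mem_divisors.2 ⟨Nat.gcd_dvd_right _ _, hk0.ne'⟩,
      Nat.mem_divisors.2 ⟨Nat.gcd_dvd_right _ _, (sT_pos T m).ne'⟩⟩
  · rintro ⟨c, h⟩ hr
    rw [mem_product] at hr
    exact Nat.mem_divisors.2 ⟨Nat.mul_dvd_mul (Nat.dvd_of_mem_divisors hr.1) (Nat.dvd_of_mem_divisors hr.2),
      (Nat.mul_pos hk0 (sT_pos T m)).ne'⟩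
  · intro d hd
    show d.gcd k * d.gcd s = d
    rw [← Nat.Coprime.gcd_mul d hc]
    exact Nat.gcd_eq_left (Nat.dvd_of_mem_divisors hd)
  · rintro ⟨c, h⟩ hr
    rw [mem_product] at hr
    have h1 := Nat.dvd_of_mem_divisors hr.1
    have h2 := Nat.dvd_of_mem_divisors hr.2
    have h3 : h.Coprime k := (hc.coprime_dvd_right h2).symm
    have h4 : c.Coprime s := hc.coprime_dvd_left h1
    show ((c * h).gcd k, (c * h).gcd s) = (c, h)
    rw [Nat.Coprime.gcd_mul_right_cancel c h3, Nat.Coprime.gcd_mul_left_cancel h h4,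
      Nat.gcd_eq_left h1, Nat.gcd_eq_left h2]
  · intro d hd
    show F d = F (d.gcd k * d.gcd s)
    rw [← Nat.Coprime.gcd_mul d hc, Nat.gcd_eq_left (Nat.dvd_of_mem_divisors hd)]

/-- the even `m`, `1 ≤ m ≤ x` -/
noncomputable def ev (x : ℝ) : Finset ℕ := (Icc 1 ⌊x⌋₊).filter Even

theorem sum_pd (x : ℝ) (F : ℕ × ℕ → ℝ) :
    ∑ r ∈ pd x, F r = ∑ m ∈ ev x, ∑ d ∈ (m ^ 2 + 1).divisors, F (m, d) := by
  refine Eq.trans ?_ (Finset.sum_sigma (ev x) (fun m => (m ^ 2 + 1).divisors) (fun s => F (s.1, s.2)))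
  refine Finset.sum_bij' (fun r _ => ⟨r.1, r.2⟩) (fun s _ => (s.1, s.2)) ?_ ?_ ?_ ?_ ?_
  · intro r hr
    have h := mem_pd.1 hr
    rw [mem_sigma]
    refine ⟨?_, Nat.mem_divisors.2 ⟨h.2.2.2, (n_pos _).ne'⟩⟩
    unfold ev
    rw [mem_filter, mem_Icc]
    exact ⟨⟨h.1, Nat.le_floor h.2.1⟩, h.2.2.1⟩
  · intro s hs
    rw [mem_sigma] at hs
    have h1 := hs.1
    unfold ev at h1
    rw [mem_filter, mem_Icc] at h1
    rw [mem_pd]
    exact ⟨h1.1.1, (Nat.le_floor_iff' (by omega)).1 h1.1.2, h1.2, (Nat.mem_divisors.1 hs.2).1⟩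
  · intro r _; rfl
  · intro s _; rfl
  · intro r _; rfl

private theorem mod4 {m p : ℕ} (hm : Even m) (hp : p.Prime) (h : p ∣ m ^ 2 + 1) : p % 4 = 1 := by
  have := Fact.mk hp
  have h2 : p ≠ 2 := by
    rintro rfl
    obtain ⟨k, rfl⟩ := hm
    have : (k + k) ^ 2 + 1 = 2 * (2 * k ^ 2) + 1 := by ring
    omega
  have h3 : p % 4 ≠ 3 := by
    rw [← ZMod.exists_sq_eq_neg_one_iff]
    refine ⟨(m : ZMod p), ?_⟩
    have h4 : ((m ^ 2 + 1 : ℕ) : ZMod p) = 0 := (ZMod.natCast_eq_zero_iff _ _).2 h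
    push_cast at h4
    linear_combination -h4
  have h5 := hp.eq_two_or_odd
  omega

private theorem dvd_sT {T m g : ℕ} (hg : Squarefree g) (h : ∀ p, p.Prime → p ∣ g → p ∈ ps T m) :
    g ∣ sT T m := by
  rw [← Nat.prod_primeFactors_of_squarefree hg]
  refine Finset.prod_primes_dvd _ (fun p hp => Nat.prime_iff.1 (Nat.prime_of_mem_primeFactors hp)) ?_
  intro p hp
  rw [prime_dvd_sT (Nat.prime_of_mem_primeFactors hp)]
  exact h p (Nat.prime_of_mem_primeFactors hp) (Nat.dvd_of_mem_primeFactors hp)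

private theorem PT_sqf (T : ℕ) : Squarefree (∏ p ∈ PT T, p) := by
  have hP : ∀ p ∈ PT T, p.Prime := by
    intro p hp
    unfold PT at hp
    rw [mem_filter] at hp
    exact hp.2.1
  apply Finset.squarefree_prod_of_pairwise_isCoprime
  · intro p hp q hq hpq
    exact Nat.coprime_iff_isRelPrime.1 ((Nat.coprime_primes (hP p hp) (hP q hq)).2 hpq)
  · intro p hp
    exact (Nat.prime_iff.1 (hP p hp)).squarefree

private theorem PT_prime_dvd {T p : ℕ} (hp : p.Prime) (h : p ∣ ∏ p ∈ PT T, p) : p ∈ PT T := by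
  obtain ⟨q, hq, h1⟩ := (Prime.dvd_finsetProd_iff (Nat.prime_iff.1 hp) _).1 h
  have hq' : q.Prime := by
    unfold PT at hq
    rw [mem_filter] at hq
    exact hq.2.1
  rwa [(Nat.prime_dvd_prime_iff_eq hp hq').1 h1]

private theorem sT_dvd_PT {T m : ℕ} (hm : Even m) : sT T m ∣ ∏ p ∈ PT T, p := by
  unfold sT
  apply Finset.prod_dvd_prod_of_subset
  intro p hp
  have h := mem_ps.1 hp
  unfold PT
  rw [mem_filter, mem_range]
  exact ⟨by omega, h.1, mod4 hm h.1 h.2.1⟩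

open Classical in
/-- the sum over `h'` for fixed `d` -/
private theorem inner (T m d : ℕ) (hm : Even m) (hd : d ∣ m ^ 2 + 1) (H : ℝ → ℝ) :
    ∑ h' ∈ (sT T m).divisors, H (tt (m, d / d.gcd (sT T m) * h')) =
    ∑ g ∈ (GG T).filter (fun g => Cd g (m, d)), H (tt (m, d) + 2 * Real.log ((g.1 : ℝ) / g.2)) := by
  have hsn := sT_dvd T m
  have hs0 := sT_pos T m
  have hsq := sT_sqf T m
  have hPT := sT_dvd_PT (T := T) hm
  have hprs : ∀ p, p.Prime → (p ∣ sT T m ↔ p ∈ ps T m) := fun p hp => prime_dvd_sT hp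
  set s := sT T m with hs
  set h := d.gcd s with hh
  have hd0 : 0 < d := Nat.pos_of_dvd_of_pos hd (n_pos m)
  have h0 : 0 < h := Nat.gcd_pos_of_pos_left _ hd0
  have hhs : h ∣ s := Nat.gcd_dvd_right _ _
  have hhd : h ∣ d := Nat.gcd_dvd_left _ _
  -- primes of `s` dividing `d` divide `h`
  have hps : ∀ p, p.Prime → p ∣ s → ¬ p ^ 2 ∣ m ^ 2 + 1 := fun p hp h1 => (mem_ps.1 ((hprs p hp).1 h1)).2.2.2
  have hnd : d * ((m ^ 2 + 1) / d) = m ^ 2 + 1 := Nat.mul_div_cancel' hd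
  have key : ∀ g ∈ (GG T).filter (fun g => Cd g (m, d)), g.1 ∣ h ∧ h / g.1 * g.2 ∣ s ∧ g.1.Coprime g.2 ∧
      0 < g.1 ∧ 0 < g.2 := by
    intro g hg
    rw [mem_filter] at hg
    obtain ⟨hg0, hc1, hc2, hc3⟩ := hg
    unfold GG at hg0
    rw [mem_filter, mem_product] at hg0
    obtain ⟨⟨ha, hb⟩, hcop⟩ := hg0
    have hcop' : g.1.Coprime g.2 := hcop
    have ha1 := Nat.dvd_of_mem_divisors ha
    have hb1 := Nat.dvd_of_mem_divisors hb
    have hP0 : 0 < (∏ p ∈ PT T, p) := Nat.pos_of_ne_zero (PT_sqf T).ne_zero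
    have g10 : 0 < g.1 := Nat.pos_of_dvd_of_pos ha1 hP0
    have g20 : 0 < g.2 := Nat.pos_of_dvd_of_pos hb1 hP0
    have hc1' : g.1 ∣ d := hc1
    have hc2' : g.2 ∣ (m ^ 2 + 1) / d := hc2
    have hc3' : ∀ p, p.Prime → p ∣ g.1 ∨ p ∣ g.2 → ¬ p ^ 2 ∣ m ^ 2 + 1 := by
      intro p hp h1
      refine hc3 p (Nat.mem_primeFactors.2 ⟨hp, ?_, (Nat.mul_pos g10 g20).ne'⟩)
      exact (hp.dvd_mul).2 h1
    have q1 : g.1 ∣ s := by
      refine dvd_sT ((PT_sqf T).squarefree_of_dvd ha1) fun p hp h1 => ?_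
      have h2 : p ∈ PT T := PT_prime_dvd hp (h1.trans ha1)
      unfold PT at h2
      rw [mem_filter, mem_range] at h2
      exact mem_ps.2 ⟨hp, (h1.trans hc1').trans hd, by omega, hc3' p hp (Or.inl h1)⟩
    have q2 : g.2 ∣ s := by
      refine dvd_sT ((PT_sqf T).squarefree_of_dvd hb1) fun p hp h1 => ?_
      have h2 : p ∈ PT T := PT_prime_dvd hp (h1.trans hb1)
      unfold PT at h2
      rw [mem_filter, mem_range] at h2
      exact mem_ps.2 ⟨hp, (h1.trans hc2').trans (Nat.div_dvd_of_dvd hd), by omega, hc3' p hp (Or.inr h1)⟩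
    have q3 : g.1 ∣ h := Nat.dvd_gcd hc1' q1
    have q4 : h.Coprime g.2 := by
      apply Nat.coprime_of_dvd
      intro p hp h2 h3
      refine hc3' p hp (Or.inr h3) ?_
      rw [sq, ← hnd]
      exact Nat.mul_dvd_mul (h2.trans hhd) (h3.trans hc2')
    refine ⟨q3, ?_, hcop', g10, g20⟩
    exact (Nat.mul_dvd_mul_right (Nat.div_dvd_of_dvd q3) g.2).trans (q4.mul_dvd_of_dvd_of_dvd hhs q2)
  refine Finset.sum_nbij' (fun h' => (h / h.gcd h', h' / h.gcd h')) (fun g => h / g.1 * g.2) ?_ ?_ ?_ ?_ ?_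
  · intro h' hh'
    have h1 : h' ∣ s := Nat.dvd_of_mem_divisors hh'
    have h'0 : 0 < h' := Nat.pos_of_dvd_of_pos h1 hs0
    have hg1 : h / h.gcd h' ∣ h := Nat.div_dvd_of_dvd (Nat.gcd_dvd_left _ _)
    have hg2 : h' / h.gcd h' ∣ h' := Nat.div_dvd_of_dvd (Nat.gcd_dvd_right _ _)
    have hgp : 0 < h.gcd h' := Nat.gcd_pos_of_pos_left _ h0
    have hcop : (h / h.gcd h').Coprime (h' / h.gcd h') := Nat.coprime_div_gcd_div_gcd hgp
    have hP0 : (∏ p ∈ PT T, p) ≠ 0 := (PT_sqf T).ne_zero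
    have hg2h : (h' / h.gcd h').Coprime h := by
      apply Nat.coprime_of_dvd
      intro p hp h2 h3
      have h4 : p ∣ h' := h2.trans hg2
      have h5 : p ∣ h.gcd h' := Nat.dvd_gcd h3 h4
      have h6 : p * p ∣ s := by
        have : p * p ∣ (h.gcd h') * (h' / h.gcd h') := Nat.mul_dvd_mul h5 h2
        rw [Nat.mul_div_cancel' (Nat.gcd_dvd_right _ _)] at this
        exact this.trans h1
      exact hp.one_lt.ne' (Nat.isUnit_iff.1 (hsq p h6))
    have hg2d : (h' / h.gcd h').Coprime d := by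
      apply Nat.coprime_of_dvd
      intro p hp h2 h3
      have h4 : p ∣ s := (h2.trans hg2).trans h1
      have h5 : p ∣ h := Nat.dvd_gcd h3 h4
      exact hp.one_lt.ne' (Nat.dvd_one.1 (hg2h ▸ Nat.dvd_gcd h2 h5))
    rw [mem_filter]
    constructor
    · unfold GG
      rw [mem_filter, mem_product]
      exact ⟨⟨Nat.mem_divisors.2 ⟨(hg1.trans hhs).trans hPT, hP0⟩,
        Nat.mem_divisors.2 ⟨(hg2.trans h1).trans hPT, hP0⟩⟩, hcop⟩
    · refine ⟨hg1.trans hhd, ?_, ?_⟩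
      · refine Nat.Coprime.dvd_of_dvd_mul_left hg2d ?_
        show _ ∣ d * ((m ^ 2 + 1) / d)
        rw [hnd]
        exact (hg2.trans h1).trans hsn
      · intro p hp
        have hpp := Nat.prime_of_mem_primeFactors hp
        rcases (hpp.dvd_mul).1 (Nat.dvd_of_mem_primeFactors hp) with h2 | h2
        · exact hps p hpp ((h2.trans hg1).trans hhs)
        · exact hps p hpp ((h2.trans hg2).trans h1)
  · intro g hg
    obtain ⟨hg1, hg2, -, -, -⟩ := key g hg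
    exact Nat.mem_divisors.2 ⟨hg2, hs0.ne'⟩
  · intro h' hh'
    have h1 : h' ∣ s := Nat.dvd_of_mem_divisors hh'
    show h / (h / h.gcd h') * (h' / h.gcd h') = h'
    rw [Nat.div_div_self (Nat.gcd_dvd_left _ _) h0.ne', Nat.mul_div_cancel' (Nat.gcd_dvd_right _ _)]
  · intro g hg
    obtain ⟨hg1, hg2, hcop, hp1, hp2⟩ := key g hg
    show (h / h.gcd (h / g.1 * g.2), h / g.1 * g.2 / h.gcd (h / g.1 * g.2)) = g
    have h1 : h.gcd (h / g.1 * g.2) = h / g.1 := by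
      conv_lhs => rw [← Nat.div_mul_cancel hg1]
      rw [Nat.mul_div_cancel _ hp1, Nat.gcd_mul_left, hcop, mul_one]
    have h2 : 0 < h / g.1 := Nat.div_pos (Nat.le_of_dvd h0 hg1) hp1
    rw [h1, Nat.div_div_self hg1 h0.ne', Nat.mul_div_cancel_left _ h2]
  · intro h' hh'
    have h1 : h' ∣ s := Nat.dvd_of_mem_divisors hh'
    have h'0 : 0 < h' := Nat.pos_of_dvd_of_pos h1 hs0
    have hgp : 0 < h.gcd h' := Nat.gcd_pos_of_pos_left _ h0
    congr 1
    have e1 : ((h / h.gcd h' : ℕ) : ℝ) = (h : ℝ) / (h.gcd h' : ℕ) :=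
      Nat.cast_div (Nat.gcd_dvd_left _ _) (by exact_mod_cast hgp.ne')
    have e2 : ((h' / h.gcd h' : ℕ) : ℝ) = (h' : ℝ) / (h.gcd h' : ℕ) :=
      Nat.cast_div (Nat.gcd_dvd_right _ _) (by exact_mod_cast hgp.ne')
    have e3 : ((d / h : ℕ) : ℝ) = (d : ℝ) / h := Nat.cast_div hhd (by exact_mod_cast h0.ne')
    have r0 : (0 : ℝ) < (h.gcd h' : ℕ) := by exact_mod_cast hgp
    have r1 : (0 : ℝ) < h := by exact_mod_cast h0
    have r2 : (0 : ℝ) < h' := by exact_mod_cast h'0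
    have r3 : (0 : ℝ) < d := by exact_mod_cast hd0
    unfold tt
    push_cast
    rw [e1, e2, e3, div_div_div_cancel_right₀ r0.ne', Real.log_div r1.ne' r2.ne',
      Real.log_mul (by positivity) r2.ne', Real.log_div r3.ne' r1.ne']
    ring

open Classical in
/-- `(∑_(h ∣ s) H)^2 = ∑_(h, h' ∣ s)`; the map `(c, h, h') ↦ (d, g, g') = (c h, h / (h, h'), h' / (h, h'))` is a bijection onto
the triples with `d ∣ m^2+1`, `(g, g') ∈ GG T`, `Cd (g, g') (m, d)` (inverse: `h = gcd (d, s)`, `c = d / h`, `h' = h g' / g`; note that `g g' ∣ s`,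
`g ∣ d`, `g' ∣ (m^2+1)/d`; every prime factor of `m^2+1`, `m` even, is `1 mod 4`); and
`tt (m, c h') = tt (m, d) + 2 log (g / g')` (`d' = c h' = d g' / g`). -/
theorem expand (T : ℕ) (x : ℝ) (H : ℝ → ℝ) :
    ∑ m ∈ ev x, ∑ c ∈ ((m ^ 2 + 1) / sT T m).divisors, (∑ h ∈ (sT T m).divisors, H (tt (m, c * h))) ^ 2 =
    ∑ g ∈ GG T, ∑ r ∈ (pd x).filter (fun r => Cd g r), H (tt r) * H (tt r + 2 * Real.log ((g.1 : ℝ) / g.2)) := by
  have step1 : ∀ m ∈ ev x, ∑ c ∈ ((m ^ 2 + 1) / sT T m).divisors, (∑ h ∈ (sT T m).divisors, H (tt (m, c * h))) ^ 2 =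
      ∑ d ∈ (m ^ 2 + 1).divisors, ∑ g ∈ GG T, if Cd g (m, d) then
        H (tt (m, d)) * H (tt (m, d) + 2 * Real.log ((g.1 : ℝ) / g.2)) else 0 := by
    intro m hm
    have hm2 : Even m := by unfold ev at hm; exact (mem_filter.1 hm).2
    have e : ∀ d ∈ (m ^ 2 + 1).divisors, ∑ g ∈ GG T, (if Cd g (m, d) then
        H (tt (m, d)) * H (tt (m, d) + 2 * Real.log ((g.1 : ℝ) / g.2)) else 0) =
        H (tt (m, d)) * ∑ h' ∈ (sT T m).divisors, H (tt (m, d / d.gcd (sT T m) * h')) := by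
      intro d hd
      rw [inner T m d hm2 (Nat.dvd_of_mem_divisors hd) H, Finset.sum_filter, Finset.mul_sum]
      refine Finset.sum_congr rfl fun g _ => ?_
      split_ifs <;> simp
    rw [Finset.sum_congr rfl e, sum_cluster T m]
    refine Finset.sum_congr rfl fun c hc => ?_
    have hc' := Nat.dvd_of_mem_divisors hc
    rw [sq, Finset.sum_mul]
    refine Finset.sum_congr rfl fun h hh => ?_
    have hh' := Nat.dvd_of_mem_divisors hh
    have h1 : (c * h).gcd (sT T m) = h := by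
      have : c.Coprime (sT T m) := (sT_cop T m).symm.coprime_dvd_left hc'
      rw [Nat.Coprime.gcd_mul_left_cancel h this, Nat.gcd_eq_left hh']
    rw [h1, Nat.mul_div_cancel _ (Nat.pos_of_dvd_of_pos hh' (sT_pos T m))]
  rw [Finset.sum_congr rfl step1]
  rw [← sum_pd x (fun r => ∑ g ∈ GG T, if Cd g r then
    H (tt r) * H (tt r + 2 * Real.log ((g.1 : ℝ) / g.2)) else 0), Finset.sum_comm]
  refine Finset.sum_congr rfl fun g _ => ?_
  rw [Finset.sum_filter]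

end Pool.Agent.OmAll
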