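import Pool.Agent.Lib_MP_f1a94e_aq.KTail
import Pool.Agent.Lib_MP_f1a94e_aq.EdgePar
import Pool.Agent.Lib_MP_f1a94e_t1.Core

/-!
# Piece NEAR: a positive proportion of balanced factorisations in each parity class
-/

set_option autoImplicit false

namespace Pool.Agent.OmAll

open Finset Pool.Agent.GaussMR Filter

theorem geo_sum_total (K : ℕ) : ∑ i ∈ Finset.range K, ((i : ℝ) + 1) / 2 ^ i = 4 - (2 * K + 4) / 2 ^ K := by
  induction K with
  | zero => norm_num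
  | succ K ih =>
    rw [Finset.sum_range_succ, ih]
    have : (2 : ℝ) ^ K ≠ 0 := by positivity
    push_cast
    rw [pow_succ]
    field_simp
    ring

/-- the pairs counted by the `tx x m` -/
noncomputable def SS (x : ℝ) : Finset (ℕ × ℕ) :=
  (pd x).filter (fun r => (r.2 : ℝ) ≤ x ∧ ((r.1 ^ 2 + 1 : ℕ) : ℝ) ≤ x * r.2)

open Classical in
theorem sum_tx_eq (x : ℝ) (P : ℕ → Prop) : ∑ m ∈ (Icc 1 ⌊x⌋₊).filter (fun m => Even m ∧ P m), (tx x m : ℝ) =
    (((SS x).filter (fun r => P r.1)).card : ℝ) := by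
  have h1 : (SS x).filter (fun r => P r.1) = ((Icc 1 ⌊x⌋₊).filter (fun m => Even m ∧ P m)).biUnion
      (fun m => (Pool.Agent.OmT1.TS x m).image (fun d => (m, d))) := by
    ext ⟨m, d⟩
    rw [mem_filter, SS, mem_filter, mem_pd, mem_biUnion]
    constructor
    · rintro ⟨⟨⟨h1, h2, h3, h4⟩, h5, h6⟩, hP⟩
      refine ⟨m, ?_, ?_⟩
      · rw [mem_filter, mem_Icc]
        exact ⟨⟨h1, Nat.le_floor h2⟩, h3, hP⟩
      · rw [mem_image]
        refine ⟨d, ?_, rfl⟩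
        unfold Pool.Agent.OmT1.TS
        rw [mem_filter, Nat.mem_divisors]
        exact ⟨⟨h4, by positivity⟩, h5, h6⟩
    · rintro ⟨m', h1, h2⟩
      rw [mem_filter, mem_Icc] at h1
      rw [mem_image] at h2
      obtain ⟨d', h3, h4⟩ := h2
      rw [Prod.mk.injEq] at h4
      obtain ⟨rfl, rfl⟩ := h4
      unfold Pool.Agent.OmT1.TS at h3
      rw [mem_filter, Nat.mem_divisors] at h3
      exact ⟨⟨⟨h1.1.1, (Nat.le_floor_iff' (by omega)).1 h1.1.2, h1.2.1, h3.1.1⟩, h3.2⟩, h1.2.2⟩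
  rw [h1, card_biUnion]
  · push_cast
    apply Finset.sum_congr rfl
    intro m _
    rw [Finset.card_image_of_injective _ (fun a b h => by simpa using h), Pool.Agent.OmT1.tx_eq]
  · intro m _ m' _ hmm
    rw [Function.onFun, Finset.disjoint_left]
    rintro ⟨a, b⟩ h1 h2
    rw [mem_image] at h1 h2
    obtain ⟨_, _, h3⟩ := h1
    obtain ⟨_, _, h4⟩ := h2
    rw [Prod.mk.injEq] at h3 h4
    exact hmm (h3.1.trans h4.1.symm)

/-- the dyadic size of `x / m` -/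
noncomputable def ixs (x : ℝ) (r : ℕ × ℕ) : ℕ := Nat.log 2 ⌊x / r.1⌋₊

theorem ixs_prop (x : ℝ) (hx : 1 ≤ x) (i : ℕ) (r : ℕ × ℕ) (hr : r ∈ SS x) (hri : ixs x r = i) :
    1 ≤ r.1 ∧ (r.1 : ℝ) ≤ x / 2 ^ i ∧ x < r.1 * 2 ^ (i + 1) ∧ |tt r| < 2 * ((i : ℝ) + 1) := by
  have hx0 : 0 < x := by linarith
  rw [SS, mem_filter, mem_pd] at hr
  obtain ⟨⟨hm1, hmx, hme, hmd⟩, h8, h9⟩ := hr
  have hr1 : (1 : ℝ) ≤ r.1 := by exact_mod_cast hm1
  have hr0 : (0 : ℝ) < r.1 := by linarith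
  have hfl : ⌊x / r.1⌋₊ ≠ 0 := by
    have h1 : 1 ≤ x / r.1 := by
      rw [le_div_iff₀ hr0, one_mul]
      exact hmx
    have := Nat.one_le_floor_iff (x / (r.1 : ℝ)) |>.2 h1
    omega
  have h2 : 2 ^ i ≤ ⌊x / r.1⌋₊ := by
    rw [← hri]
    exact Nat.pow_log_le_self 2 hfl
  have h3 : ⌊x / r.1⌋₊ < 2 ^ (i + 1) := by
    rw [← hri]
    exact Nat.lt_pow_succ_log_self (by norm_num) _
  have hA : (r.1 : ℝ) ≤ x / 2 ^ i := by
    have h4 : ((2 ^ i : ℕ) : ℝ) ≤ x / r.1 := (Nat.le_floor_iff (by positivity)).1 h2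
    push_cast at h4
    rw [le_div_iff₀ hr0] at h4
    rw [le_div_iff₀ (by positivity)]
    linarith
  have hB : x < r.1 * 2 ^ (i + 1) := by
    have h4 : x / r.1 < ((2 ^ (i + 1) : ℕ) : ℝ) := (Nat.floor_lt (by positivity)).1 h3
    push_cast at h4
    rw [div_lt_iff₀ hr0] at h4
    linarith
  refine ⟨hm1, hA, hB, ?_⟩
  have hn : (0 : ℝ) < (r.1 : ℝ) ^ 2 + 1 := by positivity
  have hd : 0 < r.2 := Nat.pos_of_dvd_of_pos hmd (by positivity)
  have hdR : (0 : ℝ) < r.2 := by exact_mod_cast hd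
  push_cast at h9
  have l1 : Real.log r.2 ≤ Real.log x := Real.log_le_log hdR h8
  have l2 : Real.log ((r.1 : ℝ) ^ 2 + 1) ≤ Real.log x + Real.log r.2 := by
    rw [← Real.log_mul hx0.ne' hdR.ne']
    exact Real.log_le_log hn h9
  have l3 : 2 * Real.log x < 2 * ((i : ℝ) + 1) + Real.log ((r.1 : ℝ) ^ 2 + 1) := by
    have h10 : x ^ 2 < (2 ^ (i + 1)) ^ 2 * ((r.1 : ℝ) ^ 2 + 1) := by
      have h11 : x ^ 2 < ((r.1 : ℝ) * 2 ^ (i + 1)) ^ 2 := by
        apply pow_lt_pow_left₀ hB hx0.le (by norm_num)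
      have h12 : (0 : ℝ) < (2 ^ (i + 1)) ^ 2 := by positivity
      nlinarith
    have h13 := Real.log_lt_log (by positivity) h10
    rw [Real.log_mul (by positivity) hn.ne', Real.log_pow, Real.log_pow, Real.log_pow] at h13
    push_cast at h13
    have h14 : Real.log 2 < 1 := by
      have := Real.log_two_lt_d9
      linarith
    have h15 : 2 * (((i : ℝ) + 1) * Real.log 2) ≤ 2 * ((i : ℝ) + 1) := by
      have : (0 : ℝ) ≤ (i : ℝ) + 1 := by positivity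
      nlinarith
    linarith
  unfold tt
  rw [abs_lt]
  constructor <;> linarith

/-- the pairs with small `m` are few -/
theorem small_m : ∃ C : ℝ, 0 < C ∧ ∀ x : ℝ, 1 ≤ x → ∀ i0 : ℕ,
    (((SS x).filter (fun r => i0 ≤ ixs x r)).card : ℝ) ≤ 2 * C * x * ((2 * i0 + 4) / 2 ^ i0) := by
  classical
  obtain ⟨C, hC, hcount⟩ := count_lt
  refine ⟨C, hC, ?_⟩
  intro x hx i0
  have hx0 : 0 < x := by linarith
  set K : ℕ := Nat.log 2 ⌊x⌋₊ + 1 + i0 with hK
  set S : Finset (ℕ × ℕ) := (SS x).filter (fun r => i0 ≤ ixs x r) with hS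
  have hmaps : ∀ r ∈ S, ixs x r ∈ Finset.Ico i0 K := by
    intro r hr
    rw [hS, mem_filter, SS, mem_filter, mem_pd] at hr
    rw [Finset.mem_Ico]
    refine ⟨hr.2, ?_⟩
    have h1 : (1 : ℝ) ≤ r.1 := by exact_mod_cast hr.1.1.1
    have h2 : ixs x r ≤ Nat.log 2 ⌊x⌋₊ := by
      apply Nat.log_mono_right
      apply Nat.floor_le_floor
      exact div_le_self hx0.le h1
    omega
  rw [Finset.card_eq_sum_card_fiberwise hmaps]
  push_cast
  have hterm : ∀ i ∈ Finset.Ico i0 K, ((S.filter (fun r => ixs x r = i)).card : ℝ) ≤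
      2 * C * x * (((i : ℝ) + 1) / 2 ^ i) := by
    intro i _
    rcases (S.filter (fun r => ixs x r = i)).eq_empty_or_nonempty with hemp | ⟨r0, hr0⟩
    · rw [hemp]
      simp only [Finset.card_empty, Nat.cast_zero]
      positivity
    have hprop : ∀ r ∈ S.filter (fun r => ixs x r = i), r ∈ SS x ∧ 1 ≤ r.1 ∧ (r.1 : ℝ) ≤ x / 2 ^ i ∧
        x < r.1 * 2 ^ (i + 1) ∧ |tt r| < 2 * ((i : ℝ) + 1) := by
      intro r hr
      rw [mem_filter, hS, mem_filter] at hr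
      exact ⟨hr.1.1, ixs_prop x hx i r hr.1.1 hr.2⟩
    have hy1 : 1 ≤ x / 2 ^ i := by
      obtain ⟨-, h1, h2, h3, -⟩ := hprop r0 hr0
      have : (1 : ℝ) ≤ r0.1 := by exact_mod_cast h1
      linarith
    have hc := hcount (x / 2 ^ i) hy1 (2 * ((i : ℝ) + 1)) (by positivity)
    have hsub : ((S.filter (fun r => ixs x r = i) : Finset (ℕ × ℕ)) : Set (ℕ × ℕ)) ⊆
        {r : ℕ × ℕ | r ∈ pd (x / 2 ^ i) ∧ |tt r| < 2 * ((i : ℝ) + 1)} := by
      intro r hr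
      rw [Finset.mem_coe] at hr
      obtain ⟨h0, h1, h2, h3, h4⟩ := hprop r hr
      rw [SS, mem_filter, mem_pd] at h0
      exact ⟨mem_pd.2 ⟨h1, h2, h0.1.2.2.1, h0.1.2.2.2⟩, h4⟩
    have hle := Set.ncard_le_ncard hsub (by
      apply ((pd (x / 2 ^ i)).finite_toSet).subset
      intro r hr
      exact hr.1)
    rw [Set.ncard_coe_finset] at hle
    have hle' : ((S.filter (fun r => ixs x r = i)).card : ℝ) ≤
        ({r : ℕ × ℕ | r ∈ pd (x / 2 ^ i) ∧ |tt r| < 2 * ((i : ℝ) + 1)}.ncard : ℝ) := by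
      exact_mod_cast hle
    refine (hle'.trans hc).trans (le_of_eq ?_)
    ring
  refine (Finset.sum_le_sum hterm).trans ?_
  rw [← Finset.mul_sum, Finset.sum_Ico_eq_sub _ (by omega : i0 ≤ K), geo_sum_total, geo_sum_total]
  have h1 : (0 : ℝ) ≤ (2 * (K : ℝ) + 4) / 2 ^ K := by positivity
  have h2 : 0 ≤ 2 * C * x := by positivity
  nlinarith

theorem near (a : ℕ) : ∃ Λ c X0 : ℝ, 0 < Λ ∧ 0 < c ∧ ∀ X : ℝ, X0 ≤ X →
    c * X ≤ ({r : ℕ × ℕ | r ∈ pd X ∧ ArithmeticFunction.cardFactors (r.1 ^ 2 + 1) % 2 = a % 2 ∧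
      |tt r| ≤ Λ}.ncard : ℝ) := by
  classical
  obtain ⟨c, X0, hc, hE⟩ := edge_par a
  obtain ⟨C, hC, hsm⟩ := small_m
  have hlim : Tendsto (fun i : ℕ => 2 * C * ((2 * (i : ℝ) + 4) / 2 ^ i)) atTop (nhds 0) := by
    have h1 : Tendsto (fun i : ℕ => (i : ℝ) * (1 / 2 : ℝ) ^ i) atTop (nhds 0) := by
      have := tendsto_self_mul_const_pow_of_lt_one (by norm_num : (0 : ℝ) ≤ 1 / 2) (by norm_num)
      exact this
    have h2 : Tendsto (fun i : ℕ => (1 / 2 : ℝ) ^ i) atTop (nhds 0) :=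
      tendsto_pow_atTop_nhds_zero_of_lt_one (by norm_num) (by norm_num)
    have h3 := ((h1.const_mul 2).add (h2.const_mul 4)).const_mul (2 * C)
    simp only [mul_zero, add_zero] at h3
    refine h3.congr fun i => ?_
    rw [div_pow, one_pow]
    ring
  obtain ⟨i0, hi0⟩ := (hlim.eventually (gt_mem_nhds (show 0 < c / 2 by positivity))).exists
  refine ⟨2 * (i0 + 1), c / 2, max X0 1, by positivity, by positivity, ?_⟩
  intro X hX
  have hX0 : X0 ≤ X := (le_max_left _ _).trans hX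
  have hX1 : 1 ≤ X := (le_max_right _ _).trans hX
  have h1 := hE X hX0
  have h2 := hsm X hX1 i0
  obtain ⟨P, hP⟩ : ∃ P : ℕ → Prop, P = fun m => ArithmeticFunction.cardFactors (m ^ 2 + 1) % 2 = a % 2 :=
    ⟨_, rfl⟩
  have h3 := sum_tx_eq X P
  have h4 : c * X ≤ (((SS X).filter (fun r => P r.1)).card : ℝ) := by
    rw [← h3]
    refine h1.trans (le_of_eq ?_)
    apply Finset.sum_congr _ fun _ _ => rfl
    ext m
    simp [hP]
  have h5 : (SS X).filter (fun r => P r.1) ⊆ (SS X).filter (fun r => i0 ≤ ixs X r) ∪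
      (pd X).filter (fun r => P r.1 ∧ |tt r| ≤ 2 * ((i0 : ℝ) + 1)) := by
    intro r hr
    rw [mem_filter] at hr
    rw [Finset.mem_union, mem_filter, mem_filter]
    by_cases hi : i0 ≤ ixs X r
    · exact Or.inl ⟨hr.1, hi⟩
    · right
      have h6 := ixs_prop X hX1 (ixs X r) r hr.1 rfl
      have h7 := hr.1
      rw [SS, mem_filter] at h7
      refine ⟨h7.1, hr.2, ?_⟩
      have h8 : ((ixs X r : ℕ) : ℝ) ≤ i0 := by
        have : ixs X r ≤ i0 := by omega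
        exact_mod_cast this
      linarith [h6.2.2.2]
  have h6 := (Finset.card_le_card h5).trans (Finset.card_union_le _ _)
  have h6' : (((SS X).filter (fun r => P r.1)).card : ℝ) ≤ ((SS X).filter (fun r => i0 ≤ ixs X r)).card +
      ((pd X).filter (fun r => P r.1 ∧ |tt r| ≤ 2 * ((i0 : ℝ) + 1))).card := by
    exact_mod_cast h6
  have hset : {r : ℕ × ℕ | r ∈ pd X ∧ ArithmeticFunction.cardFactors (r.1 ^ 2 + 1) % 2 = a % 2 ∧
      |tt r| ≤ 2 * ((i0 : ℝ) + 1)} =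
      ((pd X).filter (fun r => P r.1 ∧ |tt r| ≤ 2 * ((i0 : ℝ) + 1)) : Finset (ℕ × ℕ)) := by
    ext r
    simp [hP]
  rw [hset, Set.ncard_coe_finset]
  have h7 : 2 * C * X * ((2 * (i0 : ℝ) + 4) / 2 ^ i0) ≤ c / 2 * X := by
    have : 2 * C * X * ((2 * (i0 : ℝ) + 4) / 2 ^ i0) = 2 * C * ((2 * (i0 : ℝ) + 4) / 2 ^ i0) * X := by ring
    rw [this]
    gcongr
  linarith

end Pool.Agent.OmAll
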