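import Pool.Agent.Lib_MP_f1a94e_aq.LineA
import Pool.Agent.Lib_MP_f1a94e_mr.Split

/-!
# Piece LINEB: prime factors and good pairs on a line
-/

set_option autoImplicit false

namespace Pool.Agent.OmAll

open Finset Pool.Agent.GaussMR

/-- `nm (vj z i)` as a quadratic polynomial -/
private theorem vj_nm_poly (z : G) (i : ℤ) :
    (nm (vj z i) : ℤ) = nm z * i ^ 2 + 2 * dot (wz z) z * i + nm (wz z) := by
  rw [nm_eq, nm_eq, nm_eq, vj_re, vj_im]
  unfold dot
  ring

/-- A root modulo every prime `p = 1 mod 4`. `nm (vj z i) = nm z i ^ 2 + 2 D i + nm w` with `D = dot w z`, `w = wz z`,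
`D ^ 2 + 1 = nm z nm w`. Let `ι ^ 2 = -1` modulo `p` (`ZMod.exists_sq_eq_neg_one_iff`). If `p ∤ nm z` choose `r` with
`nm z * r = ι - D` modulo `p`: `nm z nm (vj z r) = (D + r nm z) ^ 2 + 1 = 0`. If `p ∣ nm z`, then `D ^ 2 = -1`, `D` is
a unit, choose `r` with `2 D r = - nm w`. The value modulo `p` depends only on `i` modulo `p`. -/
theorem vj_root (z : G) (hz : Prim z) (p : ℕ) (hp : p.Prime) (h4 : p % 4 = 1) :
    ∃ r : ℕ, ∀ i : ℕ, i ≡ r [MOD p] → p ∣ nm (vj z i) := by
  have : Fact p.Prime := ⟨hp⟩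
  have hp2 : (2 : ZMod p) ≠ 0 := by
    intro h
    have h5 : ((2 : ℕ) : ZMod p) = 0 := by exact_mod_cast h
    rw [ZMod.natCast_eq_zero_iff] at h5
    have h6 := Nat.le_of_dvd (by norm_num) h5
    have h7 := hp.two_le
    omega
  have hcast : ∀ i : ℤ, ((nm (vj z i) : ℕ) : ZMod p) =
      (nm z : ZMod p) * (i : ZMod p) ^ 2 + 2 * ((dot (wz z) z : ℤ) : ZMod p) * (i : ZMod p) +
        (nm (wz z) : ZMod p) := by
    intro i
    have h5 := congrArg (fun t : ℤ => (t : ZMod p)) (vj_nm_poly z i)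
    push_cast at h5
    exact h5
  have hprod : ∀ i : ℤ, (nm z : ZMod p) * ((nm (vj z i) : ℕ) : ZMod p) =
      (((dot (wz z) z : ℤ) : ZMod p) + (i : ZMod p) * (nm z : ZMod p)) ^ 2 + 1 := by
    intro i
    have h5 := congrArg (fun t : ℤ => (t : ZMod p)) (vj_nm z hz i)
    push_cast at h5
    exact h5
  -- it suffices to find a root in `ZMod p`
  suffices hroot : ∃ ρ : ZMod p, (nm z : ZMod p) * ρ ^ 2 +
      2 * ((dot (wz z) z : ℤ) : ZMod p) * ρ + (nm (wz z) : ZMod p) = 0 by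
    obtain ⟨ρ, hρ⟩ := hroot
    refine ⟨ρ.val, fun i hi => ?_⟩
    rw [← ZMod.natCast_eq_zero_iff, hcast]
    have h6 : ((i : ℤ) : ZMod p) = ρ := by
      rw [Int.cast_natCast, (ZMod.natCast_eq_natCast_iff i ρ.val p).2 hi, ZMod.natCast_zmod_val]
    rw [h6]
    exact hρ
  by_cases hn : (nm z : ZMod p) = 0
  · have h5 := hprod 0
    rw [hn] at h5
    have hD : ((dot (wz z) z : ℤ) : ZMod p) ≠ 0 := by
      intro h6
      rw [h6] at h5
      simp at h5
    rw [hn]
    refine ⟨-(nm (wz z) : ZMod p) / (2 * ((dot (wz z) z : ℤ) : ZMod p)), ?_⟩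
    field_simp
    ring
  · obtain ⟨y, hy⟩ : IsSquare (-1 : ZMod p) := by
      rw [ZMod.exists_sq_eq_neg_one_iff]
      omega
    refine ⟨(y - ((dot (wz z) z : ℤ) : ZMod p)) / (nm z : ZMod p), ?_⟩
    have h5 : (nm z : ZMod p) * (nm (wz z) : ZMod p) = ((dot (wz z) z : ℤ) : ZMod p) ^ 2 + 1 := by
      have h6 := hprod 0
      have h7 := hcast 0
      simp only [Int.cast_zero, zero_mul, add_zero, mul_zero, zero_add, ne_eq,
        OfNat.ofNat_ne_zero, not_false_eq_true, zero_pow] at h6 h7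
      rw [h7] at h6
      exact h6
    apply mul_left_cancel₀ hn
    rw [mul_zero]
    field_simp
    linear_combination h5 - hy

/-- product of Gaussian primes above a set of rational primes -/
private theorem exists_kappa (V : G) (s : Finset ℕ)
    (hs : ∀ p ∈ s, p.Prime ∧ p % 4 = 1 ∧ p ∣ nm V) :
    ∃ κ : G, nm κ = ∏ p ∈ s, p ∧ κ ∣ V := by
  classical
  induction s using Finset.induction_on with
  | empty => exact ⟨1, by simp, one_dvd _⟩
  | insert p s hps ih =>
    obtain ⟨κ, hκ, A, hA⟩ := ih (fun q hq => hs q (Finset.mem_insert_of_mem hq))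
    obtain ⟨hp, hp4, hpV⟩ := hs p (Finset.mem_insert_self _ _)
    have hpA : p ∣ nm A := by
      rw [hA, nm_mul] at hpV
      rcases (Nat.Prime.dvd_mul hp).1 hpV with h | h
      · exfalso
        rw [hκ] at h
        obtain ⟨q, hq, hpq⟩ := (Prime.dvd_finsetProd_iff hp.prime _).1 h
        have h5 := (Nat.prime_dvd_prime_iff_eq hp (hs q (Finset.mem_insert_of_mem hq)).1).1 hpq
        exact hps (h5 ▸ hq)
      · exact h
    obtain ⟨w, hw, hwp⟩ := PP_exists (P := 0) (Q := p) hp hp4 (by exact_mod_cast hp.pos) le_rfl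
    have hwpr : Prime w := (PP_spl hw).prime
    have e2 : ∀ z : G, z * star z = ((nm z : ℤ) : G) := by
      intro z
      apply Zsqrtd.ext
      · rw [Zsqrtd.re_intCast, nm_eq]
        simp
        ring
      · rw [Zsqrtd.im_intCast]
        simp
        ring
    have hwA : w ∣ A * star A := by
      rw [e2]
      obtain ⟨c, hc⟩ := hpA
      rw [hc]
      push_cast
      refine Dvd.dvd.mul_right ?_ _
      have h5 := e2 w
      rw [hwp] at h5
      push_cast at h5
      rw [← h5]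
      exact dvd_mul_right _ _
    rcases hwpr.dvd_or_dvd hwA with hd | hd
    · refine ⟨κ * w, ?_, ?_⟩
      · rw [nm_mul, hκ, hwp, Finset.prod_insert hps, mul_comm]
      · rw [hA]
        exact mul_dvd_mul_left _ hd
    · refine ⟨κ * star w, ?_, ?_⟩
      · rw [nm_mul, nm_star, hκ, hwp, Finset.prod_insert hps, mul_comm]
      · rw [hA]
        refine mul_dvd_mul_left _ ?_
        obtain ⟨c, hc⟩ := hd
        refine ⟨star c, ?_⟩
        have h5 := congrArg star hc
        rw [star_star, star_mul] at h5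
        rw [h5, mul_comm]

private theorem det_mul (κ A B : G) : det (κ * A) (κ * B) = nm κ * det A B := by
  rw [nm_eq]
  unfold det
  simp only [Zsqrtd.re_mul, Zsqrtd.im_mul]
  ring

private theorem dot_mul (κ A B : G) : dot (κ * A) (κ * B) = nm κ * dot A B := by
  rw [nm_eq]
  unfold dot
  simp only [Zsqrtd.re_mul, Zsqrtd.im_mul]
  ring

/-- Let `V = vj z i`, primitive (`det (V, z) = 1`). For every prime `p ∣ k` choose (PP_exists in mr/Split) a Gaussian prime of norm
`p`; as `p ∣ nm V = V star V`, it or its conjugate, `π_p`, divides `V`. Let `κ = ∏_(p ∣ k) π_p`; `nm κ = k` (`k` squarefree), and `κ ∣ V`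
(the `π_p` are pairwise non associated primes: their norms are different; `Finset.prod_primes_dvd` or induction with
coprimality). `κ ∣ κ star κ = k`, so `κ ∣ V + k z = vj z (i + k)`. Write `V = κ A`, `V + k z = κ B`;
`k = det (κ A) (κ B) = nm κ det A B` (`star (κ A) (κ B) = nm κ star A B`), so `det A B = 1`. -/
theorem vj_pair (z : G) (hz : Prim z) (i k : ℕ) (hk0 : 0 < k) (hk : Squarefree k)
    (hp : ∀ p ∈ k.primeFactors, p % 4 = 1 ∧ p ∣ nm (vj z i)) :
    ∃ κ A B : G, nm κ = k ∧ vj z i = κ * A ∧ vj z ((i : ℤ) + k) = κ * B ∧ det A B = 1 := by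
  obtain ⟨κ, hκ, A, hA⟩ := exists_kappa (vj z i) k.primeFactors
    (fun p h => ⟨Nat.prime_of_mem_primeFactors h, hp p h⟩)
  rw [Nat.prod_primeFactors_of_squarefree hk] at hκ
  have hκk : κ ∣ ((k : ℤ) : G) := by
    have e2 : κ * star κ = ((nm κ : ℤ) : G) := by
      apply Zsqrtd.ext
      · rw [Zsqrtd.re_intCast, nm_eq]
        simp
        ring
      · rw [Zsqrtd.im_intCast]
        simp
        ring
    rw [hκ] at e2
    rw [← e2]
    exact dvd_mul_right _ _
  have hB : κ ∣ vj z ((i : ℤ) + k) := by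
    rw [vj_add]
    exact dvd_add ⟨A, hA⟩ (Dvd.dvd.mul_right hκk _)
  obtain ⟨B, hB⟩ := hB
  refine ⟨κ, A, B, hκ, hA, hB, ?_⟩
  have h5 := vj_det z hz i k
  rw [hA, hB, det_mul, hκ] at h5
  have hk' : (k : ℤ) ≠ 0 := by exact_mod_cast hk0.ne'
  exact mul_left_cancel₀ hk' (by rw [h5, mul_one])

/-- For `z` admissible: parity, sizes and the number of prime factors in `vj_pair`. `nm (vj z i) = k nm A`,
`nm (vj z (i + k)) = k nm B`; `Ω` is additive, `Ω k = #k.primeFactors` for squarefree `k`. -/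
theorem vj_pair_omega (z : G) (hz : zok z) (i k : ℕ) (hk0 : 0 < k) (hk : Squarefree k)
    (hp : ∀ p ∈ k.primeFactors, p % 4 = 1 ∧ p ∣ nm (vj z i)) :
    ∃ κ A B : G, nm κ = k ∧ vj z i = κ * A ∧ vj z ((i : ℤ) + k) = κ * B ∧ det A B = 1 ∧
      Odd (nm A) ∧ Odd (nm B) ∧ nm A ≤ nm (vj z i) ∧ nm B ≤ nm (vj z ((i : ℤ) + k)) ∧
      ArithmeticFunction.cardFactors (nm A * nm B) + 2 * k.primeFactors.card =
        ArithmeticFunction.cardFactors (nm (vj z i)) +
          ArithmeticFunction.cardFactors (nm (vj z ((i : ℤ) + k))) ∧ 0 < dot A B := by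
  obtain ⟨κ, A, B, hκ, hA, hB, hAB⟩ := vj_pair z hz.2.2 i k hk0 hk hp
  have hoA := vj_odd z hz i
  have hoB := vj_odd z hz ((i : ℤ) + k)
  have hnA : nm (vj z i) = k * nm A := by rw [hA, nm_mul, hκ]
  have hnB : nm (vj z ((i : ℤ) + k)) = k * nm B := by rw [hB, nm_mul, hκ]
  have hoA' := (Nat.odd_mul.1 (hnA ▸ hoA)).2
  have hoB' := (Nat.odd_mul.1 (hnB ▸ hoB)).2
  have hA0 : nm A ≠ 0 := hoA'.pos.ne'
  have hB0 : nm B ≠ 0 := hoB'.pos.ne'
  have hΩk : ArithmeticFunction.cardFactors k = k.primeFactors.card := by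
    rw [← (ArithmeticFunction.cardDistinctFactors_eq_cardFactors_iff_squarefree hk0.ne').2 hk]
    rfl
  refine ⟨κ, A, B, hκ, hA, hB, hAB, hoA', hoB', ?_, ?_, ?_, ?_⟩
  · rw [hnA]
    exact Nat.le_mul_of_pos_left _ hk0
  · rw [hnB]
    exact Nat.le_mul_of_pos_left _ hk0
  · rw [hnA, hnB, ArithmeticFunction.cardFactors_mul hA0 hB0,
      ArithmeticFunction.cardFactors_mul hk0.ne' hA0, ArithmeticFunction.cardFactors_mul hk0.ne' hB0,
      hΩk]
    ring
  · have h5 := vj_dot z i k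
    rw [hA, hB, dot_mul, hκ, ← hA, vj_dot_z] at h5
    obtain ⟨_, hw0, _⟩ := wz_spec z hz.2.2
    have hN := nm_pos_of_prim hz.2.2
    have hV : 0 < (nm (vj z i) : ℤ) := by exact_mod_cast hoA.pos
    have hkZ : (0 : ℤ) < k := by exact_mod_cast hk0
    have h6 : 0 < (k : ℤ) * dot A B := by
      rw [h5]
      positivity
    exact (mul_pos_iff_of_pos_left hkZ).1 h6

end Pool.Agent.OmAll
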