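import Pool.Agent.Lib_MP_f1a94e_aq.StrA
import Pool.Agent.Lib_MP_f1a94e_aq.EGtx
import Pool.Agent.Lib_MP_f1a94e_aq.LineB
import Pool.Agent.Lib_MP_f1a94e_aq.Cert2

/-!
# Piece STRB: structure theorem on all lines
-/

set_option autoImplicit false

namespace Pool.Agent.OmAll

open Finset Pool.Agent.GaussMR

/-- relation between a window `(z, l)` and the data of a good pair -/
def WRel (N0 : ℕ) (z : G) (l : ℕ) (t : G × G × G) : Prop :=
  ∃ i k : ℕ, 0 < k ∧ i + k ≤ N0 ∧ nm t.1 = k ∧ vj z ((N0 * l + i : ℕ) : ℤ) = t.1 * t.2.1 ∧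
    vj z (((N0 * l + i : ℕ) : ℤ) + k) = t.1 * t.2.2

/-- a window is determined by the data -/
theorem WRel_inj {N0 : ℕ} (hN : 0 < N0) {z z' : G} {l l' : ℕ} {t : G × G × G} (hz : z ≠ 0)
    (h : WRel N0 z l t) (h' : WRel N0 z' l' t) : z = z' ∧ l = l' := by
  obtain ⟨i, k, hk, hik, hn, hA, hB⟩ := h
  obtain ⟨i', k', hk', hik', hn', hA', hB'⟩ := h'
  have hkk : k = k' := by rw [← hn, ← hn']
  subst hkk
  have hkz : ((k : ℤ) : G) ≠ 0 := by
    exact_mod_cast (by omega : (k : ℤ) ≠ 0)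
  have hzz : z = z' := by
    have h1 : ((k : ℤ) : G) * z = ((k : ℤ) : G) * z' := by
      have h2 := vj_add z ((N0 * l + i : ℕ) : ℤ) k
      have h3 := vj_add z' ((N0 * l' + i' : ℕ) : ℤ) k
      rw [hA, hB] at h2
      rw [hA', hB'] at h3
      exact add_left_cancel (h2.symm.trans h3)
    exact mul_left_cancel₀ hkz h1
  subst hzz
  refine ⟨rfl, ?_⟩
  have h4 : ((((N0 * l + i : ℕ) : ℤ) : G)) * z = ((((N0 * l' + i' : ℕ) : ℤ) : G)) * z := by
    have h5 := hA.trans hA'.symm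
    unfold vj at h5
    exact add_left_cancel h5
  have h6 := mul_right_cancel₀ hz h4
  have h7 : N0 * l + i = N0 * l' + i' := by exact_mod_cast h6
  have h8 : (N0 * l + i) / N0 = l := by
    rw [Nat.mul_add_div hN, Nat.div_eq_of_lt (by omega)]; rfl
  have h9 : (N0 * l' + i') / N0 = l' := by
    rw [Nat.mul_add_div hN, Nat.div_eq_of_lt (by omega)]; rfl
  rw [← h8, ← h9, h7]

/-- a good pair in a window gives a good edge -/
theorem WRel_exists (q a N0 l : ℕ) (hl : 1 ≤ l) (z : G) (hz : zok z) (x : ℝ)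
    (hx : ((N0 * l : ℕ) : ℝ) ^ 2 * nm z ≤ x) (ρ : ℕ → ℕ)
    (hρ : ∀ p : ℕ, p.Prime → p % 4 = 1 → ∀ i : ℕ, i ≡ ρ p [MOD p] → p ∣ nm (vj z i))
    (hgood : ∃ i k : ℕ, 0 < k ∧ i + k ≤ N0 ∧ Squarefree k ∧
        (∀ p ∈ k.primeFactors, p % 4 = 1 ∧ i ≡ ρ p + (p - 1) * (N0 * l) [MOD p]) ∧
        ArithmeticFunction.cardFactors (nm (vj z ((N0 * l + i : ℕ) : ℤ))) +
          ArithmeticFunction.cardFactors (nm (vj z ((N0 * l + (i + k) : ℕ) : ℤ))) ≡
            a + 2 * k.primeFactors.card [MOD q]) :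
    ∃ t : G × G × G, (nm t.1 : ℝ) ≤ N0 ∧ t.2 ∈ EG q a (10 * x) ∧ WRel N0 z l t := by
  obtain ⟨i, k, hk, hik, hsq, hp, hΩ⟩ := hgood
  have hp' : ∀ p ∈ k.primeFactors, p % 4 = 1 ∧ p ∣ nm (vj z ((N0 * l + i : ℕ) : ℤ)) := by
    intro p hpk
    obtain ⟨h1, h2⟩ := hp p hpk
    have hpp := Nat.prime_of_mem_primeFactors hpk
    refine ⟨h1, hρ p hpp h1 _ ?_⟩
    have h3 : N0 * l + i ≡ N0 * l + (ρ p + (p - 1) * (N0 * l)) [MOD p] := Nat.ModEq.add_left _ h2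
    have h4 : N0 * l + (ρ p + (p - 1) * (N0 * l)) = ρ p + p * (N0 * l) := by
      obtain ⟨r, hr⟩ : ∃ r, p = r + 1 := ⟨p - 1, by have := hpp.pos; omega⟩
      rw [hr]; simp only [Nat.add_sub_cancel]; ring
    rw [h4] at h3
    refine h3.trans ?_
    have h5 : ρ p + p * (N0 * l) ≡ ρ p + 0 [MOD p] :=
      Nat.ModEq.add_left _ ((Nat.modEq_zero_iff_dvd).2 (dvd_mul_right _ _))
    exact h5
  obtain ⟨κ, A, B, hκ, hA, hB, hdet, hoA, hoB, hnA, hnB, hΩ', hdot⟩ :=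
    vj_pair_omega z hz (N0 * l + i) k hk hsq hp'
  have hN0 : 1 ≤ N0 := by omega
  have hNl : 1 ≤ N0 * l := Nat.one_le_iff_ne_zero.2 (by positivity)
  have hNl2 : N0 ≤ N0 * l := Nat.le_mul_of_pos_right _ hl
  have hcast : ((N0 * l + (i + k) : ℕ) : ℤ) = ((N0 * l + i : ℕ) : ℤ) + k := by push_cast; ring
  have hbd : ∀ j : ℕ, j + 1 ≤ 3 * (N0 * l) → (nm (vj z j) : ℝ) ≤ 10 * x := by
    intro j hj
    have h1 := vj_nm_le z hz.2.2 j
    have h2 : (nm (vj z j) : ℝ) ≤ ((j : ℝ) + 1) ^ 2 * nm z := by exact_mod_cast h1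
    have h3 : ((j : ℝ) + 1) ≤ 3 * ((N0 * l : ℕ) : ℝ) := by exact_mod_cast hj
    have h4 : ((j : ℝ) + 1) ^ 2 ≤ (3 * ((N0 * l : ℕ) : ℝ)) ^ 2 := by
      apply pow_le_pow_left₀ (by positivity) h3
    have h5 : (0 : ℝ) ≤ nm z := Nat.cast_nonneg _
    have h6 : (0 : ℝ) ≤ ((N0 * l : ℕ) : ℝ) ^ 2 * nm z := by positivity
    calc (nm (vj z j) : ℝ) ≤ ((j : ℝ) + 1) ^ 2 * nm z := h2
      _ ≤ (3 * ((N0 * l : ℕ) : ℝ)) ^ 2 * nm z := by gcongr
      _ = 9 * (((N0 * l : ℕ) : ℝ) ^ 2 * nm z) := by ring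
      _ ≤ 10 * x := by nlinarith
  refine ⟨(κ, A, B), ?_, ⟨hdet, hoA, hoB, ?_, ?_, hdot, ?_⟩, i, k, hk, hik, hκ, hA, hB⟩
  · simp only [hκ]
    exact_mod_cast (by omega : k ≤ N0)
  · exact le_trans (by exact_mod_cast hnA) (hbd (N0 * l + i) (by omega))
  · have := hbd (N0 * l + (i + k)) (by omega)
    rw [hcast] at this
    exact le_trans (by exact_mod_cast hnB) this
  · rw [hcast] at hΩ
    rw [← hΩ'] at hΩ
    exact Nat.ModEq.add_right_cancel' _ hΩ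

theorem sum_sq_le (m n : ℕ) (hm : 1 ≤ m) :
    ∑ l ∈ Icc m n, ((l : ℝ) ^ 2)⁻¹ ≤ 2 / m := by
  have h := sum_Ioo_inv_sq_le (α := ℝ) (m - 1) (n + 1)
  have h2 : Ioo (m - 1) (n + 1) = Icc m n := by
    ext t; simp only [mem_Ioo, mem_Icc]; omega
  rw [h2] at h
  refine h.trans (le_of_eq ?_)
  congr 1
  rw [Nat.cast_sub hm]; push_cast; ring

/-- For `z` admissible put `X_z j = Ω (nm (vj z j))`, `ρ_z p` a root from `vj_root`. Let `N0` be from `cert2 q _ _ a ε`.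
A window is `(z, l)` with `l ≥ 1`, `N0 (l + 1) > J`, `(N0 l) ^ 2 nm z ≤ x`. Every `(z, j) ∈ EJ J x (parity)` has
`Ω (m^2+1) = X_z j + X_z (j+1)` (`m^2 + 1 = nm V nm V'`), and lies in the window `l = j / N0 ≥ 1` (`j ≥ J ≥ N0`,
`j ^ 2 nm z ≤ m ≤ x`). `cert2` for `X i = X_z (N0 l + i)`, `ρ p = ρ_z p - N0 l` (in `ℕ`: `ρ_z p + (p - 1) N0 l`) says: either the window
contains at most `ε N0` such `j`, or there is a good pair `i, k` in it. The windows of the first type contribute at most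
`∑_l ε N0 #{z ≠ 0 : nm z ≤ x / (N0 l)^2} ≤ ε N0 ∑_(l ≥ 1, l ≥ J/N0 - 1) 9 x / (N0 l)^2 ≤ C0 ε x / J` (`ball_le`; `l > J/N0 - 1 ≥ 0`, `l ≥ 1` give `l ≥ J / (2 N0)`).
The windows of the second type contribute at most `N0` each; the map (window) ↦ `(κ, A, B)` of `vj_pair_omega` is injective
(`k = nm κ`, `k z = κ B - κ A`, then `i` from `vj z i = κ A`, `l = i / N0` as `N0 l ≤ i < i + k ≤ N0 l + N0`), `nm κ ≤ N0`, and
`(A, B) ∈ EG q a (10 x)`: norms at most `nm (vj z (N0 l + N0))`, at most `(2 N0 l + 1)^2 nm z ≤ 9 (N0 l)^2 nm z ≤ 9 x` (`vj_nm_le`). So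
`C = N0 #ball N0`. -/
theorem str_b : ∃ C0 : ℝ, 0 < C0 ∧ ∀ (q : ℕ), 0 < q → Even q → ∀ (a : ℕ) (ε : ℝ), 0 < ε →
    ∃ N0 : ℕ, 0 < N0 ∧ ∀ J : ℕ, N0 ≤ J → ∃ C : ℝ, 0 ≤ C ∧ ∀ x : ℝ, 1 ≤ x →
      ((EJ J x (fun m => ArithmeticFunction.cardFactors (m ^ 2 + 1) % 2 = a % 2)).ncard : ℝ) ≤
        C0 * ε * x / J + C * (EG q a (10 * x)).ncard := by
  classical
  refine ⟨36, by norm_num, ?_⟩
  intro q hq0 hq a ε hε
  obtain ⟨N0, hN0, hcert⟩ := OmQ.cert2 q hq0 hq a ε hε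
  refine ⟨N0, hN0, ?_⟩
  intro J hJ
  refine ⟨N0 * (finite_ball (N0 : ℝ)).toFinset.card, by positivity, ?_⟩
  intro x hx
  have hroot : ∀ z : G, ∃ ρ : ℕ → ℕ, zok z → ∀ p : ℕ, p.Prime → p % 4 = 1 →
      ∀ i : ℕ, i ≡ ρ p [MOD p] → p ∣ nm (vj z i) := by
    intro z
    by_cases hz : zok z
    · have h1 : ∀ p : ℕ, ∃ r : ℕ, p.Prime → p % 4 = 1 →
          ∀ i : ℕ, i ≡ r [MOD p] → p ∣ nm (vj z i) := by
        intro p
        by_cases hp : p.Prime ∧ p % 4 = 1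
        · obtain ⟨r, hr⟩ := vj_root z hz.2.2 p hp.1 hp.2
          exact ⟨r, fun _ _ => hr⟩
        · exact ⟨0, fun h1 h2 => absurd ⟨h1, h2⟩ hp⟩
      choose ρ hρ using h1
      exact ⟨ρ, fun _ => hρ⟩
    · exact ⟨fun _ => 0, fun h => absurd h hz⟩
  choose ρ hρ using hroot
  have hm1 : 1 ≤ J / N0 := Nat.div_pos hJ hN0
  have hfin : ∀ l : ℕ, {z : G | z ≠ 0 ∧ (nm z : ℝ) ≤ x / ((N0 * l : ℕ) : ℝ) ^ 2}.Finite :=
    fun l => (finite_ball _).subset (fun z hz => hz.2)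
  let D : ℕ → Finset G := fun l => (hfin l).toFinset.filter zok
  let W : G → ℕ → Finset ℕ := fun z l => (range N0).filter (fun i =>
    (ArithmeticFunction.cardFactors (nm (vj z ((N0 * l + i : ℕ) : ℤ))) +
      ArithmeticFunction.cardFactors (nm (vj z ((N0 * l + (i + 1) : ℕ) : ℤ)))) % 2 = a % 2)
  let S : Finset (Σ _ : ℕ, G) := (Icc (J / N0) ⌊x⌋₊).sigma D
  let T2 : (Σ _ : ℕ, G) → Prop := fun s =>
    ∃ t : G × G × G, (nm t.1 : ℝ) ≤ N0 ∧ t.2 ∈ EG q a (10 * x) ∧ WRel N0 s.2 s.1 t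
  have hmemS : ∀ s ∈ S, J / N0 ≤ s.1 ∧ s.1 ≤ ⌊x⌋₊ ∧ zok s.2 ∧ s.2 ≠ 0 ∧
      (nm s.2 : ℝ) ≤ x / ((N0 * s.1 : ℕ) : ℝ) ^ 2 := by
    intro s hs
    rw [mem_sigma, mem_Icc] at hs
    obtain ⟨⟨h1, h2⟩, h3⟩ := hs
    rw [mem_filter, Set.Finite.mem_toFinset] at h3
    exact ⟨h1, h2, h3.2, h3.1.1, h3.1.2⟩
  have hNlpos : ∀ l : ℕ, J / N0 ≤ l → (0 : ℝ) < ((N0 * l : ℕ) : ℝ) := by
    intro l hl
    exact_mod_cast Nat.mul_pos hN0 (by omega)
  -- each window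
  have hwin : ∀ s ∈ S, ((W s.2 s.1).card : ℝ) ≤ ε * N0 + if T2 s then (N0 : ℝ) else 0 := by
    intro s hs
    obtain ⟨h1, h2, h3, h4, h5⟩ := hmemS s hs
    have hpos := hNlpos s.1 h1
    have h6 : ((N0 * s.1 : ℕ) : ℝ) ^ 2 * nm s.2 ≤ x := by
      rw [le_div_iff₀ (by positivity)] at h5
      linarith
    rcases hcert (fun p => ρ s.2 p + (p - 1) * (N0 * s.1))
      (fun i => ArithmeticFunction.cardFactors (nm (vj s.2 ((N0 * s.1 + i : ℕ) : ℤ)))) with h | h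
    · have hT : T2 s := WRel_exists q a N0 s.1 (by omega) s.2 h3 x h6 (ρ s.2) (hρ s.2 h3) h
      rw [if_pos hT]
      have h7 : (W s.2 s.1).card ≤ N0 := by
        have := card_filter_le (range N0) (fun i =>
          (ArithmeticFunction.cardFactors (nm (vj s.2 ((N0 * s.1 + i : ℕ) : ℤ))) +
            ArithmeticFunction.cardFactors (nm (vj s.2 ((N0 * s.1 + (i + 1) : ℕ) : ℤ)))) % 2 = a % 2)
        rwa [card_range] at this
      have h8 : ((W s.2 s.1).card : ℝ) ≤ N0 := by exact_mod_cast h7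
      have h9 : 0 ≤ ε * N0 := by positivity
      linarith
    · have h7 : ((W s.2 s.1).card : ℝ) ≤ ε * N0 := h
      have h8 : (0 : ℝ) ≤ if T2 s then (N0 : ℝ) else 0 := by
        split_ifs <;> positivity
      linarith
  -- covering
  have hcover : EJ J x (fun m => ArithmeticFunction.cardFactors (m ^ 2 + 1) % 2 = a % 2) ⊆
      ((S.biUnion (fun s => (W s.2 s.1).image (fun i => (s.2, N0 * s.1 + i))) : Finset (G × ℕ)) :
        Set (G × ℕ)) := by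
    rintro ⟨z, j⟩ ⟨hz, hj, hjx, hP⟩
    simp only at hz hj hjx hP
    have hz0 : z ≠ 0 := by
      rintro rfl
      exact absurd (nm_pos_of_prim hz.2.2) (by simp)
    have hzn : (1 : ℝ) ≤ nm z := by exact_mod_cast nm_pos hz0
    have h1 : ((j : ℝ)) ^ 2 * nm z ≤ x := by
      refine le_trans ?_ hjx
      exact_mod_cast vj_dot_ge z hz.2.2 j
    have hjl : N0 * (j / N0) + j % N0 = j := Nat.div_add_mod j N0
    have hlj : ((N0 * (j / N0) : ℕ) : ℝ) ≤ j := by exact_mod_cast (by omega : N0 * (j / N0) ≤ j)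
    have hml : J / N0 ≤ j / N0 := Nat.div_le_div_right hj
    have hpos := hNlpos _ hml
    have h2 : ((N0 * (j / N0) : ℕ) : ℝ) ^ 2 * nm z ≤ x := by
      refine le_trans ?_ h1
      gcongr
    rw [mem_coe, mem_biUnion]
    refine ⟨⟨j / N0, z⟩, ?_, ?_⟩
    · rw [mem_sigma, mem_Icc, mem_filter, Set.Finite.mem_toFinset]
      refine ⟨⟨hml, ?_⟩, ⟨hz0, ?_⟩, hz⟩
      · apply Nat.le_floor
        have h3 : ((j / N0 : ℕ) : ℝ) ≤ ((N0 * (j / N0) : ℕ) : ℝ) := by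
          exact_mod_cast Nat.le_mul_of_pos_left _ hN0
        have h4 : (1 : ℝ) ≤ ((N0 * (j / N0) : ℕ) : ℝ) := by
          exact_mod_cast hpos
        have h5 : ((N0 * (j / N0) : ℕ) : ℝ) ≤ ((N0 * (j / N0) : ℕ) : ℝ) ^ 2 * nm z := by
          nlinarith [mul_le_mul h4 hzn (by norm_num) (by positivity)]
        linarith
      · rw [le_div_iff₀ (by positivity)]
        linarith
    · rw [mem_image]
      refine ⟨j % N0, ?_, ?_⟩
      · rw [mem_filter, mem_range]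
        refine ⟨Nat.mod_lt _ hN0, ?_⟩
        simp only
        rw [← add_assoc, hjl]
        have h3 := dot_sq_add_det_sq (vj z j) (vj z (j + 1))
        rw [vj_det z hz.2.2 j 1] at h3
        have h4 : (dot (vj z j) (vj z (j + 1))).natAbs ^ 2 + 1 =
            nm (vj z j) * nm (vj z ((j + 1 : ℕ) : ℤ)) := by
          zify
          rw [sq_abs]
          linarith
        rw [h4, ArithmeticFunction.cardFactors_mul] at hP
        · exact hP
        · have := vj_odd z hz j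
          exact this.pos.ne'
        · have := vj_odd z hz ((j + 1 : ℕ) : ℤ)
          exact this.pos.ne'
      · simp only [Prod.mk.injEq, true_and]
        exact hjl
  have hc1 : ((EJ J x (fun m => ArithmeticFunction.cardFactors (m ^ 2 + 1) % 2 = a % 2)).ncard : ℝ) ≤
      ∑ s ∈ S, ((W s.2 s.1).card : ℝ) := by
    have h1 := Set.ncard_le_ncard hcover (Finset.finite_toSet _)
    rw [Set.ncard_coe_finset] at h1
    have h2 : (S.biUnion (fun s => (W s.2 s.1).image (fun i => (s.2, N0 * s.1 + i)))).card ≤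
        ∑ s ∈ S, (W s.2 s.1).card :=
      card_biUnion_le.trans (sum_le_sum (fun s _ => card_image_le))
    exact_mod_cast h1.trans h2
  -- number of windows
  have hSn : (S.card : ℝ) ≤ 36 * x / (N0 * J) := by
    have h1 : (S.card : ℝ) = ∑ l ∈ Icc (J / N0) ⌊x⌋₊, ((D l).card : ℝ) := by
      rw [card_sigma]; push_cast; rfl
    rw [h1]
    have h2 : ∀ l ∈ Icc (J / N0) ⌊x⌋₊, ((D l).card : ℝ) ≤ 9 * x / N0 ^ 2 * ((l : ℝ) ^ 2)⁻¹ := by
      intro l hl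
      rw [mem_Icc] at hl
      have hpos := hNlpos l hl.1
      have h3 : (D l).card ≤ ({z : G | z ≠ 0 ∧ (nm z : ℝ) ≤ x / ((N0 * l : ℕ) : ℝ) ^ 2}).ncard := by
        rw [Set.ncard_eq_toFinset_card _ (hfin l)]
        exact card_filter_le _ _
      have h4 := ball_le (x / ((N0 * l : ℕ) : ℝ) ^ 2) (by positivity)
      have h5 : ((D l).card : ℝ) ≤
          (({z : G | z ≠ 0 ∧ (nm z : ℝ) ≤ x / ((N0 * l : ℕ) : ℝ) ^ 2}).ncard : ℝ) := by
        exact_mod_cast h3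
      refine (h5.trans h4).trans (le_of_eq ?_)
      push_cast
      rw [mul_pow]
      field_simp
    refine (sum_le_sum h2).trans ?_
    rw [← mul_sum]
    have h3 := sum_sq_le (J / N0) ⌊x⌋₊ hm1
    have hN0' : (0 : ℝ) < N0 := by exact_mod_cast hN0
    have hJ0 : (0 : ℝ) < J := by exact_mod_cast (by omega : 0 < J)
    have hmp : (0 : ℝ) < ((J / N0 : ℕ) : ℝ) := by exact_mod_cast hm1
    have h4 : (J : ℝ) ≤ 2 * (N0 * ((J / N0 : ℕ) : ℝ)) := by
      have h5 := Nat.lt_div_mul_add (a := J) hN0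
      have h6 : N0 ≤ J / N0 * N0 := Nat.le_mul_of_pos_left _ hm1
      have h7 : J ≤ 2 * (N0 * (J / N0)) := by
        rw [mul_comm N0]; omega
      exact_mod_cast h7
    calc 9 * x / (N0 : ℝ) ^ 2 * ∑ l ∈ Icc (J / N0) ⌊x⌋₊, ((l : ℝ) ^ 2)⁻¹
        ≤ 9 * x / (N0 : ℝ) ^ 2 * (2 / ((J / N0 : ℕ) : ℝ)) := by gcongr
      _ ≤ 36 * x / (N0 * J) := by
        rw [div_mul_div_comm, div_le_div_iff₀ (by positivity) (by positivity)]
        have : 0 < x := by linarith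
        nlinarith [mul_le_mul_of_nonneg_left h4 (by positivity : 0 ≤ 18 * x * N0)]
  -- number of windows of the second type
  have hT2 : ((S.filter T2).card : ℝ) ≤
      (finite_ball (N0 : ℝ)).toFinset.card * (EG q a (10 * x)).ncard := by
    have h1 : (S.filter T2).card ≤
        ((finite_ball (N0 : ℝ)).toFinset ×ˢ (EG_finite q a (10 * x)).toFinset).card := by
      apply card_le_card_of_injOn (fun s => if h : T2 s then h.choose else 0)
      · intro s hs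
        have hs2 : T2 s := (mem_filter.1 (mem_coe.1 hs)).2
        simp only [dif_pos hs2]
        obtain ⟨h2, h3, h4⟩ := hs2.choose_spec
        rw [mem_coe, mem_product, Set.Finite.mem_toFinset, Set.Finite.mem_toFinset]
        exact ⟨h2, h3⟩
      · intro s hs s' hs' heq
        have hs1 := (mem_filter.1 (mem_coe.1 hs)).1
        have hs2 : T2 s := (mem_filter.1 (mem_coe.1 hs)).2
        have hs2' : T2 s' := (mem_filter.1 (mem_coe.1 hs')).2
        simp only [dif_pos hs2, dif_pos hs2'] at heq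
        obtain ⟨_, _, h4⟩ := hs2.choose_spec
        obtain ⟨_, _, h4'⟩ := hs2'.choose_spec
        rw [← heq] at h4'
        obtain ⟨h5, h6⟩ := WRel_inj hN0 (hmemS s hs1).2.2.2.1 h4 h4'
        obtain ⟨l, z⟩ := s
        obtain ⟨l', z'⟩ := s'
        simp only at h5 h6
        rw [h5, h6]
    rw [card_product, ← Set.ncard_eq_toFinset_card _ (EG_finite q a (10 * x))] at h1
    exact_mod_cast h1
  have hN0' : (0 : ℝ) < N0 := by exact_mod_cast hN0
  have hJ0 : (0 : ℝ) < J := by exact_mod_cast (by omega : 0 < J)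
  calc _ ≤ ∑ s ∈ S, ((W s.2 s.1).card : ℝ) := hc1
    _ ≤ ∑ s ∈ S, (ε * N0 + if T2 s then (N0 : ℝ) else 0) := sum_le_sum hwin
    _ = ε * N0 * S.card + N0 * (S.filter T2).card := by
      rw [sum_add_distrib, sum_const, ← sum_filter, sum_const, nsmul_eq_mul, nsmul_eq_mul]
      ring
    _ ≤ ε * N0 * (36 * x / (N0 * J)) +
        N0 * ((finite_ball (N0 : ℝ)).toFinset.card * (EG q a (10 * x)).ncard) := by gcongr
    _ = _ := by field_simp


end Pool.Agent.OmAll
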