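import Pool.Agent.Lib_MP_f1a94e_aq.TV
import Pool.Agent.Lib_MP_f1a94e_aq.Near
import Pool.Agent.Lib_MP_f1a94e_aq.StrB

/-!
# Final assembly: even moduli
-/

set_option autoImplicit false

namespace Pool.Agent.OmAll

open Finset Pool.Agent.GaussMR Filter

open Classical in
/-- a positive proportion of the factorisations in every class modulo an even number -/
theorem all_even (q : ℕ) (hq0 : 0 < q) (hq : Even q) (a : ℕ) : ∃ c x0 : ℝ, 0 < c ∧ ∀ x : ℝ, x0 ≤ x →
    c * x ≤ ∑ m ∈ (Icc 1 ⌊x⌋₊).filter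
      (fun m => Even m ∧ ArithmeticFunction.cardFactors (m ^ 2 + 1) ≡ a [MOD q]), (tx x m : ℝ) := by
  obtain ⟨Λ, c1, X1, hΛ, hc1, hnear⟩ := near a
  obtain ⟨C1, hC1, hkt⟩ := ktail
  obtain ⟨C0, hC0, hstr⟩ := str_b
  have hpi := Real.pi_pos
  obtain ⟨Q, hQ⟩ : ∃ Q : ℕ → Prop, Q = fun m => ArithmeticFunction.cardFactors (m ^ 2 + 1) % 2 = a % 2 :=
    ⟨_, rfl⟩
  obtain ⟨a0, ha0⟩ : ∃ a0 : ℝ, a0 = min 1 (Real.pi / Λ) := ⟨_, rfl⟩
  have ha0p : 0 < a0 := by rw [ha0]; exact lt_min one_pos (by positivity)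
  have ha01 : a0 ≤ 1 := by rw [ha0]; exact min_le_left _ _
  have ha0Λ : a0 * Λ ≤ Real.pi := by
    have : a0 ≤ Real.pi / Λ := by rw [ha0]; exact min_le_right _ _
    rwa [le_div_iff₀ hΛ] at this
  obtain ⟨c2, hc2⟩ : ∃ c2 : ℝ, c2 = a0 * (2 / Real.pi) ^ 2 * c1 := ⟨_, rfl⟩
  have hc2p : 0 < c2 := by rw [hc2]; positivity
  obtain ⟨Θ, hΘ⟩ : ∃ Θ : ℝ, Θ = max 1 (8 * C1 / c2) := ⟨_, rfl⟩
  have hΘ1 : 1 ≤ Θ := by rw [hΘ]; exact le_max_left _ _
  have hΘC : C1 / Θ ≤ c2 / 8 := by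
    have h1 : 8 * C1 / c2 ≤ Θ := by rw [hΘ]; exact le_max_right _ _
    rw [div_le_iff₀ hc2p] at h1
    rw [div_le_iff₀ (by linarith)]
    linarith
  obtain ⟨ε, hε⟩ : ∃ ε : ℝ, ε = c2 / (16 * Θ * C0) := ⟨_, rfl⟩
  have hεp : 0 < ε := by rw [hε]; positivity
  obtain ⟨N0, hN0, hstr2⟩ := hstr q hq0 hq a ε hεp
  obtain ⟨C, hC, hstr3⟩ := hstr2 N0 le_rfl
  have hJR : (1 : ℝ) ≤ N0 := by exact_mod_cast hN0
  obtain ⟨b, hb⟩ : ∃ b : ℝ, b = Θ * N0 := ⟨_, rfl⟩
  have hb1 : 1 ≤ b := by rw [hb]; nlinarith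
  have hbp : 0 < b := by linarith
  obtain ⟨x1, htv⟩ := tv a0 b ha0p (by linarith) (c2 / 8) (by positivity)
  -- main inequality for the number of good edges
  have hmain : ∀ x : ℝ, max (max X1 x1) 1 ≤ x →
      c2 / 2 * x ≤ 2 * b * C * (EG q a (10 * x)).ncard := by
    intro x hx
    have hxX1 : X1 ≤ x := (le_max_left _ _).trans ((le_max_left _ _).trans hx)
    have hxx1 : x1 ≤ x := (le_max_right _ _).trans ((le_max_left _ _).trans hx)
    have hx1 : 1 ≤ x := (le_max_right _ _).trans hx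
    have e1 := hnear x hxX1
    have e2 := htv x hxx1 Q
    have e3 := hkt N0 hN0 b hbp x hx1
    have e4 := hstr3 x hx1
    rw [← hQ] at e4
    have e5 := str_a N0 hN0 x Q
    -- lower bound
    have l1 : c2 * x ≤ ∑ r ∈ (pd x).filter (fun r => Q r.1), Kf a0 (tt r) := by
      set R : Finset (ℕ × ℕ) := (pd x).filter (fun r => Q r.1 ∧ |tt r| ≤ Λ) with hR
      have hRc : {r : ℕ × ℕ | r ∈ pd x ∧ ArithmeticFunction.cardFactors (r.1 ^ 2 + 1) % 2 = a % 2 ∧
          |tt r| ≤ Λ} = (R : Set (ℕ × ℕ)) := by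
        ext r
        simp [hR, hQ]
      rw [hRc, Set.ncard_coe_finset] at e1
      have h1 : ∑ r ∈ R, a0 * (2 / Real.pi) ^ 2 ≤ ∑ r ∈ R, Kf a0 (tt r) := by
        apply Finset.sum_le_sum
        intro r hr
        apply Kf_ge a0 (tt r) ha0p
        rw [abs_mul, abs_of_pos ha0p]
        have h2 := (mem_filter.1 hr).2.2
        calc a0 * |tt r| ≤ a0 * Λ := by gcongr
          _ ≤ Real.pi := ha0Λ
      have h2 : ∑ r ∈ R, Kf a0 (tt r) ≤ ∑ r ∈ (pd x).filter (fun r => Q r.1), Kf a0 (tt r) := by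
        apply Finset.sum_le_sum_of_subset_of_nonneg
        · intro r hr
          rw [hR, mem_filter] at hr
          exact mem_filter.2 ⟨hr.1, hr.2.1⟩
        · intro r _ _
          exact Kf_nonneg _ _ ha0p.le
      rw [Finset.sum_const, nsmul_eq_mul] at h1
      have h3 : (0 : ℝ) ≤ a0 * (2 / Real.pi) ^ 2 := by positivity
      have h4 := mul_le_mul_of_nonneg_left e1 h3
      rw [hc2]
      nlinarith
    -- difference
    have l2 : ∑ r ∈ (pd x).filter (fun r => Q r.1), Kf a0 (tt r) ≤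
        ∑ r ∈ (pd x).filter (fun r => Q r.1), Kf b (tt r) + c2 / 8 * x := by
      have h1 := (abs_le.1 e2).2
      have h2 : ∑ r ∈ (pd x).filter (fun r => Q r.1), Hf a0 b (tt r) =
          ∑ r ∈ (pd x).filter (fun r => Q r.1), Kf a0 (tt r) -
            ∑ r ∈ (pd x).filter (fun r => Q r.1), Kf b (tt r) := by
        rw [← Finset.sum_sub_distrib]
        rfl
      rw [h2] at h1
      linarith
    -- splitting of the second kernel
    have l3 : ∑ r ∈ (pd x).filter (fun r => Q r.1), Kf b (tt r) ≤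
        b * ((pd x).filter (fun r => Q r.1 ∧ |tt r| < 1 / (2 * (N0 : ℝ)))).card +
          ∑ r ∈ (pd x).filter (fun r => 1 / (2 * (N0 : ℝ)) ≤ |tt r|), Kf b (tt r) := by
      rw [← Finset.sum_filter_add_sum_filter_not ((pd x).filter (fun r => Q r.1))
        (fun r => |tt r| < 1 / (2 * (N0 : ℝ)))]
      apply add_le_add
      · rw [Finset.filter_filter]
        refine (Finset.sum_le_card_nsmul _ _ b fun r _ => Kf_le b (tt r) hbp.le).trans ?_
        rw [nsmul_eq_mul, mul_comm]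
      · apply Finset.sum_le_sum_of_subset_of_nonneg
        · intro r hr
          rw [mem_filter, mem_filter, not_lt] at hr
          exact mem_filter.2 ⟨hr.1.1, hr.2⟩
        · intro r _ _
          exact Kf_nonneg _ _ hbp.le
    have l4 : (((pd x).filter (fun r => Q r.1 ∧ |tt r| < 1 / (2 * (N0 : ℝ)))).card : ℝ) ≤
        2 * (C0 * ε * x / N0 + C * (EG q a (10 * x)).ncard) := by
      have hRc : {r : ℕ × ℕ | r ∈ pd x ∧ Q r.1 ∧ |tt r| < 1 / (2 * N0)} =
          (((pd x).filter (fun r => Q r.1 ∧ |tt r| < 1 / (2 * (N0 : ℝ))) : Finset (ℕ × ℕ)) :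
            Set (ℕ × ℕ)) := by
        ext r
        simp
      rw [hRc, Set.ncard_coe_finset] at e5
      refine e5.trans ?_
      gcongr
    have l5 : b * (2 * (C0 * ε * x / N0 + C * (EG q a (10 * x)).ncard)) =
        c2 / 8 * x + 2 * b * C * (EG q a (10 * x)).ncard := by
      have hN : (0 : ℝ) < N0 := by linarith
      have hΘp : 0 < Θ := by linarith
      rw [hb, hε]
      field_simp
      ring
    have l6 : C1 * (N0 / b) * x ≤ c2 / 8 * x := by
      have h1 : (N0 : ℝ) / b = 1 / Θ := by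
        rw [hb]
        field_simp
      rw [h1]
      have h2 : C1 * (1 / Θ) = C1 / Θ := by ring
      rw [h2]
      gcongr
    have l7 := mul_le_mul_of_nonneg_left l4 hbp.le
    rw [l5] at l7
    have l8 : 0 ≤ c2 * x := by
      have : 0 ≤ x := by linarith
      positivity
    linarith
  -- conclusion
  refine ⟨c2 / (80 * (2 * b * C + 1)), 10 * max (max X1 x1) 1, by positivity, ?_⟩
  intro X hX
  have hx : max (max X1 x1) 1 ≤ X / 10 := by
    rw [le_div_iff₀ (by norm_num)]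
    linarith
  have h1 := hmain (X / 10) hx
  have h2 : 10 * (X / 10) = X := by ring
  rw [h2] at h1
  have hX0 : 0 ≤ X := by
    have := (le_max_right (max X1 x1) 1).trans hx
    linarith
  have h3 := EG_le q a X hX0
  set S : ℝ := ∑ m ∈ (Icc 1 ⌊X⌋₊).filter
      (fun m => Even m ∧ ArithmeticFunction.cardFactors (m ^ 2 + 1) ≡ a [MOD q]), (tx X m : ℝ) with hS
  have hS0 : 0 ≤ S := Finset.sum_nonneg fun m _ => by positivity
  have h4 : 0 ≤ 2 * b * C := by positivity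
  have h5 : c2 / 2 * (X / 10) ≤ 2 * b * C * (4 * S) := h1.trans (mul_le_mul_of_nonneg_left h3 h4)
  rw [div_mul_eq_mul_div, div_le_iff₀ (by positivity)]
  nlinarith

end Pool.Agent.OmAll
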