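import Pool.Agent.Lib_MP_f1a94e_aq.HHset

/-!
# Piece GAP: character sums over the residue classes `1 mod 4`
-/

set_option autoImplicit false

namespace Pool.Agent.OmQ

open Finset LibLS

namespace GapAux

theorem e_eq_one {x : ℝ} (h : e x = 1) : ∃ n : ℤ, x = n := by
  unfold e at h
  obtain ⟨n, hn⟩ := Complex.exp_eq_one_iff.1 h
  refine ⟨n, ?_⟩
  have h1 : (2 * Real.pi * x : ℝ) = (2 * Real.pi * n : ℝ) := by
    have h2 : Complex.I * ((2 * Real.pi * x : ℝ) : ℂ) =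
        Complex.I * ((2 * Real.pi * n : ℝ) : ℂ) := by
      rw [hn]
      push_cast
      ring
    exact_mod_cast mul_left_cancel₀ Complex.I_ne_zero h2
  have h3 : (2 * Real.pi : ℝ) ≠ 0 := by positivity
  exact mul_left_cancel₀ h3 h1

theorem e_div_ne_one {W : ℕ} (hW : 0 < W) {b : ℤ} (h : ¬ (W : ℤ) ∣ b) : e ((b : ℝ) / W) ≠ 1 := by
  intro h1
  obtain ⟨n, hn⟩ := e_eq_one h1
  apply h
  refine ⟨n, ?_⟩
  have hW' : (W : ℝ) ≠ 0 := by positivity
  rw [div_eq_iff hW'] at hn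
  have h2 : (b : ℝ) = ((W * n : ℤ) : ℝ) := by
    push_cast
    rw [hn]
    ring
  exact_mod_cast h2

theorem shift_inj {W k : ℕ} {U : Finset ℕ} (hU : ∀ h ∈ U, h < W) :
    Set.InjOn (fun h => (h + k) % W) (U : Set ℕ) := by
  intro a ha b hb hab
  have h1 : a + k ≡ b + k [MOD W] := hab
  exact Nat.ModEq.eq_of_lt_of_lt (Nat.ModEq.add_right_cancel' k h1) (hU a ha) (hU b hb)

theorem shift_sum {W k : ℕ} {U : Finset ℕ} (hU : ∀ h ∈ U, h < W)
    (hmap : ∀ h ∈ U, (h + k) % W ∈ U) (f : ℕ → ℂ) :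
    ∑ h ∈ U, f ((h + k) % W) = ∑ h ∈ U, f h := by
  have hinj := shift_inj (k := k) hU
  have himg : U.image (fun h => (h + k) % W) = U := by
    apply Finset.eq_of_subset_of_card_le
    · intro x hx
      obtain ⟨h, hh, rfl⟩ := Finset.mem_image.1 hx
      exact hmap h hh
    · rw [Finset.card_image_of_injOn hinj]
  conv_rhs => rw [← himg]
  rw [Finset.sum_image hinj]

theorem e_mod {W : ℕ} (hW : 0 < W) (a : ℤ) (h : ℕ) :
    e (((h % W : ℕ) : ℝ) * ((a : ℝ) / W)) = e ((h : ℝ) * ((a : ℝ) / W)) := by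
  have hW' : (W : ℝ) ≠ 0 := by positivity
  have h1 : (h : ℝ) = ((h % W : ℕ) : ℝ) + W * ((h / W : ℕ) : ℝ) := by
    exact_mod_cast (Nat.mod_add_div h W).symm
  generalize h / W = q at h1
  generalize h % W = r at h1
  have h2 : (h : ℝ) * ((a : ℝ) / W) = (r : ℝ) * ((a : ℝ) / W) + (((q : ℤ) * a : ℤ) : ℝ) := by
    rw [h1]
    push_cast
    field_simp
  rw [h2, e_add_int]

theorem sum_zero {W k : ℕ} (hW : 0 < W) {U : Finset ℕ} (hU : ∀ h ∈ U, h < W)
    (hmap : ∀ h ∈ U, (h + k) % W ∈ U) {a : ℤ} (hk : ¬ (W : ℤ) ∣ k * a) :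
    ∑ h ∈ U, e ((h : ℝ) * ((a : ℝ) / W)) = 0 := by
  have h1 : ∑ h ∈ U, e ((h : ℝ) * ((a : ℝ) / W)) =
      e ((((k * a : ℤ)) : ℝ) / W) * ∑ h ∈ U, e ((h : ℝ) * ((a : ℝ) / W)) := by
    conv_lhs => rw [← shift_sum hU hmap (fun h => e ((h : ℝ) * ((a : ℝ) / W)))]
    rw [mul_sum]
    refine sum_congr rfl fun h _ => ?_
    rw [e_mod hW, ← e_add]
    congr 1
    push_cast
    ring
  have h2 : (1 - e ((((k * a : ℤ)) : ℝ) / W)) * ∑ h ∈ U, e ((h : ℝ) * ((a : ℝ) / W)) = 0 := by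
    rw [sub_mul, one_mul, ← h1, sub_self]
  rcases mul_eq_zero.1 h2 with h3 | h3
  · exact absurd (sub_eq_zero.1 h3).symm (e_div_ne_one hW hk)
  · exact h3

/-- residues `1 mod 4` prime to the elements of `Q` -/
def UU (W : ℕ) (Q : Finset ℕ) : Finset ℕ :=
  (range W).filter (fun h => h % 4 = 1 ∧ ∀ p ∈ Q, ¬ p ∣ h)

theorem mem_UU {W h : ℕ} {Q : Finset ℕ} : h ∈ UU W Q ↔ h < W ∧ h % 4 = 1 ∧ ∀ p ∈ Q, ¬ p ∣ h := by
  simp [UU]

theorem UU_shift {W : ℕ} (hW : 0 < W) (h4 : 4 ∣ W) {Q : Finset ℕ} (hQ : ∀ p ∈ Q, p ∣ W) {k : ℕ}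
    (hk4 : 4 ∣ k) (hk : ∀ p ∈ Q, p ∣ k) {h : ℕ} (hh : h ∈ UU W Q) : (h + k) % W ∈ UU W Q := by
  obtain ⟨h1, h2, h3⟩ := mem_UU.1 hh
  refine mem_UU.2 ⟨Nat.mod_lt _ hW, ?_, ?_⟩
  · rw [Nat.mod_mod_of_dvd _ h4]
    omega
  · intro p hp h5
    have h6 : p ∣ h + k := (Nat.dvd_mod_iff (hQ p hp)).1 h5
    exact h3 p hp ((Nat.dvd_add_left (hk p hp)).1 h6)

theorem HH_eq {W : ℕ} (hW : 0 < W) : HH W = UU W (W.primeFactors.erase 2) := by
  ext h
  rw [mem_HH, mem_UU]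
  constructor
  · rintro ⟨h1, h2, h3⟩
    refine ⟨h1, h3, ?_⟩
    intro p hp h4
    have hp1 := Finset.mem_of_mem_erase hp
    exact Nat.not_coprime_of_dvd_of_dvd (Nat.prime_of_mem_primeFactors hp1).one_lt h4
      (Nat.dvd_of_mem_primeFactors hp1) h2
  · rintro ⟨h1, h2, h3⟩
    refine ⟨h1, ?_, h2⟩
    apply Nat.coprime_of_dvd
    intro p hp h4 h5
    by_cases hp2 : p = 2
    · subst hp2
      omega
    · exact h3 p (Finset.mem_erase.2 ⟨hp2, Nat.mem_primeFactors.2 ⟨hp, h5, hW.ne'⟩⟩) h4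

end GapAux

open GapAux in
/-- If `W ∤ 4 a` then `|∑_(h ∈ HH W) e(h a / W)| ≤ #HH / 2`. Let `d = W / gcd(a, W)` (the order of `a / W`
modulo 1); `d ∤ 4`. Either an odd prime `ℓ` divides `d`, or `8 ∣ d`.

Case 1, `ℓ` odd prime, `ℓ ∣ d`. Let `N' = 4 * ∏ (odd primes ≠ ℓ dividing W)`, and
`U = {h < W : h % 4 = 1, h coprime to every prime ≠ ℓ dividing W}`. `h ↦ (h + N') % W` is a permutation of `U`,
hence `∑_U e(h a / W) = e(N' a / W) ∑_U e(h a / W)`, and `e(N' a / W) ≠ 1` (as `W ∤ N' a`: otherwise `ℓ ∣ d ∣ N'`), so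
`∑_U = 0`. `U = HH W ⊔ U_ℓ`, `U_ℓ = {h ∈ U : ℓ ∣ h}`, and among `h, h + N', .., h + (ℓ - 1) N'` exactly one is
divisible by `ℓ`, so `ℓ #U_ℓ = #U` (count pairs, the shift is a permutation of `U`), `#U_ℓ = #HH / (ℓ - 1) ≤ #HH / 2`,
and `|∑_HH| = |∑_(U_ℓ)| ≤ #U_ℓ`.

Case 2, `8 ∣ d`: `N'' = 4 * ∏ (odd primes dividing W)`; `h ↦ (h + N'') % W` permutes `HH W` and
`e(N'' a / W) ≠ 1` because `d ∤ N''` (`8 ∤ N''`); the sum is `0`. -/
theorem gap (W : ℕ) (hW : 0 < W) (h4 : 4 ∣ W) (a : ℤ) (ha : ¬ (W : ℤ) ∣ 4 * a) :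
    ‖∑ h ∈ HH W, e ((h : ℝ) * ((a : ℝ) / W))‖ ≤ (HH W).card / 2 := by
  obtain ⟨n0, a', hcop, hW', ha'⟩ := Nat.exists_coprime W a.natAbs
  set g := Nat.gcd W a.natAbs with hg
  have hgpos : 0 < g := Nat.gcd_pos_of_pos_left _ hW
  have key : ∀ n : ℕ, (W : ℤ) ∣ n * a ↔ n0 ∣ n := by
    intro n
    rw [Int.natCast_dvd, Int.natAbs_mul, Int.natAbs_natCast, ha']
    conv_lhs => rw [hW']
    rw [← mul_assoc, Nat.mul_dvd_mul_iff_right hgpos]
    exact ⟨fun h => hcop.dvd_of_dvd_mul_right h, fun h => Dvd.dvd.mul_right h _⟩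
  have h04 : ¬ n0 ∣ 4 := by
    intro h
    apply ha
    have := (key 4).2 h
    exact_mod_cast this
  have hn0W : n0 ∣ W := ⟨g, hW'⟩
  rw [HH_eq hW]
  set P := W.primeFactors.erase 2 with hP
  have hPW : ∀ p ∈ P, p ∣ W := fun p hp => Nat.dvd_of_mem_primeFactors (Finset.mem_of_mem_erase hp)
  have hPp : ∀ p ∈ P, p.Prime := fun p hp =>
    Nat.prime_of_mem_primeFactors (Finset.mem_of_mem_erase hp)
  by_cases hex : ∃ l : ℕ, l.Prime ∧ l ≠ 2 ∧ l ∣ n0
  · obtain ⟨l, hl, hl2, hln⟩ := hex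
    have hlP : l ∈ P := Finset.mem_erase.2 ⟨hl2, Nat.mem_primeFactors.2 ⟨hl, hln.trans hn0W, hW.ne'⟩⟩
    have hl3 : 3 ≤ l := by
      have := hl.two_le
      omega
    set Q := P.erase l with hQ
    have hQP : ∀ p ∈ Q, p ∈ P := fun p hp => Finset.mem_of_mem_erase hp
    set N' := 4 * ∏ p ∈ Q, p with hN'
    have hQN : ∀ p ∈ Q, p ∣ N' := fun p hp => Dvd.dvd.mul_left (Finset.dvd_prod_of_mem _ hp) 4
    have h4N : 4 ∣ N' := Dvd.intro _ rfl
    have hlN : ¬ l ∣ N' := by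
      intro h
      rcases hl.dvd_mul.1 h with h1 | h1
      · have h2 : l ∣ 2 ^ 2 := h1
        exact hl2 ((Nat.prime_dvd_prime_iff_eq hl Nat.prime_two).1 (hl.dvd_of_dvd_pow h2))
      · obtain ⟨p, hp, h2⟩ := (hl.prime.dvd_finsetProd_iff _).1 h1
        have h3 := (Nat.prime_dvd_prime_iff_eq hl (hPp p (hQP p hp))).1 h2
        rw [← h3] at hp
        exact (Finset.mem_erase.1 hp).1 rfl
    have hUlt : ∀ h ∈ UU W Q, h < W := fun h hh => (mem_UU.1 hh).1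
    have hz : ∑ h ∈ UU W Q, e ((h : ℝ) * ((a : ℝ) / W)) = 0 := by
      refine sum_zero (k := N') hW hUlt (fun h hh => UU_shift hW h4 (fun p hp => hPW p (hQP p hp))
        h4N hQN hh) ?_
      rw [key]
      exact fun h => hlN (hln.trans h)
    -- the two parts
    have hHH : UU W P = (UU W Q).filter (fun h => ¬ l ∣ h) := by
      ext h
      rw [mem_filter, mem_UU, mem_UU]
      constructor
      · rintro ⟨h1, h2, h3⟩
        exact ⟨⟨h1, h2, fun p hp => h3 p (hQP p hp)⟩, h3 l hlP⟩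
      · rintro ⟨⟨h1, h2, h3⟩, h5⟩
        refine ⟨h1, h2, fun p hp => ?_⟩
        by_cases hpl : p = l
        · rw [hpl]
          exact h5
        · exact h3 p (Finset.mem_erase.2 ⟨hpl, hp⟩)
    set UL := (UU W Q).filter (fun h => l ∣ h) with hUL
    have hsplit : ∑ h ∈ UL, e ((h : ℝ) * ((a : ℝ) / W)) +
        ∑ h ∈ UU W P, e ((h : ℝ) * ((a : ℝ) / W)) = 0 := by
      rw [hHH, hUL, Finset.sum_filter_add_sum_filter_not, hz]
    have hULlt : ∀ h ∈ UL, h < W := fun h hh => hUlt h (Finset.mem_filter.1 hh).1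
    have hlW : l ∣ W := hPW l hlP
    -- shifts by `N'` and `2 N'`
    have hsh : ∀ r : ℕ, 1 ≤ r → r ≤ 2 → ∀ h ∈ UL, (h + r * N') % W ∈ UU W P := by
      intro r hr1 hr2 h hh
      obtain ⟨h1, h2⟩ := Finset.mem_filter.1 hh
      rw [hHH]
      refine Finset.mem_filter.2 ⟨UU_shift hW h4 (fun p hp => hPW p (hQP p hp))
        (Dvd.dvd.mul_left h4N r) (fun p hp => Dvd.dvd.mul_left (hQN p hp) r) h1, ?_⟩
      intro h3
      have h5 : l ∣ h + r * N' := (Nat.dvd_mod_iff hlW).1 h3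
      have h6 : l ∣ r * N' := (Nat.dvd_add_right h2).1 h5
      rcases hl.dvd_mul.1 h6 with h7 | h7
      · have := Nat.le_of_dvd (by omega) h7
        omega
      · exact hlN h7
    have hdisj : Disjoint (UL.image (fun h => (h + 1 * N') % W))
        (UL.image (fun h => (h + 2 * N') % W)) := by
      rw [Finset.disjoint_left]
      rintro x hx hy
      obtain ⟨h, hh, rfl⟩ := Finset.mem_image.1 hx
      obtain ⟨h', hh', he⟩ := Finset.mem_image.1 hy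
      have h1 : h' + 2 * N' ≡ h + 1 * N' [MOD W] := he
      have h2 : h' + 2 * N' ≡ h + 1 * N' [MOD l] := h1.of_dvd hlW
      have h3 : h' ≡ 0 [MOD l] := (Nat.modEq_zero_iff_dvd).2 (Finset.mem_filter.1 hh').2
      have h5 : h ≡ 0 [MOD l] := (Nat.modEq_zero_iff_dvd).2 (Finset.mem_filter.1 hh).2
      have h6 : 0 + 2 * N' ≡ 0 + 1 * N' [MOD l] :=
        ((h3.add_right _).symm.trans h2).trans (h5.add_right _)
      have h7 : N' + N' ≡ 0 + N' [MOD l] := by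
        have e1 : 0 + 2 * N' = N' + N' := by ring
        have e2 : 0 + 1 * N' = 0 + N' := by ring
        rw [e1, e2] at h6
        exact h6
      exact hlN ((Nat.modEq_zero_iff_dvd).1 (Nat.ModEq.add_right_cancel' N' h7))
    have hcard : 2 * UL.card ≤ (UU W P).card := by
      have h1 : (UL.image (fun h => (h + 1 * N') % W) ∪ UL.image (fun h => (h + 2 * N') % W)) ⊆
          UU W P := by
        intro x hx
        rcases Finset.mem_union.1 hx with hx | hx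
        · obtain ⟨h, hh, rfl⟩ := Finset.mem_image.1 hx
          exact hsh 1 le_rfl (by norm_num) h hh
        · obtain ⟨h, hh, rfl⟩ := Finset.mem_image.1 hx
          exact hsh 2 (by norm_num) le_rfl h hh
      have h2 := Finset.card_le_card h1
      rw [Finset.card_union_of_disjoint hdisj, Finset.card_image_of_injOn (shift_inj hULlt),
        Finset.card_image_of_injOn (shift_inj hULlt)] at h2
      omega
    have h5 : ∑ h ∈ UU W P, e ((h : ℝ) * ((a : ℝ) / W)) =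
        -∑ h ∈ UL, e ((h : ℝ) * ((a : ℝ) / W)) := by
      rw [add_comm] at hsplit
      exact eq_neg_of_add_eq_zero_left hsplit
    rw [h5, norm_neg]
    refine (norm_sum_le _ _).trans ?_
    simp only [norm_e, sum_const, nsmul_eq_mul, mul_one]
    have h6 : (2 : ℝ) * UL.card ≤ (UU W P).card := by exact_mod_cast hcard
    linarith
  · push Not at hex
    set N' := 4 * ∏ p ∈ P, p with hN'
    have hPN : ∀ p ∈ P, p ∣ N' := fun p hp => Dvd.dvd.mul_left (Finset.dvd_prod_of_mem _ hp) 4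
    have h4N : 4 ∣ N' := Dvd.intro _ rfl
    have hz : ∑ h ∈ UU W P, e ((h : ℝ) * ((a : ℝ) / W)) = 0 := by
      refine sum_zero (k := N') hW (fun h hh => (mem_UU.1 hh).1)
        (fun h hh => UU_shift hW h4 hPW h4N hPN hh) ?_
      rw [key]
      intro h
      apply h04
      refine Nat.Coprime.dvd_of_dvd_mul_right ?_ h
      refine Nat.Coprime.prod_right fun p hp => ?_
      exact ((hPp p hp).coprime_iff_not_dvd.2 (hex p (hPp p hp) (Finset.mem_erase.1 hp).1)).symm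
    rw [hz, norm_zero]
    exact div_nonneg (Nat.cast_nonneg _) (by norm_num)

/-- If `W ∣ 4 a`, all terms are equal: `h a / W - a / W = ((h - 1) / 4) (4 a / W)` is an integer. -/
theorem gap_eq (W : ℕ) (hW : 0 < W) (h4 : 4 ∣ W) (a : ℤ) (ha : (W : ℤ) ∣ 4 * a) (h : ℕ) (hh : h ∈ HH W) :
    e ((h : ℝ) * ((a : ℝ) / W)) = e ((a : ℝ) / W) := by
  obtain ⟨-, -, h3⟩ := mem_HH.1 hh
  obtain ⟨b, hb⟩ := ha
  have hW' : (W : ℝ) ≠ 0 := by positivity
  have h5 : (h : ℝ) = 1 + 4 * ((h / 4 : ℕ) : ℝ) := by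
    have : h = 1 + 4 * (h / 4) := by omega
    exact_mod_cast this
  have h6 : (4 : ℝ) * a = W * b := by exact_mod_cast hb
  generalize h / 4 = q at h5
  have h7 : (h : ℝ) * ((a : ℝ) / W) = (a : ℝ) / W + (((q : ℤ) * b : ℤ) : ℝ) := by
    rw [h5]
    push_cast
    field_simp
    linear_combination (q : ℝ) * h6
  rw [h7, e_add_int]

end Pool.Agent.OmQ
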