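import Pool.Agent.Lib_MP_f1a94e_q.Mlt

/-!
# The residue classes `1 mod 4`, coprime to `W`
-/

set_option autoImplicit false

namespace Pool.Agent.OmQ

open Finset LibLS

/-- residues modulo `W`, coprime to `W` and `1 mod 4` -/
def HH (W : ℕ) : Finset ℕ := (range W).filter (fun h => h.Coprime W ∧ h % 4 = 1)

theorem mem_HH {W h : ℕ} : h ∈ HH W ↔ h < W ∧ h.Coprime W ∧ h % 4 = 1 := by
  simp [HH]

theorem HH_pos {W : ℕ} (hW : 0 < W) (h4 : 4 ∣ W) : 0 < (HH W).card := by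
  apply Finset.card_pos.2
  refine ⟨1, mem_HH.2 ⟨?_, Nat.coprime_one_left W, rfl⟩⟩
  have := Nat.le_of_dvd hW h4
  omega

/-- multiplication by `p` permutes `HH W` -/
theorem HH_mul {W p : ℕ} (hW : 0 < W) (h4 : 4 ∣ W) (hp : p.Coprime W) (hp4 : p % 4 = 1) (f : ℕ → ℝ) :
    ∑ h ∈ HH W, f (h * p % W) = ∑ h ∈ HH W, f h := by
  have hmaps : ∀ h ∈ HH W, h * p % W ∈ HH W := by
    intro h hh
    obtain ⟨h1, h2, h3⟩ := mem_HH.1 hh
    refine mem_HH.2 ⟨Nat.mod_lt _ hW, ?_, ?_⟩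
    · have h5 : (h * p).Coprime W := Nat.Coprime.mul_left h2 hp
      have h6 := Nat.ModEq.gcd_eq (Nat.mod_modEq (h * p) W)
      unfold Nat.Coprime at h5 ⊢
      rw [h6]
      exact h5
    · rw [Nat.mod_mod_of_dvd _ h4, Nat.mul_mod, h3, hp4]
  have hinj : Set.InjOn (fun h => h * p % W) (HH W : Set ℕ) := by
    intro a ha b hb hab
    have h1 : a * p ≡ b * p [MOD W] := hab
    have h2 : a ≡ b [MOD W] := Nat.ModEq.cancel_right_of_coprime (by
      rw [Nat.gcd_comm]; exact hp) h1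
    exact Nat.ModEq.eq_of_lt_of_lt h2 (mem_HH.1 ha).1 (mem_HH.1 hb).1
  have himg : (HH W).image (fun h => h * p % W) = HH W := by
    apply Finset.eq_of_subset_of_card_le
    · intro x hx
      obtain ⟨h, hh, rfl⟩ := Finset.mem_image.1 hx
      exact hmaps h hh
    · rw [Finset.card_image_of_injOn hinj]
  conv_rhs => rw [← himg]
  rw [Finset.sum_image hinj]

end Pool.Agent.OmQ
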