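import Pool.Agent.Lib_MP_f1a94e_aq.Defs

/-!
# Piece KERN: bounds for the kernels
-/

set_option autoImplicit false

namespace Pool.Agent.OmAll

open Pool.Agent.GaussMR

theorem Kf_nonneg (a t : ℝ) (ha : 0 ≤ a) : 0 ≤ Kf a t := by
  unfold Kf
  positivity

theorem Kf_cont (a : ℝ) : Continuous (Kf a) := by
  unfold Kf
  have h := Real.continuous_sinc
  fun_prop

theorem Kf_le (a t : ℝ) (ha : 0 ≤ a) : Kf a t ≤ a := by
  unfold Kf
  have h1 : Real.sinc (a * t / 2) ^ 2 ≤ 1 := by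
    rw [sq_le_one_iff_abs_le_one, abs_le]
    exact ⟨Real.neg_one_le_sinc _, Real.sinc_le_one _⟩
  calc a * Real.sinc (a * t / 2) ^ 2 ≤ a * 1 := mul_le_mul_of_nonneg_left h1 ha
    _ = a := mul_one a

/-- `t^2 Kf a t = 4 sin^2 (a t / 2) / a` -/
theorem Kf_le_sq (a t : ℝ) (ha : 0 < a) (ht : t ≠ 0) : Kf a t ≤ 4 / (a * t ^ 2) := by
  unfold Kf
  have hu : a * t / 2 ≠ 0 := by positivity
  rw [Real.sinc_of_ne_zero hu, div_pow]
  have h1 : Real.sin (a * t / 2) ^ 2 ≤ 1 := Real.sin_sq_le_one _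
  have h2 : (0 : ℝ) < (a * t / 2) ^ 2 := by positivity
  calc a * (Real.sin (a * t / 2) ^ 2 / (a * t / 2) ^ 2) ≤ a * (1 / (a * t / 2) ^ 2) :=
        mul_le_mul_of_nonneg_left (div_le_div_of_nonneg_right h1 h2.le) ha.le
    _ = 4 / (a * t ^ 2) := by
        field_simp
        norm_num

/-- `sin u ≥ (2 / π) u` on `[0, π / 2]` -/
theorem Kf_ge (a t : ℝ) (ha : 0 < a) (ht : |a * t| ≤ Real.pi) : a * (2 / Real.pi) ^ 2 ≤ Kf a t := by
  unfold Kf
  apply mul_le_mul_of_nonneg_left _ ha.le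
  have hpi := Real.pi_pos
  have key : ∀ u : ℝ, 0 ≤ u → u ≤ Real.pi / 2 → 2 / Real.pi ≤ Real.sinc u := by
    intro u h0 h1
    rcases h0.eq_or_lt with h | h
    · rw [← h, Real.sinc_zero, div_le_one hpi]
      linarith [Real.pi_gt_three]
    · rw [Real.sinc_of_ne_zero h.ne', le_div_iff₀ h]
      exact Real.mul_le_sin h0 h1
  have h2 : 2 / Real.pi ≤ Real.sinc (a * t / 2) := by
    rw [abs_le] at ht
    rcases le_total 0 (a * t / 2) with h | h
    · exact key _ h (by linarith)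
    · rw [← Real.sinc_neg]
      exact key _ (by linarith) (by linarith)
  exact pow_le_pow_left₀ (by positivity) h2 2

theorem Kf_even (a t : ℝ) : Kf a (-t) = Kf a t := by
  unfold Kf
  rw [show a * -t / 2 = -(a * t / 2) by ring, Real.sinc_neg]

theorem Hf_cont (a b : ℝ) : Continuous (Hf a b) := by
  unfold Hf
  exact (Kf_cont a).sub (Kf_cont b)

/-- `|Hf a b t| ≤ B / (1 + t^2)`, `B = max` of the bounds: `2 b` for `|t| ≤ 1`, `8 / (a t^2)` for `|t| ≥ 1`, e.g. `B = 4 b + 16 / a`. -/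
theorem Hf_le (a b t : ℝ) (ha : 0 < a) (hab : a ≤ b) : |Hf a b t| ≤ (4 * b + 16 / a) / (1 + t ^ 2) := by
  have hb : 0 < b := lt_of_lt_of_le ha hab
  have h1 := Kf_nonneg a t ha.le
  have h2 := Kf_nonneg b t hb.le
  have h0 : (0 : ℝ) < 1 + t ^ 2 := by positivity
  have hmax : ∀ B : ℝ, Kf a t ≤ B → Kf b t ≤ B → |Hf a b t| ≤ B := by
    intro B hA hB
    unfold Hf
    rw [abs_le]
    constructor <;> linarith
  rcases le_or_gt (t ^ 2) 1 with ht | ht
  · have h3 : b ≤ (4 * b + 16 / a) / (1 + t ^ 2) := by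
      rw [le_div_iff₀ h0]
      have : 0 < 16 / a := by positivity
      nlinarith
    exact hmax _ ((Kf_le a t ha.le).trans (hab.trans h3)) ((Kf_le b t hb.le).trans h3)
  · have ht0 : t ≠ 0 := by
      rintro rfl
      norm_num at ht
    have h3 : 4 / (a * t ^ 2) ≤ (4 * b + 16 / a) / (1 + t ^ 2) := by
      have h4 : 4 / (a * t ^ 2) ≤ (16 / a) / (1 + t ^ 2) := by
        rw [div_div, div_le_div_iff₀ (by positivity) (by positivity)]
        nlinarith
      refine h4.trans (div_le_div_of_nonneg_right ?_ h0.le)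
      linarith
    have h5 : 4 / (b * t ^ 2) ≤ 4 / (a * t ^ 2) := by
      apply div_le_div_of_nonneg_left (by norm_num) (by positivity)
      exact mul_le_mul_of_nonneg_right hab (by positivity)
    exact hmax _ ((Kf_le_sq a t ha ht0).trans h3) ((Kf_le_sq b t hb ht0).trans (h5.trans h3))

end Pool.Agent.OmAll
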