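import Pool.Agent.Lib_MP_f1a94e_aq.StrA
import Pool.Agent.Lib_MP_f1a94e_aq.Tail
import Pool.Agent.Lib_MP_f1a94e_aq.Kern

/-!
# Piece KTAIL: the tail of the kernel sum
-/

set_option autoImplicit false

namespace Pool.Agent.OmAll

open Finset Pool.Agent.GaussMR

namespace KTailP

theorem ncard_filter (x : ℝ) (P : ℕ × ℕ → Prop) [DecidablePred P] :
    {r : ℕ × ℕ | r ∈ pd x ∧ P r}.ncard = ((pd x).filter P).card := by
  rw [← Set.ncard_coe_finset]
  congr 1
  ext r
  rw [Finset.mem_coe, mem_filter]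
  rfl

/-- the dyadic decomposition, partial sums -/
theorem dyadic (C : ℝ) (hC : 0 < C) (x A : ℝ) (hA : 0 < A)
    (h : ∀ s : ℝ, 0 < s → ({r : ℕ × ℕ | r ∈ pd x ∧ |tt r| < s}.ncard : ℝ) ≤ C * s * x) (k : ℕ) :
    ∑ r ∈ (pd x).filter (fun r => A ≤ |tt r| ∧ |tt r| < 2 ^ k * A), 1 / (tt r) ^ 2 ≤
      4 * C * x / A * (1 - (1 / 2) ^ k) := by
  induction k with
  | zero =>
    have h0 : (pd x).filter (fun r => A ≤ |tt r| ∧ |tt r| < 2 ^ 0 * A) = ∅ := by
      rw [filter_eq_empty_iff]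
      rintro r _ ⟨h1, h2⟩
      rw [pow_zero, one_mul] at h2
      exact absurd h1 (not_le.2 h2)
    rw [h0]
    simp
  | succ k ih =>
    have h1 : (pd x).filter (fun r => A ≤ |tt r| ∧ |tt r| < 2 ^ (k + 1) * A) ⊆
        (pd x).filter (fun r => A ≤ |tt r| ∧ |tt r| < 2 ^ k * A) ∪
          (pd x).filter (fun r => 2 ^ k * A ≤ |tt r| ∧ |tt r| < 2 ^ (k + 1) * A) := by
      intro r hr
      rw [mem_filter] at hr
      rw [mem_union, mem_filter, mem_filter]
      rcases lt_or_ge |tt r| (2 ^ k * A) with h2 | h2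
      · exact Or.inl ⟨hr.1, hr.2.1, h2⟩
      · exact Or.inr ⟨hr.1, h2, hr.2.2⟩
    have hnn : ∀ r : ℕ × ℕ, 0 ≤ 1 / (tt r) ^ 2 := fun r => by positivity
    have h2 : ∑ r ∈ (pd x).filter (fun r => 2 ^ k * A ≤ |tt r| ∧ |tt r| < 2 ^ (k + 1) * A),
        1 / (tt r) ^ 2 ≤ 4 * C * x / A * (1 / 2) ^ (k + 1) := by
      have hk : (0 : ℝ) < 2 ^ k * A := by positivity
      calc _ ≤ ∑ r ∈ (pd x).filter (fun r => 2 ^ k * A ≤ |tt r| ∧ |tt r| < 2 ^ (k + 1) * A),
            1 / (2 ^ k * A) ^ 2 := by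
            refine Finset.sum_le_sum (fun r hr => ?_)
            have h3 := (mem_filter.1 hr).2.1
            rw [← sq_abs (tt r)]
            apply one_div_le_one_div_of_le (by positivity)
            exact pow_le_pow_left₀ hk.le h3 2
        _ = ((pd x).filter (fun r => 2 ^ k * A ≤ |tt r| ∧ |tt r| < 2 ^ (k + 1) * A)).card *
            (1 / (2 ^ k * A) ^ 2) := by rw [sum_const, nsmul_eq_mul]
        _ ≤ (C * (2 ^ (k + 1) * A) * x) * (1 / (2 ^ k * A) ^ 2) := by
            apply mul_le_mul_of_nonneg_right _ (by positivity)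
            refine le_trans ?_ (h (2 ^ (k + 1) * A) (by positivity))
            rw [ncard_filter, Nat.cast_le]
            apply card_le_card
            intro r hr
            rw [mem_filter] at hr ⊢
            exact ⟨hr.1, hr.2.2⟩
        _ = 4 * C * x / A * (1 / 2) ^ (k + 1) := by
            have h5 : ((1 : ℝ) / 2) ^ (k + 1) = 1 / (2 ^ k * 2) := by
              rw [div_pow, one_pow, pow_succ]
            rw [h5, pow_succ]
            have h6 : (0 : ℝ) < 2 ^ k := by positivity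
            field_simp
            ring
    calc _ ≤ ∑ r ∈ (pd x).filter (fun r => A ≤ |tt r| ∧ |tt r| < 2 ^ k * A) ∪
          (pd x).filter (fun r => 2 ^ k * A ≤ |tt r| ∧ |tt r| < 2 ^ (k + 1) * A), 1 / (tt r) ^ 2 :=
          Finset.sum_le_sum_of_subset_of_nonneg h1 (fun r _ _ => hnn r)
      _ ≤ _ + _ := by
          have h7 := Finset.sum_union_inter (s₁ := (pd x).filter (fun r => A ≤ |tt r| ∧ |tt r| < 2 ^ k * A))
            (s₂ := (pd x).filter (fun r => 2 ^ k * A ≤ |tt r| ∧ |tt r| < 2 ^ (k + 1) * A))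
            (f := fun r => 1 / (tt r) ^ 2)
          have h8 : 0 ≤ ∑ r ∈ (pd x).filter (fun r => A ≤ |tt r| ∧ |tt r| < 2 ^ k * A) ∩
            (pd x).filter (fun r => 2 ^ k * A ≤ |tt r| ∧ |tt r| < 2 ^ (k + 1) * A), 1 / (tt r) ^ 2 :=
            Finset.sum_nonneg (fun r _ => hnn r)
          linarith
      _ ≤ 4 * C * x / A * (1 - (1 / 2) ^ k) + 4 * C * x / A * (1 / 2) ^ (k + 1) := add_le_add ih h2
      _ = 4 * C * x / A * (1 - (1 / 2) ^ (k + 1)) := by
          rw [pow_succ]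
          ring

end KTailP

/-- number of pairs with `|tt r| < s`, uniform in `s > 0`: for `s ≤ 1/2` use `smallt` with `J = ⌊1/(2 s)⌋ ≥ 1`
(`s ≤ 1/(2J)`, `1/J ≤ 4 s`), for `s ≥ 1/2` cover `(-s, s)` by `2 ⌈s⌉ ≤ 6 s` unit intervals and use `tail`. -/
theorem count_lt : ∃ C : ℝ, 0 < C ∧ ∀ x : ℝ, 1 ≤ x → ∀ s : ℝ, 0 < s →
    ({r : ℕ × ℕ | r ∈ pd x ∧ |tt r| < s}.ncard : ℝ) ≤ C * s * x := by
  obtain ⟨C1, hC1, h1⟩ := tail
  refine ⟨144 + 6 * C1, by positivity, fun x hx s hs => ?_⟩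
  rcases le_or_gt s (1 / 2) with h2 | h2
  · set J : ℕ := ⌊1 / (2 * s)⌋₊ with hJ
    have h3 : (1 : ℝ) ≤ 1 / (2 * s) := by
      rw [le_div_iff₀ (by positivity)]
      linarith
    have hJ1 : 1 ≤ J := by
      rw [hJ, Nat.one_le_floor_iff]
      exact h3
    have hJ1' : (1 : ℝ) ≤ J := by exact_mod_cast hJ1
    have hJ2 : (J : ℝ) ≤ 1 / (2 * s) := Nat.floor_le (by positivity)
    have hJ3 : 1 / (2 * s) < J + 1 := Nat.lt_floor_add_one _
    have h4 : s ≤ 1 / (2 * (J : ℝ)) := by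
      rw [le_div_iff₀ (by positivity)]
      rw [le_div_iff₀ (by positivity)] at hJ2
      linarith
    have h5 := smallt J hJ1 x (by linarith)
    have h6 : ({r : ℕ × ℕ | r ∈ pd x ∧ |tt r| < s}.ncard : ℝ) ≤
        ({r : ℕ × ℕ | r ∈ pd x ∧ |tt r| < 1 / (2 * J)}.ncard : ℝ) := by
      rw [KTailP.ncard_filter, KTailP.ncard_filter, Nat.cast_le]
      apply card_le_card
      intro r hr
      rw [mem_filter] at hr ⊢
      exact ⟨hr.1, hr.2.trans_le h4⟩
    have h7 : 36 * x / J ≤ 144 * s * x := by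
      rw [div_le_iff₀ (by positivity)]
      rw [div_lt_iff₀ (by positivity)] at hJ3
      have h8 : 1 ≤ 4 * s * J := by nlinarith
      nlinarith
    have h8 : 0 ≤ C1 * s * x := by positivity
    nlinarith [h6.trans (h5.trans h7)]
  · set n : ℕ := ⌈s⌉₊ with hn
    have hn1 : s ≤ n := Nat.le_ceil s
    have hn2 : (n : ℝ) < s + 1 := Nat.ceil_lt_add_one hs.le
    have h3 : (pd x).filter (fun r => |tt r| < s) ⊆ (range (2 * n)).biUnion
        (fun i => (pd x).filter (fun r => (-(n : ℝ) + i) ≤ tt r ∧ tt r < (-(n : ℝ) + i) + 1)) := by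
      intro r hr
      rw [mem_filter, abs_lt] at hr
      rw [mem_biUnion]
      have h4 : 0 ≤ tt r + n := by linarith [hr.2.1]
      refine ⟨⌊tt r + n⌋₊, ?_, ?_⟩
      · rw [mem_range, Nat.floor_lt h4]
        push_cast
        linarith [hr.2.2]
      · rw [mem_filter]
        refine ⟨hr.1, ?_, ?_⟩
        · linarith [Nat.floor_le h4]
        · linarith [Nat.lt_floor_add_one (tt r + n)]
    rw [KTailP.ncard_filter]
    calc (((pd x).filter (fun r => |tt r| < s)).card : ℝ)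
        ≤ ((∑ i ∈ range (2 * n), ((pd x).filter (fun r => (-(n : ℝ) + i) ≤ tt r ∧
            tt r < (-(n : ℝ) + i) + 1)).card : ℕ) : ℝ) := by
          rw [Nat.cast_le]
          exact (card_le_card h3).trans card_biUnion_le
      _ = ∑ i ∈ range (2 * n), (((pd x).filter (fun r => (-(n : ℝ) + i) ≤ tt r ∧
            tt r < (-(n : ℝ) + i) + 1)).card : ℝ) := by push_cast; rfl
      _ ≤ ∑ i ∈ range (2 * n), C1 * x := by
          refine Finset.sum_le_sum (fun i _ => ?_)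
          have := h1 x hx (-(n : ℝ) + i)
          rw [KTailP.ncard_filter] at this
          exact this
      _ = (2 * n) * (C1 * x) := by
          rw [sum_const, card_range, nsmul_eq_mul]
          push_cast
          ring
      _ ≤ (6 * s) * (C1 * x) := by
          apply mul_le_mul_of_nonneg_right _ (by positivity)
          linarith
      _ ≤ (144 + 6 * C1) * s * x := by
          have : 0 ≤ 144 * s * x := by positivity
          nlinarith

/-- Tails for functions `O(1/t^2)`: `∑_(|tt r| ≥ A) 1/(tt r)^2 ≤ C x / A` for `A > 0`; same dyadic decomposition. -/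
theorem sq_tail : ∃ C : ℝ, 0 < C ∧ ∀ A : ℝ, 0 < A → ∀ x : ℝ, 1 ≤ x →
    ∑ r ∈ (pd x).filter (fun r => A ≤ |tt r|), 1 / (tt r) ^ 2 ≤ C / A * x := by
  classical
  obtain ⟨C, hC, h⟩ := count_lt
  refine ⟨4 * C, by positivity, fun A hA x hx => ?_⟩
  obtain ⟨k, hk⟩ := pow_unbounded_of_one_lt ((∑ r ∈ pd x, |tt r|) / A) (one_lt_two (α := ℝ))
  rw [div_lt_iff₀ hA] at hk
  have h1 := KTailP.dyadic C hC x A hA (h x hx) k
  have h2 : (pd x).filter (fun r => A ≤ |tt r|) ⊆
      (pd x).filter (fun r => A ≤ |tt r| ∧ |tt r| < 2 ^ k * A) := by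
    intro r hr
    rw [mem_filter] at hr ⊢
    refine ⟨hr.1, hr.2, lt_of_le_of_lt ?_ hk⟩
    exact Finset.single_le_sum (f := fun r => |tt r|) (fun i _ => abs_nonneg _) hr.1
  calc _ ≤ ∑ r ∈ (pd x).filter (fun r => A ≤ |tt r| ∧ |tt r| < 2 ^ k * A), 1 / (tt r) ^ 2 := by
        refine Finset.sum_le_sum_of_subset_of_nonneg ?_ (fun r _ _ => by positivity)
        convert h2
    _ ≤ 4 * C * x / A * (1 - (1 / 2) ^ k) := h1
    _ ≤ 4 * C * x / A * 1 := by
        apply mul_le_mul_of_nonneg_left _ (by positivity)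
        have : (0 : ℝ) < (1 / 2) ^ k := by positivity
        linarith
    _ = 4 * C / A * x := by ring

/-- Dyadic decomposition: `Kf b t ≤ 4 / (b t^2)` (`Kf_le_sq`), the pairs with `2^i s0 ≤ |t| < 2^(i+1) s0`, `s0 = 1/(2J)`, contribute at
most `C 2^(i+1) s0 x 4 / (b 4^i s0^2) = 8 C x / (b s0 2^i)`; sum over `i`: `16 C x / (b s0) = 32 C J x / b`. (`tt` is bounded on the finite set `pd x`, so finitely many `i`;
or induction.) -/
theorem ktail : ∃ C : ℝ, 0 < C ∧ ∀ (J : ℕ), 1 ≤ J → ∀ b : ℝ, 0 < b → ∀ x : ℝ, 1 ≤ x →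
    ∑ r ∈ (pd x).filter (fun r => 1 / (2 * (J : ℝ)) ≤ |tt r|), Kf b (tt r) ≤ C * (J / b) * x := by
  obtain ⟨C, hC, h⟩ := sq_tail
  refine ⟨8 * C, by positivity, fun J hJ b hb x hx => ?_⟩
  have hJ' : (1 : ℝ) ≤ J := by exact_mod_cast hJ
  have hA : (0 : ℝ) < 1 / (2 * (J : ℝ)) := by positivity
  have h1 := h (1 / (2 * (J : ℝ))) hA x hx
  calc _ ≤ ∑ r ∈ (pd x).filter (fun r => 1 / (2 * (J : ℝ)) ≤ |tt r|), 4 / b * (1 / (tt r) ^ 2) := by
        refine Finset.sum_le_sum (fun r hr => ?_)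
        have h2 : tt r ≠ 0 := by
          intro h3
          have h4 := (mem_filter.1 hr).2
          rw [h3, abs_zero] at h4
          linarith
        refine (Kf_le_sq b (tt r) hb h2).trans (le_of_eq ?_)
        field_simp
    _ = 4 / b * ∑ r ∈ (pd x).filter (fun r => 1 / (2 * (J : ℝ)) ≤ |tt r|), 1 / (tt r) ^ 2 := by
        rw [Finset.mul_sum]
    _ ≤ 4 / b * (C / (1 / (2 * (J : ℝ))) * x) := by
        apply mul_le_mul_of_nonneg_left h1 (by positivity)
    _ = 8 * C * (J / b) * x := by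
        field_simp
        ring

end Pool.Agent.OmAll
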