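import Pool.Agent.Lib_MP_f1a94e_aq.Defs

/-!
# Piece LINEA: the vectors on the line `det (V, z) = 1`
-/

set_option autoImplicit false

namespace Pool.Agent.OmAll

open Finset Pool.Agent.GaussMR

/-- admissible directions of lines: primitive, both coordinates odd -/
def zok (z : G) : Prop := Odd z.re ∧ Odd z.im ∧ Prim z

/-- Bezout gives `w` with `det w z = 1`; add a multiple of `z` (`dot z z = nm z`, `det z z = 0`, `Int.emod`). -/
theorem line_exists (z : G) (hz : Prim z) : ∃ w : G, det w z = 1 ∧ 0 ≤ dot w z ∧ dot w z < nm z := by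
  obtain ⟨a, b, hab⟩ := hz
  have hz0 : z ≠ 0 := by
    rintro rfl
    simp at hab
  have hn : 0 < (nm z : ℤ) := by exact_mod_cast nm_pos hz0
  set D : ℤ := b * z.re + -a * z.im with hD
  refine ⟨⟨b - D / nm z * z.re, -a - D / nm z * z.im⟩, ?_, ?_, ?_⟩
  · unfold det
    simp only
    linear_combination hab
  · have h1 : dot ⟨b - D / nm z * z.re, -a - D / nm z * z.im⟩ z = D % nm z := by
      rw [Int.emod_def]
      unfold dot
      simp only
      have h2 := nm_eq z
      linear_combination (D / (nm z : ℤ)) * h2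
    rw [h1]
    exact Int.emod_nonneg _ hn.ne'
  · have h1 : dot ⟨b - D / nm z * z.re, -a - D / nm z * z.im⟩ z = D % nm z := by
      rw [Int.emod_def]
      unfold dot
      simp only
      have h2 := nm_eq z
      linear_combination (D / (nm z : ℤ)) * h2
    rw [h1]
    exact Int.emod_lt_of_pos _ hn

open Classical in
/-- the first vector of the line -/
noncomputable def wz (z : G) : G :=
  if h : ∃ w : G, det w z = 1 ∧ 0 ≤ dot w z ∧ dot w z < nm z then h.choose else 0

/-- the vectors of the line -/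
noncomputable def vj (z : G) (j : ℤ) : G := wz z + (j : G) * z

theorem wz_spec (z : G) (hz : Prim z) : det (wz z) z = 1 ∧ 0 ≤ dot (wz z) z ∧ dot (wz z) z < nm z := by
  have h := line_exists z hz
  unfold wz
  rw [dif_pos h]
  exact h.choose_spec

theorem vj_add (z : G) (i k : ℤ) : vj z (i + k) = vj z i + (k : G) * z := by
  unfold vj; push_cast; ring

theorem vj_re (z : G) (j : ℤ) : (vj z j).re = (wz z).re + j * z.re := by
  simp [vj]

theorem vj_im (z : G) (j : ℤ) : (vj z j).im = (wz z).im + j * z.im := by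
  simp [vj]

theorem vj_det_z (z : G) (hz : Prim z) (j : ℤ) : det (vj z j) z = 1 := by
  have h := (wz_spec z hz).1
  unfold det at h ⊢
  rw [vj_re, vj_im]
  linear_combination h

theorem nm_pos_of_prim {z : G} (hz : Prim z) : 0 < (nm z : ℤ) := by
  have hz0 : z ≠ 0 := by
    rintro rfl
    obtain ⟨a, b, hab⟩ := hz
    simp at hab
  exact_mod_cast nm_pos hz0

/-- bilinearity, `det z z = 0` -/
theorem vj_det (z : G) (hz : Prim z) (i k : ℤ) : det (vj z i) (vj z (i + k)) = k := by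
  have h := (wz_spec z hz).1
  unfold det at h ⊢
  rw [vj_re, vj_im, vj_re, vj_im]
  linear_combination k * h

/-- `dot (vj z j) z = dot (wz z) z + j nm z` -/
theorem vj_dot_z (z : G) (j : ℤ) : dot (vj z j) z = dot (wz z) z + j * nm z := by
  rw [nm_eq]
  unfold dot
  rw [vj_re, vj_im]
  ring

/-- `dot V (V + k z) = nm V + k dot V z` -/
theorem vj_dot (z : G) (i k : ℤ) : dot (vj z i) (vj z (i + k)) = nm (vj z i) + k * dot (vj z i) z := by
  rw [nm_eq]
  unfold dot
  rw [vj_re, vj_im, vj_re, vj_im]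
  ring

/-- `dot_sq_add_det_sq` for `vj z j` and `z` -/
theorem vj_nm (z : G) (hz : Prim z) (j : ℤ) :
    (nm z : ℤ) * nm (vj z j) = (dot (wz z) z + j * nm z) ^ 2 + 1 := by
  have h1 := dot_sq_add_det_sq (vj z j) z
  rw [vj_dot_z, vj_det_z z hz] at h1
  linarith

/-- `det (V, z) = 1` odd and `z = (1, 1) mod 2` give `V.re + V.im` odd; `odd_nm_iff`. -/
theorem vj_odd (z : G) (hz : zok z) (j : ℤ) : Odd (nm (vj z j)) := by
  obtain ⟨⟨a, ha⟩, ⟨b, hb⟩, hp⟩ := hz
  rw [odd_nm_iff]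
  have h := vj_det_z z hp j
  unfold det at h
  rw [ha, hb] at h
  refine ⟨(vj z j).im + a * (vj z j).im - b * (vj z j).re, ?_⟩
  linear_combination h

/-- If `det V z = 1` then `det (V - wz z) z = 0`, and `z` is primitive, so `V - wz z` is an integer multiple of `z`. -/
theorem vj_uniq (z V : G) (hz : Prim z) (hV : det V z = 1) : ∃ j : ℤ, V = vj z j := by
  have h := (wz_spec z hz).1
  obtain ⟨a, b, hab⟩ := hz
  unfold det at h hV
  refine ⟨a * (V.re - (wz z).re) + b * (V.im - (wz z).im), ?_⟩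
  apply Zsqrtd.ext
  · rw [vj_re]
    linear_combination (-(V.re - (wz z).re)) * hab + b * (hV - h)
  · rw [vj_im]
    linear_combination (-(V.im - (wz z).im)) * hab + (-a) * (hV - h)

/-- `vj_dot`, `vj_nm`: for `j ≥ 0`, `dot (vj z j) (vj z (j+1)) = nm V + D`, `D = dot (vj z j) z ≥ j nm z`,
`nm V = (D ^ 2 + 1) / nm z ≥ j ^ 2 nm z`. -/
theorem vj_dot_ge (z : G) (hz : Prim z) (j : ℕ) :
    (j : ℤ) ^ 2 * nm z ≤ dot (vj z j) (vj z (j + 1)) := by
  have hn := nm_pos_of_prim hz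
  obtain ⟨_, h0, _⟩ := wz_spec z hz
  have h1 := vj_dot z j 1
  have h2 := vj_nm z hz j
  have h3 := vj_dot_z z j
  have hj : (0 : ℤ) ≤ j := Int.natCast_nonneg j
  rw [h1, one_mul, h3]
  set n : ℤ := (nm z : ℤ) with hndef
  set D : ℤ := dot (wz z) z + j * n with hD
  have hjn : 0 ≤ (j : ℤ) * n := mul_nonneg hj hn.le
  have hDge : (j : ℤ) * n ≤ D := by omega
  have h4 : (j : ℤ) ^ 2 * n ≤ (nm (vj z j) : ℤ) := by
    have h5 : n * ((j : ℤ) ^ 2 * n) ≤ n * (nm (vj z j) : ℤ) := by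
      rw [h2]
      have h6 : ((j : ℤ) * n) ^ 2 ≤ D ^ 2 := pow_le_pow_left₀ hjn hDge 2
      nlinarith
    exact le_of_mul_le_mul_left h5 hn
  omega

/-- `nm z * nm (vj z j) = D ^ 2 + 1`, `D < (j + 1) nm z`, so `nm (vj z j) ≤ (j + 1) ^ 2 nm z` (integers). -/
theorem vj_nm_le (z : G) (hz : Prim z) (j : ℕ) : (nm (vj z j) : ℤ) ≤ (j + 1) ^ 2 * nm z := by
  have hn := nm_pos_of_prim hz
  obtain ⟨_, h0, h0'⟩ := wz_spec z hz
  have h2 := vj_nm z hz j
  have hj : (0 : ℤ) ≤ j := Int.natCast_nonneg j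
  set n : ℤ := (nm z : ℤ) with hndef
  set D : ℤ := dot (wz z) z + j * n with hD
  have hjn : 0 ≤ (j : ℤ) * n := mul_nonneg hj hn.le
  have hD0 : 0 ≤ D := by omega
  have hDlt : D ≤ ((j : ℤ) + 1) * n - 1 := by
    have : ((j : ℤ) + 1) * n = j * n + n := by ring
    omega
  have hpos : 1 ≤ ((j : ℤ) + 1) * n := by nlinarith
  have h5 : n * (nm (vj z j) : ℤ) ≤ n * (((j : ℤ) + 1) ^ 2 * n) := by
    rw [h2]
    have h6 : D ^ 2 ≤ (((j : ℤ) + 1) * n - 1) ^ 2 := pow_le_pow_left₀ hD0 hDlt 2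
    nlinarith
  exact le_of_mul_le_mul_left h5 hn

end Pool.Agent.OmAll
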