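import Pool.Agent.Lib_MP_f1a94e_aq.Defs

/-!
# Piece LOCAL: local densities
-/

set_option autoImplicit false

namespace Pool.Agent.OmAll

open Finset Pool.Agent.GaussMR

theorem mem_cls {M : ℕ} {e : G × G} : e ∈ cls M ↔ (0 ≤ e.1.re ∧ e.1.re < M) ∧ (0 ≤ e.1.im ∧ e.1.im < M) ∧
    (0 ≤ e.2.re ∧ e.2.re < M) ∧ (0 ≤ e.2.im ∧ e.2.im < M) ∧ (M : ℤ) ∣ det e.1 e.2 - 1 := by
  unfold cls
  rw [mem_filter, mem_image]
  constructor
  · rintro ⟨⟨w, hw, rfl⟩, h2⟩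
    rw [mem_product, mem_product, mem_product, mem_range, mem_range, mem_range, mem_range] at hw
    obtain ⟨⟨h3, h4⟩, h5, h6⟩ := hw
    refine ⟨⟨?_, ?_⟩, ⟨?_, ?_⟩, ⟨?_, ?_⟩, ⟨?_, ?_⟩, h2⟩
    · exact Int.natCast_nonneg _
    · show ((w.1.1 : ℕ) : ℤ) < M
      exact_mod_cast h3
    · exact Int.natCast_nonneg _
    · show ((w.1.2 : ℕ) : ℤ) < M
      exact_mod_cast h4
    · exact Int.natCast_nonneg _
    · show ((w.2.1 : ℕ) : ℤ) < M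
      exact_mod_cast h5
    · exact Int.natCast_nonneg _
    · show ((w.2.2 : ℕ) : ℤ) < M
      exact_mod_cast h6
  · rintro ⟨⟨a1, a2⟩, ⟨b1, b2⟩, ⟨c1, c2⟩, ⟨d1, d2⟩, h⟩
    refine ⟨⟨((e.1.re.toNat, e.1.im.toNat), (e.2.re.toNat, e.2.im.toNat)), ?_, ?_⟩, h⟩
    · rw [mem_product, mem_product, mem_product, mem_range, mem_range, mem_range, mem_range]
      dsimp only
      refine ⟨⟨?_, ?_⟩, ?_, ?_⟩ <;> omega
    · dsimp only
      rw [Int.toNat_of_nonneg a1, Int.toNat_of_nonneg b1, Int.toNat_of_nonneg c1,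
        Int.toNat_of_nonneg d1]

/-- predicates that depend only on the class modulo `M` -/
def Per (M : ℕ) (P : G × G → Prop) : Prop := ∀ e f : G × G, cg M e.1 f.1 → cg M e.2 f.2 → (P e ↔ P f)

/-- reduction of a Gaussian integer modulo `M` -/
def rd (M : ℕ) (u : G) : G := ⟨u.re % M, u.im % M⟩

theorem rd_cg (M : ℕ) (u : G) : cg M (rd M u) u := by
  constructor
  · show (M : ℤ) ∣ u.re % M - u.re
    exact (Int.dvd_sub_self_of_emod_eq rfl)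
  · show (M : ℤ) ∣ u.im % M - u.im
    exact (Int.dvd_sub_self_of_emod_eq rfl)

theorem det_cg {M : ℕ} {u v u' v' : G} (h1 : cg M u u') (h2 : cg M v v') :
    (M : ℤ) ∣ det u v - det u' v' := by
  obtain ⟨a, b⟩ := h1
  obtain ⟨c, d⟩ := h2
  have e : det u v - det u' v' = (u.re - u'.re) * v.im + (v.im - v'.im) * u'.re
      - ((u.im - u'.im) * v.re + (v.re - v'.re) * u'.im) := by
    unfold det
    ring
  rw [e]
  exact dvd_sub (dvd_add (a.mul_right _) (d.mul_right _)) (dvd_add (b.mul_right _) (c.mul_right _))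

theorem cg_mono {M N : ℕ} (h : M ∣ N) {u v : G} (hc : cg N u v) : cg M u v :=
  ⟨(Int.natCast_dvd_natCast.2 h).trans hc.1, (Int.natCast_dvd_natCast.2 h).trans hc.2⟩

theorem cg_symm {M : ℕ} {u v : G} (hc : cg M u v) : cg M v u :=
  ⟨by rw [← neg_sub]; exact (dvd_neg).2 hc.1, by rw [← neg_sub]; exact (dvd_neg).2 hc.2⟩

theorem cg_trans {M : ℕ} {u v w : G} (h1 : cg M u v) (h2 : cg M v w) : cg M u w :=
  ⟨by have := dvd_add h1.1 h2.1; rwa [sub_add_sub_cancel] at this,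
    by have := dvd_add h1.2 h2.2; rwa [sub_add_sub_cancel] at this⟩

theorem rd_mem_cls {M N : ℕ} (hM : 0 < M) (h : M ∣ N) {e : G × G} (he : (N : ℤ) ∣ det e.1 e.2 - 1) :
    (rd M e.1, rd M e.2) ∈ cls M := by
  have hM' : (0 : ℤ) < M := by exact_mod_cast hM
  rw [mem_cls]
  refine ⟨⟨Int.emod_nonneg _ hM'.ne', Int.emod_lt_of_pos _ hM'⟩,
    ⟨Int.emod_nonneg _ hM'.ne', Int.emod_lt_of_pos _ hM'⟩,
    ⟨Int.emod_nonneg _ hM'.ne', Int.emod_lt_of_pos _ hM'⟩,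
    ⟨Int.emod_nonneg _ hM'.ne', Int.emod_lt_of_pos _ hM'⟩, ?_⟩
  have h1 := det_cg (rd_cg M e.1) (rd_cg M e.2)
  have h2 := (Int.natCast_dvd_natCast.2 h).trans he
  have := dvd_add h1 h2
  rwa [sub_add_sub_cancel] at this

theorem loc_eq {M1 M2 : ℕ} (hco : M1.Coprime M2) {x y : ℤ} (hx0 : 0 ≤ x) (hx : x < (M1 * M2 : ℕ))
    (hy0 : 0 ≤ y) (hy : y < (M1 * M2 : ℕ)) (h1 : x % M1 = y % M1) (h2 : x % M2 = y % M2) :
    x = y := by
  have d1 : (M1 : ℤ) ∣ x - y := Int.ModEq.dvd (show y % M1 = x % M1 from h1.symm)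
  have d2 : (M2 : ℤ) ∣ x - y := Int.ModEq.dvd (show y % M2 = x % M2 from h2.symm)
  have hc : IsCoprime (M1 : ℤ) (M2 : ℤ) := Nat.isCoprime_iff_coprime.2 hco
  have d3 := hc.mul_dvd d1 d2
  have h3 : x - y = 0 := by
    apply Int.eq_zero_of_abs_lt_dvd d3
    push_cast at hx hy
    rw [abs_lt]
    constructor <;> linarith
  linarith

theorem loc_crt {M1 M2 : ℕ} (h1 : 0 < M1) (h2 : 0 < M2) (hco : M1.Coprime M2) (a b : ℤ) :
    ∃ x : ℤ, 0 ≤ x ∧ x < (M1 * M2 : ℕ) ∧ (M1 : ℤ) ∣ x - a ∧ (M2 : ℤ) ∣ x - b := by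
  obtain ⟨u, v, huv⟩ : IsCoprime (M1 : ℤ) (M2 : ℤ) := Nat.isCoprime_iff_coprime.2 hco
  have hM : (0 : ℤ) < (M1 * M2 : ℕ) := by exact_mod_cast Nat.mul_pos h1 h2
  have hd : ((M1 * M2 : ℕ) : ℤ) ∣ (a * v * M2 + b * u * M1) % ((M1 * M2 : ℕ) : ℤ)
      - (a * v * M2 + b * u * M1) := Int.dvd_sub_self_of_emod_eq rfl
  refine ⟨(a * v * M2 + b * u * M1) % ((M1 * M2 : ℕ) : ℤ), Int.emod_nonneg _ hM.ne',
    Int.emod_lt_of_pos _ hM, ?_, ?_⟩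
  · have e1 : (M1 : ℤ) ∣ ((M1 * M2 : ℕ) : ℤ) := by push_cast; exact dvd_mul_right _ _
    have e2 := e1.trans hd
    have e3 : (M1 : ℤ) ∣ (a * v * M2 + b * u * M1) - a := by
      refine ⟨(b - a) * u, ?_⟩
      linear_combination a * huv
    have := dvd_add e2 e3
    rwa [sub_add_sub_cancel] at this
  · have e1 : (M2 : ℤ) ∣ ((M1 * M2 : ℕ) : ℤ) := by push_cast; exact dvd_mul_left _ _
    have e2 := e1.trans hd
    have e3 : (M2 : ℤ) ∣ (a * v * M2 + b * u * M1) - b := by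
      refine ⟨(a - b) * v, ?_⟩
      linear_combination b * huv
    have := dvd_add e2 e3
    rwa [sub_add_sub_cancel] at this

theorem loc_crtG {M1 M2 : ℕ} (h1 : 0 < M1) (h2 : 0 < M2) (hco : M1.Coprime M2) (a b : G) :
    ∃ x : G, (0 ≤ x.re ∧ x.re < (M1 * M2 : ℕ)) ∧ (0 ≤ x.im ∧ x.im < (M1 * M2 : ℕ)) ∧
      cg M1 x a ∧ cg M2 x b := by
  obtain ⟨x, hx1, hx2, hx3, hx4⟩ := loc_crt h1 h2 hco a.re b.re
  obtain ⟨y, hy1, hy2, hy3, hy4⟩ := loc_crt h1 h2 hco a.im b.im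
  exact ⟨⟨x, y⟩, ⟨hx1, hx2⟩, ⟨hy1, hy2⟩, ⟨hx3, hy3⟩, ⟨hx4, hy4⟩⟩

theorem rd_eq_of_cg {M : ℕ} {u v : G} (h : cg M u v) (h1 : 0 ≤ v.re ∧ v.re < M)
    (h2 : 0 ≤ v.im ∧ v.im < M) : rd M u = v := by
  apply Zsqrtd.ext
  · show u.re % M = v.re
    have h3 : v.re % M = u.re % M := Int.modEq_iff_dvd.2 h.1
    rw [← h3, Int.emod_eq_of_lt h1.1 h1.2]
  · show u.im % M = v.im
    have h3 : v.im % M = u.im % M := Int.modEq_iff_dvd.2 h.2
    rw [← h3, Int.emod_eq_of_lt h2.1 h2.2]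

theorem locG_eq {M1 M2 : ℕ} (hco : M1.Coprime M2) {u v : G}
    (hu : 0 ≤ u.re ∧ u.re < (M1 * M2 : ℕ)) (hu' : 0 ≤ u.im ∧ u.im < (M1 * M2 : ℕ))
    (hv : 0 ≤ v.re ∧ v.re < (M1 * M2 : ℕ)) (hv' : 0 ≤ v.im ∧ v.im < (M1 * M2 : ℕ))
    (h1 : rd M1 u = rd M1 v) (h2 : rd M2 u = rd M2 v) : u = v := by
  apply Zsqrtd.ext
  · exact loc_eq hco hu.1 hu.2 hv.1 hv.2 (congrArg Zsqrtd.re h1) (congrArg Zsqrtd.re h2)
  · exact loc_eq hco hu'.1 hu'.2 hv'.1 hv'.2 (congrArg Zsqrtd.im h1) (congrArg Zsqrtd.im h2)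

open Classical in
/-- Chinese remainder theorem: reduce the four coordinates modulo `M1` and modulo `M2`; a bijection `cls (M1 M2) → cls M1 × cls M2`. -/
theorem cls_mul (M1 M2 : ℕ) (h1 : 0 < M1) (h2 : 0 < M2) (hco : M1.Coprime M2) (P1 P2 : G × G → Prop)
    (hP1 : Per M1 P1) (hP2 : Per M2 P2) :
    ((cls (M1 * M2)).filter (fun e => P1 e ∧ P2 e)).card =
      ((cls M1).filter P1).card * ((cls M2).filter P2).card := by
  rw [← card_product]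
  apply card_bij (fun e _ => (((rd M1 e.1, rd M1 e.2), (rd M2 e.1, rd M2 e.2)) :
    (G × G) × (G × G)))
  · intro e he
    rw [mem_filter, mem_cls] at he
    rw [mem_product, mem_filter, mem_filter]
    have hd := he.1.2.2.2.2
    refine ⟨⟨rd_mem_cls h1 (dvd_mul_right _ _) hd, ?_⟩, rd_mem_cls h2 (dvd_mul_left _ _) hd, ?_⟩
    · exact (hP1 _ _ (rd_cg M1 e.1) (rd_cg M1 e.2)).2 he.2.1
    · exact (hP2 _ _ (rd_cg M2 e.1) (rd_cg M2 e.2)).2 he.2.2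
  · intro e he f hf hef
    rw [mem_filter, mem_cls] at he hf
    rw [Prod.mk.injEq, Prod.mk.injEq, Prod.mk.injEq] at hef
    obtain ⟨⟨a1, a2⟩, a3, a4⟩ := hef
    obtain ⟨⟨b1, b2, b3, b4, _⟩, _⟩ := he
    obtain ⟨⟨c1, c2, c3, c4, _⟩, _⟩ := hf
    exact Prod.ext (locG_eq hco b1 b2 c1 c2 a1 a3) (locG_eq hco b3 b4 c3 c4 a2 a4)
  · rintro ⟨⟨a1, a2⟩, ⟨b1, b2⟩⟩ hab
    rw [mem_product, mem_filter, mem_filter, mem_cls, mem_cls] at hab
    obtain ⟨⟨⟨c1, c2, c3, c4, c5⟩, c6⟩, ⟨d1, d2, d3, d4, d5⟩, d6⟩ := hab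
    dsimp only at c1 c2 c3 c4 c5 c6 d1 d2 d3 d4 d5 d6
    obtain ⟨x, x1, x2, x3, x4⟩ := loc_crtG h1 h2 hco a1 b1
    obtain ⟨y, y1, y2, y3, y4⟩ := loc_crtG h1 h2 hco a2 b2
    have hc : IsCoprime (M1 : ℤ) (M2 : ℤ) := Nat.isCoprime_iff_coprime.2 hco
    have e1 : (M1 : ℤ) ∣ det x y - 1 := by
      have := dvd_add (det_cg x3 y3) c5
      rwa [sub_add_sub_cancel] at this
    have e2 : (M2 : ℤ) ∣ det x y - 1 := by
      have := dvd_add (det_cg x4 y4) d5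
      rwa [sub_add_sub_cancel] at this
    refine ⟨(x, y), ?_, ?_⟩
    · rw [mem_filter, mem_cls]
      refine ⟨⟨x1, x2, y1, y2, ?_⟩, ?_, ?_⟩
      · have := hc.mul_dvd e1 e2
        push_cast
        exact this
      · exact (hP1 (x, y) (a1, a2) x3 y3).2 c6
      · exact (hP2 (x, y) (b1, b2) x4 y4).2 d6
    · dsimp only
      rw [rd_eq_of_cg x3 c1 c2, rd_eq_of_cg y3 c3 c4, rd_eq_of_cg x4 d1 d2, rd_eq_of_cg y4 d3 d4]

/-- a computable version of `cls 2` -/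
def cls2 : Finset (G × G) :=
  (((((range 2 ×ˢ range 2) ×ˢ (range 2 ×ˢ range 2)).image
    (fun w : (ℕ × ℕ) × (ℕ × ℕ) => ((⟨(w.1.1 : ℤ), (w.1.2 : ℤ)⟩, ⟨(w.2.1 : ℤ), (w.2.2 : ℤ)⟩) : G × G))).filter
      (fun e => ((2 : ℕ) : ℤ) ∣ det e.1 e.2 - 1)) : Finset (G × G))

theorem cls2_eq : cls 2 = cls2 := rfl

theorem cls2_card : cls2.card = 6 := by decide +kernel

theorem cls2_filter : (cls2.filter (fun e => Odd (nm e.1) ∧ Odd (nm e.2))).card = 2 := by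
  decide +kernel

open Classical in
/-- `decide` or `simp`/`rfl` computations with the 16 quadruples -/
theorem cls_two : (cls 2).card = 6 ∧ ((cls 2).filter (fun e => Odd (nm e.1) ∧ Odd (nm e.2))).card = 2 := by
  rw [cls2_eq]
  refine ⟨cls2_card, ?_⟩
  rw [← cls2_filter]

end Pool.Agent.OmAll
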