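import Pool.Agent.Lib_MP_f1a94e_aq.Local

/-!
# Piece LOCALP: local density at a prime
-/

set_option autoImplicit false

namespace Pool.Agent.OmAll

open Finset Pool.Agent.GaussMR

section LPaux

open Classical in
private lemma lp_card (M : ℕ) [NeZero M] (Q : (ZMod M × ZMod M) × (ZMod M × ZMod M) → Prop) :
    ((cls M).filter (fun e => Q (((e.1.re : ZMod M), (e.1.im : ZMod M)), ((e.2.re : ZMod M), (e.2.im : ZMod M))))).card =
      (univ.filter (fun v : (ZMod M × ZMod M) × (ZMod M × ZMod M) =>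
        v.1.1 * v.2.2 - v.1.2 * v.2.1 = 1 ∧ Q v)).card := by
  have hM : 0 < M := Nat.pos_of_ne_zero (NeZero.ne M)
  have hb : ∀ a : ZMod M, (0 : ℤ) ≤ (a.val : ℤ) ∧ (a.val : ℤ) < (M : ℤ) := fun a =>
    ⟨by positivity, by exact_mod_cast a.val_lt⟩
  have hc : ∀ a : ZMod M, (((a.val : ℤ)) : ZMod M) = a := fun a => by
    rw [Int.cast_natCast, ZMod.natCast_zmod_val]
  have hv : ∀ x : ℤ, 0 ≤ x → x < M → (((x : ZMod M).val : ℕ) : ℤ) = x := fun x h0 h1 => by
    rw [ZMod.val_intCast, Int.emod_eq_of_lt h0 h1]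
  refine Finset.card_nbij' (fun e => (((e.1.re : ZMod M), (e.1.im : ZMod M)), ((e.2.re : ZMod M), (e.2.im : ZMod M))))
    (fun v => ((⟨(v.1.1.val : ℤ), (v.1.2.val : ℤ)⟩ : G), (⟨(v.2.1.val : ℤ), (v.2.2.val : ℤ)⟩ : G))) ?_ ?_ ?_ ?_
  · intro e he
    simp only [coe_filter, Set.mem_ofPred_eq, mem_univ, true_and] at he ⊢
    refine ⟨?_, he.2⟩
    have h := (mem_cls.1 he.1).2.2.2.2
    have h2 := (ZMod.intCast_zmod_eq_zero_iff_dvd _ M).2 h
    unfold det at h2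
    push_cast at h2
    linear_combination h2
  · intro v hv'
    simp only [coe_filter, Set.mem_ofPred_eq, mem_univ, true_and] at hv' ⊢
    refine ⟨?_, ?_⟩
    · rw [mem_cls]
      refine ⟨hb _, hb _, hb _, hb _, ?_⟩
      rw [← ZMod.intCast_zmod_eq_zero_iff_dvd]
      unfold det
      push_cast
      simp only [ZMod.natCast_zmod_val]
      linear_combination hv'.1
    · simp only [hc]
      exact hv'.2
  · intro e he
    simp only [coe_filter, Set.mem_ofPred_eq] at he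
    obtain ⟨h1, h2, h3, h4, -⟩ := mem_cls.1 he.1
    refine Prod.ext (Zsqrtd.ext ?_ ?_) (Zsqrtd.ext ?_ ?_)
    · exact hv _ h1.1 h1.2
    · exact hv _ h2.1 h2.2
    · exact hv _ h3.1 h3.2
    · exact hv _ h4.1 h4.2
  · intro v _
    simp only [hc]


private lemma lp_nu {p : ℕ} (hp : p.Prime) (a : ZMod (p ^ 2)) : ¬ IsUnit a ↔ (p : ZMod (p ^ 2)) * a = 0 := by
  have : NeZero (p ^ 2) := ⟨pow_ne_zero 2 hp.ne_zero⟩
  have h : ∀ n : ℕ, p ∣ n ↔ p ^ 2 ∣ p * n := fun n => by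
    rw [pow_two]
    exact (Nat.mul_dvd_mul_iff_left hp.pos).symm
  rw [← ZMod.natCast_zmod_val a, ZMod.isUnit_natCast_iff_not_dvd_pow hp (by norm_num : 0 < 2), not_not,
    ← Nat.cast_mul, ZMod.natCast_eq_zero_iff]
  exact h _

private lemma lp_nu' {p : ℕ} (hp : p.Prime) {a : ZMod (p ^ 2)} (ha : ¬ IsUnit a) :
    ∃ b : ZMod (p ^ 2), a = ((p : ℕ) : ZMod (p ^ 2)) * b := by
  have : NeZero (p ^ 2) := ⟨pow_ne_zero 2 hp.ne_zero⟩
  rw [← ZMod.natCast_zmod_val a, ZMod.isUnit_natCast_iff_not_dvd_pow hp (by norm_num : 0 < 2), not_not] at ha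
  obtain ⟨k, hk⟩ := ha
  exact ⟨k, by rw [← ZMod.natCast_zmod_val a, hk]; push_cast; ring⟩

private lemma lp_mul {p : ℕ} (hp : p.Prime) {a b : ZMod (p ^ 2)} (ha : ¬ IsUnit a) (hb : ¬ IsUnit b) :
    a * b = 0 := by
  obtain ⟨c, rfl⟩ := lp_nu' hp ha
  have h := (lp_nu hp b).1 hb
  linear_combination c * h

private lemma lp_pne {p : ℕ} (hp : p.Prime) : (p : ZMod (p ^ 2)) ≠ 0 := by
  intro h
  rw [ZMod.natCast_eq_zero_iff] at h
  have h1 := Nat.le_of_dvd hp.pos h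
  have h2 := hp.two_le
  nlinarith

open Classical in
private lemma lp_cardU {p : ℕ} (hp : p.Prime) [NeZero (p ^ 2)] :
    (univ.filter (fun a : ZMod (p ^ 2) => IsUnit a)).card = p * (p - 1) := by
  have h : univ.filter (fun a : ZMod (p ^ 2) => IsUnit a) =
      (univ : Finset (ZMod (p ^ 2))ˣ).image Units.val := by
    ext a
    simp only [mem_filter, mem_univ, true_and, mem_image]
    rfl
  rw [h, card_image_of_injective _ Units.val_injective, card_univ, ZMod.card_units_eq_totient,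
    Nat.totient_prime_pow_succ hp 1]
  ring

open Classical in
private lemma lp_cardNU {p : ℕ} (hp : p.Prime) [NeZero (p ^ 2)] :
    (univ.filter (fun a : ZMod (p ^ 2) => ¬ IsUnit a)).card = p := by
  have h := Finset.card_filter_add_card_filter_not (s := (univ : Finset (ZMod (p ^ 2))))
    (fun a : ZMod (p ^ 2) => IsUnit a)
  rw [lp_cardU hp, card_univ, ZMod.card] at h
  obtain ⟨q, rfl⟩ : ∃ q, p = q + 1 := ⟨p - 1, by have := hp.pos; omega⟩
  simp only [Nat.add_sub_cancel] at h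
  nlinarith

open Classical in
private lemma lp_cardN0 {p : ℕ} (hp : p.Prime) [NeZero (p ^ 2)] :
    (univ.filter (fun a : ZMod (p ^ 2) => ¬ IsUnit a ∧ a ≠ 0)).card = p - 1 := by
  have h : univ.filter (fun a : ZMod (p ^ 2) => ¬ IsUnit a ∧ a ≠ 0) =
      (univ.filter (fun a : ZMod (p ^ 2) => ¬ IsUnit a)).erase 0 := by
    ext a
    simp only [mem_filter, mem_univ, true_and, mem_erase]
    tauto
  rw [h, card_erase_of_mem, lp_cardNU hp]
  simp only [mem_filter, mem_univ, true_and]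
  rw [lp_nu hp]
  simp

open Classical in
private lemma lp_total {p : ℕ} (hp : p.Prime) [NeZero (p ^ 2)] :
    (univ.filter (fun v : (ZMod (p ^ 2) × ZMod (p ^ 2)) × (ZMod (p ^ 2) × ZMod (p ^ 2)) =>
        v.1.1 * v.2.2 - v.1.2 * v.2.1 = 1)).card = p ^ 4 * (p ^ 2 - 1) := by
  rw [← Finset.card_filter_add_card_filter_not (fun v : (ZMod (p ^ 2) × ZMod (p ^ 2)) × (ZMod (p ^ 2) × ZMod (p ^ 2)) =>
    IsUnit v.1.1)]
  have h1 : (((univ.filter (fun v : (ZMod (p ^ 2) × ZMod (p ^ 2)) × (ZMod (p ^ 2) × ZMod (p ^ 2)) =>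
        v.1.1 * v.2.2 - v.1.2 * v.2.1 = 1))).filter (fun v => IsUnit v.1.1)).card =
      ((univ.filter (fun a : ZMod (p ^ 2) => IsUnit a)) ×ˢ
        ((univ : Finset (ZMod (p ^ 2))) ×ˢ (univ : Finset (ZMod (p ^ 2))))).card := by
    refine Finset.card_nbij' (fun v => (v.1.1, (v.1.2, v.2.1)))
      (fun u => ((u.1, u.2.1), (u.2.2, u.1⁻¹ * (1 + u.2.1 * u.2.2)))) ?_ ?_ ?_ ?_
    · intro v hv
      simp only [coe_filter, Set.mem_ofPred_eq, mem_univ, true_and, mem_filter, coe_product, Set.mem_prod,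
        coe_univ, Set.mem_univ, and_true] at hv ⊢
      exact hv.2
    · intro u hu
      simp only [coe_filter, Set.mem_ofPred_eq, mem_univ, true_and, mem_filter, coe_product, Set.mem_prod,
        coe_univ, Set.mem_univ, and_true] at hu ⊢
      refine ⟨?_, hu⟩
      have h := ZMod.mul_inv_of_unit _ hu
      linear_combination (1 + u.2.1 * u.2.2) * h
    · intro v hv
      simp only [coe_filter, Set.mem_ofPred_eq, mem_univ, true_and, mem_filter] at hv
      have h := ZMod.inv_mul_of_unit _ hv.2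
      have h2 : v.1.1⁻¹ * (1 + v.1.2 * v.2.1) = v.2.2 := by
        linear_combination v.2.2 * h - v.1.1⁻¹ * hv.1
      simp only [h2]
    · intro u _
      rfl
  have h2 : (((univ.filter (fun v : (ZMod (p ^ 2) × ZMod (p ^ 2)) × (ZMod (p ^ 2) × ZMod (p ^ 2)) =>
        v.1.1 * v.2.2 - v.1.2 * v.2.1 = 1))).filter (fun v => ¬ IsUnit v.1.1)).card =
      ((univ.filter (fun a : ZMod (p ^ 2) => ¬ IsUnit a)) ×ˢ
        ((univ.filter (fun a : ZMod (p ^ 2) => IsUnit a)) ×ˢ (univ : Finset (ZMod (p ^ 2))))).card := by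
    refine Finset.card_nbij' (fun v => (v.1.1, (v.1.2, v.2.2)))
      (fun u => ((u.1, u.2.1), (u.2.1⁻¹ * (u.1 * u.2.2 - 1), u.2.2))) ?_ ?_ ?_ ?_
    · intro v hv
      simp only [coe_filter, Set.mem_ofPred_eq, mem_univ, true_and, mem_filter, coe_product, Set.mem_prod,
        coe_univ, Set.mem_univ, and_true] at hv ⊢
      refine ⟨hv.2, ?_⟩
      by_contra hy
      have e1 := (lp_nu hp _).1 hv.2
      have e2 := (lp_nu hp _).1 hy
      apply lp_pne hp
      linear_combination v.2.2 * e1 - v.2.1 * e2 - (p : ZMod (p ^ 2)) * hv.1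
    · intro u hu
      simp only [coe_filter, Set.mem_ofPred_eq, mem_univ, true_and, mem_filter, coe_product, Set.mem_prod,
        coe_univ, Set.mem_univ, and_true] at hu ⊢
      refine ⟨?_, hu.1⟩
      have h := ZMod.mul_inv_of_unit _ hu.2
      linear_combination (-(u.1 * u.2.2 - 1)) * h
    · intro v hv
      simp only [coe_filter, Set.mem_ofPred_eq, mem_univ, true_and, mem_filter] at hv
      have hy : IsUnit v.1.2 := by
        by_contra hy
        have e1 := (lp_nu hp _).1 hv.2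
        have e2 := (lp_nu hp _).1 hy
        apply lp_pne hp
        linear_combination v.2.2 * e1 - v.2.1 * e2 - (p : ZMod (p ^ 2)) * hv.1
      have h := ZMod.inv_mul_of_unit _ hy
      have h2 : v.1.2⁻¹ * (v.1.1 * v.2.2 - 1) = v.2.1 := by
        linear_combination v.2.1 * h + v.1.2⁻¹ * hv.1
      simp only [h2]
    · intro u _
      rfl
  rw [h1, h2, card_product, card_product, card_product, card_product, lp_cardU hp, lp_cardNU hp, card_univ, ZMod.card]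
  obtain ⟨q, rfl⟩ : ∃ q, p = q + 1 := ⟨p - 1, by have := hp.pos; omega⟩
  have h3 : (q + 1) ^ 2 - 1 = q * (q + 2) := by
    have : (q + 1) ^ 2 = q * (q + 2) + 1 := by ring
    omega
  rw [h3]
  simp only [Nat.add_sub_cancel]
  ring


/-- a square root of `-1` modulo `p ^ 2` -/
private lemma lp_iota {p : ℕ} (hp : p.Prime) (h4 : p % 4 = 1) :
    ∃ ι : ZMod (p ^ 2), ι ^ 2 = -1 := by
  have : Fact p.Prime := ⟨hp⟩
  obtain ⟨y, hy⟩ := (ZMod.exists_sq_eq_neg_one_iff (p := p)).2 (by omega)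
  have h1 : ((p : ℕ) : ℤ) ∣ ((y.val : ℤ) ^ 2) - (-1) := by
    rw [← ZMod.intCast_zmod_eq_zero_iff_dvd]
    push_cast
    rw [ZMod.natCast_zmod_val]
    linear_combination (-1 : ZMod p) * hy
  have h2 := dvd_sub_pow_of_dvd_sub h1 1
  refine ⟨((((y.val : ℤ)) ^ p : ℤ) : ZMod (p ^ 2)), ?_⟩
  have hodd : Odd p := hp.odd_of_ne_two (by rintro rfl; omega)
  rw [pow_one, hodd.neg_one_pow] at h2
  have h3 : (((p ^ 2 : ℕ)) : ℤ) ∣ ((y.val : ℤ) ^ 2) ^ p - -1 := by
    push_cast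
    exact h2
  rw [← ZMod.intCast_zmod_eq_zero_iff_dvd] at h3
  push_cast at h3 ⊢
  rw [← pow_mul, mul_comm p 2, pow_mul]
  linear_combination h3

open Classical in
private lemma lp_rs {p : ℕ} (hp : p.Prime) [NeZero (p ^ 2)] (c : ZMod (p ^ 2)) (hc : IsUnit c) :
    (univ.filter (fun u : (ZMod (p ^ 2) × ZMod (p ^ 2)) × (ZMod (p ^ 2) × ZMod (p ^ 2)) =>
        u.1.1 * u.2.2 - u.1.2 * u.2.1 = c ∧ ¬ IsUnit (u.1.1 * u.1.2) ∧
          (u.1.1 * u.1.2) * (u.2.1 * u.2.2) ≠ 0)).card = 2 * p ^ 2 * (p - 1) ^ 3 := by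
  rw [← Finset.card_filter_add_card_filter_not (fun v : (ZMod (p ^ 2) × ZMod (p ^ 2)) × (ZMod (p ^ 2) × ZMod (p ^ 2)) =>
    IsUnit v.1.2)]
  have hpc : (p : ZMod (p ^ 2)) * c ≠ 0 := fun h => (lp_nu hp c).2 h hc
  have h1 : (((univ.filter (fun u : (ZMod (p ^ 2) × ZMod (p ^ 2)) × (ZMod (p ^ 2) × ZMod (p ^ 2)) =>
        u.1.1 * u.2.2 - u.1.2 * u.2.1 = c ∧ ¬ IsUnit (u.1.1 * u.1.2) ∧
          (u.1.1 * u.1.2) * (u.2.1 * u.2.2) ≠ 0))).filter (fun v => IsUnit v.1.2)).card =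
      ((univ.filter (fun a : ZMod (p ^ 2) => ¬ IsUnit a ∧ a ≠ 0)) ×ˢ
        ((univ.filter (fun a : ZMod (p ^ 2) => IsUnit a)) ×ˢ (univ.filter (fun a : ZMod (p ^ 2) => IsUnit a)))).card := by
    refine Finset.card_nbij' (fun v => (v.1.1, (v.1.2, v.2.2)))
      (fun u => ((u.1, u.2.1), (u.2.1⁻¹ * (u.1 * u.2.2 - c), u.2.2))) ?_ ?_ ?_ ?_
    · intro v hv
      simp only [coe_filter, Set.mem_ofPred_eq, mem_univ, true_and, mem_filter, coe_product, Set.mem_prod] at hv ⊢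
      obtain ⟨⟨h1, h2, h3⟩, h4⟩ := hv
      have h5 : ¬ IsUnit v.1.1 := fun h => h2 (h.mul h4)
      refine ⟨⟨h5, ?_⟩, h4, ?_⟩
      · intro h0
        apply h3
        rw [h0]
        ring
      · by_contra h6
        apply h3
        have := lp_mul hp h5 h6
        linear_combination v.1.2 * v.2.1 * this
    · intro u hu
      simp only [coe_filter, Set.mem_ofPred_eq, mem_univ, true_and, mem_filter, coe_product, Set.mem_prod] at hu ⊢
      obtain ⟨⟨h1, h2⟩, h3, h4⟩ := hu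
      have h := ZMod.mul_inv_of_unit _ h3
      have h' := ZMod.inv_mul_of_unit _ h3
      have hρ : IsUnit (u.2.1⁻¹ * (u.1 * u.2.2 - c)) := by
        by_contra h6
        have h7 := (lp_nu hp _).1 h6
        have h8 := (lp_nu hp _).1 h1
        apply hpc
        linear_combination u.2.2 * h8 - u.2.1 * h7 + p * (u.1 * u.2.2 - c) * h
      refine ⟨⟨?_, ?_, ?_⟩, h3⟩
      · linear_combination (-(u.1 * u.2.2 - c)) * h
      · intro h6
        exact h1 (isUnit_of_mul_isUnit_left h6)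
      · intro h6
        have h7 : IsUnit (u.2.1 * (u.2.1⁻¹ * (u.1 * u.2.2 - c) * u.2.2)) := h3.mul (hρ.mul h4)
        apply h2
        rw [← h7.mul_left_inj, zero_mul, ← h6]
        ring
    · intro v hv
      simp only [coe_filter, Set.mem_ofPred_eq, mem_univ, true_and, mem_filter] at hv
      have h := ZMod.inv_mul_of_unit _ hv.2
      have h2 : v.1.2⁻¹ * (v.1.1 * v.2.2 - c) = v.2.1 := by
        linear_combination v.2.1 * h + v.1.2⁻¹ * hv.1.1
      simp only [h2]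
    · intro u _
      rfl
  have h2 : (((univ.filter (fun u : (ZMod (p ^ 2) × ZMod (p ^ 2)) × (ZMod (p ^ 2) × ZMod (p ^ 2)) =>
        u.1.1 * u.2.2 - u.1.2 * u.2.1 = c ∧ ¬ IsUnit (u.1.1 * u.1.2) ∧
          (u.1.1 * u.1.2) * (u.2.1 * u.2.2) ≠ 0))).filter (fun v => ¬ IsUnit v.1.2)).card =
      ((univ.filter (fun a : ZMod (p ^ 2) => ¬ IsUnit a ∧ a ≠ 0)) ×ˢ
        ((univ.filter (fun a : ZMod (p ^ 2) => IsUnit a)) ×ˢ (univ.filter (fun a : ZMod (p ^ 2) => IsUnit a)))).card := by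
    refine Finset.card_nbij' (fun v => (v.1.2, (v.1.1, v.2.1)))
      (fun u => ((u.2.1, u.1), (u.2.2, u.2.1⁻¹ * (u.1 * u.2.2 + c)))) ?_ ?_ ?_ ?_
    · intro v hv
      simp only [coe_filter, Set.mem_ofPred_eq, mem_univ, true_and, mem_filter, coe_product, Set.mem_prod] at hv ⊢
      obtain ⟨⟨h1, h2, h3⟩, h4⟩ := hv
      refine ⟨⟨h4, ?_⟩, ?_, ?_⟩
      · intro h0
        apply h3
        rw [h0]
        ring
      · by_contra h6
        apply h3
        have := lp_mul hp h4 h6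
        linear_combination v.2.1 * v.2.2 * this
      · by_contra h6
        apply h3
        have := lp_mul hp h4 h6
        linear_combination v.1.1 * v.2.2 * this
    · intro u hu
      simp only [coe_filter, Set.mem_ofPred_eq, mem_univ, true_and, mem_filter, coe_product, Set.mem_prod] at hu ⊢
      obtain ⟨⟨h1, h2⟩, h3, h4⟩ := hu
      have h := ZMod.mul_inv_of_unit _ h3
      have h' := ZMod.inv_mul_of_unit _ h3
      have hρ : IsUnit (u.2.1⁻¹ * (u.1 * u.2.2 + c)) := by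
        by_contra h6
        have h7 := (lp_nu hp _).1 h6
        have h8 := (lp_nu hp _).1 h1
        apply hpc
        linear_combination (-u.2.2) * h8 + u.2.1 * h7 - p * (u.1 * u.2.2 + c) * h
      refine ⟨⟨?_, ?_, ?_⟩, h1⟩
      · linear_combination (u.1 * u.2.2 + c) * h
      · intro h6
        exact h1 (isUnit_of_mul_isUnit_right h6)
      · intro h6
        have h7 : IsUnit (u.2.1 * (u.2.1⁻¹ * (u.1 * u.2.2 + c) * u.2.2)) := h3.mul (hρ.mul h4)
        apply h2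
        rw [← h7.mul_left_inj, zero_mul, ← h6]
        ring
    · intro v hv
      simp only [coe_filter, Set.mem_ofPred_eq, mem_univ, true_and, mem_filter] at hv
      obtain ⟨⟨h1, h2, h3⟩, h4⟩ := hv
      have h5 : IsUnit v.1.1 := by
        by_contra h6
        apply h3
        have := lp_mul hp h4 h6
        linear_combination v.2.1 * v.2.2 * this
      have h := ZMod.inv_mul_of_unit _ h5
      have h2 : v.1.1⁻¹ * (v.1.2 * v.2.1 + c) = v.2.2 := by
        linear_combination v.2.2 * h - v.1.1⁻¹ * h1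
      simp only [h2]
    · intro u _
      rfl
  rw [h1, h2, card_product, card_product, lp_cardU hp, lp_cardN0 hp]
  ring

open Classical in
private lemma lp_xy {p : ℕ} (hp : p.Prime) (h4 : p % 4 = 1) [NeZero (p ^ 2)] :
    (univ.filter (fun v : (ZMod (p ^ 2) × ZMod (p ^ 2)) × (ZMod (p ^ 2) × ZMod (p ^ 2)) =>
        v.1.1 * v.2.2 - v.1.2 * v.2.1 = 1 ∧ (¬ IsUnit (v.1.1 ^ 2 + v.1.2 ^ 2) ∧
          (v.1.1 ^ 2 + v.1.2 ^ 2) * (v.2.1 ^ 2 + v.2.2 ^ 2) ≠ 0))).card = 2 * p ^ 2 * (p - 1) ^ 3 := by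
  obtain ⟨ι, hι⟩ := lp_iota hp h4
  have h2u : IsUnit (2 : ZMod (p ^ 2)) := by
    have h := (ZMod.isUnit_natCast_iff_not_dvd_pow (a := 2) hp (by norm_num : 0 < 2)).2
      (fun h => by
        have h5 := Nat.le_of_dvd (by norm_num) h
        have h6 := hp.two_le
        omega)
    exact_mod_cast h
  have hιu : IsUnit ι := IsUnit.of_mul_eq_one (-ι) (by linear_combination (-1 : ZMod (p ^ 2)) * hι)
  obtain ⟨h, hh⟩ : ∃ h : ZMod (p ^ 2), 2 * h = 1 := h2u.exists_right_inv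
  rw [← lp_rs hp (-(2 * ι)) (h2u.mul hιu).neg]
  refine Finset.card_nbij' (fun v => ((v.1.1 + ι * v.1.2, v.1.1 - ι * v.1.2), (v.2.1 + ι * v.2.2, v.2.1 - ι * v.2.2)))
    (fun u => ((h * (u.1.1 + u.1.2), -ι * h * (u.1.1 - u.1.2)), (h * (u.2.1 + u.2.2), -ι * h * (u.2.1 - u.2.2)))) ?_ ?_ ?_ ?_
  · intro v hv
    simp only [coe_filter, Set.mem_ofPred_eq, mem_univ, true_and] at hv ⊢
    have e1 : (v.1.1 + ι * v.1.2) * (v.1.1 - ι * v.1.2) = v.1.1 ^ 2 + v.1.2 ^ 2 := by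
      linear_combination (-v.1.2 ^ 2) * hι
    have e2 : (v.2.1 + ι * v.2.2) * (v.2.1 - ι * v.2.2) = v.2.1 ^ 2 + v.2.2 ^ 2 := by
      linear_combination (-v.2.2 ^ 2) * hι
    rw [e1, e2]
    refine ⟨?_, hv.2⟩
    linear_combination (-(2 * ι)) * hv.1
  · intro u hu
    simp only [coe_filter, Set.mem_ofPred_eq, mem_univ, true_and] at hu ⊢
    have e1 : (h * (u.1.1 + u.1.2)) ^ 2 + (-ι * h * (u.1.1 - u.1.2)) ^ 2 = u.1.1 * u.1.2 := by
      linear_combination (h ^ 2 * (u.1.1 - u.1.2) ^ 2) * hι + (u.1.1 * u.1.2 * (2 * h + 1)) * hh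
    have e2 : (h * (u.2.1 + u.2.2)) ^ 2 + (-ι * h * (u.2.1 - u.2.2)) ^ 2 = u.2.1 * u.2.2 := by
      linear_combination (h ^ 2 * (u.2.1 - u.2.2) ^ 2) * hι + (u.2.1 * u.2.2 * (2 * h + 1)) * hh
    rw [e1, e2]
    refine ⟨?_, hu.2⟩
    linear_combination (2 * ι * h ^ 2) * hu.1 - (4 * h ^ 2) * hι + (2 * h + 1) * hh
  · intro v _
    refine Prod.ext (Prod.ext ?_ ?_) (Prod.ext ?_ ?_)
    · show h * ((v.1.1 + ι * v.1.2) + (v.1.1 - ι * v.1.2)) = v.1.1
      linear_combination v.1.1 * hh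
    · show -ι * h * ((v.1.1 + ι * v.1.2) - (v.1.1 - ι * v.1.2)) = v.1.2
      linear_combination (-(2 * h * v.1.2)) * hι + v.1.2 * hh
    · show h * ((v.2.1 + ι * v.2.2) + (v.2.1 - ι * v.2.2)) = v.2.1
      linear_combination v.2.1 * hh
    · show -ι * h * ((v.2.1 + ι * v.2.2) - (v.2.1 - ι * v.2.2)) = v.2.2
      linear_combination (-(2 * h * v.2.2)) * hι + v.2.2 * hh
  · intro u _
    refine Prod.ext (Prod.ext ?_ ?_) (Prod.ext ?_ ?_)
    · show h * (u.1.1 + u.1.2) + ι * (-ι * h * (u.1.1 - u.1.2)) = u.1.1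
      linear_combination (-(h * (u.1.1 - u.1.2))) * hι + u.1.1 * hh
    · show h * (u.1.1 + u.1.2) - ι * (-ι * h * (u.1.1 - u.1.2)) = u.1.2
      linear_combination (h * (u.1.1 - u.1.2)) * hι + u.1.2 * hh
    · show h * (u.2.1 + u.2.2) + ι * (-ι * h * (u.2.1 - u.2.2)) = u.2.1
      linear_combination (-(h * (u.2.1 - u.2.2))) * hι + u.2.1 * hh
    · show h * (u.2.1 + u.2.2) - ι * (-ι * h * (u.2.1 - u.2.2)) = u.2.2
      linear_combination (h * (u.2.1 - u.2.2)) * hι + u.2.2 * hh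

open Classical in
private lemma lp_xy' {p : ℕ} (hp : p.Prime) (h4 : p % 4 = 1) [NeZero (p ^ 2)] :
    (univ.filter (fun v : (ZMod (p ^ 2) × ZMod (p ^ 2)) × (ZMod (p ^ 2) × ZMod (p ^ 2)) =>
        v.1.1 * v.2.2 - v.1.2 * v.2.1 = 1 ∧ (¬ IsUnit (v.2.1 ^ 2 + v.2.2 ^ 2) ∧
          (v.1.1 ^ 2 + v.1.2 ^ 2) * (v.2.1 ^ 2 + v.2.2 ^ 2) ≠ 0))).card = 2 * p ^ 2 * (p - 1) ^ 3 := by
  rw [← lp_xy hp h4]
  refine Finset.card_nbij' (fun v => (v.2, (-v.1.1, -v.1.2))) (fun v => ((-v.2.1, -v.2.2), v.1)) ?_ ?_ ?_ ?_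
  · intro v hv
    simp only [coe_filter, Set.mem_ofPred_eq, mem_univ, true_and] at hv ⊢
    obtain ⟨h1, h2, h3⟩ := hv
    refine ⟨by linear_combination h1, h2, ?_⟩
    intro h
    apply h3
    linear_combination h
  · intro v hv
    simp only [coe_filter, Set.mem_ofPred_eq, mem_univ, true_and] at hv ⊢
    obtain ⟨h1, h2, h3⟩ := hv
    refine ⟨by linear_combination h1, h2, ?_⟩
    intro h
    apply h3
    linear_combination h
  · intro v _
    simp
  · intro v _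
    simp

private lemma lp_cast {p : ℕ} (z : G) : ((nm z : ℕ) : ZMod (p ^ 2)) = (z.re : ZMod (p ^ 2)) ^ 2 + (z.im : ZMod (p ^ 2)) ^ 2 := by
  have h := nm_eq z
  have h2 : (((nm z : ℕ) : ℤ) : ZMod (p ^ 2)) = ((z.re ^ 2 + z.im ^ 2 : ℤ) : ZMod (p ^ 2)) := by rw [h]
  push_cast at h2
  exact h2

end LPaux

open Classical in
/-- For `V` primitive modulo `p` the `V'` modulo `p^2` with `det V V' = 1` form a coset `V'_0 + k V`, `k` mod `p^2`, so `#cls (p^2) = p^2 (p^4 - p^2)`. Let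
`ι^2 = -1` mod `p^2` (`p = 1 mod 4`). The number of primitive `V = (x, y)` mod `p^2` with `p ∣ x^2 + y^2`, `p^2 ∤ x^2 + y^2`: `x` a unit
(`p (p - 1)` choices), `y = ± ι x + p w`, `w` mod `p`, `w ≠ 0` (`x^2 + y^2 = ± 2 ι x p w` mod `p^2`): `2 (p - 1)` choices; total `2 p (p - 1)^2`. For such `V`,
`nm (V'_0 + k V) = nm V'_0 + 2 k dot V'_0 V` mod `p`, and `dot V'_0 V ^ 2 = -1` mod `p` (`dot^2 + det^2 = nm nm`), so `p ∤ nm V'` for `p^2 - p` of the `k`. Together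
`2 p^3 (p - 1)^3`... i.e. `2 p (p-1)^2 * p (p - 1) = 2 p^2 (p - 1)^3`. The second statement follows from the first by the bijection
`(V, V') ↦ (V', - V)` modulo `p^2`. (An alternative: coordinates `r = x + ι y`, `s = x - ι y`, in which `nm = r s`.) -/
theorem cls_p2 (p : ℕ) (hp : p.Prime) (h4 : p % 4 = 1) : (cls (p ^ 2)).card = p ^ 4 * (p ^ 2 - 1) ∧
    ((cls (p ^ 2)).filter (fun e => p ∣ nm e.1 ∧ ¬ p ^ 2 ∣ nm e.1 * nm e.2)).card = 2 * p ^ 2 * (p - 1) ^ 3 ∧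
    ((cls (p ^ 2)).filter (fun e => p ∣ nm e.2 ∧ ¬ p ^ 2 ∣ nm e.1 * nm e.2)).card = 2 * p ^ 2 * (p - 1) ^ 3 := by
  have : NeZero (p ^ 2) := ⟨pow_ne_zero 2 hp.ne_zero⟩
  have hd : ∀ z : G, p ∣ nm z ↔ ¬ IsUnit ((z.re : ZMod (p ^ 2)) ^ 2 + (z.im : ZMod (p ^ 2)) ^ 2) := fun z => by
    rw [← lp_cast, ZMod.isUnit_natCast_iff_not_dvd_pow hp (by norm_num : 0 < 2), not_not]
  have hd2 : ∀ z w : G, p ^ 2 ∣ nm z * nm w ↔ ((z.re : ZMod (p ^ 2)) ^ 2 + (z.im : ZMod (p ^ 2)) ^ 2) *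
      ((w.re : ZMod (p ^ 2)) ^ 2 + (w.im : ZMod (p ^ 2)) ^ 2) = 0 := fun z w => by
    rw [← lp_cast, ← lp_cast, ← Nat.cast_mul, ZMod.natCast_eq_zero_iff]
  refine ⟨?_, ?_, ?_⟩
  · have h := lp_card (p ^ 2) (fun _ => True)
    simp only [and_true, filter_true] at h
    rw [h, lp_total hp]
  · have h := (lp_card (p ^ 2) (fun v => ¬ IsUnit (v.1.1 ^ 2 + v.1.2 ^ 2) ∧
      (v.1.1 ^ 2 + v.1.2 ^ 2) * (v.2.1 ^ 2 + v.2.2 ^ 2) ≠ 0)).trans (Eq.trans (by congr) (lp_xy hp h4))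
    rw [← h]
    refine congrArg Finset.card ?_
    ext e
    simp only [mem_filter, hd, hd2, ne_eq]
  · have h := (lp_card (p ^ 2) (fun v => ¬ IsUnit (v.2.1 ^ 2 + v.2.2 ^ 2) ∧
      (v.1.1 ^ 2 + v.1.2 ^ 2) * (v.2.1 ^ 2 + v.2.2 ^ 2) ≠ 0)).trans (Eq.trans (by congr) (lp_xy' hp h4))
    rw [← h]
    refine congrArg Finset.card ?_
    ext e
    simp only [mem_filter, hd, hd2, ne_eq]

end Pool.Agent.OmAll
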