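import Pool.Agent.Lib_MP_f1a94e_q.MainIneq

/-!
# The main inequality with multipliers in an arbitrary residue class
-/

set_option autoImplicit false

namespace Pool.Agent.OmQ

open Finset LibLS

/-- MAIN -/
theorem main_ineqH {N : ℕ} [NeZero N] (f g : ZMod N → ℝ) (hf : ∀ i, 0 ≤ f i ∧ f i ≤ 1)
    (hg : ∀ i, 0 ≤ g i ∧ g i ≤ 1) (ρ : ℕ → ℕ) (W W' T T' n K0 h : ℕ) (K P : Finset ℕ) (w : ℕ → ℝ)
    (η v C3 L τ : ℝ) (hW : 0 < W) (hT : 0 < T) (hη : 0 ≤ η) (hL : 0 < L) (hv : 0 ≤ v) (hτ : 0 ≤ τ)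
    (hκ : ∀ κ ∈ K, Squarefree κ ∧ κ % W = h % W ∧ κ ∣ N ∧ κ ≤ K0 ∧ 0 ≤ w κ)
    (hw1 : ∑ κ ∈ K, w κ = 1) (hw2 : ∑ κ ∈ K, w κ ^ 2 * κ ≤ 1 / L)
    (hV1 : Av (fun i : ZMod N => ∑ κ ∈ K, w κ * κ * ind (Dv ρ κ i)) = 1)
    (hV2 : Av (fun i : ZMod N => (∑ κ ∈ K, w κ * κ * ind (Dv ρ κ i) - 1) ^ 2) ≤ v)
    (hP : ∀ p ∈ P, p < 2 ^ (n + 1)) (hP0 : 0 < P.card) (hTη : (K0 : ℝ) * 2 ^ (n + 1) ≤ η * W * T)
    (h3 : ∑ κ ∈ K, Av (fun i => ((∑ p ∈ P, (g (i + ((κ * p : ℕ) : ZMod N)) -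
        avW W' T' g (i + ((κ * p : ℕ) : ZMod N)))) / P.card) ^ 2) ≤ C3)
    (h2 : Av (fun i => (avW W' T' g i - avW W T g i) ^ 2) ≤ τ ^ 2) :
    ∑ p ∈ P, Av (fun i => f i * avW W T g (i + ((h * p % W : ℕ) : ZMod N))) ≤
      ∑ κ ∈ K, w κ * ∑ p ∈ P, κ * Av (fun i => ind (Dv ρ κ i) * f i * g (i + ((κ * p : ℕ) : ZMod N))) +
      P.card * (η + Real.sqrt v + (1 + Real.sqrt v) * τ + Real.sqrt (C3 / L)) := by
  have hW0 : (0 : ℝ) < W := by exact_mod_cast hW
  have hT0 : (0 : ℝ) < T := by exact_mod_cast hT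
  have hPc : (0 : ℝ) < P.card := by exact_mod_cast hP0
  set g1 : ZMod N → ℝ := avW W T g with hg1
  set g2 : ZMod N → ℝ := fun i => avW W' T' g i - avW W T g i with hg2
  set g3 : ZMod N → ℝ := fun i => g i - avW W' T' g i with hg3
  set V : ZMod N → ℝ := fun i => ∑ κ ∈ K, w κ * κ * ind (Dv ρ κ i) with hVdef
  have hg1m : ∀ i, 0 ≤ g1 i ∧ g1 i ≤ 1 := fun i => avW_mem g hg W T hT i
  have hsum : ∀ i, g i = g1 i + g2 i + g3 i := fun i => by simp only [hg1, hg2, hg3]; ring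
  -- bound for `V - 1`
  have hVabs : Av (fun i => |V i - 1|) ≤ Real.sqrt v :=
    (Av_abs_le_sqrt (fun i => V i - 1)).trans (Real.sqrt_le_sqrt hV2)
  have hg2s : Real.sqrt (Av (fun i => g2 i ^ 2)) ≤ τ := by
    rw [← Real.sqrt_sq hτ]
    exact Real.sqrt_le_sqrt h2
  -- first part
  have hA : ∀ p ∈ P, Av (fun i => f i * g1 (i + ((h * p % W : ℕ) : ZMod N))) ≤
      ∑ κ ∈ K, w κ * (κ * Av (fun i => ind (Dv ρ κ i) * f i * g1 (i + ((κ * p : ℕ) : ZMod N)))) +
        (η + Real.sqrt v) := by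
    intro p hp
    have hstep : ∀ κ ∈ K, w κ * (κ * Av (fun i => ind (Dv ρ κ i) * f i *
        g1 (i + ((h * p % W : ℕ) : ZMod N)))) ≤
        w κ * (κ * Av (fun i => ind (Dv ρ κ i) * f i * g1 (i + ((κ * p : ℕ) : ZMod N)))) +
          η * Av (fun i : ZMod N => w κ * κ * ind (Dv ρ κ i)) := by
      intro κ hκK
      obtain ⟨hsq, hmod, hdN, hK0, hw0⟩ := hκ κ hκK
      -- `κ p = p % W + W s`
      have hkp : κ * p % W = h * p % W := by
        rw [Nat.mul_mod, hmod, ← Nat.mul_mod]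
      have hdecomp : κ * p = h * p % W + W * (κ * p / W) := by
        conv_lhs => rw [← Nat.mod_add_div (κ * p) W, hkp]
      have hs : ((κ * p / W : ℕ) : ℝ) / T ≤ η := by
        rw [div_le_iff₀ hT0]
        have h1 : ((κ * p / W : ℕ) : ℝ) ≤ ((κ * p : ℕ) : ℝ) / W := Nat.cast_div_le
        have h2 : ((κ * p : ℕ) : ℝ) ≤ (K0 : ℝ) * 2 ^ (n + 1) := by
          have h3 : κ * p ≤ K0 * 2 ^ (n + 1) := Nat.mul_le_mul hK0 (hP p hp).le
          exact_mod_cast h3
        have h3 : ((κ * p : ℕ) : ℝ) / W ≤ η * T := by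
          rw [div_le_iff₀ hW0]
          calc ((κ * p : ℕ) : ℝ) ≤ (K0 : ℝ) * 2 ^ (n + 1) := h2
            _ ≤ η * W * T := hTη
            _ = η * T * W := by ring
        exact h1.trans h3
      have hpt : ∀ i : ZMod N, g1 (i + ((h * p % W : ℕ) : ZMod N)) ≤
          g1 (i + ((κ * p : ℕ) : ZMod N)) + η := by
        intro i
        have h1 := avW_shift_abs g hg W T (κ * p / W) (i + ((h * p % W : ℕ) : ZMod N))
        have h2 : i + ((h * p % W : ℕ) : ZMod N) + ((W * (κ * p / W) : ℕ) : ZMod N) =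
            i + ((κ * p : ℕ) : ZMod N) := by
          rw [add_assoc, ← Nat.cast_add, ← hdecomp]
        rw [h2] at h1
        have h3 := (abs_le.1 (h1.trans hs)).1
        simp only [hg1]
        linarith
      have hAv : Av (fun i => ind (Dv ρ κ i) * f i * g1 (i + ((h * p % W : ℕ) : ZMod N))) ≤
          Av (fun i => ind (Dv ρ κ i) * f i * g1 (i + ((κ * p : ℕ) : ZMod N))) +
            η * Av (fun i : ZMod N => ind (Dv ρ κ i)) := by
        rw [← Av_const_mul, ← Av_add]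
        refine Av_mono fun i => ?_
        have h1 := ind_nonneg (Dv ρ κ i)
        have h2 := hf i
        have h3 := hpt i
        have h4 : 0 ≤ ind (Dv ρ κ i) * f i := mul_nonneg h1 h2.1
        have h5 : ind (Dv ρ κ i) * f i ≤ ind (Dv ρ κ i) := by
          calc ind (Dv ρ κ i) * f i ≤ ind (Dv ρ κ i) * 1 := by gcongr; exact h2.2
            _ = _ := mul_one _
        calc ind (Dv ρ κ i) * f i * g1 (i + ((h * p % W : ℕ) : ZMod N)) ≤
              ind (Dv ρ κ i) * f i * (g1 (i + ((κ * p : ℕ) : ZMod N)) + η) := by gcongr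
          _ = ind (Dv ρ κ i) * f i * g1 (i + ((κ * p : ℕ) : ZMod N)) +
              ind (Dv ρ κ i) * f i * η := by ring
          _ ≤ ind (Dv ρ κ i) * f i * g1 (i + ((κ * p : ℕ) : ZMod N)) +
              ind (Dv ρ κ i) * η := by gcongr
          _ = _ := by ring
      rw [Av_const_mul]
      have hk0 : (0 : ℝ) ≤ κ := Nat.cast_nonneg κ
      calc w κ * (κ * Av (fun i => ind (Dv ρ κ i) * f i * g1 (i + ((h * p % W : ℕ) : ZMod N)))) ≤
            w κ * (κ * (Av (fun i => ind (Dv ρ κ i) * f i * g1 (i + ((κ * p : ℕ) : ZMod N))) +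
            η * Av (fun i : ZMod N => ind (Dv ρ κ i)))) := by gcongr
        _ = _ := by ring
    have hsumstep := Finset.sum_le_sum hstep
    rw [Finset.sum_add_distrib, ← Finset.mul_sum, ← Av_sum, hV1, mul_one] at hsumstep
    have hVf : ∑ κ ∈ K, w κ * (κ * Av (fun i => ind (Dv ρ κ i) * f i *
        g1 (i + ((h * p % W : ℕ) : ZMod N)))) =
        Av (fun i => V i * (f i * g1 (i + ((h * p % W : ℕ) : ZMod N)))) := by
      simp only [hVdef, Finset.sum_mul]
      rw [Av_sum]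
      refine Finset.sum_congr rfl fun κ _ => ?_
      rw [← mul_assoc, ← Av_const_mul]
      congr 1
      funext i
      ring
    rw [hVf] at hsumstep
    have hcomp : Av (fun i => f i * g1 (i + ((h * p % W : ℕ) : ZMod N))) ≤
        Av (fun i => V i * (f i * g1 (i + ((h * p % W : ℕ) : ZMod N)))) + Real.sqrt v := by
      refine le_trans ?_ (add_le_add (le_refl _) hVabs)
      rw [← Av_add]
      refine Av_mono fun i => ?_
      have h1 := hf i
      have h2 := hg1m (i + ((h * p % W : ℕ) : ZMod N))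
      have h3 : 0 ≤ f i * g1 (i + ((h * p % W : ℕ) : ZMod N)) := mul_nonneg h1.1 h2.1
      have h4 : f i * g1 (i + ((h * p % W : ℕ) : ZMod N)) ≤ 1 := mul_le_one₀ h1.2 h2.1 h2.2
      have h5 : (1 - V i) * (f i * g1 (i + ((h * p % W : ℕ) : ZMod N))) ≤ |V i - 1| := by
        calc (1 - V i) * (f i * g1 (i + ((h * p % W : ℕ) : ZMod N))) ≤
              |1 - V i| * (f i * g1 (i + ((h * p % W : ℕ) : ZMod N))) := by
                gcongr
                exact le_abs_self _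
          _ ≤ |1 - V i| * 1 := by gcongr
          _ = |V i - 1| := by rw [mul_one, abs_sub_comm]
      linarith
    linarith
  -- second part
  have hB : ∀ p ∈ P, -((1 + Real.sqrt v) * τ) ≤
      ∑ κ ∈ K, w κ * (κ * Av (fun i => ind (Dv ρ κ i) * f i * g2 (i + ((κ * p : ℕ) : ZMod N)))) := by
    intro p hp
    have hstep : ∀ κ ∈ K, -Av (fun i => w κ * κ * ind (Dv ρ κ i) * |g2 i|) ≤
        w κ * (κ * Av (fun i => ind (Dv ρ κ i) * f i * g2 (i + ((κ * p : ℕ) : ZMod N)))) := by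
      intro κ hκK
      obtain ⟨hsq, hmod, hdN, hK0, hw0⟩ := hκ κ hκK
      have hk0 : (0 : ℝ) ≤ κ := Nat.cast_nonneg κ
      have e1 : Av (fun i => w κ * κ * ind (Dv ρ κ i) * |g2 i|) =
          w κ * (κ * Av (fun i => ind (Dv ρ κ i) * |g2 i|)) := by
        rw [← mul_assoc, ← Av_const_mul]
        congr 1
        funext i
        ring
      have e2 : Av (fun i => ind (Dv ρ κ i) * |g2 i|) =
          Av (fun i => ind (Dv ρ κ i) * |g2 (i + ((κ * p : ℕ) : ZMod N))|) := by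
        rw [← Av_shift (fun i => ind (Dv ρ κ i) * |g2 i|) ((κ * p : ℕ) : ZMod N)]
        congr 1
        funext i
        have h := Dv_shift ρ κ p hdN i
        rw [show (Dv ρ κ (i + ((κ * p : ℕ) : ZMod N))) = Dv ρ κ i from propext h]
      have e3 : -Av (fun i => ind (Dv ρ κ i) * |g2 (i + ((κ * p : ℕ) : ZMod N))|) ≤
          Av (fun i => ind (Dv ρ κ i) * f i * g2 (i + ((κ * p : ℕ) : ZMod N))) := by
        have h1 : Av (fun i => (-1 : ℝ) * (ind (Dv ρ κ i) * |g2 (i + ((κ * p : ℕ) : ZMod N))|)) ≤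
            Av (fun i => ind (Dv ρ κ i) * f i * g2 (i + ((κ * p : ℕ) : ZMod N))) := by
          refine Av_mono fun i => ?_
          have h2 := ind_nonneg (Dv ρ κ i)
          have h3 := hf i
          have h4 : -|g2 (i + ((κ * p : ℕ) : ZMod N))| ≤ f i * g2 (i + ((κ * p : ℕ) : ZMod N)) := by
            have h5 : |f i * g2 (i + ((κ * p : ℕ) : ZMod N))| ≤
                |g2 (i + ((κ * p : ℕ) : ZMod N))| := by
              rw [abs_mul, abs_of_nonneg h3.1]
              calc f i * |g2 (i + ((κ * p : ℕ) : ZMod N))| ≤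
                    1 * |g2 (i + ((κ * p : ℕ) : ZMod N))| := by gcongr; exact h3.2
                _ = _ := one_mul _
            linarith [neg_abs_le (f i * g2 (i + ((κ * p : ℕ) : ZMod N)))]
          calc (-1 : ℝ) * (ind (Dv ρ κ i) * |g2 (i + ((κ * p : ℕ) : ZMod N))|) =
                ind (Dv ρ κ i) * (-|g2 (i + ((κ * p : ℕ) : ZMod N))|) := by ring
            _ ≤ ind (Dv ρ κ i) * (f i * g2 (i + ((κ * p : ℕ) : ZMod N))) := by gcongr
            _ = _ := by ring
        rw [Av_const_mul] at h1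
        linarith
      rw [e1, e2]
      have h6 := mul_le_mul_of_nonneg_left (mul_le_mul_of_nonneg_left e3 hk0) hw0
      linarith
    have hsumstep := Finset.sum_le_sum hstep
    refine le_trans ?_ hsumstep
    rw [Finset.sum_neg_distrib, neg_le_neg_iff, ← Av_sum]
    have e4 : Av (fun i => ∑ κ ∈ K, w κ * κ * ind (Dv ρ κ i) * |g2 i|) =
        Av (fun i => |g2 i|) + Av (fun i => (V i - 1) * |g2 i|) := by
      rw [← Av_add]
      congr 1
      funext i
      rw [← Finset.sum_mul]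
      simp only [hVdef]
      ring
    rw [e4]
    have h7 : Av (fun i => |g2 i|) ≤ τ := (Av_abs_le_sqrt g2).trans hg2s
    have h8 : Av (fun i => (V i - 1) * |g2 i|) ≤ Real.sqrt v * τ := by
      refine (Av_mul_le (fun i => V i - 1) (fun i => |g2 i|)).trans ?_
      have h9 : Real.sqrt (Av (fun i => |g2 i| ^ 2)) ≤ τ := by
        simpa only [sq_abs] using hg2s
      have h10 : Real.sqrt (Av (fun i => (V i - 1) ^ 2)) ≤ Real.sqrt v := Real.sqrt_le_sqrt hV2
      exact mul_le_mul h10 h9 (Real.sqrt_nonneg _) (Real.sqrt_nonneg _)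
    linarith
  -- third part
  have hC : -(P.card * Real.sqrt (C3 / L)) ≤
      ∑ κ ∈ K, w κ * ∑ p ∈ P, κ * Av (fun i => ind (Dv ρ κ i) * f i *
        g3 (i + ((κ * p : ℕ) : ZMod N))) := by
    set u : ℕ → ZMod N → ℝ := fun κ i => (∑ p ∈ P, g3 (i + ((κ * p : ℕ) : ZMod N))) / P.card with hu
    have hu2 : ∑ κ ∈ K, Av (fun i => u κ i ^ 2) ≤ C3 := h3
    have hstep : ∀ κ ∈ K, -(P.card * ((w κ * Real.sqrt κ) * Real.sqrt (Av (fun i => u κ i ^ 2)))) ≤
        w κ * ∑ p ∈ P, κ * Av (fun i => ind (Dv ρ κ i) * f i *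
        g3 (i + ((κ * p : ℕ) : ZMod N))) := by
      intro κ hκK
      obtain ⟨hsq, hmod, hdN, hK0, hw0⟩ := hκ κ hκK
      have hkpos : 0 < κ := Nat.pos_of_ne_zero hsq.ne_zero
      have hk0 : (0 : ℝ) < κ := by exact_mod_cast hkpos
      have e1 : ∑ p ∈ P, κ * Av (fun i => ind (Dv ρ κ i) * f i *
          g3 (i + ((κ * p : ℕ) : ZMod N))) =
          P.card * (κ * Av (fun i => ind (Dv ρ κ i) * f i * u κ i)) := by
        rw [← Finset.mul_sum, ← Av_sum]
        have e2 : (fun i => ∑ p ∈ P, ind (Dv ρ κ i) * f i * g3 (i + ((κ * p : ℕ) : ZMod N))) =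
            fun i => (P.card : ℝ) * (ind (Dv ρ κ i) * f i * u κ i) := by
          funext i
          simp only [hu]
          rw [← Finset.mul_sum]
          rw [mul_div_assoc', mul_div_assoc', mul_div_cancel_left₀ _ hPc.ne']
        rw [e2, Av_const_mul]
        ring
      rw [e1]
      have h1 : -Av (fun i => ind (Dv ρ κ i) * f i * u κ i) ≤
          Real.sqrt (1 / κ) * Real.sqrt (Av (fun i => u κ i ^ 2)) := by
        have h2 : -Av (fun i => ind (Dv ρ κ i) * f i * u κ i) =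
            Av (fun i => (-(ind (Dv ρ κ i) * f i)) * u κ i) := by
          rw [← neg_one_mul, ← Av_const_mul]
          congr 1
          funext i
          ring
        rw [h2]
        refine (Av_mul_le (fun i => (-(ind (Dv ρ κ i) * f i))) (fun i => u κ i)).trans ?_
        gcongr
        rw [← Av_Dv (N := N) ρ κ hsq hdN]
        refine Av_mono fun i => ?_
        have h3 := hf i
        have h4 := ind_nonneg (Dv ρ κ i)
        have h5 := ind_le_one (Dv ρ κ i)
        rw [neg_sq, mul_pow]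
        calc ind (Dv ρ κ i) ^ 2 * f i ^ 2 ≤ ind (Dv ρ κ i) ^ 2 * 1 := by
              gcongr
              exact pow_le_one₀ h3.1 h3.2
          _ = ind (Dv ρ κ i) * ind (Dv ρ κ i) := by ring
          _ ≤ ind (Dv ρ κ i) * 1 := by gcongr
          _ = _ := mul_one _
      have h6 : (κ : ℝ) * Real.sqrt (1 / κ) = Real.sqrt κ := by
        rw [Real.sqrt_div (by norm_num), Real.sqrt_one, mul_one_div, Real.div_sqrt]
      have h7 : -(κ * Av (fun i => ind (Dv ρ κ i) * f i * u κ i)) ≤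
          Real.sqrt κ * Real.sqrt (Av (fun i => u κ i ^ 2)) := by
        calc -(κ * Av (fun i => ind (Dv ρ κ i) * f i * u κ i)) =
              κ * (-Av (fun i => ind (Dv ρ κ i) * f i * u κ i)) := by ring
          _ ≤ κ * (Real.sqrt (1 / κ) * Real.sqrt (Av (fun i => u κ i ^ 2))) := by gcongr
          _ = _ := by rw [← mul_assoc, h6]
      have h8 := mul_le_mul_of_nonneg_left (mul_le_mul_of_nonneg_left h7 hPc.le) hw0
      linarith
    have hsumstep := Finset.sum_le_sum hstep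
    refine le_trans ?_ hsumstep
    rw [Finset.sum_neg_distrib, neg_le_neg_iff, ← Finset.mul_sum]
    refine mul_le_mul_of_nonneg_left ?_ hPc.le
    have hcs := Finset.sum_mul_sq_le_sq_mul_sq K (fun κ => w κ * Real.sqrt κ)
      (fun κ => Real.sqrt (Av (fun i => u κ i ^ 2)))
    apply Real.le_sqrt_of_sq_le
    refine hcs.trans ?_
    have h9 : ∑ κ ∈ K, (w κ * Real.sqrt κ) ^ 2 ≤ 1 / L := by
      refine le_trans (le_of_eq ?_) hw2
      refine Finset.sum_congr rfl fun κ _ => ?_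
      rw [mul_pow, Real.sq_sqrt (Nat.cast_nonneg κ)]
    have h10 : ∑ κ ∈ K, (Real.sqrt (Av (fun i => u κ i ^ 2))) ^ 2 ≤ C3 := by
      refine le_trans (le_of_eq ?_) hu2
      refine Finset.sum_congr rfl fun κ _ => ?_
      rw [Real.sq_sqrt (Av_nonneg fun i => sq_nonneg _)]
    calc (∑ κ ∈ K, (w κ * Real.sqrt κ) ^ 2) *
          ∑ κ ∈ K, (Real.sqrt (Av (fun i => u κ i ^ 2))) ^ 2 ≤ 1 / L * C3 := by
          refine mul_le_mul h9 h10 (Finset.sum_nonneg fun _ _ => sq_nonneg _) ?_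
          positivity
      _ = C3 / L := by ring
  -- assemble
  have hsplit : ∑ κ ∈ K, w κ * ∑ p ∈ P, κ * Av (fun i => ind (Dv ρ κ i) * f i *
      g (i + ((κ * p : ℕ) : ZMod N))) =
      ∑ p ∈ P, ∑ κ ∈ K, w κ * (κ * Av (fun i => ind (Dv ρ κ i) * f i *
        g1 (i + ((κ * p : ℕ) : ZMod N)))) +
      ∑ p ∈ P, ∑ κ ∈ K, w κ * (κ * Av (fun i => ind (Dv ρ κ i) * f i *
        g2 (i + ((κ * p : ℕ) : ZMod N)))) +
      ∑ κ ∈ K, w κ * ∑ p ∈ P, κ * Av (fun i => ind (Dv ρ κ i) * f i *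
        g3 (i + ((κ * p : ℕ) : ZMod N))) := by
    rw [Finset.sum_comm (s := P) (t := K), Finset.sum_comm (s := P) (t := K),
      ← Finset.sum_add_distrib, ← Finset.sum_add_distrib]
    refine Finset.sum_congr rfl fun κ _ => ?_
    rw [Finset.mul_sum, Finset.mul_sum, ← Finset.sum_add_distrib, ← Finset.sum_add_distrib]
    refine Finset.sum_congr rfl fun p _ => ?_
    rw [← mul_add, ← mul_add, ← mul_add, ← mul_add, ← Av_add, ← Av_add]
    congr 3
    funext i
    rw [hsum (i + ((κ * p : ℕ) : ZMod N))]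
    ring
  have hA' := Finset.sum_le_sum hA
  have hB' := Finset.sum_le_sum hB
  rw [Finset.sum_add_distrib, Finset.sum_const, nsmul_eq_mul] at hA'
  rw [Finset.sum_const, nsmul_eq_mul] at hB'
  rw [hsplit]
  linarith

end Pool.Agent.OmQ
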