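import Pool.Agent.Lib_MP_f1a94e_q.Defs

/-!
# Many primes in an arbitrary residue class
-/

set_option autoImplicit false

namespace Pool.Agent.OmQ

open Finset LibLS

open Classical in
/-- `1/n` for the primes `n > y`, `n = 1 mod W` -/
noncomputable def fPrH (W h y n : ℕ) : ℝ :=
  if n.Prime ∧ y < n ∧ n % W = h % W then 1 / (n : ℝ) else 0

theorem fPrH_nonneg (W h y n : ℕ) : 0 ≤ fPrH W h y n := by
  unfold fPrH
  split_ifs
  · positivity
  · exact le_rfl

/-- a pointwise bound of the terms of the L-series -/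
theorem term_leH (W : ℕ) (hW : 0 < W) (h y P : ℕ) (hP : y < P) (δ : ℝ) (hδ : 0 < δ) (n : ℕ) :
    ArithmeticFunction.vonMangoldt.residueClass (h : ZMod W) n / (n : ℝ) ^ (1 + δ) ≤
      (if n.Prime then 0 else ArithmeticFunction.vonMangoldt.residueClass (h : ZMod W) n) / n +
        (if n < P then |Real.log n| else fPrH W h y n / δ) := by
  have hH : 0 ≤ (if n < P then |Real.log n| else fPrH W h y n / δ) := by
    split_ifs
    · exact abs_nonneg _
    · exact div_nonneg (fPrH_nonneg W h y n) hδ.le
  rcases Nat.eq_zero_or_pos n with rfl | hn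
  · have h0 : (0 : ℝ) ^ (1 + δ) = 0 := Real.zero_rpow (by linarith)
    have h1 : ((0 : ℕ) : ℝ) ^ (1 + δ) = 0 := by exact_mod_cast h0
    rw [h1]
    simp only [Nat.cast_zero, div_zero, zero_add]
    simpa using hH
  have hnr : (1 : ℝ) ≤ n := by exact_mod_cast hn
  have hnpos : (0 : ℝ) < n := by linarith
  have hrc := ArithmeticFunction.vonMangoldt.residueClass_nonneg (h : ZMod W) n
  have hpow : (n : ℝ) ≤ (n : ℝ) ^ (1 + δ) := by
    calc (n : ℝ) = (n : ℝ) ^ (1 : ℝ) := (Real.rpow_one _).symm
      _ ≤ (n : ℝ) ^ (1 + δ) := Real.rpow_le_rpow_of_exponent_le hnr (by linarith)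
  by_cases hp : n.Prime
  · rw [if_pos hp, zero_div, zero_add]
    have hle : ArithmeticFunction.vonMangoldt.residueClass (h : ZMod W) n ≤ Real.log n := by
      refine (ArithmeticFunction.vonMangoldt.residueClass_le (h : ZMod W) n).trans ?_
      rw [ArithmeticFunction.vonMangoldt_apply_prime hp]
    by_cases hlt : n < P
    · rw [if_pos hlt, div_le_iff₀ (by positivity)]
      have h1 : (1 : ℝ) ≤ (n : ℝ) ^ (1 + δ) := hnr.trans hpow
      calc ArithmeticFunction.vonMangoldt.residueClass (h : ZMod W) n ≤ |Real.log n| :=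
            hle.trans (le_abs_self _)
        _ = |Real.log n| * 1 := (mul_one _).symm
        _ ≤ |Real.log n| * (n : ℝ) ^ (1 + δ) := mul_le_mul_of_nonneg_left h1 (abs_nonneg _)
    · rw [if_neg hlt]
      by_cases hc : n % W = h % W
      · have hf : fPrH W h y n = 1 / (n : ℝ) := by
          unfold fPrH
          rw [if_pos ⟨hp, by omega, hc⟩]
        rw [hf]
        have h2 : Real.log n ≤ (n : ℝ) ^ δ / δ := Real.log_le_rpow_div hnpos.le hδ
        rw [div_le_iff₀ (by positivity)]
        have h3 : 1 / (n : ℝ) / δ * (n : ℝ) ^ (1 + δ) = (n : ℝ) ^ δ / δ := by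
          rw [Real.rpow_add hnpos, Real.rpow_one]
          field_simp
        rw [h3]
        exact hle.trans h2
      · have hz : ArithmeticFunction.vonMangoldt.residueClass (h : ZMod W) n = 0 := by
          apply Set.indicator_of_notMem
          intro hmem
          apply hc
          have h4 : (n : ZMod W) = (h : ZMod W) := hmem
          exact (ZMod.natCast_eq_natCast_iff' n h W).mp h4
        rw [hz, zero_div]
        exact div_nonneg (fPrH_nonneg W h y n) hδ.le
  · rw [if_neg hp]
    have h1 : ArithmeticFunction.vonMangoldt.residueClass (h : ZMod W) n / (n : ℝ) ^ (1 + δ) ≤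
        ArithmeticFunction.vonMangoldt.residueClass (h : ZMod W) n / n :=
      div_le_div_of_nonneg_left hrc hnpos hpow
    linarith

theorem not_summable_fPrH (W : ℕ) (hW : 0 < W) (h : ℕ) (hh : h.Coprime W) (y : ℕ) : ¬ Summable (fPrH W h y) := by
  intro hf
  haveI : NeZero W := ⟨hW.ne'⟩
  obtain ⟨C, hC⟩ := ArithmeticFunction.vonMangoldt.LSeries_residueClass_lower_bound
    (q := W) (a := (h : ZMod W)) ((ZMod.isUnit_iff_coprime h W).2 hh)
  set c : ℝ := (W.totient : ℝ)⁻¹ with hc
  have hcpos : 0 < c := inv_pos.mpr (by exact_mod_cast Nat.totient_pos.mpr hW)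
  -- a small tail
  have htail := tendsto_sum_nat_add (fPrH W h y)
  obtain ⟨P, hPy, hPt⟩ : ∃ P, y < P ∧ ∑' k, fPrH W h y (k + P) < c / 2 := by
    have h1 := (htail.eventually (gt_mem_nhds (show (0 : ℝ) < c / 2 by positivity))).and
      (Filter.eventually_gt_atTop y)
    obtain ⟨P, hP1, hP2⟩ := h1.exists
    exact ⟨P, hP2, hP1⟩
  have hG := ArithmeticFunction.vonMangoldt.summable_residueClass_non_primes_div (h : ZMod W)
  set G : ℝ := ∑' n : ℕ, (if n.Prime then 0 else
    ArithmeticFunction.vonMangoldt.residueClass (h : ZMod W) n) / n with hGdef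
  set A : ℝ := ∑ n ∈ range P, |Real.log n| with hA
  have key : ∀ δ : ℝ, 0 < δ → δ ≤ 1 → c / δ - C ≤ G + (A + (c / 2) / δ) := by
    intro δ hδ hδ1
    have h1 := hC (x := 1 + δ) ⟨by linarith, by linarith⟩
    rw [add_sub_cancel_left] at h1
    refine h1.trans ?_
    set H : ℕ → ℝ := fun n => if n < P then |Real.log n| else fPrH W h y n / δ with hH
    have hHs : Summable H := by
      rw [← summable_nat_add_iff P]
      have h2 : (fun n => H (n + P)) = fun n => fPrH W h y (n + P) / δ := by
        funext n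
        simp [hH]
      rw [h2]
      exact ((summable_nat_add_iff P).mpr hf).div_const δ
    have hHt : ∑' n, H n ≤ A + (c / 2) / δ := by
      rw [← hHs.sum_add_tsum_nat_add P]
      have h2 : (fun n => H (n + P)) = fun n => fPrH W h y (n + P) / δ := by
        funext n
        simp [hH]
      have h3 : ∑ n ∈ range P, H n = A := by
        rw [hA]
        apply sum_congr rfl
        intro n hn
        simp only [hH]
        rw [if_pos (mem_range.mp hn)]
      rw [h3, h2, tsum_div_const]
      have h4 : (∑' n, fPrH W h y (n + P)) / δ ≤ (c / 2) / δ :=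
        div_le_div_of_nonneg_right hPt.le hδ.le
      linarith
    have hterm : ∀ n : ℕ, ArithmeticFunction.vonMangoldt.residueClass (h : ZMod W) n /
        (n : ℝ) ^ (1 + δ) ≤ (if n.Prime then 0 else
          ArithmeticFunction.vonMangoldt.residueClass (h : ZMod W) n) / n + H n :=
      fun n => term_leH W hW h y P hPy δ hδ n
    have hsum := hG.add hHs
    have hs1 : Summable fun n : ℕ => ArithmeticFunction.vonMangoldt.residueClass (h : ZMod W) n /
        (n : ℝ) ^ (1 + δ) :=
      Summable.of_nonneg_of_le (fun n => div_nonneg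
        (ArithmeticFunction.vonMangoldt.residueClass_nonneg _ n) (by positivity)) hterm hsum
    calc ∑' n : ℕ, ArithmeticFunction.vonMangoldt.residueClass (h : ZMod W) n /
          (n : ℝ) ^ (1 + δ)
        ≤ ∑' n : ℕ, ((if n.Prime then 0 else
          ArithmeticFunction.vonMangoldt.residueClass (h : ZMod W) n) / n + H n) :=
          hs1.tsum_le_tsum hterm hsum
      _ = G + ∑' n, H n := hG.tsum_add hHs
      _ ≤ G + (A + (c / 2) / δ) := by linarith
  -- contradiction for small δ
  set D : ℝ := |C + G + A| with hD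
  have hD0 : 0 ≤ D := abs_nonneg _
  set δ : ℝ := min 1 (c / (4 * (D + 1))) with hδd
  have hδ : 0 < δ := lt_min one_pos (by positivity)
  have hδ1 : δ ≤ 1 := min_le_left _ _
  have hδ2 : δ ≤ c / (4 * (D + 1)) := min_le_right _ _
  have h1 := key δ hδ hδ1
  have h2 : (c / 2) / δ ≤ D := by
    have h3 : c / δ = (c / 2) / δ + (c / 2) / δ := by ring
    have h4 : C + G + A ≤ D := le_abs_self _
    linarith
  rw [div_le_iff₀ hδ] at h2
  have h5 : D * δ ≤ D * (c / (4 * (D + 1))) := mul_le_mul_of_nonneg_left hδ2 hD0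
  have h6 : D * (c / (4 * (D + 1))) ≤ c / 4 := by
    rw [mul_div_assoc', div_le_div_iff₀ (by positivity) (by norm_num)]
    nlinarith
  linarith

/-- PRIMES1 -/
theorem primes_cls (W : ℕ) (hW : 0 < W) (h : ℕ) (hh : h.Coprime W) (y : ℕ) (L : ℝ) :
    ∃ S : Finset ℕ, (∀ p ∈ S, p.Prime ∧ y < p ∧ p % W = h % W) ∧ L ≤ ∑ p ∈ S, (1 : ℝ) / p := by
  classical
  by_contra hcon
  push Not at hcon
  apply not_summable_fPrH W hW h hh y
  apply summable_of_sum_le (c := L) (fPrH_nonneg W h y)
  intro u
  have h1 : ∑ n ∈ u, fPrH W h y n =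
      ∑ n ∈ u.filter (fun n => n.Prime ∧ y < n ∧ n % W = h % W), (1 : ℝ) / n := by
    rw [sum_filter]
    apply sum_congr rfl
    intro n _
    unfold fPrH
    congr
  rw [h1]
  exact (hcon _ fun p hp => (mem_filter.mp hp).2).le

end Pool.Agent.OmQ
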