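import Pool.Agent.Lib_MP_f1a94e_aq.KTail

/-!
# Piece RIEM: from intervals to continuous functions
-/

set_option autoImplicit false

namespace Pool.Agent.OmAll

open Finset Pool.Agent.GaussMR Filter

/-- the part of the sum with `s ≤ tt r < t` -/
noncomputable def riemPart (D : ℝ → Finset (ℕ × ℕ)) (f : ℝ → ℝ) (s t x : ℝ) : ℝ :=
  ∑ r ∈ (D x).filter (fun r => s ≤ tt r ∧ tt r < t), f (tt r)

theorem riemPart_add (D : ℝ → Finset (ℕ × ℕ)) (f : ℝ → ℝ) {s t u : ℝ} (hst : s ≤ t) (htu : t ≤ u)
    (x : ℝ) : riemPart D f s t x + riemPart D f t u x = riemPart D f s u x := by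
  unfold riemPart
  rw [← Finset.sum_union]
  · apply Finset.sum_congr _ fun _ _ => rfl
    ext r
    simp only [Finset.mem_union, Finset.mem_filter]
    constructor
    · rintro (⟨h1, h2, h3⟩ | ⟨h1, h2, h3⟩)
      · exact ⟨h1, h2, h3.trans_le htu⟩
      · exact ⟨h1, hst.trans h2, h3⟩
    · rintro ⟨h1, h2, h3⟩
      rcases lt_or_ge (tt r) t with h | h
      · exact Or.inl ⟨h1, h2, h⟩
      · exact Or.inr ⟨h1, h, h3⟩
  · rw [Finset.disjoint_left]
    intro r h1 h2
    rw [Finset.mem_filter] at h1 h2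
    exact absurd h1.2.2 (not_lt.2 h2.2.1)

/-- the sum over a short interval -/
theorem riem_small (D : ℝ → Finset (ℕ × ℕ)) (c : ℝ) (hc0 : 0 ≤ c)
    (hc : ∀ s t : ℝ, s ≤ t → Tendsto (fun x : ℝ =>
      (((D x).filter (fun r => s ≤ tt r ∧ tt r < t)).card : ℝ) / x) atTop (nhds (c * (t - s))))
    (f : ℝ → ℝ) (hf : Continuous f) {s t δ : ℝ} (hst : s < t) (hδ : 0 < δ)
    (h : ∀ u ∈ Set.Icc s t, |f u - f s| ≤ δ) :
    ∀ᶠ x in atTop, |riemPart D f s t x / x - c * ∫ u in s..t, f u| ≤
      (2 * c + 2) * δ * (t - s) := by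
  have hts : 0 < t - s := sub_pos.2 hst
  have h1 := hc s t hst.le
  have h2 : Tendsto (fun x : ℝ =>
      f s * ((((D x).filter (fun r => s ≤ tt r ∧ tt r < t)).card : ℝ) / x - c * (t - s))) atTop
      (nhds 0) := by
    have := (h1.sub_const (c * (t - s))).const_mul (f s)
    rwa [sub_self, mul_zero] at this
  have h3 : ∀ᶠ x in atTop,
      |f s * ((((D x).filter (fun r => s ≤ tt r ∧ tt r < t)).card : ℝ) / x - c * (t - s))| ≤
        δ * (t - s) := by
    have h4 := h2.abs
    rw [abs_zero] at h4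
    exact (h4.eventually_lt_const (mul_pos hδ hts)).mono fun x hx => hx.le
  have h5 : ∀ᶠ x in atTop,
      ((((D x).filter (fun r => s ≤ tt r ∧ tt r < t)).card : ℝ) / x) ≤ (c + 1) * (t - s) := by
    refine (h1.eventually_lt_const ?_).mono fun x hx => hx.le
    nlinarith
  have h6 : |f s * (t - s) - ∫ u in s..t, f u| ≤ δ * (t - s) := by
    have h7 : f s * (t - s) = ∫ _u in s..t, f s := by
      rw [intervalIntegral.integral_const, smul_eq_mul, mul_comm]
    rw [h7, ← intervalIntegral.integral_sub (continuous_const.intervalIntegrable _ _)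
      (hf.intervalIntegrable _ _)]
    have h8 := intervalIntegral.norm_integral_le_of_norm_le_const (a := s) (b := t)
      (f := fun u => f s - f u) (C := δ) (by
        intro u hu
        rw [Set.uIoc_of_le hst.le] at hu
        rw [Real.norm_eq_abs, abs_sub_comm]
        exact h u ⟨hu.1.le, hu.2⟩)
    rw [abs_of_pos hts] at h8
    exact h8
  filter_upwards [h3, h5, eventually_gt_atTop 0] with x hx3 hx5 hx0
  have h9 : |riemPart D f s t x -
      f s * (((D x).filter (fun r => s ≤ tt r ∧ tt r < t)).card : ℝ)| ≤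
      δ * (((D x).filter (fun r => s ≤ tt r ∧ tt r < t)).card : ℝ) := by
    have e : riemPart D f s t x -
        f s * (((D x).filter (fun r => s ≤ tt r ∧ tt r < t)).card : ℝ) =
        ∑ r ∈ (D x).filter (fun r => s ≤ tt r ∧ tt r < t), (f (tt r) - f s) := by
      unfold riemPart
      rw [Finset.sum_sub_distrib, Finset.sum_const, nsmul_eq_mul, mul_comm (f s)]
    rw [e]
    refine (Finset.abs_sum_le_sum_abs _ _).trans ?_
    have := Finset.sum_le_card_nsmul ((D x).filter (fun r => s ≤ tt r ∧ tt r < t))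
      (fun r => |f (tt r) - f s|) δ (by
        intro r hr
        rw [Finset.mem_filter] at hr
        exact h _ ⟨hr.2.1, hr.2.2.le⟩)
    rw [nsmul_eq_mul, mul_comm] at this
    exact this
  have h10 : |riemPart D f s t x / x -
      f s * ((((D x).filter (fun r => s ≤ tt r ∧ tt r < t)).card : ℝ) / x)| ≤
      δ * ((c + 1) * (t - s)) := by
    have e : riemPart D f s t x / x -
        f s * ((((D x).filter (fun r => s ≤ tt r ∧ tt r < t)).card : ℝ) / x) =
        (riemPart D f s t x -
          f s * (((D x).filter (fun r => s ≤ tt r ∧ tt r < t)).card : ℝ)) / x := by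
      field_simp
    rw [e, abs_div, abs_of_pos hx0, div_le_iff₀ hx0]
    refine h9.trans ?_
    rw [div_le_iff₀ hx0] at hx5
    calc δ * (((D x).filter (fun r => s ≤ tt r ∧ tt r < t)).card : ℝ)
        ≤ δ * ((c + 1) * (t - s) * x) := mul_le_mul_of_nonneg_left hx5 hδ.le
      _ = δ * ((c + 1) * (t - s)) * x := by ring
  have h11 : |c * (f s * (t - s) - ∫ u in s..t, f u)| ≤ c * (δ * (t - s)) := by
    rw [abs_mul, abs_of_nonneg hc0]
    exact mul_le_mul_of_nonneg_left h6 hc0
  have e : riemPart D f s t x / x - c * ∫ u in s..t, f u =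
      (riemPart D f s t x / x -
        f s * ((((D x).filter (fun r => s ≤ tt r ∧ tt r < t)).card : ℝ) / x)) +
      (f s * ((((D x).filter (fun r => s ≤ tt r ∧ tt r < t)).card : ℝ) / x - c * (t - s))) +
      c * (f s * (t - s) - ∫ u in s..t, f u) := by ring
  rw [e]
  have h12 := abs_add_le (riemPart D f s t x / x -
        f s * ((((D x).filter (fun r => s ≤ tt r ∧ tt r < t)).card : ℝ) / x) +
      (f s * ((((D x).filter (fun r => s ≤ tt r ∧ tt r < t)).card : ℝ) / x - c * (t - s))))
      (c * (f s * (t - s) - ∫ u in s..t, f u))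
  have h13 := abs_add_le (riemPart D f s t x / x -
        f s * ((((D x).filter (fun r => s ≤ tt r ∧ tt r < t)).card : ℝ) / x))
      (f s * ((((D x).filter (fun r => s ≤ tt r ∧ tt r < t)).card : ℝ) / x - c * (t - s)))
  nlinarith

/-- the sum over a compact interval -/
theorem riem_mid (D : ℝ → Finset (ℕ × ℕ)) (c : ℝ) (hc0 : 0 ≤ c)
    (hc : ∀ s t : ℝ, s ≤ t → Tendsto (fun x : ℝ =>
      (((D x).filter (fun r => s ≤ tt r ∧ tt r < t)).card : ℝ) / x) atTop (nhds (c * (t - s))))
    (f : ℝ → ℝ) (hf : Continuous f) {A δ : ℝ} (hA : 0 < A) (hδ : 0 < δ) :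
    ∀ᶠ x in atTop, |riemPart D f (-A) A x / x - c * ∫ u in (-A)..A, f u| ≤
      (2 * c + 2) * δ * (2 * A) := by
  have huc := isCompact_Icc.uniformContinuousOn_of_continuous
    (hf.continuousOn (s := Set.Icc (-A) A))
  rw [Metric.uniformContinuousOn_iff] at huc
  obtain ⟨ρ, hρ, huc⟩ := huc δ hδ
  obtain ⟨N, hN⟩ := exists_nat_gt (2 * A / ρ)
  have hN0 : (0 : ℝ) < N := lt_of_le_of_lt (by positivity) hN
  have hNpos : 0 < N := by exact_mod_cast hN0
  obtain ⟨h, hhdef⟩ : ∃ h, h = 2 * A / N := ⟨_, rfl⟩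
  have hh0 : 0 < h := by rw [hhdef]; positivity
  have hhρ : h < ρ := by
    rw [hhdef, div_lt_iff₀ hN0]
    rw [div_lt_iff₀ hρ] at hN
    linarith
  have hNh : N * h = 2 * A := by
    rw [hhdef]
    field_simp
  have key : ∀ n : ℕ, n ≤ N → ∀ᶠ x in atTop,
      |riemPart D f (-A) (-A + n * h) x / x - c * ∫ u in (-A)..(-A + n * h), f u| ≤
        (2 * c + 2) * δ * (n * h) := by
    intro n
    induction n with
    | zero =>
      intro _
      refine Eventually.of_forall fun x => ?_
      have e1 : (-A + ((0 : ℕ) : ℝ) * h) = -A := by simp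
      have e2 : riemPart D f (-A) (-A) x = 0 := by
        unfold riemPart
        apply Finset.sum_eq_zero
        intro r hr
        rw [Finset.mem_filter] at hr
        exact absurd hr.2.2 (not_lt.2 hr.2.1)
      rw [e1, e2, intervalIntegral.integral_same]
      simp
    | succ n ih =>
      intro hn
      have ih' := ih (by omega)
      have hnN : ((n : ℝ) + 1) * h ≤ 2 * A := by
        rw [← hNh]
        have : ((n + 1 : ℕ) : ℝ) ≤ (N : ℝ) := by exact_mod_cast hn
        push_cast at this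
        exact mul_le_mul_of_nonneg_right this hh0.le
      have hnh : 0 ≤ (n : ℝ) * h := by positivity
      have hsmall := riem_small D c hc0 hc f hf (s := -A + n * h) (t := -A + ((n + 1 : ℕ) : ℝ) * h)
        (δ := δ) (by push_cast; nlinarith) hδ (by
          intro u hu
          push_cast at hu
          have h1 : u ∈ Set.Icc (-A) A := ⟨by linarith [hu.1], by linarith [hu.2]⟩
          have h2 : (-A + (n : ℝ) * h) ∈ Set.Icc (-A) A := ⟨by linarith, by nlinarith⟩
          have h3 : dist u (-A + (n : ℝ) * h) < ρ := by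
            rw [Real.dist_eq, abs_of_nonneg (by linarith [hu.1])]
            nlinarith [hu.2]
          have := huc u h1 _ h2 h3
          rw [Real.dist_eq] at this
          exact this.le)
      filter_upwards [ih', hsmall] with x hx1 hx2
      have e1 := riemPart_add D f (s := -A) (t := -A + n * h)
        (u := -A + ((n + 1 : ℕ) : ℝ) * h) (by linarith) (by push_cast; nlinarith) x
      have e2 := intervalIntegral.integral_add_adjacent_intervals
        (hf.intervalIntegrable (-A) (-A + n * h) (μ := MeasureTheory.volume))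
        (hf.intervalIntegrable (-A + n * h) (-A + ((n + 1 : ℕ) : ℝ) * h)
          (μ := MeasureTheory.volume))
      rw [← e1, ← e2]
      have e3 : (riemPart D f (-A) (-A + n * h) x +
          riemPart D f (-A + n * h) (-A + ((n + 1 : ℕ) : ℝ) * h) x) / x -
          c * ((∫ u in (-A)..(-A + n * h), f u) +
            ∫ u in (-A + n * h)..(-A + ((n + 1 : ℕ) : ℝ) * h), f u) =
          (riemPart D f (-A) (-A + n * h) x / x - c * ∫ u in (-A)..(-A + n * h), f u) +
          (riemPart D f (-A + n * h) (-A + ((n + 1 : ℕ) : ℝ) * h) x / x -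
            c * ∫ u in (-A + n * h)..(-A + ((n + 1 : ℕ) : ℝ) * h), f u) := by ring
      rw [e3]
      refine (abs_add_le _ _).trans ?_
      refine (add_le_add hx1 hx2).trans (le_of_eq ?_)
      push_cast
      ring
  have h1 := key N le_rfl
  have e1 : (-A + (N : ℝ) * h) = A := by
    rw [hNh]
    ring
  rw [e1, hNh] at h1
  exact h1

/-- Riemann sums. Given `η > 0` choose `A` with `∫_(|t| > A) |f| ≤ η` and `∑_(r ∈ pd x, |tt r| ≥ A) |f (tt r)| ≤ B C x / A ≤ η x` (`sq_tail`,
`1/(1+t^2) ≤ 1/t^2`), a step function on `[-A, A)` with finitely many half open intervals on which `f` varies by at most `η / A` (uniform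
continuity); use the hypothesis on each interval and on `[-A, A)` (for the error of the step function). -/
theorem riem (D : ℝ → Finset (ℕ × ℕ)) (hD : ∀ x, D x ⊆ pd x) (c : ℝ)
    (hc : ∀ s t : ℝ, s ≤ t → Tendsto (fun x : ℝ =>
      (((D x).filter (fun r => s ≤ tt r ∧ tt r < t)).card : ℝ) / x) atTop (nhds (c * (t - s))))
    (f : ℝ → ℝ) (hf : Continuous f) (B : ℝ) (hB : ∀ t, |f t| ≤ B / (1 + t ^ 2)) :
    Tendsto (fun x : ℝ => (∑ r ∈ D x, f (tt r)) / x) atTop (nhds (c * ∫ t, f t)) := by
  have hc0 : 0 ≤ c := by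
    have h1 := hc 0 1 zero_le_one
    rw [sub_zero, mul_one] at h1
    exact ge_of_tendsto h1 ((eventually_gt_atTop (0 : ℝ)).mono fun x hx => by positivity)
  have hB0 : 0 ≤ B := by
    have := (abs_nonneg _).trans (hB 0)
    simpa using this
  have hint : MeasureTheory.Integrable f := by
    refine MeasureTheory.Integrable.mono' (integrable_inv_one_add_sq.const_mul B)
      hf.aestronglyMeasurable (Eventually.of_forall fun t => ?_)
    rw [Real.norm_eq_abs]
    have := hB t
    rwa [div_eq_mul_inv] at this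
  obtain ⟨C, hC, htail⟩ := sq_tail
  rw [Metric.tendsto_atTop]
  intro ε hε
  -- choice of `A`
  have hlim : Tendsto (fun A : ℝ => c * ∫ t in (-A)..A, f t) atTop (nhds (c * ∫ t, f t)) :=
    (MeasureTheory.intervalIntegral_tendsto_integral hint tendsto_neg_atTop_atBot
      tendsto_id).const_mul c
  have hA1 : ∀ᶠ A : ℝ in atTop, |c * (∫ t in (-A)..A, f t) - c * ∫ t, f t| < ε / 4 := by
    have := Metric.tendsto_nhds.1 hlim (ε / 4) (by linarith)
    exact this.mono fun A hA => by rwa [Real.dist_eq] at hA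
  obtain ⟨A, hA2, hA3⟩ := (hA1.and (eventually_ge_atTop (max 1 (4 * B * C / ε)))).exists
  have hA0 : 0 < A := lt_of_lt_of_le one_pos ((le_max_left _ _).trans hA3)
  have hAB : B * (C / A) ≤ ε / 4 := by
    have h1 : 4 * B * C / ε ≤ A := (le_max_right _ _).trans hA3
    rw [div_le_iff₀ hε] at h1
    rw [← mul_div_assoc, div_le_iff₀ hA0]
    nlinarith
  obtain ⟨δ, hδ0, hδ⟩ : ∃ δ : ℝ, 0 < δ ∧ (2 * c + 2) * δ * (2 * A) ≤ ε / 4 := by
    refine ⟨ε / 4 / ((2 * c + 2) * (2 * A)), by positivity, le_of_eq ?_⟩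
    field_simp
  have hmid := riem_mid D c hc0 hc f hf hA0 hδ0
  obtain ⟨x0, hx0⟩ := eventually_atTop.1 (hmid.and (eventually_ge_atTop (1 : ℝ)))
  refine ⟨x0, fun x hx => ?_⟩
  obtain ⟨hx1, hx2⟩ := hx0 x hx
  have hxpos : 0 < x := by linarith
  -- the tail
  have hsplit : ∑ r ∈ D x, f (tt r) = riemPart D f (-A) A x +
      ∑ r ∈ (D x).filter (fun r => ¬ (-A ≤ tt r ∧ tt r < A)), f (tt r) := by
    unfold riemPart
    rw [Finset.sum_filter_add_sum_filter_not]
  have htl : |∑ r ∈ (D x).filter (fun r => ¬ (-A ≤ tt r ∧ tt r < A)), f (tt r)| ≤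
      B * (C / A) * x := by
    refine (Finset.abs_sum_le_sum_abs _ _).trans ?_
    have h1 : ∀ r ∈ (D x).filter (fun r => ¬ (-A ≤ tt r ∧ tt r < A)),
        |f (tt r)| ≤ B * (1 / (tt r) ^ 2) := by
      intro r hr
      rw [Finset.mem_filter] at hr
      have h2 : A ≤ |tt r| := by
        by_contra hlt
        push Not at hlt
        have := abs_lt.1 hlt
        exact hr.2 ⟨this.1.le, this.2⟩
      have h3 : 0 < (tt r) ^ 2 := by
        rw [← sq_abs]
        have : 0 < |tt r| := hA0.trans_le h2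
        positivity
      refine (hB _).trans ?_
      rw [mul_one_div]
      apply div_le_div_of_nonneg_left hB0 h3
      linarith
    refine (Finset.sum_le_sum h1).trans ?_
    rw [← Finset.mul_sum, mul_assoc]
    apply mul_le_mul_of_nonneg_left _ hB0
    refine le_trans ?_ (htail A hA0 x hx2)
    apply Finset.sum_le_sum_of_subset_of_nonneg
    · intro r hr
      rw [Finset.mem_filter] at hr ⊢
      refine ⟨hD x hr.1, ?_⟩
      by_contra hlt
      push Not at hlt
      have := abs_lt.1 hlt
      exact hr.2 ⟨this.1.le, this.2⟩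
    · intro r _ _
      positivity
  have htl' : |(∑ r ∈ (D x).filter (fun r => ¬ (-A ≤ tt r ∧ tt r < A)), f (tt r)) / x| ≤
      ε / 4 := by
    rw [abs_div, abs_of_pos hxpos, div_le_iff₀ hxpos]
    exact htl.trans (mul_le_mul_of_nonneg_right hAB hxpos.le)
  rw [Real.dist_eq, hsplit, add_div]
  have e : riemPart D f (-A) A x / x +
      (∑ r ∈ (D x).filter (fun r => ¬ (-A ≤ tt r ∧ tt r < A)), f (tt r)) / x - c * ∫ t, f t =
      (riemPart D f (-A) A x / x - c * ∫ t in (-A)..A, f t) +
      ((∑ r ∈ (D x).filter (fun r => ¬ (-A ≤ tt r ∧ tt r < A)), f (tt r)) / x) +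
      (c * (∫ t in (-A)..A, f t) - c * ∫ t, f t) := by ring
  rw [e]
  have h1 := abs_add_le ((riemPart D f (-A) A x / x - c * ∫ t in (-A)..A, f t) +
      ((∑ r ∈ (D x).filter (fun r => ¬ (-A ≤ tt r ∧ tt r < A)), f (tt r)) / x))
      (c * (∫ t in (-A)..A, f t) - c * ∫ t, f t)
  have h2 := abs_add_le (riemPart D f (-A) A x / x - c * ∫ t in (-A)..A, f t)
      ((∑ r ∈ (D x).filter (fun r => ¬ (-A ≤ tt r ∧ tt r < A)), f (tt r)) / x)
  have h3 := hx1.trans hδ
  linarith

end Pool.Agent.OmAll
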