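import Pool.Agent.Lib_MP_f1a94e_aq.Defs

/-!
# Piece ZEULER: Euler products near the line 1
-/

set_option autoImplicit false

namespace Pool.Agent.OmAll

namespace ZEuler

open Complex

theorem norm_term_le {N : ℕ} (χ : DirichletCharacter ℂ N) {s : ℂ} (p : Nat.Primes) :
    ‖χ p * (p : ℂ) ^ (-s)‖ ≤ ((p : ℕ) : ℝ) ^ (-s.re) := by
  rw [norm_mul]
  have h1 : ‖χ (p : ZMod N)‖ ≤ 1 := χ.norm_le_one _
  have h2 : ‖((p : ℕ) : ℂ) ^ (-s)‖ = ((p : ℕ) : ℝ) ^ (-s.re) := by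
    rw [Complex.norm_natCast_cpow_of_pos p.2.pos, Complex.neg_re]
  rw [h2]
  have h3 : (0 : ℝ) ≤ ((p : ℕ) : ℝ) ^ (-s.re) := by positivity
  nlinarith

theorem rpow_le {s : ℂ} (hs : 1 < s.re) (p : Nat.Primes) :
    ((p : ℕ) : ℝ) ^ (-s.re) ≤ 1 / ((p : ℕ) : ℝ) := by
  have hp : (1 : ℝ) ≤ ((p : ℕ) : ℝ) := by exact_mod_cast p.2.one_lt.le
  rw [one_div, ← Real.rpow_neg_one]
  exact Real.rpow_le_rpow_of_exponent_le hp (by linarith)

theorem key {N : ℕ} (χ : DirichletCharacter ℂ N) {s : ℂ} (hs : 1 < s.re) :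
    ∑' p : Nat.Primes, (χ p * (p : ℂ) ^ (-s)).re ≤
      Real.log ‖LSeries (χ ·) s‖ + ∑' n : ℕ, 1 / (n : ℝ) ^ 2 := by
  have H := DirichletCharacter.summable_neg_log_one_sub_mul_prime_cpow χ hs
  have hz : ∀ p : Nat.Primes, ‖χ p * (p : ℂ) ^ (-s)‖ ≤ 1 / 2 := by
    intro p
    refine (norm_term_le χ p).trans ((rpow_le hs p).trans ?_)
    have hp : (2 : ℝ) ≤ ((p : ℕ) : ℝ) := by exact_mod_cast p.2.two_le
    exact one_div_le_one_div_of_le (by norm_num) hp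
  have e1 : Real.log ‖LSeries (χ ·) s‖ = ∑' p : Nat.Primes, (-log (1 - χ p * (p : ℂ) ^ (-s))).re := by
    rw [← DirichletCharacter.LSeries_eulerProduct_exp_log χ hs, Complex.norm_exp, Real.log_exp,
      re_tsum H]
  have hs2 : Summable fun n : ℕ => 1 / (n : ℝ) ^ 2 := Real.summable_one_div_nat_pow.2 (by norm_num)
  have hs3 : Summable fun p : Nat.Primes => 1 / ((p : ℕ) : ℝ) ^ 2 := hs2.subtype _
  have hs1 : Summable fun p : Nat.Primes => (-log (1 - χ p * (p : ℂ) ^ (-s))).re :=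
    (hasSum_re H.hasSum).summable
  have hsz : Summable fun p : Nat.Primes => (χ p * (p : ℂ) ^ (-s)).re := by
    have h1 : Summable fun p : Nat.Primes => ((p : ℕ) : ℝ) ^ (-s.re) :=
      Nat.Primes.summable_rpow.2 (by linarith)
    refine Summable.of_norm_bounded h1 fun p => ?_
    exact (Complex.abs_re_le_norm _).trans (norm_term_le χ p)
  have hle : ∑' p : Nat.Primes, 1 / ((p : ℕ) : ℝ) ^ 2 ≤ ∑' n : ℕ, 1 / (n : ℝ) ^ 2 :=
    hs2.tsum_subtype_le (fun n : ℕ => 1 / (n : ℝ) ^ 2) _ (fun n => by positivity)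
  calc ∑' p : Nat.Primes, (χ p * (p : ℂ) ^ (-s)).re
      ≤ ∑' p : Nat.Primes, ((-log (1 - χ p * (p : ℂ) ^ (-s))).re + 1 / ((p : ℕ) : ℝ) ^ 2) := by
        refine hsz.tsum_le_tsum (fun p => ?_) (hs1.add hs3)
        set z := χ p * (p : ℂ) ^ (-s) with hzdef
        have h1 : ‖log (1 - z)⁻¹ - z‖ ≤ ‖z‖ ^ 2 * (1 - ‖z‖)⁻¹ / 2 :=
          Complex.norm_log_one_sub_inv_sub_self_le (lt_of_le_of_lt (hz p) (by norm_num))
        have h2 : log (1 - z)⁻¹ = -log (1 - z) := by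
          rw [Complex.log_inv]
          intro harg
          have h3 : (1 - z).re < 0 ∧ (1 - z).im = 0 := Complex.arg_eq_pi_iff.1 harg
          have h4 : z.re ≤ ‖z‖ := Complex.re_le_norm z
          have h5 := hz p
          have h6 := h3.1
          rw [Complex.sub_re, Complex.one_re] at h6
          linarith
        rw [h2] at h1
        have h3 : (1 - ‖z‖)⁻¹ ≤ 2 := by
          rw [inv_le_comm₀ (by linarith [hz p]) (by norm_num)]
          linarith [hz p]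
        have h4 : ‖z‖ ^ 2 * (1 - ‖z‖)⁻¹ / 2 ≤ ‖z‖ ^ 2 := by
          have := mul_le_mul_of_nonneg_left h3 (sq_nonneg ‖z‖)
          linarith
        have h5 : ‖z‖ ^ 2 ≤ 1 / ((p : ℕ) : ℝ) ^ 2 := by
          have h6 : ‖z‖ ≤ 1 / ((p : ℕ) : ℝ) := (norm_term_le χ p).trans (rpow_le hs p)
          have h7 := pow_le_pow_left₀ (norm_nonneg z) h6 2
          rwa [div_pow, one_pow] at h7
        have h6 : -(-log (1 - z) - z).re ≤ ‖-log (1 - z) - z‖ := by
          rw [← norm_neg, ← Complex.neg_re]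
          exact Complex.re_le_norm _
        rw [Complex.sub_re] at h6
        linarith
    _ = Real.log ‖LSeries (χ ·) s‖ + ∑' p : Nat.Primes, 1 / ((p : ℕ) : ℝ) ^ 2 := by
        rw [hs1.tsum_add hs3, e1]
    _ ≤ _ := by linarith

theorem tsum_ite (f : ℕ → ℝ) :
    ∑' p : ℕ, (if p.Prime then f p else 0) = ∑' p : Nat.Primes, f p := by
  have h := tsum_subtype {p : ℕ | p.Prime} f
  rw [show (∑' p : Nat.Primes, f p) = ∑' x : ↑{p : ℕ | p.Prime}, f ↑x from rfl, h]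
  apply tsum_congr
  intro p
  rw [Set.indicator_apply]
  rfl

theorem re_cpow (p : ℕ) (hp : 0 < p) (δ t : ℝ) :
    ((p : ℂ) ^ (-((1 + δ : ℝ) + (t : ℂ) * I))).re = Real.cos (t * Real.log p) / (p : ℝ) ^ (1 + δ) := by
  have hp' : (p : ℂ) ≠ 0 := by exact_mod_cast hp.ne'
  have hpr : (0 : ℝ) < (p : ℝ) := by exact_mod_cast hp
  rw [Complex.cpow_def_of_ne_zero hp']
  have h1 : Complex.log (p : ℂ) = ((Real.log p : ℝ) : ℂ) := by
    rw [Complex.natCast_log]
  rw [h1]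
  have h2 : ((Real.log p : ℝ) : ℂ) * (-((1 + δ : ℝ) + (t : ℂ) * I)) =
      ((-(Real.log p * (1 + δ)) : ℝ) : ℂ) + ((-(t * Real.log p) : ℝ) : ℂ) * I := by
    push_cast
    ring
  rw [h2, Complex.exp_add_mul_I, ← Complex.ofReal_exp, ← Complex.ofReal_cos, ← Complex.ofReal_sin,
    Complex.re_ofReal_mul, Complex.add_re, Complex.ofReal_re, Complex.re_ofReal_mul, Complex.I_re,
    mul_zero, add_zero, Real.cos_neg, Real.rpow_def_of_pos hpr, Real.exp_neg]
  field_simp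

theorem exists_bd {F : ℂ → ℂ} (hF : Continuous F) (N : ℝ) : ∃ B : ℝ, 1 ≤ B ∧
    ∀ δ t : ℝ, 0 ≤ δ → δ ≤ 1 → |t| ≤ N → ‖F ((1 + δ : ℝ) + (t : ℂ) * I)‖ ≤ B := by
  have hc : Continuous fun q : ℝ × ℝ => F ((1 + q.1 : ℝ) + (q.2 : ℂ) * I) := by
    apply hF.comp
    fun_prop
  obtain ⟨B, hB⟩ := ((isCompact_Icc (a := (0 : ℝ)) (b := 1)).prod
    (isCompact_Icc (a := -N) (b := N))).exists_bound_of_continuousOn hc.continuousOn
  refine ⟨max B 1, le_max_right _ _, fun δ t h1 h2 h3 => (hB (δ, t) ?_).trans (le_max_left _ _)⟩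
  exact ⟨⟨h1, h2⟩, abs_le.1 h3⟩

/-- the character mod 4 with values in `ℂ` -/
noncomputable def ch : DirichletCharacter ℂ 4 := ZMod.χ₄.ringHomComp (Int.castRingHom ℂ)

theorem ch_apply (n : ℕ) : ch (n : ZMod 4) = ((ZMod.χ₄ (n : ZMod 4) : ℤ) : ℂ) := rfl

theorem ch_ne : ch ≠ 1 := by
  intro h
  have h1 : ch ((3 : ℕ) : ZMod 4) = 1 := by
    rw [h]
    apply MulChar.one_apply
    decide
  rw [ch_apply, ZMod.χ₄_nat_three_mod_four (by norm_num)] at h1
  norm_num at h1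

end ZEuler

open ZEuler Complex

/-- `Re ∑_p p^(-s) ≤ log (1/|t|) + C` for `s = 1 + δ + i t`, `0 < δ ≤ 1`, `0 < |t| ≤ N`.
`riemannZeta_eulerProduct_exp_log` (Mathlib.NumberTheory.EulerProduct.DirichletLSeries): `exp (∑' p, -log (1 - p^(-s))) = ζ(s)`, so `∑' Re (-log (1 - p^(-s))) = log |ζ(s)|`;
`|-log (1 - z) - z| ≤ |z|^2` for `|z| ≤ 1/2` and `∑ p^(-2) ≤ 2`. `(s - 1) ζ(s)` extends continuously to the compact set
`1 ≤ Re s ≤ 2`, `|Im s| ≤ N` (`riemannZeta_residue_one`, `differentiableAt_riemannZeta`; or use `Function.update`/`ZetaAsymp`), so is bounded by `e^C`, and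
`|s - 1| ≥ |t|`. -/
theorem zeta_upper (N : ℝ) (hN : 0 < N) : ∃ C : ℝ, ∀ δ t : ℝ, 0 < δ → δ ≤ 1 → 0 < |t| → |t| ≤ N →
    ∑' p : ℕ, (if p.Prime then Real.cos (t * Real.log p) / (p : ℝ) ^ (1 + δ) else 0) ≤
      Real.log (1 / |t|) + C := by
  obtain ⟨B, hB1, hB⟩ := exists_bd
    (DirichletCharacter.differentiable_LFunctionTrivChar₁ 1).continuous N
  refine ⟨Real.log B + ∑' n : ℕ, 1 / (n : ℝ) ^ 2, fun δ t hδ hδ1 ht htN => ?_⟩
  rw [tsum_ite (fun p : ℕ => Real.cos (t * Real.log p) / (p : ℝ) ^ (1 + δ))]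
  set s : ℂ := (1 + δ : ℝ) + (t : ℂ) * I with hsdef
  have hre : s.re = 1 + δ := by simp [hsdef]
  have him : s.im = t := by simp [hsdef]
  have hs : 1 < s.re := by rw [hre]; linarith
  have hs1 : s ≠ 1 := by
    intro h
    rw [h] at hs
    simp at hs
  have h1 := key (1 : DirichletCharacter ℂ 1) hs
  have h2 : ∀ p : Nat.Primes, ((1 : DirichletCharacter ℂ 1) p * (p : ℂ) ^ (-s)).re =
      Real.cos (t * Real.log p) / (p : ℝ) ^ (1 + δ) := by
    intro p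
    rw [MulChar.one_apply (isUnit_of_subsingleton _), one_mul, hsdef]
    exact re_cpow p p.2.pos δ t
  rw [tsum_congr h2, ← DirichletCharacter.LFunction_eq_LSeries _ hs] at h1
  have h3 := hB δ t hδ.le hδ1 htN
  rw [← hsdef, DirichletCharacter.LFunctionTrivChar₁, Function.update_of_ne hs1, norm_mul] at h3
  have h4 : 0 < ‖DirichletCharacter.LFunctionTrivChar 1 s‖ := by
    rw [norm_pos_iff, DirichletCharacter.LFunctionTrivChar,
      DirichletCharacter.LFunction_eq_LSeries _ hs,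
      ← DirichletCharacter.LSeries_eulerProduct_exp_log _ hs]
    exact Complex.exp_ne_zero _
  have h5 : |t| ≤ ‖s - 1‖ := by
    have := Complex.abs_im_le_norm (s - 1)
    rwa [Complex.sub_im, him, Complex.one_im, sub_zero] at this
  have h6 : ‖DirichletCharacter.LFunctionTrivChar 1 s‖ ≤ 1 / |t| * B := by
    rw [one_div_mul_eq_div, le_div_iff₀ ht]
    have := mul_le_mul_of_nonneg_right h5 h4.le
    linarith
  have h7 : Real.log ‖DirichletCharacter.LFunctionTrivChar 1 s‖ ≤ Real.log (1 / |t|) + Real.log B := by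
    rw [← Real.log_mul (by positivity) (by positivity)]
    exact Real.log_le_log h4 h6
  linarith

/-- The same for the character `χ₄` mod 4, without pole: `∑_p χ₄(p) cos (t log p) / p^(1+δ) ≤ C`
(`DirichletCharacter.LSeries_eulerProduct_exp_log`, continuity of `DirichletCharacter.LFunction` on the compact set). `χ₄(p)` is `1` for `p = 1 mod 4`,
`-1` for `p = 3 mod 4`, `0` for `p = 2`; as a real number `(ZMod.χ₄ (p : ZMod 4) : ℝ)`. -/
theorem chi_upper (N : ℝ) (hN : 0 < N) : ∃ C : ℝ, ∀ δ t : ℝ, 0 < δ → δ ≤ 1 → |t| ≤ N →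
    ∑' p : ℕ, (if p.Prime then (ZMod.χ₄ (p : ZMod 4) : ℝ) * Real.cos (t * Real.log p) / (p : ℝ) ^ (1 + δ) else 0) ≤
      C := by
  obtain ⟨B, hB1, hB⟩ := exists_bd (DirichletCharacter.differentiable_LFunction ch_ne).continuous N
  refine ⟨Real.log B + ∑' n : ℕ, 1 / (n : ℝ) ^ 2, fun δ t hδ hδ1 htN => ?_⟩
  rw [tsum_ite (fun p : ℕ => (ZMod.χ₄ (p : ZMod 4) : ℝ) * Real.cos (t * Real.log p) /
    (p : ℝ) ^ (1 + δ))]
  set s : ℂ := (1 + δ : ℝ) + (t : ℂ) * I with hsdef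
  have hre : s.re = 1 + δ := by simp [hsdef]
  have hs : 1 < s.re := by rw [hre]; linarith
  have h1 := key ch hs
  have h2 : ∀ p : Nat.Primes, (ch p * (p : ℂ) ^ (-s)).re =
      (ZMod.χ₄ ((p : ℕ) : ZMod 4) : ℝ) * Real.cos (t * Real.log p) / (p : ℝ) ^ (1 + δ) := by
    intro p
    have h3 : ch ((p : ℕ) : ZMod 4) = (((ZMod.χ₄ ((p : ℕ) : ZMod 4) : ℤ) : ℝ) : ℂ) := by
      rw [ch_apply, Complex.ofReal_intCast]
    rw [h3, Complex.re_ofReal_mul, hsdef, re_cpow p p.2.pos δ t, mul_div_assoc]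
  rw [tsum_congr h2, ← DirichletCharacter.LFunction_eq_LSeries _ hs] at h1
  have h3 := hB δ t hδ.le hδ1 htN
  rw [← hsdef] at h3
  have h4 : 0 < ‖DirichletCharacter.LFunction ch s‖ := by
    rw [norm_pos_iff, DirichletCharacter.LFunction_eq_LSeries _ hs,
      ← DirichletCharacter.LSeries_eulerProduct_exp_log _ hs]
    exact Complex.exp_ne_zero _
  have h7 : Real.log ‖DirichletCharacter.LFunction ch s‖ ≤ Real.log B := Real.log_le_log h4 h3
  linarith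

end Pool.Agent.OmAll
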