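import Pool.Agent.Lib_MP_f1a94e_aq.ZSmooth
import Pool.Agent.Lib_MP_f1a94e_aq.ZEuler

/-!
# Piece ZSUM: the oscillating sum over primes `1 mod 4` and the Euler product
-/

set_option autoImplicit false

namespace Pool.Agent.OmAll

open Finset

/-- `1[p = 1 mod 4] = (1 + χ₄(p)) / 2` for odd `p` (`p = 2` costs `O(1)`); `smooth_cut` with `f p = cos (2 τ log p)`,
`zeta_upper` and `chi_upper` with `δ = 1 / log T`, `t = 2 τ`. -/
theorem zsum (N : ℝ) (hN : 0 < N) : ∃ C : ℝ, ∀ T : ℕ, 3 ≤ T → ∀ τ : ℝ, 0 < |τ| → |τ| ≤ N →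
    ∑ p ∈ PT T, Real.cos (2 * τ * Real.log p) / p ≤ Real.log (1 / |τ|) / 2 + C := by
  obtain ⟨C1, h1⟩ := smooth_cut
  obtain ⟨C2, h2⟩ := zeta_upper (2 * N) (by linarith)
  obtain ⟨C3, h3⟩ := chi_upper (2 * N) (by linarith)
  refine ⟨C1 + C2 / 2 + C3 / 2 + 1 / 2, fun T hT τ hτ hτN => ?_⟩
  have hL := ZSm.one_le_logT hT
  set L := Real.log T with hLdef
  have hδ0 : 0 < 1 / L := by positivity
  have hδ1 : 1 / L ≤ 1 := by
    rw [div_le_one (by linarith)]
    exact hL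
  have habs : |2 * τ| = 2 * |τ| := by
    rw [abs_mul, abs_of_pos (by norm_num : (0 : ℝ) < 2)]
  have h1' := (h1 T hT (fun p => Real.cos (2 * τ * Real.log p)) (fun p => Real.abs_cos_le_one _)).2
  have h2' := h2 (1 / L) (2 * τ) hδ0 hδ1 (by rw [habs]; linarith) (by rw [habs]; linarith)
  have h3' := h3 (1 / L) (2 * τ) hδ0 hδ1 (by rw [habs]; linarith)
  rw [← hLdef] at h1'
  set s := 1 + 1 / L with hs
  have hsum1 : Summable (fun p : ℕ => 1 / (p : ℝ) ^ s) :=
    Real.summable_one_div_nat_rpow.mpr (by linarith)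
  have hb : ∀ (p : ℕ) (c : ℝ), |c| ≤ 1 →
      ‖(if p.Prime then c / (p : ℝ) ^ s else 0 : ℝ)‖ ≤ 1 / (p : ℝ) ^ s := by
    intro p c hc
    split_ifs
    · rw [norm_div, Real.norm_eq_abs, Real.norm_of_nonneg (by positivity)]
      exact div_le_div_of_nonneg_right hc (by positivity)
    · rw [norm_zero]
      positivity
  have hA : Summable (fun p : ℕ => if p.Prime then Real.cos (2 * τ * Real.log p) / (p : ℝ) ^ s
      else 0) :=
    Summable.of_norm_bounded hsum1 (fun p => hb p _ (Real.abs_cos_le_one _))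
  have hchi : ∀ p : ℕ, p.Prime → p % 4 = 1 ∧ (ZMod.χ₄ (p : ZMod 4) : ℝ) = 1 ∨
      p % 4 = 3 ∧ (ZMod.χ₄ (p : ZMod 4) : ℝ) = -1 ∨ p = 2 ∧ (ZMod.χ₄ (p : ZMod 4) : ℝ) = 0 := by
    intro p hp
    rcases hp.eq_two_or_odd with h | h
    · refine Or.inr (Or.inr ⟨h, ?_⟩)
      rw [h, ZMod.χ₄_nat_eq_if_mod_four]
      simp
    · have h4 : p % 4 = 1 ∨ p % 4 = 3 := by omega
      rcases h4 with h4 | h4
      · refine Or.inl ⟨h4, ?_⟩
        rw [ZMod.χ₄_nat_one_mod_four h4]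
        simp
      · refine Or.inr (Or.inl ⟨h4, ?_⟩)
        rw [ZMod.χ₄_nat_three_mod_four h4]
        simp
  have hB : Summable (fun p : ℕ => if p.Prime then
      (ZMod.χ₄ (p : ZMod 4) : ℝ) * Real.cos (2 * τ * Real.log p) / (p : ℝ) ^ s else 0) := by
    refine Summable.of_norm_bounded hsum1 (fun p => ?_)
    by_cases hp : p.Prime
    · apply hb p
      rw [abs_mul]
      have h5 : |(ZMod.χ₄ (p : ZMod 4) : ℝ)| ≤ 1 := by
        rcases hchi p hp with ⟨-, h⟩ | ⟨-, h⟩ | ⟨-, h⟩ <;> rw [h] <;> norm_num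
      calc |(ZMod.χ₄ (p : ZMod 4) : ℝ)| * |Real.cos (2 * τ * Real.log p)|
          ≤ 1 * 1 := mul_le_mul h5 (Real.abs_cos_le_one _) (abs_nonneg _) zero_le_one
        _ = 1 := one_mul 1
    · rw [if_neg hp, norm_zero]
      positivity
  have hC : HasSum (fun p : ℕ => if p = 2 then Real.cos (2 * τ * Real.log 2) / (2 : ℝ) ^ s / 2
      else 0) (Real.cos (2 * τ * Real.log 2) / (2 : ℝ) ^ s / 2) :=
    hasSum_ite_eq 2 _
  have hid : ∀ p : ℕ, (if p.Prime ∧ p % 4 = 1 then Real.cos (2 * τ * Real.log p) / (p : ℝ) ^ s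
      else 0) = ((if p.Prime then Real.cos (2 * τ * Real.log p) / (p : ℝ) ^ s else 0) / 2 +
      (if p.Prime then
      (ZMod.χ₄ (p : ZMod 4) : ℝ) * Real.cos (2 * τ * Real.log p) / (p : ℝ) ^ s else 0) / 2) -
      (if p = 2 then Real.cos (2 * τ * Real.log 2) / (2 : ℝ) ^ s / 2 else 0) := by
    intro p
    by_cases hp : p.Prime
    · rcases hchi p hp with ⟨h, h'⟩ | ⟨h, h'⟩ | ⟨h, h'⟩
      · rw [if_pos ⟨hp, h⟩, if_pos hp, if_pos hp, if_neg (by omega), h']
        ring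
      · rw [if_neg (fun hc => by omega), if_pos hp, if_pos hp, if_neg (by omega), h']
        ring
      · rw [if_neg (fun hc => by omega), if_pos hp, if_pos hp, if_pos h, h', h]
        push_cast
        ring
    · rw [if_neg (fun hc => hp hc.1), if_neg hp, if_neg hp, if_neg]
      · ring
      · rintro rfl
        exact hp Nat.prime_two
  have htsum : ∑' p : ℕ, (if p.Prime ∧ p % 4 = 1 then
      Real.cos (2 * τ * Real.log p) / (p : ℝ) ^ s else 0) =
      ((∑' p : ℕ, if p.Prime then Real.cos (2 * τ * Real.log p) / (p : ℝ) ^ s else 0) / 2 +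
      (∑' p : ℕ, if p.Prime then
      (ZMod.χ₄ (p : ZMod 4) : ℝ) * Real.cos (2 * τ * Real.log p) / (p : ℝ) ^ s else 0) / 2) -
      Real.cos (2 * τ * Real.log 2) / (2 : ℝ) ^ s / 2 := by
    have h6 := (((hA.hasSum.div_const 2).add (hB.hasSum.div_const 2)).sub hC).tsum_eq
    rw [← h6]
    exact tsum_congr hid
  have h2s : |Real.cos (2 * τ * Real.log 2) / (2 : ℝ) ^ s / 2| ≤ 1 / 2 := by
    have h7 : (1 : ℝ) ≤ (2 : ℝ) ^ s := Real.one_le_rpow (by norm_num) (by linarith)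
    rw [abs_div, abs_div, abs_of_pos (by linarith : (0 : ℝ) < (2 : ℝ) ^ s),
      abs_of_pos (by norm_num : (0 : ℝ) < 2)]
    have h8 : |Real.cos (2 * τ * Real.log 2)| / (2 : ℝ) ^ s ≤ 1 := by
      rw [div_le_one (by linarith)]
      exact (Real.abs_cos_le_one _).trans h7
    linarith
  have hlog : Real.log (1 / |2 * τ|) ≤ Real.log (1 / |τ|) := by
    apply Real.log_le_log
    · rw [habs]; positivity
    · rw [habs]
      apply one_div_le_one_div_of_le hτ
      linarith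
  rw [htsum] at h1'
  rw [abs_le] at h1' h2s
  linarith [h1'.2, h2s.1, h2s.2]

/-- `1 + u ≤ exp u` (the factors are nonnegative: `2 Ap p ≤ 4/5`), `2 Ap p cos ≤ (4/p) cos + 12/p^2` (`Ap_bound`), `∑ 12/p^2 ≤ C`, `zsum`. -/
theorem prod_bound (N : ℝ) (hN : 0 < N) : ∃ C : ℝ, 0 < C ∧ ∀ T : ℕ, 3 ≤ T → ∀ τ : ℝ, 0 < |τ| → |τ| ≤ N →
    ∏ p ∈ PT T, (1 + 2 * Ap p * Real.cos (2 * τ * Real.log p)) ≤ C / τ ^ 2 := by
  obtain ⟨C, hC⟩ := zsum N hN
  have hs : Summable (fun p : ℕ => 12 / (p : ℝ) ^ 2) := by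
    have := (Real.summable_one_div_nat_pow (p := 2)).mpr (by norm_num)
    refine (this.mul_left 12).congr (fun p => ?_)
    ring
  set S := ∑' p : ℕ, 12 / (p : ℝ) ^ 2 with hS
  refine ⟨Real.exp (4 * C + S), Real.exp_pos _, fun T hT τ hτ hτN => ?_⟩
  have h1 : ∏ p ∈ PT T, (1 + 2 * Ap p * Real.cos (2 * τ * Real.log p)) ≤
      ∏ p ∈ PT T, Real.exp (2 * Ap p * Real.cos (2 * τ * Real.log p)) := by
    apply prod_le_prod
    · intro p hp
      obtain ⟨h2, h3, -⟩ := Ap_bound p (ZSm.PT_five hp)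
      have h5 : (5 : ℝ) ≤ p := by exact_mod_cast ZSm.PT_five hp
      have h4 : 4 / (p : ℝ) ≤ 1 := by
        rw [div_le_one (by linarith)]
        linarith
      have h6 := Real.neg_one_le_cos (2 * τ * Real.log p)
      nlinarith
    · intro p _
      have := Real.add_one_le_exp (2 * Ap p * Real.cos (2 * τ * Real.log p))
      linarith
  have h2 : ∑ p ∈ PT T, 2 * Ap p * Real.cos (2 * τ * Real.log p) ≤
      4 * ∑ p ∈ PT T, Real.cos (2 * τ * Real.log p) / p + S := by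
    have h3 : ∑ p ∈ PT T, 12 / (p : ℝ) ^ 2 ≤ S := hs.sum_le_tsum _ (fun p _ => by positivity)
    have h4 : ∑ p ∈ PT T, 2 * Ap p * Real.cos (2 * τ * Real.log p) ≤
        ∑ p ∈ PT T, (4 * (Real.cos (2 * τ * Real.log p) / p) + 12 / (p : ℝ) ^ 2) := by
      apply sum_le_sum
      intro p hp
      obtain ⟨h5, h6, h7⟩ := Ap_bound p (ZSm.PT_five hp)
      have h8 := Real.neg_one_le_cos (2 * τ * Real.log p)
      have h9 : 4 * (Real.cos (2 * τ * Real.log p) / p) =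
        4 / p * Real.cos (2 * τ * Real.log p) := by ring
      rw [h9]
      nlinarith
    rw [sum_add_distrib, ← mul_sum] at h4
    linarith
  have h3 := hC T hT τ hτ hτN
  calc ∏ p ∈ PT T, (1 + 2 * Ap p * Real.cos (2 * τ * Real.log p))
      ≤ Real.exp (∑ p ∈ PT T, 2 * Ap p * Real.cos (2 * τ * Real.log p)) := by
        rw [Real.exp_sum]
        exact h1
    _ ≤ Real.exp (2 * Real.log (1 / |τ|) + (4 * C + S)) := by
        apply Real.exp_le_exp.mpr
        linarith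
    _ = Real.exp (4 * C + S) / τ ^ 2 := by
        rw [Real.exp_add, two_mul, Real.exp_add, Real.exp_log (by positivity)]
        rw [← sq_abs τ]
        field_simp

namespace ZSu

theorem expand3 {R : Type} [CommRing R] (S : Finset ℕ) (x y : ℕ → R) :
    ∏ p ∈ S, (1 + x p + y p) =
      ∑ A ∈ S.powerset, ∑ B ∈ (S \ A).powerset, (∏ p ∈ A, x p) * ∏ p ∈ B, y p := by
  have h : ∀ p ∈ S, (1 + x p + y p) = x p + (1 + y p) := by
    intro p _
    ring
  rw [prod_congr rfl h, prod_add]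
  apply sum_congr rfl
  intro A _
  rw [prod_one_add, mul_sum]

theorem sum_GG (T : ℕ) {M : Type} [AddCommMonoid M] (F : ℕ × ℕ → M) :
    ∑ g ∈ GG T, F g = ∑ A ∈ (PT T).powerset, ∑ B ∈ (PT T \ A).powerset,
      F (∏ p ∈ A, p, ∏ p ∈ B, p) := by
  have hpr : ∀ S : Finset ℕ, S ⊆ PT T → ∀ p ∈ S, p.Prime := fun S hS p hp =>
    (ZSm.mem_PT.mp (hS hp)).2.1
  have hsq : Squarefree (∏ p ∈ PT T, p) := by
    apply Finset.squarefree_prod_of_pairwise_isCoprime
    · intro p hp q hq hpq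
      exact Nat.coprime_iff_isRelPrime.mp
        ((Nat.coprime_primes (hpr _ subset_rfl p hp) (hpr _ subset_rfl q hq)).mpr hpq)
    · intro p hp
      exact (hpr _ subset_rfl p hp).prime.irreducible.squarefree
  have hne : ∏ p ∈ PT T, p ≠ 0 := hsq.ne_zero
  rw [Finset.sum_sigma']
  symm
  refine Finset.sum_bij' (fun x _ => ((∏ p ∈ x.1, p, ∏ p ∈ x.2, p) : ℕ × ℕ))
    (fun g _ => ⟨g.1.primeFactors, g.2.primeFactors⟩) ?_ ?_ ?_ ?_ ?_
  · rintro ⟨A, B⟩ hx
    rw [mem_sigma, mem_powerset, mem_powerset] at hx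
    obtain ⟨hA, hB⟩ := hx
    have hB' : B ⊆ PT T := hB.trans sdiff_subset
    rw [GG, mem_filter, mem_product, Nat.mem_divisors, Nat.mem_divisors]
    refine ⟨⟨⟨prod_dvd_prod_of_subset _ _ _ hA, hne⟩, ⟨prod_dvd_prod_of_subset _ _ _ hB', hne⟩⟩, ?_⟩
    apply Nat.Coprime.prod_left
    intro p hp
    apply Nat.Coprime.prod_right
    intro q hq
    rw [Nat.coprime_primes (hpr A hA p hp) (hpr B hB' q hq)]
    rintro rfl
    exact (mem_sdiff.mp (hB hq)).2 hp
  · intro g hg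
    rw [GG, mem_filter, mem_product, Nat.mem_divisors, Nat.mem_divisors] at hg
    obtain ⟨⟨⟨h1, -⟩, ⟨h2, -⟩⟩, h3⟩ := hg
    rw [mem_sigma, mem_powerset, mem_powerset]
    have e : (∏ p ∈ PT T, p).primeFactors = PT T := Nat.primeFactors_prod (hpr _ subset_rfl)
    refine ⟨(Nat.primeFactors_mono h1 hne).trans e.subset, ?_⟩
    intro p hp
    rw [mem_sdiff]
    refine ⟨e.subset (Nat.primeFactors_mono h2 hne hp), fun hp' => ?_⟩
    exact (disjoint_left.mp h3.disjoint_primeFactors) hp' hp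
  · rintro ⟨A, B⟩ hx
    rw [mem_sigma, mem_powerset, mem_powerset] at hx
    obtain ⟨hA, hB⟩ := hx
    have hB' : B ⊆ PT T := hB.trans sdiff_subset
    simp only [Nat.primeFactors_prod (hpr A hA), Nat.primeFactors_prod (hpr B hB')]
  · intro g hg
    rw [GG, mem_filter, mem_product, Nat.mem_divisors, Nat.mem_divisors] at hg
    obtain ⟨⟨⟨h1, -⟩, ⟨h2, -⟩⟩, h3⟩ := hg
    simp only [Nat.prod_primeFactors_of_squarefree (hsq.squarefree_of_dvd h1),
      Nat.prod_primeFactors_of_squarefree (hsq.squarefree_of_dvd h2)]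
  · intro x _
    rfl

end ZSu

/-- Expand the product `∏ (1 + Ap p e^(2 i τ log p) + Ap p e^(-2 i τ log p))` over the primes of `PT T` (every prime goes to `g`, to `g'`
or to neither) and take real parts; the product is real. -/
theorem prod_expand (T : ℕ) (τ : ℝ) :
    ∑ g ∈ GG T, (∏ p ∈ (g.1 * g.2).primeFactors, Ap p) *
      Real.cos (τ * (2 * Real.log ((g.1 : ℝ) / g.2))) =
    ∏ p ∈ PT T, (1 + 2 * Ap p * Real.cos (2 * τ * Real.log p)) := by
  have hpr : ∀ S : Finset ℕ, S ⊆ PT T → ∀ p ∈ S, p.Prime := fun S hS p hp =>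
    (ZSm.mem_PT.mp (hS hp)).2.1
  rw [ZSu.sum_GG]
  let x : ℕ → ℂ := fun p => (Ap p : ℂ) * Complex.exp ((2 * τ * Real.log p : ℝ) * Complex.I)
  let y : ℕ → ℂ := fun p => (Ap p : ℂ) * Complex.exp (-((2 * τ * Real.log p : ℝ) * Complex.I))
  have h1 : ((∏ p ∈ PT T, (1 + 2 * Ap p * Real.cos (2 * τ * Real.log p)) : ℝ) : ℂ) =
      ∏ p ∈ PT T, (1 + x p + y p) := by
    push_cast
    apply prod_congr rfl
    intro p _
    simp only [x, y]
    rw [Complex.cos]
    push_cast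
    rw [neg_mul]
    ring
  rw [ZSu.expand3] at h1
  have h2 := congrArg Complex.re h1
  rw [Complex.ofReal_re, Complex.re_sum] at h2
  rw [h2]
  apply sum_congr rfl
  intro A hA
  rw [Complex.re_sum]
  apply sum_congr rfl
  intro B hB
  rw [mem_powerset] at hA hB
  have hB' : B ⊆ PT T := hB.trans sdiff_subset
  have hdis : Disjoint A B := by
    rw [disjoint_left]
    intro p hp hp'
    exact (mem_sdiff.mp (hB hp')).2 hp
  have hA0 : ∏ p ∈ A, p ≠ 0 := prod_ne_zero_iff.mpr (fun p hp => (hpr A hA p hp).ne_zero)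
  have hB0 : ∏ p ∈ B, p ≠ 0 := prod_ne_zero_iff.mpr (fun p hp => (hpr B hB' p hp).ne_zero)
  have hpf : ((∏ p ∈ A, p) * ∏ p ∈ B, p).primeFactors = A ∪ B := by
    rw [Nat.primeFactors_mul hA0 hB0, Nat.primeFactors_prod (hpr A hA),
      Nat.primeFactors_prod (hpr B hB')]
  have hlog : τ * (2 * Real.log (((∏ p ∈ A, p : ℕ) : ℝ) / ((∏ p ∈ B, p : ℕ) : ℝ))) =
      ∑ p ∈ A, 2 * τ * Real.log p + ∑ p ∈ B, -(2 * τ * Real.log p) := by
    rw [Real.log_div (by exact_mod_cast hA0) (by exact_mod_cast hB0)]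
    push_cast
    rw [Real.log_prod (fun p hp => by exact_mod_cast (hpr A hA p hp).ne_zero),
      Real.log_prod (fun p hp => by exact_mod_cast (hpr B hB' p hp).ne_zero)]
    rw [sum_neg_distrib, ← mul_sum, ← mul_sum]
    ring
  have hx : ∏ p ∈ A, x p = ((∏ p ∈ A, Ap p : ℝ) : ℂ) *
      Complex.exp ((∑ p ∈ A, 2 * τ * Real.log p : ℝ) * Complex.I) := by
    simp only [x]
    rw [prod_mul_distrib, ← Complex.exp_sum]
    push_cast
    rw [sum_mul]
  have hy : ∏ p ∈ B, y p = ((∏ p ∈ B, Ap p : ℝ) : ℂ) *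
      Complex.exp ((∑ p ∈ B, -(2 * τ * Real.log p) : ℝ) * Complex.I) := by
    simp only [y]
    rw [prod_mul_distrib, ← Complex.exp_sum]
    push_cast
    rw [sum_mul]
    congr 2
    apply sum_congr rfl
    intro p _
    ring
  rw [hpf, prod_union hdis, hlog, hx, hy]
  have h3 : ((∏ p ∈ A, Ap p : ℝ) : ℂ) *
      Complex.exp ((∑ p ∈ A, 2 * τ * Real.log p : ℝ) * Complex.I) *
      (((∏ p ∈ B, Ap p : ℝ) : ℂ) *
      Complex.exp ((∑ p ∈ B, -(2 * τ * Real.log p) : ℝ) * Complex.I)) =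
      (((∏ p ∈ A, Ap p) * ∏ p ∈ B, Ap p : ℝ) : ℂ) * Complex.exp
        ((∑ p ∈ A, 2 * τ * Real.log p + ∑ p ∈ B, -(2 * τ * Real.log p) : ℝ) * Complex.I) := by
    rw [Complex.ofReal_add (∑ p ∈ A, 2 * τ * Real.log p), add_mul, Complex.exp_add,
      Complex.ofReal_mul]
    ring
  rw [h3, Complex.re_ofReal_mul, Complex.exp_ofReal_mul_I_re]

end Pool.Agent.OmAll
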