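import Pool.Agent.Lib_MP_f1a94e_aq.DCount
import Pool.Agent.Lib_MP_f1a94e_aq.Riem
import Pool.Agent.Lib_MP_f1a94e_aq.Planch
import Pool.Agent.Lib_MP_f1a94e_aq.ZSum

/-!
# Piece STWO: the second moment of the cluster sums is bounded uniformly in `T`
-/

set_option autoImplicit false

namespace Pool.Agent.OmAll

open Finset Pool.Agent.GaussMR Filter

/-- elements of `GG T` are admissible -/
theorem GG_adm (T : ℕ) (g : ℕ × ℕ) (hg : g ∈ GG T) : Adm g ∧ 0 < g.1 ∧ 0 < g.2 := by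
  unfold GG at hg
  rw [mem_filter, mem_product, Nat.mem_divisors, Nat.mem_divisors] at hg
  obtain ⟨⟨⟨h1, h0⟩, h2, -⟩, hc⟩ := hg
  have hprime : ∀ p ∈ PT T, p.Prime := by
    intro p hp
    unfold PT at hp
    exact (mem_filter.1 hp).2.1
  have hsq : Squarefree (∏ p ∈ PT T, p) := by
    refine Finset.squarefree_prod_of_pairwise_isCoprime (fun p hp q hq hpq => ?_)
      fun p hp => (hprime p hp).squarefree
    simp only [Function.onFun, ← Nat.coprime_iff_isRelPrime]
    exact (Nat.coprime_primes (hprime p hp) (hprime q hq)).2 hpq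
  refine ⟨⟨?_, ?_⟩, Nat.pos_of_ne_zero (ne_zero_of_dvd_ne_zero h0 h1),
    Nat.pos_of_ne_zero (ne_zero_of_dvd_ne_zero h0 h2)⟩
  · rw [Nat.squarefree_mul hc]
    exact ⟨hsq.squarefree_of_dvd h1, hsq.squarefree_of_dvd h2⟩
  · intro p hp
    have hpp := Nat.prime_of_mem_primeFactors hp
    have hpd := Nat.dvd_of_mem_primeFactors hp
    have h3 : p ∣ ∏ p ∈ PT T, p := by
      rcases (Nat.Prime.dvd_mul hpp).1 hpd with h | h
      · exact h.trans h1
      · exact h.trans h2
    rw [Prime.dvd_finsetProd_iff hpp.prime] at h3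
    obtain ⟨q, hq, hpq⟩ := h3
    have h4 : p = q := (Nat.prime_dvd_prime_iff_eq hpp (hprime q hq)).1 hpq
    rw [h4]
    unfold PT at hq
    exact (mem_filter.1 hq).2.2

theorem STwo_corr (a b u t : ℝ) (ha : 0 < a) (hab : a ≤ b) :
    |Hf a b t * Hf a b (t + u)| ≤ ((4 * b + 16 / a) * (4 * b + 16 / a)) / (1 + t ^ 2) := by
  have hB : 0 < 4 * b + 16 / a := by
    have : 0 < b := ha.trans_le hab
    positivity
  rw [abs_mul, mul_div_right_comm]
  have h1 := Hf_le a b t ha hab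
  have h2 : |Hf a b (t + u)| ≤ 4 * b + 16 / a := by
    refine (Hf_le a b (t + u) ha hab).trans ?_
    apply div_le_self hB.le
    nlinarith [sq_nonneg (t + u)]
  exact mul_le_mul h1 h2 (abs_nonneg _) (by positivity)

open MeasureTheory in
theorem STwo_int (a b : ℝ) (ha : 0 < a) (hab : a ≤ b) : ∃ C : ℝ, 0 < C ∧ ∀ T : ℕ, 3 ≤ T →
    ∑ g ∈ GG T, (∏ p ∈ (g.1 * g.2).primeFactors, Ap p) *
      ∫ t, Hf a b t * Hf a b (t + 2 * Real.log ((g.1 : ℝ) / g.2)) ≤ C := by
  have hb : 0 < b := ha.trans_le hab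
  have hpi := Real.pi_pos
  obtain ⟨C, hC, hP⟩ := prod_bound b hb
  refine ⟨2 * Real.pi * (2 * b * (C / a ^ 2)), by positivity, fun T hT => ?_⟩
  have hint : ∀ u : ℝ, Integrable (fun τ => hh a b τ ^ 2 * Real.cos (τ * u)) := by
    intro u
    have h1 : Continuous (fun τ => hh a b τ ^ 2 * Real.cos (τ * u)) := by
      have := hh_cont a b
      fun_prop
    apply h1.integrable_of_hasCompactSupport
    have h2 : HasCompactSupport (fun τ => hh a b τ ^ 2) :=
      (Planch_supp a b ha hab).comp_left (g := fun x : ℝ => x ^ 2) (by simp)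
    exact h2.mul_right
  have h1 : ∑ g ∈ GG T, (∏ p ∈ (g.1 * g.2).primeFactors, Ap p) *
      ∫ t, Hf a b t * Hf a b (t + 2 * Real.log ((g.1 : ℝ) / g.2)) =
      2 * Real.pi * ∫ τ, hh a b τ ^ 2 *
        ∏ p ∈ PT T, (1 + 2 * Ap p * Real.cos (2 * τ * Real.log p)) := by
    have h2 : ∀ τ, hh a b τ ^ 2 * ∏ p ∈ PT T, (1 + 2 * Ap p * Real.cos (2 * τ * Real.log p)) =
        ∑ g ∈ GG T, (∏ p ∈ (g.1 * g.2).primeFactors, Ap p) *
          (hh a b τ ^ 2 * Real.cos (τ * (2 * Real.log ((g.1 : ℝ) / g.2)))) := by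
      intro τ
      rw [← prod_expand, Finset.mul_sum]
      refine Finset.sum_congr rfl fun g _ => ?_
      ring
    simp_rw [h2]
    rw [integral_finsetSum _ (fun g _ => (hint _).const_mul _), Finset.mul_sum]
    refine Finset.sum_congr rfl fun g _ => ?_
    rw [planch a b _ ha hab, integral_const_mul]
    ring
  rw [h1]
  apply mul_le_mul_of_nonneg_left _ (by positivity)
  have h3 : ∀ τ, hh a b τ ^ 2 * ∏ p ∈ PT T, (1 + 2 * Ap p * Real.cos (2 * τ * Real.log p)) ≤
      (Set.Icc (-b) b).indicator (fun _ => C / a ^ 2) τ := by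
    intro τ
    by_cases hτ : b < |τ|
    · rw [hh_zero a b τ ha hab hτ.le, Set.indicator_of_notMem]
      · simp
      · rw [Set.mem_Icc, ← abs_le]
        exact not_le.2 hτ
    · rw [not_lt] at hτ
      rw [Set.indicator_of_mem (by rw [Set.mem_Icc, ← abs_le]; exact hτ)]
      have h4 := hh_le a b τ ha hab
      by_cases h0 : τ = 0
      · subst h0
        have h5 : hh a b 0 = 0 := by
          rw [← abs_nonpos_iff]
          simpa using h4
        rw [h5]
        have : 0 ≤ C / a ^ 2 := by positivity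
        simpa using this
      · have hpos : 0 < |τ| := abs_pos.2 h0
        have h5 := hP T hT τ hpos hτ
        have h6 : hh a b τ ^ 2 ≤ τ ^ 2 / a ^ 2 := by
          have := pow_le_pow_left₀ (abs_nonneg _) h4 2
          rwa [sq_abs, div_pow, sq_abs] at this
        calc hh a b τ ^ 2 * ∏ p ∈ PT T, (1 + 2 * Ap p * Real.cos (2 * τ * Real.log p))
            ≤ hh a b τ ^ 2 * (C / τ ^ 2) := mul_le_mul_of_nonneg_left h5 (sq_nonneg _)
          _ ≤ τ ^ 2 / a ^ 2 * (C / τ ^ 2) := mul_le_mul_of_nonneg_right h6 (by positivity)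
          _ = C / a ^ 2 := by field_simp
  have h4 : Integrable (fun τ => hh a b τ ^ 2 *
      ∏ p ∈ PT T, (1 + 2 * Ap p * Real.cos (2 * τ * Real.log p))) := by
    have h5 : Continuous (fun τ => hh a b τ ^ 2 *
        ∏ p ∈ PT T, (1 + 2 * Ap p * Real.cos (2 * τ * Real.log p))) := by
      have := hh_cont a b
      fun_prop
    apply h5.integrable_of_hasCompactSupport
    have h2 : HasCompactSupport (fun τ => hh a b τ ^ 2) :=
      (Planch_supp a b ha hab).comp_left (g := fun x : ℝ => x ^ 2) (by simp)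
    exact h2.mul_right
  refine (integral_mono h4 ?_ h3).trans ?_
  · exact (integrable_indicator_iff measurableSet_Icc).2 (by
      rw [integrableOn_const_iff]
      right
      simp)
  · rw [integral_indicator measurableSet_Icc, setIntegral_const, measureReal_def,
      Real.volume_Icc, smul_eq_mul, ENNReal.toReal_ofReal (by linarith)]
    apply le_of_eq
    ring

open Classical in
/-- For fixed `g ∈ GG T` (finitely many) `riem` with `D x = (pd x).filter (Cd g)`, `c = κ ∏ Ap p` (`dcount`), `f t = H t H (t + u)`, `u = 2 log (g/g')`,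
`H = Hf a b` (continuous, `|f| ≤ B^2/(1+t^2)` by `Hf_le`), gives the limit `κ ∏ Ap p ∫ H t H (t + u)` of the inner sum divided by `x`; by `planch` and
`prod_expand` the sum of the limits is `2 π κ ∫ hh^2 ∏_(p ∈ PT T) (1 + 2 Ap p cos (2 τ log p)) dτ`, and by `hh_le`, `hh_zero`, `prod_bound` (`N = b`) this is at most
`2 π κ ∫_(|τ| ≤ b) (τ/a)^2 C / τ^2 dτ = 4 π κ C b / a^2`. -/
theorem s2_bound (a b : ℝ) (ha : 0 < a) (hab : a ≤ b) : ∃ C : ℝ, 0 < C ∧ ∀ T : ℕ, 3 ≤ T →
    ∃ x0 : ℝ, ∀ x : ℝ, x0 ≤ x →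
      ∑ g ∈ GG T, ∑ r ∈ (pd x).filter (fun r => Cd g r),
        Hf a b (tt r) * Hf a b (tt r + 2 * Real.log ((g.1 : ℝ) / g.2)) ≤ C * x := by
  obtain ⟨κ, hκ, hd⟩ := dcount
  obtain ⟨C, hC, hS⟩ := STwo_int a b ha hab
  refine ⟨κ * C + 1, by positivity, fun T hT => ?_⟩
  have hlim : Tendsto (fun x : ℝ => (∑ g ∈ GG T, ∑ r ∈ (pd x).filter (fun r => Cd g r),
      Hf a b (tt r) * Hf a b (tt r + 2 * Real.log ((g.1 : ℝ) / g.2))) / x) atTop
      (nhds (∑ g ∈ GG T, (κ * (∏ p ∈ (g.1 * g.2).primeFactors, Ap p)) *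
        ∫ t, Hf a b t * Hf a b (t + 2 * Real.log ((g.1 : ℝ) / g.2)))) := by
    simp_rw [Finset.sum_div]
    refine tendsto_finsetSum _ fun g hg => ?_
    have h1 := riem (fun x => (pd x).filter (fun r => Cd g r)) (fun x => filter_subset _ _)
      (κ * (∏ p ∈ (g.1 * g.2).primeFactors, Ap p)) ?_
      (fun t => Hf a b t * Hf a b (t + 2 * Real.log ((g.1 : ℝ) / g.2))) ?_
      ((4 * b + 16 / a) * (4 * b + 16 / a))
      (fun t => STwo_corr a b _ t ha hab)
    · refine h1.congr fun x => ?_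
      rw [Finset.sum_div]
    · intro s t hst
      refine (hd g (GG_adm T g hg).1 s t hst).congr fun x => ?_
      congr 2
      rw [← Set.ncard_coe_finset]
      congr 1
      ext r
      simp only [Set.mem_ofPred_eq, coe_filter, mem_filter]
      tauto
    · have := Hf_cont a b
      fun_prop
  have hle : ∑ g ∈ GG T, (κ * (∏ p ∈ (g.1 * g.2).primeFactors, Ap p)) *
        ∫ t, Hf a b t * Hf a b (t + 2 * Real.log ((g.1 : ℝ) / g.2)) ≤ κ * C := by
    have h2 : ∑ g ∈ GG T, (κ * (∏ p ∈ (g.1 * g.2).primeFactors, Ap p)) *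
        ∫ t, Hf a b t * Hf a b (t + 2 * Real.log ((g.1 : ℝ) / g.2)) =
        κ * ∑ g ∈ GG T, (∏ p ∈ (g.1 * g.2).primeFactors, Ap p) *
          ∫ t, Hf a b t * Hf a b (t + 2 * Real.log ((g.1 : ℝ) / g.2)) := by
      rw [Finset.mul_sum]
      refine Finset.sum_congr rfl fun g _ => by ring
    rw [h2]
    exact mul_le_mul_of_nonneg_left (hS T hT) hκ
  have hev := (hlim.eventually_lt_const (lt_of_le_of_lt hle (lt_add_one _))).and
    (eventually_gt_atTop (0 : ℝ))
  obtain ⟨x0, hx0⟩ := eventually_atTop.1 hev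
  refine ⟨x0, fun x hx => ?_⟩
  obtain ⟨h3, h4⟩ := hx0 x hx
  rw [div_lt_iff₀ h4] at h3
  exact h3.le

end Pool.Agent.OmAll
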