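import Pool.Agent.Lib_MP_f1a94e_q.Step
import Pool.Agent.Lib_MP_f1a94e_aq.MainIneqH

/-!
# The step with multipliers in an arbitrary residue class
-/

set_option autoImplicit false

namespace Pool.Agent.OmQ

open Finset LibLS

variable {N : ℕ} [NeZero N]

theorem stepH {α : Type} (X : ZMod N → α) (F G : α → ℝ) (hF : ∀ a, 0 ≤ F a ∧ F a ≤ 1)
    (hG : ∀ a, 0 ≤ G a ∧ G a ≤ 1) (ρ : ℕ → ℕ) (W W' T T' n K0 m b h : ℕ) (K : Finset ℕ) (w : ℕ → ℝ)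
    (τ v L Cb s ε ε0 : ℝ) (hW : 0 < W) (hT : 0 < T) (hT' : 0 < T') (hτ : 0 ≤ τ) (hL : 0 < L)
    (hv : 0 ≤ v) (hCb : 0 ≤ Cb) (hs : 0 ≤ s) (hε : 0 < ε) (hε0 : 0 ≤ ε0) (hb0 : 0 < b) (hbn : b < 2 ^ n)
    (hK : ∀ κ ∈ K, Squarefree κ ∧ κ.primeFactors.card = m ∧ κ % W = h % W ∧
      (∀ p ∈ κ.primeFactors, p % 4 = 1 ∧ ¬ p ∣ b ∧ p < 2 ^ n) ∧ κ ≤ K0 ∧ 0 ≤ w κ)
    (hw1 : ∑ κ ∈ K, w κ = 1) (hw2 : ∑ κ ∈ K, w κ ^ 2 * κ ≤ 1 / L)
    (hV1 : Av (fun i : ZMod N => ∑ κ ∈ K, w κ * κ * ind (Dv ρ κ i)) = 1)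
    (hV2 : Av (fun i : ZMod N => (∑ κ ∈ K, w κ * κ * ind (Dv ρ κ i) - 1) ^ 2) ≤ v)
    (hP0 : 0 < (PP n).card) (hTη : (K0 : ℝ) * 2 ^ (n + 1) ≤ τ * W * T)
    (hsT : 2 * Real.pi * T' * W' ≤ s * 2 ^ n) (hsK : s ^ 2 * K.card ≤ 1)
    (hS : ∀ θ : ℝ, nrm (W' * θ) ≤ W' / 2 ^ n ∨
      ∑ κ ∈ K, ‖∑ p ∈ PP n, e (p * (κ * θ))‖ ^ 2 ≤ Cb * ((PP n).card : ℝ) ^ 2)
    (h2 : Av (fun i => (avW W' T' (fun i => G (X i)) i - avW W T (fun i => G (X i)) i) ^ 2) ≤ τ ^ 2)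
    (hN : QQ b (n + 1) ∣ N)
    (hI : hb X ((2 * K0 + 1) * 2 ^ n) (QQ b n) - hb X ((2 * K0 + 1) * 2 ^ n) (QQ b (n + 1)) ≤
      ε ^ 2 * (PP n).card)
    (hgood : ∀ k : ℕ, k ≤ K0 * 2 ^ (n + 1) → Squarefree k →
      (∀ p ∈ k.primeFactors, p % 4 = 1 ∧ ¬ p ∣ b) → k.primeFactors.card = m + 1 →
      Av (fun i => ind (Dv ρ k i) * F (X i) * G (X (i + (k : ZMod N)))) ≤ ε0) :
    ∑ p ∈ PP n, Av (fun i => F (X i) * avW W T (fun i => G (X i)) (i + ((h * p % W : ℕ) : ZMod N))) ≤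
      (PP n).card * (K0 * 2 ^ (n + 1) * ε0 + 6 * K0 * ε +
        (τ + Real.sqrt v + (1 + Real.sqrt v) * τ + Real.sqrt ((4 * Cb + 1) / L))) := by
  have hQs := QQ_succ b n hb0 hbn
  have h3 := fou3 (fun i => G (X i)) (fun i => by
    rw [abs_of_nonneg (hG _).1]; exact (hG _).2) W' T' n hT' K (PP n) hP0 Cb s hCb hs hsT hsK hS
  have hmain := main_ineqH (fun i => F (X i)) (fun i => G (X i)) (fun i => hF _) (fun i => hG _) ρ
    W W' T T' n K0 h K (PP n) w τ v (4 * Cb + 1) L τ hW hT hτ hL hv hτ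
    (fun κ hκ => by
      obtain ⟨h1, h2, h3, h4, h5, h6⟩ := hK κ hκ
      exact ⟨h1, h3, (dvd_QQ b n κ h1 h4).trans ((QQ_mono_dvd b (Nat.le_succ n)).trans hN), h5, h6⟩)
    hw1 hw2 hV1 hV2 (fun p hp => (PP_prime hp).2.2) hP0 hTη h3 h2
  refine hmain.trans ?_
  have key : ∀ κ ∈ K, ∑ p ∈ PP n, κ * Av (fun i => ind (Dv ρ κ i) * F (X i) *
      G (X (i + ((κ * p : ℕ) : ZMod N)))) ≤
      (PP n).card * (K0 * 2 ^ (n + 1) * ε0 + 6 * K0 * ε) := by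
    intro κ hκ
    obtain ⟨k1, k2, k3, k4, k5, k6⟩ := hK κ hκ
    have hκ0 : κ ≠ 0 := k1.ne_zero
    refine (dec X F G hF hG ρ n K0 κ (QQ b n) (PP n) (fun p hp => PP_prime hp)
      (Nat.pos_of_ne_zero hκ0) k5 (dvd_QQ b n κ k1 k4) (QQ_coprime b n hb0 hbn)
      (by rw [← hQs]; exact hN) ε hε (by rw [← hQs]; exact hI)).trans ?_
    have h5 : ∀ p ∈ PP n, (κ : ℝ) * p * Av (fun i => ind (Dv ρ κ i ∧ Dv ρ p i) * F (X i) *
        G (X (i + ((κ * p : ℕ) : ZMod N)))) ≤ K0 * 2 ^ (n + 1) * ε0 := by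
      intro p hp
      obtain ⟨p1, p2, p3⟩ := PP_prime hp
      have hpκ : ¬ p ∣ κ := by
        intro hd
        have := (k4 p (Nat.mem_primeFactors.mpr ⟨p1, hd, hκ0⟩)).2.2
        omega
      have hpb : ¬ p ∣ b := by
        intro hd
        have := Nat.le_of_dvd hb0 hd
        omega
      have hco : Nat.Coprime κ p := ((Nat.Prime.coprime_iff_not_dvd p1).mpr hpκ).symm
      have hle : κ * p ≤ K0 * 2 ^ (n + 1) := Nat.mul_le_mul k5 p3.le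
      have hpf : (κ * p).primeFactors = κ.primeFactors ∪ {p} := by
        rw [Nat.primeFactors_mul hκ0 p1.ne_zero, p1.primeFactors]
      have h6 := hgood (κ * p) hle ((Nat.squarefree_mul hco).mpr ⟨k1, p1.squarefree⟩)
        (by
          intro l hl
          rw [hpf, Finset.mem_union, Finset.mem_singleton] at hl
          rcases hl with hl | rfl
          · exact ⟨(k4 l hl).1, (k4 l hl).2.1⟩
          · exact ⟨PP_mod hp, hpb⟩)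
        (by
          rw [hpf, Finset.card_union_of_disjoint, k2, Finset.card_singleton]
          rw [Finset.disjoint_singleton_right]
          intro hl
          exact hpκ (Nat.dvd_of_mem_primeFactors hl))
      have h7 : Av (fun i => ind (Dv ρ κ i ∧ Dv ρ p i) * F (X i) *
        G (X (i + ((κ * p : ℕ) : ZMod N)))) = Av (fun i => ind (Dv ρ (κ * p) i) * F (X i) *
        G (X (i + ((κ * p : ℕ) : ZMod N)))) := by
        congr 1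
        funext i
        rw [show (Dv ρ κ i ∧ Dv ρ p i) = Dv ρ (κ * p) i from
          propext (Dv_mul ρ κ p hκ0 p1 i).symm]
      rw [h7]
      have h8 : (κ : ℝ) * p ≤ K0 * 2 ^ (n + 1) := by exact_mod_cast hle
      have h9 : (0 : ℝ) ≤ κ * p := by positivity
      calc (κ : ℝ) * p * Av _ ≤ κ * p * ε0 := by gcongr
        _ ≤ K0 * 2 ^ (n + 1) * ε0 := by gcongr
    have h10 := Finset.sum_le_card_nsmul (PP n) _ _ h5
    rw [nsmul_eq_mul] at h10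
    nlinarith [h10]
  have h11 : ∑ κ ∈ K, w κ * ∑ p ∈ PP n, κ * Av (fun i => ind (Dv ρ κ i) * F (X i) *
      G (X (i + ((κ * p : ℕ) : ZMod N)))) ≤
      (PP n).card * (K0 * 2 ^ (n + 1) * ε0 + 6 * K0 * ε) := by
    calc _ ≤ ∑ κ ∈ K, w κ * ((PP n).card * (K0 * 2 ^ (n + 1) * ε0 + 6 * K0 * ε)) := by
          apply Finset.sum_le_sum
          intro κ hκ
          exact mul_le_mul_of_nonneg_left (key κ hκ) (hK κ hκ).2.2.2.2.2
      _ = _ := by rw [← Finset.sum_mul, hw1, one_mul]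
  linarith [h11]

end Pool.Agent.OmQ
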