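import Pool.Agent.Lib_MP_f1a94e_aq.LineA
import Pool.Agent.Lib_MP_f1a94e_aq.Exist

/-!
# Piece STRA: very balanced factorisations and points on lines
-/

set_option autoImplicit false

namespace Pool.Agent.OmAll

open Finset Pool.Agent.GaussMR

/-- the edges `(vj z j, vj z (j + 1))` with `j ≥ J`, `m ≤ x`, `P m` -/
def EJ (J : ℕ) (x : ℝ) (P : ℕ → Prop) : Set (G × ℕ) :=
  {r | zok r.1 ∧ J ≤ r.2 ∧ ((dot (vj r.1 r.2) (vj r.1 (r.2 + 1)) : ℤ) : ℝ) ≤ x ∧
    P (dot (vj r.1 r.2) (vj r.1 (r.2 + 1))).natAbs}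

private theorem EJ_sub (J : ℕ) (_hJ : 1 ≤ J) (x : ℝ) (P : ℕ → Prop) {r : G × ℕ} (hr : r ∈ EJ J x P) :
    J ≤ r.2 ∧ r.1 ≠ 0 ∧ (r.2 : ℝ) ^ 2 * (nm r.1 : ℝ) ≤ x := by
  obtain ⟨⟨_, _, h3⟩, h4, h5, _⟩ := hr
  refine ⟨h4, ?_, ?_⟩
  · intro h0
    have := nm_pos_of_prim h3
    rw [h0, nm_zero] at this
    simp at this
  · have h6 := vj_dot_ge r.1 h3 r.2
    have h7 : (((r.2 : ℤ) ^ 2 * nm r.1 : ℤ) : ℝ) ≤
        ((dot (vj r.1 r.2) (vj r.1 (r.2 + 1)) : ℤ) : ℝ) := by exact_mod_cast h6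
    push_cast at h7
    exact h7.trans h5

/-- `j ^ 2 nm z ≤ m ≤ x` (`vj_dot_ge`), `nm z ≥ 1` -/
theorem EJ_finite (J : ℕ) (hJ : 1 ≤ J) (x : ℝ) (P : ℕ → Prop) : (EJ J x P).Finite := by
  refine Set.Finite.subset ((finite_ball x).prod (Set.finite_Iic ⌊x⌋₊)) ?_
  intro r hr
  obtain ⟨h1, h2, h3⟩ := EJ_sub J hJ x P hr
  have hj : (1 : ℝ) ≤ (r.2 : ℝ) := by exact_mod_cast hJ.trans h1
  have hn : (1 : ℝ) ≤ (nm r.1 : ℝ) := by exact_mod_cast nm_pos h2
  have hj2 : (r.2 : ℝ) ≤ (r.2 : ℝ) ^ 2 := by nlinarith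
  have hj3 : (r.2 : ℝ) ^ 2 ≤ (r.2 : ℝ) ^ 2 * (nm r.1 : ℝ) := le_mul_of_one_le_right (by positivity) hn
  have hn3 : (nm r.1 : ℝ) ≤ (r.2 : ℝ) ^ 2 * (nm r.1 : ℝ) :=
    le_mul_of_one_le_left (by positivity) (by nlinarith)
  refine Set.mem_prod.2 ⟨?_, ?_⟩
  · show (nm r.1 : ℝ) ≤ x
    linarith
  · rw [Set.mem_Iic]
    apply Nat.le_floor
    linarith

/-- the number of nonzero Gaussian integers of norm at most `R`; if `R < 1` there are none, otherwise both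
coordinates are at most `√R` in absolute value, `(2 √R + 1) ^ 2 ≤ 9 R`. -/
theorem ball_le (R : ℝ) (hR : 0 ≤ R) : ({z : G | z ≠ 0 ∧ (nm z : ℝ) ≤ R}.ncard : ℝ) ≤ 9 * R := by
  rcases lt_or_ge R 1 with h1 | h1
  · have : {z : G | z ≠ 0 ∧ (nm z : ℝ) ≤ R} = ∅ := by
      ext z
      simp only [Set.mem_ofPred_eq, Set.mem_empty_iff_false, iff_false, not_and, not_le]
      intro hz
      have hn : (1 : ℝ) ≤ (nm z : ℝ) := by exact_mod_cast nm_pos hz
      linarith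
    rw [this, Set.ncard_empty]
    simp only [Nat.cast_zero]
    linarith
  · set N : ℕ := ⌊Real.sqrt R⌋₊ with hN
    have hN1 : 1 ≤ N := by
      rw [hN]
      apply Nat.le_floor
      rw [Nat.cast_one]
      exact Real.one_le_sqrt.2 h1
    have hNs : (N : ℝ) ≤ Real.sqrt R := Nat.floor_le (Real.sqrt_nonneg R)
    have hNR : (N : ℝ) ^ 2 ≤ R := by
      calc (N : ℝ) ^ 2 ≤ (Real.sqrt R) ^ 2 := by gcongr
        _ = R := Real.sq_sqrt hR
    have hcoord : ∀ a : ℤ, ((a : ℝ)) ^ 2 ≤ R → a ∈ Finset.Icc (-(N : ℤ)) N := by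
      intro a ha
      have h2 : |(a : ℝ)| ≤ Real.sqrt R := Real.abs_le_sqrt ha
      have h3 : ((a.natAbs : ℕ) : ℝ) ≤ Real.sqrt R := by
        rw [Nat.cast_natAbs, Int.cast_abs]
        exact h2
      have h4 : a.natAbs ≤ N := Nat.le_floor h3
      rw [Finset.mem_Icc]
      omega
    have hsub : {z : G | z ≠ 0 ∧ (nm z : ℝ) ≤ R} ⊆
        ((Finset.Icc (-(N : ℤ)) N ×ˢ Finset.Icc (-(N : ℤ)) N).image
          (fun p : ℤ × ℤ => (⟨p.1, p.2⟩ : G)) : Finset G) := by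
      rintro z ⟨_, hz⟩
      have hn : ((nm z : ℤ) : ℝ) = ((z.re ^ 2 + z.im ^ 2 : ℤ) : ℝ) := by rw [nm_eq]
      push_cast at hn
      rw [hn] at hz
      rw [Finset.mem_coe, Finset.mem_image]
      refine ⟨(z.re, z.im), ?_, rfl⟩
      rw [Finset.mem_product]
      exact ⟨hcoord _ (by nlinarith [sq_nonneg (z.im : ℝ)]),
        hcoord _ (by nlinarith [sq_nonneg (z.re : ℝ)])⟩
    have hcard : {z : G | z ≠ 0 ∧ (nm z : ℝ) ≤ R}.ncard ≤ (2 * N + 1) * (2 * N + 1) := by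
      refine (Set.ncard_le_ncard hsub (Finset.finite_toSet _)).trans ?_
      rw [Set.ncard_coe_finset]
      refine Finset.card_image_le.trans ?_
      rw [Finset.card_product, Int.card_Icc]
      have : ((N : ℤ) + 1 - -(N : ℤ)).toNat = 2 * N + 1 := by omega
      rw [this]
    have hcard' : ({z : G | z ≠ 0 ∧ (nm z : ℝ) ≤ R}.ncard : ℝ) ≤ (2 * N + 1) * (2 * N + 1) := by
      exact_mod_cast hcard
    have hN1' : (1 : ℝ) ≤ N := by exact_mod_cast hN1
    nlinarith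

/-- `#EJ ≤ ∑_(j ≥ J) #{z ≠ 0 : j ^ 2 nm z ≤ x} ≤ ∑_(j ≥ J) 9 x / j ^ 2 ≤ 18 x / J`. -/
theorem EJ_count (J : ℕ) (hJ : 1 ≤ J) (x : ℝ) (hx : 0 ≤ x) (P : ℕ → Prop) :
    ((EJ J x P).ncard : ℝ) ≤ 18 * x / J := by
  classical
  set B : ℕ → Set G := fun j => {z : G | z ≠ 0 ∧ (nm z : ℝ) ≤ x / (j : ℝ) ^ 2} with hB
  have hBfin : ∀ j, (B j).Finite := fun j => (finite_ball (x / (j : ℝ) ^ 2)).subset (fun z hz => hz.2)
  set I : Finset ℕ := Finset.Ioo (J - 1) (⌊x⌋₊ + 1) with hI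
  have hsub : EJ J x P ⊆ ⋃ j ∈ I, (fun z : G => (z, j)) '' (B j) := by
    intro r hr
    obtain ⟨h1, h2, h3⟩ := EJ_sub J hJ x P hr
    have hj : (1 : ℝ) ≤ (r.2 : ℝ) := by exact_mod_cast hJ.trans h1
    have hn : (1 : ℝ) ≤ (nm r.1 : ℝ) := by exact_mod_cast nm_pos h2
    rw [Set.mem_iUnion₂]
    have hj2 : (r.2 : ℝ) ≤ (r.2 : ℝ) ^ 2 := by nlinarith
    have hj3 : (r.2 : ℝ) ^ 2 ≤ (r.2 : ℝ) ^ 2 * (nm r.1 : ℝ) :=
      le_mul_of_one_le_right (by positivity) hn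
    refine ⟨r.2, ?_, r.1, ⟨h2, ?_⟩, rfl⟩
    · rw [hI, Finset.mem_Ioo]
      refine ⟨by omega, Nat.lt_succ_of_le (Nat.le_floor ?_)⟩
      linarith
    · rw [le_div_iff₀ (by positivity)]
      linarith
  have h1 : (EJ J x P).ncard ≤ ∑ j ∈ I, (B j).ncard := by
    refine (Set.ncard_le_ncard hsub ?_).trans ?_
    · exact Set.Finite.biUnion (Finset.finite_toSet I) (fun j _ => (hBfin j).image _)
    · refine (Finset.set_ncard_biUnion_le I _).trans ?_
      apply Finset.sum_le_sum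
      intro j _
      exact Set.ncard_image_le (hBfin j)
  have h2 : ((EJ J x P).ncard : ℝ) ≤ ∑ j ∈ I, 9 * (x / (j : ℝ) ^ 2) := by
    calc ((EJ J x P).ncard : ℝ) ≤ ((∑ j ∈ I, (B j).ncard : ℕ) : ℝ) := by exact_mod_cast h1
      _ = ∑ j ∈ I, ((B j).ncard : ℝ) := by push_cast; rfl
      _ ≤ _ := Finset.sum_le_sum (fun j _ => ball_le _ (by positivity))
  have h3 : ∑ j ∈ I, 9 * (x / (j : ℝ) ^ 2) = 9 * x * ∑ j ∈ I, ((j : ℝ) ^ 2)⁻¹ := by
    rw [Finset.mul_sum]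
    apply Finset.sum_congr rfl
    intro j _
    rw [div_eq_mul_inv]
    ring
  have h4 : ∑ j ∈ I, ((j : ℝ) ^ 2)⁻¹ ≤ 2 / J := by
    have := sum_Ioo_inv_sq_le (α := ℝ) (J - 1) (⌊x⌋₊ + 1)
    have h5 : (((J - 1 : ℕ) : ℝ) + 1) = J := by
      have : J - 1 + 1 = J := by omega
      exact_mod_cast this
    rw [h5] at this
    exact this
  rw [h3] at h2
  have hJ' : (0 : ℝ) < J := by exact_mod_cast hJ
  calc ((EJ J x P).ncard : ℝ) ≤ 9 * x * ∑ j ∈ I, ((j : ℝ) ^ 2)⁻¹ := h2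
    _ ≤ 9 * x * (2 / J) := by gcongr
    _ = 18 * x / J := by ring

/-- the key step of `str_a` -/
private theorem str_key (J : ℕ) (hJ : 1 ≤ J) (m d e : ℕ) (hm : 1 ≤ m) (hme : Even m)
    (h : d * e = m ^ 2 + 1) (hde : d < e)
    (ht : Real.log e - Real.log d < 1 / (2 * J)) :
    ∃ (z : G) (j : ℕ), zok z ∧ J ≤ j ∧ dot (vj z j) (vj z (j + 1)) = m ∧
      nm (vj z j) = d ∧ nm (vj z (j + 1)) = e := by
  obtain ⟨V, V', h1, h2, h3, h4⟩ := exists_edge m d e h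
  -- parity
  have hodd : Odd (d * e) := by
    rw [h]
    exact (hme.pow_of_ne_zero (by norm_num)).add_one
  obtain ⟨hdo, heo⟩ := Nat.odd_mul.1 hodd
  have hVo : Odd (V.re + V.im) := odd_nm_iff.1 (by rw [h3]; exact hdo)
  have hVo' : Odd (V'.re + V'.im) := odd_nm_iff.1 (by rw [h4]; exact heo)
  have hdetz : det V (V' - V) = 1 := by
    have h5 : det V (V' - V) = det V V' := by
      unfold det
      simp only [Zsqrtd.re_sub, Zsqrtd.im_sub]
      ring
    rw [h5, h1]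
  have hprim : Prim (V' - V) := by
    refine ⟨-V.im, V.re, ?_⟩
    unfold det at hdetz
    linear_combination hdetz
  have hz : zok (V' - V) := by
    have hdz := hdetz
    unfold det at hdz
    obtain ⟨a, ha⟩ := hVo
    obtain ⟨b, hb⟩ := hVo'
    have hs : (V' - V).re + (V' - V).im = 2 * (b - a) := by
      simp only [Zsqrtd.re_sub, Zsqrtd.im_sub]
      linarith
    rcases Int.even_or_odd (V' - V).re with ⟨c, hc⟩ | hc
    · exfalso
      have h5 : (V' - V).im = 2 * (b - a - c) := by linarith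
      rw [h5, hc] at hdz
      have h6 : 2 * (V.re * (b - a - c) - V.im * c) = 1 := by linear_combination hdz
      omega
    · refine ⟨hc, ?_, hprim⟩
      obtain ⟨c, hc⟩ := hc
      exact ⟨b - a - c - 1, by linarith⟩
  obtain ⟨j0, hj0⟩ := vj_uniq (V' - V) V hprim hdetz
  have hV' : V' = vj (V' - V) (j0 + 1) := by
    rw [vj_add, ← hj0]
    simp
  obtain ⟨_, hw0, hw1⟩ := wz_spec (V' - V) hprim
  have hN := nm_pos_of_prim hprim
  have hnm1 := vj_nm (V' - V) hprim j0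
  have hnm2 := vj_nm (V' - V) hprim (j0 + 1)
  have hdz := vj_dot_z (V' - V) j0
  have hdd := vj_dot (V' - V) j0 1
  rw [← hj0] at hdz
  rw [← hV', ← hj0, h2, h3, one_mul, hdz] at hdd
  rw [← hj0, h3] at hnm1
  rw [← hV', h4] at hnm2
  clear hdz
  generalize hNN : (nm (V' - V) : ℤ) = N at *
  generalize hww : dot (wz (V' - V)) (V' - V) = w at *
  -- `D = w + j0 N`
  set D : ℤ := w + j0 * N with hD
  have hnm2' : N * (e : ℤ) = (D + N) ^ 2 + 1 := by rw [hnm2, hD]; ring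
  have hmZ : (1 : ℤ) ≤ m := by exact_mod_cast hm
  have hdeZ : (d : ℤ) < e := by exact_mod_cast hde
  have h2DN : 0 < 2 * D + N := by
    have h5 : N * (d : ℤ) < N * e := mul_lt_mul_of_pos_left hdeZ hN
    have h6 : 0 < N * (2 * D + N) := by nlinarith
    exact (mul_pos_iff_of_pos_left hN).1 h6
  have hD0 : 0 ≤ D := by
    by_contra hneg
    push Not at hneg
    have h5 : -D + 1 ≤ (d : ℤ) := by linarith
    have h6 : -2 * D + 1 ≤ N := by linarith
    have h7 : (-2 * D + 1) * (-D + 1) ≤ N * d := mul_le_mul h6 h5 (by linarith) hN.le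
    nlinarith
  have hj0J : (J : ℤ) ≤ j0 := by
    by_contra hlt
    push Not at hlt
    have h5 : D ≤ J * N := by
      have : (j0 + 1) * N ≤ J * N := mul_le_mul_of_nonneg_right (by omega) hN.le
      nlinarith
    have hJZ : (1 : ℤ) ≤ J := by exact_mod_cast hJ
    have h6 : (J + 1 : ℤ) * d ≤ J * e := by
      have h7 : N * ((J + 1 : ℤ) * d) ≤ N * (J * e) := by
        have e1 : N * ((J + 1 : ℤ) * d) = (J + 1) * (D ^ 2 + 1) := by rw [← hnm1]; ring
        have e2 : N * ((J : ℤ) * e) = J * ((D + N) ^ 2 + 1) := by rw [← hnm2']; ring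
        rw [e1, e2]
        have h8 : D * D ≤ J * N * D := mul_le_mul_of_nonneg_right h5 hD0
        have h9 : 0 ≤ (J : ℤ) * N * D := by positivity
        have h10 : 1 ≤ (J : ℤ) * N ^ 2 := by
          have : 0 < (J : ℤ) * N ^ 2 := by positivity
          omega
        nlinarith
      exact le_of_mul_le_mul_left h7 hN
    have hd0 : 0 < d := hdo.pos
    have he0 : 0 < e := heo.pos
    have hdR : (0 : ℝ) < d := by exact_mod_cast hd0
    have heR : (0 : ℝ) < e := by exact_mod_cast he0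
    have hJR : (1 : ℝ) ≤ J := by exact_mod_cast hJ
    have h7 : ((J : ℝ) + 1) * d ≤ J * e := by exact_mod_cast h6
    have h8 : Real.log e - Real.log d = Real.log (e / d) := (Real.log_div heR.ne' hdR.ne').symm
    have h9 := Real.one_sub_inv_le_log_of_pos (show (0 : ℝ) < e / d by positivity)
    rw [inv_div, ← h8] at h9
    have h10 : (d : ℝ) / e ≤ J / (J + 1) := by
      rw [div_le_div_iff₀ heR (by positivity)]
      linarith
    have h11 : 1 - (J : ℝ) / (J + 1) = 1 / (J + 1) := by field_simp; ring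
    have h12 : (1 : ℝ) / (2 * J) ≤ 1 / (J + 1) := by
      apply one_div_le_one_div_of_le (by positivity)
      linarith
    linarith
  obtain ⟨j, rfl⟩ : ∃ j : ℕ, j0 = j := ⟨j0.toNat, by omega⟩
  exact ⟨V' - V, j, hz, by exact_mod_cast hj0J, by rw [← hV', ← hj0, h2], by rw [← hj0, h3],
    by rw [← hV', h4]⟩

/-- Let `r = (m, d) ∈ pd x`, `e = (m^2+1)/d`, `|tt r| < 1 / (2 J)`. `tt r ≠ 0` since `m ≥ 1` (`m^2+1` is no square). If `tt r > 0`
(`d < e`) take `(V, V')` from `exists_edge` with `nm V = d`, `nm V' = e`, `z = V' - V`: both `V`, `V'` have odd norm (`m` even),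
`det` odd, so `z = (1, 1) mod 2` (`V`, `V'` are `(1,0), (0,1)` mod 2 in some order); `det V z = 1`, so `z` is primitive.
Let `N = nm z`, `D = dot V z`; `d N = D^2 + 1`, `e N = (D + N)^2 + 1`, `m = d + D`. `D ≥ 0`: from `d < e`, `2 D + N > 0`; if `D < 0`
then `m ≥ 0` gives `d ≥ |D|`, `D^2 + 1 = d N ≥ |D| N > 2 D^2`, so `D^2 < 1`, contradiction. `V = vj z j` with
`0 ≤ D - j N < N`, so `j = ⌊D / N⌋ ≥ 0`. `j ≥ J`: if `D ≤ J N` (in particular if `j < J`), then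
`e / d - 1 = (2 D N + N^2) / (D^2 + 1) ≥ 1 / J` (with `y = D / N ≤ J`: `(2 y + 1) J ≥ y^2 + 1`), so
`tt r = log (e / d) ≥ log (1 + 1/J) ≥ 1 / (2 J)` (`log (1 + u) ≥ u / 2` for `u ≤ 1`). The map `r ↦ (z, j)` is injective:
`(z, j)` gives `V, V'` and `m = dot V V'`, `d = nm V`. If `tt r < 0` use `(m, e)` (`tt (m, e) = - tt (m, d)`). -/
theorem str_a (J : ℕ) (hJ : 1 ≤ J) (x : ℝ) (P : ℕ → Prop) :
    ({r : ℕ × ℕ | r ∈ pd x ∧ P r.1 ∧ |tt r| < 1 / (2 * J)}.ncard : ℝ) ≤ 2 * (EJ J x P).ncard := by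
  classical
  have hfin := EJ_finite J hJ x P
  set f : G × ℕ → ℕ × ℕ := fun r =>
    ((dot (vj r.1 r.2) (vj r.1 (r.2 + 1))).natAbs, nm (vj r.1 r.2)) with hf
  set g : G × ℕ → ℕ × ℕ := fun r =>
    ((dot (vj r.1 r.2) (vj r.1 (r.2 + 1))).natAbs, nm (vj r.1 (r.2 + 1))) with hg
  have hsub : {r : ℕ × ℕ | r ∈ pd x ∧ P r.1 ∧ |tt r| < 1 / (2 * J)} ⊆
      f '' (EJ J x P) ∪ g '' (EJ J x P) := by
    rintro ⟨m, d⟩ ⟨hr, hP, ht⟩
    rw [mem_pd] at hr
    obtain ⟨hm1, hmx, hme, e, he⟩ := hr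
    simp only at hm1 hmx hme he hP
    have he' : d * e = m ^ 2 + 1 := he.symm
    have hd0 : d ≠ 0 := by
      rintro rfl
      rw [zero_mul] at he'
      omega
    have he0 : e ≠ 0 := by
      rintro rfl
      rw [mul_zero] at he'
      omega
    have htt : tt (m, d) = Real.log e - Real.log d := by
      unfold tt
      simp only
      have h5 : ((m : ℝ) ^ 2 + 1) = (d : ℝ) * e := by exact_mod_cast he
      rw [h5, Real.log_mul (by exact_mod_cast hd0) (by exact_mod_cast he0)]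
      ring
    rw [htt, abs_lt] at ht
    rcases lt_trichotomy d e with hlt | heq | hlt
    · left
      obtain ⟨z, j, hz, hj, h1, h2, h3⟩ := str_key J hJ m d e hm1 hme he' hlt ht.2
      refine ⟨(z, j), ⟨hz, hj, ?_, ?_⟩, ?_⟩
      · simp only
        rw [h1]
        exact_mod_cast hmx
      · simp only
        rw [h1]
        simpa using hP
      · simp only [hf]
        rw [h1, h2]
        simp
    · exfalso
      subst heq
      have h5 : m < d := by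
        by_contra h6
        push Not at h6
        have := Nat.mul_le_mul h6 h6
        nlinarith
      have := Nat.mul_le_mul h5 h5
      nlinarith
    · right
      obtain ⟨z, j, hz, hj, h1, h2, h3⟩ := str_key J hJ m e d hm1 hme (by rw [mul_comm]; exact he')
        hlt (by linarith [ht.1])
      refine ⟨(z, j), ⟨hz, hj, ?_, ?_⟩, ?_⟩
      · simp only
        rw [h1]
        exact_mod_cast hmx
      · simp only
        rw [h1]
        simpa using hP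
      · simp only [hg]
        rw [h1, h3]
        simp
  have h1 : {r : ℕ × ℕ | r ∈ pd x ∧ P r.1 ∧ |tt r| < 1 / (2 * J)}.ncard ≤
      (EJ J x P).ncard + (EJ J x P).ncard := by
    refine (Set.ncard_le_ncard hsub ((hfin.image f).union (hfin.image g))).trans ?_
    refine (Set.ncard_union_le _ _).trans ?_
    exact Nat.add_le_add (Set.ncard_image_le hfin) (Set.ncard_image_le hfin)
  have h2 : ({r : ℕ × ℕ | r ∈ pd x ∧ P r.1 ∧ |tt r| < 1 / (2 * J)}.ncard : ℝ) ≤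
      (EJ J x P).ncard + (EJ J x P).ncard := by exact_mod_cast h1
  linarith

theorem smallt (J : ℕ) (hJ : 1 ≤ J) (x : ℝ) (hx : 0 ≤ x) :
    ({r : ℕ × ℕ | r ∈ pd x ∧ |tt r| < 1 / (2 * J)}.ncard : ℝ) ≤ 36 * x / J := by
  have h1 := str_a J hJ x (fun _ => True)
  have h2 := EJ_count J hJ x hx (fun _ => True)
  simp only [true_and] at h1
  calc _ ≤ 2 * ((EJ J x (fun _ => True)).ncard : ℝ) := h1
    _ ≤ 2 * (18 * x / J) := by gcongr
    _ = _ := by ring

end Pool.Agent.OmAll
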