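import Pool.Agent.Lib_MP_f1a94e_q.TK
import Pool.Agent.Lib_MP_f1a94e_aq.PrimesH

/-!
# Turan-Kubilius families with products in an arbitrary residue class
-/

set_option autoImplicit false

namespace Pool.Agent.OmQ

open Finset LibLS

/-- TK -/
lemma tk_auxH (m : ℕ) (W h : ℕ) (hh : h.Coprime W) (y : ℕ) (hW : 0 < W) (L : ℝ) (hL : 1 ≤ L) :
    ∃ (K : Finset ℕ) (c : ℝ) (M : ℕ), 0 < M ∧ 0 ≤ c ∧ c ≤ (1 / L) ^ m ∧
      (∀ κ ∈ K, Squarefree κ ∧ κ.primeFactors.card = m ∧ κ % W = (if m = 0 then 1 else h) % W ∧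
        (∀ p ∈ κ.primeFactors, (p % W = 1 % W ∨ p % W = h % W) ∧ y < p) ∧ κ ∣ M) ∧
      ∑ κ ∈ K, c / κ = 1 ∧
      ∀ (N : ℕ) [NeZero N], M ∣ N → ∀ ρ : ℕ → ℕ,
        c ^ 2 * Av (fun i : ZMod N => (∑ κ ∈ K, tkI ρ κ i.val) ^ 2) ≤ (1 + 1 / L) ^ m := by
  classical
  induction m with
  | zero =>
    refine ⟨{1}, 1, 1, one_pos, zero_le_one, by simp, ?_, by simp, ?_⟩
    · intro κ hκ
      rw [Finset.mem_singleton] at hκ
      subst hκ
      simp
    · intro N _ _ ρ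
      have h1 : (fun i : ZMod N => (∑ κ ∈ ({1} : Finset ℕ), tkI ρ κ i.val) ^ 2) =
          fun _ : ZMod N => (1 : ℝ) := by
        funext i
        have h2 : tkI ρ 1 i.val = 1 := ind_of (by simp)
        rw [Finset.sum_singleton, h2, one_pow]
      rw [h1, Av_const]
      simp
  | succ m ih =>
    obtain ⟨K, c, M, hM, hc0, hcL, hK, hsum, hAv⟩ := ih
    obtain ⟨S, hS, hSL⟩ := primes_cls W hW (if m = 0 then h else 1)
      (by split_ifs; exacts [hh, Nat.coprime_one_left W]) (max y M) L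
    have hSp : ∀ p ∈ S, p.Prime := fun p hp => (hS p hp).1
    have hSM : ∀ p ∈ S, M < p := fun p hp => lt_of_le_of_lt (le_max_right _ _) (hS p hp).2.1
    have hSy : ∀ p ∈ S, y < p := fun p hp => lt_of_le_of_lt (le_max_left _ _) (hS p hp).2.1
    set L' : ℝ := ∑ p ∈ S, (1 : ℝ) / p with hL'
    have hL0 : 0 < L := by linarith
    have hL'0 : 0 < L' := by linarith
    have hKM : ∀ κ ∈ K, 0 < κ ∧ κ ≤ M := by
      intro κ hκ
      exact ⟨Nat.pos_of_ne_zero (hK κ hκ).1.ne_zero, Nat.le_of_dvd hM (hK κ hκ).2.2.2.2⟩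
    have hnd : ∀ κ ∈ K, ∀ p ∈ S, ¬ p ∣ κ := by
      intro κ hκ p hp hd
      have := Nat.le_of_dvd (hKM κ hκ).1 hd
      have := (hKM κ hκ).2
      have := hSM p hp
      omega
    have hcop : ∀ κ ∈ K, ∀ p ∈ S, κ.Coprime p := by
      intro κ hκ p hp
      exact ((hSp p hp).coprime_iff_not_dvd.mpr (hnd κ hκ p hp)).symm
    have hinj : Set.InjOn (fun x : ℕ × ℕ => x.1 * x.2) ((K ×ˢ S : Finset (ℕ × ℕ)) : Set (ℕ × ℕ)) := by
      rintro ⟨κ, p⟩ h1 ⟨κ', p'⟩ h2 heq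
      rw [Finset.mem_coe, Finset.mem_product] at h1 h2
      simp only at h1 h2 heq
      have hd : p ∣ κ' * p' := heq ▸ Dvd.intro_left κ rfl
      rcases (hSp p h1.2).dvd_mul.mp hd with hd | hd
      · exact absurd hd (hnd κ' h2.1 p h1.2)
      · have hpp : p = p' := (Nat.prime_dvd_prime_iff_eq (hSp p h1.2) (hSp p' h2.2)).mp hd
        subst hpp
        have : κ = κ' := Nat.eq_of_mul_eq_mul_right (hSp p h1.2).pos heq
        rw [this]
    have hsumK : ∀ g : ℕ → ℝ, ∑ κ ∈ (K ×ˢ S).image (fun x : ℕ × ℕ => x.1 * x.2), g κ =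
        ∑ κ ∈ K, ∑ p ∈ S, g (κ * p) := by
      intro g
      rw [Finset.sum_image hinj, Finset.sum_product]
    refine ⟨(K ×ˢ S).image (fun x : ℕ × ℕ => x.1 * x.2), c / L', M * ∏ p ∈ S, p,
      Nat.mul_pos hM (Finset.prod_pos fun p hp => (hSp p hp).pos), by positivity, ?_, ?_, ?_, ?_⟩
    · rw [pow_succ, div_eq_mul_one_div]
      refine mul_le_mul hcL (one_div_le_one_div_of_le hL0 hSL) (by positivity) (by positivity)
    · intro k hk
      rw [Finset.mem_image] at hk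
      obtain ⟨⟨κ, p⟩, hx, rfl⟩ := hk
      rw [Finset.mem_product] at hx
      simp only at hx ⊢
      obtain ⟨hκ, hp⟩ := hx
      obtain ⟨k1, k2, k3, k4, k5⟩ := hK κ hκ
      have hpr := hSp p hp
      refine ⟨(Nat.squarefree_mul (hcop κ hκ p hp)).mpr ⟨k1, hpr.prime.squarefree⟩, ?_, ?_, ?_, ?_⟩
      · rw [(hcop κ hκ p hp).primeFactors_mul, Finset.card_union_of_disjoint
          (hcop κ hκ p hp).disjoint_primeFactors, k2, hpr.primeFactors, Finset.card_singleton]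
      · rw [Nat.mul_mod, k3, (hS p hp).2.2, ← Nat.mul_mod]
        rcases Nat.eq_zero_or_pos m with rfl | hm0
        · simp
        · rw [if_neg hm0.ne', if_neg hm0.ne', if_neg (Nat.succ_ne_zero m), mul_one]
      · intro q hq
        rw [(hcop κ hκ p hp).primeFactors_mul, Finset.mem_union, hpr.primeFactors,
          Finset.mem_singleton] at hq
        rcases hq with hq | rfl
        · exact k4 q hq
        · refine ⟨?_, hSy _ hp⟩
          have h7 := (hS _ hp).2.2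
          rcases Nat.eq_zero_or_pos m with rfl | hm0
          · right
            simpa using h7
          · left
            rwa [if_neg hm0.ne'] at h7
      · exact mul_dvd_mul k5 (Finset.dvd_prod_of_mem (fun p => p) hp)
    · rw [hsumK]
      have : ∀ κ ∈ K, ∑ p ∈ S, c / L' / ((κ * p : ℕ) : ℝ) = c / κ := by
        intro κ hκ
        have hκ0 : (0 : ℝ) < κ := by exact_mod_cast (hKM κ hκ).1
        have e1 : ∀ p ∈ S, c / L' / ((κ * p : ℕ) : ℝ) = c / κ / L' * (1 / p) := by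
          intro p hp
          have hp0 : (0 : ℝ) < p := by exact_mod_cast (hSp p hp).pos
          push_cast
          field_simp
        rw [Finset.sum_congr rfl e1, ← Finset.mul_sum, ← hL']
        field_simp
      rw [Finset.sum_congr rfl this, hsum]
    · intro N _ hMN ρ
      have hMN1 : M ∣ N := (Dvd.intro _ rfl).trans hMN
      have hSN : ∀ p ∈ S, p ∣ N := fun p hp =>
        ((Finset.dvd_prod_of_mem (fun p => p) hp).trans (Dvd.intro_left _ rfl)).trans hMN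
      have hfac : ∀ i : ZMod N,
          (∑ κ ∈ (K ×ˢ S).image (fun x : ℕ × ℕ => x.1 * x.2), tkI ρ κ i.val) ^ 2 =
          (∑ κ ∈ K, tkI ρ κ i.val) ^ 2 * (∑ p ∈ S, tkI ρ p i.val) ^ 2 := by
        intro i
        rw [hsumK, ← mul_pow, Finset.sum_mul_sum]
        congr 1
        refine Finset.sum_congr rfl fun κ hκ => Finset.sum_congr rfl fun p hp => ?_
        exact tkI_mul ρ κ p _ (hK κ hκ).1.ne_zero (hSp p hp).ne_zero
      have hcoP : M.Coprime (∏ p ∈ S, p) := by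
        apply Nat.Coprime.prod_right
        intro p hp
        refine ((hSp p hp).coprime_iff_not_dvd.mpr fun hd => ?_).symm
        have := Nat.le_of_dvd hM hd
        have := hSM p hp
        omega
      have hind := Av_indep (N := N) M (∏ p ∈ S, p) hcoP hMN
        (fun n => (∑ κ ∈ K, tkI ρ κ n) ^ 2) (fun n => (∑ p ∈ S, tkI ρ p n) ^ 2)
        (fun n => by
          have h0 : ∑ κ ∈ K, tkI ρ κ (n + M) = ∑ κ ∈ K, tkI ρ κ n :=
            Finset.sum_congr rfl fun κ hκ => tkI_add ρ κ n M (hK κ hκ).2.2.2.2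
          rw [h0])
        (fun n => by
          have h0 : ∑ p ∈ S, tkI ρ p (n + ∏ p ∈ S, p) = ∑ p ∈ S, tkI ρ p n :=
            Finset.sum_congr rfl fun p hp =>
              tkI_add ρ p n _ (Finset.dvd_prod_of_mem (fun p => p) hp)
          rw [h0])
      rw [funext hfac, hind]
      have hA := Av_tkI_sq (N := N) ρ S hSp hSN
      rw [← hL'] at hA
      have hF := hAv N hMN1 ρ
      have hA0 : 0 ≤ Av (fun i : ZMod N => (∑ p ∈ S, tkI ρ p i.val) ^ 2) :=
        Av_nonneg fun i => sq_nonneg _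
      have hA2 : Av (fun i : ZMod N => (∑ p ∈ S, tkI ρ p i.val) ^ 2) / L' ^ 2 ≤ 1 + 1 / L := by
        rw [div_le_iff₀ (by positivity)]
        refine hA.trans ?_
        have h1 : L' ≤ 1 / L * L' ^ 2 := by
          rw [one_div, inv_mul_eq_div, le_div_iff₀ hL0, sq]
          exact mul_le_mul_of_nonneg_left hSL hL'0.le
        nlinarith
      calc (c / L') ^ 2 * (Av (fun i : ZMod N => (∑ κ ∈ K, tkI ρ κ i.val) ^ 2) *
            Av (fun i : ZMod N => (∑ p ∈ S, tkI ρ p i.val) ^ 2))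
          = (c ^ 2 * Av (fun i : ZMod N => (∑ κ ∈ K, tkI ρ κ i.val) ^ 2)) *
            (Av (fun i : ZMod N => (∑ p ∈ S, tkI ρ p i.val) ^ 2) / L' ^ 2) := by
            field_simp
        _ ≤ (1 + 1 / L) ^ m * (1 + 1 / L) :=
            mul_le_mul hF hA2 (by positivity) (by positivity)
        _ = (1 + 1 / L) ^ (m + 1) := by rw [pow_succ]

/-- the family with products in the class `h` -/
theorem tkH (m : ℕ) (hm : 0 < m) (W : ℕ) (hW : 0 < W) (h : ℕ) (hh : h.Coprime W) (y : ℕ) (L : ℝ) (hL : 1 ≤ L) :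
    ∃ (K : Finset ℕ) (w : ℕ → ℝ) (M : ℕ), 0 < M ∧
      (∀ κ ∈ K, Squarefree κ ∧ κ.primeFactors.card = m ∧ κ % W = h % W ∧
        (∀ p ∈ κ.primeFactors, (p % W = 1 % W ∨ p % W = h % W) ∧ y < p) ∧ κ ∣ M ∧ 0 ≤ w κ) ∧
      ∑ κ ∈ K, w κ = 1 ∧ ∑ κ ∈ K, w κ ^ 2 * κ ≤ 1 / L ∧
      ∀ (N : ℕ) [NeZero N], M ∣ N → ∀ ρ : ℕ → ℕ,
        Av (fun i : ZMod N => ∑ κ ∈ K, w κ * κ * ind (Dv ρ κ i)) = 1 ∧
        Av (fun i : ZMod N => (∑ κ ∈ K, w κ * κ * ind (Dv ρ κ i) - 1) ^ 2) ≤ (1 + 1 / L) ^ m - 1 := by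
  obtain ⟨K, c, M, hM, hc0, hcL, hK, hsum, hAv⟩ := tk_auxH m W h hh y hW L hL
  have hL0 : 0 < L := by linarith
  have hκ0 : ∀ κ ∈ K, (0 : ℝ) < κ := by
    intro κ hκ
    exact_mod_cast Nat.pos_of_ne_zero (hK κ hκ).1.ne_zero
  refine ⟨K, fun κ => c / κ, M, hM, ?_, hsum, ?_, ?_⟩
  · intro κ hκ
    obtain ⟨k1, k2, k3, k4, k5⟩ := hK κ hκ
    rw [if_neg hm.ne'] at k3
    exact ⟨k1, k2, k3, k4, k5, by positivity⟩
  · have e1 : ∀ κ ∈ K, (c / κ) ^ 2 * κ = c * (c / κ) := by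
      intro κ hκ
      have := hκ0 κ hκ
      field_simp
    rw [Finset.sum_congr rfl e1, ← Finset.mul_sum, hsum, mul_one]
    refine hcL.trans ?_
    have h1 : 1 / L ≤ 1 := by
      rw [div_le_one hL0]
      exact hL
    calc (1 / L) ^ m ≤ (1 / L) ^ 1 := pow_le_pow_of_le_one (by positivity) h1 hm
      _ = 1 / L := pow_one _
  · intro N _ hMN ρ
    have hV : ∀ i : ZMod N, ∑ κ ∈ K, c / κ * κ * ind (Dv ρ κ i) =
        c * ∑ κ ∈ K, tkI ρ κ i.val := by
      intro i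
      rw [Finset.mul_sum]
      refine Finset.sum_congr rfl fun κ hκ => ?_
      have := hκ0 κ hκ
      rw [tkI_eq, div_mul_cancel₀ _ this.ne']
    have hAv1 : Av (fun i : ZMod N => c * ∑ κ ∈ K, tkI ρ κ i.val) = 1 := by
      rw [Av_const_mul, Av_tkI ρ K (fun κ hκ => (hK κ hκ).1)
        (fun κ hκ => (hK κ hκ).2.2.2.2.trans hMN), Finset.mul_sum]
      refine Eq.trans (Finset.sum_congr rfl fun κ hκ => ?_) hsum
      rw [mul_one_div]
    simp only [hV]
    refine ⟨hAv1, ?_⟩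
    have e2 : (fun i : ZMod N => (c * ∑ κ ∈ K, tkI ρ κ i.val - 1) ^ 2) =
        fun i : ZMod N => (c ^ 2 * (∑ κ ∈ K, tkI ρ κ i.val) ^ 2 + 1) -
          2 * (c * ∑ κ ∈ K, tkI ρ κ i.val) := by
      funext i
      ring
    rw [e2, Av_sub, Av_add, Av_const, Av_const_mul, Av_const_mul 2, hAv1]
    have := hAv N hMN ρ
    linarith

end Pool.Agent.OmQ
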