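import Pool.Agent.Lib_MP_f1a94e_aq.DCount

/-!
# Piece TYP: the number of prime factors `p ≤ T` for most pairs
-/

set_option autoImplicit false

namespace Pool.Agent.OmAll

open Finset Pool.Agent.GaussMR Filter

namespace Typ

/-- the pairs with `-A ≤ tt r < A` -/
noncomputable def PA (A x : ℝ) : Finset (ℕ × ℕ) :=
  (pd x).filter (fun r => -A ≤ tt r ∧ tt r < A)

open Classical in
/-- the indicator of `Cd g r` -/
noncomputable def ci (g : ℕ × ℕ) (r : ℕ × ℕ) : ℝ := if Cd g r then 1 else 0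

open Classical in
/-- the indicator of `p ∈ ps T m` -/
noncomputable def ip (T p : ℕ) (r : ℕ × ℕ) : ℝ := if p ∈ ps T r.1 then 1 else 0

theorem mem_PT {T p : ℕ} : p ∈ PT T ↔ p ≤ T ∧ p.Prime ∧ p % 4 = 1 := by
  simp [PT]

theorem mem_ps {T m p : ℕ} : p ∈ ps T m ↔ p.Prime ∧ p ∣ m ^ 2 + 1 ∧ p ≤ T ∧ ¬ p ^ 2 ∣ m ^ 2 + 1 := by
  classical
  simp [ps, and_assoc]

theorem mod_four {m p : ℕ} (hm : Even m) (hp : p.Prime) (h : p ∣ m ^ 2 + 1) : p % 4 = 1 := by
  have := Fact.mk hp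
  have h2 : p ≠ 2 := by
    rintro rfl
    obtain ⟨k, rfl⟩ := hm
    have : 2 ∣ (k + k) ^ 2 := ⟨2 * k ^ 2, by ring⟩
    omega
  have h3 : p % 4 ≠ 3 := by
    apply ZMod.mod_four_ne_three_of_sq_eq_neg_one (y := (m : ZMod p))
    have h4 : ((m ^ 2 + 1 : ℕ) : ZMod p) = 0 := (ZMod.natCast_eq_zero_iff _ _).2 h
    push_cast at h4
    linear_combination h4
  have := hp.eq_two_or_odd
  omega

theorem card_ps (T m : ℕ) (hm : Even m) (r2 : ℕ) :
    ((ps T m).card : ℝ) = ∑ p ∈ PT T, ip T p (m, r2) := by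
  classical
  unfold ip
  simp only
  rw [Finset.sum_boole]
  congr 2
  ext p
  rw [mem_filter, mem_PT]
  constructor
  · intro h
    obtain ⟨h1, h2, h3, h4⟩ := mem_ps.1 h
    exact ⟨⟨h3, h1, mod_four hm h1 h2⟩, h⟩
  · exact fun h => h.2

theorem Cd_one_left {p : ℕ} (hp : p.Prime) (r : ℕ × ℕ) :
    Cd (p, 1) r ↔ p ∣ r.2 ∧ ¬ p ^ 2 ∣ r.1 ^ 2 + 1 := by
  unfold Cd
  simp [hp.primeFactors]

theorem Cd_one_right {p : ℕ} (hp : p.Prime) (r : ℕ × ℕ) :
    Cd (1, p) r ↔ p ∣ (r.1 ^ 2 + 1) / r.2 ∧ ¬ p ^ 2 ∣ r.1 ^ 2 + 1 := by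
  unfold Cd
  simp [hp.primeFactors]

theorem ip_eq {T p : ℕ} (hp : p ∈ PT T) {x : ℝ} {r : ℕ × ℕ} (hr : r ∈ pd x) :
    ip T p r = ci (p, 1) r + ci (1, p) r := by
  classical
  obtain ⟨hpT, hpp, hp4⟩ := mem_PT.1 hp
  obtain ⟨-, -, -, hd⟩ := mem_pd.1 hr
  obtain ⟨e, he⟩ := hd
  have hr2 : 0 < r.2 := by
    rcases Nat.eq_zero_or_pos r.2 with h | h
    · rw [h] at he; omega
    · exact h
  have hdiv : (r.1 ^ 2 + 1) / r.2 = e := by rw [he]; exact Nat.mul_div_cancel_left _ hr2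
  unfold ip ci
  simp only [Cd_one_left hpp, Cd_one_right hpp, mem_ps, hdiv]
  by_cases hsq : p ^ 2 ∣ r.1 ^ 2 + 1
  · simp [hsq]
  by_cases h1 : p ∣ r.2
  · by_cases h2 : p ∣ e
    · exact absurd (by rw [he, pow_two]; exact mul_dvd_mul h1 h2) hsq
    · have h3 : p ∣ r.1 ^ 2 + 1 := by rw [he]; exact dvd_mul_of_dvd_left h1 _
      simp [hsq, h1, h2, h3, hpp, hpT]
  · by_cases h2 : p ∣ e
    · have h3 : p ∣ r.1 ^ 2 + 1 := by rw [he]; exact dvd_mul_of_dvd_right h2 _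
      simp [hsq, h1, h2, h3, hpp, hpT]
    · have h3 : ¬ p ∣ r.1 ^ 2 + 1 := by
        rw [he, hpp.dvd_mul]; tauto
      simp [h1, h2, h3]

theorem pf_two {p q : ℕ} (hp : p.Prime) (hq : q.Prime) : (p * q).primeFactors = {p, q} := by
  rw [Nat.primeFactors_mul hp.ne_zero hq.ne_zero, hp.primeFactors, hq.primeFactors]
  rfl

theorem ci_mul {g h k : ℕ × ℕ} {r : ℕ × ℕ} (hgh : Cd k r ↔ Cd g r ∧ Cd h r) :
    ci g r * ci h r = ci k r := by
  classical
  unfold ci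
  by_cases h1 : Cd g r <;> by_cases h2 : Cd h r <;> simp [hgh, h1, h2]

theorem Cd_two {g h k : ℕ × ℕ} {r : ℕ × ℕ} (h1 : k.1 = g.1 * h.1) (h2 : k.2 = g.2 * h.2)
    (h3 : g.1.Coprime h.1) (h4 : g.2.Coprime h.2) (hg1 : g.1 ≠ 0) (hg2 : g.2 ≠ 0) (hh1 : h.1 ≠ 0)
    (hh2 : h.2 ≠ 0) : Cd k r ↔ Cd g r ∧ Cd h r := by
  have key : ∀ a b c : ℕ, a.Coprime b → (a * b ∣ c ↔ a ∣ c ∧ b ∣ c) := fun a b c hab =>
    ⟨fun h => ⟨(Dvd.intro _ rfl).trans h, (Dvd.intro_left _ rfl).trans h⟩,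
      fun h => Nat.Coprime.mul_dvd_of_dvd_of_dvd hab h.1 h.2⟩
  unfold Cd
  rw [h1, h2, key _ _ _ h3, key _ _ _ h4]
  have h5 : (g.1 * h.1 * (g.2 * h.2)).primeFactors =
      (g.1 * g.2).primeFactors ∪ (h.1 * h.2).primeFactors := by
    rw [← Nat.primeFactors_mul (mul_ne_zero hg1 hg2) (mul_ne_zero hh1 hh2)]
    congr 1
    ring
  rw [h5]
  simp only [mem_union]
  constructor
  · rintro ⟨⟨a1, a2⟩, ⟨b1, b2⟩, c⟩
    exact ⟨⟨a1, b1, fun p hp => c p (Or.inl hp)⟩, a2, b2, fun p hp => c p (Or.inr hp)⟩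
  · rintro ⟨⟨a1, b1, c1⟩, a2, b2, c2⟩
    exact ⟨⟨a1, a2⟩, ⟨b1, b2⟩, fun p hp => hp.elim (c1 p) (c2 p)⟩

theorem sum_ci (g : ℕ × ℕ) (A x : ℝ) : ∑ r ∈ PA A x, ci g r =
    ({r : ℕ × ℕ | r ∈ pd x ∧ Cd g r ∧ -A ≤ tt r ∧ tt r < A}.ncard : ℝ) := by
  classical
  unfold ci
  rw [Finset.sum_boole]
  congr 1
  rw [← Set.ncard_coe_finset]
  congr 1
  ext r
  simp only [PA, coe_filter, mem_filter, Set.mem_ofPred_eq]
  tauto

end Typ

/-- Chebyshev. With `A = A0 + 1`, `P = {r ∈ pd x : -A ≤ tt r < A}`: by `dcount` (`s = -A`, `t = A`), for `p ∈ PT T` the number of `r ∈ P` with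
`p ∈ ps T m` is `~ κ 2 Ap p 2 A x` (the cases `g = (p, 1)` and `(1, p)`, disjoint because `p^2 ∤ m^2+1`), for `p ≠ p'` the number with both is
`~ κ 4 Ap p Ap p' 2 A x` (four cases `(p p', 1), (p, p'), (p', p), (1, p p')`), and `#P ~ κ 2 A x` (`g = (1, 1)`). All prime factors of `m^2+1` are `1 mod 4`, so
`(ps T m).card = ∑_(p ∈ PT T) 1[p ∈ ps T m]`, hence `∑_(r ∈ P) (card - μ)^2 / x → κ 2 A (μ - 4 ∑ Ap^2) ≤ 2 A κ μ`, `μ = muT T`. So for large `x` the number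
of exceptions is at most `(64/μ^2) (2 A κ μ + μ) x`; `C = 64 (2 A κ + 1)`. -/
theorem typ (A0 : ℝ) (hA0 : 0 < A0) : ∃ C : ℝ, 0 < C ∧ ∀ T : ℕ, 0 < muT T → ∃ x0 : ℝ, ∀ x : ℝ, x0 ≤ x →
    ({r : ℕ × ℕ | r ∈ pd x ∧ |tt r| ≤ A0 ∧ muT T / 8 < |((ps T r.1).card : ℝ) - muT T|}.ncard : ℝ) ≤
      C / muT T * x := by
  classical
  obtain ⟨κ, hκ0, hκ⟩ := dcount
  set A : ℝ := A0 + 1 with hA
  have hA1 : 0 < A := by linarith
  refine ⟨64 * (2 * A * κ + 1), by positivity, fun T hμ => ?_⟩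
  -- the limit of the sums of the indicators
  have hlim : ∀ g : ℕ × ℕ, Adm g → Tendsto (fun x : ℝ => (∑ r ∈ Typ.PA A x, Typ.ci g r) / x) atTop
      (nhds (κ * (∏ p ∈ (g.1 * g.2).primeFactors, Ap p) * (2 * A))) := by
    intro g hg
    have h1 := hκ g hg (-A) A (by linarith)
    have h2 : A - -A = 2 * A := by ring
    rw [h2] at h1
    simpa only [Typ.sum_ci] using h1
  -- one prime
  have hone : ∀ p ∈ PT T, Tendsto (fun x : ℝ => (∑ r ∈ Typ.PA A x, Typ.ip T p r) / x) atTop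
      (nhds (κ * (2 * Ap p) * (2 * A))) := by
    intro p hp
    obtain ⟨-, hpp, hp4⟩ := Typ.mem_PT.1 hp
    have h1 := hlim (p, 1) ⟨by simpa using hpp.prime.squarefree, by simpa [hpp.primeFactors] using hp4⟩
    have h2 := hlim (1, p) ⟨by simpa using hpp.prime.squarefree, by simpa [hpp.primeFactors] using hp4⟩
    simp only [mul_one, one_mul, hpp.primeFactors, prod_singleton] at h1 h2
    have h3 := h1.add h2
    have h4 : κ * Ap p * (2 * A) + κ * Ap p * (2 * A) = κ * (2 * Ap p) * (2 * A) := by ring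
    rw [h4] at h3
    refine h3.congr fun x => ?_
    rw [← add_div, ← Finset.sum_add_distrib]
    congr 1
    refine Finset.sum_congr rfl fun r hr => ?_
    rw [Typ.ip_eq hp (mem_filter.1 hr).1]
  -- two primes
  have htwo : ∀ p ∈ PT T, ∀ q ∈ PT T, p ≠ q →
      Tendsto (fun x : ℝ => (∑ r ∈ Typ.PA A x, Typ.ip T p r * Typ.ip T q r) / x) atTop
      (nhds (κ * (2 * Ap p * (2 * Ap q)) * (2 * A))) := by
    intro p hp q hq hpq
    obtain ⟨-, hpp, hp4⟩ := Typ.mem_PT.1 hp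
    obtain ⟨-, hqq, hq4⟩ := Typ.mem_PT.1 hq
    have hcop : p.Coprime q := (Nat.coprime_primes hpp hqq).2 hpq
    have hsq : Squarefree (p * q) :=
      (Nat.squarefree_mul hcop).2 ⟨hpp.prime.squarefree, hqq.prime.squarefree⟩
    have hpf : ∀ z ∈ (p * q).primeFactors, z % 4 = 1 := by
      intro z hz
      rw [Typ.pf_two hpp hqq, mem_insert, mem_singleton] at hz
      rcases hz with rfl | rfl <;> assumption
    have h1 := hlim (p * q, 1) ⟨by simpa using hsq, by simpa using hpf⟩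
    have h2 := hlim (p, q) ⟨hsq, hpf⟩
    have h3 := hlim (q, p) ⟨by simpa [mul_comm q p] using hsq, by simpa [mul_comm q p] using hpf⟩
    have h4 := hlim (1, p * q) ⟨by simpa using hsq, by simpa using hpf⟩
    simp only [mul_one, one_mul, mul_comm q p] at h1 h2 h3 h4
    rw [Typ.pf_two hpp hqq, Finset.prod_pair hpq] at h1 h2 h3 h4
    have h5 := (h1.add h2).add (h3.add h4)
    have h6 : κ * (Ap p * Ap q) * (2 * A) + κ * (Ap p * Ap q) * (2 * A) +
        (κ * (Ap p * Ap q) * (2 * A) + κ * (Ap p * Ap q) * (2 * A)) =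
        κ * (2 * Ap p * (2 * Ap q)) * (2 * A) := by ring
    rw [h6] at h5
    refine h5.congr fun x => ?_
    rw [← add_div, ← add_div, ← add_div, ← Finset.sum_add_distrib, ← Finset.sum_add_distrib,
      ← Finset.sum_add_distrib]
    congr 1
    refine Finset.sum_congr rfl fun r hr => ?_
    rw [Typ.ip_eq hp (mem_filter.1 hr).1, Typ.ip_eq hq (mem_filter.1 hr).1]
    have e1 : Typ.ci (p, 1) r * Typ.ci (q, 1) r = Typ.ci (p * q, 1) r :=
      Typ.ci_mul (Typ.Cd_two rfl rfl hcop (Nat.coprime_one_left _) hpp.ne_zero one_ne_zero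
        hqq.ne_zero one_ne_zero)
    have e2 : Typ.ci (p, 1) r * Typ.ci (1, q) r = Typ.ci (p, q) r :=
      Typ.ci_mul (Typ.Cd_two (by simp) (by simp) (Nat.coprime_one_right _) (Nat.coprime_one_left _)
        hpp.ne_zero one_ne_zero one_ne_zero hqq.ne_zero)
    have e3 : Typ.ci (1, p) r * Typ.ci (q, 1) r = Typ.ci (q, p) r :=
      Typ.ci_mul (Typ.Cd_two (by simp) (by simp) (Nat.coprime_one_left _) (Nat.coprime_one_right _)
        one_ne_zero hpp.ne_zero hqq.ne_zero one_ne_zero)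
    have e4 : Typ.ci (1, p) r * Typ.ci (1, q) r = Typ.ci (1, p * q) r :=
      Typ.ci_mul (Typ.Cd_two (by simp) rfl (Nat.coprime_one_left _) hcop
        one_ne_zero hpp.ne_zero one_ne_zero hqq.ne_zero)
    linear_combination -e1 - e2 - e3 - e4
  -- the number of pairs
  have hzero : Tendsto (fun x : ℝ => ((Typ.PA A x).card : ℝ) / x) atTop (nhds (κ * (2 * A))) := by
    have h1 := hlim (1, 1) ⟨by simp, by simp⟩
    simp only [mul_one, Nat.primeFactors_one, prod_empty] at h1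
    refine h1.congr fun x => ?_
    congr 1
    have h2 : ∀ r ∈ Typ.PA A x, Typ.ci (1, 1) r = 1 := by
      intro r _
      unfold Typ.ci Cd
      simp
    rw [Finset.sum_congr rfl h2]
    simp
  -- the variance
  have hvar : Tendsto (fun x : ℝ => (∑ r ∈ Typ.PA A x, (((ps T r.1).card : ℝ) - muT T) ^ 2) / x) atTop
      (nhds (κ * (2 * A) * (muT T - 4 * ∑ p ∈ PT T, Ap p ^ 2))) := by
    have h1 : Tendsto (fun x : ℝ => ∑ p ∈ PT T, ∑ q ∈ PT T,
        (∑ r ∈ Typ.PA A x, Typ.ip T p r * Typ.ip T q r) / x) atTop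
        (nhds (∑ p ∈ PT T, ∑ q ∈ PT T, (κ * (2 * A)) * (2 * Ap p * (2 * Ap q) +
          if p = q then 2 * Ap p - 4 * Ap p ^ 2 else 0))) := by
      refine tendsto_finsetSum _ fun p hp => tendsto_finsetSum _ fun q hq => ?_
      by_cases hpq : p = q
      · subst hpq
        have h2 := hone p hp
        have h3 : κ * (2 * A) * (2 * Ap p * (2 * Ap p) + if p = p then 2 * Ap p - 4 * Ap p ^ 2 else 0) =
            κ * (2 * Ap p) * (2 * A) := by
          rw [if_pos rfl]; ring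
        rw [h3]
        refine h2.congr fun x => ?_
        congr 1
        refine Finset.sum_congr rfl fun r _ => ?_
        unfold Typ.ip
        split_ifs <;> simp
      · have h2 := htwo p hp q hq hpq
        have h3 : κ * (2 * A) * (2 * Ap p * (2 * Ap q) + if p = q then 2 * Ap p - 4 * Ap p ^ 2 else 0) =
            κ * (2 * Ap p * (2 * Ap q)) * (2 * A) := by
          rw [if_neg hpq]; ring
        rw [h3]
        exact h2
    have h2 : Tendsto (fun x : ℝ => ∑ p ∈ PT T, (∑ r ∈ Typ.PA A x, Typ.ip T p r) / x) atTop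
        (nhds (∑ p ∈ PT T, κ * (2 * Ap p) * (2 * A))) := tendsto_finsetSum _ fun p hp => hone p hp
    have h3 := (h1.sub (h2.const_mul (2 * muT T))).add (hzero.const_mul (muT T ^ 2))
    have h4 : (∑ p ∈ PT T, ∑ q ∈ PT T, (κ * (2 * A)) * (2 * Ap p * (2 * Ap q) +
          if p = q then 2 * Ap p - 4 * Ap p ^ 2 else 0)) -
        2 * muT T * (∑ p ∈ PT T, κ * (2 * Ap p) * (2 * A)) + muT T ^ 2 * (κ * (2 * A)) =
        κ * (2 * A) * (muT T - 4 * ∑ p ∈ PT T, Ap p ^ 2) := by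
      have h5 : ∑ p ∈ PT T, ∑ q ∈ PT T, (κ * (2 * A)) * (2 * Ap p * (2 * Ap q) +
          if p = q then 2 * Ap p - 4 * Ap p ^ 2 else 0) =
          (κ * (2 * A)) * (muT T * muT T + (muT T - 4 * ∑ p ∈ PT T, Ap p ^ 2)) := by
        simp only [← Finset.mul_sum, Finset.sum_add_distrib]
        congr 2
        · unfold muT
          rw [Finset.sum_mul]
          refine Finset.sum_congr rfl fun p _ => ?_
          rw [Finset.mul_sum]
        · rw [Finset.sum_congr rfl (fun p hp => Finset.sum_ite_eq (PT T) p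
            (fun q => 2 * Ap p - 4 * Ap p ^ 2))]
          rw [Finset.sum_congr rfl (fun p hp => if_pos hp)]
          rw [Finset.sum_sub_distrib]
          unfold muT
          rw [Finset.mul_sum (f := fun p => Ap p ^ 2)]
      have h6 : ∑ p ∈ PT T, κ * (2 * Ap p) * (2 * A) = κ * (2 * A) * muT T := by
        unfold muT
        rw [Finset.mul_sum]
        exact Finset.sum_congr rfl fun p _ => by ring
      rw [h5, h6]
      ring
    rw [h4] at h3
    refine h3.congr fun x => ?_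
    have h7 : ∀ r ∈ Typ.PA A x, (((ps T r.1).card : ℝ) - muT T) ^ 2 =
        (∑ p ∈ PT T, ∑ q ∈ PT T, Typ.ip T p r * Typ.ip T q r) -
          2 * muT T * (∑ p ∈ PT T, Typ.ip T p r) + muT T ^ 2 := by
      intro r hr
      have hev : Even r.1 := (mem_pd.1 (mem_filter.1 hr).1).2.2.1
      have h8 := Typ.card_ps T r.1 hev r.2
      rw [h8, ← Finset.sum_mul_sum]
      ring
    rw [Finset.sum_congr rfl h7, Finset.sum_add_distrib, Finset.sum_sub_distrib,
      Finset.sum_comm (s := Typ.PA A x) (t := PT T), ← Finset.mul_sum,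
      Finset.sum_comm (s := Typ.PA A x) (t := PT T)]
    have h9 : ∑ p ∈ PT T, ∑ q ∈ PT T, (∑ r ∈ Typ.PA A x, Typ.ip T p r * Typ.ip T q r) / x =
        (∑ p ∈ PT T, ∑ r ∈ Typ.PA A x, ∑ q ∈ PT T, Typ.ip T p r * Typ.ip T q r) / x := by
      rw [Finset.sum_div]
      refine Finset.sum_congr rfl fun p _ => ?_
      rw [Finset.sum_comm (s := Typ.PA A x) (t := PT T), Finset.sum_div]
    have h10 : ∑ p ∈ PT T, (∑ r ∈ Typ.PA A x, Typ.ip T p r) / x =
        (∑ p ∈ PT T, ∑ r ∈ Typ.PA A x, Typ.ip T p r) / x := by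
      rw [Finset.sum_div]
    rw [h9, h10, Finset.sum_const, nsmul_eq_mul]
    ring
  -- conclusion
  have hlt : κ * (2 * A) * (muT T - 4 * ∑ p ∈ PT T, Ap p ^ 2) < (2 * A * κ + 1) * muT T := by
    have h1 : 0 ≤ ∑ p ∈ PT T, Ap p ^ 2 := Finset.sum_nonneg fun p _ => sq_nonneg _
    have h2 : 0 ≤ κ * (2 * A) := by positivity
    nlinarith [mul_nonneg h2 h1]
  obtain ⟨x1, hx1⟩ := eventually_atTop.1 (hvar.eventually_lt_const hlt)
  refine ⟨max x1 1, fun x hx => ?_⟩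
  have hx1' := hx1 x ((le_max_left _ _).trans hx)
  have hx0 : 0 < x := lt_of_lt_of_le one_pos ((le_max_right _ _).trans hx)
  rw [div_lt_iff₀ hx0] at hx1'
  set E : Finset (ℕ × ℕ) := (Typ.PA A x).filter
    (fun r => muT T / 8 < |((ps T r.1).card : ℝ) - muT T|) with hE
  have hsub : {r : ℕ × ℕ | r ∈ pd x ∧ |tt r| ≤ A0 ∧ muT T / 8 < |((ps T r.1).card : ℝ) - muT T|} ⊆
      (E : Set (ℕ × ℕ)) := by
    rintro r ⟨h1, h2, h3⟩
    rw [abs_le] at h2
    simp only [hE, Typ.PA, coe_filter, mem_filter, Set.mem_ofPred_eq]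
    exact ⟨⟨h1, by linarith, by linarith⟩, h3⟩
  have h1 : ({r : ℕ × ℕ | r ∈ pd x ∧ |tt r| ≤ A0 ∧ muT T / 8 < |((ps T r.1).card : ℝ) - muT T|}.ncard : ℝ) ≤
      (E.card : ℝ) := by
    have := Set.ncard_le_ncard hsub E.finite_toSet
    rw [Set.ncard_coe_finset] at this
    exact_mod_cast this
  have h2 : (E.card : ℝ) * (muT T / 8) ^ 2 ≤ ∑ r ∈ Typ.PA A x, (((ps T r.1).card : ℝ) - muT T) ^ 2 := by
    calc (E.card : ℝ) * (muT T / 8) ^ 2 = ∑ r ∈ E, (muT T / 8) ^ 2 := by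
          rw [Finset.sum_const, nsmul_eq_mul]
      _ ≤ ∑ r ∈ E, (((ps T r.1).card : ℝ) - muT T) ^ 2 := by
          refine Finset.sum_le_sum fun r hr => ?_
          rw [← sq_abs (((ps T r.1).card : ℝ) - muT T)]
          exact pow_le_pow_left₀ (by positivity) (mem_filter.1 hr).2.le 2
      _ ≤ _ := Finset.sum_le_sum_of_subset_of_nonneg (Finset.filter_subset _ _)
          fun r _ _ => sq_nonneg _
  have h3 : (E.card : ℝ) * (muT T / 8) ^ 2 ≤ (2 * A * κ + 1) * muT T * x := h2.trans hx1'.le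
  refine h1.trans ?_
  rw [div_mul_eq_mul_div, le_div_iff₀ hμ]
  have h4 : (E.card : ℝ) * muT T * muT T ≤ 64 * (2 * A * κ + 1) * x * muT T := by nlinarith
  exact le_of_mul_le_mul_right h4 hμ

end Pool.Agent.OmAll
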