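import Pool.Agent.Lib_MP_f1a94e_aq.TyS
import Pool.Agent.Lib_MP_f1a94e_aq.Typ
import Pool.Agent.Lib_MP_f1a94e_aq.Expand

/-!
# Piece TV: balanced and very balanced divisors see the same `m`
-/

set_option autoImplicit false

namespace Pool.Agent.OmAll

open Finset Pool.Agent.GaussMR Filter

lemma Hf_abs_le (a b t : ℝ) (ha : 0 < a) (hab : a ≤ b) : |Hf a b t| ≤ b := by
  unfold Hf
  have h1 := Kf_nonneg a t ha.le
  have h2 := Kf_nonneg b t (ha.le.trans hab)
  have h3 := Kf_le a t ha.le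
  have h4 := Kf_le b t (ha.le.trans hab)
  rw [abs_le]
  constructor <;> linarith

lemma Hf_abs_sq (a b t : ℝ) (ha : 0 < a) (hab : a ≤ b) (ht : t ≠ 0) :
    |Hf a b t| ≤ 4 / a * (1 / t ^ 2) := by
  unfold Hf
  have h1 := Kf_nonneg a t ha.le
  have h2 := Kf_nonneg b t (ha.le.trans hab)
  have h3 := Kf_le_sq a t ha ht
  have h4 := Kf_le_sq b t (ha.trans_le hab) ht
  have h7 : 0 < t ^ 2 := by positivity
  have h5 : 4 / (b * t ^ 2) ≤ 4 / (a * t ^ 2) := by gcongr
  have h6 : 4 / a * (1 / t ^ 2) = 4 / (a * t ^ 2) := by field_simp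
  rw [h6, abs_le]
  constructor <;> linarith

open Classical in
/-- Summing over clusters. -/
lemma sum_cl (x : ℝ) (T : ℕ) (F : ℕ × ℕ → ℝ) :
    ∑ r ∈ pd x, F r = ∑ r ∈ cl x T, ∑ h ∈ (sT T r.1).divisors, F (r.1, r.2 * h) := by
  unfold cl
  rw [sum_filter, sum_pd, sum_pd]
  refine sum_congr rfl fun m _ => ?_
  rw [sum_cluster T m (fun d => F (m, d)), ← sum_filter]
  have hs := (sT_spec T m).2.1
  have hne : (m ^ 2 + 1) / sT T m ≠ 0 := by
    intro h0
    have h1 := Nat.div_mul_cancel hs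
    rw [h0, zero_mul] at h1
    omega
  refine sum_congr ?_ fun c _ => rfl
  ext d
  simp only [Nat.mem_divisors, mem_filter]
  constructor
  · rintro ⟨h1, _⟩
    exact ⟨⟨h1.trans (Nat.div_dvd_of_dvd hs), by positivity⟩, h1⟩
  · rintro ⟨_, h1⟩
    exact ⟨h1, hne⟩

open Classical in
/-- The bound for one element of a cluster which is not typical. -/
noncomputable def Ph (a b A0 : ℝ) (T : ℕ) (r : ℕ × ℕ) : ℝ :=
  (if |tt r| ≤ A0 ∧ muT T / 8 < |((ps T r.1).card : ℝ) - muT T| then b else 0) +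
    (if A0 ≤ |tt r| then |Hf a b (tt r)| else 0)

lemma Ph_nonneg (a b A0 : ℝ) (hb : 0 ≤ b) (T : ℕ) (r : ℕ × ℕ) : 0 ≤ Ph a b A0 T r := by
  unfold Ph
  apply add_nonneg
  · split_ifs
    · exact hb
    · exact le_rfl
  · split_ifs
    · exact abs_nonneg _
    · exact le_rfl

lemma fC_le_Ph (a b : ℝ) (ha : 0 < a) (hab : a ≤ b) (A0 : ℝ) (T m c : ℕ) (h : ¬ Ty A0 T m c) :
    |fC a b T m c| ≤ ∑ h ∈ (sT T m).divisors, Ph a b A0 T (m, c * h) := by
  unfold fC
  refine (abs_sum_le_sum_abs _ _).trans (sum_le_sum fun k hk => ?_)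
  unfold Ph
  by_cases h1 : A0 ≤ |tt (m, c * k)|
  · rw [if_pos h1]
    have : 0 ≤ (if |tt (m, c * k)| ≤ A0 ∧
        muT T / 8 < |((ps T (m, c * k).1).card : ℝ) - muT T| then b else 0) := by
      split_ifs
      · exact ha.le.trans hab
      · exact le_rfl
    linarith
  · rw [if_neg h1, add_zero, if_pos]
    · exact Hf_abs_le a b _ ha hab
    · refine ⟨(not_le.1 h1).le, ?_⟩
      by_contra h2
      apply h
      exact ⟨not_lt.1 h2, k, hk, (not_le.1 h1).le⟩

/-- The mean number of primes tends to infinity. -/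
lemma exists_muT (M : ℝ) (T0 : ℕ) : ∃ T : ℕ, T0 ≤ T ∧ 3 ≤ T ∧ M ≤ muT T := by
  obtain ⟨C, hC⟩ := mu_bound
  have h1 : Tendsto (fun T : ℕ => Real.log (Real.log (T : ℝ))) atTop atTop :=
    Real.tendsto_log_atTop.comp (Real.tendsto_log_atTop.comp tendsto_natCast_atTop_atTop)
  obtain ⟨T, hT1, hT2, hT3⟩ := ((h1.eventually_ge_atTop ((M + C) / 2)).and
    ((eventually_ge_atTop T0).and (eventually_ge_atTop 3))).exists
  refine ⟨T, hT2, hT3, ?_⟩
  have h2 := abs_le.1 (hC T hT3)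
  linarith [h2.1]

open Classical in
/-- The sum of the bounds over all pairs. -/
lemma sum_Ph (a b : ℝ) (ha : 0 < a) (hab : a ≤ b) (A0 : ℝ) (hA0 : 0 < A0) (T : ℕ) (x : ℝ) :
    ∑ r ∈ pd x, Ph a b A0 T r ≤
      b * ({r : ℕ × ℕ | r ∈ pd x ∧ |tt r| ≤ A0 ∧
        muT T / 8 < |((ps T r.1).card : ℝ) - muT T|}.ncard : ℝ) +
      4 / a * ∑ r ∈ (pd x).filter (fun r => A0 ≤ |tt r|), 1 / (tt r) ^ 2 := by
  unfold Ph
  rw [sum_add_distrib]
  apply add_le_add
  · rw [← sum_filter, sum_const, nsmul_eq_mul, mul_comm]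
    have hset : {r : ℕ × ℕ | r ∈ pd x ∧ |tt r| ≤ A0 ∧
        muT T / 8 < |((ps T r.1).card : ℝ) - muT T|} =
        (((pd x).filter (fun r => |tt r| ≤ A0 ∧
          muT T / 8 < |((ps T r.1).card : ℝ) - muT T|) : Finset (ℕ × ℕ)) : Set (ℕ × ℕ)) := by
      ext r
      simp
    rw [hset, Set.ncard_coe_finset]
  · rw [← sum_filter, mul_sum]
    refine sum_le_sum fun r hr => ?_
    rw [mem_filter] at hr
    apply Hf_abs_sq a b _ ha hab
    intro h0
    rw [h0, abs_zero] at hr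
    linarith [hr.2]

open Classical in
/-- `∑_(r ∈ pd x, B m) H = ∑_(m, c) fC` over the clusters with `B m` (`sum_pd`, `sum_cluster`; the condition depends on `m` only). Typical clusters: `typ_sum` with `δ/3`.
A cluster that is not typical contributes at most `∑ |H (tt r)|` over its elements `r`; either its number of primes is not typical, or all elements have `|tt| > A0`. So
altogether at most `(2 b) #{r : |tt r| ≤ A0, μ/8 < |#ps - μ|} + ∑_(|tt r| > A0) |H (tt r)|`; the first term is at most `2 b C x / μ` (`typ`), the second at most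
`(4 b + 16/a) C x / A0` (`sq_tail`). Choose `A0`, then `T`, then `x0`. -/
theorem tv (a b : ℝ) (ha : 0 < a) (hab : a ≤ b) (δ : ℝ) (hδ : 0 < δ) : ∃ x0 : ℝ, ∀ x : ℝ, x0 ≤ x →
    ∀ B : ℕ → Prop, |∑ r ∈ (pd x).filter (fun r => B r.1), Hf a b (tt r)| ≤ δ * x := by
  have hb : 0 < b := ha.trans_le hab
  obtain ⟨C, hC, hsq⟩ := sq_tail
  set A0 : ℝ := max 1 (12 * C / (a * δ)) with hA0def
  have hA1 : 1 ≤ A0 := le_max_left _ _
  have hA0 : 0 < A0 := by linarith
  have hA2 : 12 * C / (a * δ) ≤ A0 := le_max_right _ _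
  obtain ⟨C1, hC1, htyp⟩ := typ A0 hA0
  obtain ⟨T0, hT0⟩ := typ_sum a b ha hab A0 hA1 (δ / 3) (by positivity)
  obtain ⟨T, hT1, hT3, hmu⟩ := exists_muT (max 1 (3 * b * C1 / δ)) T0
  have hmu1 : 1 ≤ muT T := (le_max_left _ _).trans hmu
  have hmu2 : 3 * b * C1 / δ ≤ muT T := (le_max_right _ _).trans hmu
  have hmu0 : 0 < muT T := by linarith
  obtain ⟨x1, hx1⟩ := hT0 T hT1
  obtain ⟨x2, hx2⟩ := htyp T hmu0
  refine ⟨max x1 (max x2 1), fun x hx B => ?_⟩
  have hxa : x1 ≤ x := (le_max_left _ _).trans hx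
  have hxb : x2 ≤ x := (le_max_left _ _).trans ((le_max_right _ _).trans hx)
  have hxc : 1 ≤ x := (le_max_right _ _).trans ((le_max_right _ _).trans hx)
  have hx0 : 0 < x := by linarith
  -- the sum over clusters
  have e1 : ∑ r ∈ (pd x).filter (fun r => B r.1), Hf a b (tt r) =
      ∑ r ∈ cl x T, (if B r.1 then fC a b T r.1 r.2 else 0) := by
    rw [sum_filter, sum_cl x T]
    refine sum_congr rfl fun r _ => ?_
    by_cases hB : B r.1
    · simp only [hB, if_true]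
      rfl
    · simp only [hB, if_false, sum_const_zero]
  have e2 : |∑ r ∈ (pd x).filter (fun r => B r.1), Hf a b (tt r)| ≤
      ∑ r ∈ cl x T, |fC a b T r.1 r.2| := by
    rw [e1]
    refine (abs_sum_le_sum_abs _ _).trans (sum_le_sum fun r _ => ?_)
    split_ifs
    · exact le_rfl
    · rw [abs_zero]
      exact abs_nonneg _
  have e3 : ∑ r ∈ cl x T, |fC a b T r.1 r.2| =
      ∑ r ∈ (cl x T).filter (fun r => Ty A0 T r.1 r.2), |fC a b T r.1 r.2| +
      ∑ r ∈ (cl x T).filter (fun r => ¬ Ty A0 T r.1 r.2), |fC a b T r.1 r.2| :=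
    (sum_filter_add_sum_filter_not _ _ _).symm
  have e4 : ∑ r ∈ (cl x T).filter (fun r => ¬ Ty A0 T r.1 r.2), |fC a b T r.1 r.2| ≤
      ∑ r ∈ pd x, Ph a b A0 T r := by
    rw [sum_cl x T]
    refine (sum_le_sum (g := fun r => ∑ h ∈ (sT T r.1).divisors, Ph a b A0 T (r.1, r.2 * h))
      fun r hr => ?_).trans ?_
    · rw [mem_filter] at hr
      exact fC_le_Ph a b ha hab A0 T r.1 r.2 hr.2
    · refine sum_le_sum_of_subset_of_nonneg (filter_subset _ _) fun r _ _ => ?_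
      exact sum_nonneg fun h _ => Ph_nonneg a b A0 hb.le T _
  have e5 := sum_Ph a b ha hab A0 hA0 T x
  have e6 := hx2 x hxb
  have e7 := hsq A0 hA0 x hxc
  have e8 := hx1 x hxa
  -- the constants
  have c1 : b * (C1 / muT T * x) ≤ δ / 3 * x := by
    have h1 : b * (C1 / muT T) ≤ δ / 3 := by
      rw [div_le_iff₀ hδ] at hmu2
      rw [mul_div_assoc', div_le_iff₀ hmu0]
      linarith
    calc b * (C1 / muT T * x) = b * (C1 / muT T) * x := by ring
      _ ≤ _ := mul_le_mul_of_nonneg_right h1 hx0.le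
  have c2 : 4 / a * (C / A0 * x) ≤ δ / 3 * x := by
    have h1 : 4 / a * (C / A0) ≤ δ / 3 := by
      rw [div_le_iff₀ (by positivity)] at hA2
      rw [div_mul_div_comm, div_le_iff₀ (by positivity)]
      nlinarith
    calc 4 / a * (C / A0 * x) = 4 / a * (C / A0) * x := by ring
      _ ≤ _ := mul_le_mul_of_nonneg_right h1 hx0.le
  have e9 : b * ({r : ℕ × ℕ | r ∈ pd x ∧ |tt r| ≤ A0 ∧
      muT T / 8 < |((ps T r.1).card : ℝ) - muT T|}.ncard : ℝ) ≤ b * (C1 / muT T * x) :=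
    mul_le_mul_of_nonneg_left e6 hb.le
  have e10 : 4 / a * ∑ r ∈ (pd x).filter (fun r => A0 ≤ |tt r|), 1 / (tt r) ^ 2 ≤
      4 / a * (C / A0 * x) :=
    mul_le_mul_of_nonneg_left e7 (by positivity)
  calc |∑ r ∈ (pd x).filter (fun r => B r.1), Hf a b (tt r)|
      ≤ ∑ r ∈ cl x T, |fC a b T r.1 r.2| := e2
    _ ≤ δ / 3 * x + (δ / 3 * x + δ / 3 * x) := by
        rw [e3]
        linarith
    _ = δ * x := by ring

end Pool.Agent.OmAll
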