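import Pool.Agent.Lib_MP_f1a94e_q.ThmS
import Pool.Agent.Lib_MP_f1a94e_aq.StepH
import Pool.Agent.Lib_MP_f1a94e_aq.TKH
import Pool.Agent.Lib_MP_f1a94e_aq.HHset

/-!
# Structure theorem, all shifts
-/

set_option autoImplicit false

namespace Pool.Agent.OmQ

open Finset LibLS

/-- structure theorem, all shifts -/
theorem thmU (q : ℕ) [NeZero q] (TT : Set (ZMod q)) (b : ℕ) (hb : 0 < b) (T0 : ℕ) (δ : ℝ) (hδ : 0 < δ) :
    ∃ (K0 Pi : ℕ) (ε0 : ℝ), 0 < Pi ∧ b ∣ Pi ∧ 0 < ε0 ∧ ∀ (N : ℕ) [NeZero N], Pi ∣ N →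
      ∀ (X Y : ZMod N → ZMod q) (A A' : ZMod N → Prop) (ρ : ℕ → ℕ),
      Av (fun i => ind (Good K0 b ρ TT X Y A A' i)) < ε0 →
      ∃ W T : ℕ, 0 < W ∧ 4 * b ∣ W ∧ T0 ≤ T ∧ 0 < T ∧
        ∀ c c' : ZMod q, (∃ j : ℕ, c + c' - 2 * (j : ZMod q) ∈ TT) →
          ∑ h ∈ HH W, Av (fun i => ind (A i ∧ X i = c) *
            avW W T (fun i => ind (A' i ∧ Y i = c')) (i + (h : ZMod N))) ≤ δ * (HH W).card := by
  classical
  have hq : 0 < q := Nat.pos_of_ne_zero (NeZero.ne q)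
  have hqR : (1 : ℝ) ≤ q := by exact_mod_cast hq
  obtain ⟨c0, hc0, hN2⟩ := primes_scale
  obtain ⟨C1, hC1, hS1⟩ := S1
  set Cb : ℝ := C1 / c0 with hCbdef
  have hCb : 0 < Cb := by positivity
  set τ : ℝ := min 1 (δ / 8) with hτdef
  have hτ : 0 < τ := by rw [hτdef]; positivity
  have hτ1 : τ ≤ 1 := min_le_left _ _
  have hτδ : 8 * τ ≤ δ := by
    have : τ ≤ δ / 8 := min_le_right _ _
    linarith
  obtain ⟨L, hL1, hLv, hLC⟩ := exists_L q τ Cb hτ
  have hL0 : 0 < L := by linarith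
  -- level data
  have hdata : ∀ W : ℕ, 0 < W → ∀ m : ℕ, 0 < m → ∀ h : ℕ, h.Coprime W →
      ∃ (K : Finset ℕ) (w : ℕ → ℝ) (M : ℕ), 0 < M ∧
      (∀ κ ∈ K, Squarefree κ ∧ κ.primeFactors.card = m ∧ κ % W = h % W ∧
        (∀ p ∈ κ.primeFactors, (p % W = 1 % W ∨ p % W = h % W) ∧ b < p) ∧ κ ∣ M ∧ 0 ≤ w κ) ∧
      ∑ κ ∈ K, w κ = 1 ∧ ∑ κ ∈ K, w κ ^ 2 * κ ≤ 1 / L ∧
      ∀ (N : ℕ) [NeZero N], M ∣ N → ∀ ρ : ℕ → ℕ,
        Av (fun i : ZMod N => ∑ κ ∈ K, w κ * κ * ind (Dv ρ κ i)) = 1 ∧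
        Av (fun i : ZMod N => (∑ κ ∈ K, w κ * κ * ind (Dv ρ κ i) - 1) ^ 2) ≤ (1 + 1 / L) ^ m - 1 :=
    fun W hW m hm h hh => tkH m hm W hW h hh b L hL1
  choose! Kf wf Mf hMf using hdata
  choose D0 nS hD0 hS using fun (W m h : ℕ) => hS1 (Kf W m h)
  -- the chain
  set Wt : ℕ → ℕ := fun t => Nat.rec (4 * b)
    (fun _ W => W * ∏ m ∈ Icc 1 q, ∏ h ∈ HH W, D0 W m h) t with hWt
  have hWt0 : Wt 0 = 4 * b := rfl
  have hWts : ∀ t, Wt (t + 1) = Wt t * ∏ m ∈ Icc 1 q, ∏ h ∈ HH (Wt t), D0 (Wt t) m h := fun t => rfl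
  have hWpos : ∀ t, 0 < Wt t := by
    intro t
    induction t with
    | zero => rw [hWt0]; omega
    | succ t ih =>
      rw [hWts]
      apply Nat.mul_pos ih
      exact Finset.prod_pos fun m _ => Finset.prod_pos fun h _ => hD0 _ m h
  have hWdvd : ∀ t, Wt t ∣ Wt (t + 1) := fun t => by rw [hWts]; exact Dvd.intro _ rfl
  have hWD : ∀ t, ∀ m ∈ Icc 1 q, ∀ h ∈ HH (Wt t), D0 (Wt t) m h ∣ Wt (t + 1) := fun t m hm h hh => by
    rw [hWts]
    exact Dvd.dvd.mul_left ((Finset.dvd_prod_of_mem (fun h => D0 (Wt t) m h) hh).trans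
      (Finset.dvd_prod_of_mem (fun m => ∏ h ∈ HH (Wt t), D0 (Wt t) m h) hm)) _
  have hWb : ∀ t, 4 * b ∣ Wt t := by
    intro t
    induction t with
    | zero => rw [hWt0]
    | succ t ih => exact ih.trans (hWdvd t)
  have hWle : ∀ t t', t ≤ t' → Wt t ∣ Wt t' := by
    intro t t' h
    induction t', h using Nat.le_induction with
    | base => exact dvd_rfl
    | succ n _ ih => exact ih.trans (hWdvd n)
  -- size of the array
  obtain ⟨J, hJ⟩ := exists_nat_gt (32 * q / (3 * τ ^ 2))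
  have hJ0 : 0 < J := by
    have : (0 : ℝ) < J := lt_trans (by positivity) hJ
    exact_mod_cast this
  have hJR : (0 : ℝ) < J := by exact_mod_cast hJ0
  have hJτ : 4 * (2 * (q : ℝ) / J) + 4 * (τ / 4) ^ 2 ≤ τ ^ 2 := by
    have h1 : 32 * (q : ℝ) ≤ J * (3 * τ ^ 2) := by
      rw [div_lt_iff₀ (by positivity)] at hJ
      exact hJ.le
    have h2 : 4 * (2 * (q : ℝ) / J) ≤ 3 * τ ^ 2 / 4 := by
      rw [mul_div_assoc', div_le_iff₀ hJR]
      linarith
    nlinarith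
  -- the bound for all kappa
  set Kb : ℕ := 1 + ∑ t ∈ range J, ∑ m ∈ Icc 1 q, ∑ h ∈ HH (Wt t), ∑ κ ∈ Kf (Wt t) m h, κ with hKb
  have hKb0 : 0 < Kb := by omega
  have hKbR : (1 : ℝ) ≤ Kb := by exact_mod_cast hKb0
  have hsumle : ∀ t ∈ range J, ∀ m ∈ Icc 1 q, ∀ h ∈ HH (Wt t), ∑ κ ∈ Kf (Wt t) m h, κ ≤ Kb := by
    intro t ht m hm h hh
    have h0 : ∑ κ ∈ Kf (Wt t) m h, κ ≤ ∑ h ∈ HH (Wt t), ∑ κ ∈ Kf (Wt t) m h, κ :=
      Finset.single_le_sum (f := fun h => ∑ κ ∈ Kf (Wt t) m h, κ) (fun _ _ => Nat.zero_le _) hh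
    have h1 : ∑ h ∈ HH (Wt t), ∑ κ ∈ Kf (Wt t) m h, κ ≤
        ∑ m ∈ Icc 1 q, ∑ h ∈ HH (Wt t), ∑ κ ∈ Kf (Wt t) m h, κ :=
      Finset.single_le_sum (f := fun m => ∑ h ∈ HH (Wt t), ∑ κ ∈ Kf (Wt t) m h, κ)
        (fun _ _ => Nat.zero_le _) hm
    have h2 : ∑ m ∈ Icc 1 q, ∑ h ∈ HH (Wt t), ∑ κ ∈ Kf (Wt t) m h, κ ≤
        ∑ t ∈ range J, ∑ m ∈ Icc 1 q, ∑ h ∈ HH (Wt t), ∑ κ ∈ Kf (Wt t) m h, κ :=
      Finset.single_le_sum (f := fun t => ∑ m ∈ Icc 1 q, ∑ h ∈ HH (Wt t), ∑ κ ∈ Kf (Wt t) m h, κ)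
        (fun _ _ => Nat.zero_le _) ht
    omega
  have hm1 : ∀ m ∈ Icc 1 q, 0 < m := fun m hm => (Finset.mem_Icc.mp hm).1
  have hκle : ∀ t ∈ range J, ∀ m ∈ Icc 1 q, ∀ h ∈ HH (Wt t), ∀ κ ∈ Kf (Wt t) m h, κ ≤ Kb := by
    intro t ht m hm h hh κ hκ
    exact (Finset.single_le_sum (f := fun κ => κ) (fun _ _ => Nat.zero_le _) hκ).trans
      (hsumle t ht m hm h hh)
  have hcardle : ∀ t ∈ range J, ∀ m ∈ Icc 1 q, ∀ h ∈ HH (Wt t), (Kf (Wt t) m h).card ≤ Kb := by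
    intro t ht m hm h hh
    refine le_trans ?_ (hsumle t ht m hm h hh)
    rw [Finset.card_eq_sum_ones]
    apply Finset.sum_le_sum
    intro κ hκ
    have := ((hMf (Wt t) (hWpos t) m (hm1 m hm) h (mem_HH.1 hh).2.1).2.1 κ hκ).1.ne_zero
    omega
  set β : ℝ := 2 * Real.pi * Wt J * Kb / (τ / 4) with hβdef
  set α : ℝ := τ / 4 * τ / (8 * Real.pi * Kb) with hαdef
  have hpi := Real.pi_pos
  have hWJR : (1 : ℝ) ≤ Wt J := by exact_mod_cast hWpos J
  have hβ : 0 < β := by rw [hβdef]; positivity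
  have hα : 0 < α := by rw [hαdef]; positivity
  set R : ℝ := Wt J * β / α with hRdef
  have hR : (Wt J : ℝ) * β ≤ R * α := by rw [hRdef]; field_simp; exact le_rfl
  obtain ⟨r, hr⟩ : ∃ r : ℕ, R ≤ 2 ^ r := by
    obtain ⟨r, hr⟩ := pow_unbounded_of_one_lt R (by norm_num : (1 : ℝ) < 2)
    exact ⟨r, hr.le⟩
  -- minimal scale
  obtain ⟨n2, hn2⟩ : ∃ n2 : ℕ, (b : ℝ) + Kb + 2 * Real.pi * Wt J * Kb + T0 * Wt J < 2 ^ n2 :=
    pow_unbounded_of_one_lt _ (by norm_num : (1 : ℝ) < 2)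
  set nmin : ℕ := n2 + ∑ t ∈ range J, ∑ m ∈ Icc 1 q, ∑ h ∈ HH (Wt t), nS (Wt t) m h with hnmin
  have hnS : ∀ t ∈ range J, ∀ m ∈ Icc 1 q, ∀ h ∈ HH (Wt t), nS (Wt t) m h ≤ nmin := by
    intro t ht m hm h hh
    have h0 : nS (Wt t) m h ≤ ∑ h ∈ HH (Wt t), nS (Wt t) m h :=
      Finset.single_le_sum (f := fun h => nS (Wt t) m h) (fun _ _ => Nat.zero_le _) hh
    have h1 : ∑ h ∈ HH (Wt t), nS (Wt t) m h ≤ ∑ m ∈ Icc 1 q, ∑ h ∈ HH (Wt t), nS (Wt t) m h :=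
      Finset.single_le_sum (f := fun m => ∑ h ∈ HH (Wt t), nS (Wt t) m h)
        (fun _ _ => Nat.zero_le _) hm
    have h2 : ∑ m ∈ Icc 1 q, ∑ h ∈ HH (Wt t), nS (Wt t) m h ≤
        ∑ t ∈ range J, ∑ m ∈ Icc 1 q, ∑ h ∈ HH (Wt t), nS (Wt t) m h :=
      Finset.single_le_sum (f := fun t => ∑ m ∈ Icc 1 q, ∑ h ∈ HH (Wt t), nS (Wt t) m h)
        (fun _ _ => Nat.zero_le _) ht
    omega
  have hbig : ∀ n, nmin ≤ n → (b : ℝ) + Kb + 2 * Real.pi * Wt J * Kb + T0 * Wt J < 2 ^ n := by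
    intro n hn
    refine lt_of_lt_of_le hn2 ?_
    exact pow_le_pow_right₀ (by norm_num) (by omega)
  have hbign : ∀ n, nmin ≤ n → b < 2 ^ n ∧ Kb < 2 ^ n ∧ 2 * Real.pi * Wt J * Kb ≤ 2 ^ n ∧
      (T0 : ℝ) * Wt J ≤ 2 ^ n := by
    intro n hn
    have h1 := hbig n hn
    have h2 : (0 : ℝ) ≤ 2 * Real.pi * Wt J * Kb := by positivity
    have h3 : (0 : ℝ) ≤ b := Nat.cast_nonneg _
    have h4 : (0 : ℝ) ≤ T0 * Wt J := by positivity
    refine ⟨?_, ?_, by linarith, by linarith⟩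
    · have : (b : ℝ) < ((2 ^ n : ℕ) : ℝ) := by push_cast; linarith
      exact_mod_cast this
    · have : (Kb : ℝ) < ((2 ^ n : ℕ) : ℝ) := by push_cast; linarith
      exact_mod_cast this
  -- entropy parameters
  set ε : ℝ := τ / (6 * Kb) with hεdef
  have hε : 0 < ε := by rw [hεdef]; positivity
  set lg : ℝ := Real.log (Fintype.card ((ZMod q × Bool) × (ZMod q × Bool))) with hlg
  set M0 : ℝ := (((2 * Kb + 1 : ℕ) : ℝ) * lg + 1) / ε ^ 2 with hM0
  choose n1 hn1 hn1M using fun n0 => hN2 n0 M0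
  set a : ℕ → ℕ := fun j => Nat.rec nmin (fun _ x => n1 x + r) j with ha
  have ha0 : a 0 = nmin := rfl
  have has : ∀ j, a (j + 1) = n1 (a j) + r := fun j => rfl
  have hamono : Monotone a := by
    apply monotone_nat_of_le_succ
    intro j
    rw [has]
    have := hn1 (a j)
    omega
  have hamin : ∀ j, nmin ≤ a j := fun j => by rw [← ha0]; exact hamono (Nat.zero_le j)
  -- the constants of the theorem
  refine ⟨Kb * 2 ^ (a J + 1), QQ b (a J) * (Wt J * ∏ t ∈ range J, ∏ m ∈ Icc 1 q,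
    ∏ h ∈ HH (Wt t), Mf (Wt t) m h),
    τ / (Kb * 2 ^ (a J + 1)), ?_, ?_, by positivity, ?_⟩
  · apply Nat.mul_pos (QQ_pos b _ hb)
    apply Nat.mul_pos (hWpos J)
    exact Finset.prod_pos fun t _ => Finset.prod_pos fun m hm => Finset.prod_pos fun h hh =>
      (hMf (Wt t) (hWpos t) m (hm1 m hm) h (mem_HH.1 hh).2.1).1
  · exact Dvd.dvd.mul_right (dvd_QQ_base b _) _
  intro N _ hN X Y A A' ρ hlow
  have hNQ : QQ b (a J) ∣ N := (Dvd.intro _ rfl).trans hN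
  have hNM : ∀ t ∈ range J, ∀ m ∈ Icc 1 q, ∀ h ∈ HH (Wt t), Mf (Wt t) m h ∣ N := by
    intro t ht m hm h hh
    refine Dvd.dvd.trans ?_ hN
    apply Dvd.dvd.mul_left
    apply Dvd.dvd.mul_left
    exact ((Finset.dvd_prod_of_mem (fun h => Mf (Wt t) m h) hh).trans
      (Finset.dvd_prod_of_mem (fun m => ∏ h ∈ HH (Wt t), Mf (Wt t) m h) hm)).trans
      (Finset.dvd_prod_of_mem (fun t => ∏ m ∈ Icc 1 q, ∏ h ∈ HH (Wt t), Mf (Wt t) m h) ht)
  -- the process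
  set Z : ZMod N → (ZMod q × Bool) × (ZMod q × Bool) :=
    fun i => ((X i, decide (A i)), (Y i, decide (A' i))) with hZ
  set F : ZMod q → (ZMod q × Bool) × (ZMod q × Bool) → ℝ :=
    fun c z => ind (z.1.2 = true ∧ z.1.1 = c) with hF
  set G : ZMod q → (ZMod q × Bool) × (ZMod q × Bool) → ℝ :=
    fun c z => ind (z.2.2 = true ∧ z.2.1 = c) with hG
  have hF01 : ∀ c z, 0 ≤ F c z ∧ F c z ≤ 1 := fun c z => ⟨ind_nonneg _, ind_le_one _⟩
  have hG01 : ∀ c z, 0 ≤ G c z ∧ G c z ≤ 1 := fun c z => ⟨ind_nonneg _, ind_le_one _⟩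
  have hFZ : ∀ c i, F c (Z i) = ind (A i ∧ X i = c) := by
    intro c i
    simp only [hF, hZ, decide_eq_true_eq]
  have hGZ : ∀ c i, G c (Z i) = ind (A' i ∧ Y i = c) := by
    intro c i
    simp only [hG, hZ, decide_eq_true_eq]
  -- good scales
  have hscale : ∀ j ∈ range J, ∃ n ∈ (Ico (a j) (n1 (a j))).filter
      (fun n => c0 * (2 ^ n / n) ≤ ((PP n).card : ℝ)),
      OmQ.hb Z ((2 * Kb + 1) * 2 ^ n) (QQ b n) - OmQ.hb Z ((2 * Kb + 1) * 2 ^ n) (QQ b (n + 1)) ≤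
        ε ^ 2 * (PP n).card := by
    intro j hj
    have hj' : n1 (a j) ≤ a J := by
      have h1 : a (j + 1) ≤ a J := hamono (Finset.mem_range.mp hj)
      rw [has] at h1
      omega
    apply good_scale Z (QQ b) (fun n => QQ_mono_dvd b (Nat.le_succ n)) (a j) (n1 (a j))
      (2 * Kb + 1) (by omega) ((QQ_mono_dvd b hj').trans hNQ) _ (Finset.filter_subset _ _)
    have h2 := hn1M (a j)
    have h3 : ∑ n ∈ (Ico (a j) (n1 (a j))).filter (fun n => c0 * (2 ^ n / n) ≤ ((PP n).card : ℝ)),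
        ε ^ 2 * ((PP n).card : ℝ) / 2 ^ n = ε ^ 2 * ∑ n ∈ (Ico (a j) (n1 (a j))).filter
        (fun n => c0 * (2 ^ n / n) ≤ ((PP n).card : ℝ)), ((PP n).card : ℝ) / 2 ^ n := by
      rw [Finset.mul_sum]
      apply Finset.sum_congr rfl
      intro n _
      ring
    rw [h3]
    have h4 : ε ^ 2 * M0 = ((2 * Kb + 1 : ℕ) : ℝ) * lg + 1 := by
      rw [hM0]; field_simp
    have h5 : ε ^ 2 * M0 ≤ ε ^ 2 * ∑ n ∈ (Ico (a j) (n1 (a j))).filter
        (fun n => c0 * (2 ^ n / n) ≤ ((PP n).card : ℝ)), ((PP n).card : ℝ) / 2 ^ n := by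
      gcongr
    linarith
  choose! nn hnn1 hnn2 using hscale
  have hnnr : ∀ j ∈ range J, a j ≤ nn j ∧ nn j < n1 (a j) ∧
      c0 * (2 ^ (nn j) / (nn j : ℝ)) ≤ ((PP (nn j)).card : ℝ) := by
    intro j hj
    have h1 := hnn1 j hj
    rw [Finset.mem_filter, Finset.mem_Ico] at h1
    exact ⟨h1.1.1, h1.1.2, h1.2⟩
  have hsp : ∀ j j', j < j' → j' < J → R * 2 ^ nn j ≤ 2 ^ nn j' := by
    intro j j' hjj' hj'
    have h1 := hnnr j (Finset.mem_range.mpr (by omega))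
    have h2 := hnnr j' (Finset.mem_range.mpr hj')
    have h3 : a (j + 1) ≤ a j' := hamono hjj'
    rw [has] at h3
    calc R * 2 ^ nn j ≤ 2 ^ r * 2 ^ nn j := by gcongr
      _ = 2 ^ (r + nn j) := by rw [pow_add]
      _ ≤ 2 ^ nn j' := pow_le_pow_right₀ (by norm_num) (by omega)
  -- spectral measures
  choose ν hν0 hν1 hν2 hν3 using fun c : ZMod q => spec (fun i => G c (Z i))
  have hν1' : ∀ c, ∑ s, ν c s ≤ 1 := by
    intro c
    rw [hν1 c]
    calc Av (fun i => (fun i => G c (Z i)) i ^ 2) ≤ Av (fun _ : ZMod N => (1 : ℝ)) := by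
          apply Av_mono
          intro i
          have := hG01 c (Z i)
          nlinarith [this.1, this.2]
      _ = 1 := Av_const 1
  set E : ℕ → ℕ → ZMod N → ℝ := fun t j s => ind (α / 2 ^ nn j < nrm (Wt t * ((s.val : ℝ) / N)) ∧
    nrm (Wt (t + 1) * ((s.val : ℝ) / N)) < β / 2 ^ nn j) with hE
  obtain ⟨t, ht, j, hj, hcell⟩ := exists_cell J hJ0
    (fun t j => ∑ c : ZMod q, ∑ s, ν c s * E t j s) (q : ℝ) (by
      calc ∑ t ∈ range J, ∑ j ∈ range J, ∑ c : ZMod q, ∑ s, ν c s * E t j s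
          = ∑ c : ZMod q, ∑ s, ν c s * ∑ t ∈ range J, ∑ j ∈ range J, E t j s := by
            have e1 : ∀ t ∈ range J, ∑ j ∈ range J, ∑ c : ZMod q, ∑ s, ν c s * E t j s =
                ∑ c : ZMod q, ∑ s, ∑ j ∈ range J, ν c s * E t j s := by
              intro t _
              rw [Finset.sum_comm]
              apply Finset.sum_congr rfl
              intro c _
              rw [Finset.sum_comm]
            rw [Finset.sum_congr rfl e1, Finset.sum_comm]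
            apply Finset.sum_congr rfl
            intro c _
            rw [Finset.sum_comm]
            apply Finset.sum_congr rfl
            intro s _
            rw [Finset.mul_sum]
            apply Finset.sum_congr rfl
            intro t _
            rw [Finset.mul_sum]
        _ ≤ ∑ c : ZMod q, ∑ s, ν c s * (J + J) := by
            apply Finset.sum_le_sum
            intro c _
            apply Finset.sum_le_sum
            intro s _
            apply mul_le_mul_of_nonneg_left _ (hν0 c s)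
            exact pig J J Wt hWpos hWdvd nn α β R hα hβ hsp hR _
        _ ≤ ∑ c : ZMod q, (J + J : ℝ) := by
            apply Finset.sum_le_sum
            intro c _
            rw [← Finset.sum_mul]
            have := hν1' c
            have h0 : (0 : ℝ) ≤ J + J := by positivity
            nlinarith
        _ = 2 * J * q := by
            rw [Finset.sum_const, Finset.card_univ, ZMod.card, nsmul_eq_mul]
            ring)
  obtain ⟨hnj1, hnj2, hnj3⟩ := hnnr j hj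
  set n : ℕ := nn j with hn
  have hnmin' : nmin ≤ n := (hamin j).trans hnj1
  obtain ⟨hbn, hKbn, hWJn, hT0n⟩ := hbign n hnmin'
  have htJ : t + 1 ≤ J := Finset.mem_range.mp ht
  have hjJ : n + 1 ≤ a J := by
    have h1 : a (j + 1) ≤ a J := hamono (Finset.mem_range.mp hj)
    rw [has] at h1
    omega
  have hW'le : Wt (t + 1) ≤ Wt J := Nat.le_of_dvd (hWpos J) (hWle _ _ htJ)
  obtain ⟨T, T', hT, hT', hw1, hw2, hw3, hw4, hw5, hw6⟩ := exists_windows Kb (Wt t) (Wt (t + 1))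
    (Wt J) n τ hτ hτ1 hKb0 (hWpos t) (hWpos (t + 1)) (Nat.le_of_dvd (hWpos (t + 1)) (hWdvd t))
    hW'le hWJn
  have hn0 : 0 < n := by
    rcases Nat.eq_zero_or_pos n with h0 | h0
    · rw [h0] at hbn
      simp at hbn
      omega
    · exact h0
  have hPP0 : 0 < (PP n).card := by
    have h1 : (0 : ℝ) < c0 * (2 ^ n / n) := by
      have : (0 : ℝ) < n := by exact_mod_cast hn0
      positivity
    have h2 : (0 : ℝ) < (PP n).card := lt_of_lt_of_le h1 hnj3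
    exact_mod_cast h2
  have hPPR : (0 : ℝ) < (PP n).card := by exact_mod_cast hPP0
  have hWtJ : (Wt t : ℝ) ≤ Wt J := by
    exact_mod_cast (Nat.le_of_dvd (hWpos J) (hWle t J (by omega)))
  have hT0T : T0 ≤ T := by
    have h1 : (Kb : ℝ) * 2 ^ (n + 1) ≤ τ * Wt t * T := hw1
    have h2 : (T0 : ℝ) * Wt t ≤ 2 ^ n := by
      calc (T0 : ℝ) * Wt t ≤ T0 * Wt J := by gcongr
        _ ≤ 2 ^ n := hT0n
    have h3 : (2 : ℝ) ^ n ≤ Kb * 2 ^ (n + 1) := by
      rw [pow_succ]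
      have : (0 : ℝ) < 2 ^ n := by positivity
      nlinarith
    have h4 : τ * Wt t * T ≤ Wt t * T := by
      have h5 : (0 : ℝ) ≤ Wt t * T := by positivity
      nlinarith
    have h5 : (T0 : ℝ) * Wt t ≤ T * Wt t := by linarith
    have h6 : (0 : ℝ) < Wt t := by exact_mod_cast hWpos t
    have h7 : (T0 : ℝ) ≤ T := le_of_mul_le_mul_right h5 h6
    exact_mod_cast h7
  have h4W : 4 ∣ Wt t := (Dvd.intro _ rfl).trans (hWb t)
  have hPcop : ∀ p ∈ PP n, p.Coprime (Wt t) := by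
    intro p hp
    obtain ⟨p1, p2, p3⟩ := PP_prime hp
    rw [Nat.Prime.coprime_iff_not_dvd p1]
    intro hd
    have h1 := Nat.le_of_dvd (hWpos t) hd
    have h2 : (Wt t : ℝ) < 2 ^ n := by
      have h3 : (Wt t : ℝ) ≤ Wt J := hWtJ
      have h4 : (Wt J : ℝ) < 2 * Real.pi * Wt J * Kb := by
        have h5 := Real.pi_gt_three
        have h6 : (1 : ℝ) * 1 ≤ Wt J * Kb := mul_le_mul hWJR hKbR (by norm_num) (by linarith)
        nlinarith [mul_le_mul_of_nonneg_left hKbR (show (0 : ℝ) ≤ Wt J by linarith)]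
      linarith
    have h7 : Wt t < 2 ^ n := by exact_mod_cast h2
    omega
  refine ⟨Wt t, T, hWpos t, hWb t, hT0T, hT, ?_⟩
  rintro c c' ⟨j0, hj0⟩
  obtain ⟨m, hm, hmj⟩ := exists_m q j0
  have hkey : ∀ h ∈ HH (Wt t), ∑ p ∈ PP n, Av (fun i => ind (A i ∧ X i = c) *
      avW (Wt t) T (fun i => ind (A' i ∧ Y i = c')) (i + ((h * p % Wt t : ℕ) : ZMod N))) ≤
      δ * (PP n).card := by
   intro h hh
   obtain ⟨hM1, hM2, hM3, hM4, hM5⟩ := hMf (Wt t) (hWpos t) m (hm1 m hm) h (mem_HH.1 hh).2.1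
   obtain ⟨hV1, hV2⟩ := hM5 N (hNM t ht m hm h hh) ρ
   set v : ℝ := τ ^ 2 with hv
   have hV2' : Av (fun i : ZMod N => (∑ κ ∈ Kf (Wt t) m h, wf (Wt t) m h κ * κ * ind (Dv ρ κ i) - 1) ^ 2) ≤ v := by
     refine hV2.trans (le_trans ?_ hLv)
     have h1 : (1 : ℝ) ≤ 1 + 1 / L := by
       have : 0 < 1 / L := by positivity
       linarith
     have h2 : (1 + 1 / L) ^ m ≤ (1 + 1 / L) ^ q := pow_le_pow_right₀ h1 (Finset.mem_Icc.mp hm).2
     linarith
   have hg2 : Av (fun i => (avW (Wt (t + 1)) T' (fun i => G c' (Z i)) i -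
       avW (Wt t) T (fun i => G c' (Z i)) i) ^ 2) ≤ τ ^ 2 := by
     rw [hν2 c' (Wt t) T (Wt (t + 1)) T' hT hT']
     calc _ ≤ ∑ s, ν c' s * (4 * E t j s + 4 * (τ / 4) ^ 2) := by
           apply Finset.sum_le_sum
           intro s _
           apply mul_le_mul_of_nonneg_left _ (hν0 c' s)
           exact mlt_diff (Wt t) (Wt (t + 1)) T T' n (hWpos t) (hWdvd t) (hWpos (t + 1)) hT hT'
             ((s.val : ℝ) / N) α β (τ / 4) hα hβ (by positivity) hw3 hw4 hw5 hw6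
       _ = 4 * ∑ s, ν c' s * E t j s + 4 * (τ / 4) ^ 2 * ∑ s, ν c' s := by
           rw [Finset.mul_sum, Finset.mul_sum, ← Finset.sum_add_distrib]
           apply Finset.sum_congr rfl
           intro s _
           ring
       _ ≤ 4 * (2 * q / J) + 4 * (τ / 4) ^ 2 * 1 := by
           have h1 : ∑ s, ν c' s * E t j s ≤ ∑ c : ZMod q, ∑ s, ν c s * E t j s :=
             Finset.single_le_sum (f := fun c => ∑ s, ν c s * E t j s)
               (fun c _ => Finset.sum_nonneg fun s _ => mul_nonneg (hν0 c s) (ind_nonneg _))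
               (Finset.mem_univ c')
           have h2 := hν1' c'
           gcongr
           exact h1.trans hcell
       _ ≤ τ ^ 2 := by linarith
   have hKall : ∀ κ ∈ Kf (Wt t) m h, Squarefree κ ∧ κ.primeFactors.card = m ∧ κ % Wt t = h % Wt t ∧
       (∀ p ∈ κ.primeFactors, p % 4 = 1 ∧ ¬ p ∣ b ∧ p < 2 ^ n) ∧ κ ≤ Kb ∧ 0 ≤ wf (Wt t) m h κ := by
     intro κ hκ
     obtain ⟨h1, h2, h3, h4, h5, h6⟩ := hM2 κ hκ
     refine ⟨h1, h2, h3, ?_, hκle t ht m hm h hh κ hκ, h6⟩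
     intro p hp
     obtain ⟨h7, h8⟩ := h4 p hp
     have hh4 := (mem_HH.1 hh).2.2
     refine ⟨?_, ?_, ?_⟩
     · rcases h7 with h7 | h7
       · have h10 : p ≡ 1 [MOD 4] := Nat.ModEq.of_dvd h4W h7
         exact h10
       · have h10 : p ≡ h [MOD 4] := Nat.ModEq.of_dvd h4W h7
         have h11 : p % 4 = h % 4 := h10
         omega
     · intro hd
       have := Nat.le_of_dvd hb hd
       omega
     · have h9 : p ≤ κ := Nat.le_of_dvd (Nat.pos_of_ne_zero h1.ne_zero) (Nat.dvd_of_mem_primeFactors hp)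
       have := hκle t ht m hm h hh κ hκ
       omega
   have hsK : (1 / Kb : ℝ) ^ 2 * (Kf (Wt t) m h).card ≤ 1 := by
     have h1 : ((Kf (Wt t) m h).card : ℝ) ≤ Kb := by exact_mod_cast hcardle t ht m hm h hh
     calc (1 / Kb : ℝ) ^ 2 * ((Kf (Wt t) m h).card : ℝ) ≤ (1 / Kb : ℝ) ^ 2 * (Kb : ℝ) := by gcongr
       _ = 1 / (Kb : ℝ) := by field_simp
       _ ≤ 1 := by rw [div_le_one (by linarith)]; exact hKbR
   have hSn : ∀ θ : ℝ, nrm (Wt (t + 1) * θ) ≤ Wt (t + 1) / 2 ^ n ∨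
       ∑ κ ∈ Kf (Wt t) m h, ‖∑ p ∈ PP n, e (p * (κ * θ))‖ ^ 2 ≤ Cb * ((PP n).card : ℝ) ^ 2 := by
     intro θ
     rcases hS (Wt t) m h (Wt (t + 1)) (hWpos (t + 1)) (hWD t m hm h hh) n ((hnS t ht m hm h hh).trans hnmin')
       (PP n) (fun p hp => PP_prime hp) θ with h1 | h1
     · exact Or.inl h1
     · right
       refine h1.trans ?_
       have h2 : (2 : ℝ) ^ n / n ≤ (PP n).card / c0 := by
         rw [le_div_iff₀ hc0]
         linarith
       calc C1 * (2 ^ n / n) * (PP n).card ≤ C1 * ((PP n).card / c0) * (PP n).card := by gcongr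
         _ = Cb * ((PP n).card : ℝ) ^ 2 := by rw [hCbdef]; ring
   have hgood : ∀ k : ℕ, k ≤ Kb * 2 ^ (n + 1) → Squarefree k →
       (∀ p ∈ k.primeFactors, p % 4 = 1 ∧ ¬ p ∣ b) → k.primeFactors.card = m + 1 →
       Av (fun i => ind (Dv ρ k i) * F c (Z i) * G c' (Z (i + (k : ZMod N)))) ≤
         τ / (Kb * 2 ^ (a J + 1)) := by
     intro k hk hksf hkp hkm
     refine le_trans ?_ hlow.le
     apply Av_mono
     intro i
     rw [hFZ, hGZ, ind_mul, ind_mul]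
     apply ind_mono
     rintro ⟨⟨h1, h2, h3⟩, h4, h5⟩
     refine ⟨h2, k, ?_, hksf, hkp, h1, h4, ?_⟩
     · refine hk.trans ?_
       apply Nat.mul_le_mul_left
       exact Nat.pow_le_pow_right (by norm_num) (by omega)
     · rw [h3, h5, hkm, hmj]
       exact hj0
   have hfin := stepH Z (F c) (G c') (hF01 c) (hG01 c') ρ (Wt t) (Wt (t + 1)) T T' n Kb m b h
     (Kf (Wt t) m h) (wf (Wt t) m h) τ v L Cb (1 / Kb) ε (τ / (Kb * 2 ^ (a J + 1))) (hWpos t) hT hT'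
     hτ.le hL0 (by positivity) hCb.le (by positivity) hε (by positivity) hb hbn hKall hM3 hM4 hV1 hV2'
     hPP0 hw1 hw2 hsK hSn hg2 ((QQ_mono_dvd b hjJ).trans hNQ) (hnn2 j hj) hgood
   have hsqv : Real.sqrt v = τ := by rw [hv]; exact Real.sqrt_sq hτ.le
   have hsqL : Real.sqrt ((4 * Cb + 1) / L) ≤ τ := by
     rw [← hsqv]
     exact Real.sqrt_le_sqrt hLC
   have hfirst : (Kb : ℝ) * 2 ^ (n + 1) * (τ / (Kb * 2 ^ (a J + 1))) ≤ τ := by
     have h1 : (2 : ℝ) ^ (n + 1) ≤ 2 ^ (a J + 1) := pow_le_pow_right₀ (by norm_num) (by omega)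
     rw [mul_div_assoc', div_le_iff₀ (by positivity)]
     have h2 : (Kb : ℝ) * 2 ^ (n + 1) ≤ Kb * 2 ^ (a J + 1) := by gcongr
     nlinarith
   have hsecond : 6 * (Kb : ℝ) * ε = τ := by rw [hεdef]; field_simp
   have hconv : ∑ p ∈ PP n, Av (fun i => ind (A i ∧ X i = c) *
       avW (Wt t) T (fun i => ind (A' i ∧ Y i = c')) (i + ((h * p % Wt t : ℕ) : ZMod N))) =
       ∑ p ∈ PP n, Av (fun i => F c (Z i) *
       avW (Wt t) T (fun i => G c' (Z i)) (i + ((h * p % Wt t : ℕ) : ZMod N))) := by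
     simp only [hFZ, hGZ]
   rw [hconv]
   refine hfin.trans ?_
   rw [hsqv, hsecond, mul_comm δ]
   apply mul_le_mul_of_nonneg_left _ hPPR.le
   nlinarith
  -- sum over all classes `h`
  have hsumP : ∑ h ∈ HH (Wt t), ∑ p ∈ PP n, Av (fun i => ind (A i ∧ X i = c) *
      avW (Wt t) T (fun i => ind (A' i ∧ Y i = c')) (i + ((h * p % Wt t : ℕ) : ZMod N))) =
      (PP n).card * ∑ h ∈ HH (Wt t), Av (fun i => ind (A i ∧ X i = c) *
      avW (Wt t) T (fun i => ind (A' i ∧ Y i = c')) (i + (h : ZMod N))) := by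
    rw [Finset.sum_comm]
    have h1 : ∀ p ∈ PP n, ∑ h ∈ HH (Wt t), Av (fun i => ind (A i ∧ X i = c) *
        avW (Wt t) T (fun i => ind (A' i ∧ Y i = c')) (i + ((h * p % Wt t : ℕ) : ZMod N))) =
        ∑ h ∈ HH (Wt t), Av (fun i => ind (A i ∧ X i = c) *
        avW (Wt t) T (fun i => ind (A' i ∧ Y i = c')) (i + (h : ZMod N))) := by
      intro p hp
      exact HH_mul (hWpos t) h4W (hPcop p hp) (PP_mod hp) (fun h => Av (fun i => ind (A i ∧ X i = c) *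
        avW (Wt t) T (fun i => ind (A' i ∧ Y i = c')) (i + (h : ZMod N))))
    rw [Finset.sum_congr rfl h1, Finset.sum_const, nsmul_eq_mul]
  have hle := Finset.sum_le_sum hkey
  rw [hsumP, Finset.sum_const, nsmul_eq_mul] at hle
  have h2 : ((PP n).card : ℝ) * ∑ h ∈ HH (Wt t), Av (fun i => ind (A i ∧ X i = c) *
      avW (Wt t) T (fun i => ind (A' i ∧ Y i = c')) (i + (h : ZMod N))) ≤
      (PP n).card * (δ * (HH (Wt t)).card) := by
    refine hle.trans (le_of_eq ?_)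
    ring
  exact le_of_mul_le_mul_left h2 hPPR

end Pool.Agent.OmQ
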