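import Pool.Agent.Lib_MP_f1a94e_aq.All

/-!
# The total number of balanced factorisations, and the statement for pairs
-/

set_option autoImplicit false

namespace Pool.Agent.OmAll

open Finset Pool.Agent.GaussMR Filter

/-- the pairs `(d, e)`, `d, e ≤ x`, `d e = m ^ 2 + 1`, `m` even, correspond to the pairs `(m, d)` counted by `tx x m` -/
theorem pairs_eq (x : ℕ) (R : ℕ → Prop) [DecidablePred R] :
    Set.ncard {r : ℕ × ℕ | r.1 ≤ x ∧ r.2 ≤ x ∧ (∃ m : ℕ, Even m ∧ r.1 * r.2 = m ^ 2 + 1) ∧ R (r.1 * r.2)} =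
      ∑ m ∈ (Finset.range (x + 1)).filter (fun m => Even m ∧ R (m ^ 2 + 1)), tx x m := by
  classical
  set F : Finset (Σ _ : ℕ, ℕ) := ((Finset.range (x + 1)).filter (fun m => Even m ∧ R (m ^ 2 + 1))).sigma
    (fun m => Pool.Agent.OmT1.TS (x : ℝ) m) with hF
  set f : (Σ _ : ℕ, ℕ) → ℕ × ℕ := fun s => (s.2, (s.1 ^ 2 + 1) / s.2) with hf
  have hTS : ∀ m d : ℕ, d ∈ Pool.Agent.OmT1.TS (x : ℝ) m ↔ d ∣ m ^ 2 + 1 ∧ d ≤ x ∧ (m ^ 2 + 1) / d ≤ x := by
    intro m d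
    unfold Pool.Agent.OmT1.TS
    rw [mem_filter, Nat.mem_divisors]
    constructor
    · rintro ⟨⟨h1, h2⟩, h3, h4⟩
      refine ⟨h1, by exact_mod_cast h3, ?_⟩
      have h5 : m ^ 2 + 1 ≤ x * d := by exact_mod_cast h4
      exact Nat.div_le_of_le_mul (by rw [mul_comm]; exact h5)
    · rintro ⟨h1, h2, h3⟩
      refine ⟨⟨h1, by positivity⟩, by exact_mod_cast h2, ?_⟩
      have h4 : m ^ 2 + 1 = (m ^ 2 + 1) / d * d := (Nat.div_mul_cancel h1).symm
      have h5 : m ^ 2 + 1 ≤ x * d := by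
        rw [h4]
        exact Nat.mul_le_mul_right _ h3
      exact_mod_cast h5
  have hinj : Set.InjOn f (F : Set (Σ _ : ℕ, ℕ)) := by
    rintro ⟨m, d⟩ h1 ⟨m', d'⟩ h2 h
    rw [Finset.mem_coe, hF, Finset.mem_sigma] at h1 h2
    simp only at h1 h2
    simp only [hf, Prod.mk.injEq] at h
    obtain ⟨rfl, h4⟩ := h
    have h5 := Nat.div_mul_cancel ((hTS m d).1 h1.2).1
    have h6 := Nat.div_mul_cancel ((hTS m' d).1 h2.2).1
    have h7 : m ^ 2 + 1 = m' ^ 2 + 1 := by rw [← h5, ← h6, h4]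
    have h8 : m = m' := by
      have : m ^ 2 = m' ^ 2 := by omega
      exact (Nat.pow_left_injective (n := 2) (by norm_num)) this
    rw [h8]
  have himg : {r : ℕ × ℕ | r.1 ≤ x ∧ r.2 ≤ x ∧ (∃ m : ℕ, Even m ∧ r.1 * r.2 = m ^ 2 + 1) ∧
      R (r.1 * r.2)} = ((F.image f : Finset (ℕ × ℕ)) : Set (ℕ × ℕ)) := by
    ext ⟨d, e⟩
    simp only [Set.mem_setOf_eq, Finset.coe_image, Set.mem_image, Finset.mem_coe]
    constructor
    · rintro ⟨h1, h2, ⟨m, h3, h4⟩, h5⟩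
      have hd0 : 0 < d := by
        rcases Nat.eq_zero_or_pos d with h | h
        · rw [h] at h4; simp at h4
        · exact h
      have hdiv : (m ^ 2 + 1) / d = e := by
        rw [← h4]; exact Nat.mul_div_cancel_left e hd0
      refine ⟨⟨m, d⟩, ?_, ?_⟩
      · rw [hF, Finset.mem_sigma, mem_filter, Finset.mem_range]
        refine ⟨⟨?_, h3, by rw [← h4]; exact h5⟩, ?_⟩
        · have : m ^ 2 < x ^ 2 + 1 := by nlinarith [Nat.mul_le_mul h1 h2]
          have : m ^ 2 ≤ x ^ 2 := by omega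
          have := (Nat.pow_le_pow_iff_left (n := 2) (by norm_num)).1 this
          simp only
          omega
        · exact (hTS m d).2 ⟨Dvd.intro _ h4, h1, by rw [hdiv]; exact h2⟩
      · simp only [hf, hdiv]
    · rintro ⟨⟨m, d'⟩, h1, h2⟩
      rw [hF, Finset.mem_sigma, mem_filter, Finset.mem_range] at h1
      simp only [hf, Prod.mk.injEq] at h2
      simp only at h1
      obtain ⟨rfl, rfl⟩ := h2
      obtain ⟨h3, h4⟩ := h1
      obtain ⟨h5, h6, h7⟩ := (hTS m d').1 h4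
      have h8 : d' * ((m ^ 2 + 1) / d') = m ^ 2 + 1 := Nat.mul_div_cancel' h5
      refine ⟨h6, h7, ⟨m, h3.2.1, h8⟩, ?_⟩
      rw [h8]
      exact h3.2.2
  rw [himg, Set.ncard_coe_finset, Finset.card_image_of_injOn hinj, hF, Finset.card_sigma]
  apply Finset.sum_congr rfl
  intro m _
  rw [Pool.Agent.OmT1.tx_eq]

/-- the total number of factorisations is at most `C x` -/
theorem total_le : ∃ C : ℝ, 0 < C ∧ ∀ x : ℝ, 1 ≤ x → ∑ m ∈ (Icc 1 ⌊x⌋₊).filter Even, (tx x m : ℝ) ≤ C * x := by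
  classical
  obtain ⟨C, hC, hsm⟩ := small_m
  refine ⟨8 * C, by positivity, ?_⟩
  intro x hx
  have h1 := hsm x hx 0
  have h2 := sum_tx_eq x (fun _ => True)
  simp only [and_true, Finset.filter_true] at h2
  have h3 : ∑ m ∈ (Icc 1 ⌊x⌋₊).filter Even, (tx x m : ℝ) = ((SS x).card : ℝ) := by
    rw [← h2]
  have h4 : (SS x).filter (fun r => 0 ≤ ixs x r) = SS x := by
    rw [Finset.filter_eq_self]
    intro r _
    exact Nat.zero_le _
  rw [h4] at h1
  rw [h3]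
  refine h1.trans (le_of_eq ?_)
  norm_num
  ring

theorem all_pairs (q : ℕ) (hq0 : 0 < q) (a : ℕ) : ∃ c : ℝ, 0 < c ∧ ∀ᶠ x : ℕ in atTop,
    c * x ≤ Set.ncard {r : ℕ × ℕ | r.1 ≤ x ∧ r.2 ≤ x ∧ (∃ m : ℕ, Even m ∧ r.1 * r.2 = m ^ 2 + 1) ∧
      ArithmeticFunction.cardFactors (r.1 * r.2) ≡ a [MOD q]} ∧
    c * Set.ncard {r : ℕ × ℕ | r.1 ≤ x ∧ r.2 ≤ x ∧ ∃ m : ℕ, Even m ∧ r.1 * r.2 = m ^ 2 + 1} ≤
      Set.ncard {r : ℕ × ℕ | r.1 ≤ x ∧ r.2 ≤ x ∧ (∃ m : ℕ, Even m ∧ r.1 * r.2 = m ^ 2 + 1) ∧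
        ArithmeticFunction.cardFactors (r.1 * r.2) ≡ a [MOD q]} := by
  classical
  obtain ⟨c, x0, hc, h⟩ := all_core q hq0 a
  obtain ⟨C, hC, htot⟩ := total_le
  refine ⟨min c (c / (C + 1)), lt_min hc (by positivity), ?_⟩
  filter_upwards [eventually_ge_atTop ⌈x0⌉₊, eventually_ge_atTop 1] with x hx hx1
  have hx' : x0 ≤ (x : ℝ) := (Nat.le_ceil _).trans (by exact_mod_cast hx)
  have hx1' : (1 : ℝ) ≤ x := by exact_mod_cast hx1
  have h1 := h x hx'
  have h2 := htot x hx1'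
  rw [Nat.floor_natCast] at h1 h2
  -- the class
  have e1 := pairs_eq x (fun k => ArithmeticFunction.cardFactors k ≡ a [MOD q])
  have e2 := pairs_eq x (fun _ => True)
  simp only [and_true] at e2
  have l1 : c * x ≤ (Set.ncard {r : ℕ × ℕ | r.1 ≤ x ∧ r.2 ≤ x ∧ (∃ m : ℕ, Even m ∧ r.1 * r.2 = m ^ 2 + 1) ∧
      ArithmeticFunction.cardFactors (r.1 * r.2) ≡ a [MOD q]} : ℝ) := by
    rw [e1]
    push_cast
    refine h1.trans ?_
    apply Finset.sum_le_sum_of_subset_of_nonneg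
    · intro m hm
      rw [mem_filter, mem_Icc] at hm
      rw [mem_filter, Finset.mem_range]
      exact ⟨by omega, hm.2⟩
    · intro m _ _
      exact Nat.cast_nonneg _
  have l2 : (Set.ncard {r : ℕ × ℕ | r.1 ≤ x ∧ r.2 ≤ x ∧ ∃ m : ℕ, Even m ∧ r.1 * r.2 = m ^ 2 + 1} : ℝ) ≤
      (C + 1) * x := by
    rw [e2]
    push_cast
    have hsub : (Finset.range (x + 1)).filter (fun m => Even m) ⊆ insert 0 ((Icc 1 x).filter Even) := by
      intro m hm
      rw [mem_filter, Finset.mem_range] at hm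
      rw [Finset.mem_insert, mem_filter, mem_Icc]
      rcases Nat.eq_zero_or_pos m with h0 | h0
      · exact Or.inl h0
      · exact Or.inr ⟨⟨h0, by omega⟩, hm.2⟩
    refine (Finset.sum_le_sum_of_subset_of_nonneg hsub fun m _ _ => Nat.cast_nonneg _).trans ?_
    rw [Finset.sum_insert (by simp)]
    have h0 : (tx x 0 : ℝ) ≤ 1 := by exact_mod_cast tx_zero_le x
    linarith
  constructor
  · refine le_trans ?_ l1
    have := min_le_left c (c / (C + 1))
    gcongr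
  · refine le_trans ?_ l1
    calc min c (c / (C + 1)) * _ ≤ c / (C + 1) * ((C + 1) * x) := by
          gcongr
          exact min_le_right _ _
      _ = c * x := by field_simp

end Pool.Agent.OmAll
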