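import Pool.Agent.Lib_MP_f1a94e_aq.KTail
import Pool.Agent.Lib_MP_f1a94e_aq.Expand

/-!
# Piece TYC: the number of typical clusters
-/

set_option autoImplicit false

namespace Pool.Agent.OmAll

open Finset Pool.Agent.GaussMR Filter

/-- the sum over a cluster -/
noncomputable def fC (a b : ℝ) (T m c : ℕ) : ℝ := ∑ h ∈ (sT T m).divisors, Hf a b (tt (m, c * h))

/-- a cluster is typical: about `muT T` primes, and one element with `|tt| ≤ A0` -/
def Ty (A0 : ℝ) (T m c : ℕ) : Prop :=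
  |((ps T m).card : ℝ) - muT T| ≤ muT T / 8 ∧ ∃ h ∈ (sT T m).divisors, |tt (m, c * h)| ≤ A0

open Classical in
/-- the pairs `(m, c)`, `m` even, `c` divides `(m^2+1)/s` -/
noncomputable def cl (x : ℝ) (T : ℕ) : Finset (ℕ × ℕ) :=
  ((pd x).filter (fun r => r.2 ∣ (r.1 ^ 2 + 1) / sT T r.1))

/-- All elements of a typical cluster have `|tt| ≤ A0 + 2 log s ≤ Λ = A0 + (9/4) μ log T` (`tt (m, c h) - tt (m, c h') = 2 log (h'/h)`,
`log s ≤ #ps log T ≤ (9/8) μ log T`), there are `2^#ps ≥ 2^((7/8) μ)` of them, and different clusters are disjoint subsets of `pd x`; so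
`#(typical) ≤ 2^(-(7/8) μ) #{r ∈ pd x : |tt r| ≤ Λ} ≤ 2^(-(7/8) μ) C (Λ + 1) x` (`tail` or `count_lt`). -/
theorem typ_card : ∃ C : ℝ, 0 < C ∧ ∀ (A0 : ℝ), 1 ≤ A0 → ∀ (T : ℕ), 3 ≤ T → 0 < muT T → ∀ x : ℝ, 1 ≤ x →
    (({r : ℕ × ℕ | r ∈ cl x T ∧ Ty A0 T r.1 r.2}.ncard : ℕ) : ℝ) ≤
      (2 : ℝ) ^ (-(7 / 8 * muT T)) * (C * (A0 + 9 / 4 * muT T * Real.log T) * x) := by
  classical
  obtain ⟨C, hC, hcount⟩ := count_lt
  refine ⟨2 * C, by positivity, fun A0 hA0 T hT hmu x hx => ?_⟩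
  have hT1 : (1 : ℝ) ≤ T := by exact_mod_cast (by omega : 1 ≤ T)
  have hlogT : 0 ≤ Real.log T := Real.log_nonneg hT1
  have hΛ0 : 0 ≤ 9 / 4 * muT T * Real.log T := by positivity
  set Λ := A0 + 9 / 4 * muT T * Real.log T with hΛ
  have hΛ1 : 1 ≤ Λ := by linarith
  set S : Finset (ℕ × ℕ) := (cl x T).filter (fun r => Ty A0 T r.1 r.2) with hSdef
  have hS : {r : ℕ × ℕ | r ∈ cl x T ∧ Ty A0 T r.1 r.2} = ↑S := by
    ext r
    rw [hSdef, Finset.coe_filter]
  rw [hS, Set.ncard_coe_finset]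
  set D : Finset (Σ _ : ℕ × ℕ, ℕ) := S.sigma (fun r => (sT T r.1).divisors) with hD
  set E : Finset (ℕ × ℕ) := (pd x).filter (fun r => |tt r| < 2 * Λ) with hEdef
  have hSmem : ∀ r ∈ S, r ∈ pd x ∧ r.2 ∣ (r.1 ^ 2 + 1) / sT T r.1 ∧ Ty A0 T r.1 r.2 := by
    intro r hr
    rw [hSdef, mem_filter] at hr
    unfold cl at hr
    rw [mem_filter] at hr
    exact ⟨hr.1.1, hr.1.2, hr.2⟩
  have hcardD : D.card ≤ E.card := by
    apply Finset.card_le_card_of_injOn (fun q => (q.1.1, q.1.2 * q.2))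
    · intro q hq
      rw [Finset.mem_coe, hD, mem_sigma] at hq
      obtain ⟨hr, hh⟩ := hq
      obtain ⟨h1, h2, h3, h0, hh0, h4⟩ := hSmem _ hr
      obtain ⟨sq, sd, sc, spf, -⟩ := sT_spec T q.1.1
      have hs0 : 0 < sT T q.1.1 := Nat.pos_of_dvd_of_pos sd (by positivity)
      have hdv : q.2 ∣ sT T q.1.1 := Nat.dvd_of_mem_divisors hh
      have hdv0 : h0 ∣ sT T q.1.1 := Nat.dvd_of_mem_divisors hh0
      have hq0 : 0 < q.2 := Nat.pos_of_dvd_of_pos hdv hs0
      have hh00 : 0 < h0 := Nat.pos_of_dvd_of_pos hdv0 hs0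
      have hmem := mem_pd.1 h1
      have hc0 : 0 < q.1.2 := Nat.pos_of_dvd_of_pos hmem.2.2.2 (by positivity)
      rw [Finset.mem_coe, hEdef, mem_filter]
      refine ⟨mem_pd.2 ⟨hmem.1, hmem.2.1, hmem.2.2.1, ?_⟩, ?_⟩
      · calc q.1.2 * q.2 ∣ (q.1.1 ^ 2 + 1) / sT T q.1.1 * sT T q.1.1 := Nat.mul_dvd_mul h2 hdv
          _ = q.1.1 ^ 2 + 1 := Nat.div_mul_cancel sd
      · -- the size
        have hls : Real.log (sT T q.1.1) ≤ 9 / 8 * muT T * Real.log T := by
          have e1 : Real.log (sT T q.1.1) = ∑ p ∈ ps T q.1.1, Real.log p := by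
            unfold sT
            rw [Nat.cast_prod, Real.log_prod]
            intro p hp
            unfold ps at hp
            rw [mem_filter] at hp
            exact_mod_cast (Nat.prime_of_mem_primeFactors hp.1).ne_zero
          have e2 : ∑ p ∈ ps T q.1.1, Real.log p ≤ ∑ _p ∈ ps T q.1.1, Real.log T := by
            apply Finset.sum_le_sum
            intro p hp
            unfold ps at hp
            rw [mem_filter] at hp
            have hp1 : (0 : ℝ) < p := by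
              exact_mod_cast (Nat.prime_of_mem_primeFactors hp.1).pos
            exact Real.log_le_log hp1 (by exact_mod_cast hp.2.1)
          rw [Finset.sum_const, nsmul_eq_mul] at e2
          have e3 : ((ps T q.1.1).card : ℝ) ≤ 9 / 8 * muT T := by
            have := (abs_le.1 h3).2
            linarith
          rw [e1]
          exact e2.trans (mul_le_mul_of_nonneg_right e3 hlogT)
        have hlog : ∀ d : ℕ, 0 < d → d ∣ sT T q.1.1 → 0 ≤ Real.log d ∧
            Real.log d ≤ Real.log (sT T q.1.1) := by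
          intro d hd hds
          have hd1 : (1 : ℝ) ≤ d := by exact_mod_cast hd
          refine ⟨Real.log_nonneg hd1, Real.log_le_log (by linarith) ?_⟩
          exact_mod_cast Nat.le_of_dvd hs0 hds
        obtain ⟨a1, a2⟩ := hlog q.2 hq0 hdv
        obtain ⟨b1, b2⟩ := hlog h0 hh00 hdv0
        have hc0r : (q.1.2 : ℝ) ≠ 0 := by exact_mod_cast hc0.ne'
        have hq0r : (q.2 : ℝ) ≠ 0 := by exact_mod_cast hq0.ne'
        have hh0r : (h0 : ℝ) ≠ 0 := by exact_mod_cast hh00.ne'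
        have et : tt (q.1.1, q.1.2 * q.2) = tt (q.1.1, q.1.2 * h0) + 2 * Real.log h0 -
            2 * Real.log q.2 := by
          unfold tt
          push_cast
          rw [Real.log_mul hc0r hq0r, Real.log_mul hc0r hh0r]
          ring
        change |tt (q.1.1, q.1.2 * q.2)| < 2 * Λ
        rw [et]
        obtain ⟨c1, c2⟩ := abs_le.1 h4
        rw [abs_lt]
        constructor <;> linarith
    · intro q hq q' hq' heq
      rw [Finset.mem_coe, hD, mem_sigma] at hq hq'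
      obtain ⟨hr, hh⟩ := hq
      obtain ⟨hr', hh'⟩ := hq'
      obtain ⟨-, h2, -⟩ := hSmem _ hr
      obtain ⟨-, h2', -⟩ := hSmem _ hr'
      obtain ⟨⟨m, c⟩, h⟩ := q
      obtain ⟨⟨m', c'⟩, h'⟩ := q'
      simp only [Prod.mk.injEq] at heq hh hh' h2 h2'
      obtain ⟨rfl, he⟩ := heq
      obtain ⟨sq, sd, sc, spf, -⟩ := sT_spec T m
      have hs0 : 0 < sT T m := Nat.pos_of_dvd_of_pos sd (by positivity)
      have key : ∀ c h : ℕ, c ∣ (m ^ 2 + 1) / sT T m → h ∈ (sT T m).divisors →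
          (c * h).gcd (sT T m) = h := by
        intro c h hc hh
        have h1 : c.Coprime (sT T m) := sc.symm.coprime_dvd_left hc
        rw [Nat.Coprime.gcd_mul_left_cancel h h1, Nat.gcd_eq_left (Nat.dvd_of_mem_divisors hh)]
      have k1 := key c h h2 hh
      have k2 := key c' h' h2' hh'
      rw [he, k2] at k1
      subst k1
      have hh0 : 0 < h' := Nat.pos_of_dvd_of_pos (Nat.dvd_of_mem_divisors hh) hs0
      have := Nat.eq_of_mul_eq_mul_right hh0 he
      subst this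
      rfl
  have hE : (E.card : ℝ) ≤ C * (2 * Λ) * x := by
    have h1 := hcount x hx (2 * Λ) (by positivity)
    have h2 : {r : ℕ × ℕ | r ∈ pd x ∧ |tt r| < 2 * Λ} = ↑E := by
      ext r
      rw [hEdef, Finset.coe_filter]
    rwa [h2, Set.ncard_coe_finset] at h1
  have hDc : (D.card : ℝ) = ∑ r ∈ S, (2 : ℝ) ^ (ps T r.1).card := by
    rw [hD, Finset.card_sigma, Nat.cast_sum]
    refine Finset.sum_congr rfl fun r _ => ?_
    rw [(sT_spec T r.1).2.2.2.2]
    push_cast
    rfl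
  have hlow : (S.card : ℝ) * (2 : ℝ) ^ (7 / 8 * muT T) ≤ D.card := by
    rw [hDc, ← nsmul_eq_mul, ← Finset.sum_const]
    apply Finset.sum_le_sum
    intro r hr
    obtain ⟨-, -, h3, -⟩ := hSmem r hr
    rw [← Real.rpow_natCast]
    apply Real.rpow_le_rpow_of_exponent_le (by norm_num)
    have := (abs_le.1 h3).1
    linarith
  have hpos : (0 : ℝ) < (2 : ℝ) ^ (7 / 8 * muT T) := by positivity
  have hfin : (S.card : ℝ) * (2 : ℝ) ^ (7 / 8 * muT T) ≤ 2 * C * Λ * x := by
    have h1 : (D.card : ℝ) ≤ E.card := by exact_mod_cast hcardD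
    linarith
  rw [Real.rpow_neg (by norm_num), inv_mul_eq_div, le_div_iff₀ hpos]
  exact hfin

end Pool.Agent.OmAll
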