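import Pool.Agent.Lib_MP_f1a94e_aq.STwo
import Pool.Agent.Lib_MP_f1a94e_aq.TyC

/-!
# Piece TYS: the sum over typical clusters
-/

set_option autoImplicit false

namespace Pool.Agent.OmAll

open Finset Pool.Agent.GaussMR Filter

namespace TyS

open Classical in
/-- sums over clusters -/
theorem sum_cl (x : ℝ) (T : ℕ) (F : ℕ × ℕ → ℝ) :
    ∑ r ∈ cl x T, F r = ∑ m ∈ ev x, ∑ c ∈ ((m ^ 2 + 1) / sT T m).divisors, F (m, c) := by
  unfold cl
  rw [Finset.sum_filter, sum_pd]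
  refine Finset.sum_congr rfl fun m _ => ?_
  obtain ⟨-, sd, -⟩ := sT_spec T m
  have hs0 : 0 < sT T m := Nat.pos_of_dvd_of_pos sd (by positivity)
  have hk : 0 < (m ^ 2 + 1) / sT T m :=
    Nat.div_pos (Nat.le_of_dvd (by positivity) sd) hs0
  rw [← Finset.sum_filter]
  refine Finset.sum_congr ?_ fun _ _ => rfl
  ext d
  rw [mem_filter, Nat.mem_divisors, Nat.mem_divisors]
  constructor
  · rintro ⟨-, h⟩
    exact ⟨h, hk.ne'⟩
  · rintro ⟨h, -⟩
    exact ⟨⟨h.trans (Nat.div_dvd_of_dvd sd), by positivity⟩, h⟩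

/-- `2^(-(7/8) μ) (A0 + (9/4) μ log T) → 0` -/
theorem lim (A0 : ℝ) (hA0 : 1 ≤ A0) (η : ℝ) (hη : 0 < η) : ∃ T0 : ℕ, 3 ≤ T0 ∧ ∀ T : ℕ, T0 ≤ T →
    0 < muT T ∧ (2 : ℝ) ^ (-(7 / 8 * muT T)) * (A0 + 9 / 4 * muT T * Real.log T) ≤ η := by
  obtain ⟨K, hK⟩ := mu_bound
  have hK0 : 0 ≤ K := (abs_nonneg _).trans (hK 3 le_rfl)
  set a : ℝ := 7 / 4 * Real.log 2 with ha
  have hl2 := Real.log_two_gt_d9
  have ha1 : 6 / 5 ≤ a := by rw [ha]; linarith
  set E : ℝ := Real.exp (7 / 8 * Real.log 2 * K) with hE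
  have hEpos : 0 < E := Real.exp_pos _
  -- the limit in the variable `L = log log T`
  have h1 : Tendsto (fun L : ℝ => E * (A0 * Real.exp (-L) +
      9 / 4 * ((2 * L + K) * Real.exp (-(1 / 5) * L)))) atTop (nhds 0) := by
    have t1 : Tendsto (fun L : ℝ => Real.exp (-L)) atTop (nhds 0) :=
      Real.tendsto_exp_neg_atTop_nhds_zero
    have t2 : Tendsto (fun L : ℝ => L * Real.exp (-(1 / 5) * L)) atTop (nhds 0) := by
      have := tendsto_rpow_mul_exp_neg_mul_atTop_nhds_zero 1 (1 / 5) (by norm_num)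
      simpa using this
    have t3 : Tendsto (fun L : ℝ => Real.exp (-(1 / 5) * L)) atTop (nhds 0) := by
      have := tendsto_rpow_mul_exp_neg_mul_atTop_nhds_zero 0 (1 / 5) (by norm_num)
      simpa using this
    have t4 : Tendsto (fun L : ℝ => (2 * L + K) * Real.exp (-(1 / 5) * L)) atTop (nhds 0) := by
      have := (t2.const_mul 2).add (t3.const_mul K)
      simp only [mul_zero, add_zero] at this
      refine this.congr fun L => ?_
      ring
    have := ((t1.const_mul A0).add (t4.const_mul (9 / 4))).const_mul E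
    simpa using this
  have h2 : Tendsto (fun T : ℕ => Real.log (Real.log (T : ℝ))) atTop atTop :=
    Real.tendsto_log_atTop.comp (Real.tendsto_log_atTop.comp tendsto_natCast_atTop_atTop)
  have h3 := (h1.comp h2).eventually (eventually_le_nhds hη)
  have h4 := h2.eventually (eventually_gt_atTop (K / 2))
  have h5 := h2.eventually (eventually_ge_atTop 0)
  obtain ⟨T0, hT0⟩ := eventually_atTop.1 (h3.and (h4.and h5))
  refine ⟨max T0 3, le_max_right _ _, fun T hT => ?_⟩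
  have hT3 : 3 ≤ T := (le_max_right _ _).trans hT
  obtain ⟨g1, g2, g3⟩ := hT0 T ((le_max_left _ _).trans hT)
  have hb := abs_le.1 (hK T hT3)
  set L := Real.log (Real.log (T : ℝ)) with hL
  have hmu : 0 < muT T := by linarith [hb.1]
  have hT3r : (3 : ℝ) ≤ T := by exact_mod_cast hT3
  have hlogpos : 0 < Real.log (T : ℝ) := Real.log_pos (by linarith)
  have hexpL : Real.exp L = Real.log T := by rw [hL, Real.exp_log hlogpos]
  refine ⟨hmu, le_trans ?_ g1⟩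
  have e1 : (2 : ℝ) ^ (-(7 / 8 * muT T)) ≤ E * Real.exp (-(6 / 5) * L) := by
    rw [Real.rpow_def_of_pos (by norm_num), hE, ← Real.exp_add]
    apply Real.exp_le_exp.2
    have h6 : a * L ≥ 6 / 5 * L := mul_le_mul_of_nonneg_right ha1 g3
    have h7 : Real.log 2 * (muT T - 2 * L) ≥ Real.log 2 * (-K) :=
      mul_le_mul_of_nonneg_left (by linarith [hb.1]) (by linarith)
    rw [ha] at h6
    nlinarith
  have e2 : A0 + 9 / 4 * muT T * Real.log T ≤ A0 + 9 / 4 * (2 * L + K) * Real.exp L := by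
    rw [hexpL]
    have : muT T ≤ 2 * L + K := by linarith [hb.2]
    have := mul_le_mul_of_nonneg_right this hlogpos.le
    linarith
  have e3 : 0 ≤ A0 + 9 / 4 * muT T * Real.log T := by positivity
  calc (2 : ℝ) ^ (-(7 / 8 * muT T)) * (A0 + 9 / 4 * muT T * Real.log T)
      ≤ E * Real.exp (-(6 / 5) * L) * (A0 + 9 / 4 * (2 * L + K) * Real.exp L) :=
        mul_le_mul e1 e2 e3 (by positivity)
    _ = E * (A0 * Real.exp (-(6 / 5) * L) + 9 / 4 * ((2 * L + K) *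
          (Real.exp (-(6 / 5) * L) * Real.exp L))) := by ring
    _ = E * (A0 * Real.exp (-(6 / 5) * L) + 9 / 4 * ((2 * L + K) * Real.exp (-(1 / 5) * L))) := by
        rw [← Real.exp_add]
        congr 5
        ring
    _ ≤ _ := by
        simp only [Function.comp_apply]
        have : Real.exp (-(6 / 5) * L) ≤ Real.exp (-L) := Real.exp_le_exp.2 (by linarith)
        have := mul_le_mul_of_nonneg_left this (by linarith : (0 : ℝ) ≤ A0)
        gcongr

end TyS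

open TyS

open Classical in
/-- `∑ (typical) fC^2 ≤ ∑ (all) fC^2 = (expand) ≤ C x` (`s2_bound`), Cauchy and Schwarz with `typ_card`; `2^(-(7/8) μ) (A0 + (9/4) μ log T) → 0` as `T → ∞`, because
`μ = 2 log log T + O(1)` (`mu_bound`) and `(7/8) 2 log 2 > 1.2`. -/
theorem typ_sum (a b : ℝ) (ha : 0 < a) (hab : a ≤ b) (A0 : ℝ) (hA0 : 1 ≤ A0) (δ : ℝ) (hδ : 0 < δ) :
    ∃ T0 : ℕ, ∀ T : ℕ, T0 ≤ T → ∃ x0 : ℝ, ∀ x : ℝ, x0 ≤ x →
      ∑ r ∈ (cl x T).filter (fun r => Ty A0 T r.1 r.2), |fC a b T r.1 r.2| ≤ δ * x := by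
  obtain ⟨C1, hC1, hcard⟩ := typ_card
  obtain ⟨C2, hC2, hsq⟩ := s2_bound a b ha hab
  obtain ⟨T0, hT03, hT0⟩ := lim A0 hA0 (δ ^ 2 / (C1 * C2)) (by positivity)
  refine ⟨T0, fun T hT => ?_⟩
  obtain ⟨hmu, hη⟩ := hT0 T hT
  have hT3 : 3 ≤ T := hT03.trans hT
  obtain ⟨x0, hx0⟩ := hsq T hT3
  refine ⟨max x0 1, fun x hx => ?_⟩
  have hx1 : 1 ≤ x := (le_max_right _ _).trans hx
  have h1 := hx0 x ((le_max_left _ _).trans hx)
  have h2 := hcard A0 hA0 T hT3 hmu x hx1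
  set S : Finset (ℕ × ℕ) := (cl x T).filter (fun r => Ty A0 T r.1 r.2) with hS
  have hSc : {r : ℕ × ℕ | r ∈ cl x T ∧ Ty A0 T r.1 r.2} = ↑S := by
    ext r
    rw [hS, Finset.coe_filter]
  rw [hSc, Set.ncard_coe_finset] at h2
  have h3 : ∑ r ∈ S, (fC a b T r.1 r.2) ^ 2 ≤ C2 * x := by
    calc ∑ r ∈ S, (fC a b T r.1 r.2) ^ 2 ≤ ∑ r ∈ cl x T, (fC a b T r.1 r.2) ^ 2 :=
          Finset.sum_le_sum_of_subset_of_nonneg (Finset.filter_subset _ _) fun _ _ _ => sq_nonneg _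
      _ = _ := by
          rw [sum_cl x T (fun r => (fC a b T r.1 r.2) ^ 2)]
          unfold fC
          exact expand T x (Hf a b)
      _ ≤ C2 * x := h1
  have h4 : (∑ r ∈ S, |fC a b T r.1 r.2|) ^ 2 ≤ (S.card : ℝ) * ∑ r ∈ S, (fC a b T r.1 r.2) ^ 2 := by
    have := sq_sum_le_card_mul_sum_sq (s := S) (f := fun r => |fC a b T r.1 r.2|)
    simpa only [sq_abs] using this
  have h5 : (S.card : ℝ) ≤ C1 * (δ ^ 2 / (C1 * C2)) * x := by
    refine h2.trans ?_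
    calc (2 : ℝ) ^ (-(7 / 8 * muT T)) * (C1 * (A0 + 9 / 4 * muT T * Real.log T) * x)
        = C1 * ((2 : ℝ) ^ (-(7 / 8 * muT T)) * (A0 + 9 / 4 * muT T * Real.log T)) * x := by ring
      _ ≤ C1 * (δ ^ 2 / (C1 * C2)) * x := by gcongr
  have h6 : (∑ r ∈ S, |fC a b T r.1 r.2|) ^ 2 ≤ (δ * x) ^ 2 := by
    calc (∑ r ∈ S, |fC a b T r.1 r.2|) ^ 2
        ≤ (S.card : ℝ) * ∑ r ∈ S, (fC a b T r.1 r.2) ^ 2 := h4
      _ ≤ (C1 * (δ ^ 2 / (C1 * C2)) * x) * (C2 * x) := by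
          apply mul_le_mul h5 h3 (Finset.sum_nonneg fun _ _ => sq_nonneg _)
          positivity
      _ = (δ * x) ^ 2 := by
          field_simp
  exact le_of_sq_le_sq h6 (by positivity)

end Pool.Agent.OmAll
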